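import Pool.Agent.P.MP_ef347d_lc.UnbInf

/-! The combined solver. -/

namespace Pool.Agent.P.MP_ef347d_lc

open Matrix UI

namespace UI

variable {m n : ℕ}

lemma dual_feas {t : ℕ} {D : Idx m n → ℝ} (hn : nS m n t = n) {lam : Fin (m + 1) → ℝ}
    (hl : ∀ i, 0 < lam i) (h0 : (G1 t D)ᵀ *ᵥ lam = 0) :
    ∃ y : Fin m → ℝ, (∀ i, 0 ≤ y i) ∧ (dA D)ᵀ *ᵥ y = dc D := by
  refine ⟨fun i => lam i.castSucc / lam (Fin.last m),
    fun i => div_nonneg (hl _).le (hl _).le, funext fun j => ?_⟩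
  have h1 := congrFun h0 ⟨j.val, by rw [hn]; exact j.2⟩
  simp only [mulVec, dotProduct, transpose_apply, Fin.sum_univ_castSucc, G1_cast_apply,
    G1_last_apply, Pi.zero_apply, neg_mul, Finset.sum_neg_distrib] at h1
  have h2 : ∑ i, dA D i j * lam i.castSucc = dc D j * lam (Fin.last m) := by
    have e : Fin.castLE (nS_le t) ⟨j.val, by rw [hn]; exact j.2⟩ = j := rfl
    rw [e] at h1
    linarith
  simp only [mulVec, dotProduct, transpose_apply, ← mul_div_assoc]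
  rw [← Finset.sum_div, h2, mul_div_assoc, div_self (hl _).ne', mul_one]

lemma G2_row {t : ℕ} (D : Idx m n → ℝ) (x : Fin n → ℝ) (i : Fin (mS m n t)) :
    (G2 t D *ᵥ x) i = (dA D *ᵥ x) (Fin.castLE (mS_le t) i) := rfl

lemma G3_row {t : ℕ} (D : Idx m n → ℝ) (x : Fin (n + 1) → ℝ) (i : Fin (mS m n t)) :
    (G3 t D *ᵥ x) i =
      (G2 t D *ᵥ fun j => x j.castSucc) i + bS t D i * x (Fin.last n) := by
  simp [mulVec, dotProduct, Fin.sum_univ_castSucc, G3]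

lemma feas2 {t : ℕ} {D : Idx m n → ℝ} (hm : mS m n t = m) {x : Fin n → ℝ}
    (hx : ∀ i, 0 < (G2 t D *ᵥ x) i) : ∃ x, Feasible D x := by
  refine ⟨_, (ev_feasible D (x := -x) fun i => ?_).exists.choose_spec⟩
  have := hx ⟨i.val, by rw [hm]; exact i.2⟩
  rw [G2_row] at this
  rw [mulVec_neg]
  exact neg_neg_of_pos this

lemma feas3 {t : ℕ} {D : Idx m n → ℝ} (hm : mS m n t = m) (hm0 : 0 < m)
    {lam : Fin (mS m n t) → ℝ} (hl : ∀ i, 0 < lam i) (h0 : (G2 t D)ᵀ *ᵥ lam = 0)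
    (hb : 0 ≤ bS t D ⬝ᵥ lam) {x : Fin (n + 1) → ℝ} (hx : ∀ i, 0 < (G3 t D *ᵥ x) i) :
    ∃ x, Feasible D x := by
  have h1 : 0 < ∑ i, (G3 t D *ᵥ x) i * lam i :=
    Finset.sum_pos (fun i _ => mul_pos (hx i) (hl i)) ⟨⟨0, by omega⟩, Finset.mem_univ _⟩
  have h2 : ∑ i, (G3 t D *ᵥ x) i * lam i =
      (G2 t D *ᵥ fun j => x j.castSucc) ⬝ᵥ lam + (bS t D ⬝ᵥ lam) * x (Fin.last n) := by
    simp only [G3_row, dotProduct, Finset.sum_mul, ← Finset.sum_add_distrib]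
    exact Finset.sum_congr rfl fun i _ => by ring
  rw [h2, dotProduct_comm, dotProduct_mulVec, ← mulVec_transpose, h0, zero_dotProduct,
    zero_add] at h1
  have hτ : 0 < x (Fin.last n) := by
    by_contra hc
    exact absurd h1 (not_lt.2 (mul_nonpos_of_nonneg_of_nonpos hb (not_lt.1 hc)))
  refine ⟨(-(x (Fin.last n))⁻¹) • fun j => x j.castSucc, fun i => ?_⟩
  have h3 := hx ⟨i.val, by rw [hm]; exact i.2⟩
  rw [G3_row, G2_row] at h3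
  have h4 : 0 < (dA D *ᵥ fun j => x j.castSucc) i + db D i * x (Fin.last n) := h3
  rw [mulVec_smul, Pi.smul_apply, smul_eq_mul, neg_mul, ← mul_neg, inv_mul_le_iff₀ hτ]
  linarith

end UI

theorem solver_all_of (O : Orc) (hO : O.Comp)
    (hopt : ∃ F, PI 4 F ∧ Sound F ∧
      ∀ (m n t : ℕ) (D : Idx m n → ℝ), 13 ≤ t → 1 ≤ n → n ≤ m → NonDeg (2 * thr t) D →
        (∃ x, Feasible D x) → (∃ y : Fin m → ℝ, (∀ i, 0 ≤ y i) ∧ (dA D)ᵀ *ᵥ y = dc D) →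
        (∀ k, k ≤ 2 ^ (t ^ 3) → O.OK (NN m n) t (mat (Gu (uGrid t k) D))) →
        0 < F m n (env D t) 0 0)
    (hbr : ∃ F, PI 4 F ∧ Sound F ∧
      ∀ (m n t : ℕ) (D : Idx m n → ℝ), 2 ^ (m + 1) ≤ t → 0 < F m n (env D t) 0 0) :
    ∃ F, PI 4 F ∧ Sound F ∧
      (∀ (m n t : ℕ) (D : Idx m n → ℝ), 13 ≤ t → 1 ≤ n → Good O t D →
        0 < F m n (env D t) 0 0) ∧
      ∀ (m n t : ℕ) (D : Idx m n → ℝ), 2 ^ (m + 1) ≤ t → 0 < F m n (env D t) 0 0 := by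
  obtain ⟨F₁, h₁, s₁, c₁⟩ := solver_unb O hO
  obtain ⟨F₂, h₂, s₂, c₂⟩ := solver_inf O hO
  obtain ⟨F₃, h₃, s₃, c₃⟩ := hopt
  obtain ⟨F₄, h₄, s₄, c₄⟩ := hbr
  obtain ⟨H₁, k₁, r₁, d₁⟩ := solver_or h₁ h₂ s₁ s₂
  obtain ⟨H₂, k₂, r₂, d₂⟩ := solver_or h₃ h₄ s₃ s₄
  obtain ⟨H, k, r, d⟩ := solver_or k₁ k₂ r₁ r₂
  refine ⟨H, k, r, fun m n t D ht hn hG => d m n _ ?_,
    fun m n t D h => d m n _ (Or.inr (d₂ m n _ (Or.inr (c₄ m n t D h))))⟩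
  have inf := fun h => Or.inl (b := 0 < H₂ m n (env D t) 0 0) (d₁ m n _ (Or.inr (c₂ m n t D h)))
  rcases (mS_le (m := m) (n := n) t).lt_or_eq with hm | hm
  · obtain ⟨ok, hu, hno⟩ := hG.1 hm
    exact inf (Or.inr ⟨ok.resolve_left fun hp => hno ⟨_, hp⟩, hu⟩)
  obtain ⟨ok1, nd1, rest⟩ := hG.2 hm
  rcases ok1 with hp | hd
  · exact Or.inl (d₁ m n _ (Or.inl (c₁ m n t D hp)))
  have hnot : ¬(nS m n t < n ∨ nS m n t = m + 1) := fun h => nd1 h ⟨_, hd⟩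
  have hle : nS m n t ≤ n := nS_le t
  have hle' : nS m n t ≤ m + 1 := (Nat.min_le_right _ _).trans (Nat.min_le_left _ _)
  have hns : nS m n t = n := by omega
  have hnm : n ≤ m := by omega
  obtain ⟨ok2, nd2, ok3, hN, hU⟩ := rest hns hnm
  have opt := fun h => Or.inr (a := 0 < H₁ m n (env D t) 0 0) (d₂ m n _ (Or.inl
    (c₃ m n t D ht hn hnm hN h (dual_feas hns hd.1 hd.2) hU)))
  rcases ok2 with hp2 | hd2
  · exact opt (feas2 hm hp2)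
  by_cases hb : bS t D ⬝ᵥ (O (NN m n) t _ _ (G2 t D)).2 < 0
  · exact inf (Or.inl ⟨hd2, hb⟩)
  have hne : n ≠ m := fun h => nd2 h ⟨_, hd2⟩
  obtain ⟨ok3, hu⟩ := ok3 (by omega)
  rcases ok3 with hp3 | hd3
  · exact opt (feas3 hm (by omega) hd2.1 hd2.2 (not_lt.1 hb) hp3)
  · exact inf (Or.inr ⟨hd3, hu⟩)

end Pool.Agent.P.MP_ef347d_lc
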