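import Pool.Agent.P.MP_ef347d_lc.Defs

/-! Shared auxiliary definitions for the proof of MP_ef347d_lc. -/

namespace Pool.Agent.P.MP_ef347d_lc

open Matrix MeasureTheory ProbabilityTheory

/-- standard Gaussian measure on `ι → ℝ` -/
noncomputable abbrev gam (ι : Type) [Fintype ι] : Measure (ι → ℝ) :=
  Measure.pi fun _ : ι => gaussianReal 0 1

/-- the matrix with entries `z (i, j)` -/
def mat {ι κ : Type} (z : ι × κ → ℝ) : Matrix ι κ ℝ := Matrix.of fun i j => z (i, j)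

/-- orthogonal projector onto the column space (for full column rank) -/
noncomputable def Pr {ι κ : Type} [Fintype ι] [Fintype κ] [DecidableEq κ] (A : Matrix ι κ ℝ) :
    Matrix ι ι ℝ := A * (Aᵀ * A)⁻¹ * Aᵀ

/-- orthogonal projection matrices -/
def IsProj {ι : Type} [Fintype ι] (P : Matrix ι ι ℝ) : Prop := Pᵀ = P ∧ P * P = P

/-- central point: `s > 0`, `s - 1 ∈ V`, `μ / s - 1 ∈ V^⊥` where `V = range P` -/
def Central {ι : Type} [Fintype ι] (P : Matrix ι ι ℝ) (μ : ℝ) (s : ι → ℝ) : Prop :=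
  (∀ k, 0 < s k) ∧ P *ᵥ (fun k => s k - 1) = (fun k => s k - 1) ∧ P *ᵥ (fun k => μ / s k - 1) = 0

/-- `v` is the orthogonal projection of the all-ones vector onto `S⁻¹ V` -/
def Speed {ι : Type} [Fintype ι] (P : Matrix ι ι ℝ) (s v : ι → ℝ) : Prop :=
  P *ᵥ (fun k => s k * v k) = (fun k => s k * v k) ∧ P *ᵥ (fun k => (1 - v k) / s k) = 0

/-- the bad set for the central point (primal form; the dual form is `PBad` for `1 - P`) -/
def PBad {ι : Type} [Fintype ι] (ε τ μ : ℝ) (P : Matrix ι ι ℝ) : Prop :=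
  ∃ s, Central P μ s ∧ ((∃ k, 1 + τ * (μ - 1) ≤ s k) ∨
    15 * Fintype.card ι ≤ 16 * {k | |s k - μ| ≤ ε * (μ - 1)}.ncard ∨ ∃ k, P k k ≤ ε)

/-- quantitative nondegeneracy of a linear program -/
def NonDeg {m n : ℕ} (η : ℝ) (D : Idx m n → ℝ) : Prop :=
  D ⬝ᵥ D ≤ 1 / η ∧ η ≤ dc D ⬝ᵥ dc D ∧ ∀ e : Fin n ↪o Fin m,
    IsUnit ((dA D).submatrix e id).det ∧
    ∀ H x y, H = ((dA D).submatrix e id)⁻¹ → x = H *ᵥ (fun i => db D (e i)) → y = Hᵀ *ᵥ dc D →
      (∀ k, k ∉ Set.range e → (dA D *ᵥ x) k ≠ db D k) ∧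
      ((∀ i, 0 ≤ y i) → Feasible D x →
        (∀ i, η ≤ y i) ∧ (∀ k, k ∉ Set.range e → η ≤ db D k - (dA D *ᵥ x) k) ∧
          ∑ i, ∑ j, H i j ^ 2 ≤ 1 / η)

/-- objective level `z(u)` -/
noncomputable def zLev (cc u : ℝ) : ℝ := (u - cc / u) / 2

/-- scale `w(u)`, with `w(u)^2 = cc + z(u)^2` -/
noncomputable def wLev (cc u : ℝ) : ℝ := (u + cc / u) / 2

/-- the matrix `G_u` of the binary search, an `(m+1) × n` matrix whose last row is `c` -/
noncomputable def Gu {m n : ℕ} (u : ℝ) (D : Idx m n → ℝ) : Fin (m + 1) × Fin n → ℝ := fun p =>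
  if h : p.1.val < m then
    -dA D ⟨p.1.val, h⟩ p.2 + (dA D *ᵥ dc D) ⟨p.1.val, h⟩ * dc D p.2 / (dc D ⬝ᵥ dc D) +
      (db D ⟨p.1.val, h⟩ - zLev (dc D ⬝ᵥ dc D) u * (dA D *ᵥ dc D) ⟨p.1.val, h⟩ / (dc D ⬝ᵥ dc D)) *
        dc D p.2 / wLev (dc D ⬝ᵥ dc D) u
  else dc D p.2

/-! ### The matrix language -/

/-- side length of the arrays -/
abbrev NN (m n : ℕ) : ℕ := m + n + 3

/-- square matrices of side `NN m n` -/
abbrev Mt (m n : ℕ) : Type := Matrix (Fin (NN m n)) (Fin (NN m n)) ℝ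

/-- uniform families of matrix valued functions of an environment of matrices -/
abbrev MF : Type := ∀ m n : ℕ, (ℕ → Mt m n) → Mt m n

/-- constant matrix -/
def cst {N : ℕ} (x : ℝ) : Matrix (Fin N) (Fin N) ℝ := Matrix.of fun _ _ => x

/-- the round parameter stored in a constant matrix -/
noncomputable def tOf {m n : ℕ} (X : Mt m n) : ℕ := ⌊X 0 0⌋₊

/-- extend an environment by `l` new entries at positions `k, …, k + l - 1` -/
def ext {α : Type} (k : ℕ) {l : ℕ} (Y : ℕ → α) (st : Fin l → α) : ℕ → α :=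
  fun i => if h : k ≤ i ∧ i < k + l then st ⟨i - k, by omega⟩ else Y i

/-- initial environment of round `t`: `t`, and `A`, `b`, `c` padded by zeros
(vectors are repeated in every column) -/
def env {m n : ℕ} (D : Idx m n → ℝ) (t : ℕ) : ℕ → Mt m n
  | 0 => cst t
  | 1 => Matrix.of fun i j =>
      if h : i.val < m ∧ j.val < n then dA D ⟨i.val, h.1⟩ ⟨j.val, h.2⟩ else 0
  | 2 => Matrix.of fun i _ => if h : i.val < m then db D ⟨i.val, h⟩ else 0
  | 3 => Matrix.of fun i _ => if h : i.val < n then dc D ⟨i.val, h⟩ else 0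
  | _ => 0

/-- flat position of a quadruple -/
def enc (N k i j l : ℕ) : ℕ := ((k * N + i) * N + j) * N + l

/-- register `r` of the memory holds the matrix `X` (constant along two of the four axes) -/
def HoldsM {m n : ℕ} (σ : ℕ → ℝ) (r : ℕ) (X : Mt m n) : Prop :=
  ∀ k i j l : Fin (NN m n), σ ((r + 1) * NN m n ^ 4 + enc (NN m n) k i j l) = X i j

/-- `F` is computed in time polynomial in the round parameter `t` (stored in entry `0`) from the
first `k` entries of the environment. -/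
def PM (k : ℕ) (F : MF) : Prop :=
  ∃ C e : ℕ, ∀ (loc : ℕ → ℕ) (s : ℕ), (∀ i, i < k → loc i < s) → ∃ c : Cmd,
    ∀ (m n t : ℕ) (Y : ℕ → Mt m n) (σ : ℕ → ℝ), NN m n ≤ 2 ^ t → Y 0 = cst t →
      (∀ i, i < k → HoldsM σ (loc i) (Y i)) →
      ∃ σ' T, Exec m n (NN m n ^ 4) c σ σ' T ∧ T ≤ C * t ^ e ∧ HoldsM σ' s (F m n Y) ∧
        ∀ a, NN m n ^ 4 ≤ a → a < (s + 1) * NN m n ^ 4 → σ' a = σ a

end Pool.Agent.P.MP_ef347d_lc
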