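import Pool.Agent.P.MP_ef347d_lc.Basic

/-! Definitions for the algorithm of MP_ef347d_lc: padding, the Gordan solver, the sub-solvers. -/

namespace Pool.Agent.P.MP_ef347d_lc

open Matrix

/-- a vector repeated in every column -/
def col {N : ℕ} (x : Fin N → ℝ) : Matrix (Fin N) (Fin N) ℝ := Matrix.of fun i _ => x i

/-- a matrix padded by zeros (or cut) to size `N × N` -/
def pad {N M d : ℕ} (A : Matrix (Fin M) (Fin d) ℝ) : Matrix (Fin N) (Fin N) ℝ :=
  Matrix.of fun i j => if h : i.val < M ∧ j.val < d then A ⟨i.val, h.1⟩ ⟨j.val, h.2⟩ else 0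

/-- a vector padded by zeros (or cut) to length `N` -/
def padv {N M : ℕ} (x : Fin M → ℝ) : Fin N → ℝ :=
  fun i => if h : i.val < M then x ⟨i.val, h⟩ else 0

/-- diagonal `0/1` matrix of the first `M` coordinates -/
def rmask (N M : ℕ) : Matrix (Fin N) (Fin N) ℝ := diagonal fun i => if i.val < M then 1 else 0

/-- the matrix language as an inductive closure (every such function satisfies `PM`) -/
inductive PI : ℕ → MF → Prop
  | var {k i : ℕ} (hi : i < k) : PI k (fun _ _ Y => Y i)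
  | num {k : ℕ} (c : ℕ) : PI k (fun _ _ _ => cst c)
  | rows {k : ℕ} : PI k (fun m _ _ => cst m)
  | cols {k : ℕ} : PI k (fun _ n _ => cst n)
  | rowIdx {k : ℕ} : PI k (fun _ _ _ => Matrix.of fun i _ => (i.val : ℝ))
  | op {k : ℕ} (o : Op) {F G : MF} (hF : PI k F) (hG : PI k G) :
      PI k (fun m n Y => Matrix.of fun i j => o.eval (F m n Y i j) (G m n Y i j))
  | transpose {k : ℕ} {F : MF} (hF : PI k F) : PI k (fun m n Y => (F m n Y)ᵀ)
  | mul {k : ℕ} (hk : 0 < k) {F G : MF} (hF : PI k F) (hG : PI k G) :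
      PI k (fun m n Y => F m n Y * G m n Y)
  | inv {k : ℕ} (hk : 0 < k) {F : MF} (hF : PI k F) (hs : ∀ m n Y, (F m n Y)ᵀ = F m n Y) :
      PI k (fun m n Y => (F m n Y)⁻¹)
  | call {k k₀ : ℕ} (hk : 0 < k) {F : MF} (hF : PI k₀ F) (g : ℕ → MF)
      (hg : ∀ i, 0 < i → i < k₀ → PI k (g i)) :
      PI k (fun m n Y => F m n (fun i => if i = 0 then Y 0 else g i m n Y))
  | iter {k l : ℕ} (hk : 0 < k) (a : ℕ) (init body : Fin l → MF)
      (hi : ∀ j, PI k (init j)) (hb : ∀ j, PI (k + l) (body j)) (j : Fin l) :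
      PI k (fun m n Y => ((fun (st : Fin l → Mt m n) (j' : Fin l) =>
        body j' m n (ext k Y st))^[tOf (Y 0) ^ a] (fun j' => init j' m n Y)) j)

/-- solvers for the Gordan alternative: array size, round, matrix ↦ primal and dual candidate -/
abbrev Orc : Type :=
  ∀ (_N _t M d : ℕ), Matrix (Fin M) (Fin d) ℝ → (Fin d → ℝ) × (Fin M → ℝ)

/-- the primal candidate works -/
def Orc.Pri (O : Orc) (N t : ℕ) {M d : ℕ} (A : Matrix (Fin M) (Fin d) ℝ) : Prop :=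
  ∀ i, 0 < (A *ᵥ (O N t M d A).1) i

/-- the dual candidate works -/
def Orc.Dua (O : Orc) (N t : ℕ) {M d : ℕ} (A : Matrix (Fin M) (Fin d) ℝ) : Prop :=
  (∀ i, 0 < (O N t M d A).2 i) ∧ Aᵀ *ᵥ (O N t M d A).2 = 0

/-- one of the two candidates works -/
def Orc.OK (O : Orc) (N t : ℕ) {M d : ℕ} (A : Matrix (Fin M) (Fin d) ℝ) : Prop :=
  O.Pri N t A ∨ O.Dua N t A

/-- the solver is computable in the matrix language -/
def Orc.Comp (O : Orc) : Prop :=
  ∃ Fx Fy : MF, PI 4 Fx ∧ PI 4 Fy ∧ ∀ (m n t M d : ℕ) (A : Matrix (Fin M) (Fin d) ℝ)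
    (Y : ℕ → Mt m n), M ≤ NN m n → d ≤ NN m n → Y 0 = cst t → Y 1 = pad A → Y 2 = cst M →
      Y 3 = cst d → Fx m n Y = col (padv (O (NN m n) t M d A).1) ∧
        Fy m n Y = col (padv (O (NN m n) t M d A).2)

/-- the solver rarely fails on Gaussian matrices that are small or balanced -/
def Orc.Tail (O : Orc) : Prop :=
  ∃ t₀ : ℕ, ∀ N t M d : ℕ, t₀ ≤ t → 1 ≤ d → d ≤ M → M ≤ N → N ≤ 2 ^ t →
    (M ≤ t ^ 2 ∨ (M ≤ 4 * d ∧ 4 * d ≤ 3 * M)) → ∀ σ : ℝ, σ ≠ 0 →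
      gam (Fin M × Fin d) {z | ¬ O.OK N t (σ • mat z)} ≤
        ENNReal.ofReal (Real.exp (-10 * (t : ℝ) ^ 3))

/-- the memory written by the driver from the result matrix -/
def outOf {m n : ℕ} (X : Mt m n) : ℕ → ℝ :=
  fun a => if h : a + 1 < NN m n then X ⟨a + 1, h⟩ 0 else 0

/-- whenever `F` reports success its answer is correct -/
def Sound (F : MF) : Prop :=
  ∀ (m n : ℕ) (D : Idx m n → ℝ) (t : ℕ), 0 < F m n (env D t) 0 0 →
    Solves D (outOf (F m n (env D t)))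

/-- number of columns used for the certificate of unboundedness -/
def nS (m n t : ℕ) : ℕ := min n (min (m + 1) ((2 * (m + 1) + 4 * t) / 3 + 1))

/-- number of rows used for the certificate of infeasibility -/
def mS (m n t : ℕ) : ℕ := min m (3 * n + 3 + 4 * t)

/-- rows `-A`, `c`, first `nS` columns -/
def G1 {m n : ℕ} (t : ℕ) (D : Idx m n → ℝ) : Matrix (Fin (m + 1)) (Fin (nS m n t)) ℝ :=
  Matrix.of fun i j =>
    if h : i.val < m then -dA D ⟨i.val, h⟩ (Fin.castLE (Nat.min_le_left _ _) j)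
    else dc D (Fin.castLE (Nat.min_le_left _ _) j)

/-- first `mS` rows of `A` -/
def G2 {m n : ℕ} (t : ℕ) (D : Idx m n → ℝ) : Matrix (Fin (mS m n t)) (Fin n) ℝ :=
  Matrix.of fun i j => dA D (Fin.castLE (Nat.min_le_left _ _) i) j

/-- first `mS` entries of `b` -/
def bS {m n : ℕ} (t : ℕ) (D : Idx m n → ℝ) : Fin (mS m n t) → ℝ :=
  fun i => db D (Fin.castLE (Nat.min_le_left _ _) i)

/-- first `mS` rows of `[A | b]` -/
def G3 {m n : ℕ} (t : ℕ) (D : Idx m n → ℝ) : Matrix (Fin (mS m n t)) (Fin (n + 1)) ℝ :=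
  Matrix.of fun i j => if h : j.val < n then G2 t D i ⟨j.val, h⟩ else bS t D i

/-- the threshold of round `t` -/
noncomputable def thr (t : ℕ) : ℝ := (1 / 2) ^ (t ^ 2)

/-- the grid of the binary search -/
noncomputable def uGrid (t k : ℕ) : ℝ := thr t ^ 3 + k / (thr t ^ 3 * 2 ^ (t ^ 3))

/-- no strictly positive vector in the left kernel -/
def NoDual {M d : ℕ} (A : Matrix (Fin M) (Fin d) ℝ) : Prop :=
  ¬ ∃ y : Fin M → ℝ, (∀ i, 0 < y i) ∧ Aᵀ *ᵥ y = 0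

/-- the event on which round `t` succeeds -/
def Good (O : Orc) (t : ℕ) {m n : ℕ} (D : Idx m n → ℝ) : Prop :=
  (mS m n t < m → O.OK (NN m n) t (G3 t D) ∧ IsUnit ((G3 t D)ᵀ * G3 t D).det ∧
    ¬ ∃ x, ∀ i, 0 < (G3 t D *ᵥ x) i) ∧
  (mS m n t = m → O.OK (NN m n) t (G1 t D) ∧
    ((nS m n t < n ∨ nS m n t = m + 1) → NoDual (G1 t D)) ∧
    (nS m n t = n → n ≤ m → O.OK (NN m n) t (G2 t D) ∧ (n = m → NoDual (G2 t D)) ∧
      (n + 1 ≤ m → O.OK (NN m n) t (G3 t D) ∧ IsUnit ((G3 t D)ᵀ * G3 t D).det) ∧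
      NonDeg (2 * thr t) D ∧
      ∀ k, k ≤ 2 ^ (t ^ 3) → O.OK (NN m n) t (mat (Gu (uGrid t k) D))))

/-! ### The path following solver -/

section find

variable {ι : Type} [Fintype ι] [DecidableEq ι]

/-- clipping to `[5/6, 6/5]` -/
noncomputable def clip (x : ℝ) : ℝ := max (5 / 6) (min x (6 / 5))

/-- orthogonal projector onto `S⁻¹ V`, `V = range P` -/
noncomputable def sproj (P : Matrix ι ι ℝ) (s : ι → ℝ) : Matrix ι ι ℝ :=
  diagonal (fun k => 1 / s k) *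
    (Pᵀ * diagonal (fun k => 1 / s k ^ 2) * P + (1 - P)ᵀ * (1 - P))⁻¹ * P *
      diagonal (fun k => 1 / s k)

/-- one step of the corrector -/
noncomputable def corr (Q : Matrix ι ι ℝ) (g r : ι → ℝ) : ι → ℝ :=
  fun k => 1 + (Q *ᵥ fun j => clip (r j) + 1 / clip (r j) - 1 - g j) k

/-- one long step along the central path -/
noncomputable def cstep (P : Matrix ι ι ℝ) (τ : ℕ) (st : (ι → ℝ) × ℝ) : (ι → ℝ) × ℝ :=
  (fun k => st.1 k * (corr (sproj P st.1)
      (fun j => st.1 j / (st.2 * (1 + 1 / (τ : ℝ) ^ 8))))^[τ] (fun _ => 1) k,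
    st.2 * (1 + 1 / (τ : ℝ) ^ 8))

/-- the candidate positive vector in the range of `P` -/
noncomputable def find (P : Matrix ι ι ℝ) (τ : ℕ) : ι → ℝ :=
  fun k => ((cstep P τ)^[τ ^ 10] (fun _ => 1, 1)).1 k - 1

/-- the coarse grid of the path parameter -/
noncomputable def cgrid (τ i : ℕ) : ℝ := (1 + 1 / (τ : ℝ) ^ 8) ^ i

/-- the fine grid of the path parameter -/
noncomputable def fgrid (τ M j : ℕ) : ℝ := (1 + 1 / (τ : ℝ) ^ 8) ^ ((j : ℝ) / M)

/-- consecutive central points of the coarse grid are within the factor `ρ` -/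
def Slow (ρ : ℝ) (P : Matrix ι ι ℝ) (τ : ℕ) : Prop :=
  ∀ i, i < τ ^ 10 → ∀ s s', Central P (cgrid τ i) s → Central P (cgrid τ (i + 1)) s' →
    ∀ k, s' k ≤ ρ * s k ∧ s k ≤ ρ * s' k

/-- some coordinate of the logarithmic speed of the central point is larger than `L` -/
def Fast (L μ : ℝ) (P : Matrix ι ι ℝ) : Prop :=
  ∃ s v, Central P μ s ∧ Speed P s v ∧ ∃ k, L < |v k|

end find

/-- inverse Gram matrix of a padded matrix -/
noncomputable def gramInv {N : ℕ} (G : Matrix (Fin N) (Fin N) ℝ) (d : ℕ) :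
    Matrix (Fin N) (Fin N) ℝ := (Gᵀ * G + (1 - rmask N d))⁻¹

/-- the Gordan solver -/
noncomputable def orc : Orc := fun N t M d A =>
  (padv ((gramInv (pad (N := N) A) d * (pad A)ᵀ) *ᵥ
      find (pad A * gramInv (pad A) d * (pad A)ᵀ + (1 - rmask N M)) (t ^ 3)),
    padv (find (1 - pad (N := N) A * gramInv (pad A) d * (pad A)ᵀ) (t ^ 3)))

/-- the tail bound for the speed of the central path of a Gaussian matrix -/
def SpeedTail : Prop :=
  ∃ τ₀ : ℕ, ∀ τ M d : ℕ, τ₀ ≤ τ → τ ^ 13 < M → M ≤ 2 ^ τ → M ≤ 4 * d → 4 * d ≤ 3 * M →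
    ∀ μ : ℝ, 1 < μ → gam (Fin M × Fin d)
      {z | IsUnit ((mat z)ᵀ * mat z).det ∧ Fast ((τ : ℝ) ^ 7) μ (Pr (mat z))} ≤
        ENNReal.ofReal (Real.exp (-15 * (τ : ℝ)))

/-- the conclusion of `machine_main` for `F` -/
def Driver (F : MF) : Prop :=
  ∃ (c : Cmd) (C e : ℕ), ∀ (m n : ℕ)
    (D : Idx m n → ℝ) (T : ℕ), Nat.clog 2 (NN m n) ≤ T → 0 < F m n (env D T) 0 0 →
    ∃ t, t ≤ T ∧ Nat.clog 2 (NN m n) ≤ t ∧ 0 < F m n (env D t) 0 0 ∧ ∃ σ steps,
      Exec m n (NN m n ^ 4) c (input D) σ steps ∧ steps ≤ C * T ^ e ∧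
      σ 0 = F m n (env D t) 1 0 ∧
      ∀ j : Fin n, σ (j.val + 1) = F m n (env D t) ⟨j.val + 2, by have := j.2; unfold NN; omega⟩ 0

end Pool.Agent.P.MP_ef347d_lc
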