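import Pool.Agent.P.MP_ef347d_lc.Basic

/-! Gaussian toolkit. -/

namespace Pool.Agent.P.MP_ef347d_lc

open Matrix MeasureTheory ProbabilityTheory Complex

variable {ι κ ι' : Type} [Fintype ι] [Fintype κ] [Fintype ι']

lemma gam_cf (w : ι → ℝ) :
    ∫ z, cexp ((z ⬝ᵥ w : ℝ) * I) ∂gam ι = cexp (-((w ⬝ᵥ w : ℝ) : ℂ) / 2) := by
  have h : ∀ z : ι → ℝ, cexp ((z ⬝ᵥ w : ℝ) * I) = ∏ i, cexp ((w i : ℂ) * (z i : ℂ) * I) := by
    intro z
    rw [← Complex.exp_sum]
    congr 1
    simp only [dotProduct, ofReal_sum, ofReal_mul, Finset.sum_mul]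
    exact Finset.sum_congr rfl fun i _ => by ring
  simp_rw [h]
  rw [integral_fintype_prod_eq_prod (f := fun i (x : ℝ) => cexp ((w i : ℂ) * (x : ℂ) * I))]
  simp_rw [← charFun_apply_real, charFun_gaussianReal, ← Complex.exp_sum]
  congr 1
  simp only [dotProduct, ofReal_sum, ofReal_mul, ofReal_zero, mul_zero, zero_mul, NNReal.coe_one,
    ofReal_one, one_mul, zero_sub, Finset.sum_neg_distrib, neg_div, Finset.sum_div]
  congr 1
  exact Finset.sum_congr rfl fun i _ => by ring

lemma eq_gam_of_cf (ν : Measure (κ → ℝ)) [IsProbabilityMeasure ν]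
    (h : ∀ w : κ → ℝ, ∫ z, cexp ((z ⬝ᵥ w : ℝ) * I) ∂ν = cexp (-((w ⬝ᵥ w : ℝ) : ℂ) / 2)) :
    ν = gam κ := by
  classical
  apply Measure.ext_of_charFunDual
  ext L
  have hL : ∀ z : κ → ℝ, L z = z ⬝ᵥ (fun j => L (Pi.single j 1)) := by
    intro z
    have h1 := congrArg L (pi_eq_sum_univ' z)
    rw [map_sum] at h1
    rw [h1]
    exact Finset.sum_congr rfl fun i _ => by rw [map_smul, smul_eq_mul]
  obtain ⟨w, hw⟩ : ∃ w : κ → ℝ, ∀ z, L z = z ⬝ᵥ w := ⟨_, hL⟩
  rw [charFunDual_apply, charFunDual_apply]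
  simp_rw [hw]
  rw [h, gam_cf]

lemma meas_lin (f : (ι → ℝ) →ₗ[ℝ] (κ → ℝ)) : Measurable f :=
  (LinearMap.continuous_of_finiteDimensional f).measurable

lemma cont_dot (w : ι → ℝ) : Continuous fun z : ι → ℝ => z ⬝ᵥ w := by
  unfold dotProduct; fun_prop

lemma cont_dot' (w : ι → ℝ) : Continuous fun z : ι → ℝ => w ⬝ᵥ z := by
  unfold dotProduct; fun_prop

theorem gam_map (f : (ι → ℝ) →ₗ[ℝ] (κ → ℝ))
    (g : (κ → ℝ) → (ι → ℝ)) (hadj : ∀ z w, f z ⬝ᵥ w = z ⬝ᵥ g w)
    (hiso : ∀ w, g w ⬝ᵥ g w = w ⬝ᵥ w) : MeasurePreserving f (gam ι) (gam κ) := by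
  refine ⟨meas_lin f, ?_⟩
  have := Measure.isProbabilityMeasure_map (μ := gam ι) (meas_lin f).aemeasurable
  apply eq_gam_of_cf
  intro w
  rw [integral_map (meas_lin f).aemeasurable]
  · simp_rw [hadj]
    rw [gam_cf, hiso]
  · have := cont_dot w
    exact Continuous.aestronglyMeasurable (by fun_prop)

theorem gam_map₂ (f : (ι → ℝ) →ₗ[ℝ] (κ → ℝ)) (f' : (ι' → ℝ) →ₗ[ℝ] (κ → ℝ))
    (g : (κ → ℝ) → (ι → ℝ)) (g' : (κ → ℝ) → (ι' → ℝ)) (hadj : ∀ z w, f z ⬝ᵥ w = z ⬝ᵥ g w)
    (hadj' : ∀ z w, f' z ⬝ᵥ w = z ⬝ᵥ g' w)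
    (hiso : ∀ w, g w ⬝ᵥ g w + g' w ⬝ᵥ g' w = w ⬝ᵥ w) :
    MeasurePreserving (fun p : (ι → ℝ) × (ι' → ℝ) => f p.1 + f' p.2) ((gam ι).prod (gam ι'))
      (gam κ) := by
  have hm : Measurable (fun p : (ι → ℝ) × (ι' → ℝ) => f p.1 + f' p.2) :=
    ((meas_lin f).comp measurable_fst).add ((meas_lin f').comp measurable_snd)
  refine ⟨hm, ?_⟩
  have := Measure.isProbabilityMeasure_map (μ := (gam ι).prod (gam ι')) hm.aemeasurable
  apply eq_gam_of_cf
  intro w
  rw [integral_map hm.aemeasurable]
  · simp_rw [add_dotProduct, hadj, hadj', ofReal_add, add_mul, Complex.exp_add]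
    rw [integral_prod_mul (fun z : ι → ℝ => cexp ((z ⬝ᵥ g w : ℝ) * I))
      (fun z : ι' → ℝ => cexp ((z ⬝ᵥ g' w : ℝ) * I)), gam_cf, gam_cf, ← Complex.exp_add, ← hiso w]
    congr 1
    push_cast
    ring
  · have := cont_dot w
    exact Continuous.aestronglyMeasurable (by fun_prop)

/-- a unit linear form is standard Gaussian -/
theorem gam_dot (ν : ι → ℝ) (hν : ν ⬝ᵥ ν = 1) :
    MeasurePreserving (fun z : ι → ℝ => ν ⬝ᵥ z) (gam ι) (gaussianReal 0 1) := by
  let f : (ι → ℝ) →ₗ[ℝ] (Unit → ℝ) :=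
    { toFun := fun z _ => ν ⬝ᵥ z
      map_add' := fun x y => by ext; simp [dotProduct_add]
      map_smul' := fun c x => by ext; simp [dotProduct_smul] }
  have h1 : MeasurePreserving f (gam ι) (gam Unit) := by
    refine gam_map f (fun w => w () • ν) ?_ ?_
    · intro z w
      simp [f, dotProduct, Finset.mul_sum, mul_comm, mul_left_comm]
    · intro w
      simp only [smul_dotProduct, dotProduct_smul, hν]
      simp [dotProduct]
  exact (measurePreserving_eval (μ := fun _ : Unit => gaussianReal 0 1) ()).comp h1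

lemma gauss_le_vol (s : Set ℝ) : gaussianReal 0 1 s ≤ volume s := by
  rw [gaussianReal_of_var_ne_zero 0 one_ne_zero]
  have h : (volume.withDensity (gaussianPDF 0 1) : Measure ℝ) ≤ volume.withDensity 1 := by
    apply withDensity_mono
    refine Filter.Eventually.of_forall fun x => ?_
    simp only [gaussianPDF, gaussianPDFReal, Pi.one_apply]
    rw [ENNReal.ofReal_le_one]
    have h1 : Real.exp (-(x - 0) ^ 2 / (2 * ((1 : NNReal) : ℝ))) ≤ 1 := by
      rw [Real.exp_le_one_iff]
      have := sq_nonneg (x - 0)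
      simp only [NNReal.coe_one]; linarith
    have h2 : (√(2 * Real.pi * ((1 : NNReal) : ℝ)))⁻¹ ≤ 1 := by
      apply inv_le_one_of_one_le₀
      rw [Real.one_le_sqrt]
      have := Real.pi_gt_three
      simp only [NNReal.coe_one]; linarith
    exact mul_le_one₀ h2 (Real.exp_pos _).le h1
  rw [withDensity_one] at h
  exact h s

theorem gam_slab (ν : ι → ℝ) (hν : ν ⬝ᵥ ν = 1) (a η : ℝ) :
    gam ι {z | a ≤ ν ⬝ᵥ z ∧ ν ⬝ᵥ z ≤ a + η} ≤ ENNReal.ofReal η := by
  have := (gam_dot ν hν).measure_preimage (s := Set.Icc a (a + η))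
    measurableSet_Icc.nullMeasurableSet
  refine le_trans (le_of_eq this) ((gauss_le_vol _).trans ?_)
  simp

lemma gauss_tail (l : ℝ) (hl : 0 ≤ l) :
    gaussianReal 0 1 {x | l ≤ x} ≤ ENNReal.ofReal (Real.exp (-l ^ 2 / 2)) := by
  have h := measure_ge_le_exp_mul_mgf (μ := gaussianReal 0 1) (X := id) l hl
    (integrable_exp_mul_gaussianReal l)
  rw [mgf_id_gaussianReal] at h
  simp only [id, zero_mul, NNReal.coe_one, one_mul, zero_add, ← Real.exp_add] at h
  rw [← ENNReal.ofReal_toReal (measure_ne_top (gaussianReal 0 1) {x | l ≤ x})]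
  apply ENNReal.ofReal_le_ofReal
  refine le_trans h (le_of_eq ?_)
  congr 1; ring

theorem gam_tail (ν : ι → ℝ) (r l : ℝ) (hν : ν ⬝ᵥ ν ≤ r ^ 2) (hr : 0 < r)
    (hl : 0 ≤ l) : gam ι {z | l * r ≤ ν ⬝ᵥ z} ≤ ENNReal.ofReal (Real.exp (-l ^ 2 / 2)) := by
  by_cases h0 : ν ⬝ᵥ ν = 0
  · have hz : ν = 0 := dotProduct_self_eq_zero.mp h0
    by_cases hl0 : l = 0
    · subst hl0; simpa using prob_le_one
    · have : {z : ι → ℝ | l * r ≤ ν ⬝ᵥ z} = ∅ := by
        ext z
        have : 0 < l * r := mul_pos (lt_of_le_of_ne hl (Ne.symm hl0)) hr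
        simp [hz, this]
      simp [this]
  · have hpos : 0 < ν ⬝ᵥ ν :=
      lt_of_le_of_ne (Finset.sum_nonneg fun i _ => mul_self_nonneg _) (Ne.symm h0)
    set ρ := √(ν ⬝ᵥ ν) with hρ
    have hρpos : 0 < ρ := Real.sqrt_pos.mpr hpos
    have hρsq : ρ * ρ = ν ⬝ᵥ ν := Real.mul_self_sqrt hpos.le
    have hρr : ρ ≤ r := by
      rw [hρ]; exact Real.sqrt_le_iff.mpr ⟨hr.le, hν⟩
    have hu : (ρ⁻¹ • ν) ⬝ᵥ (ρ⁻¹ • ν) = 1 := by
      simp only [smul_dotProduct, dotProduct_smul, smul_eq_mul, ← hρsq]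
      field_simp
    have := (gam_dot _ hu).measure_preimage (s := {x | l ≤ x})
      (measurableSet_le measurable_const measurable_id).nullMeasurableSet
    refine le_trans (measure_mono ?_) (le_trans (le_of_eq this) (gauss_tail l hl))
    intro z hz
    simp only [Set.mem_ofPred_eq, Set.mem_preimage, smul_dotProduct, smul_eq_mul] at hz ⊢
    rw [le_inv_mul_iff₀ hρpos]
    nlinarith [mul_le_mul_of_nonneg_left hρr hl]

/-- resampling along a unit direction -/
theorem gam_le_of_line (ν : ι → ℝ) (hν : ν ⬝ᵥ ν = 1) {E : Set (ι → ℝ)} (hE : MeasurableSet E)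
    {p : ENNReal} (h : ∀ z, gaussianReal 0 1 {r | z + r • ν ∈ E} ≤ p) : gam ι E ≤ p := by
  let f : (ι → ℝ) →ₗ[ℝ] (ι → ℝ) :=
    { toFun := fun z => z - (ν ⬝ᵥ z) • ν
      map_add' := fun x y => by ext; simp [dotProduct_add]; ring
      map_smul' := fun c x => by ext; simp [dotProduct_smul]; ring }
  let f' : (Unit → ℝ) →ₗ[ℝ] (ι → ℝ) :=
    { toFun := fun z => z () • ν
      map_add' := fun x y => by ext; simp; ring
      map_smul' := fun c x => by ext; simp; ring }
  have h1 := gam_map₂ f f' f (fun w _ => ν ⬝ᵥ w) ?_ ?_ ?_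
  · rw [← h1.measure_preimage hE.nullMeasurableSet, Measure.prod_apply (h1.measurable hE)]
    calc _ ≤ ∫⁻ _, p ∂gam ι := by
          apply lintegral_mono
          intro z
          have h2 := (measurePreserving_eval (μ := fun _ : Unit => gaussianReal 0 1)
            ()).measure_preimage (s := {r | f z + r • ν ∈ E}) ?_
          · exact le_trans (le_of_eq h2) (h _)
          · apply MeasurableSet.nullMeasurableSet
            exact (by fun_prop : Measurable fun r : ℝ => f z + r • ν) hE
      _ = p := by simp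
  · intro z w
    simp only [f, LinearMap.coe_mk, AddHom.coe_mk, sub_dotProduct, dotProduct_sub,
      smul_dotProduct, dotProduct_smul, smul_eq_mul, dotProduct_comm z ν]
    ring
  · intro z w
    simp only [f', LinearMap.coe_mk, AddHom.coe_mk, smul_dotProduct, smul_eq_mul]
    simp [dotProduct]
  · intro w
    have : ((fun _ : Unit => ν ⬝ᵥ w) ⬝ᵥ fun _ : Unit => ν ⬝ᵥ w) = (ν ⬝ᵥ w) * (ν ⬝ᵥ w) := by
      simp [dotProduct]
    rw [this]
    simp only [f, LinearMap.coe_mk, AddHom.coe_mk, sub_dotProduct, dotProduct_sub,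
      smul_dotProduct, dotProduct_smul, smul_eq_mul, dotProduct_comm w ν, hν]
    ring

/-- resampling the coordinates in `J` -/
theorem gam_resample (J : ι → Prop) [DecidablePred J] :
    MeasurePreserving (fun p : (ι → ℝ) × (ι → ℝ) => fun i => if J i then p.2 i else p.1 i)
      ((gam ι).prod (gam ι)) (gam ι) := by
  let f : (ι → ℝ) →ₗ[ℝ] (ι → ℝ) :=
    { toFun := fun z i => if J i then 0 else z i
      map_add' := fun x y => by ext i; by_cases h : J i <;> simp [h]
      map_smul' := fun c x => by ext i; by_cases h : J i <;> simp [h] }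
  let f' : (ι → ℝ) →ₗ[ℝ] (ι → ℝ) :=
    { toFun := fun z i => if J i then z i else 0
      map_add' := fun x y => by ext i; by_cases h : J i <;> simp [h]
      map_smul' := fun c x => by ext i; by_cases h : J i <;> simp [h] }
  have h1 := gam_map₂ f f' f f' ?_ ?_ ?_
  · convert h1 using 2
    ext i
    by_cases h : J i <;> simp [f, f', h]
  · intro z w
    exact Finset.sum_congr rfl fun i _ => by by_cases h : J i <;> simp [f, h]
  · intro z w
    exact Finset.sum_congr rfl fun i _ => by by_cases h : J i <;> simp [f', h]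
  · intro w
    simp only [dotProduct, ← Finset.sum_add_distrib]
    exact Finset.sum_congr rfl fun i _ => by by_cases h : J i <;> simp [f, f', h]

theorem gam_le_of_block (J : ι → Prop) [DecidablePred J] {E : Set (ι → ℝ)} (hE : MeasurableSet E)
    {p : ENNReal} (h : ∀ᵐ z ∂gam ι, gam ι {w | (fun i => if J i then w i else z i) ∈ E} ≤ p) :
    gam ι E ≤ p := by
  have h1 := gam_resample J
  rw [← h1.measure_preimage hE.nullMeasurableSet, Measure.prod_apply (h1.measurable hE)]
  calc _ ≤ ∫⁻ _, p ∂gam ι := lintegral_mono_ae h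
    _ = p := by simp

lemma cont_mat {ι κ : Type} : Continuous (fun z : ι × κ → ℝ => mat z) := by
  unfold mat
  exact continuous_matrix fun i j => by simpa using continuous_apply (i, j)

theorem gam_rank [DecidableEq κ] (h : Fintype.card κ ≤ Fintype.card ι) :
    ∀ᵐ z ∂(gam (ι × κ)), IsUnit ((mat z)ᵀ * mat z).det := by
  classical
  rcases isEmpty_or_nonempty κ with hκ | hκ
  · exact Filter.Eventually.of_forall fun z => by simp
  obtain ⟨e⟩ := Function.Embedding.nonempty_of_card_le h
  set ρ : ℝ := √(Fintype.card κ) with hρ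
  have hcard : (0 : ℝ) < Fintype.card κ := by exact_mod_cast Fintype.card_pos
  have hρpos : 0 < ρ := Real.sqrt_pos.mpr hcard
  have hρsq : ρ * ρ = Fintype.card κ := Real.mul_self_sqrt hcard.le
  let ν : ι × κ → ℝ := fun p => if p.1 = e p.2 then ρ⁻¹ else 0
  have hν : ν ⬝ᵥ ν = 1 := by
    simp only [dotProduct, ν, Fintype.sum_prod_type_right, ite_mul, zero_mul, mul_ite, mul_zero]
    simp only [Finset.sum_ite_eq', Finset.mem_univ, if_true, Finset.sum_const, Finset.card_univ,
      nsmul_eq_mul, ← hρsq]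
    field_simp
  have hE : MeasurableSet {z : ι × κ → ℝ | ((mat z).submatrix e id).det = 0} := by
    apply IsClosed.measurableSet
    refine isClosed_eq ?_ continuous_const
    exact (cont_mat.matrix_submatrix e id).matrix_det
  have h0 := gam_le_of_line ν hν hE (p := 0) ?_
  · rw [ae_iff]
    refine le_antisymm (le_trans (measure_mono ?_) h0) zero_le
    intro z hz
    simp only [Set.mem_ofPred_eq] at hz ⊢
    by_contra hne
    apply hz
    rw [isUnit_iff_ne_zero]
    intro hdet
    obtain ⟨x, hx, hx0⟩ := Matrix.exists_mulVec_eq_zero_iff.mpr hdet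
    have h1 : (mat z *ᵥ x) ⬝ᵥ (mat z *ᵥ x) = 0 := by
      rw [← mulVec_mulVec] at hx0
      have := congrArg (fun w => x ⬝ᵥ w) hx0
      simp only [dotProduct_zero] at this
      rwa [dotProduct_mulVec, vecMul_transpose] at this
    have h2 : mat z *ᵥ x = 0 := dotProduct_self_eq_zero.mp h1
    apply hne
    apply Matrix.exists_mulVec_eq_zero_iff.mp ⟨x, hx, ?_⟩
    ext j
    have := congrFun h2 (e j)
    simpa [mulVec, dotProduct] using this
  · intro z
    have hfin : {r : ℝ | z + r • ν ∈ {z : ι × κ → ℝ | ((mat z).submatrix e id).det = 0}}.Finite := by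
      have hsub : {r : ℝ | z + r • ν ∈ {z : ι × κ → ℝ | ((mat z).submatrix e id).det = 0}} ⊆
          (fun x => ρ * x) '' {x | (-((mat z).submatrix e id)).charpoly.IsRoot x} := by
        intro r hr
        refine ⟨r * ρ⁻¹, ?_, by field_simp⟩
        simp only [Set.mem_ofPred_eq, Polynomial.IsRoot, Matrix.eval_charpoly] at hr ⊢
        rw [← hr]
        congr 1
        ext i j
        by_cases hij : i = j
        · subst hij; simp [mat, ν, add_comm]
        · simp [mat, ν, hij, e.injective.ne hij]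
      exact (Set.Finite.image _ (Polynomial.finite_setOfPred_isRoot
        (Matrix.charpoly_monic _).ne_zero)).subset hsub
    have := nullSingletonClass_gaussianReal (μ := 0) (v := 1) one_ne_zero
    exact le_of_eq (hfin.measure_zero _)

/-- Gaussian density -/
noncomputable def gd (z : ι → ℝ) : ℝ :=
  (√(2 * Real.pi))⁻¹ ^ Fintype.card ι * Real.exp (-(z ⬝ᵥ z) / 2)

lemma gd_eq (z : ι → ℝ) : gd z = ∏ i, gaussianPDFReal 0 1 (z i) := by
  simp only [gd, gaussianPDFReal, Finset.prod_mul_distrib, Finset.prod_const, Finset.card_univ,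
    ← Real.exp_sum, NNReal.coe_one, mul_one, sub_zero, dotProduct]
  congr 2
  rw [neg_div, Finset.sum_div, ← Finset.sum_neg_distrib]
  exact Finset.sum_congr rfl fun i _ => by ring

lemma gd_pos (z : ι → ℝ) : 0 < gd z := by
  unfold gd
  have := Real.pi_pos
  positivity

lemma cont_gd : Continuous (gd : (ι → ℝ) → ℝ) := by
  unfold gd dotProduct; fun_prop

lemma meas_gd : Measurable fun z : ι → ℝ => ENNReal.ofReal (gd z) :=
  cont_gd.measurable.ennreal_ofReal

theorem gam_eq : gam ι = volume.withDensity fun z => ENNReal.ofReal (gd z) := by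
  apply Measure.pi_eq
  intro s hs
  rw [withDensity_apply _ (MeasurableSet.univ_pi hs), volume_pi, Measure.restrict_pi_pi]
  simp_rw [gd_eq]
  rw [← ofReal_integral_eq_lintegral_ofReal,
    integral_fintype_prod_eq_prod (f := fun _ x => gaussianPDFReal 0 1 x),
    ENNReal.ofReal_prod_of_nonneg]
  · exact Finset.prod_congr rfl fun i _ => (gaussianReal_apply_eq_integral 0 one_ne_zero _).symm
  · intro i _
    exact integral_nonneg fun x => gaussianPDFReal_nonneg _ _ _
  · exact Integrable.fintype_prod (f := fun _ x => gaussianPDFReal 0 1 x)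
      fun i => (integrable_gaussianPDFReal 0 1).restrict
  · exact Filter.Eventually.of_forall fun z =>
      Finset.prod_nonneg fun i _ => gaussianPDFReal_nonneg _ _ _

lemma lintegral_gam {F : (ι → ℝ) → ENNReal} (hF : Measurable F) :
    ∫⁻ z, F z ∂gam ι = ∫⁻ z, ENNReal.ofReal (gd z) * F z := by
  rw [gam_eq, lintegral_withDensity_eq_lintegral_mul _ meas_gd hF]
  rfl

lemma lintegral_gd : ∫⁻ z : ι → ℝ, ENNReal.ofReal (gd z) = 1 := by
  have := lintegral_gam (ι := ι) (F := fun _ => 1) measurable_const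
  simpa using this.symm

/-- linear change of variables that absorbs a quadratic tilt -/
theorem gam_tilt (L : (ι → ℝ) →ₗ[ℝ] (ι → ℝ)) (hL : LinearMap.det L ≠ 0) (q : (ι → ℝ) → ℝ)
    (hq : Measurable q) (h : ∀ z, L z ⬝ᵥ L z + q (L z) = z ⬝ᵥ z) {F : (ι → ℝ) → ENNReal}
    (hF : Measurable F) :
    ∫⁻ z, ENNReal.ofReal (Real.exp (-q z / 2)) * F z ∂gam ι =
      ENNReal.ofReal |LinearMap.det L| * ∫⁻ z, F (L z) ∂gam ι := by
  have hm : Measurable fun z => ENNReal.ofReal (Real.exp (-q z / 2)) * F z := by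
    refine Measurable.mul (Measurable.ennreal_ofReal ?_) hF
    fun_prop
  rw [lintegral_gam hm, lintegral_gam (F := fun z => F (L z)) (hF.comp (meas_lin L))]
  have hmap := Real.map_linearMap_volume_pi_eq_smul_volume_pi hL
  have h1 := lintegral_map (μ := volume) (meas_gd.mul hm) (meas_lin L)
  rw [hmap, lintegral_smul_measure] at h1
  have h2 : ∀ z, ENNReal.ofReal (gd (L z)) * (ENNReal.ofReal (Real.exp (-q (L z) / 2)) * F (L z))
      = ENNReal.ofReal (gd z) * F (L z) := by
    intro z
    rw [← mul_assoc, ← ENNReal.ofReal_mul (gd_pos _).le]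
    congr 2
    simp only [gd, mul_assoc, ← Real.exp_add, ← h z]
    congr 2; ring
  simp only [Pi.mul_apply, h2] at h1
  rw [← h1, smul_eq_mul, ← mul_assoc, ← ENNReal.ofReal_mul (abs_nonneg _), ← abs_mul,
    mul_inv_cancel₀ hL]
  simp

theorem gam_shift (v : ι → ℝ) (E : Set (ι → ℝ)) (l : ℝ) (hl : 0 < l) :
    gam ι {z | z + v ∈ E} ≤
      ENNReal.ofReal l * gam ι E + ENNReal.ofReal (Real.exp (v ⬝ᵥ v) / l) := by
  set E' := toMeasurable (gam ι) E
  have hE' : MeasurableSet E' := measurableSet_toMeasurable _ _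
  rw [← measure_toMeasurable E]
  have hs : MeasurableSet {z | z + v ∈ E'} := (measurable_add_const v) hE'
  calc gam ι {z | z + v ∈ E} ≤ gam ι {z | z + v ∈ E'} :=
        measure_mono fun z hz => subset_toMeasurable _ _ hz
    _ = ∫⁻ z, ENNReal.ofReal (gd z) * E'.indicator 1 (z + v) := by
        rw [← lintegral_indicator_one hs, lintegral_gam (measurable_one.indicator hs)]
        rfl
    _ = ∫⁻ z, ENNReal.ofReal (gd (z - v)) * E'.indicator 1 z := by
        rw [← lintegral_add_right_eq_self (μ := volume)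
          (fun z => ENNReal.ofReal (gd (z - v)) * E'.indicator 1 z) v]
        simp
    _ ≤ ∫⁻ z, (ENNReal.ofReal l * (ENNReal.ofReal (gd z) * E'.indicator 1 z) +
          ENNReal.ofReal (Real.exp (v ⬝ᵥ v) / l) * ENNReal.ofReal (gd (z - (2 : ℝ) • v))) := by
        apply lintegral_mono
        intro z
        by_cases hz : z ∈ E'
        · simp only [hz, Set.indicator_of_mem, Pi.one_apply, mul_one]
          rw [← ENNReal.ofReal_mul hl.le, ← ENNReal.ofReal_mul (by positivity),
            ← ENNReal.ofReal_add (mul_pos hl (gd_pos _)).le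
              (mul_pos (by positivity) (gd_pos _)).le]
          apply ENNReal.ofReal_le_ofReal
          set x := Real.exp (v ⬝ᵥ z - v ⬝ᵥ v / 2) with hx
          have hxpos : 0 < x := Real.exp_pos _
          have e1 : gd (z - v) = gd z * x := by
            simp only [gd, hx, mul_assoc, ← Real.exp_add, sub_dotProduct, dotProduct_sub,
              dotProduct_comm z v]
            congr 2; ring
          have e2 : Real.exp (v ⬝ᵥ v) * gd (z - (2 : ℝ) • v) = gd z * (x * x) := by
            simp only [gd, hx, mul_assoc, ← Real.exp_add, sub_dotProduct, dotProduct_sub,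
              dotProduct_comm z v, smul_dotProduct, dotProduct_smul, smul_eq_mul]
            rw [mul_left_comm, ← Real.exp_add]
            congr 2; ring
          rw [e1, div_mul_eq_mul_div, e2]
          have hg := gd_pos z
          have : x ≤ l + x * x / l := by
            rw [← sub_le_iff_le_add', le_div_iff₀ hl]
            nlinarith [sq_nonneg (x - l), mul_pos hxpos hl]
          calc gd z * x ≤ gd z * (l + x * x / l) := mul_le_mul_of_nonneg_left this hg.le
            _ = _ := by ring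
        · simp [hz]
    _ = _ := by
        rw [lintegral_add_left, lintegral_const_mul, lintegral_const_mul,
          ← lintegral_gam (measurable_one.indicator hE'), lintegral_indicator_one hE',
          lintegral_sub_right_eq_self (μ := volume) (fun z => ENNReal.ofReal (gd z)),
          lintegral_gd, mul_one]
        · exact meas_gd.comp (measurable_sub_const _)
        · exact meas_gd.mul (measurable_one.indicator hE')
        · exact (meas_gd.mul (measurable_one.indicator hE')).const_mul _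

end Pool.Agent.P.MP_ef347d_lc
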