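import Pool.Agent.P.MP_ef347d_lc.Basic2
import Pool.Agent.P.MP_ef347d_lc.Gauss

/-! Definitions for the tail bound of the speed of the central path. -/

namespace Pool.Agent.P.MP_ef347d_lc

open Matrix

variable {M d : ℕ}

/-- the slack vector `1 + A x` -/
def sl (A : Matrix (Fin M) (Fin d) ℝ) (x : Fin d → ℝ) : Fin M → ℝ := fun k => 1 + (A *ᵥ x) k

/-- the scaled matrix `S⁻¹ A` -/
noncomputable def sc (s : Fin M → ℝ) (A : Matrix (Fin M) (Fin d) ℝ) : Matrix (Fin M) (Fin d) ℝ :=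
  diagonal (fun k => 1 / s k) * A

/-- the gradient map whose zero is the central point -/
noncomputable def nv (μ : ℝ) (A : Matrix (Fin M) (Fin d) ℝ) (x : Fin d → ℝ) : Fin d → ℝ :=
  Aᵀ *ᵥ fun k => μ / sl A x k - 1

/-- delocalised configuration with a fast coordinate -/
def Phi (τ μ : ℝ) (s : Fin M → ℝ) (Q : Matrix (Fin M) (Fin M) ℝ) : Prop :=
  (∀ k, |μ - s k| < τ * (μ - 1)) ∧ (∀ k, |μ - μ / s k| < τ * (μ - 1)) ∧
  M * (μ - 1) ^ 2 / τ ^ 3 < ∑ k, Q k k * (μ - s k) ^ 2 ∧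
  M * (μ - 1) ^ 2 / τ ^ 3 < ∑ k, (1 - Q k k) * (μ - μ / s k) ^ 2 ∧
  (Q *ᵥ fun k => μ - s k) ⬝ᵥ (Q *ᵥ fun k => μ - s k) < (μ - 1) ^ 2 ∧
  ∃ k, τ ^ 7 < |(Q *ᵥ fun _ => 1) k|

/-- component of `a` orthogonal to `range P ∩ b^⊥` -/
noncomputable def aperp (P : Matrix (Fin M) (Fin M) ℝ) (b a : Fin M → ℝ) : Fin M → ℝ :=
  a - P *ᵥ a + ((b ⬝ᵥ a) / (b ⬝ᵥ b)) • b

/-- projector onto `(range P ∩ b^⊥) + ℝ a` -/
noncomputable def Qup (P : Matrix (Fin M) (Fin M) ℝ) (b a : Fin M → ℝ) :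
    Matrix (Fin M) (Fin M) ℝ :=
  P - (b ⬝ᵥ b)⁻¹ • vecMulVec b b +
    (aperp P b a ⬝ᵥ aperp P b a)⁻¹ • vecMulVec (aperp P b a) (aperp P b a)

/-- the weight of the rank two update -/
noncomputable def wgt (P : Matrix (Fin M) (Fin M) ℝ) (b a : Fin M → ℝ) : ℝ :=
  (b ⬝ᵥ b) * (aperp P b a ⬝ᵥ aperp P b a)

/-- signs -/
def sgn (ε : Fin M → Bool) : Fin M → ℝ := fun k => if ε k then 1 else -1

/-- conjugation by a diagonal sign matrix -/
def flipP (ε : Fin M → Bool) (P : Matrix (Fin M) (Fin M) ℝ) : Matrix (Fin M) (Fin M) ℝ :=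
  diagonal (sgn ε) * P * diagonal (sgn ε)

/-- the vector `b` after the sign flip -/
def bflip (ε : Fin M → Bool) (P : Matrix (Fin M) (Fin M) ℝ) (β e : Fin M → ℝ) : Fin M → ℝ :=
  flipP ε P *ᵥ β + fun k => sgn ε k * e k

open Classical in
/-- the estimate on the discrete cube -/
def Cube (τ₀ : ℕ) : Prop :=
  ∀ τ M : ℕ, τ₀ ≤ τ → τ ^ 13 < M → M ≤ 2 ^ τ → ∀ P : Matrix (Fin M) (Fin M) ℝ, IsProj P →
    ∀ e : Fin M → ℝ, P *ᵥ e = e → ∀ μ c : ℝ, 1 < μ → c ≠ 0 → ∀ s : Fin M → ℝ,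
      ∑ ε : Fin M → Bool,
        (if Phi τ μ s (Qup (flipP ε P) (bflip ε P (fun k => μ - s k) e) fun k => c * (μ - μ / s k))
          then wgt (flipP ε P) (bflip ε P (fun k => μ - s k) e) fun k => c * (μ - μ / s k)
          else 0) ≤
      Real.exp (-17 * (τ : ℝ)) * ∑ ε : Fin M → Bool,
        wgt (flipP ε P) (bflip ε P (fun k => μ - s k) e) fun k => c * (μ - μ / s k)

/-- normalised vector -/
noncomputable def unitv (n : Fin d → ℝ) : Fin d → ℝ := (√(n ⬝ᵥ n))⁻¹ • n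

/-- the matrix that sends `u` to `a` and agrees with `B` on `u^⊥` -/
def plant (a : Fin M → ℝ) (u : Fin d → ℝ) (B : Matrix (Fin M) (Fin d) ℝ) :
    Matrix (Fin M) (Fin d) ℝ := vecMulVec a u + B * (1 - vecMulVec u u)

/-- Jacobian weight -/
noncomputable def Gall (s : Fin M → ℝ) (A : Matrix (Fin M) (Fin d) ℝ) : ENNReal :=
  ENNReal.ofReal ((sc s A)ᵀ * sc s A).det

open Classical in
/-- Jacobian weight restricted to bad configurations -/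
noncomputable def Gbad (τ μ : ℝ) (s : Fin M → ℝ) (A : Matrix (Fin M) (Fin d) ℝ) : ENNReal :=
  if Phi τ μ s (Pr (sc s A)) then Gall s A else 0

/-- the average in the sign symmetric model -/
noncomputable def symI (G : Matrix (Fin M) (Fin d) ℝ → ENNReal) (a β : Fin M → ℝ) (η : ℝ) :
    ENNReal :=
  ∫⁻ p : (Fin M × Fin d → ℝ) × (Fin d → ℝ),
    ENNReal.ofReal (((mat p.1)ᵀ *ᵥ β + η • p.2) ⬝ᵥ ((mat p.1)ᵀ *ᵥ β + η • p.2)) *
      G (plant a (unitv ((mat p.1)ᵀ *ᵥ β + η • p.2)) (mat p.1)) ∂(gam (Fin M × Fin d)).prod (gam (Fin d))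

/-- the average in the tilted model -/
noncomputable def tiltI (G : Matrix (Fin M) (Fin d) ℝ → ENNReal) (a β : Fin M → ℝ) (η : ℝ)
    (u : Fin d → ℝ) : ENNReal :=
  ∫⁻ z, ENNReal.ofReal (Real.exp (-((((1 - vecMulVec u u) *ᵥ ((mat z)ᵀ *ᵥ β)) ⬝ᵥ
      ((1 - vecMulVec u u) *ᵥ ((mat z)ᵀ *ᵥ β))) / η ^ 2) / 2)) * G (plant a u (mat z))
    ∂gam (Fin M × Fin d)

open Classical in
/-- the Kac-Rice integrand without the Jacobian -/
noncomputable def krw (μ η : ℝ) (A : Matrix (Fin M) (Fin d) ℝ) (x : Fin d → ℝ) : ENNReal :=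
  if ∀ k, 0 < sl A x k then ENNReal.ofReal (gd (η⁻¹ • nv μ A x)) else 0

end Pool.Agent.P.MP_ef347d_lc
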