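import Pool.Agent.P.MP_ef347d_lc.Calc

/-! The brute force solver: enumeration of all subsets of rows. -/

namespace Pool.Agent.P.MP_ef347d_lc

open Matrix

namespace Brute

section theory

variable {ι : Type} [Fintype ι] [DecidableEq ι]

/-- the candidate point of the system `(G, h)` for the row mask `s` -/
noncomputable def cand (G : Matrix ι ι ℝ) (h s : ι → ℝ) : ι → ℝ :=
  (Gᵀ * diagonal s * (diagonal s * G * Gᵀ * diagonal s + (1 - diagonal s))⁻¹ * diagonal s) *ᵥ h

/-- indicator vector -/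
def ind (S : Finset ι) : ι → ℝ := fun i => if i ∈ S then 1 else 0

/-- the rows in `S` are linearly independent -/
def Indep (G : Matrix ι ι ℝ) (S : Finset ι) : Prop :=
  ∀ y : ι → ℝ, (∀ i, i ∉ S → y i = 0) → Gᵀ *ᵥ y = 0 → y = 0

/-- `G x ≤ h` -/
def Feas (G : Matrix ι ι ℝ) (h x : ι → ℝ) : Prop := ∀ i, (G *ᵥ x) i ≤ h i

lemma gram_apply (G : Matrix ι ι ℝ) (S : Finset ι) (y : ι → ℝ) (i : ι) :
    ((diagonal (ind S) * G * Gᵀ * diagonal (ind S) + (1 - diagonal (ind S))) *ᵥ y) i =
      if i ∈ S then (G *ᵥ (Gᵀ *ᵥ (diagonal (ind S) *ᵥ y))) i else y i := by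
  rw [add_mulVec, sub_mulVec, one_mulVec, ← mulVec_mulVec, ← mulVec_mulVec, ← mulVec_mulVec]
  simp only [Pi.add_apply, Pi.sub_apply, mulVec_diagonal, ind]
  split_ifs <;> ring

lemma gram_unit {G : Matrix ι ι ℝ} {S : Finset ι} (hS : Indep G S) :
    IsUnit (diagonal (ind S) * G * Gᵀ * diagonal (ind S) + (1 - diagonal (ind S))) := by
  rw [← Matrix.mulVec_injective_iff_isUnit]
  have key : ∀ y : ι → ℝ,
      (diagonal (ind S) * G * Gᵀ * diagonal (ind S) + (1 - diagonal (ind S))) *ᵥ y = 0 →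
        y = 0 := by
    intro y hy
    have h0 : ∀ i, i ∉ S → y i = 0 := by
      intro i hi
      have := congrFun hy i
      rwa [gram_apply, if_neg hi] at this
    have h1 : diagonal (ind S) *ᵥ y = y := by
      funext i
      rw [mulVec_diagonal]
      by_cases hi : i ∈ S
      · simp [ind, hi]
      · simp [h0 i hi]
    apply hS y h0
    have h2 : y ⬝ᵥ (G *ᵥ (Gᵀ *ᵥ y)) = 0 := by
      apply Finset.sum_eq_zero
      intro i _
      by_cases hi : i ∈ S
      · have := congrFun hy i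
        rw [gram_apply, if_pos hi, h1] at this
        rw [this]; simp
      · rw [h0 i hi]; simp
    rw [dotProduct_mulVec, ← mulVec_transpose] at h2
    exact dotProduct_self_eq_zero.mp h2
  intro y z hyz
  have := key (y - z) (by rw [mulVec_sub]; exact sub_eq_zero.mpr hyz)
  exact sub_eq_zero.mp this

lemma cand_tight {G : Matrix ι ι ℝ} {S : Finset ι} (hS : Indep G S) (h : ι → ℝ) :
    ∀ i ∈ S, (G *ᵥ cand G h (ind S)) i = h i := by
  intro i hi
  have hu := (Matrix.isUnit_iff_isUnit_det _).mp (gram_unit hS)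
  set M := diagonal (ind S) * G * Gᵀ * diagonal (ind S) + (1 - diagonal (ind S)) with hM
  have h1 : M *ᵥ (M⁻¹ *ᵥ (diagonal (ind S) *ᵥ h)) = diagonal (ind S) *ᵥ h := by
    rw [mulVec_mulVec, Matrix.mul_nonsing_inv _ hu, one_mulVec]
  have h2 := congrFun h1 i
  rw [hM, gram_apply, if_pos hi, mulVec_diagonal] at h2
  unfold cand
  rw [← mulVec_mulVec, ← mulVec_mulVec, ← mulVec_mulVec, h2]
  simp [ind, hi]

omit [DecidableEq ι] in
lemma move {G : Matrix ι ι ℝ} {h x : ι → ℝ} (hx : Feas G h x) (d : ι → ℝ)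
    (hd : ∃ i, 0 < (G *ᵥ d) i) :
    ∃ s : ℝ, 0 ≤ s ∧ ∃ i, 0 < (G *ᵥ d) i ∧ Feas G h (x + s • d) ∧
      (G *ᵥ (x + s • d)) i = h i := by
  classical
  obtain ⟨i₀, hi₀⟩ := hd
  obtain ⟨i, hi, hmin⟩ := Finset.exists_min_image (Finset.univ.filter fun i => 0 < (G *ᵥ d) i)
    (fun i => (h i - (G *ᵥ x) i) / (G *ᵥ d) i) ⟨i₀, by simp [hi₀]⟩
  have hi' : 0 < (G *ᵥ d) i := by simpa using hi
  have hs : 0 ≤ (h i - (G *ᵥ x) i) / (G *ᵥ d) i := div_nonneg (sub_nonneg.mpr (hx i)) hi'.le
  refine ⟨_, hs, i, hi', fun j => ?_, ?_⟩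
  · rw [mulVec_add, mulVec_smul, Pi.add_apply, Pi.smul_apply, smul_eq_mul]
    by_cases hj : 0 < (G *ᵥ d) j
    · have := hmin j (by simp [hj])
      rw [le_div_iff₀ hj] at this
      linarith
    · have := mul_nonpos_of_nonneg_of_nonpos hs (not_lt.mp hj)
      linarith [hx j]
  · rw [mulVec_add, mulVec_smul, Pi.add_apply, Pi.smul_apply, smul_eq_mul,
      div_mul_cancel₀ _ hi'.ne']
    ring

lemma indep_insert {G : Matrix ι ι ℝ} {S : Finset ι} (hS : Indep G S) {d : ι → ℝ}
    (hd : ∀ j ∈ S, (G *ᵥ d) j = 0) {i : ι} (hi : 0 < (G *ᵥ d) i) : Indep G (insert i S) := by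
  intro y hy hG
  have h1 : y ⬝ᵥ (G *ᵥ d) = 0 := by
    rw [dotProduct_mulVec, ← mulVec_transpose, hG]; simp
  have h2 : y ⬝ᵥ (G *ᵥ d) = y i * (G *ᵥ d) i := by
    apply Finset.sum_eq_single i
    · intro j _ hj
      by_cases hjS : j ∈ S
      · rw [hd j hjS]; simp
      · rw [hy j (by simp [hj, hjS])]; simp
    · simp
  have h3 : y i = 0 := by
    rw [h2] at h1
    exact (mul_eq_zero.mp h1).resolve_right hi.ne'
  apply hS y _ hG
  intro j hj
  by_cases hji : j = i
  · rw [hji, h3]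
  · exact hy j (by simp [hji, hj])

lemma exists_cand_aux {G : Matrix ι ι ℝ} {h c : ι → ℝ}
    (hc : ∀ d, (∀ i, (G *ᵥ d) i ≤ 0) → c ⬝ᵥ d ≤ 0) :
    ∀ (k : ℕ) (S : Finset ι) (x : ι → ℝ), Fintype.card ι ≤ S.card + k → Indep G S → Feas G h x →
      (∀ i ∈ S, (G *ᵥ x) i = h i) →
      ∃ S', Indep G S' ∧ Feas G h (cand G h (ind S')) ∧ c ⬝ᵥ x ≤ c ⬝ᵥ cand G h (ind S') := by
  intro k
  induction k using Nat.strong_induction_on with
  | _ k ih =>
  intro S x hk hS hx ht
  have hz : ∀ i ∈ S, (G *ᵥ (cand G h (ind S) - x)) i = 0 := by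
    intro i hi
    rw [mulVec_sub, Pi.sub_apply, cand_tight hS h i hi, ht i hi, sub_self]
  have step : ∀ d, (∀ i ∈ S, (G *ᵥ d) i = 0) → 0 ≤ c ⬝ᵥ d → (∃ i, 0 < (G *ᵥ d) i) →
      ∃ S', Indep G S' ∧ Feas G h (cand G h (ind S')) ∧ c ⬝ᵥ x ≤ c ⬝ᵥ cand G h (ind S') := by
    intro d hd hcd hpos
    obtain ⟨s, hs, i, hi, hf, hti⟩ := move hx d hpos
    have hiS : i ∉ S := fun h' => by rw [hd i h'] at hi; exact lt_irrefl _ hi
    have hcard : (insert i S).card = S.card + 1 := Finset.card_insert_of_notMem hiS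
    have hle : (insert i S).card ≤ Fintype.card ι := Finset.card_le_univ _
    obtain ⟨S', h1, h2, h3⟩ := ih (k - 1) (by omega) (insert i S) (x + s • d) (by omega)
      (indep_insert hS hd hi) hf (by
        intro j hj
        rcases Finset.mem_insert.mp hj with rfl | hj
        · exact hti
        · rw [mulVec_add, mulVec_smul, Pi.add_apply, Pi.smul_apply, hd j hj, ht j hj]; simp)
    refine ⟨S', h1, h2, le_trans ?_ h3⟩
    rw [dotProduct_add, dotProduct_smul, smul_eq_mul]
    have := mul_nonneg hs hcd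
    linarith
  by_cases hv : 0 ≤ c ⬝ᵥ (cand G h (ind S) - x)
  · by_cases hf : Feas G h (cand G h (ind S))
    · refine ⟨S, hS, hf, ?_⟩
      rw [dotProduct_sub] at hv
      linarith
    · apply step _ hz hv
      unfold Feas at hf
      push Not at hf
      obtain ⟨i, hi⟩ := hf
      refine ⟨i, ?_⟩
      rw [mulVec_sub, Pi.sub_apply]
      linarith [hx i]
  · apply step (-(cand G h (ind S) - x))
    · intro i hi
      rw [mulVec_neg, Pi.neg_apply, hz i hi, neg_zero]
    · rw [dotProduct_neg]; linarith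
    · by_contra hno
      push Not at hno
      have := hc _ hno
      rw [dotProduct_neg] at this
      linarith

/-- every feasible point of a program without improving ray is dominated by a candidate -/
theorem exists_cand {G : Matrix ι ι ℝ} {h c x : ι → ℝ}
    (hc : ∀ d, (∀ i, (G *ᵥ d) i ≤ 0) → c ⬝ᵥ d ≤ 0) (hx : Feas G h x) :
    ∃ S : Finset ι, (∀ i ∈ S, ∃ j, G i j ≠ 0) ∧ Feas G h (cand G h (ind S)) ∧
      c ⬝ᵥ x ≤ c ⬝ᵥ cand G h (ind S) := by
  obtain ⟨S, h1, h2, h3⟩ := exists_cand_aux hc (Fintype.card ι) ∅ x (by simp)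
    (fun y hy _ => funext fun i => hy i (by simp)) hx (by simp)
  refine ⟨S, fun i hi => ?_, h2, h3⟩
  by_contra hno
  push Not at hno
  have := h1 (Pi.single i 1) (fun j hj => by
    rw [Pi.single_apply, if_neg]; rintro rfl; exact hj hi) (by
    funext j
    simp [hno j])
  have h4 := congrFun this i
  simp at h4

end theory

/-! ### The binary counter -/

/-- binary digits as a real vector -/
def bits {N : ℕ} (q : ℕ) : Fin N → ℝ := fun i => if q.testBit i.val then 1 else 0

lemma testBit_succ_iff (i : ℕ) : ∀ q : ℕ, ((q + 1).testBit i = true ↔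
    if ∀ l, l < i → q.testBit l = true then ¬ (q.testBit i = true) else q.testBit i = true) := by
  induction i with
  | zero =>
    intro q
    simp only [Nat.testBit_zero, decide_eq_true_eq, Nat.not_lt_zero, false_imp_iff, implies_true,
      if_true]
    omega
  | succ i ih =>
    intro q
    have hsplit : (∀ l, l < i + 1 → q.testBit l = true) ↔
        (q % 2 = 1 ∧ ∀ l, l < i → (q / 2).testBit l = true) := by
      constructor
      · intro h
        refine ⟨by simpa using h 0 (by omega), fun l hl => ?_⟩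
        rw [← Nat.testBit_succ]
        exact h (l + 1) (by omega)
      · rintro ⟨h0, h1⟩ l hl
        rcases l with _ | l
        · simpa using h0
        · rw [Nat.testBit_succ]
          exact h1 l (by omega)
    rw [Nat.testBit_succ, Nat.testBit_succ]
    rcases Nat.mod_two_eq_zero_or_one q with h0 | h0
    · rw [if_neg (by rw [hsplit]; omega), show (q + 1) / 2 = q / 2 by omega]
    · rw [show (q + 1) / 2 = q / 2 + 1 by omega, ih]
      by_cases hall : ∀ l, l < i → (q / 2).testBit l = true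
      · rw [if_pos hall, if_pos (hsplit.mpr ⟨h0, hall⟩)]
      · rw [if_neg hall, if_neg (fun h => hall (hsplit.mp h).2)]

lemma bits_succ {N : ℕ} (q : ℕ) (i : Fin N) :
    bits (q + 1) i = if ∀ l : Fin N, l.val < i.val → bits q l = 1 then 1 - bits q i
      else bits q i := by
  have h1 : (∀ l : Fin N, l.val < i.val → bits q l = (1 : ℝ)) ↔
      ∀ l, l < i.val → q.testBit l = true := by
    constructor
    · intro h l hl
      have := h ⟨l, lt_trans hl i.2⟩ hl
      by_contra hb
      simp [bits, hb] at this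
    · intro h l hl
      simp [bits, h l hl]
  have h2 := testBit_succ_iff i.val q
  by_cases hall : ∀ l, l < i.val → q.testBit l = true
  · rw [if_pos (h1.mpr hall)]
    rw [if_pos hall] at h2
    by_cases hb : q.testBit i.val = true
    · have : ¬ (q + 1).testBit i.val = true := fun h => h2.mp h hb
      simp [bits, hb, this]
    · simp [bits, hb, h2.mpr hb]
  · rw [if_neg (fun h => hall (h1.mp h))]
    rw [if_neg hall] at h2
    by_cases hb : q.testBit i.val = true
    · simp [bits, hb, h2.mpr hb]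
    · have : ¬ (q + 1).testBit i.val = true := fun h => hb (h2.mp h)
      simp [bits, hb, this]

lemma exists_bits {N M : ℕ} (S : Finset (Fin N)) (hS : ∀ i ∈ S, i.val < M) :
    ∃ q, q < 2 ^ M ∧ (bits q : Fin N → ℝ) = ind S := by
  classical
  refine ⟨Nat.ofBits (fun i : Fin M => decide (∃ j ∈ S, j.val = i.val)), Nat.ofBits_lt_two_pow _, ?_⟩
  funext i
  simp only [bits, ind, Nat.testBit_ofBits]
  by_cases hi : i ∈ S
  · rw [if_pos hi, if_pos]
    rw [dif_pos (hS i hi)]
    simpa using ⟨i, hi, rfl⟩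
  · rw [if_neg hi, if_neg]
    split_ifs with h
    · simp only [decide_eq_true_eq, not_exists, not_and]
      intro j hj hji
      exact hi (Fin.ext hji ▸ hj)
    · simp

/-! ### The loop -/

open Classical in
/-- one round: look at the candidate of the current mask -/
noncomputable def bstep {N : ℕ} (G : Matrix (Fin N) (Fin N) ℝ) (h c : Fin N → ℝ)
    (st : ℕ × Prop × (Fin N → ℝ)) : ℕ × Prop × (Fin N → ℝ) :=
  (st.1 + 1, st.2.1 ∨ Feas G h (cand G h (bits st.1)),
    if Feas G h (cand G h (bits st.1)) ∧ (¬ st.2.1 ∨ c ⬝ᵥ st.2.2 ≤ c ⬝ᵥ cand G h (bits st.1)) then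
      cand G h (bits st.1) else st.2.2)

/-- the state after `t` rounds -/
noncomputable def best {N : ℕ} (G : Matrix (Fin N) (Fin N) ℝ) (h c : Fin N → ℝ) (t : ℕ) :
    ℕ × Prop × (Fin N → ℝ) := (bstep G h c)^[t] (0, False, 0)

lemma best_spec {N : ℕ} (G : Matrix (Fin N) (Fin N) ℝ) (h c : Fin N → ℝ) (t : ℕ) :
    (best G h c t).1 = t ∧ ((best G h c t).2.1 → Feas G h (best G h c t).2.2) ∧
      ∀ q, q < t → Feas G h (cand G h (bits q)) →
        (best G h c t).2.1 ∧ c ⬝ᵥ cand G h (bits q) ≤ c ⬝ᵥ (best G h c t).2.2 := by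
  induction t with
  | zero => simp [best]
  | succ t ih =>
    obtain ⟨h1, h2, h3⟩ := ih
    have e : best G h c (t + 1) = bstep G h c (best G h c t) := Function.iterate_succ_apply' _ _ _
    rw [e]
    generalize best G h c t = st at h1 h2 h3
    subst h1
    simp only [bstep]
    refine ⟨trivial, ?_, ?_⟩
    · intro hf
      split_ifs with hc
      · exact hc.1
      · by_cases hs : st.2.1
        · exact h2 hs
        · exact absurd ⟨hf.resolve_left hs, Or.inl hs⟩ hc
    · intro q hq hf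
      rcases Nat.lt_succ_iff_lt_or_eq.mp hq with hq | rfl
      · obtain ⟨h4, h5⟩ := h3 q hq hf
        refine ⟨Or.inl h4, ?_⟩
        split_ifs with hc
        · exact h5.trans (hc.2.resolve_left (not_not.mpr h4))
        · exact h5
      · refine ⟨Or.inr hf, ?_⟩
        split_ifs with hc
        · exact le_rfl
        · have : ¬ (¬ st.2.1 ∨ c ⬝ᵥ st.2.2 ≤ c ⬝ᵥ cand G h (bits st.1)) :=
            fun h' => hc ⟨hf, h'⟩
          push Not at this
          exact this.2.le

lemma best_dom {N M t : ℕ} {G : Matrix (Fin N) (Fin N) ℝ} {h c c' x : Fin N → ℝ}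
    (hG : ∀ i j, G i j ≠ 0 → i.val < M) (ht : 2 ^ M ≤ t)
    (hc : ∀ d, (∀ i, (G *ᵥ d) i ≤ 0) → c' ⬝ᵥ d ≤ 0) (hx : Feas G h x) :
    (best G h c t).2.1 ∧ (c' = c → c ⬝ᵥ x ≤ c ⬝ᵥ (best G h c t).2.2) := by
  obtain ⟨S, h1, h2, h3⟩ := exists_cand hc hx
  obtain ⟨q, hq, hb⟩ := exists_bits (M := M) S fun i hi => by
    obtain ⟨j, hj⟩ := h1 i hi
    exact hG i j hj
  rw [← hb] at h2 h3
  obtain ⟨h4, h5⟩ := (best_spec G h c t).2.2 q (lt_of_lt_of_le hq ht) h2
  exact ⟨h4, fun e => by rw [e] at h3; exact h3.trans h5⟩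

/-! ### Computability -/

lemma pe_cand {k : ℕ} (hk : 0 < k) {G : MF} (hG : PI k G)
    {h s : ∀ m n, (ℕ → Mt m n) → Fin (NN m n) → ℝ} (hh : PE k (fun m n Y i _ => h m n Y i))
    (hs : PE k (fun m n Y i _ => s m n Y i)) :
    PE k (fun m n Y i _ => cand (G m n Y) (h m n Y) (s m n Y) i) := by
  have hD := PI.diagonal hs
  have hT := PI.transpose hG
  have hM := PI.add (PI.mul hk (PI.mul hk (PI.mul hk hD hG) hT) hD) (PI.sub PI.one hD)
  have hI := PI.inv hk hM (by
    intro m n Y
    simp [Matrix.transpose_mul, Matrix.mul_assoc])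
  exact PE.mulVec hk (PI.mul hk (PI.mul hk (PI.mul hk hT hD) hI) hD) hh

lemma pp_feas {k : ℕ} (hk : 0 < k) {G : MF} (hG : PI k G)
    {h x : ∀ m n, (ℕ → Mt m n) → Fin (NN m n) → ℝ} (hh : PE k (fun m n Y i _ => h m n Y i))
    (hx : PE k (fun m n Y i _ => x m n Y i)) :
    PP k (fun m n Y _ _ => Feas (G m n Y) (h m n Y) (x m n Y)) :=
  PP.allV hk (PP.le (PE.mulVec hk hG hx) hh)

open Classical in
/-- the matrices that store the state of the loop -/
noncomputable def code (m n : ℕ) (st : ℕ × Prop × (Fin (NN m n) → ℝ)) : Fin 3 → Mt m n :=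
  ![col (bits st.1), cst (if st.2.1 then 1 else 0), col st.2.2]

open Classical in
/-- the body of the loop -/
noncomputable def body : Fin 3 → MF :=
  ![fun _ _ Y => col fun i => if ∀ l, l.val < i.val → Y 4 l 0 = 1 then 1 - Y 4 i 0 else Y 4 i 0,
    fun _ _ Y => cst (if 0 < Y 5 0 0 ∨ Feas (Y 1) (fun i => Y 2 i 0)
      (cand (Y 1) (fun i => Y 2 i 0) (fun i => Y 4 i 0)) then 1 else 0),
    fun _ _ Y => col fun i => if Feas (Y 1) (fun i => Y 2 i 0)
      (cand (Y 1) (fun i => Y 2 i 0) (fun i => Y 4 i 0)) ∧ (¬ 0 < Y 5 0 0 ∨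
        (fun i => Y 3 i 0) ⬝ᵥ (fun i => Y 6 i 0) ≤
          (fun i => Y 3 i 0) ⬝ᵥ cand (Y 1) (fun i => Y 2 i 0) (fun i => Y 4 i 0)) then
      cand (Y 1) (fun i => Y 2 i 0) (fun i => Y 4 i 0) i else Y 6 i 0]

lemma pi_body (j : Fin 3) : PI (4 + 3) (body j) := by
  classical
  have hk : 0 < 4 + 3 := by norm_num
  have h1 : PI (4 + 3) (fun _ _ Y => Y 1) := PI.var (by norm_num)
  have h2 := PE.vcol hk (i := 2) (by norm_num)
  have h3 := PE.vcol hk (i := 3) (by norm_num)
  have h4 := PE.vcol hk (i := 4) (by norm_num)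
  have h5 := PE.vent hk (i := 5) (by norm_num)
  have h6 := PE.vcol hk (i := 6) (by norm_num)
  have hc := pe_cand hk h1 h2 h4
  have hf := pp_feas hk h1 h2 hc
  have hp := PP.lt PE.zero h5
  fin_cases j
  · exact PE.toColM (PE.ite (PP.allR hk (PP.imp (PP.natLt PE.colIdx PE.rowIdx)
      (PP.eq (PE.toCol h4) PE.one))) (PE.sub PE.one h4) h4)
  · exact PE.toCst (PE.ite (PP.or hp hf) PE.one PE.zero)
  · exact PE.toColM (PE.ite (PP.and hf (PP.or (PP.not hp)
      (PP.le (PE.dot hk h3 h6) (PE.dot hk h3 hc)))) hc h6)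

lemma pi_best (j : Fin 3) : PI 4 (fun m n Y =>
    code m n (best (Y 1) (fun i => Y 2 i 0) (fun i => Y 3 i 0) (tOf (Y 0))) j) := by
  classical
  have h := PI.iter' (k := 4) (l := 3) (by norm_num) 1
    (St := fun m n => ℕ × Prop × (Fin (NN m n) → ℝ)) code (fun _ _ _ => (0, False, 0))
    (fun _ _ Y => bstep (Y 1) (fun i => Y 2 i 0) (fun i => Y 3 i 0))
    (by
      intro j
      fin_cases j
      · exact PI.congr (PE.toCst PE.zero) fun m n Y => by
          show cst 0 = col (bits 0)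
          ext; simp [bits]
      · exact PI.congr (PE.toCst PE.zero) fun m n Y => by
          show cst 0 = cst (@ite ℝ False (Classical.propDecidable _) 1 0)
          rw [if_neg not_false]
      · exact PI.congr (PE.toCst PE.zero) fun m n Y => rfl)
    body pi_body
    (by
      intro m n Y st j
      have e1 : ext 4 Y (code m n st) 1 = Y 1 := ext_lt _ _ (by norm_num)
      have e2 : ext 4 Y (code m n st) 2 = Y 2 := ext_lt _ _ (by norm_num)
      have e3 : ext 4 Y (code m n st) 3 = Y 3 := ext_lt _ _ (by norm_num)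
      have e4 : ext 4 Y (code m n st) 4 = col (bits st.1) := ext_add (k := 4) Y (code m n st) 0
      have e5 : ext 4 Y (code m n st) 5 = cst (if st.2.1 then 1 else 0) :=
        ext_add (k := 4) Y (code m n st) 1
      have e6 : ext 4 Y (code m n st) 6 = col st.2.2 := ext_add (k := 4) Y (code m n st) 2
      have e7 : (0 : ℝ) < (if st.2.1 then 1 else 0) ↔ st.2.1 := by
        by_cases hs : st.2.1 <;> simp [hs]
      generalize ext 4 Y (code m n st) = Z at e1 e2 e3 e4 e5 e6
      fin_cases j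
      · show (col fun i => if ∀ l, l.val < i.val → Z 4 l 0 = 1 then 1 - Z 4 i 0 else Z 4 i 0) =
          col (bits (st.1 + 1))
        ext i i'
        simp only [col_apply, e4]
        rw [bits_succ]
      · show cst (if 0 < Z 5 0 0 ∨ Feas (Z 1) (fun i => Z 2 i 0)
            (cand (Z 1) (fun i => Z 2 i 0) (fun i => Z 4 i 0)) then 1 else 0) =
          cst (@ite ℝ (st.2.1 ∨ Feas (Y 1) (fun i => Y 2 i 0)
            (cand (Y 1) (fun i => Y 2 i 0) (bits st.1))) (Classical.propDecidable _) 1 0)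
        simp only [e1, e2, e4, e5, col_apply, cst_apply, e7]
        congr
      · show (col fun i => if Feas (Z 1) (fun i => Z 2 i 0)
            (cand (Z 1) (fun i => Z 2 i 0) (fun i => Z 4 i 0)) ∧ (¬ 0 < Z 5 0 0 ∨
              (fun i => Z 3 i 0) ⬝ᵥ (fun i => Z 6 i 0) ≤
                (fun i => Z 3 i 0) ⬝ᵥ cand (Z 1) (fun i => Z 2 i 0) (fun i => Z 4 i 0)) then
            cand (Z 1) (fun i => Z 2 i 0) (fun i => Z 4 i 0) i else Z 6 i 0) =
          col (bstep (Y 1) (fun i => Y 2 i 0) (fun i => Y 3 i 0) st).2.2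
        ext i i'
        simp only [bstep, e1, e2, e3, e4, e5, e6, col_apply, cst_apply, e7]
        split_ifs <;> rfl) j
  exact h.congr fun m n Y => by rw [pow_one]; rfl

/-- the power `2 ^ (m + 1)`, truncated at `2 ^ t` -/
lemma pe_pow : PE 4 (fun m _ Y _ _ => (2 : ℝ) ^ min (m + 1) (tOf (Y 0))) := by
  classical
  have h := PI.iter' (k := 4) (l := 2) (by norm_num) 1 (St := fun _ _ => ℕ)
    (fun m _ r => ![cst r, cst (2 ^ min (m + 1) r)]) (fun _ _ _ => 0) (fun _ _ _ r => r + 1)
    (by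
      intro j
      fin_cases j
      · exact PI.congr (PE.toCst PE.zero) fun m n Y => by
          show cst 0 = cst ((0 : ℕ) : ℝ)
          rw [Nat.cast_zero]
      · exact PI.congr (PE.toCst PE.one) fun m n Y => by
          show cst 1 = cst ((2 : ℝ) ^ min (m + 1) 0)
          rw [Nat.min_zero, pow_zero])
    ![fun _ _ Y => cst (Y 4 0 0 + 1),
      fun m _ Y => cst (if Y 4 0 0 < m + 1 then 2 * Y 5 0 0 else Y 5 0 0)]
    (by
      intro j
      have hk : 0 < 4 + 2 := by norm_num
      have h4 := PE.vent hk (i := 4) (by norm_num)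
      have h5 := PE.vent hk (i := 5) (by norm_num)
      fin_cases j
      · exact PE.toCst (PE.add h4 PE.one)
      · exact PE.toCst (PE.ite (PP.lt h4 (PE.add PE.rows PE.one)) (PE.mul (PE.ofNat 2) h5) h5))
    (by
      intro m n Y r j
      have e4 : ext 4 Y ![(cst r : Mt m n), cst (2 ^ min (m + 1) r)] 4 = cst r :=
        ext_add (k := 4) Y ![(cst r : Mt m n), cst (2 ^ min (m + 1) r)] 0
      have e5 : ext 4 Y ![(cst r : Mt m n), cst (2 ^ min (m + 1) r)] 5 =
          cst (2 ^ min (m + 1) r) :=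
        ext_add (k := 4) Y ![(cst r : Mt m n), cst (2 ^ min (m + 1) r)] 1
      generalize ext 4 Y ![(cst r : Mt m n), cst (2 ^ min (m + 1) r)] = Z at e4 e5
      fin_cases j
      · show cst (Z 4 0 0 + 1) = cst ((r + 1 : ℕ) : ℝ)
        rw [e4, cst_apply, Nat.cast_succ]
      · show cst (if Z 4 0 0 < m + 1 then 2 * Z 5 0 0 else Z 5 0 0) =
          cst ((2 : ℝ) ^ min (m + 1) (r + 1))
        rw [e4, e5, cst_apply, cst_apply]
        split_ifs with hr
        · have : r < m + 1 := by exact_mod_cast hr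
          rw [min_eq_right (by omega), min_eq_right (by omega), pow_succ']
        · have : ¬ r < m + 1 := fun h' => hr (by exact_mod_cast h')
          rw [min_eq_left (by omega), min_eq_left (by omega)]) 1
  refine PE.congr (PI.pe h) fun m n Y i j => ?_
  have : ∀ r : ℕ, (fun r : ℕ => r + 1)^[r] 0 = r := by
    intro r
    induction r with
    | zero => rfl
    | succ r ih => rw [Function.iterate_succ_apply', ih]
  rw [pow_one, this]
  rfl

lemma pp_flag : PP 4 (fun m _ Y _ _ => 2 ^ (m + 1) ≤ tOf (Y 0)) := by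
  refine (PP.le pe_pow (PE.tnat (by norm_num))).congr fun m n Y i j => ?_
  generalize tOf (Y 0) = t
  have : ((2 : ℝ) ^ min (m + 1) t ≤ t) ↔ 2 ^ min (m + 1) t ≤ t := by exact_mod_cast Iff.rfl
  rw [this]
  rcases le_total (m + 1) t with h | h
  · rw [min_eq_left h]
  · rw [min_eq_right h]
    have h1 : t < 2 ^ t := Nat.lt_two_pow_self
    have h2 : 2 ^ t ≤ 2 ^ (m + 1) := Nat.pow_le_pow_right (by norm_num) h
    omega

/-- the matrix of the ray system -/
noncomputable def rayG {m n : ℕ} (Y : ℕ → Mt m n) : Mt m n :=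
  Matrix.of fun i j => if i.val = m then -Y 3 j 0 else Y 1 i j

/-- the right-hand side of the ray system -/
noncomputable def rayH (m n : ℕ) : Fin (NN m n) → ℝ := fun i => if i.val = m then -1 else 0

/-- the state for the program itself -/
noncomputable def stP {m n : ℕ} (Y : ℕ → Mt m n) : ℕ × Prop × (Fin (NN m n) → ℝ) :=
  best (Y 1) (fun i => Y 2 i 0) (fun i => Y 3 i 0) (tOf (Y 0))

/-- the state for the ray system -/
noncomputable def stR {m n : ℕ} (Y : ℕ → Mt m n) : ℕ × Prop × (Fin (NN m n) → ℝ) :=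
  best (rayG Y) (rayH m n) (fun i => Y 3 i 0) (tOf (Y 0))

open Classical in
/-- the result of the brute force solver -/
noncomputable def res : MF := fun m n Y => col fun i =>
  if i.val = 0 then (if 2 ^ (m + 1) ≤ tOf (Y 0) then 1 else 0)
  else if i.val = 1 then (if ¬ (stP Y).2.1 then 1 else if (stR Y).2.1 then 2 else 0)
  else ∑ l : Fin (NN m n), if i.val = l.val + 2 then (stP Y).2.2 l else 0

lemma pp_of_code {p : ∀ m n, (ℕ → Mt m n) → Prop}
    (h : PI 4 (fun m n Y => cst (@ite ℝ (p m n Y) (Classical.propDecidable _) 1 0))) :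
    PP 4 (fun m n Y _ _ => p m n Y) := h

lemma pi_res : PI 4 res := by
  classical
  have hk : 0 < 4 := by norm_num
  have hP : PP 4 (fun _ _ Y _ _ => (stP Y).2.1) := pp_of_code (pi_best 1)
  have hx : PE 4 (fun _ _ Y i _ => (stP Y).2.2 i) := pi_best 2
  have hG : PI 4 (fun _ _ Y => rayG Y) :=
    PE.ite (PP.natEq PE.rowIdx PE.rows) (PE.neg (PE.toCol (PE.vcol hk (i := 3) (by norm_num))))
      (PE.var (by norm_num))
  have hH : PI 4 (fun m n _ => col (rayH m n)) :=
    PE.toColM (PE.ite (PP.natEq PE.rowIdx PE.rows) (PE.neg PE.one) PE.zero)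
  have hR : PP 4 (fun _ _ Y _ _ => (stR Y).2.1) := by
    have := PI.call hk (pi_best 1)
      (fun i => if i = 1 then fun _ _ Y => rayG Y else if i = 2 then fun m n _ => col (rayH m n)
        else fun _ _ Y => Y 3) (by
        intro i h0 h4
        interval_cases i
        · exact hG
        · exact hH
        · exact PI.var (k := 4) (i := 3) (by norm_num))
    exact pp_of_code (this.congr fun m n Y => rfl)
  exact PE.toColM (PE.ite (PP.natEq PE.rowIdx (PE.nat 0)) (PE.ite pp_flag PE.one PE.zero)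
    (PE.ite (PP.natEq PE.rowIdx (PE.nat 1))
      (PE.ite (PP.not hP) PE.one (PE.ite hR (PE.ofNat 2) PE.zero))
      (PE.sumR hk (PE.ite (PP.natEq PE.rowIdx (PE.natAdd PE.colIdx (PE.nat 2))) (PE.toCol hx)
        PE.zero))))

/-! ### Correctness -/

section sound

variable {m n : ℕ}

/-- the first `n` coordinates -/
def cut (x : Fin (NN m n) → ℝ) : Fin n → ℝ := fun j => x ⟨j.val, by have := j.2; unfold NN; omega⟩

lemma sum_cut (f : Fin n → ℝ) (x : Fin (NN m n) → ℝ) :
    ∑ j : Fin (NN m n), (if h : j.val < n then f ⟨j.val, h⟩ else 0) * x j = f ⬝ᵥ cut x := by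
  have hn : n ≤ NN m n := by unfold NN; omega
  unfold dotProduct
  symm
  apply Finset.sum_of_injOn (Fin.castLE hn) (Fin.castLE_injective hn).injOn (by simp)
  · intro j _ hj
    rw [dif_neg, zero_mul]
    intro h
    exact hj ⟨⟨j.val, h⟩, by simp, rfl⟩
  · intro j _
    rw [dif_pos (by simp)]
    rfl

lemma envA_mulVec (D : Idx m n → ℝ) (t : ℕ) (x : Fin (NN m n) → ℝ) (i : Fin (NN m n)) :
    (env D t 1 *ᵥ x) i = if h : i.val < m then (dA D *ᵥ cut x) ⟨i.val, h⟩ else 0 := by
  split_ifs with h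
  · rw [show (dA D *ᵥ cut x) ⟨i.val, h⟩ = (fun j => dA D ⟨i.val, h⟩ j) ⬝ᵥ cut x from rfl,
      ← sum_cut]
    show ∑ j, env D t 1 i j * x j = _
    apply Finset.sum_congr rfl
    intro j _
    simp [env, h]
  · show ∑ j, env D t 1 i j * x j = _
    apply Finset.sum_eq_zero
    intro j _
    simp [env, h]

lemma envc_dot (D : Idx m n → ℝ) (t : ℕ) (x : Fin (NN m n) → ℝ) :
    (fun i => env D t 3 i 0) ⬝ᵥ x = dc D ⬝ᵥ cut x := by
  rw [← sum_cut]
  rfl

lemma feas_iff (D : Idx m n → ℝ) (t : ℕ) (x : Fin (NN m n) → ℝ) :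
    Feas (env D t 1) (fun i => env D t 2 i 0) x ↔ Feasible D (cut x) := by
  constructor
  · intro h i
    have := h ⟨i.val, by have := i.2; unfold NN; omega⟩
    rw [envA_mulVec, dif_pos i.2] at this
    simpa [env] using this
  · intro h i
    rw [envA_mulVec]
    by_cases hi : i.val < m
    · simpa [env, hi] using h ⟨i.val, hi⟩
    · simp [env, hi]

lemma cut_padv (x : Fin n → ℝ) : cut (m := m) (padv x) = x := by
  funext j
  simp [cut, padv]

lemma rayG_mulVec (D : Idx m n → ℝ) (t : ℕ) (d : Fin (NN m n) → ℝ) (i : Fin (NN m n)) :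
    (rayG (env D t) *ᵥ d) i = if i.val = m then -(dc D ⬝ᵥ cut d) else (env D t 1 *ᵥ d) i := by
  split_ifs with h
  · rw [← envc_dot D t, ← neg_dotProduct]
    show ∑ j, rayG (env D t) i j * d j = ∑ j, -env D t 3 j 0 * d j
    apply Finset.sum_congr rfl
    intro j _
    simp [rayG, h]
  · show ∑ j, rayG (env D t) i j * d j = ∑ j, env D t 1 i j * d j
    apply Finset.sum_congr rfl
    intro j _
    simp [rayG, h]

lemma ray_iff (D : Idx m n → ℝ) (t : ℕ) (d : Fin (NN m n) → ℝ) :
    Feas (rayG (env D t)) (rayH m n) d ↔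
      (∀ i, (env D t 1 *ᵥ d) i ≤ 0) ∧ 1 ≤ dc D ⬝ᵥ cut d := by
  constructor
  · intro h
    constructor
    · intro i
      by_cases hi : i.val = m
      · rw [envA_mulVec, dif_neg (by omega)]
      · have := h i
        rwa [rayG_mulVec, if_neg hi, rayH, if_neg hi] at this
    · have := h ⟨m, by unfold NN; omega⟩
      rw [rayG_mulVec, if_pos rfl, rayH, if_pos rfl] at this
      linarith
  · rintro ⟨h1, h2⟩ i
    rw [rayG_mulVec, rayH]
    split_ifs
    · linarith
    · exact h1 i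

lemma envA_supp (D : Idx m n → ℝ) (t : ℕ) (i j : Fin (NN m n)) (h : env D t 1 i j ≠ 0) :
    i.val < m + 1 := by
  by_contra hi
  apply h
  have : ¬ i.val < m := by omega
  simp [env, this]

lemma rayG_supp (D : Idx m n → ℝ) (t : ℕ) (i j : Fin (NN m n)) (h : rayG (env D t) i j ≠ 0) :
    i.val < m + 1 := by
  by_cases hi : i.val = m
  · omega
  · exact envA_supp D t i j (by simpa [rayG, hi] using h)

lemma tOf_env (D : Idx m n → ℝ) (t : ℕ) : tOf (env D t 0) = t := tOf_cst t

lemma res_flag (D : Idx m n → ℝ) (t : ℕ) :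
    0 < res m n (env D t) 0 0 ↔ 2 ^ (m + 1) ≤ t := by
  simp only [res, col_apply, Fin.val_zero, if_true, tOf_env]
  split_ifs with h <;> simp [h]

open Classical in
lemma out_zero (Y : ℕ → Mt m n) : outOf (res m n Y) 0 =
    if ¬ (stP Y).2.1 then 1 else if (stR Y).2.1 then 2 else 0 := by
  unfold outOf
  rw [dif_pos (by unfold NN; omega)]
  simp only [res, col_apply]
  rw [if_neg (by omega), if_pos trivial]

lemma out_succ (Y : ℕ → Mt m n) :
    (fun j : Fin n => outOf (res m n Y) (j.val + 1)) = cut (stP Y).2.2 := by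
  funext j
  have hj := j.2
  unfold outOf
  rw [dif_pos (by unfold NN; omega)]
  simp only [res, col_apply]
  rw [if_neg (by omega), if_neg (by omega),
    Finset.sum_eq_single (⟨j.val, by unfold NN; omega⟩ : Fin (NN m n))]
  · rw [if_pos rfl]; rfl
  · intro l _ hl
    rw [if_neg]
    intro h
    exact hl (Fin.ext (by simp only; omega))
  · simp

theorem sound_res : Sound res := by
  intro m n D t hflag
  have ht := (res_flag D t).mp hflag
  have hP : ∀ {c' x : Fin (NN m n) → ℝ}, (∀ d, (∀ i, (env D t 1 *ᵥ d) i ≤ 0) → c' ⬝ᵥ d ≤ 0) →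
      Feas (env D t 1) (fun i => env D t 2 i 0) x → (stP (env D t)).2.1 ∧
        (c' = (fun i => env D t 3 i 0) → (fun i => env D t 3 i 0) ⬝ᵥ x ≤
          (fun i => env D t 3 i 0) ⬝ᵥ (stP (env D t)).2.2) := fun hc hx =>
    best_dom (envA_supp D t) (by rw [tOf_env]; exact ht) hc hx
  have hR : ∀ {d : Fin (NN m n) → ℝ}, Feas (rayG (env D t)) (rayH m n) d →
      (stR (env D t)).2.1 := fun hd =>
    (best_dom (c' := 0) (rayG_supp D t) (by rw [tOf_env]; exact ht) (by simp) hd).1
  unfold Solves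
  rw [out_succ, out_zero]
  by_cases h1 : (stP (env D t)).2.1
  · have hx : Feasible D (cut (stP (env D t)).2.2) :=
      (feas_iff D t _).mp ((best_spec _ _ _ _).2.1 h1)
    by_cases h2 : (stR (env D t)).2.1
    · refine Or.inr (Or.inr ⟨by simp [h1, h2], fun R => ?_⟩)
      obtain ⟨h3, h4⟩ := (ray_iff D t _).mp ((best_spec _ _ _ _).2.1 h2)
      change ∀ i, (env D t 1 *ᵥ (stR (env D t)).2.2) i ≤ 0 at h3
      change 1 ≤ dc D ⬝ᵥ cut (stR (env D t)).2.2 at h4
      set x := cut (stP (env D t)).2.2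
      set d := cut (stR (env D t)).2.2 with hd
      refine ⟨x + (|R - dc D ⬝ᵥ x| + 1) • d, fun i => ?_, ?_⟩
      · have h5 := h3 ⟨i.val, by have := i.2; unfold NN; omega⟩
        rw [envA_mulVec, dif_pos i.2, ← hd] at h5
        have h6 := mul_nonpos_of_nonneg_of_nonpos
          (show 0 ≤ |R - dc D ⬝ᵥ x| + 1 by positivity) h5
        rw [mulVec_add, mulVec_smul, Pi.add_apply, Pi.smul_apply, smul_eq_mul]
        have h7 := hx i
        simp only [Fin.eta] at h6
        linarith
      · rw [dotProduct_add, dotProduct_smul, smul_eq_mul]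
        have h5 := le_abs_self (R - dc D ⬝ᵥ x)
        have h6 := mul_le_mul_of_nonneg_left h4 (show 0 ≤ |R - dc D ⬝ᵥ x| + 1 by positivity)
        linarith
    · refine Or.inl ⟨by simp [h1, h2], hx, fun x hx' => ?_⟩
      have hc : ∀ d, (∀ i, (env D t 1 *ᵥ d) i ≤ 0) → (fun i => env D t 3 i 0) ⬝ᵥ d ≤ 0 := by
        intro d hd
        by_contra hpos
        rw [envc_dot, not_le] at hpos
        apply h2
        apply hR (d := (dc D ⬝ᵥ cut d)⁻¹ • d)
        rw [ray_iff]
        constructor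
        · intro i
          rw [mulVec_smul, Pi.smul_apply, smul_eq_mul]
          exact mul_nonpos_of_nonneg_of_nonpos (inv_nonneg.mpr hpos.le) (hd i)
        · rw [show cut ((dc D ⬝ᵥ cut d)⁻¹ • d) = (dc D ⬝ᵥ cut d)⁻¹ • cut d from rfl,
            dotProduct_smul, smul_eq_mul, inv_mul_cancel₀ hpos.ne']
      have := (hP hc (x := padv x) ((feas_iff D t _).mpr (by rwa [cut_padv]))).2 rfl
      rwa [envc_dot, envc_dot, cut_padv] at this
  · refine Or.inr (Or.inl ⟨by simp [h1], fun x hx => h1 ?_⟩)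
    exact (hP (c' := 0) (x := padv x) (by simp) ((feas_iff D t _).mpr (by rwa [cut_padv]))).1

end sound

end Brute

theorem solver_brute : ∃ F, PI 4 F ∧ Sound F ∧
    ∀ (m n t : ℕ) (D : Idx m n → ℝ), 2 ^ (m + 1) ≤ t → 0 < F m n (env D t) 0 0 :=
  ⟨Brute.res, Brute.pi_res, Brute.sound_res, fun _ _ t D h => (Brute.res_flag D t).mpr h⟩

end Pool.Agent.P.MP_ef347d_lc
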