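import Pool.Agent.P.MP_ef347d_lc.Basic2

/-! A calculus for the matrix language: entrywise expressions, predicates, sums, iteration. -/

namespace Pool.Agent.P.MP_ef347d_lc

open Matrix

/-- entrywise descriptions -/
abbrev EF (α : Type) : Type := ∀ m n : ℕ, (ℕ → Mt m n) → Fin (NN m n) → Fin (NN m n) → α

/-- the matrix with entries `f` is computable -/
def PE (k : ℕ) (f : EF ℝ) : Prop := PI k (fun m n Y => Matrix.of (f m n Y))

open Classical in
/-- the indicator matrix of `p` is computable -/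
def PP (k : ℕ) (p : EF Prop) : Prop := PE k (fun m n Y i j => if p m n Y i j then 1 else 0)

variable {k : ℕ}

lemma PI.congr {F G : MF} (h : PI k F) (e : ∀ m n Y, F m n Y = G m n Y) : PI k G := by
  have : F = G := by funext m n Y; exact e m n Y
  exact this ▸ h

lemma PE.congr {f g : EF ℝ} (h : PE k f) (e : ∀ m n Y i j, f m n Y i j = g m n Y i j) : PE k g := by
  have : f = g := by funext m n Y i j; exact e m n Y i j
  exact this ▸ h

lemma PP.congr {p q : EF Prop} (h : PP k p) (e : ∀ m n Y i j, p m n Y i j ↔ q m n Y i j) :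
    PP k q := by
  have : p = q := by funext m n Y i j; exact propext (e m n Y i j)
  exact this ▸ h

lemma PI.pe {F : MF} (h : PI k F) : PE k (fun m n Y i j => F m n Y i j) := h
lemma PE.pi {F : MF} (h : PE k (fun m n Y i j => F m n Y i j)) : PI k F := h
lemma PE.toColM {x : ∀ m n, (ℕ → Mt m n) → Fin (NN m n) → ℝ} (h : PE k (fun m n Y i _ => x m n Y i)) :
    PI k (fun m n Y => col (x m n Y)) := h
lemma PE.toCst {x : ∀ m n, (ℕ → Mt m n) → ℝ} (h : PE k (fun m n Y _ _ => x m n Y)) :
    PI k (fun m n Y => cst (x m n Y)) := h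

namespace PE

variable {f g : EF ℝ} {p : EF Prop}

lemma var {i : ℕ} (hi : i < k) : PE k (fun _ _ Y a b => Y i a b) := PI.var hi
lemma nat (c : ℕ) : PE k (fun _ _ _ _ _ => (c : ℝ)) := PI.num c
lemma ofNat (c : ℕ) [c.AtLeastTwo] : PE k (fun _ _ _ _ _ => (OfNat.ofNat c : ℝ)) := nat c
lemma zero : PE k (fun _ _ _ _ _ => 0) := (nat 0).congr (by simp)
lemma one : PE k (fun _ _ _ _ _ => 1) := (nat 1).congr (by simp)
lemma rows : PE k (fun m _ _ _ _ => (m : ℝ)) := PI.rows
lemma cols : PE k (fun _ n _ _ _ => (n : ℝ)) := PI.cols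
lemma rowIdx : PE k (fun _ _ _ i _ => (i.val : ℝ)) := PI.rowIdx
lemma swap (hf : PE k f) : PE k (fun m n Y i j => f m n Y j i) := PI.transpose hf
lemma colIdx : PE k (fun _ _ _ _ j => (j.val : ℝ)) := swap rowIdx
lemma add (hf : PE k f) (hg : PE k g) : PE k (fun m n Y i j => f m n Y i j + g m n Y i j) :=
  PI.op .add hf hg
lemma sub (hf : PE k f) (hg : PE k g) : PE k (fun m n Y i j => f m n Y i j - g m n Y i j) :=
  PI.op .sub hf hg
lemma mul (hf : PE k f) (hg : PE k g) : PE k (fun m n Y i j => f m n Y i j * g m n Y i j) :=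
  PI.op .mul hf hg
lemma div (hf : PE k f) (hg : PE k g) : PE k (fun m n Y i j => f m n Y i j / g m n Y i j) :=
  PI.op .div hf hg
lemma neg (hf : PE k f) : PE k (fun m n Y i j => -f m n Y i j) := (sub zero hf).congr (by simp)
lemma inv (hf : PE k f) : PE k (fun m n Y i j => (f m n Y i j)⁻¹) := (div one hf).congr (by simp)
lemma pow (hf : PE k f) (c : ℕ) : PE k (fun m n Y i j => f m n Y i j ^ c) := by
  induction c with
  | zero => exact one.congr (by simp)
  | succ c ih => exact (mul ih hf).congr (by simp [pow_succ])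

lemma ite (hp : PP k p) (hf : PE k f) (hg : PE k g) [∀ m n Y i j, Decidable (p m n Y i j)] :
    PE k (fun m n Y i j => if p m n Y i j then f m n Y i j else g m n Y i j) :=
  (add (mul hp hf) (mul (sub one hp) hg)).congr fun m n Y i j => by
    by_cases h : p m n Y i j <;> simp [h]

lemma sumR (hk : 0 < k) (hf : PE k f) : PE k (fun m n Y i _ => ∑ l, f m n Y i l) :=
  (PI.pe (PI.mul hk hf one)).congr fun m n Y i j => by simp [Matrix.mul_apply]
lemma sumC (hk : 0 < k) (hf : PE k f) : PE k (fun m n Y _ j => ∑ l, f m n Y l j) :=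
  swap (sumR hk (swap hf))
/-- sum of a vector (given along the rows) -/
lemma sumV (hk : 0 < k) {x : ∀ m n, (ℕ → Mt m n) → Fin (NN m n) → ℝ}
    (hx : PE k (fun m n Y i _ => x m n Y i)) : PE k (fun m n Y _ _ => ∑ l, x m n Y l) :=
  sumC hk hx
lemma sumAll (hk : 0 < k) (hf : PE k f) : PE k (fun m n Y _ _ => ∑ a, ∑ b, f m n Y a b) :=
  sumV hk (sumR hk hf)
lemma mulVec (hk : 0 < k) {F : MF} (hF : PI k F) {x : ∀ m n, (ℕ → Mt m n) → Fin (NN m n) → ℝ}
    (hx : PE k (fun m n Y i _ => x m n Y i)) :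
    PE k (fun m n Y i _ => (F m n Y *ᵥ x m n Y) i) :=
  (PI.pe (PI.mul hk hF hx)).congr fun m n Y i j => by
    simp [Matrix.mul_apply, Matrix.mulVec, dotProduct]
lemma dot (hk : 0 < k) {x y : ∀ m n, (ℕ → Mt m n) → Fin (NN m n) → ℝ}
    (hx : PE k (fun m n Y i _ => x m n Y i)) (hy : PE k (fun m n Y i _ => y m n Y i)) :
    PE k (fun m n Y _ _ => x m n Y ⬝ᵥ y m n Y) := sumV hk (mul hx hy)
/-- a vector given along the rows, read along the columns -/
lemma toCol {x : ∀ m n, (ℕ → Mt m n) → Fin (NN m n) → ℝ}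
    (hx : PE k (fun m n Y i _ => x m n Y i)) : PE k (fun m n Y _ j => x m n Y j) := swap hx

end PE

namespace PP

variable {f g : EF ℝ} {p q : EF Prop}

lemma le (hf : PE k f) (hg : PE k g) : PP k (fun m n Y i j => f m n Y i j ≤ g m n Y i j) :=
  PE.congr (PI.op .le hf hg) fun m n Y i j => by simp [Op.eval]
lemma not (hp : PP k p) : PP k (fun m n Y i j => ¬ p m n Y i j) :=
  PE.congr (PE.sub PE.one hp) fun m n Y i j => by by_cases h : p m n Y i j <;> simp [h]
lemma and (hp : PP k p) (hq : PP k q) : PP k (fun m n Y i j => p m n Y i j ∧ q m n Y i j) :=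
  PE.congr (PE.mul hp hq) fun m n Y i j => by
    by_cases h : p m n Y i j <;> by_cases h' : q m n Y i j <;> simp [h, h']
lemma or (hp : PP k p) (hq : PP k q) : PP k (fun m n Y i j => p m n Y i j ∨ q m n Y i j) :=
  (not (and (not hp) (not hq))).congr fun m n Y i j => by tauto
lemma imp (hp : PP k p) (hq : PP k q) : PP k (fun m n Y i j => p m n Y i j → q m n Y i j) :=
  (or (not hp) hq).congr fun _ _ _ _ _ => by tauto
lemma lt (hf : PE k f) (hg : PE k g) : PP k (fun m n Y i j => f m n Y i j < g m n Y i j) :=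
  (not (le hg hf)).congr fun m n Y i j => by simp
lemma eq (hf : PE k f) (hg : PE k g) : PP k (fun m n Y i j => f m n Y i j = g m n Y i j) :=
  (and (le hf hg) (le hg hf)).congr fun m n Y i j => le_antisymm_iff.symm
lemma swap (hp : PP k p) : PP k (fun m n Y i j => p m n Y j i) := PE.swap hp
lemma allR (hk : 0 < k) (hp : PP k p) : PP k (fun m n Y i _ => ∀ l, p m n Y i l) :=
  (le (PE.sumR hk (not hp)) PE.zero).congr fun m n Y i j => by
    constructor
    · intro h l
      by_contra hl
      have := Finset.single_le_sum (f := fun l => @ite ℝ (¬ p m n Y i l) (Classical.propDecidable _) 1 0)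
        (fun l _ => by split_ifs <;> norm_num) (Finset.mem_univ l)
      simp only [hl, not_false_eq_true, if_true] at this
      linarith
    · intro h
      simp [h]
lemma allC (hk : 0 < k) (hp : PP k p) : PP k (fun m n Y _ j => ∀ l, p m n Y l j) :=
  swap (allR hk (swap hp))
/-- universal quantifier over a predicate given along the rows -/
lemma allV (hk : 0 < k) {r : ∀ m n, (ℕ → Mt m n) → Fin (NN m n) → Prop}
    (hr : PP k (fun m n Y i _ => r m n Y i)) : PP k (fun m n Y _ _ => ∀ l, r m n Y l) :=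
  allC hk hr
lemma exV (hk : 0 < k) {r : ∀ m n, (ℕ → Mt m n) → Fin (NN m n) → Prop}
    (hr : PP k (fun m n Y i _ => r m n Y i)) : PP k (fun m n Y _ _ => ∃ l, r m n Y l) :=
  (not (allV (r := fun m n Y i => ¬ r m n Y i) hk (not hr))).congr fun m n Y i j => by simp
lemma natLt {a b : EF ℕ} (ha : PE k (fun m n Y i j => (a m n Y i j : ℝ)))
    (hb : PE k (fun m n Y i j => (b m n Y i j : ℝ))) :
    PP k (fun m n Y i j => a m n Y i j < b m n Y i j) := (lt ha hb).congr (by simp)
lemma natLe {a b : EF ℕ} (ha : PE k (fun m n Y i j => (a m n Y i j : ℝ)))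
    (hb : PE k (fun m n Y i j => (b m n Y i j : ℝ))) :
    PP k (fun m n Y i j => a m n Y i j ≤ b m n Y i j) := (le ha hb).congr (by simp)
lemma natEq {a b : EF ℕ} (ha : PE k (fun m n Y i j => (a m n Y i j : ℝ)))
    (hb : PE k (fun m n Y i j => (b m n Y i j : ℝ))) :
    PP k (fun m n Y i j => a m n Y i j = b m n Y i j) := (eq ha hb).congr (by simp)
lemma diag : PP k (fun _ _ _ i j => i = j) :=
  (natEq PE.rowIdx PE.colIdx).congr fun _ _ _ _ _ => Fin.val_inj

end PP

namespace PE

variable {f g : EF ℝ}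

lemma max (hf : PE k f) (hg : PE k g) : PE k (fun m n Y i j => max (f m n Y i j) (g m n Y i j)) :=
  (ite (PP.le hf hg) hg hf).congr fun _ _ _ _ _ => (max_def _ _).symm
lemma min (hf : PE k f) (hg : PE k g) : PE k (fun m n Y i j => min (f m n Y i j) (g m n Y i j)) :=
  (ite (PP.le hf hg) hf hg).congr fun _ _ _ _ _ => (min_def _ _).symm
lemma abs (hf : PE k f) : PE k (fun m n Y i j => |f m n Y i j|) := max hf (neg hf)
lemma natAdd {a b : EF ℕ} (ha : PE k (fun m n Y i j => (a m n Y i j : ℝ)))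
    (hb : PE k (fun m n Y i j => (b m n Y i j : ℝ))) :
    PE k (fun m n Y i j => ((a m n Y i j + b m n Y i j : ℕ) : ℝ)) := (add ha hb).congr (by simp)
lemma natMul {a b : EF ℕ} (ha : PE k (fun m n Y i j => (a m n Y i j : ℝ)))
    (hb : PE k (fun m n Y i j => (b m n Y i j : ℝ))) :
    PE k (fun m n Y i j => ((a m n Y i j * b m n Y i j : ℕ) : ℝ)) := (mul ha hb).congr (by simp)
lemma natMin {a b : EF ℕ} (ha : PE k (fun m n Y i j => (a m n Y i j : ℝ)))
    (hb : PE k (fun m n Y i j => (b m n Y i j : ℝ))) :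
    PE k (fun m n Y i j => ((Min.min (a m n Y i j) (b m n Y i j) : ℕ) : ℝ)) :=
  (min ha hb).congr (by simp)
/-- column `0` as a vector -/
lemma col0 (hk : 0 < k) (hf : PE k f) : PE k (fun m n Y i _ => f m n Y i 0) :=
  (sumR hk (ite (PP.natEq colIdx (nat 0)) hf zero)).congr fun m n Y i j => by
    simp [Fin.val_eq_zero_iff]
lemma row0 (hk : 0 < k) (hf : PE k f) : PE k (fun m n Y _ j => f m n Y 0 j) :=
  swap (col0 hk (swap hf))
/-- entry `(0, 0)` as a scalar -/
lemma ent0 (hk : 0 < k) (hf : PE k f) : PE k (fun m n Y _ _ => f m n Y 0 0) :=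
  row0 hk (col0 hk hf)
/-- column `0` of a variable -/
lemma vcol (hk : 0 < k) {i : ℕ} (hi : i < k) : PE k (fun _ _ Y a _ => Y i a 0) := col0 hk (var hi)
/-- entry `(0, 0)` of a variable -/
lemma vent (hk : 0 < k) {i : ℕ} (hi : i < k) : PE k (fun _ _ Y _ _ => Y i 0 0) := ent0 hk (var hi)

end PE

namespace PI

variable {F G : MF}

lemma one : PI k (fun _ _ _ => 1) :=
  PE.pi ((PE.ite PP.diag PE.one PE.zero).congr fun _ _ _ _ _ => by simp [Matrix.one_apply])
lemma add (hF : PI k F) (hG : PI k G) : PI k (fun m n Y => F m n Y + G m n Y) :=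
  PE.add hF.pe hG.pe
lemma sub (hF : PI k F) (hG : PI k G) : PI k (fun m n Y => F m n Y - G m n Y) :=
  PE.sub hF.pe hG.pe
lemma neg (hF : PI k F) : PI k (fun m n Y => -F m n Y) := PE.neg hF.pe
lemma smul {x : ∀ m n, (ℕ → Mt m n) → ℝ} (hx : PE k (fun m n Y _ _ => x m n Y)) (hF : PI k F) :
    PI k (fun m n Y => x m n Y • F m n Y) := PE.mul hx hF.pe
lemma diagonal {x : ∀ m n, (ℕ → Mt m n) → Fin (NN m n) → ℝ}
    (hx : PE k (fun m n Y i _ => x m n Y i)) : PI k (fun m n Y => diagonal (x m n Y)) :=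
  PE.pi ((PE.ite PP.diag hx PE.zero).congr fun _ _ _ _ _ => by simp [Matrix.diagonal_apply])
lemma rmask {a : ∀ m n, (ℕ → Mt m n) → ℕ} (ha : PE k (fun m n Y _ _ => (a m n Y : ℝ))) :
    PI k (fun m n Y => rmask (NN m n) (a m n Y)) :=
  diagonal (PE.ite (PP.natLt PE.rowIdx ha) PE.one PE.zero)
lemma ite {p : ∀ m n, (ℕ → Mt m n) → Prop} [∀ m n Y, Decidable (p m n Y)]
    (hp : PP k (fun m n Y _ _ => p m n Y)) (hF : PI k F) (hG : PI k G) :
    PI k (fun m n Y => if p m n Y then F m n Y else G m n Y) :=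
  PE.pi ((PE.ite hp hF.pe hG.pe).congr fun m n Y i j => by split_ifs <;> rfl)

/-- iteration on a typed state -/
lemma iter' {l : ℕ} (hk : 0 < k) (a : ℕ) {St : ℕ → ℕ → Type}
    (code : ∀ m n, St m n → Fin l → Mt m n) (init : ∀ m n, (ℕ → Mt m n) → St m n)
    (step : ∀ m n, (ℕ → Mt m n) → St m n → St m n)
    (hi : ∀ j, PI k (fun m n Y => code m n (init m n Y) j)) (body : Fin l → MF)
    (hb : ∀ j, PI (k + l) (body j))
    (hstep : ∀ m n Y st j, body j m n (ext k Y (code m n st)) = code m n (step m n Y st) j)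
    (j : Fin l) :
    PI k (fun m n Y => code m n ((step m n Y)^[tOf (Y 0) ^ a] (init m n Y)) j) := by
  refine (PI.iter hk a (fun j m n Y => code m n (init m n Y) j) body hi hb j).congr ?_
  intro m n Y
  generalize tOf (Y 0) ^ a = r
  have : (fun (st : Fin l → Mt m n) (j' : Fin l) => body j' m n (ext k Y st))^[r]
      (code m n (init m n Y)) = code m n ((step m n Y)^[r] (init m n Y)) := by
    induction r with
    | zero => rfl
    | succ r ih =>
      rw [Function.iterate_succ_apply', Function.iterate_succ_apply', ih]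
      funext j'
      exact hstep m n Y _ j'
  exact congrFun this j

/-- iteration of a single matrix; the state is variable `k` -/
lemma iter1 (hk : 0 < k) (a : ℕ) {init : MF} (hi : PI k init)
    (step : ∀ m n, (ℕ → Mt m n) → Mt m n → Mt m n) {body : MF} (hb : PI (k + 1) body)
    (hstep : ∀ m n Y X, body m n (ext k Y (fun _ : Fin 1 => X)) = step m n Y X) :
    PI k (fun m n Y => (step m n Y)^[tOf (Y 0) ^ a] (init m n Y)) :=
  iter' (l := 1) hk a (St := fun m n => Mt m n) (fun _ _ X _ => X) init step (fun _ => hi)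
    (fun _ => body) (fun _ => hb) (fun m n Y X _ => hstep m n Y X) 0

end PI

lemma ext_lt {α : Type} {k l i : ℕ} (Y : ℕ → α) (st : Fin l → α) (hi : i < k) :
    ext k Y st i = Y i := by
  simp only [ext]; rw [dif_neg (by omega)]

lemma ext_add {α : Type} {k l : ℕ} (Y : ℕ → α) (st : Fin l → α) (j : Fin l) :
    ext k Y st (k + j.val) = st j := by
  simp only [ext]; rw [dif_pos (by have := j.2; omega)]; simp

lemma ext_self {α : Type} {k l : ℕ} (Y : ℕ → α) (st : Fin (l + 1) → α) : ext k Y st k = st 0 :=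
  ext_add Y st 0

@[simp] lemma tOf_cst {m n : ℕ} (t : ℕ) : tOf (cst t : Mt m n) = t := by simp [tOf, cst]
@[simp] lemma cst_apply {N : ℕ} (x : ℝ) (i j : Fin N) : (cst x : Matrix _ _ ℝ) i j = x := rfl
@[simp] lemma col_apply {N : ℕ} (x : Fin N → ℝ) (i j : Fin N) : col x i j = x i := rfl

/-- weakening: more variables -/
lemma PI.weaken {k k' : ℕ} {F : MF} (hk : 0 < k') (hF : PI k F) (h : k ≤ k')
    (hdep : ∀ m n Y Y', (∀ i, i < k → Y i = Y' i) → F m n Y = F m n Y') : PI k' F :=
  (PI.call hk hF (fun i _ _ Y => Y i) fun _ _ hi => PI.var (by omega)).congr fun m n Y =>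
    hdep m n _ _ fun i _ => by by_cases h : i = 0 <;> simp [h]

/-- entrywise power with exponent `t ^ a` -/
lemma PE.powT (hk : 0 < k) (a : ℕ) {f : EF ℝ} (hf : PE k f) :
    PE k (fun m n Y i j => f m n Y i j ^ (tOf (Y 0) ^ a)) := by
  have h := PI.iter' (l := 2) hk a (St := fun m n => Mt m n × Mt m n)
    (fun _ _ st => ![st.1, st.2]) (fun m n Y => (Matrix.of (f m n Y), cst 1))
    (fun _ _ _ st => (st.1, Matrix.of fun i j => st.2 i j * st.1 i j))
    (by intro j; fin_cases j; exacts [hf, PE.one])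
    ![fun _ _ Y => Y k, fun _ _ Y => Matrix.of fun i j => Y (k + 1) i j * Y k i j]
    (by
      intro j; fin_cases j
      · exact PI.var (by omega)
      · exact PE.mul (PE.var (by omega)) (PE.var (by omega)))
    (by
      intro m n Y st j
      have h0 := ext_add (k := k) Y ![st.1, st.2] 0
      have h1 := ext_add (k := k) Y ![st.1, st.2] 1
      fin_cases j <;> simp_all) 1
  refine PE.congr (PI.pe h) fun m n Y i j => ?_
  generalize tOf (Y 0) ^ a = r
  have : ∀ r, (fun st : Mt m n × Mt m n => (st.1, Matrix.of fun i j => st.2 i j * st.1 i j))^[r]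
      (Matrix.of (f m n Y), cst 1) = (Matrix.of (f m n Y), Matrix.of fun i j => f m n Y i j ^ r) := by
    intro r
    induction r with
    | zero => simp; ext; simp
    | succ r ih => rw [Function.iterate_succ_apply', ih]; simp [pow_succ]
  simp [this]

/-- the round parameter -/
lemma PE.tnat (hk : 0 < k) : PE k (fun _ _ Y _ _ => (tOf (Y 0) : ℝ)) := by
  have h := PI.iter1 hk 1 (PE.toCst (PE.zero (k := k))) (fun _ _ _ X => Matrix.of fun i j => X i j + 1)
    (PE.add (PE.var (i := k) (by omega)) PE.one) (by intro m n Y X; ext; simp [ext_self])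
  refine PE.congr (PI.pe h) fun m n Y i j => ?_
  generalize tOf (Y 0) = r
  rw [pow_one]
  induction r with
  | zero => simp
  | succ r ih => rw [Function.iterate_succ_apply']; simp [ih]

end Pool.Agent.P.MP_ef347d_lc
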