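import Mathlib

/-! Csanky's formula for the inverse of a real symmetric matrix. -/

namespace Pool.Agent.P.MP_ef347d_lc.Mach

open Matrix Finset

/-- entry of a matrix at a position given by natural numbers -/
def lift {N : ℕ} (X : Matrix (Fin N) (Fin N) ℝ) (b c : ℕ) : ℝ :=
  if h : b < N ∧ c < N then X ⟨b, h.1⟩ ⟨c, h.2⟩ else 0

theorem lift_of_lt {N : ℕ} (X : Matrix (Fin N) (Fin N) ℝ) {b c : ℕ} (hb : b < N) (hc : c < N) :
    lift X b c = X ⟨b, hb⟩ ⟨c, hc⟩ := dif_pos ⟨hb, hc⟩

theorem lift_fin {N : ℕ} (X : Matrix (Fin N) (Fin N) ℝ) (b c : Fin N) :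
    lift X b c = X b c := dif_pos ⟨b.2, c.2⟩

/-- the strictly lower triangular matrix of the Newton recursion -/
noncomputable def cT {N : ℕ} (H : Matrix (Fin N) (Fin N) ℝ) : Matrix (Fin N) (Fin N) ℝ :=
  Matrix.of fun i j => if j.val < i.val then -trace (H ^ (i.val - j.val)) / i.val else 0

/-- its Neumann series -/
noncomputable def cS {N : ℕ} (H : Matrix (Fin N) (Fin N) ℝ) : Matrix (Fin N) (Fin N) ℝ :=
  ∑ k ∈ range N, cT H ^ k

/-- the adjugate up to sign -/
noncomputable def cB {N : ℕ} (H : Matrix (Fin N) (Fin N) ℝ) : Matrix (Fin N) (Fin N) ℝ :=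
  ∑ k ∈ range N, lift (cS H) k 0 • H ^ (N - 1 - k)

theorem newton_series {ι : Type} (lam : ι → ℝ) (s : Finset ι) :
    PowerSeries.derivative ℝ (∏ i ∈ s, (1 - PowerSeries.C (lam i) * PowerSeries.X)) =
      -(∏ i ∈ s, (1 - PowerSeries.C (lam i) * PowerSeries.X)) *
        PowerSeries.mk fun k => ∑ i ∈ s, lam i ^ (k + 1) := by
  classical
  induction s using Finset.induction_on with
  | empty =>
    have : (PowerSeries.mk fun k => ∑ i ∈ (∅ : Finset ι), lam i ^ (k + 1)) = 0 := by
      ext k
      simp
    rw [this]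
    simp
  | insert a s ha ih =>
    have h1 : (PowerSeries.mk fun k => ∑ i ∈ insert a s, lam i ^ (k + 1)) =
        (PowerSeries.mk fun k => lam a ^ (k + 1)) +
          PowerSeries.mk fun k => ∑ i ∈ s, lam i ^ (k + 1) := by
      ext k
      simp [Finset.sum_insert ha]
    have h2 : (1 - PowerSeries.C (lam a) * PowerSeries.X) *
        (PowerSeries.mk fun k => lam a ^ (k + 1)) = PowerSeries.C (lam a) := by
      ext k
      rw [sub_mul, one_mul, mul_assoc, map_sub, PowerSeries.coeff_C_mul]
      rcases k with _ | k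
      · simp
      · rw [PowerSeries.coeff_succ_X_mul]
        simp [pow_succ']
    have h3 : PowerSeries.derivative ℝ (1 - PowerSeries.C (lam a) * PowerSeries.X) =
        -PowerSeries.C (lam a) := by
      rw [map_sub, Derivation.leibniz]
      simp
    rw [Finset.prod_insert ha, Derivation.leibniz, ih, h3, h1]
    simp only [smul_eq_mul]
    linear_combination (∏ i ∈ s, (1 - PowerSeries.C (lam i) * PowerSeries.X)) * h2

/-- the coefficients of `∏ (1 - λ X)` -/
theorem exists_coeffs {N : ℕ} (lam : Fin N → ℝ) : ∃ c : ℕ → ℝ, c 0 = 1 ∧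
    (∀ k, c (k + 1) * (k + 1) = -∑ j ∈ range (k + 1), (∑ i, lam i ^ (k + 1 - j)) * c j) ∧
    c N = ∏ i, -lam i ∧ ∀ i, ∑ k ∈ range (N + 1), c k * lam i ^ (N - k) = 0 := by
  set q : Polynomial ℝ := ∏ i, (1 - Polynomial.C (lam i) * Polynomial.X) with hq
  have hdeg1 : ∀ i, (1 - Polynomial.C (lam i) * Polynomial.X).natDegree ≤ 1 := by
    intro i
    compute_degree
  have hdeg : q.natDegree ≤ N := by
    refine (Polynomial.natDegree_prod_le _ _).trans ?_
    calc _ ≤ ∑ _i : Fin N, 1 := Finset.sum_le_sum fun i _ => hdeg1 i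
      _ = N := by simp
  have hN : q.coeff N = ∏ i, -lam i := by
    have := Polynomial.coeff_prod_of_natDegree_le (s := Finset.univ)
      (fun i => (1 - Polynomial.C (lam i) * Polynomial.X)) 1 fun i _ => hdeg1 i
    simp only [Finset.card_univ, Fintype.card_fin, mul_one] at this
    rw [hq, this]
    refine Finset.prod_congr rfl fun i _ => ?_
    simp [Polynomial.coeff_one]
  have hcoe : (q : PowerSeries ℝ) = ∏ i, (1 - PowerSeries.C (lam i) * PowerSeries.X) := by
    have := map_prod (Polynomial.coeToPowerSeries.ringHom (R := ℝ))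
      (fun i => (1 - Polynomial.C (lam i) * Polynomial.X)) Finset.univ
    simp only [map_sub, map_mul, map_one, Polynomial.coeToPowerSeries.ringHom_apply,
      Polynomial.coe_C, Polynomial.coe_X] at this
    exact this
  refine ⟨q.coeff, ?_, fun k => ?_, hN, fun i => ?_⟩
  · rw [Polynomial.coeff_zero_eq_eval_zero, hq, Polynomial.eval_prod]
    simp
  · have h := congrArg (PowerSeries.coeff k) (newton_series lam Finset.univ)
    rw [← hcoe, PowerSeries.coeff_derivative, neg_mul, map_neg, PowerSeries.coeff_mul,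
      Finset.Nat.sum_antidiagonal_eq_sum_range_succ_mk, Polynomial.coeff_coe] at h
    rw [h]
    congr 1
    refine Finset.sum_congr rfl fun j hj => ?_
    have hj' : k + 1 - j = k - j + 1 := by have := Finset.mem_range.1 hj; omega
    rw [Polynomial.coeff_coe, PowerSeries.coeff_mk, hj', mul_comm]
  · by_cases h0 : lam i = 0
    · rw [Finset.sum_range_succ, hN, Finset.sum_eq_zero, Finset.prod_eq_zero (Finset.mem_univ i)]
      · simp
      · simp [h0]
      · intro k hk
        have : N - k ≠ 0 := by have := Finset.mem_range.1 hk; omega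
        simp [h0, this]
    · have h1 : q.eval (lam i)⁻¹ = 0 := by
        rw [hq, Polynomial.eval_prod]
        exact Finset.prod_eq_zero (Finset.mem_univ i) (by simp [h0])
      rw [Polynomial.eval_eq_sum_range' (n := N + 1) (by omega)] at h1
      have h2 := congrArg (· * lam i ^ N) h1
      simp only [zero_mul, Finset.sum_mul] at h2
      rw [← h2]
      refine Finset.sum_congr rfl fun k hk => ?_
      have hk' : k ≤ N := by have := Finset.mem_range.1 hk; omega
      rw [pow_sub₀ _ h0 hk', inv_pow]
      ring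

theorem cT_pow {N : ℕ} (H : Matrix (Fin N) (Fin N) ℝ) (r : ℕ) :
    ∀ i j : Fin N, i.val < j.val + r → (cT H ^ r) i j = 0 := by
  induction r with
  | zero =>
    intro i j h
    rw [pow_zero, Matrix.one_apply_ne]
    intro e
    rw [e] at h
    omega
  | succ r ih =>
    intro i j h
    rw [pow_succ, Matrix.mul_apply]
    refine Finset.sum_eq_zero fun l _ => ?_
    by_cases hl : j.val < l.val
    · rw [ih i l (by omega), zero_mul]
    · have : cT H l j = 0 := if_neg hl
      rw [this, mul_zero]

theorem csanky {N : ℕ} (hN : 0 < N) (H : Matrix (Fin N) (Fin N) ℝ) (hH : Hᵀ = H) :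
    H⁻¹ = Matrix.of fun i j => cB H i j / lift (H * cB H) 0 0 := by
  have hH' : H.IsHermitian := by
    rw [Matrix.IsHermitian, Matrix.conjTranspose_eq_transpose_of_trivial, hH]
  obtain ⟨U, V, lam, hUV, hVU, hd⟩ : ∃ (U V : Matrix (Fin N) (Fin N) ℝ) (lam : Fin N → ℝ),
      U * V = 1 ∧ V * U = 1 ∧ H = U * diagonal lam * V := by
    refine ⟨hH'.eigenvectorUnitary, star (hH'.eigenvectorUnitary : Matrix (Fin N) (Fin N) ℝ),
      hH'.eigenvalues, by simp, by simp, ?_⟩
    have := hH'.spectral_theorem
    simpa using this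
  have hpow : ∀ k, H ^ k = U * diagonal (fun i => lam i ^ k) * V := by
    intro k
    induction k with
    | zero => simp [hUV]
    | succ k ih =>
      rw [pow_succ, ih, hd]
      have : diagonal (fun i => lam i ^ (k + 1)) = diagonal (fun i => lam i ^ k) * diagonal lam := by
        simp [pow_succ]
      rw [this]
      simp only [Matrix.mul_assoc]
      rw [← Matrix.mul_assoc V U, hVU, Matrix.one_mul]
  have htr : ∀ k, trace (H ^ k) = ∑ i, lam i ^ k := by
    intro k
    rw [hpow, Matrix.trace_mul_cycle, hVU, Matrix.one_mul, Matrix.trace_diagonal]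
  obtain ⟨c, c0, crec, cN, croot⟩ := exists_coeffs lam
  have hc : (1 - cT H) *ᵥ (fun i : Fin N => c i) = Pi.single ⟨0, hN⟩ 1 := by
    ext ⟨i, hi⟩
    rw [Matrix.sub_mulVec, Matrix.one_mulVec]
    simp only [Pi.sub_apply, Matrix.mulVec, dotProduct, cT, Matrix.of_apply]
    rcases i with _ | k
    · simp [c0]
    · rw [Pi.single_eq_of_ne (by simp)]
      rw [Fin.sum_univ_eq_sum_range
        (fun j => (if j < k + 1 then -trace (H ^ (k + 1 - j)) / ((k + 1 : ℕ) : ℝ) else 0) * c j) N]
      have hk : ((k : ℝ) + 1) ≠ 0 := by positivity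
      have e1 : ∑ j ∈ range N,
          (if j < k + 1 then -trace (H ^ (k + 1 - j)) / ((k + 1 : ℕ) : ℝ) else 0) * c j =
          ∑ j ∈ range (k + 1), -(∑ i, lam i ^ (k + 1 - j)) * c j / (k + 1) := by
        rw [← Finset.sum_subset (s₁ := range (k + 1)) (Finset.range_subset_range.2 (by omega))]
        · refine Finset.sum_congr rfl fun j hj => ?_
          rw [if_pos (Finset.mem_range.1 hj), htr]
          push_cast
          ring
        · intro j _ hj
          rw [if_neg (fun h => hj (Finset.mem_range.2 h)), zero_mul]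
      rw [e1, ← Finset.sum_div, sub_eq_zero, eq_div_iff hk, crec, ← Finset.sum_neg_distrib]
      simp only [neg_mul]
  have hS : ∀ k, k < N → lift (cS H) k 0 = c k := by
    intro k hk
    have h1 : cS H * (1 - cT H) = 1 := by
      rw [cS, geom_sum_mul_neg]
      have : cT H ^ N = 0 := by
        ext i j
        exact cT_pow H N i j (by omega)
      rw [this, sub_zero]
    have h2 : cS H *ᵥ Pi.single ⟨0, hN⟩ 1 = fun i : Fin N => c i := by
      rw [← hc, Matrix.mulVec_mulVec, h1, Matrix.one_mulVec]
    have h3 := congrFun h2 ⟨k, hk⟩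
    rw [lift_of_lt _ hk hN]
    simpa using h3
  have hB : H * cB H = (-c N) • (1 : Matrix (Fin N) (Fin N) ℝ) := by
    have h1 : H * cB H + c N • (1 : Matrix (Fin N) (Fin N) ℝ) =
        ∑ k ∈ range (N + 1), c k • H ^ (N - k) := by
      rw [Finset.sum_range_succ, Nat.sub_self, pow_zero, cB, Finset.mul_sum]
      congr 1
      refine Finset.sum_congr rfl fun k hk => ?_
      have hk' := Finset.mem_range.1 hk
      have e : N - k = N - 1 - k + 1 := by omega
      rw [hS k hk', Matrix.mul_smul, e, pow_succ']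
    have h2 : ∑ k ∈ range (N + 1), c k • H ^ (N - k) =
        U * diagonal (fun i => ∑ k ∈ range (N + 1), c k * lam i ^ (N - k)) * V := by
      have : diagonal (fun i => ∑ k ∈ range (N + 1), c k * lam i ^ (N - k)) =
          ∑ k ∈ range (N + 1), c k • diagonal (fun i => lam i ^ (N - k)) := by
        ext i j
        by_cases h : i = j
        · subst h
          simp [Matrix.sum_apply]
        · simp [Matrix.sum_apply, h]
      rw [this, Finset.mul_sum, Finset.sum_mul]
      refine Finset.sum_congr rfl fun k _ => ?_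
      rw [hpow, Matrix.mul_smul, Matrix.smul_mul]
    simp only [croot] at h2
    rw [h2] at h1
    rw [neg_smul, eq_neg_iff_add_eq_zero, h1]
    simp
  have h00 : lift (H * cB H) 0 0 = -c N := by
    rw [lift_of_lt _ hN hN, hB]
    simp
  rw [h00]
  by_cases h0 : c N = 0
  · have hdet : H.det = 0 := by
      rw [cN, Finset.prod_eq_zero_iff] at h0
      obtain ⟨i, -, hi⟩ := h0
      rw [hd, Matrix.det_mul, Matrix.det_mul, Matrix.det_diagonal,
        Finset.prod_eq_zero (Finset.mem_univ i) (neg_eq_zero.1 hi)]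
      simp
    rw [Matrix.nonsing_inv_apply_not_isUnit _ (by simp [hdet])]
    ext i j
    simp [h0]
  · refine Matrix.inv_eq_right_inv ?_
    have : (Matrix.of fun i j => cB H i j / -c N) = (-c N)⁻¹ • cB H := by
      ext i j
      simp [div_eq_inv_mul]
    rw [this, Matrix.mul_smul, hB, smul_smul, inv_mul_cancel₀ (neg_ne_zero.2 h0), one_smul]

end Pool.Agent.P.MP_ef347d_lc.Mach
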