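import Pool.Agent.P.MP_ef347d_lc.Basic

/-! Basic facts about projections and central points. -/

namespace Pool.Agent.P.MP_ef347d_lc

open Matrix

variable {ι κ : Type} [Fintype ι] [Fintype κ]

lemma dot_self_nonneg (x : ι → ℝ) : 0 ≤ x ⬝ᵥ x := Finset.sum_nonneg fun _ _ => mul_self_nonneg _

lemma sq_le_dot (x : ι → ℝ) (i : ι) : x i ^ 2 ≤ x ⬝ᵥ x := by
  rw [sq]
  exact Finset.single_le_sum (f := fun j => x j * x j) (fun j _ => mul_self_nonneg _)
    (Finset.mem_univ i)

lemma dot_sq_le (x y : ι → ℝ) : (x ⬝ᵥ y) ^ 2 ≤ (x ⬝ᵥ x) * (y ⬝ᵥ y) := by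
  have := Finset.sum_mul_sq_le_sq_mul_sq Finset.univ x y
  simpa [dotProduct, sq] using this

lemma mulVec_dot (A : Matrix ι κ ℝ) (x : κ → ℝ) (y : ι → ℝ) :
    (A *ᵥ x) ⬝ᵥ y = x ⬝ᵥ (Aᵀ *ᵥ y) := by
  rw [dotProduct_comm, dotProduct_mulVec, dotProduct_comm, mulVec_transpose]

namespace IsProj

variable {P : Matrix ι ι ℝ}

lemma adj (hP : IsProj P) (a b : ι → ℝ) : (P *ᵥ a) ⬝ᵥ b = a ⬝ᵥ (P *ᵥ b) := by
  rw [mulVec_dot, hP.1]

lemma idem (hP : IsProj P) (a : ι → ℝ) : P *ᵥ (P *ᵥ a) = P *ᵥ a := by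
  rw [mulVec_mulVec, hP.2]

lemma orth (hP : IsProj P) {a b : ι → ℝ} (ha : P *ᵥ a = a) (hb : P *ᵥ b = 0) : a ⬝ᵥ b = 0 := by
  rw [← ha, hP.adj, hb, dotProduct_zero]

lemma compl [DecidableEq ι] (hP : IsProj P) : IsProj (1 - P) := by
  refine ⟨by rw [transpose_sub, transpose_one, hP.1], ?_⟩
  rw [sub_mul, mul_sub, mul_sub, hP.2]; simp

lemma dot_proj (hP : IsProj P) (a : ι → ℝ) : (P *ᵥ a) ⬝ᵥ (P *ᵥ a) = a ⬝ᵥ (P *ᵥ a) := by
  rw [hP.adj, hP.idem]

lemma norm_le (hP : IsProj P) (a : ι → ℝ) : (P *ᵥ a) ⬝ᵥ (P *ᵥ a) ≤ a ⬝ᵥ a := by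
  have h := dot_self_nonneg (a - P *ᵥ a)
  rw [sub_dotProduct, dotProduct_sub, dotProduct_sub, hP.dot_proj, dotProduct_comm (P *ᵥ a) a] at h
  rw [hP.dot_proj]; linarith

lemma eq_zero_of_orth (hP : IsProj P) {b : ι → ℝ} (h : ∀ a, P *ᵥ a = a → a ⬝ᵥ b = 0) :
    P *ᵥ b = 0 := by
  have := h _ (hP.idem b)
  rw [← dotProduct_self_eq_zero, hP.dot_proj, dotProduct_comm]
  exact this

lemma fix_of_orth (hP : IsProj P) {a : ι → ℝ} (h : ∀ b, P *ᵥ b = 0 → a ⬝ᵥ b = 0) :
    P *ᵥ a = a := by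
  have h1 := h (a - P *ᵥ a) (by rw [mulVec_sub, hP.idem, sub_self])
  have h2 : (a - P *ᵥ a) ⬝ᵥ (a - P *ᵥ a) = 0 := by
    rw [sub_dotProduct, h1, hP.adj, mulVec_sub, hP.idem, sub_self]; simp
  exact (sub_eq_zero.mp (dotProduct_self_eq_zero.mp h2)).symm

lemma diag_eq (hP : IsProj P) (i : ι) : ∑ k, P i k ^ 2 = P i i := by
  have := congrFun (congrFun hP.2 i) i
  rw [← this, mul_apply]
  refine Finset.sum_congr rfl fun k _ => ?_
  have : P k i = P i k := by
    have := congrFun (congrFun hP.1 i) k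
    simpa using this
  rw [this, sq]

lemma diag_nonneg (hP : IsProj P) (i : ι) : 0 ≤ P i i := by
  rw [← hP.diag_eq]; exact Finset.sum_nonneg fun _ _ => sq_nonneg _

lemma diag_le_one (hP : IsProj P) (i : ι) : P i i ≤ 1 := by
  have h1 : P i i ^ 2 ≤ P i i := by
    conv_rhs => rw [← hP.diag_eq]
    exact Finset.single_le_sum (f := fun k => P i k ^ 2) (fun _ _ => sq_nonneg _)
      (Finset.mem_univ i)
  nlinarith [hP.diag_nonneg i]

end IsProj

theorem isProj_Pr [DecidableEq κ] {A : Matrix ι κ ℝ} (h : IsUnit (Aᵀ * A).det) :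
    IsProj (Pr A) := by
  constructor
  · simp [Pr, transpose_mul, transpose_nonsing_inv, Matrix.mul_assoc]
  · simp only [Pr, Matrix.mul_assoc]
    rw [← Matrix.mul_assoc Aᵀ A, ← Matrix.mul_assoc (Aᵀ * A), mul_nonsing_inv _ h, Matrix.one_mul]

lemma Pr_mul [DecidableEq κ] {A : Matrix ι κ ℝ} (h : IsUnit (Aᵀ * A).det) : Pr A * A = A := by
  simp only [Pr, Matrix.mul_assoc]
  rw [nonsing_inv_mul _ h, Matrix.mul_one]

lemma Pr_fix [DecidableEq κ] {A : Matrix ι κ ℝ} (h : IsUnit (Aᵀ * A).det) (x : κ → ℝ) :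
    Pr A *ᵥ (A *ᵥ x) = A *ᵥ x := by rw [mulVec_mulVec, Pr_mul h]

lemma Pr_fix_iff [DecidableEq κ] {A : Matrix ι κ ℝ} (h : IsUnit (Aᵀ * A).det) (w : ι → ℝ) :
    Pr A *ᵥ w = w ↔ ∃ x, w = A *ᵥ x := by
  constructor
  · intro hw
    exact ⟨((Aᵀ * A)⁻¹ * Aᵀ) *ᵥ w, by rw [mulVec_mulVec, ← Matrix.mul_assoc]; exact hw.symm⟩
  · rintro ⟨x, rfl⟩; exact Pr_fix h x

lemma Pr_zero_iff [DecidableEq κ] {A : Matrix ι κ ℝ} (h : IsUnit (Aᵀ * A).det) (w : ι → ℝ) :
    Pr A *ᵥ w = 0 ↔ Aᵀ *ᵥ w = 0 := by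
  constructor
  · intro hw
    have h1 := (isProj_Pr h).orth (Pr_fix h (Aᵀ *ᵥ w)) hw
    rw [mulVec_dot] at h1
    exact dotProduct_self_eq_zero.mp h1
  · intro hw
    rw [Pr, ← mulVec_mulVec, hw, mulVec_zero]

variable {P : Matrix ι ι ℝ} {μ : ℝ} {s : ι → ℝ}

lemma Central.dual [DecidableEq ι] (hμ : 0 < μ) (h : Central P μ s) :
    Central (1 - P) μ (fun k => μ / s k) := by
  refine ⟨fun k => div_pos hμ (h.1 k), ?_, ?_⟩
  · rw [sub_mulVec, one_mulVec, h.2.2, sub_zero]
  · have : (fun k => μ / (μ / s k) - 1) = fun k => s k - 1 := by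
      ext k; have := (h.1 k).ne'; field_simp
    rw [this, sub_mulVec, one_mulVec, h.2.1, sub_self]

lemma Central.orth (hP : IsProj P) (h : Central P μ s) :
    ∑ k, (s k - 1) * (μ / s k - 1) = 0 := hP.orth h.2.1 h.2.2

theorem central_unique (hP : IsProj P) (hμ : 0 < μ) {s s' : ι → ℝ} (h : Central P μ s)
    (h' : Central P μ s') : s = s' := by
  have h1 : P *ᵥ (fun k => s k - s' k) = fun k => s k - s' k := by
    have : (fun k => s k - s' k) = (fun k => s k - 1) - fun k => s' k - 1 := by ext; simp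
    rw [this, mulVec_sub, h.2.1, h'.2.1]
  have h2 : P *ᵥ (fun k => μ / s' k - μ / s k) = 0 := by
    have : (fun k => μ / s' k - μ / s k) = (fun k => μ / s' k - 1) - fun k => μ / s k - 1 := by
      ext; simp
    rw [this, mulVec_sub, h.2.2, h'.2.2, sub_self]
  have h3 := hP.orth h1 h2
  have h4 : ∀ k, (s k - s' k) * (μ / s' k - μ / s k) = μ * (s k - s' k) ^ 2 / (s k * s' k) := by
    intro k; have := (h.1 k).ne'; have := (h'.1 k).ne'; field_simp
  simp only [dotProduct, h4] at h3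
  rw [Finset.sum_eq_zero_iff_of_nonneg
    (fun k _ => by have := h.1 k; have := h'.1 k; positivity)] at h3
  ext k
  have := h3 k (Finset.mem_univ k)
  have h5 := h.1 k
  have h6 := h'.1 k
  rw [div_eq_zero_iff, mul_eq_zero] at this
  rcases this with (h7 | h7) | h7
  · exact absurd h7 hμ.ne'
  · exact sub_eq_zero.mp (pow_eq_zero_iff two_ne_zero |>.mp h7)
  · exact absurd h7 (by positivity)

lemma sum_of_orth (hs : ∀ k, 0 < s k) (h : ∑ k, (s k - 1) * (μ / s k - 1) = 0) :
    ∑ k, (s k + μ / s k) = Fintype.card ι * (μ + 1) := by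
  have : ∀ k, (s k - 1) * (μ / s k - 1) = (μ + 1) - (s k + μ / s k) := by
    intro k; have := (hs k).ne'; field_simp; ring
  simp only [this, Finset.sum_sub_distrib, Finset.sum_const, Finset.card_univ, nsmul_eq_mul] at h
  linarith

theorem central_box (hP : IsProj P) (hμ : 0 < μ) (h : Central P μ s) (k : ι) :
    s k ≤ Fintype.card ι * (μ + 1) ∧ μ / s k ≤ Fintype.card ι * (μ + 1) := by
  have h1 := sum_of_orth h.1 (h.orth hP)
  have h2 : s k + μ / s k ≤ ∑ k, (s k + μ / s k) :=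
    Finset.single_le_sum (f := fun k => s k + μ / s k)
      (fun j _ => by have := h.1 j; positivity) (Finset.mem_univ k)
  have := h.1 k
  have := div_pos hμ (h.1 k)
  constructor <;> linarith

/-- the basic quadratic estimate: `∑ (s-1)²/s ≤ (μ-1)² N` -/
lemma psi_of_orth (hμ : 1 ≤ μ) (hs : ∀ k, 0 < s k) (h : ∑ k, (s k - 1) * (μ / s k - 1) = 0) :
    ∑ k, (s k - 1) ^ 2 / s k ≤ (μ - 1) ^ 2 * Fintype.card ι := by
  have h1 : ∀ k, (s k - 1) ^ 2 / s k ≤
      (μ - 1) ^ 2 - 2 * ((s k - 1) * (μ / s k - 1)) := by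
    intro k
    have hk := hs k
    have e : (μ - 1) ^ 2 - 2 * ((s k - 1) * (μ / s k - 1)) - (s k - 1) ^ 2 / s k =
        ((μ - 1) ^ 2 * s k - 2 * (μ - 1) * (s k - 1) + (s k - 1) ^ 2) / s k := by
      field_simp; ring
    have : 0 ≤ ((μ - 1) ^ 2 * s k - 2 * (μ - 1) * (s k - 1) + (s k - 1) ^ 2) / s k := by
      apply div_nonneg _ hk.le
      by_cases h2 : 1 ≤ s k
      · nlinarith [sq_nonneg (μ - 1 - (s k - 1)), mul_nonneg (sq_nonneg (μ - 1)) (sub_nonneg.mpr h2)]
      · have := mul_nonneg (sub_nonneg.mpr hμ) (sub_nonneg.mpr (not_le.mp h2).le)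
        nlinarith [sq_nonneg (s k - 1), mul_nonneg (sq_nonneg (μ - 1)) hk.le]
    linarith
  refine le_trans (Finset.sum_le_sum fun k _ => h1 k) ?_
  rw [Finset.sum_sub_distrib, ← Finset.mul_sum, h]
  simp [mul_comm]

lemma l1_of_orth (hμ : 1 ≤ μ) (hs : ∀ k, 0 < s k) (h : ∑ k, (s k - 1) * (μ / s k - 1) = 0) :
    ∑ k, |s k - 1| ≤ 4 * (μ - 1) * Fintype.card ι := by
  by_cases h2 : 2 ≤ μ
  · have h1 := sum_of_orth hs h
    have : ∑ k, |s k - 1| ≤ ∑ k, (s k + μ / s k + 1) := by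
      refine Finset.sum_le_sum fun k _ => ?_
      have := hs k
      have := div_pos (by linarith : 0 < μ) (hs k)
      rw [abs_le]; constructor <;> linarith
    rw [Finset.sum_add_distrib, h1] at this
    simp only [Finset.sum_const, Finset.card_univ, nsmul_eq_mul, mul_one] at this
    have hc : (0 : ℝ) ≤ Fintype.card ι := Nat.cast_nonneg _
    nlinarith
  · have h1 := psi_of_orth hμ hs h
    rcases eq_or_lt_of_le hμ with h3 | h3
    · have h4 : ∀ k, s k = 1 := by
        intro k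
        have h5 : (s k - 1) ^ 2 / s k ≤ ∑ k, (s k - 1) ^ 2 / s k :=
          Finset.single_le_sum (f := fun k => (s k - 1) ^ 2 / s k)
            (fun j _ => by have := hs j; positivity) (Finset.mem_univ k)
        rw [← h3] at h1
        have h6 : (s k - 1) ^ 2 / s k ≤ 0 := by simpa using h5.trans h1
        rw [div_nonpos_iff] at h6
        have := hs k
        rcases h6 with h6 | h6
        · linarith [h6.2]
        · nlinarith [h6.1]
      simp [h4, ← h3]
    · have hd : 0 < μ - 1 := by linarith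
      have h4 : ∀ k, |s k - 1| ≤ (s k - 1) ^ 2 / s k * (1 + 1 / (μ - 1)) + (μ - 1) := by
        intro k
        have hk := hs k
        set a := |s k - 1| with ha
        have ha0 : 0 ≤ a := abs_nonneg _
        have hsq : (s k - 1) ^ 2 = a ^ 2 := (sq_abs _).symm
        have hsa : s k ≤ 1 + a := by have := le_abs_self (s k - 1); linarith
        have h5 : a ^ 2 / (1 + a) ≤ (s k - 1) ^ 2 / s k := by
          rw [hsq]; exact div_le_div_of_nonneg_left (sq_nonneg _) hk hsa
        have h6 : a ≤ a ^ 2 / (1 + a) * (1 + 1 / (μ - 1)) + (μ - 1) := by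
          have : a ^ 2 / (1 + a) * (1 + 1 / (μ - 1)) + (μ - 1) - a =
              (a ^ 2 - a * (μ - 1) + (μ - 1) ^ 2 * (1 + a)) / ((1 + a) * (μ - 1)) := by
            field_simp; ring
          have h7 : 0 ≤ (a ^ 2 - a * (μ - 1) + (μ - 1) ^ 2 * (1 + a)) / ((1 + a) * (μ - 1)) := by
            apply div_nonneg _ (by positivity)
            nlinarith [sq_nonneg (a - (μ - 1)), mul_nonneg (sq_nonneg (μ - 1)) ha0,
              mul_nonneg ha0 hd.le]
          linarith
        have h8 : 0 ≤ 1 + 1 / (μ - 1) := by positivity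
        nlinarith [mul_le_mul_of_nonneg_right h5 h8]
      refine le_trans (Finset.sum_le_sum fun k _ => h4 k) ?_
      rw [Finset.sum_add_distrib, ← Finset.sum_mul]
      simp only [Finset.sum_const, Finset.card_univ, nsmul_eq_mul]
      have hc : (0 : ℝ) ≤ Fintype.card ι := Nat.cast_nonneg _
      have h8 : 0 ≤ 1 + 1 / (μ - 1) := by positivity
      have h9 := mul_le_mul_of_nonneg_right h1 h8
      have e : (μ - 1) ^ 2 * Fintype.card ι * (1 + 1 / (μ - 1)) =
          (μ - 1) * Fintype.card ι * μ := by field_simp; ring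
      have h10 : 0 ≤ (μ - 1) * Fintype.card ι := by positivity
      nlinarith

theorem central_l1 (hP : IsProj P) (hμ : 1 ≤ μ) (h : Central P μ s) :
    ∑ k, |s k - 1| ≤ 4 * (μ - 1) * Fintype.card ι := l1_of_orth hμ h.1 (h.orth hP)

theorem exists_central (hP : IsProj P) (hμ : 0 < μ) : ∃ s, Central P μ s := by
  classical
  let F : (ι → ℝ) → ℝ := fun s => ∑ k, (s k - μ * Real.log (s k))
  set c := μ - μ * Real.log μ with hc
  have hmin : ∀ u : ℝ, 0 < u → c ≤ u - μ * Real.log u := by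
    intro u hu
    have h1 := Real.log_le_sub_one_of_pos (div_pos hu hμ)
    rw [Real.log_div hu.ne' hμ.ne'] at h1
    have h2 := mul_le_mul_of_nonneg_left h1 hμ.le
    have : μ * (u / μ - 1) = u - μ := by field_simp
    rw [hc]; nlinarith
  set B := F 1 - (Fintype.card ι - 1) * c with hB
  set a := Real.exp (-B / μ) with ha
  set b := 2 * (B + μ * Real.log (2 * μ)) with hb
  have hbox : ∀ s : ι → ℝ, (∀ k, 0 < s k) → F s ≤ F 1 → s ∈ Set.Icc (fun _ => a) (fun _ => b) := by
    intro s hs hF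
    have h1 : ∀ k, s k - μ * Real.log (s k) ≤ B := by
      intro k
      have h2 : F s = (s k - μ * Real.log (s k)) +
          ∑ j ∈ Finset.univ.erase k, (s j - μ * Real.log (s j)) :=
        (Finset.add_sum_erase _ (fun j => s j - μ * Real.log (s j)) (Finset.mem_univ k)).symm
      have h3 : ∑ j ∈ Finset.univ.erase k, c ≤
          ∑ j ∈ Finset.univ.erase k, (s j - μ * Real.log (s j)) :=
        Finset.sum_le_sum fun j _ => hmin _ (hs j)
      have hpos : 1 ≤ Fintype.card ι := Fintype.card_pos_iff.mpr ⟨k⟩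
      rw [Finset.sum_const, Finset.card_erase_of_mem (Finset.mem_univ k), Finset.card_univ,
        nsmul_eq_mul, Nat.cast_sub hpos] at h3
      simp only [Nat.cast_one] at h3
      linarith
    constructor
    · intro k
      have h2 : -B / μ ≤ Real.log (s k) := by
        rw [div_le_iff₀ hμ]; have := h1 k; have := hs k; linarith
      exact (Real.le_log_iff_exp_le (hs k)).mp h2
    · intro k
      have h2 := Real.log_le_sub_one_of_pos (div_pos (hs k) (by positivity : 0 < 2 * μ))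
      rw [Real.log_div (hs k).ne' (by positivity)] at h2
      have h3 := mul_le_mul_of_nonneg_left h2 hμ.le
      have : μ * (s k / (2 * μ) - 1) = s k / 2 - μ := by field_simp
      have := h1 k
      show s k ≤ b
      rw [hb]; nlinarith
  let K : Set (ι → ℝ) := Set.Icc (fun _ => a) (fun _ => b) ∩
    {s | P *ᵥ (fun k => s k - 1) = fun k => s k - 1}
  have hK : IsCompact K := by
    refine isCompact_Icc.inter_right (isClosed_eq ?_ (by fun_prop))
    exact Continuous.matrix_mulVec continuous_const (by fun_prop)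
  have hapos : 0 < a := Real.exp_pos _
  have h1K : (1 : ι → ℝ) ∈ K := by
    refine ⟨hbox 1 (fun _ => one_pos) le_rfl, ?_⟩
    have : (fun k : ι => (1 : ι → ℝ) k - 1) = 0 := by ext; simp
    simp only [Set.mem_ofPred_eq, this, mulVec_zero]
  have hcont : ContinuousOn F K := by
    refine continuousOn_finsetSum _ fun k _ => ?_
    refine ((continuous_apply k).continuousOn).sub (continuousOn_const.mul ?_)
    exact ((continuous_apply k).continuousOn).log fun s hs => (lt_of_lt_of_le hapos (hs.1.1 k)).ne'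
  obtain ⟨s, hsK, hsmin⟩ := hK.exists_isMinOn ⟨1, h1K⟩ hcont
  have hs : ∀ k, 0 < s k := fun k => lt_of_lt_of_le hapos (hsK.1.1 k)
  refine ⟨s, hs, hsK.2, hP.eq_zero_of_orth fun w hw => ?_⟩
  have hloc : IsLocalMin (fun r : ℝ => F (s + r • w)) 0 := by
    have hev : ∀ᶠ r : ℝ in nhds 0, ∀ k, 0 < (s + r • w) k := by
      rw [Filter.eventually_all]
      intro k
      have : ContinuousAt (fun r : ℝ => (s + r • w) k) 0 := by fun_prop
      exact this.eventually (lt_mem_nhds (by simpa using hs k))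
    filter_upwards [hev] with r hr
    simp only [zero_smul, add_zero]
    by_cases hF : F (s + r • w) ≤ F 1
    · refine hsmin ⟨hbox _ hr hF, ?_⟩
      have : (fun k => (s + r • w) k - 1) = (fun k => s k - 1) + r • w := by ext; simp; ring
      simp only [Set.mem_ofPred_eq, this, mulVec_add, mulVec_smul, hw]
      rw [hsK.2]
    · exact le_trans (hsmin h1K) (not_le.mp hF).le
  have hder : HasDerivAt (fun r : ℝ => F (s + r • w)) (∑ k, (w k - μ * (w k / s k))) 0 := by
    refine HasDerivAt.fun_sum fun k _ => ?_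
    have h1 : HasDerivAt (fun r : ℝ => (s + r • w) k) (w k) 0 := by
      simpa using ((hasDerivAt_id (0 : ℝ)).mul_const (w k)).const_add (s k)
    have h2 := (h1.log (by simpa using (hs k).ne')).const_mul μ
    simpa using h1.fun_sub h2
  have h0 := hloc.hasDerivAt_eq_zero hder
  rw [← neg_eq_zero, ← h0, dotProduct, ← Finset.sum_neg_distrib]
  exact Finset.sum_congr rfl fun k _ => by ring

end Pool.Agent.P.MP_ef347d_lc
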