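import Pool.Agent.P.MP_ef347d_lc.Basic3
import Pool.Agent.P.MP_ef347d_lc.Path

/-! The estimate on the discrete cube. -/

namespace Pool.Agent.P.MP_ef347d_lc

open Matrix

namespace CubeAux

variable {M : ℕ}

theorem sgn_sq (ε : Fin M → Bool) (k : Fin M) : sgn ε k * sgn ε k = 1 := by
  unfold sgn
  split_ifs <;> norm_num

theorem sgn_abs (ε : Fin M → Bool) (k : Fin M) : |sgn ε k| = 1 := by
  unfold sgn
  split_ifs <;> norm_num

theorem flip_apply (ε : Fin M → Bool) (P : Matrix (Fin M) (Fin M) ℝ) (k l : Fin M) :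
    flipP ε P k l = sgn ε k * P k l * sgn ε l := by
  simp [flipP]

theorem flip_diag (ε : Fin M → Bool) (P : Matrix (Fin M) (Fin M) ℝ) (k : Fin M) :
    flipP ε P k k = P k k := by
  rw [flip_apply]
  linear_combination P k k * sgn_sq ε k

theorem flip_mulVec (ε : Fin M → Bool) (P : Matrix (Fin M) (Fin M) ℝ) (v : Fin M → ℝ) (k : Fin M) :
    (flipP ε P *ᵥ v) k = sgn ε k * (P *ᵥ fun l => sgn ε l * v l) k := by
  simp only [mulVec, dotProduct, flip_apply, Finset.mul_sum]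
  exact Finset.sum_congr rfl fun l _ => by ring

theorem flip_dot (ε : Fin M → Bool) (x y : Fin M → ℝ) :
    (fun k => sgn ε k * x k) ⬝ᵥ (fun k => sgn ε k * y k) = x ⬝ᵥ y :=
  Finset.sum_congr rfl fun k _ => by linear_combination x k * y k * sgn_sq ε k

theorem flip_norm (ε : Fin M → Bool) (P : Matrix (Fin M) (Fin M) ℝ) (v : Fin M → ℝ) :
    (flipP ε P *ᵥ v) ⬝ᵥ (flipP ε P *ᵥ v) =
      (P *ᵥ fun l => sgn ε l * v l) ⬝ᵥ (P *ᵥ fun l => sgn ε l * v l) := by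
  rw [← flip_dot ε (P *ᵥ _), ← funext (flip_mulVec ε P v)]

theorem flip_compl (ε : Fin M → Bool) (P : Matrix (Fin M) (Fin M) ℝ) :
    flipP ε (1 - P) = 1 - flipP ε P := by
  ext k l
  simp only [flip_apply, Matrix.sub_apply, Matrix.one_apply]
  split_ifs with h
  · subst h
    linear_combination sgn_sq ε k
  · ring

theorem flip_proj (ε : Fin M → Bool) {P : Matrix (Fin M) (Fin M) ℝ} (hP : IsProj P) :
    IsProj (flipP ε P) := by
  have h : diagonal (sgn ε) * diagonal (sgn ε) = (1 : Matrix (Fin M) (Fin M) ℝ) := by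
    rw [diagonal_mul_diagonal]
    simp only [sgn_sq, diagonal_one]
  refine ⟨by simp only [flipP, transpose_mul, diagonal_transpose, hP.1, Matrix.mul_assoc], ?_⟩
  simp only [flipP, Matrix.mul_assoc]
  rw [← Matrix.mul_assoc (diagonal (sgn ε)) (diagonal (sgn ε)), h, Matrix.one_mul,
    ← Matrix.mul_assoc P P, hP.2]

theorem sgn_not (ε : Fin M → Bool) (k : Fin M) : sgn (fun k => !ε k) k = -sgn ε k := by
  by_cases h : ε k = true <;> simp [sgn, h]

theorem flip_not (ε : Fin M → Bool) (P : Matrix (Fin M) (Fin M) ℝ) :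
    flipP (fun k => !ε k) P = flipP ε P := by
  ext k l
  simp only [flip_apply, sgn_not]
  ring

theorem sum_one : ∑ _ε : Fin M → Bool, (1 : ℝ) = 2 ^ M := by simp

theorem hoeff (c : Fin M → ℝ) :
    ∑ ε : Fin M → Bool, Real.exp (∑ k, c k * sgn ε k) ≤ 2 ^ M * Real.exp ((∑ k, c k ^ 2) / 2) := by
  have h := Finset.prod_univ_sum (fun _ : Fin M => (Finset.univ : Finset Bool))
    fun k b => Real.exp (c k * if b then 1 else -1)
  rw [Fintype.piFinset_univ] at h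
  simp only [Real.exp_sum, sgn]
  rw [← h, Finset.sum_div, Real.exp_sum]
  calc _ ≤ ∏ k, 2 * Real.exp (c k ^ 2 / 2) := by
        refine Finset.prod_le_prod (fun k _ => by positivity) fun k _ => ?_
        have := Real.cosh_le_exp_half_sq (c k)
        rw [Real.cosh_eq] at this
        simp only [Fintype.sum_bool, if_true, Bool.false_eq_true, if_false, mul_one, mul_neg]
        linarith
    _ = _ := by rw [Finset.prod_mul_distrib]; simp

open Classical in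
theorem tail (c : Fin M → ℝ) {r τ : ℝ} (hr : 0 < r) (hτ : 0 ≤ τ) (hc : ∑ k, c k ^ 2 ≤ r ^ 2) :
    ∑ ε : Fin M → Bool, (if τ * r < |∑ k, c k * sgn ε k| then (1 : ℝ) else 0) ≤
      2 * Real.exp (-τ ^ 2 / 2) * 2 ^ M := by
  have key : ∀ z : ℝ, z ^ 2 = (τ / r) ^ 2 → ∑ ε : Fin M → Bool,
      Real.exp (z * ∑ k, c k * sgn ε k - τ ^ 2) ≤ Real.exp (-τ ^ 2 / 2) * 2 ^ M := by
    intro z hz
    have h := hoeff fun k => z * c k
    simp only [mul_assoc, ← Finset.mul_sum, mul_pow, hz] at h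
    simp only [Real.exp_sub, ← Finset.sum_div]
    rw [div_le_iff₀ (Real.exp_pos _)]
    refine h.trans ?_
    rw [mul_comm, mul_right_comm, ← Real.exp_add]
    gcongr
    have : (τ / r) ^ 2 * ∑ k, c k ^ 2 ≤ (τ / r) ^ 2 * r ^ 2 := by gcongr
    have e : (τ / r) ^ 2 * r ^ 2 = τ ^ 2 := by field_simp
    linarith
  have h1 := key (τ / r) rfl
  have h2 := key (-(τ / r)) (neg_sq _)
  refine (Finset.sum_le_sum (g := fun ε => Real.exp (τ / r * ∑ k, c k * sgn ε k - τ ^ 2) +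
    Real.exp (-(τ / r) * ∑ k, c k * sgn ε k - τ ^ 2)) fun ε _ => ?_).trans
    (by rw [Finset.sum_add_distrib]; linarith)
  generalize ∑ k, c k * sgn ε k = y
  have p1 := Real.exp_pos (τ / r * y - τ ^ 2)
  have p2 := Real.exp_pos (-(τ / r) * y - τ ^ 2)
  have hz : 0 ≤ τ / r := by positivity
  have e : τ / r * (τ * r) = τ ^ 2 := by field_simp
  split_ifs with h
  · rcases lt_abs.1 h with h | h
    · have := mul_le_mul_of_nonneg_left h.le hz
      have := Real.one_le_exp (x := τ / r * y - τ ^ 2) (by linarith)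
      linarith
    · have := mul_le_mul_of_nonneg_left h.le hz
      have := Real.one_le_exp (x := -(τ / r) * y - τ ^ 2) (by linarith)
      linarith
  · linarith

open Classical in
theorem tailP {P : Matrix (Fin M) (Fin M) ℝ} (hP : IsProj P) {h : Fin M → ℝ} {B τ : ℝ} (hB : 0 < B)
    (hτ : 0 ≤ τ) (hh : ∀ k, |h k| ≤ B) :
    ∑ ε : Fin M → Bool, (if ∃ k, τ * B < |(flipP ε P *ᵥ h) k| then (1 : ℝ) else 0) ≤
      M * (2 * Real.exp (-τ ^ 2 / 2)) * 2 ^ M := by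
  have key : ∀ k, ∑ ε : Fin M → Bool, (if τ * B < |(flipP ε P *ᵥ h) k| then (1 : ℝ) else 0) ≤
      2 * Real.exp (-τ ^ 2 / 2) * 2 ^ M := by
    intro k
    refine le_of_eq_of_le ?_ (tail (fun l => P k l * h l) hB hτ ?_)
    · refine Finset.sum_congr rfl fun ε _ => ?_
      have : |(flipP ε P *ᵥ h) k| = |∑ l, P k l * h l * sgn ε l| := by
        rw [flip_mulVec, abs_mul, sgn_abs, one_mul]
        congr 1
        simp only [mulVec, dotProduct]
        exact Finset.sum_congr rfl fun l _ => by ring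
      rw [this]
    · calc ∑ l, (P k l * h l) ^ 2 ≤ ∑ l, P k l ^ 2 * B ^ 2 := by
            refine Finset.sum_le_sum fun l _ => ?_
            rw [mul_pow]
            exact mul_le_mul_of_nonneg_left (sq_le_sq' (abs_le.1 (hh l)).1 (abs_le.1 (hh l)).2)
              (sq_nonneg _)
        _ ≤ B ^ 2 := by
            rw [← Finset.sum_mul, hP.diag_eq]
            exact mul_le_of_le_one_left (sq_nonneg _) (hP.diag_le_one k)
  calc _ ≤ ∑ ε : Fin M → Bool, ∑ k, (if τ * B < |(flipP ε P *ᵥ h) k| then (1 : ℝ) else 0) := by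
        refine Finset.sum_le_sum fun ε _ => ?_
        split_ifs with hk
        · obtain ⟨k, hk⟩ := hk
          refine le_trans (le_of_eq (if_pos hk).symm) (Finset.single_le_sum
            (f := fun k => if τ * B < |(flipP ε P *ᵥ h) k| then (1 : ℝ) else 0)
            (fun j _ => by positivity) (Finset.mem_univ k))
        · positivity
    _ ≤ ∑ _k : Fin M, 2 * Real.exp (-τ ^ 2 / 2) * 2 ^ M := by
        rw [Finset.sum_comm]
        exact Finset.sum_le_sum fun k _ => key k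
    _ = _ := by simp [mul_assoc]

theorem sum_sgn_mul (k l : Fin M) :
    ∑ ε : Fin M → Bool, sgn ε k * sgn ε l = if k = l then 2 ^ M else 0 := by
  split_ifs with h
  · subst h
    simp only [sgn_sq, sum_one]
  · have hinv : Function.Involutive fun ε : Fin M → Bool => Function.update ε k (!ε k) := by
      intro ε
      simp
    have h1 := Equiv.sum_comp hinv.toPerm fun ε => sgn ε k * sgn ε l
    have h2 : ∀ ε : Fin M → Bool, sgn (hinv.toPerm _ ε) k * sgn (hinv.toPerm _ ε) l =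
        -(sgn ε k * sgn ε l) := by
      intro ε
      simp only [Function.Involutive.coe_toPerm, sgn, Function.update_self,
        Function.update_of_ne (Ne.symm h)]
      cases ε k <;> cases ε l <;> simp
    simp only [h2, Finset.sum_neg_distrib] at h1
    linarith

theorem mean_X {P : Matrix (Fin M) (Fin M) ℝ} (hP : IsProj P) (h : Fin M → ℝ) :
    ∑ ε : Fin M → Bool, (P *ᵥ fun l => sgn ε l * h l) ⬝ᵥ (P *ᵥ fun l => sgn ε l * h l) =
      2 ^ M * ∑ k, P k k * h k ^ 2 := by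
  simp only [hP.dot_proj]
  simp only [dotProduct, mulVec, Finset.mul_sum]
  rw [Finset.sum_comm]
  refine Finset.sum_congr rfl fun k _ => ?_
  rw [Finset.sum_comm]
  have : ∀ l, ∑ ε : Fin M → Bool, sgn ε k * h k * (P k l * (sgn ε l * h l)) =
      if k = l then 2 ^ M * (P k l * h k * h l) else 0 := by
    intro l
    have e : ∀ ε : Fin M → Bool, sgn ε k * h k * (P k l * (sgn ε l * h l)) =
        sgn ε k * sgn ε l * (P k l * h k * h l) := fun ε => by ring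
    simp only [e, ← Finset.sum_mul, sum_sgn_mul]
    split_ifs <;> simp
  simp only [this, Finset.sum_ite_eq, Finset.mem_univ, if_true]
  ring

theorem dot_le {h : Fin M → ℝ} {B : ℝ} (hh : ∀ k, |h k| ≤ B) : h ⬝ᵥ h ≤ M * B ^ 2 := by
  calc h ⬝ᵥ h ≤ ∑ _k : Fin M, B ^ 2 := Finset.sum_le_sum fun k _ => by
        rw [← sq]
        exact sq_le_sq' (abs_le.1 (hh k)).1 (abs_le.1 (hh k)).2
    _ = _ := by simp

theorem sym_bound {P : Matrix (Fin M) (Fin M) ℝ} (hP : IsProj P) {h : Fin M → ℝ} {B : ℝ}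
    (hh : ∀ k, |h k| ≤ B) (θ : ℝ) (X : (Fin M → Bool) → ℝ)
    (hX : ∀ ε, X ε = (P *ᵥ fun l => sgn ε l * h l) ⬝ᵥ (P *ᵥ fun l => sgn ε l * h l)) :
    ∑ p : (Fin M → Bool) × (Fin M → Bool), Real.exp (θ * (X p.1 - X p.2)) ≤
      2 ^ M * 2 ^ M * Real.exp (8 * θ ^ 2 * B ^ 4 * M) := by
  let mix : (Fin M → Bool) → (Fin M → Bool) × (Fin M → Bool) → (Fin M → Bool) × (Fin M → Bool) :=
    fun ξ p => (fun k => if ξ k then p.1 k else p.2 k, fun k => if ξ k then p.2 k else p.1 k)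
  have hinv : ∀ ξ, Function.Involutive (mix ξ) := by
    intro ξ p
    ext k <;> simp only [mix] <;> cases ξ k <;> simp
  have h1 : ∀ ξ, ∑ p : (Fin M → Bool) × (Fin M → Bool), Real.exp (θ * (X p.1 - X p.2)) =
      ∑ p, Real.exp (θ * (X (mix ξ p).1 - X (mix ξ p).2)) := fun ξ =>
    (Equiv.sum_comp (hinv ξ).toPerm fun p => Real.exp (θ * (X p.1 - X p.2))).symm
  have h2 : ∀ p, ∑ ξ, Real.exp (θ * (X (mix ξ p).1 - X (mix ξ p).2)) ≤
      2 ^ M * Real.exp (8 * θ ^ 2 * B ^ 4 * M) := by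
    intro p
    set w := P *ᵥ fun l => (sgn p.1 l + sgn p.2 l) * h l with hw
    have hb : ∀ l, |sgn p.1 l + sgn p.2 l| ≤ 2 ∧ |sgn p.1 l - sgn p.2 l| ≤ 2 := fun l => by
      unfold sgn
      constructor <;> split_ifs <;> norm_num
    have hww : w ⬝ᵥ w ≤ M * (2 * B) ^ 2 := (hP.norm_le _).trans (dot_le fun l => by
      rw [abs_mul]
      exact mul_le_mul (hb l).1 (hh l) (abs_nonneg _) (by norm_num))
    refine le_of_eq_of_le ?_
      ((hoeff fun k => θ * ((sgn p.1 k - sgn p.2 k) * h k) * w k).trans ?_)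
    · refine Finset.sum_congr rfl fun ξ _ => ?_
      congr 1
      have e1 : (fun l => (sgn p.1 l + sgn p.2 l) * h l) =
          (fun l => sgn (mix ξ p).1 l * h l) + fun l => sgn (mix ξ p).2 l * h l := by
        ext l
        by_cases hξ : ξ l = true
        · simp only [mix, sgn, Pi.add_apply, hξ, if_true]
          ring
        · simp only [mix, sgn, Pi.add_apply, hξ, Bool.false_eq_true, if_false]
          ring
      have e2 : ∀ l, (sgn p.1 l - sgn p.2 l) * h l * sgn ξ l =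
          sgn (mix ξ p).1 l * h l - sgn (mix ξ p).2 l * h l := by
        intro l
        by_cases hξ : ξ l = true
        · simp only [mix, sgn, hξ, if_true]
          ring
        · simp only [mix, sgn, hξ, Bool.false_eq_true, if_false]
          ring
      have e3 : ∑ k, θ * ((sgn p.1 k - sgn p.2 k) * h k) * w k * sgn ξ k =
          θ * (((fun l => sgn (mix ξ p).1 l * h l) - fun l => sgn (mix ξ p).2 l * h l) ⬝ᵥ w) := by
        simp only [dotProduct, Finset.mul_sum, Pi.sub_apply, ← e2]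
        exact Finset.sum_congr rfl fun k _ => by ring
      rw [e3, hX, hX, hP.dot_proj, hP.dot_proj, hw, e1, mulVec_add, sub_dotProduct, dotProduct_add,
        dotProduct_add, ← hP.adj (fun l => sgn (mix ξ p).1 l * h l)
          (fun l => sgn (mix ξ p).2 l * h l), dotProduct_comm (P *ᵥ _)]
      ring
    · gcongr
      have : ∑ k, (θ * ((sgn p.1 k - sgn p.2 k) * h k) * w k) ^ 2 ≤
          ∑ k, θ ^ 2 * (2 * B) ^ 2 * (w k * w k) := by
        refine Finset.sum_le_sum fun k _ => ?_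
        have a1 : |(sgn p.1 k - sgn p.2 k) * h k| ≤ 2 * B := by
          rw [abs_mul]
          exact mul_le_mul (hb k).2 (hh k) (abs_nonneg _) (by norm_num)
        have a2 := sq_le_sq' (abs_le.1 a1).1 (abs_le.1 a1).2
        rw [mul_pow, mul_pow, ← sq]
        gcongr
      rw [← Finset.mul_sum] at this
      have a3 : θ ^ 2 * (2 * B) ^ 2 * ∑ k, w k * w k ≤ θ ^ 2 * (2 * B) ^ 2 * (M * (2 * B) ^ 2) :=
        mul_le_mul_of_nonneg_left hww (by positivity)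
      nlinarith
  have h3 : (2 : ℝ) ^ M * ∑ p : (Fin M → Bool) × (Fin M → Bool), Real.exp (θ * (X p.1 - X p.2)) ≤
      2 ^ M * (2 ^ M * 2 ^ M * Real.exp (8 * θ ^ 2 * B ^ 4 * M)) := by
    calc _ = ∑ ξ, ∑ p, Real.exp (θ * (X (mix ξ p).1 - X (mix ξ p).2)) := by
          simp only [← h1]
          simp
      _ ≤ ∑ _p : (Fin M → Bool) × (Fin M → Bool), 2 ^ M * Real.exp (8 * θ ^ 2 * B ^ 4 * M) := by
          rw [Finset.sum_comm]
          exact Finset.sum_le_sum fun p _ => h2 p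
      _ = _ := by simp; ring
  exact le_of_mul_le_mul_left h3 (by positivity)

open Classical in
theorem low {P : Matrix (Fin M) (Fin M) ℝ} (hP : IsProj P) {h : Fin M → ℝ} {B m : ℝ} (hB : 0 < B)
    (hM : 0 < M) (hh : ∀ k, |h k| ≤ B) (hm : 0 ≤ m) (hm' : m ≤ ∑ k, P k k * h k ^ 2) :
    ∑ ε : Fin M → Bool, (if (flipP ε P *ᵥ h) ⬝ᵥ (flipP ε P *ᵥ h) < m / 2 then (1 : ℝ) else 0) ≤
      Real.exp (-(m ^ 2 / (128 * B ^ 4 * M))) * 2 ^ M := by
  simp only [flip_norm]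
  set θ := m / (32 * B ^ 4 * M) with hθ
  have hθ0 : 0 ≤ θ := by positivity
  obtain ⟨X, hX⟩ : ∃ X : (Fin M → Bool) → ℝ,
    ∀ ε, X ε = (P *ᵥ fun l => sgn ε l * h l) ⬝ᵥ (P *ᵥ fun l => sgn ε l * h l) := ⟨_, fun _ => rfl⟩
  have h1 := sym_bound hP hh θ X hX
  have h2 := mean_X hP h
  simp only [← hX] at h2 ⊢
  generalize ∑ k, P k k * h k ^ 2 = m₁ at hm' h2
  have h3 : ∀ ε, (if X ε < m / 2 then (1 : ℝ) else 0) * (2 ^ M * Real.exp (θ * m / 2)) ≤
      ∑ ε', Real.exp (θ * (X ε' - X ε)) := by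
    intro ε
    split_ifs with hε
    · calc _ ≤ ∑ ε', Real.exp (θ * (m₁ - X ε)) * (θ * (X ε' - m₁) + 1) := by
            rw [← Finset.mul_sum, Finset.sum_add_distrib, ← Finset.mul_sum, Finset.sum_sub_distrib,
              h2, sum_one]
            simp only [Finset.sum_const, Finset.card_univ, Fintype.card_fun, Fintype.card_bool,
              Fintype.card_fin, nsmul_eq_mul, Nat.cast_pow, Nat.cast_ofNat, sub_self, mul_zero,
              zero_add, one_mul]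
            rw [mul_comm]
            gcongr
            nlinarith
        _ ≤ _ := by
            refine Finset.sum_le_sum fun ε' _ => ?_
            have e : θ * (X ε' - X ε) = θ * (m₁ - X ε) + θ * (X ε' - m₁) := by ring
            rw [e, Real.exp_add]
            exact mul_le_mul_of_nonneg_left (Real.add_one_le_exp _) (Real.exp_pos _).le
    · rw [zero_mul]
      positivity
  have h4 := Finset.sum_le_sum fun ε (_ : ε ∈ Finset.univ) => h3 ε
  rw [← Finset.sum_mul, Finset.sum_comm, ← Fintype.sum_prod_type'] at h4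
  refine le_of_mul_le_mul_right (h4.trans (h1.trans_eq ?_)) (by positivity)
  have e : 8 * θ ^ 2 * B ^ 4 * M = -(m ^ 2 / (128 * B ^ 4 * M)) + θ * m / 2 := by
    rw [hθ]
    field_simp
    ring
  rw [e, Real.exp_add]
  ring

theorem Qup_mulVec (R : Matrix (Fin M) (Fin M) ℝ) (b a v : Fin M → ℝ) :
    Qup R b a *ᵥ v = R *ᵥ v - ((b ⬝ᵥ b)⁻¹ * (b ⬝ᵥ v)) • b +
      ((aperp R b a ⬝ᵥ aperp R b a)⁻¹ * (aperp R b a ⬝ᵥ v)) • aperp R b a := by
  ext k
  simp only [Qup, add_mulVec, sub_mulVec, smul_mulVec, vecMulVec_mulVec, Pi.add_apply,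
    Pi.sub_apply, Pi.smul_apply, smul_eq_mul, MulOpposite.smul_eq_mul_unop, MulOpposite.unop_op]
  ring

theorem unit_sum (b h : Fin M → ℝ) {B : ℝ} (hh : ∀ k, |h k| ≤ B) :
    ∑ k, (b ⬝ᵥ b)⁻¹ * (b k * b k) * h k ^ 2 ≤ B ^ 2 := by
  have h0 := dot_self_nonneg b
  calc _ ≤ ∑ k, (b ⬝ᵥ b)⁻¹ * (b k * b k) * B ^ 2 := Finset.sum_le_sum fun k _ =>
        mul_le_mul_of_nonneg_left (sq_le_sq' (abs_le.1 (hh k)).1 (abs_le.1 (hh k)).2)
          (mul_nonneg (inv_nonneg.2 h0) (mul_self_nonneg _))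
    _ ≤ B ^ 2 := by
        rw [← Finset.sum_mul, ← Finset.mul_sum]
        exact mul_le_of_le_one_left (sq_nonneg _) inv_mul_le_one

theorem aperp_sq {R : Matrix (Fin M) (Fin M) ℝ} (hR : IsProj R) {b : Fin M → ℝ} (hb : R *ᵥ b = b)
    (a : Fin M → ℝ) : aperp R b a ⬝ᵥ aperp R b a =
      ((1 - R) *ᵥ a) ⬝ᵥ ((1 - R) *ᵥ a) + ((b ⬝ᵥ a) / (b ⬝ᵥ b)) ^ 2 * (b ⬝ᵥ b) := by
  have h0 : b ⬝ᵥ (a - R *ᵥ a) = 0 := hR.orth hb (by rw [mulVec_sub, hR.idem, sub_self])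
  rw [sub_mulVec, one_mulVec, aperp, add_dotProduct, dotProduct_add, dotProduct_add,
    dotProduct_smul, smul_dotProduct, smul_dotProduct, dotProduct_smul, h0, dotProduct_comm (_ - _) b, h0]
  simp only [smul_eq_mul]
  ring

theorem aperp_le {R : Matrix (Fin M) (Fin M) ℝ} (hR : IsProj R) {b : Fin M → ℝ} (hb : R *ᵥ b = b)
    (a : Fin M → ℝ) : aperp R b a ⬝ᵥ aperp R b a ≤ a ⬝ᵥ a := by
  rw [aperp_sq hR hb, hR.compl.dot_proj, sub_mulVec, one_mulVec, dotProduct_sub, ← hR.dot_proj]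
  have h1 := dot_sq_le b (R *ᵥ a)
  rw [← hR.adj, hb] at h1
  rcases (dot_self_nonneg b).eq_or_lt with h | h
  · rw [← h, mul_zero]
    linarith [dot_self_nonneg (R *ᵥ a)]
  · have : (b ⬝ᵥ a / b ⬝ᵥ b) ^ 2 * b ⬝ᵥ b = (b ⬝ᵥ a) ^ 2 / b ⬝ᵥ b := by field_simp
    rw [this]
    have := (div_le_iff₀' h).2 h1
    linarith

theorem coord_le {b : Fin M → ℝ} {τ : ℝ} (hτ : 5 ≤ τ) (k : Fin M)
    (h : M * b k ^ 2 ≤ 72 * τ ^ 7 * (b ⬝ᵥ b)) :
    |(b ⬝ᵥ b)⁻¹ * (b ⬝ᵥ fun _ => 1) * b k| ≤ τ ^ 5 := by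
  refine abs_le_of_sq_le_sq' ?_ (by positivity) |> abs_le.2
  have h1 := dot_sq_le b fun _ => 1
  have h2 : (fun _ : Fin M => (1 : ℝ)) ⬝ᵥ (fun _ => 1) = (M : ℝ) := by simp [dotProduct]
  rw [h2] at h1
  rcases (dot_self_nonneg b).eq_or_lt with h0 | h0
  · rw [← h0]
    simp only [_root_.inv_zero, zero_mul]
    exact pow_le_pow_left₀ le_rfl (by positivity) 2
  · have h3 : ((b ⬝ᵥ b)⁻¹ * (b ⬝ᵥ fun _ => 1) * b k) ^ 2 =
        (b ⬝ᵥ fun _ => 1) ^ 2 * b k ^ 2 / (b ⬝ᵥ b) ^ 2 := by field_simp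
    rw [h3, div_le_iff₀ (by positivity)]
    have h4 : 72 * τ ^ 7 ≤ (τ ^ 5) ^ 2 := by
      have : (72 : ℝ) ≤ τ ^ 3 := le_trans (by norm_num) (pow_le_pow_left₀ (by norm_num) hτ 3)
      calc 72 * τ ^ 7 ≤ τ ^ 3 * τ ^ 7 := by gcongr
        _ = _ := by ring
    calc _ ≤ (b ⬝ᵥ b) * M * b k ^ 2 := by gcongr
      _ = (b ⬝ᵥ b) * (M * b k ^ 2) := by ring
      _ ≤ (b ⬝ᵥ b) * ((τ ^ 5) ^ 2 * (b ⬝ᵥ b)) := by
          refine mul_le_mul_of_nonneg_left (h.trans ?_) h0.le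
          gcongr
      _ = _ := by ring

/-- the deterministic part -/
theorem slow {R : Matrix (Fin M) (Fin M) ℝ} (hR : IsProj R) {b β α : Fin M → ℝ} {c τ δ : ℝ}
    (hb : R *ᵥ b = b) (hτ : 5 ≤ τ) (hδ : 0 < δ) (hM : 8 * τ ^ 3 ≤ M) (hb0 : b ⬝ᵥ b ≠ 0)
    (h1 : ∀ k, |(R *ᵥ fun _ => 1) k| ≤ τ * 1) (h2 : ∀ k, |(R *ᵥ β) k| ≤ τ * (τ * δ))
    (h3 : ∀ k, |((1 - R) *ᵥ α) k| ≤ τ * (τ * δ))
    (h4 : M * δ ^ 2 / (2 * τ ^ 3) / 2 ≤ (R *ᵥ β) ⬝ᵥ (R *ᵥ β))
    (h5 : M * δ ^ 2 / (2 * τ ^ 3) / 2 ≤ ((1 - R) *ᵥ α) ⬝ᵥ ((1 - R) *ᵥ α))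
    (hQ : (Qup R b (c • α) *ᵥ β) ⬝ᵥ (Qup R b (c • α) *ᵥ β) < δ ^ 2) (k : Fin M) :
    |(Qup R b (c • α) *ᵥ fun _ => 1) k| ≤ τ ^ 7 := by
  have hτ0 : 0 < τ := by linarith
  have hn : 0 < b ⬝ᵥ b := (dot_self_nonneg b).lt_of_ne' hb0
  have hM0 : (0 : ℝ) < M := lt_of_lt_of_le (by positivity) hM
  set l := (b ⬝ᵥ b)⁻¹ * (b ⬝ᵥ β) with hl
  have hu : R *ᵥ (R *ᵥ β - l • b) = R *ᵥ β - l • b := by rw [mulVec_sub, hR.idem, mulVec_smul, hb]
  have hbβ : b ⬝ᵥ (R *ᵥ β) = b ⬝ᵥ β := by rw [← hR.adj, hb]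
  have hlb : l * (b ⬝ᵥ b) = b ⬝ᵥ β := by rw [hl]; field_simp
  have hub : (R *ᵥ β - l • b) ⬝ᵥ b = 0 := by
    rw [sub_dotProduct, smul_dotProduct, dotProduct_comm, hbβ, smul_eq_mul, hlb, sub_self]
  have hua : (R *ᵥ β - l • b) ⬝ᵥ aperp R b (c • α) = 0 := by
    rw [aperp, dotProduct_add, dotProduct_smul, hub, smul_zero, add_zero]
    exact hR.orth hu (by rw [mulVec_sub, hR.idem, sub_self])
  have huu : (R *ᵥ β - l • b) ⬝ᵥ (R *ᵥ β - l • b) < δ ^ 2 := by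
    refine lt_of_le_of_lt ?_ hQ
    rw [Qup_mulVec, ← hl, add_dotProduct, dotProduct_add, dotProduct_add, dotProduct_smul,
      smul_dotProduct, hua, dotProduct_comm (aperp R b _) (_ - _), hua, smul_zero]
    linarith [dot_self_nonneg (((aperp R b (c • α) ⬝ᵥ aperp R b (c • α))⁻¹ *
      (aperp R b (c • α) ⬝ᵥ β)) • aperp R b (c • α))]
  have hg : M * δ ^ 2 ≤ 8 * τ ^ 3 * (l ^ 2 * (b ⬝ᵥ b)) := by
    have e : (R *ᵥ β - l • b) ⬝ᵥ (R *ᵥ β - l • b) = (R *ᵥ β) ⬝ᵥ (R *ᵥ β) - l ^ 2 * (b ⬝ᵥ b) := by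
      rw [dotProduct_sub, dotProduct_smul, hub, smul_zero, sub_zero, sub_dotProduct,
        smul_dotProduct, hbβ, ← hlb, smul_eq_mul]
      ring
    rw [div_div, div_le_iff₀ (by positivity)] at h4
    have a1 : 8 * τ ^ 3 * δ ^ 2 ≤ M * δ ^ 2 := by gcongr
    have a2 : 8 * τ ^ 3 * ((R *ᵥ β) ⬝ᵥ (R *ᵥ β) - l ^ 2 * (b ⬝ᵥ b)) ≤ 8 * τ ^ 3 * δ ^ 2 :=
      mul_le_mul_of_nonneg_left (e ▸ huu).le (by positivity)
    linarith
  have hbk : M * b k ^ 2 ≤ 32 * τ ^ 7 * (b ⬝ᵥ b) := by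
    have a1 := abs_le_of_sq_le_sq' ((sq_le_dot _ k).trans huu.le) hδ.le
    have a2 := abs_le.1 (h2 k)
    have a3 : δ ≤ τ * (τ * δ) := by nlinarith [mul_pos hτ0 hδ]
    simp only [Pi.sub_apply, Pi.smul_apply, smul_eq_mul] at a1
    have a4 : (l * b k) ^ 2 ≤ (2 * (τ * (τ * δ))) ^ 2 := sq_le_sq' (by linarith) (by linarith)
    refine le_of_mul_le_mul_left ?_ (show 0 < δ ^ 2 by positivity)
    calc δ ^ 2 * (M * b k ^ 2) = M * δ ^ 2 * b k ^ 2 := by ring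
      _ ≤ 8 * τ ^ 3 * (l ^ 2 * (b ⬝ᵥ b)) * b k ^ 2 := by gcongr
      _ = 8 * τ ^ 3 * (b ⬝ᵥ b) * (l * b k) ^ 2 := by ring
      _ ≤ 8 * τ ^ 3 * (b ⬝ᵥ b) * (2 * (τ * (τ * δ))) ^ 2 := by gcongr
      _ = _ := by ring
  have hak : M * aperp R b (c • α) k ^ 2 ≤ 72 * τ ^ 7 * (aperp R b (c • α) ⬝ᵥ aperp R b (c • α)) := by
    rw [aperp_sq hR hb, mulVec_smul, smul_dotProduct, dotProduct_smul]
    have e : aperp R b (c • α) k = c * ((1 - R) *ᵥ α) k + (b ⬝ᵥ c • α) / (b ⬝ᵥ b) * b k := by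
      simp only [aperp, sub_mulVec, one_mulVec, mulVec_smul, Pi.add_apply, Pi.sub_apply,
        Pi.smul_apply, smul_eq_mul]
      ring
    rw [e]
    generalize (b ⬝ᵥ c • α) / (b ⬝ᵥ b) = z
    have a1 : ((1 - R) *ᵥ α) k ^ 2 ≤ (τ * (τ * δ)) ^ 2 :=
      sq_le_sq' (abs_le.1 (h3 k)).1 (abs_le.1 (h3 k)).2
    rw [div_div, div_le_iff₀ (by positivity)] at h5
    generalize ((1 - R) *ᵥ α) k = y at a1 ⊢
    have hY := dot_self_nonneg ((1 - R) *ᵥ α)
    generalize ((1 - R) *ᵥ α) ⬝ᵥ ((1 - R) *ᵥ α) = Y at h5 hY ⊢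
    have a2 : M * y ^ 2 ≤ 4 * τ ^ 7 * Y :=
      calc M * y ^ 2 ≤ M * (τ * (τ * δ)) ^ 2 := by gcongr
        _ = τ ^ 4 * (M * δ ^ 2) := by ring
        _ ≤ τ ^ 4 * (Y * (2 * τ ^ 3 * 2)) := by gcongr
        _ = _ := by ring
    have a3 := mul_le_mul_of_nonneg_left a2 (sq_nonneg c)
    have a4 := mul_le_mul_of_nonneg_left hbk (sq_nonneg z)
    have a5 : M * (c * y + z * b k) ^ 2 ≤ M * (2 * (c * y) ^ 2 + 2 * (z * b k) ^ 2) :=
      mul_le_mul_of_nonneg_left (by nlinarith [sq_nonneg (c * y - z * b k)]) hM0.le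
    have a6 : 0 ≤ τ ^ 7 * (c ^ 2 * Y) := by positivity
    have a7 : 0 ≤ τ ^ 7 * (z ^ 2 * (b ⬝ᵥ b)) := by positivity
    simp only [smul_eq_mul]
    nlinarith
  have c1 := abs_le.1 (coord_le hτ k (hbk.trans (by gcongr; norm_num)))
  have c2 := abs_le.1 (coord_le hτ k hak)
  have c3 := abs_le.1 (h1 k)
  have c4 : τ ≤ τ ^ 5 := le_self_pow₀ (by linarith) (by norm_num)
  have c5 : 3 * τ ^ 5 ≤ τ ^ 7 := by
    have : 3 ≤ τ ^ 2 := by nlinarith
    calc 3 * τ ^ 5 ≤ τ ^ 2 * τ ^ 5 := by gcongr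
      _ = _ := by ring
  rw [Qup_mulVec]
  simp only [Pi.add_apply, Pi.sub_apply, Pi.smul_apply, smul_eq_mul]
  exact abs_le.2 ⟨by linarith, by linarith⟩

theorem numeric {τ M : ℝ} (hτ : 400 ≤ τ) (h1 : τ ^ 13 ≤ M) (h2 : M ≤ Real.exp τ) :
    M * (2 * Real.exp (-τ ^ 2 / 2)) ≤ Real.exp (-30 * τ) ∧
      Real.exp (-(M / (512 * τ ^ 10))) ≤ Real.exp (-30 * τ) ∧ Real.exp (-30 * τ) ≤ 1 / 4 ∧
      320 * τ ^ 10 * Real.exp (-30 * τ) ≤ Real.exp (-17 * τ) := by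
  have hτ0 : 0 < τ := by linarith
  have he : τ ≤ Real.exp τ := by linarith [Real.add_one_le_exp τ]
  refine ⟨?_, Real.exp_le_exp.2 ?_, ?_, ?_⟩
  · calc _ ≤ Real.exp τ * (Real.exp τ * Real.exp (-τ ^ 2 / 2)) := by gcongr; linarith
      _ ≤ _ := by
        rw [← Real.exp_add, ← Real.exp_add]
        exact Real.exp_le_exp.2 (by nlinarith)
  · rw [neg_mul, neg_le_neg_iff, le_div_iff₀ (by positivity)]
    calc 30 * τ * (512 * τ ^ 10) = 15360 * τ ^ 11 := by ring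
      _ ≤ τ ^ 2 * τ ^ 11 := by gcongr; nlinarith
      _ = τ ^ 13 := by ring
      _ ≤ M := h1
  · rw [neg_mul, Real.exp_neg, inv_le_comm₀ (Real.exp_pos _) (by norm_num)]
    linarith [Real.add_one_le_exp (30 * τ)]
  · calc _ ≤ Real.exp τ * Real.exp τ ^ 10 * Real.exp (-30 * τ) := by gcongr; linarith
      _ ≤ _ := by
        rw [← Real.exp_nat_mul, ← Real.exp_add, ← Real.exp_add]
        exact Real.exp_le_exp.2 (by push_cast; linarith)

end CubeAux

open CubeAux in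
theorem cube : ∃ τ₀, Cube τ₀ := by
  classical
  refine ⟨400, fun τ M hτ h1 h2 P hP e he μ c hμ hc s => ?_⟩
  have hτ' : (400 : ℝ) ≤ τ := by exact_mod_cast hτ
  have h1' : (τ : ℝ) ^ 13 ≤ M := by exact_mod_cast h1.le
  have h2' : (M : ℝ) ≤ Real.exp τ := by
    calc (M : ℝ) ≤ 2 ^ τ := by exact_mod_cast h2
      _ ≤ Real.exp 1 ^ τ := by gcongr; linarith [Real.add_one_le_exp 1]
      _ = _ := by rw [← Real.exp_nat_mul, mul_one]
  have hM : 0 < M := by omega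
  obtain ⟨n1, n2, n3, n4⟩ := numeric hτ' h1' h2'
  generalize (τ : ℝ) = t at hτ' h1' n1 n2 n3 n4 ⊢
  have ht : 0 < t := by linarith
  have hM0 : (0 : ℝ) < M := by exact_mod_cast hM
  set β : Fin M → ℝ := fun k => μ - s k with hβ
  set α : Fin M → ℝ := fun k => μ - μ / s k with hα
  have ha : (fun k => c * (μ - μ / s k)) = c • α := rfl
  rw [ha]
  have hw0 : ∀ ε, 0 ≤ wgt (flipP ε P) (bflip ε P β e) (c • α) := fun ε =>
    mul_nonneg (dot_self_nonneg _) (dot_self_nonneg _)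
  by_cases hex : ∃ ε, Phi t μ s (Qup (flipP ε P) (bflip ε P β e) (c • α))
  swap
  · rw [Finset.sum_eq_zero fun ε _ => if_neg fun h => hex ⟨ε, h⟩]
    exact mul_nonneg (Real.exp_pos _).le (Finset.sum_nonneg fun ε _ => hw0 ε)
  obtain ⟨ε₀, p1, p2, p3, p4, -⟩ := hex
  set δ := μ - 1 with hδ
  have hδ0 : 0 < δ := by linarith
  have q1 : ∀ k, |β k| ≤ t * δ := fun k => (p1 k).le
  have q2 : ∀ k, |α k| ≤ t * δ := fun k => (p2 k).le
  have hpow : ∀ j : ℕ, j ≤ 12 → 8 * t ^ j ≤ M := fun j hj => by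
    calc 8 * t ^ j ≤ t * t ^ 12 := by gcongr <;> linarith
      _ = t ^ 13 := by ring
      _ ≤ M := h1'
  set m := M * δ ^ 2 / (2 * t ^ 3) with hm
  have hm0 : 0 < m := by positivity
  have hmB : (t * δ) ^ 2 ≤ m := by
    rw [hm, le_div_iff₀ (by positivity)]
    calc _ = 2 * t ^ 5 * δ ^ 2 := by ring
      _ ≤ _ := by gcongr; linarith [hpow 5 (by norm_num), pow_pos ht 5]
  have hm2 : M * δ ^ 2 / t ^ 3 = 2 * m := by rw [hm]; field_simp
  have m1 : m ≤ ∑ k, P k k * β k ^ 2 := by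
    have u1 := unit_sum (aperp (flipP ε₀ P) (bflip ε₀ P β e) (c • α)) β q1
    have u2 : 0 ≤ ∑ k, (bflip ε₀ P β e ⬝ᵥ bflip ε₀ P β e)⁻¹ *
        (bflip ε₀ P β e k * bflip ε₀ P β e k) * β k ^ 2 := Finset.sum_nonneg fun k _ =>
      mul_nonneg (mul_nonneg (inv_nonneg.2 (dot_self_nonneg _)) (mul_self_nonneg _)) (sq_nonneg _)
    simp only [Qup, Matrix.add_apply, Matrix.sub_apply, Matrix.smul_apply, vecMulVec_apply,
      smul_eq_mul, flip_diag, add_mul, sub_mul, Finset.sum_add_distrib, Finset.sum_sub_distrib] at p3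
    linarith
  have m2 : m ≤ ∑ k, (1 - P) k k * α k ^ 2 := by
    have u1 := unit_sum (bflip ε₀ P β e) α q2
    have u2 : 0 ≤ ∑ k, (aperp (flipP ε₀ P) (bflip ε₀ P β e) (c • α) ⬝ᵥ
        aperp (flipP ε₀ P) (bflip ε₀ P β e) (c • α))⁻¹ *
        (aperp (flipP ε₀ P) (bflip ε₀ P β e) (c • α) k *
          aperp (flipP ε₀ P) (bflip ε₀ P β e) (c • α) k) * α k ^ 2 := Finset.sum_nonneg fun k _ =>
      mul_nonneg (mul_nonneg (inv_nonneg.2 (dot_self_nonneg _)) (mul_self_nonneg _)) (sq_nonneg _)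
    simp only [Qup, Matrix.add_apply, Matrix.sub_apply, Matrix.smul_apply, vecMulVec_apply,
      smul_eq_mul, flip_diag, add_mul, sub_mul, Finset.sum_add_distrib, Finset.sum_sub_distrib,
      Matrix.one_apply_eq] at p4 ⊢
    linarith
  have t1 := tailP hP (h := fun _ => 1) one_pos ht.le fun _ => abs_one.le
  have t2 := tailP hP (mul_pos ht hδ0) ht.le q1
  have t3 := tailP hP.compl (mul_pos ht hδ0) ht.le q2
  have t4 := low hP (mul_pos ht hδ0) hM q1 hm0.le m1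
  have t5 := low hP.compl (mul_pos ht hδ0) hM q2 hm0.le m2
  have hexp : m ^ 2 / (128 * (t * δ) ^ 4 * M) = M / (512 * t ^ 10) := by
    rw [hm]
    field_simp
    norm_num
  rw [hexp] at t4 t5
  simp only [flip_compl] at t3 t5
  have hfix : ∀ ε, flipP ε P *ᵥ (fun k => sgn ε k * e k) = fun k => sgn ε k * e k := by
    intro ε
    ext k
    rw [flip_mulVec]
    simp only [← mul_assoc, sgn_sq, one_mul]
    rw [he]
  have hb : ∀ ε, flipP ε P *ᵥ bflip ε P β e = bflip ε P β e := fun ε => by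
    rw [bflip, mulVec_add, (flip_proj ε hP).idem, hfix]
  have hbb : ∀ ε, bflip ε P β e ⬝ᵥ bflip ε P β e = (flipP ε P *ᵥ β) ⬝ᵥ (flipP ε P *ᵥ β) + e ⬝ᵥ e +
      2 * ((flipP ε P *ᵥ β) ⬝ᵥ fun k => sgn ε k * e k) := fun ε => by
    rw [bflip, add_dotProduct, dotProduct_add, dotProduct_add, flip_dot,
      dotProduct_comm (fun k => sgn ε k * e k)]
    ring
  have hE := dot_self_nonneg e
  have hc2 : 0 < c ^ 2 := by positivity
  have hMB : (M : ℝ) * (t * δ) ^ 2 = 4 * t ^ 5 * (m / 2) := by rw [hm]; field_simp; norm_num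
  set L := (m / 2 + e ⬝ᵥ e) * (c ^ 2 * (m / 2)) with hL
  have hL0 : 0 ≤ L := by positivity
  have hup : ∀ ε, wgt (flipP ε P) (bflip ε P β e) (c • α) ≤ 32 * t ^ 10 * L := by
    intro ε
    have a1 := ((flip_proj ε hP).norm_le β).trans (dot_le q1)
    have a2 := dot_self_nonneg (flipP ε P *ᵥ β - fun k => sgn ε k * e k)
    rw [sub_dotProduct, dotProduct_sub, dotProduct_sub, flip_dot,
      dotProduct_comm (fun k => sgn ε k * e k)] at a2
    have a3 : 1 ≤ 4 * t ^ 5 := by linarith [one_le_pow₀ (show 1 ≤ t by linarith) (n := 5)]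
    have a4 : bflip ε P β e ⬝ᵥ bflip ε P β e ≤ 2 * (4 * t ^ 5) * (m / 2 + e ⬝ᵥ e) := by
      have := mul_le_mul_of_nonneg_right a3 hE
      rw [hbb]
      linarith
    have a5 := aperp_le (flip_proj ε hP) (hb ε) (c • α)
    rw [smul_dotProduct, dotProduct_smul, smul_eq_mul, smul_eq_mul, ← mul_assoc, ← sq] at a5
    have a6 := a5.trans (mul_le_mul_of_nonneg_left ((dot_le q2).trans_eq hMB) hc2.le)
    refine (mul_le_mul a4 a6 (dot_self_nonneg _) (by positivity)).trans_eq ?_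
    rw [hL]
    ring
  have hlow : L * (2 ^ M / 2) ≤ ∑ ε, wgt (flipP ε P) (bflip ε P β e) (c • α) := by
    set Y : (Fin M → Bool) → ℝ := fun ε => ((1 - flipP ε P) *ᵥ α) ⬝ᵥ ((1 - flipP ε P) *ᵥ α) with hY
    have hodd : ∑ ε, ((flipP ε P *ᵥ β) ⬝ᵥ fun k => sgn ε k * e k) * Y ε = 0 := by
      have hinv : Function.Involutive fun (ε : Fin M → Bool) k => !ε k := by
        intro ε
        simp
      have := Equiv.sum_comp hinv.toPerm
        fun ε => ((flipP ε P *ᵥ β) ⬝ᵥ fun k => sgn ε k * e k) * Y ε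
      simp only [Function.Involutive.coe_toPerm, hY, flip_not, sgn_not, dotProduct, neg_mul, mul_neg,
        Finset.sum_neg_distrib] at this ⊢
      linarith
    have hpt : ∀ ε, L * (1 - (if (flipP ε P *ᵥ β) ⬝ᵥ (flipP ε P *ᵥ β) < m / 2 then 1 else 0) -
        (if Y ε < m / 2 then 1 else 0)) +
        2 * c ^ 2 * (((flipP ε P *ᵥ β) ⬝ᵥ fun k => sgn ε k * e k) * Y ε) ≤
        wgt (flipP ε P) (bflip ε P β e) (c • α) := by
      intro ε
      have a1 : c ^ 2 * Y ε ≤ aperp (flipP ε P) (bflip ε P β e) (c • α) ⬝ᵥ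
          aperp (flipP ε P) (bflip ε P β e) (c • α) := by
        rw [aperp_sq (flip_proj ε hP) (hb ε), mulVec_smul, smul_dotProduct, dotProduct_smul,
          smul_eq_mul, smul_eq_mul, ← mul_assoc, ← sq]
        exact le_add_of_nonneg_right (mul_nonneg (sq_nonneg _) (dot_self_nonneg _))
      refine le_trans ?_ (mul_le_mul_of_nonneg_left a1 (dot_self_nonneg _))
      have a2 := dot_self_nonneg (flipP ε P *ᵥ β)
      have a3 : 0 ≤ Y ε := dot_self_nonneg _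
      have a4 : L * (1 - (if (flipP ε P *ᵥ β) ⬝ᵥ (flipP ε P *ᵥ β) < m / 2 then 1 else 0) -
          (if Y ε < m / 2 then 1 else 0)) ≤
          ((flipP ε P *ᵥ β) ⬝ᵥ (flipP ε P *ᵥ β) + e ⬝ᵥ e) * (c ^ 2 * Y ε) := by
        have a5 : 0 ≤ ((flipP ε P *ᵥ β) ⬝ᵥ (flipP ε P *ᵥ β) + e ⬝ᵥ e) * (c ^ 2 * Y ε) := by
          positivity
        split_ifs with b1 b2 b2
        · linarith
        · linarith
        · linarith
        · rw [sub_zero, sub_zero, mul_one, hL]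
          gcongr
          exacts [not_lt.1 b1, not_lt.1 b2]
      rw [hbb]
      linarith
    refine le_trans ?_ (Finset.sum_le_sum fun ε _ => hpt ε)
    rw [Finset.sum_add_distrib, ← Finset.mul_sum, ← Finset.mul_sum, hodd, mul_zero, add_zero,
      Finset.sum_sub_distrib, Finset.sum_sub_distrib, sum_one]
    refine mul_le_mul_of_nonneg_left ?_ hL0
    have := mul_le_mul_of_nonneg_right (n2.trans n3) (show (0 : ℝ) ≤ 2 ^ M by positivity)
    linarith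
  have hpt : ∀ ε, (if Phi t μ s (Qup (flipP ε P) (bflip ε P β e) (c • α))
      then wgt (flipP ε P) (bflip ε P β e) (c • α) else 0) ≤ 32 * t ^ 10 * L *
      ((if ∃ k, t * 1 < |(flipP ε P *ᵥ fun _ => 1) k| then (1 : ℝ) else 0) +
       (if ∃ k, t * (t * δ) < |(flipP ε P *ᵥ β) k| then (1 : ℝ) else 0) +
       (if ∃ k, t * (t * δ) < |((1 - flipP ε P) *ᵥ α) k| then (1 : ℝ) else 0) +
       (if (flipP ε P *ᵥ β) ⬝ᵥ (flipP ε P *ᵥ β) < m / 2 then (1 : ℝ) else 0) +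
       (if ((1 - flipP ε P) *ᵥ α) ⬝ᵥ ((1 - flipP ε P) *ᵥ α) < m / 2 then (1 : ℝ) else 0)) := by
    intro ε
    by_cases hΦ : Phi t μ s (Qup (flipP ε P) (bflip ε P β e) (c • α))
    swap
    · rw [if_neg hΦ]
      positivity
    rw [if_pos hΦ]
    by_cases hb0 : bflip ε P β e ⬝ᵥ bflip ε P β e = 0
    · rw [wgt, hb0, zero_mul]
      positivity
    refine (hup ε).trans (le_mul_of_one_le_right (by positivity) ?_)
    by_contra hcon
    obtain ⟨-, -, -, -, p5, k, p6⟩ := hΦ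
    refine p6.not_ge (slow (flip_proj ε hP) (hb ε) (by linarith) hδ0 (hpow 3 (by norm_num)) hb0
      (fun k => ?_) (fun k => ?_) (fun k => ?_) ?_ ?_ p5 k)
    all_goals
      by_contra hn
      apply hcon
    · rw [if_pos ⟨k, not_le.1 hn⟩]
      split_ifs <;> norm_num
    · rw [if_pos (c := ∃ k, t * (t * δ) < |(flipP ε P *ᵥ β) k|) ⟨k, not_le.1 hn⟩]
      split_ifs <;> norm_num
    · rw [if_pos (c := ∃ k, t * (t * δ) < |((1 - flipP ε P) *ᵥ α) k|) ⟨k, not_le.1 hn⟩]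
      split_ifs <;> norm_num
    · rw [if_pos (not_le.1 hn)]
      split_ifs <;> norm_num
    · rw [if_pos (not_le.1 hn)]
      split_ifs <;> norm_num
  refine (Finset.sum_le_sum fun ε _ => hpt ε).trans
    (le_trans ?_ (mul_le_mul_of_nonneg_left hlow (Real.exp_pos _).le))
  rw [← Finset.mul_sum]
  simp only [Finset.sum_add_distrib]
  have b1 := mul_le_mul_of_nonneg_right n1 (show (0 : ℝ) ≤ 2 ^ M by positivity)
  have b2 := mul_le_mul_of_nonneg_right n2 (show (0 : ℝ) ≤ 2 ^ M by positivity)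
  calc _ ≤ 32 * t ^ 10 * L * (5 * (Real.exp (-30 * t) * 2 ^ M)) :=
        mul_le_mul_of_nonneg_left (by linarith) (by positivity)
    _ = 320 * t ^ 10 * Real.exp (-30 * t) * (L * (2 ^ M / 2)) := by ring
    _ ≤ _ := mul_le_mul_of_nonneg_right n4 (by positivity)

end Pool.Agent.P.MP_ef347d_lc
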