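import Mathlib

/-!
Model of computation (a synchronous shared-memory parallel machine over the reals) and the
linear programming notions used in the statement of MP_ef347d_lc.
-/

namespace Pool.Agent.P.MP_ef347d_lc

open Matrix

/-- Address terms: fixed integer expressions in the processor number `pid` and the input
sizes `rows = m`, `cols = n`. -/
inductive Tm : Type
  | num (k : ℕ)
  | pid
  | rows
  | cols
  | add (a b : Tm)
  | sub (a b : Tm)
  | mul (a b : Tm)
  | div (a b : Tm)
  | mod (a b : Tm)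
  | ifLt (a b x y : Tm)

/-- Value of an address term for sizes `m`, `n` at processor `q`. -/
def Tm.eval (m n q : ℕ) : Tm → ℕ
  | .num k => k
  | .pid => q
  | .rows => m
  | .cols => n
  | .add a b => a.eval m n q + b.eval m n q
  | .sub a b => a.eval m n q - b.eval m n q
  | .mul a b => a.eval m n q * b.eval m n q
  | .div a b => a.eval m n q / b.eval m n q
  | .mod a b => a.eval m n q % b.eval m n q
  | .ifLt a b x y => if a.eval m n q < b.eval m n q then x.eval m n q else y.eval m n q

/-- The real operations: copy, the four arithmetic operations, and comparison. -/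
inductive Op : Type
  | fst
  | add
  | sub
  | mul
  | div
  | le

/-- Meaning of the real operations (`x / 0 = 0`; a comparison returns `1` or `0`). -/
noncomputable def Op.eval : Op → ℝ → ℝ → ℝ
  | .fst, x, _ => x
  | .add, x, y => x + y
  | .sub, x, y => x - y
  | .mul, x, y => x * y
  | .div, x, y => x / y
  | .le, x, y => if x ≤ y then 1 else 0

/-- Programs.  `arith o d a b`: in one synchronous step every processor reads the cells `a`, `b`,
applies `o` and writes to cell `d`.  `cast d e`: every processor writes the integer `e` to cell `d`.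
`loop c`: repeat `c` while cell `0` is positive. -/
inductive Cmd : Type
  | arith (o : Op) (d a b : Tm)
  | cast (d e : Tm)
  | seq (c₁ c₂ : Cmd)
  | loop (c : Cmd)

open Classical in
/-- Simultaneous write: processor `q < p` writes `v q` to cell `d q`; on a conflict the processor
with the least number wins. -/
noncomputable def write (p : ℕ) (d : ℕ → ℕ) (v : ℕ → ℝ) (σ : ℕ → ℝ) : ℕ → ℝ :=
  fun a => if h : ∃ q, q < p ∧ d q = a then v (Nat.find h) else σ a

/-- `Exec m n p c σ σ' T`: with `p` processors, program `c` started on the shared memory `σ`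
halts after `T` synchronous steps with memory `σ'`. -/
inductive Exec (m n p : ℕ) : Cmd → (ℕ → ℝ) → (ℕ → ℝ) → ℕ → Prop
  | arith (o : Op) (d a b : Tm) (σ : ℕ → ℝ) :
      Exec m n p (.arith o d a b) σ
        (write p (fun q => d.eval m n q)
          (fun q => o.eval (σ (a.eval m n q)) (σ (b.eval m n q))) σ) 1
  | cast (d e : Tm) (σ : ℕ → ℝ) :
      Exec m n p (.cast d e) σ
        (write p (fun q => d.eval m n q) (fun q => ((e.eval m n q : ℕ) : ℝ)) σ) 1
  | seq {c₁ c₂ : Cmd} {σ σ₁ σ₂ : ℕ → ℝ} {T₁ T₂ : ℕ} :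
      Exec m n p c₁ σ σ₁ T₁ → Exec m n p c₂ σ₁ σ₂ T₂ → Exec m n p (.seq c₁ c₂) σ σ₂ (T₁ + T₂)
  | stop {c : Cmd} {σ : ℕ → ℝ} : σ 0 ≤ 0 → Exec m n p (.loop c) σ σ 1
  | again {c : Cmd} {σ σ₁ σ₂ : ℕ → ℝ} {T₁ T₂ : ℕ} :
      0 < σ 0 → Exec m n p c σ σ₁ T₁ → Exec m n p (.loop c) σ₁ σ₂ T₂ →
        Exec m n p (.loop c) σ σ₂ (T₁ + T₂ + 1)

/-- Positions of the entries of the data `(A, b, c)`. -/
abbrev Idx (m n : ℕ) : Type := (Fin m × Fin n) ⊕ (Fin m ⊕ Fin n)

/-- The matrix `A` of the data. -/
def dA {m n : ℕ} (D : Idx m n → ℝ) : Matrix (Fin m) (Fin n) ℝ :=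
  Matrix.of fun i j => D (Sum.inl (i, j))

/-- The right-hand side `b` of the data. -/
def db {m n : ℕ} (D : Idx m n → ℝ) : Fin m → ℝ := fun i => D (Sum.inr (Sum.inl i))

/-- The objective `c` of the data. -/
def dc {m n : ℕ} (D : Idx m n → ℝ) : Fin n → ℝ := fun j => D (Sum.inr (Sum.inr j))

/-- Initial memory: `A` row by row, then `b`, then `c`, then zeros. -/
def input {m n : ℕ} (D : Idx m n → ℝ) : ℕ → ℝ := fun a =>
  if h : a < m * n then D (Sum.inl (finProdFinEquiv.symm ⟨a, h⟩))
  else if h₁ : a - m * n < m then db D ⟨a - m * n, h₁⟩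
  else if h₂ : a - m * n - m < n then dc D ⟨a - m * n - m, h₂⟩
  else 0

/-- `x` satisfies `A x ≤ b`. -/
def Feasible {m n : ℕ} (D : Idx m n → ℝ) (x : Fin n → ℝ) : Prop :=
  ∀ i, (dA D *ᵥ x) i ≤ db D i

/-- The final memory `σ` solves `max c·x` subject to `A x ≤ b`: cell `0` holds `0` and cells
`1, …, n` hold an optimal point, or cell `0` holds `1` and the program is infeasible, or cell `0`
holds `2` and the program is unbounded. -/
def Solves {m n : ℕ} (D : Idx m n → ℝ) (σ : ℕ → ℝ) : Prop :=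
  (σ 0 = 0 ∧ Feasible D (fun j => σ (j.val + 1)) ∧
      ∀ x, Feasible D x → dc D ⬝ᵥ x ≤ dc D ⬝ᵥ (fun j => σ (j.val + 1))) ∨
  (σ 0 = 1 ∧ ∀ x, ¬ Feasible D x) ∨
  (σ 0 = 2 ∧ ∀ R : ℝ, ∃ x, Feasible D x ∧ R < dc D ⬝ᵥ x)

end Pool.Agent.P.MP_ef347d_lc
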