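import Pool.Agent.P.MP_ef347d_lc.Basic2
import Pool.Agent.P.MP_ef347d_lc.Gauss

/-! Expected running time from the failure probability of one round. -/

namespace Pool.Agent.P.MP_ef347d_lc

open Matrix MeasureTheory ProbabilityTheory
open scoped ENNReal

theorem Fin_.det {m n p : ℕ} {c : Cmd} {σ σ₁ : ℕ → ℝ} {T₁ : ℕ} (h₁ : Exec m n p c σ σ₁ T₁) :
    ∀ {σ₂ : ℕ → ℝ} {T₂ : ℕ}, Exec m n p c σ σ₂ T₂ → σ₁ = σ₂ ∧ T₁ = T₂ := by
  induction h₁ with
  | arith o d a b σ => intro _ _ h; cases h; exact ⟨rfl, rfl⟩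
  | cast d e σ => intro _ _ h; cases h; exact ⟨rfl, rfl⟩
  | seq _ _ ih₁ ih₂ =>
    intro _ _ h
    cases h with
    | seq a b =>
      obtain ⟨rfl, rfl⟩ := ih₁ a
      obtain ⟨rfl, rfl⟩ := ih₂ b
      exact ⟨rfl, rfl⟩
  | stop h0 =>
    intro _ _ h
    cases h with
    | stop _ => exact ⟨rfl, rfl⟩
    | again h1 _ _ => exact absurd h1 (not_lt.2 h0)
  | again h0 _ _ ih₁ ih₂ =>
    intro _ _ h
    cases h with
    | stop h1 => exact absurd h0 (not_lt.2 h1)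
    | again _ a b =>
      obtain ⟨rfl, rfl⟩ := ih₁ a
      obtain ⟨rfl, rfl⟩ := ih₂ b
      exact ⟨rfl, rfl⟩

theorem Fin_.solves {m n : ℕ} {D : Idx m n → ℝ} {σ τ : ℕ → ℝ} (h0 : σ 0 = τ 0)
    (h1 : ∀ j : Fin n, σ (j.val + 1) = τ (j.val + 1)) (h : Solves D τ) : Solves D σ := by
  unfold Solves at h ⊢
  have e : (fun j : Fin n => σ (j.val + 1)) = fun j : Fin n => τ (j.val + 1) := funext h1
  rw [h0, e]
  exact h

theorem Fin_.clog_le {m n : ℕ} (hm : 1 ≤ m) (hn : 1 ≤ n) :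
    (Nat.clog 2 (NN m n) : ℝ) ≤ 4 * (1 + Real.log (m * n)) := by
  have h1 : 2 ^ (Nat.clog 2 (NN m n)).pred < NN m n :=
    Nat.pow_pred_clog_lt_self (by norm_num) (by unfold NN; omega)
  have h2 : NN m n ≤ 8 * (m * n) := by unfold NN; nlinarith
  have h3 : 2 ^ Nat.clog 2 (NN m n) ≤ 2 ^ 4 * (m * n) := by
    have : Nat.clog 2 (NN m n) ≤ (Nat.clog 2 (NN m n)).pred + 1 := by
      rw [Nat.pred_eq_sub_one]; omega
    calc 2 ^ Nat.clog 2 (NN m n) ≤ 2 ^ ((Nat.clog 2 (NN m n)).pred + 1) :=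
          Nat.pow_le_pow_right (by norm_num) this
      _ ≤ _ := by rw [pow_succ]; omega
  have hmn : (1 : ℝ) ≤ m * n := by exact_mod_cast Nat.mul_pos hm hn
  have h4 : (2 : ℝ) ^ Nat.clog 2 (NN m n) ≤ 2 ^ 4 * (m * n) := by exact_mod_cast h3
  have h5 := Real.log_le_log (by positivity) h4
  rw [Real.log_mul (by positivity) (by positivity), Real.log_pow, Real.log_pow] at h5
  have h6 := Real.log_two_gt_d9
  have h7 := Real.log_nonneg hmn
  push_cast at h5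
  by_contra hc
  push Not at hc
  nlinarith

theorem Fin_.fail {ι : Type} [Fintype ι] (E : Set (ι → ℝ)) {s : ℝ} (hs : 0 < s) (D₀ : ι → ℝ)
    (hD : D₀ ⬝ᵥ D₀ ≤ 1) {t : ℝ} (ht : 4 / s ^ 2 ≤ t)
    (h : gam ι {Z | s • Z ∈ E} ≤ ENNReal.ofReal (10 * Real.exp (-t))) :
    gam ι {Z | D₀ + s • Z ∈ E} ≤ ENNReal.ofReal (11 * Real.exp (-t / 4)) := by
  have ht0 : 0 ≤ t := le_trans (by positivity) ht
  have h1 := gam_shift (s⁻¹ • D₀) {Z | s • Z ∈ E} (Real.exp (t / 2)) (Real.exp_pos _)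
  have e : {z | z + s⁻¹ • D₀ ∈ {Z : ι → ℝ | s • Z ∈ E}} = {Z | D₀ + s • Z ∈ E} := by
    ext z
    simp only [Set.mem_setOf_eq, smul_add, smul_smul, mul_inv_cancel₀ hs.ne', one_smul, add_comm]
  rw [e] at h1
  refine h1.trans ?_
  have hv : (s⁻¹ • D₀) ⬝ᵥ (s⁻¹ • D₀) ≤ t / 4 := by
    rw [smul_dotProduct, dotProduct_smul, smul_eq_mul, smul_eq_mul]
    have : s⁻¹ * s⁻¹ ≤ t / 4 := by
      have e2 : s⁻¹ * s⁻¹ = 4 / s ^ 2 / 4 := by field_simp
      rw [e2]; linarith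
    have h2 : 0 < s⁻¹ * s⁻¹ := by positivity
    nlinarith
  calc ENNReal.ofReal (Real.exp (t / 2)) * gam ι {Z | s • Z ∈ E} +
        ENNReal.ofReal (Real.exp ((s⁻¹ • D₀) ⬝ᵥ (s⁻¹ • D₀)) / Real.exp (t / 2))
      ≤ ENNReal.ofReal (Real.exp (t / 2)) * ENNReal.ofReal (10 * Real.exp (-t)) +
        ENNReal.ofReal (Real.exp (t / 4) / Real.exp (t / 2)) := by gcongr
    _ ≤ _ := by
      rw [← ENNReal.ofReal_mul (by positivity), ← ENNReal.ofReal_add (by positivity) (by positivity)]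
      refine ENNReal.ofReal_le_ofReal ?_
      have a1 : Real.exp (t / 2) * Real.exp (-t) ≤ Real.exp (-t / 4) := by
        rw [← Real.exp_add]; exact Real.exp_le_exp.2 (by linarith)
      have a2 : Real.exp (t / 4) / Real.exp (t / 2) = Real.exp (-t / 4) := by
        rw [← Real.exp_sub]; congr 1; ring
      rw [a2]
      nlinarith

theorem Fin_.sum_ne_top (C e : ℕ) :
    ∑' t : ℕ, ((C * (t + 1) ^ e : ℕ) : ℝ≥0∞) * ENNReal.ofReal (11 * Real.exp (-(t : ℝ) / 4)) ≠ ⊤ := by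
  have h1 := (summable_nat_add_iff 1).2
    (Real.summable_pow_mul_exp_neg_nat_mul e (r := 1 / 4) (by norm_num))
  have h2 := h1.mul_left (C * 11 * Real.exp (1 / 4))
  have h3 : Summable fun t : ℕ => ((C * (t + 1) ^ e : ℕ) : ℝ) * (11 * Real.exp (-(t : ℝ) / 4)) := by
    refine h2.congr fun t => ?_
    have : Real.exp (-(t : ℝ) / 4) = Real.exp (1 / 4) * Real.exp (-(1 / 4) * ((t + 1 : ℕ) : ℝ)) := by
      rw [← Real.exp_add]; congr 1; push_cast; ring
    rw [this]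
    push_cast
    ring
  have h4 := ENNReal.ofReal_tsum_of_nonneg (fun t => by positivity) h3
  have h5 : ∀ t : ℕ, ((C * (t + 1) ^ e : ℕ) : ℝ≥0∞) * ENNReal.ofReal (11 * Real.exp (-(t : ℝ) / 4)) =
      ENNReal.ofReal (((C * (t + 1) ^ e : ℕ) : ℝ) * (11 * Real.exp (-(t : ℝ) / 4))) := fun t => by
    rw [ENNReal.ofReal_mul (Nat.cast_nonneg _), ENNReal.ofReal_natCast]
  simp_rw [h5]
  rw [← h4]
  exact ENNReal.ofReal_ne_top

theorem final_of {F : MF} (hF : Driver F) (hS : Sound F)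
    (hB : ∀ (m n t : ℕ) (D : Idx m n → ℝ), 2 ^ (m + 1) ≤ t → 0 < F m n (env D t) 0 0) (t₀ : ℕ)
    (hT : ∀ m n t : ℕ, 1 ≤ m → 1 ≤ n → t₀ ≤ t → NN m n ≤ 2 ^ t → ∀ σ : ℝ, 1 / 2 ^ t ≤ σ → σ ≤ 1 →
      gam (Idx m n) {Z | ¬ 0 < F m n (env (σ • Z) t) 0 0} ≤
        ENNReal.ofReal (10 * Real.exp (-(t : ℝ)))) :
    ∃ (prog : Cmd) (C : ℝ) (k₁ k₂ : ℕ),
      (∀ (m n : ℕ) (D : Idx m n → ℝ), ∃ σ T, Exec m n ((m + n + 3) ^ 4) prog (input D) σ T ∧
        Solves D σ) ∧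
      ∀ m n : ℕ, 1 ≤ m → 1 ≤ n → ∀ s : ℝ, 0 < s → s ≤ 1 → ∀ D₀ : Idx m n → ℝ, D₀ ⬝ᵥ D₀ ≤ 1 →
        ∃ time : (Idx m n → ℝ) → ENNReal, Measurable time ∧
          (∀ D σ T, Exec m n ((m + n + 3) ^ 4) prog (input D) σ T → (T : ENNReal) ≤ time D) ∧
          ∫⁻ Z, time (D₀ + s • Z) ∂(Measure.pi fun _ : Idx m n => gaussianReal 0 1) ≤
            ENNReal.ofReal (C * s⁻¹ ^ k₁ * (1 + Real.log (m * n)) ^ k₂) := by
  classical
  obtain ⟨c, C, e, hc⟩ := hF
  set K := ∑' t : ℕ, ((C * (t + 1) ^ e : ℕ) : ℝ≥0∞) *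
    ENNReal.ofReal (11 * Real.exp (-(t : ℝ) / 4)) with hK
  have hKt : K ≠ ⊤ := Fin_.sum_ne_top C e
  refine ⟨c, C * (t₀ + 9) ^ e + K.toReal, 2 * e, e, fun m n D => ?_, ?_⟩
  · obtain ⟨t, -, -, h3, σ, steps, h4, -, h5, h6⟩ :=
      hc m n D (max (Nat.clog 2 (NN m n)) (2 ^ (m + 1))) (le_max_left _ _)
        (hB _ _ _ _ (le_max_right _ _))
    refine ⟨σ, steps, h4, Fin_.solves ?_ ?_ (hS m n D t h3)⟩
    · rw [h5, outOf, dif_pos (by unfold NN; omega)]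
      rfl
    · intro j
      rw [h6, outOf, dif_pos (by have := j.2; unfold NN; omega)]
  intro m n hm hn s hs hs1 D₀ hD
  set u := t₀ + Nat.clog 2 (NN m n) + ⌈4 / s ^ 2⌉₊ with hu
  set A : ℕ → Set (Idx m n → ℝ) := fun t =>
    toMeasurable (gam (Idx m n)) {Z | ¬ 0 < F m n (env (D₀ + s • Z) t) 0 0} with hA
  have hAm : ∀ t, MeasurableSet (A t) := fun t => measurableSet_toMeasurable _ _
  set φ : (Idx m n → ℝ) → (Idx m n → ℝ) := fun D => s⁻¹ • (D - D₀) with hφ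
  have hφm : Measurable φ := by
    rw [hφ]; fun_prop
  have hφ1 : ∀ Z, φ (D₀ + s • Z) = Z := fun Z => by
    simp only [hφ, add_sub_cancel_left, smul_smul, inv_mul_cancel₀ hs.ne', one_smul]
  have hφ2 : ∀ D, D₀ + s • φ D = D := fun D => by
    simp only [hφ, smul_smul, mul_inv_cancel₀ hs.ne', one_smul, add_sub_cancel]
  set g : (Idx m n → ℝ) → ℝ≥0∞ := fun Z => ((C * u ^ e : ℕ) : ℝ≥0∞) +
    ∑' i : ℕ, (A (u + i)).indicator (fun _ => ((C * (u + i + 1) ^ e : ℕ) : ℝ≥0∞)) Z with hg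
  have hgi : ∀ i : ℕ, Measurable
      ((A (u + i)).indicator fun _ => ((C * (u + i + 1) ^ e : ℕ) : ℝ≥0∞)) := fun i =>
    measurable_const.indicator (hAm _)
  have hgm : Measurable g := measurable_const.add (Measurable.ennreal_tsum hgi)
  refine ⟨fun D => g (φ D), hgm.comp hφm, fun D σ T hE => ?_, ?_⟩
  · have hex : ∃ i, 0 < F m n (env D (u + i)) 0 0 := ⟨2 ^ (m + 1), hB _ _ _ _ (by omega)⟩
    obtain ⟨t, -, -, -, σ', steps, h4, h5, -⟩ :=
      hc m n D (u + Nat.find hex) (by omega) (Nat.find_spec hex)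
    obtain ⟨-, rfl⟩ := Fin_.det hE h4
    rcases hi : Nat.find hex with _ | i
    · rw [hi] at h5
      refine le_trans ?_ le_self_add
      exact_mod_cast h5
    · have hf := Nat.find_min hex (m := i) (by omega)
      have hm : φ D ∈ A (u + i) := subset_toMeasurable _ _ (by
        rw [Set.mem_setOf_eq, hφ2]; exact hf)
      rw [hi] at h5
      refine le_trans ?_ (le_trans (ENNReal.le_tsum i) le_add_self)
      rw [Set.indicator_of_mem hm]
      exact_mod_cast h5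
  · simp only [hφ1]
    have hAb : ∀ t, u ≤ t → gam (Idx m n) (A t) ≤ ENNReal.ofReal (11 * Real.exp (-(t : ℝ) / 4)) := by
      intro t ht
      rw [hA, measure_toMeasurable]
      have h4 : 4 / s ^ 2 ≤ (t : ℝ) :=
        (Nat.le_ceil _).trans (by exact_mod_cast (by omega : ⌈4 / s ^ 2⌉₊ ≤ t))
      refine Fin_.fail {D | ¬ 0 < F m n (env D t) 0 0} hs D₀ hD h4
        (hT m n t hm hn (by omega) ?_ s ?_ hs1)
      · exact (Nat.le_pow_clog (by norm_num) _).trans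
          (Nat.pow_le_pow_right (by norm_num) (by omega))
      · have h5 : (t : ℝ) ≤ 2 ^ t := by exact_mod_cast Nat.lt_two_pow_self.le
        rw [div_le_iff₀ (by positivity)] at h4 ⊢
        have h6 : (0 : ℝ) ≤ t := by positivity
        have h7 : (t : ℝ) * s ^ 2 ≤ t * s := by
          apply mul_le_mul_of_nonneg_left _ h6
          nlinarith
        nlinarith
    have hmn : (1 : ℝ) ≤ m * n := by exact_mod_cast Nat.mul_pos hm hn
    have hL : (1 : ℝ) ≤ 1 + Real.log (m * n) := by linarith [Real.log_nonneg hmn]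
    have hsi : (1 : ℝ) ≤ s⁻¹ ^ 2 := one_le_pow₀ ((one_le_inv₀ hs).2 hs1)
    set X := s⁻¹ ^ 2 * (1 + Real.log (m * n)) with hX
    have hX1 : 1 ≤ X := one_le_mul_of_one_le_of_one_le hsi hL
    have huX : (u : ℝ) ≤ (t₀ + 9) * X := by
      have a1 := Fin_.clog_le hm hn
      have a2 : (⌈4 / s ^ 2⌉₊ : ℝ) ≤ 4 / s ^ 2 + 1 := (Nat.ceil_lt_add_one (by positivity)).le
      have a3 : 4 / s ^ 2 = 4 * s⁻¹ ^ 2 := by field_simp
      have a4 : 1 + Real.log (m * n) ≤ X := le_mul_of_one_le_left (by linarith) hsi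
      have a5 : s⁻¹ ^ 2 ≤ X := le_mul_of_one_le_right (by linarith) hL
      have a6 : (t₀ : ℝ) ≤ t₀ * X := le_mul_of_one_le_right (by positivity) hX1
      rw [hu]
      push_cast
      linarith
    calc ∫⁻ Z, g Z ∂gam (Idx m n) = ((C * u ^ e : ℕ) : ℝ≥0∞) +
          ∑' i : ℕ, ((C * (u + i + 1) ^ e : ℕ) : ℝ≥0∞) * gam (Idx m n) (A (u + i)) := by
          rw [hg, lintegral_add_left measurable_const, lintegral_tsum fun i => (hgi i).aemeasurable]
          simp only [lintegral_const, measure_univ, mul_one, lintegral_indicator_const (hAm _)]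
      _ ≤ ((C * u ^ e : ℕ) : ℝ≥0∞) + K := by
          gcongr
          refine le_trans (ENNReal.tsum_le_tsum fun i => ?_)
            (ENNReal.tsum_comp_le_tsum_of_injective (add_right_injective u) _)
          exact mul_le_mul_right (hAb (u + i) (by omega)) _
      _ = ENNReal.ofReal (((C * u ^ e : ℕ) : ℝ) + K.toReal) := by
          rw [ENNReal.ofReal_add (by positivity) ENNReal.toReal_nonneg, ENNReal.ofReal_natCast,
            ENNReal.ofReal_toReal hKt]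
      _ ≤ _ := by
          refine ENNReal.ofReal_le_ofReal ?_
          have b1 : (u : ℝ) ^ e ≤ (t₀ + 9) ^ e * X ^ e := by
            rw [← mul_pow]; gcongr
          have b2 : 1 ≤ X ^ e := one_le_pow₀ hX1
          have b3 : K.toReal ≤ K.toReal * X ^ e := le_mul_of_one_le_right ENNReal.toReal_nonneg b2
          have b4 : (C : ℝ) * u ^ e ≤ C * ((t₀ + 9) ^ e * X ^ e) := by gcongr
          rw [mul_assoc, pow_mul, ← mul_pow, ← hX]
          push_cast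
          linarith

end Pool.Agent.P.MP_ef347d_lc
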