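import Pool.Agent.P.MP_ef347d_lc.Basic2
import Pool.Agent.P.MP_ef347d_lc.Path

/-! The scaled projector and the correctness of the path following solver. -/

namespace Pool.Agent.P.MP_ef347d_lc

open Matrix

section sp

variable {ι : Type} [Fintype ι] [DecidableEq ι] {P : Matrix ι ι ℝ} {s : ι → ℝ}

/-- the matrix inverted in `sproj` -/
noncomputable def fW (P : Matrix ι ι ℝ) (s : ι → ℝ) : Matrix ι ι ℝ :=
  Pᵀ * diagonal (fun k => 1 / s k ^ 2) * P + (1 - P)ᵀ * (1 - P)

lemma fW_eq (hP : IsProj P) : fW P s = P * diagonal (fun k => 1 / s k ^ 2) * P + (1 - P) := by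
  rw [fW, hP.compl.1, hP.compl.2, hP.1]

lemma fW_symm (hP : IsProj P) : (fW P s)ᵀ = fW P s := by
  rw [fW_eq hP, transpose_add, hP.compl.1, transpose_mul, transpose_mul, hP.1, diagonal_transpose,
    Matrix.mul_assoc]

lemma fW_mul (hP : IsProj P) : fW P s * P = P * diagonal (fun k => 1 / s k ^ 2) * P := by
  rw [fW_eq hP, add_mul, sub_mul, Matrix.mul_assoc _ P P, hP.2]
  simp

lemma mul_fW (hP : IsProj P) : P * fW P s = P * diagonal (fun k => 1 / s k ^ 2) * P := by
  rw [fW_eq hP, mul_add, mul_sub, ← Matrix.mul_assoc, ← Matrix.mul_assoc, hP.2]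
  simp

lemma fW_unit (hP : IsProj P) (hs : ∀ k, 0 < s k) : IsUnit (fW P s).det := by
  rw [isUnit_iff_ne_zero]
  intro h
  obtain ⟨x, hx, h0⟩ := exists_mulVec_eq_zero_iff.2 h
  apply hx
  have h1 : P *ᵥ (diagonal (fun k => 1 / s k ^ 2) *ᵥ (P *ᵥ x)) = 0 := by
    rw [mulVec_mulVec, mulVec_mulVec, ← mul_fW hP, ← mulVec_mulVec, h0, mulVec_zero]
  have h2 := hP.orth (hP.idem x) h1
  have h3 : P *ᵥ x = 0 := by
    funext k
    have h4 : ∀ j ∈ Finset.univ, 0 ≤ (P *ᵥ x) j * (diagonal (fun k => 1 / s k ^ 2) *ᵥ (P *ᵥ x)) j := by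
      intro j _
      rw [mulVec_diagonal]
      have := hs j
      have : 0 ≤ 1 / s j ^ 2 * ((P *ᵥ x) j * (P *ᵥ x) j) :=
        mul_nonneg (by positivity) (mul_self_nonneg _)
      linarith
    have h5 := (Finset.sum_eq_zero_iff_of_nonneg h4).1 h2 k (Finset.mem_univ k)
    rw [mulVec_diagonal] at h5
    have h6 : (1 / s k ^ 2) ≠ 0 := by
      have := hs k
      positivity
    have h7 : 1 / s k ^ 2 * ((P *ᵥ x) k * (P *ᵥ x) k) = 0 := by linarith
    exact mul_self_eq_zero.1 ((mul_eq_zero.1 h7).resolve_left h6)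
  rw [fW_eq hP, add_mulVec, ← mulVec_mulVec, h3, mulVec_zero, zero_add, sub_mulVec, h3,
    one_mulVec, sub_zero] at h0
  exact h0

lemma fW_comm (hP : IsProj P) (hs : ∀ k, 0 < s k) : (fW P s)⁻¹ * P = P * (fW P s)⁻¹ := by
  have hu := fW_unit hP hs
  have h : fW P s * P = P * fW P s := by rw [fW_mul hP, mul_fW hP]
  calc (fW P s)⁻¹ * P = (fW P s)⁻¹ * (P * fW P s) * (fW P s)⁻¹ := by
        rw [Matrix.mul_assoc, Matrix.mul_assoc, mul_nonsing_inv _ hu, Matrix.mul_one]
    _ = P * (fW P s)⁻¹ := by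
        rw [← h, ← Matrix.mul_assoc, nonsing_inv_mul _ hu, Matrix.one_mul]

lemma sproj_apply (w : ι → ℝ) (k : ι) :
    (sproj P s *ᵥ w) k = 1 / s k * ((fW P s)⁻¹ *ᵥ (P *ᵥ fun j => w j / s j)) k := by
  have e : (diagonal fun k => 1 / s k) *ᵥ w = fun j => w j / s j := by
    funext j
    rw [mulVec_diagonal]
    ring
  rw [sproj, ← mulVec_mulVec, ← mulVec_mulVec, ← mulVec_mulVec, mulVec_diagonal, e]
  rfl

end sp

theorem isProj_sproj {ι : Type} [Fintype ι] [DecidableEq ι] {P : Matrix ι ι ℝ} (hP : IsProj P)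
    {s : ι → ℝ} (hs : ∀ k, 0 < s k) : IsProj (sproj P s) := by
  have hu := fW_unit hP hs
  have hc := fW_comm hP hs
  have e : sproj P s = diagonal (fun k => 1 / s k) * (fW P s)⁻¹ * P *
      diagonal (fun k => 1 / s k) := rfl
  have hd : diagonal (fun k => 1 / s k) * diagonal (fun k => 1 / s k) =
      (diagonal (fun k => 1 / s k ^ 2) : Matrix ι ι ℝ) := by
    rw [diagonal_mul_diagonal]
    congr 1
    funext k
    ring
  constructor
  · rw [e, transpose_mul, transpose_mul, transpose_mul, diagonal_transpose, hP.1,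
      transpose_nonsing_inv, fW_symm hP, ← Matrix.mul_assoc P, ← hc]
    simp only [Matrix.mul_assoc]
  · have h1 : P * diagonal (fun k => 1 / s k) * (diagonal (fun k => 1 / s k) * ((fW P s)⁻¹ * P)) =
        P := by
      calc _ = P * (diagonal (fun k => 1 / s k) * diagonal (fun k => 1 / s k)) * P * (fW P s)⁻¹ := by
            rw [hc]
            simp only [Matrix.mul_assoc]
        _ = P := by
            rw [hd, ← mul_fW hP, Matrix.mul_assoc, mul_nonsing_inv _ hu, Matrix.mul_one]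
    calc sproj P s * sproj P s = diagonal (fun k => 1 / s k) * (fW P s)⁻¹ *
          (P * diagonal (fun k => 1 / s k) * (diagonal (fun k => 1 / s k) * ((fW P s)⁻¹ * P))) *
          diagonal (fun k => 1 / s k) := by
          rw [e]
          simp only [Matrix.mul_assoc]
      _ = sproj P s := by rw [h1, e]

theorem sproj_fix_iff {ι : Type} [Fintype ι] [DecidableEq ι] {P : Matrix ι ι ℝ} (hP : IsProj P)
    {s : ι → ℝ} (hs : ∀ k, 0 < s k) (w : ι → ℝ) :
    sproj P s *ᵥ w = w ↔ P *ᵥ (fun k => s k * w k) = fun k => s k * w k := by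
  constructor
  · intro h
    have h1 : (fun k => s k * w k) = P *ᵥ ((fW P s)⁻¹ *ᵥ fun j => w j / s j) := by
      rw [mulVec_mulVec, ← fW_comm hP hs, ← mulVec_mulVec]
      funext k
      have h2 := congrFun h k
      rw [sproj_apply] at h2
      have := (hs k).ne'
      rw [← h2]
      field_simp
    rw [h1, hP.idem]
  · intro h
    have h1 : (fun j => w j / s j) =
        diagonal (fun k => 1 / s k ^ 2) *ᵥ (P *ᵥ fun k => s k * w k) := by
      rw [h]
      funext k
      rw [mulVec_diagonal]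
      have := (hs k).ne'
      field_simp
    funext k
    rw [sproj_apply, h1, mulVec_mulVec _ P, mulVec_mulVec _ (P * _), ← fW_mul hP, mulVec_mulVec,
      ← Matrix.mul_assoc, nonsing_inv_mul _ (fW_unit hP hs), Matrix.one_mul, h]
    have := (hs k).ne'
    field_simp

theorem sproj_zero_iff {ι : Type} [Fintype ι] [DecidableEq ι] {P : Matrix ι ι ℝ} (hP : IsProj P)
    {s : ι → ℝ} (hs : ∀ k, 0 < s k) (w : ι → ℝ) :
    sproj P s *ᵥ w = 0 ↔ P *ᵥ (fun k => w k / s k) = 0 := by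
  constructor
  · intro h
    have h1 : (fW P s)⁻¹ *ᵥ (P *ᵥ fun j => w j / s j) = 0 := by
      funext k
      have h2 := congrFun h k
      rw [sproj_apply] at h2
      have h3 : 1 / s k ≠ 0 := by
        have := hs k
        positivity
      exact (mul_eq_zero.1 h2).resolve_left h3
    have h2 := congrArg (fun z => fW P s *ᵥ z) h1
    simp only [mulVec_zero] at h2
    rwa [mulVec_mulVec, mul_nonsing_inv _ (fW_unit hP hs), one_mulVec] at h2
  · intro h
    funext k
    rw [sproj_apply, h, mulVec_zero]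
    simp

/-! ### the corrector -/

lemma clip_lip {x r : ℝ} (h1 : 5 / 6 ≤ r) (h2 : r ≤ 6 / 5) :
    (clip x + 1 / clip x - (r + 1 / r)) ^ 2 ≤ 1 / 4 * (x - r) ^ 2 := by
  have c1 : 5 / 6 ≤ clip x := le_max_left _ _
  have c2 : clip x ≤ 6 / 5 := max_le (by norm_num) (min_le_right _ _)
  have c3 : (clip x - r) ^ 2 ≤ (x - r) ^ 2 := by
    unfold clip
    rcases le_total x (6 / 5) with h | h
    · rw [min_eq_left h]
      rcases le_total (5 / 6) x with h' | h'
      · rw [max_eq_right h']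
      · rw [max_eq_left h']
        nlinarith
    · rw [min_eq_right h, max_eq_right (by norm_num)]
      nlinarith
  generalize clip x = c at c1 c2 c3
  have hc : 0 < c := by linarith
  have hr : 0 < r := by linarith
  have e : c + 1 / c - (r + 1 / r) = (c - r) * (1 - 1 / (c * r)) := by
    field_simp
    ring
  have p1 : 25 / 36 ≤ c * r := by nlinarith
  have p2 : c * r ≤ 36 / 25 := by nlinarith
  have q1 : 1 / (c * r) ≤ 36 / 25 := by
    rw [div_le_iff₀ (by positivity)]
    linarith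
  have q2 : 25 / 36 ≤ 1 / (c * r) := by
    rw [le_div_iff₀ (by positivity)]
    linarith
  have q3 : (1 - 1 / (c * r)) ^ 2 ≤ 1 / 4 := by nlinarith
  rw [e, mul_pow]
  calc (c - r) ^ 2 * (1 - 1 / (c * r)) ^ 2 ≤ (x - r) ^ 2 * (1 / 4) :=
        mul_le_mul c3 q3 (sq_nonneg _) (sq_nonneg _)
    _ = _ := by ring

lemma corr_iter {ι : Type} [Fintype ι] [DecidableEq ι] {Q : Matrix ι ι ℝ} (hQ : IsProj Q)
    {g r : ι → ℝ} (h1 : ∀ k, 5 / 6 ≤ r k) (h2 : ∀ k, r k ≤ 6 / 5)
    (hfix : Q *ᵥ (fun k => r k - 1) = fun k => r k - 1)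
    (hzero : Q *ᵥ (fun k => 1 / r k - g k) = 0) (n : ℕ) :
    Q *ᵥ (fun k => (corr Q g)^[n] (fun _ => 1) k - 1) =
      (fun k => (corr Q g)^[n] (fun _ => 1) k - 1) ∧
    ∑ k, ((corr Q g)^[n] (fun _ => 1) k - r k) ^ 2 ≤ (1 / 4) ^ n * (Fintype.card ι / 25) := by
  induction n with
  | zero =>
    constructor
    · simp only [Function.iterate_zero, id_eq, sub_self]
      exact mulVec_zero Q
    · simp only [Function.iterate_zero, id_eq, pow_zero, one_mul]
      calc ∑ k, (1 - r k) ^ 2 ≤ ∑ _k : ι, (1 / 25 : ℝ) :=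
            Finset.sum_le_sum fun k _ => by nlinarith [h1 k, h2 k]
        _ = _ := by
            simp only [Finset.sum_const, Finset.card_univ, nsmul_eq_mul]
            ring
  | succ n ih =>
    rw [Function.iterate_succ_apply']
    generalize (corr Q g)^[n] (fun _ => 1) = x at ih
    constructor
    · simp only [corr, add_sub_cancel_left]
      exact hQ.idem _
    · have e : (fun k => corr Q g x k - r k) =
          Q *ᵥ fun j => clip (x j) + 1 / clip (x j) - (r j + 1 / r j) := by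
        have e1 : (fun j => clip (x j) + 1 / clip (x j) - 1 - g j) =
            (fun j => clip (x j) + 1 / clip (x j) - (r j + 1 / r j)) + (fun k => r k - 1) +
              fun k => 1 / r k - g k := by
          funext j
          simp only [Pi.add_apply]
          ring
        funext k
        simp only [corr]
        rw [e1, mulVec_add, mulVec_add, hfix, hzero]
        simp only [Pi.add_apply, Pi.zero_apply]
        ring
      have n1 := hQ.norm_le fun j => clip (x j) + 1 / clip (x j) - (r j + 1 / r j)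
      rw [← e] at n1
      simp only [dotProduct, ← sq] at n1
      calc _ ≤ _ := n1
        _ ≤ ∑ j, 1 / 4 * (x j - r j) ^ 2 :=
            Finset.sum_le_sum fun j _ => clip_lip (h1 j) (h2 j)
        _ = 1 / 4 * ∑ j, (x j - r j) ^ 2 := by rw [Finset.mul_sum]
        _ ≤ 1 / 4 * ((1 / 4) ^ n * (Fintype.card ι / 25)) := by gcongr; exact ih.2
        _ = _ := by ring

lemma cgrid_pos (τ i : ℕ) : 0 < cgrid τ i := by
  unfold cgrid
  positivity

lemma central_one {ι : Type} [Fintype ι] (P : Matrix ι ι ℝ) : Central P 1 (fun _ => 1) := by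
  refine ⟨fun _ => one_pos, ?_, ?_⟩
  · simp only [sub_self]
    exact mulVec_zero P
  · simp only [div_one, sub_self]
    exact mulVec_zero P

lemma find_step {ι : Type} [Fintype ι] [DecidableEq ι] {P : Matrix ι ι ℝ} (hP : IsProj P) {τ : ℕ}
    (hτ : 20 ≤ τ) (hN : Fintype.card ι ≤ 2 ^ τ) {s₀ s' : ι → ℝ} {μ : ℝ} (hμ : 0 < μ)
    (h0 : ∀ k, 0 < s₀ k) (hf : P *ᵥ (fun k => s₀ k - 1) = fun k => s₀ k - 1)
    (hc : Central P (μ * (1 + 1 / (τ : ℝ) ^ 8)) s')
    (hb : ∀ k, 5 / 6 * s₀ k ≤ s' k ∧ s' k ≤ 6 / 5 * s₀ k) :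
    P *ᵥ (fun k => (cstep P τ (s₀, μ)).1 k - 1) = (fun k => (cstep P τ (s₀, μ)).1 k - 1) ∧
    ∀ k, 49 / 50 * s' k ≤ (cstep P τ (s₀, μ)).1 k ∧ (cstep P τ (s₀, μ)).1 k ≤ 51 / 50 * s' k := by
  have hμ' : 0 < μ * (1 + 1 / (τ : ℝ) ^ 8) := by positivity
  simp only [cstep]
  generalize μ * (1 + 1 / (τ : ℝ) ^ 8) = ν at hc hμ'
  have hQ := isProj_sproj hP h0
  have hfix : sproj P s₀ *ᵥ (fun k => s' k / s₀ k - 1) = fun k => s' k / s₀ k - 1 := by
    rw [sproj_fix_iff hP h0]
    have e : (fun k => s₀ k * (s' k / s₀ k - 1)) = (fun k => s' k - 1) - fun k => s₀ k - 1 := by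
      funext k
      have := (h0 k).ne'
      simp only [Pi.sub_apply]
      field_simp
      ring
    rw [e, mulVec_sub, hc.2.1, hf]
  have hzero : sproj P s₀ *ᵥ (fun k => 1 / (s' k / s₀ k) - s₀ k / ν) = 0 := by
    rw [sproj_zero_iff hP h0]
    have e : (fun k => (1 / (s' k / s₀ k) - s₀ k / ν) / s₀ k) =
        (1 / ν) • fun k => ν / s' k - 1 := by
      funext k
      have := (h0 k).ne'
      have := (hc.1 k).ne'
      simp only [Pi.smul_apply, smul_eq_mul]
      field_simp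
    rw [e, mulVec_smul, hc.2.2, smul_zero]
  obtain ⟨i1, i2⟩ := corr_iter hQ (g := fun j => s₀ j / ν) (r := fun k => s' k / s₀ k)
    (fun k => by rw [le_div_iff₀ (h0 k)]; exact (hb k).1)
    (fun k => by rw [div_le_iff₀ (h0 k)]; exact (hb k).2) hfix hzero τ
  generalize (corr (sproj P s₀) fun j => s₀ j / ν)^[τ] (fun _ => 1) = x at i1 i2
  constructor
  · rw [sproj_fix_iff hP h0] at i1
    have e : (fun k => s₀ k * x k - 1) = (fun k => s₀ k * (x k - 1)) + fun k => s₀ k - 1 := by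
      funext k
      simp only [Pi.add_apply]
      ring
    rw [e, mulVec_add, i1, hf]
  · intro k
    have b1 : (x k - s' k / s₀ k) ^ 2 ≤ ∑ k, (x k - s' k / s₀ k) ^ 2 :=
      Finset.single_le_sum (f := fun k => (x k - s' k / s₀ k) ^ 2) (fun _ _ => sq_nonneg _)
        (Finset.mem_univ k)
    have b2 : (Fintype.card ι : ℝ) ≤ 2 ^ τ := by exact_mod_cast hN
    have b3 : (1 / 4 : ℝ) ^ τ * (Fintype.card ι / 25) ≤ (1 / 100) ^ 2 := by
      calc (1 / 4 : ℝ) ^ τ * (Fintype.card ι / 25) ≤ (1 / 4) ^ τ * (2 ^ τ / 25) := by gcongr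
        _ = (1 / 2) ^ τ / 25 := by
            rw [← mul_div_assoc, ← mul_pow]
            norm_num
        _ ≤ (1 / 2) ^ 20 / 25 := by
            gcongr ?_ / 25
            exact pow_le_pow_of_le_one (by norm_num) (by norm_num) hτ
        _ ≤ _ := by norm_num
    have b4 := abs_le.1 (abs_le_of_sq_le_sq' (b1.trans (i2.trans b3)) (by norm_num) |> fun h =>
      abs_le.2 h)
    have e : s₀ k * x k = s' k + s₀ k * (x k - s' k / s₀ k) := by
      have := (h0 k).ne'
      field_simp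
      ring
    have b5 := h0 k
    have b6 := hb k
    rw [e]
    constructor <;> nlinarith

theorem find_ok {ι : Type} [Fintype ι] [DecidableEq ι] {P : Matrix ι ι ℝ} (hP : IsProj P) {τ : ℕ}
    (hτ : 20 ≤ τ) (hN : Fintype.card ι ≤ 2 ^ τ) (hs : Slow (21 / 20) P τ) :
    P *ᵥ find P τ = find P τ ∧
      ∀ s, Central P (cgrid τ (τ ^ 10)) s → ∀ k, 49 / 50 * s k ≤ find P τ k + 1 := by
  have key : ∀ i, i ≤ τ ^ 10 → ∀ st, st = (cstep P τ)^[i] (fun _ => 1, 1) →
      st.2 = cgrid τ i ∧ P *ᵥ (fun k => st.1 k - 1) = (fun k => st.1 k - 1) ∧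
      ∀ s, Central P (cgrid τ i) s → ∀ k, 49 / 50 * s k ≤ st.1 k ∧ st.1 k ≤ 51 / 50 * s k := by
    intro i
    induction i with
    | zero =>
      rintro _ st rfl
      have e : cgrid τ 0 = 1 := by simp [cgrid]
      refine ⟨e.symm, (central_one P).2.1, fun s h k => ?_⟩
      rw [e] at h
      rw [central_unique hP one_pos h (central_one P)]
      simp only [Function.iterate_zero, id_eq]
      norm_num
    | succ i ih =>
      rintro hi st rfl
      rw [Function.iterate_succ_apply']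
      obtain ⟨a1, a2, a3⟩ := ih (by omega) _ rfl
      generalize (cstep P τ)^[i] (fun _ => 1, 1) = st at a1 a2 a3
      obtain ⟨s₀, μ⟩ := st
      simp only at a1 a2 a3
      subst a1
      have e : cgrid τ (i + 1) = cgrid τ i * (1 + 1 / (τ : ℝ) ^ 8) := by
        simp only [cgrid, pow_succ]
      obtain ⟨s, hc⟩ := exists_central hP (cgrid_pos τ i)
      have h0 : ∀ k, 0 < s₀ k := fun k => by
        have := (a3 s hc k).1
        have := hc.1 k
        linarith
      have st : ∀ s', Central P (cgrid τ (i + 1)) s' → _ := fun s' hc' =>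
        find_step hP hτ hN (cgrid_pos τ i) h0 a2 (e ▸ hc') fun k => by
          have b1 := a3 s hc k
          have b2 := hs i (by omega) s s' hc hc' k
          have b3 := hc.1 k
          constructor <;> linarith [b1.1, b1.2, b2.1, b2.2]
      obtain ⟨s', hc'⟩ := exists_central hP (cgrid_pos τ (i + 1))
      exact ⟨e.symm, (st s' hc').1, fun s'' h'' => (st s'' h'').2⟩
  obtain ⟨-, a2, a3⟩ := key (τ ^ 10) le_rfl _ rfl
  refine ⟨a2, fun s h k => ?_⟩
  have := (a3 s h k).1
  simp only [find]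
  linarith

/-! ### slow motion of the central point -/

lemma fine_step {ι : Type} [Fintype ι] [DecidableEq ι] {P : Matrix ι ι ℝ} (hP : IsProj P)
    {μ κ h L : ℝ} {s s' : ι → ℝ} (hμ : 0 < μ) (hκ : 1 ≤ κ)
    (hh : (κ - 1) * Fintype.card ι ≤ h) (hN : 1 ≤ Fintype.card ι) (h7 : h ≤ 1 / 7)
    (hc : Central P μ s) (hc' : Central P (κ * μ) s') :
    (∀ k, |s' k / s k - 1| ≤ 2 * h) ∧
      (¬ Fast L μ P → ∀ k, |s' k / s k - 1| ≤ (κ - 1) * (L + 1)) := by
  have hs := hc.1
  have hQ := isProj_sproj hP hs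
  obtain ⟨r, hr⟩ : ∃ r : ι → ℝ, r = fun k => s' k / s k := ⟨_, rfl⟩
  have hr0 : ∀ k, 0 < r k := fun k => by
    rw [hr]
    exact div_pos (hc'.1 k) (hs k)
  have hfix : sproj P s *ᵥ (fun k => r k - 1) = fun k => r k - 1 := by
    rw [sproj_fix_iff hP hs]
    have e : (fun k => s k * (r k - 1)) = (fun k => s' k - 1) - fun k => s k - 1 := by
      funext k
      have := (hs k).ne'
      simp only [Pi.sub_apply, hr]
      field_simp
      ring
    rw [e, mulVec_sub, hc.2.1, hc'.2.1]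
  have hzero : sproj P s *ᵥ (fun k => κ / r k - 1) = 0 := by
    rw [sproj_zero_iff hP hs]
    have e : (fun k => (κ / r k - 1) / s k) =
        (1 / μ) • ((fun k => κ * μ / s' k - 1) - fun k => μ / s k - 1) := by
      funext k
      have := (hs k).ne'
      have := (hc'.1 k).ne'
      simp only [Pi.smul_apply, smul_eq_mul, Pi.sub_apply, hr]
      field_simp
      ring
    rw [e, mulVec_smul, mulVec_sub, hc.2.2, hc'.2.2, sub_zero, smul_zero]
  have hpsi := psi_of_orth hκ hr0 (hQ.orth hfix hzero)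
  obtain ⟨d, hd⟩ : ∃ d, d = κ - 1 := ⟨_, rfl⟩
  have hκd : κ = 1 + d := by linarith
  rw [← hd] at hh hpsi ⊢
  have hd0 : 0 ≤ d := by linarith
  have hN' : (1 : ℝ) ≤ Fintype.card ι := by exact_mod_cast hN
  obtain ⟨T, hT⟩ : ∃ T, T = d ^ 2 * Fintype.card ι := ⟨_, rfl⟩
  rw [← hT] at hpsi
  have hdh : d ≤ h := by nlinarith
  have hT1 : T ≤ d * h := by
    calc T = d * (d * Fintype.card ι) := by rw [hT]; ring
      _ ≤ d * h := by gcongr
  have hT2 : d ^ 2 ≤ T := by
    rw [hT]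
    nlinarith [sq_nonneg d]
  have hT0 : 0 ≤ T := (sq_nonneg d).trans hT2
  have hT3 : T ≤ h ^ 2 := by nlinarith
  have p1 : ∀ k, |r k - 1| ≤ 2 * h := by
    intro k
    have b1 : (r k - 1) ^ 2 / r k ≤ ∑ k, (r k - 1) ^ 2 / r k :=
      Finset.single_le_sum (f := fun k => (r k - 1) ^ 2 / r k)
        (fun j _ => div_nonneg (sq_nonneg _) (hr0 j).le) (Finset.mem_univ k)
    have b2 : (r k - 1) ^ 2 ≤ h ^ 2 * r k := by
      rw [← div_le_iff₀ (hr0 k)]
      linarith
    have b3 := hr0 k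
    have b4 : r k ≤ 4 := by
      by_contra hc
      have : h ^ 2 ≤ 1 := by nlinarith
      nlinarith
    apply abs_le_of_sq_le_sq _ (by linarith)
    nlinarith [sq_nonneg h]
  have p2 : ∑ k, (r k - 1) ^ 2 ≤ 2 * T := by
    calc ∑ k, (r k - 1) ^ 2 ≤ ∑ k, 2 * ((r k - 1) ^ 2 / r k) := by
          refine Finset.sum_le_sum fun k _ => ?_
          have b1 := (abs_le.1 (p1 k)).2
          rw [← mul_div_assoc, le_div_iff₀ (hr0 k)]
          nlinarith [sq_nonneg (r k - 1)]
      _ = 2 * ∑ k, (r k - 1) ^ 2 / r k := by rw [Finset.mul_sum]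
      _ ≤ _ := by linarith
  have p3 : ∀ k, (r k - 1) ^ 2 ≤ 2 * T := fun k =>
    (Finset.single_le_sum (f := fun k => (r k - 1) ^ 2) (fun _ _ => sq_nonneg _)
      (Finset.mem_univ k)).trans p2
  have e0 : ∀ k, s' k / s k = r k := fun k => by rw [hr]
  simp only [e0]
  refine ⟨p1, fun hF k => ?_⟩
  obtain ⟨v, hv⟩ : ∃ v : ι → ℝ, v = sproj P s *ᵥ fun _ => 1 := ⟨_, rfl⟩
  have hv1 : sproj P s *ᵥ v = v := by rw [hv, hQ.idem]
  have hv2 : sproj P s *ᵥ (fun k => 1 - v k) = 0 := by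
    have e : (fun k => 1 - v k) = (fun _ => (1 : ℝ)) - v := rfl
    rw [e, mulVec_sub, hv1, ← hv, sub_self]
  have hvL : |v k| ≤ L := by
    by_contra hc2
    exact hF ⟨s, v, hc, ⟨(sproj_fix_iff hP hs v).1 hv1, (sproj_zero_iff hP hs _).1 hv2⟩, k,
      not_le.1 hc2⟩
  obtain ⟨w, hw⟩ : ∃ w : ι → ℝ, w = (fun k => r k - 1) - d • v := ⟨_, rfl⟩
  obtain ⟨E, hE⟩ : ∃ E : ι → ℝ, E = fun k => (d - (r k - 1)) * (r k - 1) / r k := ⟨_, rfl⟩
  have hw1 : sproj P s *ᵥ w = w := by rw [hw, mulVec_sub, mulVec_smul, hfix, hv1]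
  have hw2 : sproj P s *ᵥ (w + E) = 0 := by
    have e : w + E = d • (fun k => 1 - v k) - fun k => κ / r k - 1 := by
      funext k
      have := (hr0 k).ne'
      simp only [hw, hE, hκd, Pi.add_apply, Pi.sub_apply, Pi.smul_apply, smul_eq_mul]
      field_simp
      ring
    rw [e, mulVec_sub, mulVec_smul, hv2, hzero, smul_zero, sub_zero]
  have hw3 : w ⬝ᵥ w ≤ E ⬝ᵥ E := by
    have e : w = sproj P s *ᵥ (-E) := by
      rw [mulVec_add, hw1] at hw2
      rw [mulVec_neg]
      exact eq_neg_of_add_eq_zero_left hw2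
    have := hQ.norm_le (-E)
    rw [← e] at this
    simpa using this
  have hE1 : E ⬝ᵥ E ≤ d ^ 2 := by
    calc E ⬝ᵥ E ≤ ∑ k, 24 * T * (r k - 1) ^ 2 := by
          refine Finset.sum_le_sum fun k _ => ?_
          have b1 := (abs_le.1 (p1 k)).1
          have b2 : 1 / 2 ≤ r k := by linarith
          have b3 : (d - (r k - 1)) ^ 2 ≤ 6 * T := by
            nlinarith [p3 k, sq_nonneg (d + (r k - 1))]
          have b4 : E k * E k = (d - (r k - 1)) ^ 2 * (r k - 1) ^ 2 / r k ^ 2 := by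
            rw [hE]
            ring
          rw [b4, div_le_iff₀ (by have := hr0 k; positivity)]
          calc (d - (r k - 1)) ^ 2 * (r k - 1) ^ 2 ≤ 6 * T * (r k - 1) ^ 2 := by gcongr
            _ = 24 * T * (r k - 1) ^ 2 * (1 / 2) ^ 2 := by ring
            _ ≤ _ := by gcongr
      _ = 24 * T * ∑ k, (r k - 1) ^ 2 := by rw [Finset.mul_sum]
      _ ≤ 24 * T * (2 * T) := by gcongr
      _ = 48 * T ^ 2 := by ring
      _ ≤ 48 * (d * h) ^ 2 := by gcongr
      _ = d ^ 2 * (48 * h ^ 2) := by ring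
      _ ≤ d ^ 2 * 1 := by
          gcongr
          nlinarith
      _ = _ := mul_one _
  have hw4 : |w k| ≤ d := abs_le_of_sq_le_sq ((sq_le_dot w k).trans (hw3.trans hE1)) hd0
  have e : r k - 1 = w k + d * v k := by
    simp only [hw, Pi.sub_apply, Pi.smul_apply, smul_eq_mul]
    ring
  rw [e]
  calc |w k + d * v k| ≤ |w k| + |d * v k| := abs_add_le _ _
    _ ≤ d + d * L := by
        rw [abs_mul, abs_of_nonneg hd0]
        gcongr
    _ = _ := by ring

lemma ratio_exp {a x y : ℝ} (hx : 0 < x) (h : |y / x - 1| ≤ a) (ha : a ≤ 1 / 2) :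
    y ≤ Real.exp (2 * a) * x ∧ x ≤ Real.exp (2 * a) * y := by
  have h0 : 0 ≤ a := (abs_nonneg _).trans h
  have h1 := Real.add_one_le_exp (2 * a)
  obtain ⟨h2, h3⟩ := abs_le.1 h
  have h4 : y ≤ (1 + a) * x := by
    rw [← div_le_iff₀ hx]
    linarith
  have h5 : (1 - a) * x ≤ y := by
    rw [← le_div_iff₀ hx]
    linarith
  constructor
  · nlinarith
  · have h6 : 0 ≤ y := by nlinarith
    calc x ≤ (2 * a + 1) * ((1 - a) * x) := by nlinarith [mul_nonneg (mul_nonneg h0 hx.le) (by linarith : (0 : ℝ) ≤ 1 - 2 * a)]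
      _ ≤ Real.exp (2 * a) * y := by gcongr; nlinarith

theorem slow_of_speed {M : ℕ} {P : Matrix (Fin M) (Fin M) ℝ} (hP : IsProj P) {τ : ℕ}
    (hτ : 1000 ≤ τ) (h : ∀ j, 1 ≤ j → j < M * τ ^ 10 → ¬ Fast ((τ : ℝ) ^ 7) (fgrid τ M j) P) :
    Slow (51 / 50) P τ := by
  intro i hi s s' hc hc' k
  have hM : 1 ≤ M := k.pos
  have hM' : (0 : ℝ) < M := by exact_mod_cast hM
  have hτ' : (1000 : ℝ) ≤ τ := by exact_mod_cast hτ
  obtain ⟨η, hη⟩ : ∃ η : ℝ, η = 1 / (τ : ℝ) ^ 8 := ⟨_, rfl⟩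
  have hη0 : 0 < η := by rw [hη]; positivity
  have h7 : (1 : ℝ) ≤ (τ : ℝ) ^ 7 := one_le_pow₀ (by linarith)
  have hη1 : η * (τ : ℝ) ^ 7 ≤ 1 / 1000 := by
    rw [hη, div_mul_eq_mul_div, one_mul, div_le_div_iff₀ (by positivity) (by norm_num), pow_succ _ 7]
    nlinarith
  have hη2 : η ≤ 1 / 1000 := by nlinarith
  obtain ⟨κ, hκ⟩ : ∃ κ : ℝ, κ = (1 + η) ^ ((1 : ℝ) / M) := ⟨_, rfl⟩
  have hκ1 : 1 ≤ κ := by
    rw [hκ]
    exact Real.one_le_rpow (by linarith) (by positivity)
  have hκ2 : (κ - 1) * M ≤ η := by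
    have := rpow_one_add_le_one_add_mul_self (s := η) (p := 1 / M) (by linarith) (by positivity)
      (by rw [div_le_one hM']; exact_mod_cast hM)
    rw [← hκ] at this
    calc (κ - 1) * M ≤ 1 / M * η * M := by gcongr; linarith
      _ = η := by field_simp
  have hf0 : ∀ j, 0 < fgrid τ M j := fun j => by
    unfold fgrid
    positivity
  have hf1 : ∀ j, fgrid τ M (j + 1) = κ * fgrid τ M j := fun j => by
    unfold fgrid
    rw [hκ, ← hη, ← Real.rpow_add (by linarith)]
    congr 1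
    push_cast
    ring
  have hf2 : ∀ j, fgrid τ M (M * j) = cgrid τ j := fun j => by
    unfold fgrid cgrid
    have e : ((M * j : ℕ) : ℝ) / M = (j : ℝ) := by
      push_cast
      field_simp
    rw [e, Real.rpow_natCast]
  obtain ⟨a, ha⟩ : ∃ a : ℝ, a = (κ - 1) * ((τ : ℝ) ^ 7 + 1) := ⟨_, rfl⟩
  have ha0 : 0 ≤ a := by
    rw [ha]
    exact mul_nonneg (by linarith) (by positivity)
  have ha1 : a * M ≤ 1 / 500 := by
    calc a * M = (κ - 1) * M * ((τ : ℝ) ^ 7 + 1) := by rw [ha]; ring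
      _ ≤ η * ((τ : ℝ) ^ 7 + 1) := by gcongr
      _ ≤ _ := by linarith
  have ha2 : a ≤ 1 / 2 := by
    have : (1 : ℝ) ≤ M := by exact_mod_cast hM
    nlinarith
  have key : ∀ n : ℕ, n ≤ M → ∀ u, Central P (fgrid τ M (M * i + n)) u →
      u k ≤ Real.exp (2 * a * n + if M * i + n = 0 then 0 else 4 * η) * s k ∧
      s k ≤ Real.exp (2 * a * n + if M * i + n = 0 then 0 else 4 * η) * u k := by
    intro n
    induction n with
    | zero =>
      intro _ u hu
      rw [add_zero, hf2] at hu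
      rw [central_unique hP (cgrid_pos τ i) hu hc]
      have : 1 ≤ Real.exp (2 * a * ((0 : ℕ) : ℝ) + if M * i + 0 = 0 then 0 else 4 * η) := by
        apply Real.one_le_exp
        split_ifs <;> positivity
      have := hc.1 k
      constructor <;> nlinarith
    | succ n ih =>
      intro hn u hu
      obtain ⟨u₀, hu₀⟩ := exists_central hP (hf0 (M * i + n))
      obtain ⟨i1, i2⟩ := ih (by omega) u₀ hu₀
      rw [← add_assoc, hf1] at hu
      obtain ⟨f1, f2⟩ := fine_step (L := (τ : ℝ) ^ 7) (h := η) hP (hf0 _) hκ1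
        (by rw [Fintype.card_fin]; exact hκ2) (by rw [Fintype.card_fin]; exact hM)
        (by linarith) hu₀ hu
      have hne : M * i + (n + 1) ≠ 0 := by omega
      rw [if_neg hne]
      obtain ⟨b, hb1, hb2, hb3⟩ : ∃ b : ℝ, |u k / u₀ k - 1| ≤ b ∧ b ≤ 1 / 2 ∧
          2 * b + (2 * a * n + if M * i + n = 0 then 0 else 4 * η) ≤
            2 * a * ((n + 1 : ℕ) : ℝ) + 4 * η := by
        push_cast
        by_cases h0 : M * i + n = 0
        · refine ⟨2 * η, f1 k, by linarith, ?_⟩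
          rw [if_pos h0]
          linarith
        · refine ⟨a, ?_, ha2, ?_⟩
          · rw [ha]
            refine f2 (h _ (by omega) ?_) k
            calc M * i + n < M * i + M := by omega
              _ = M * (i + 1) := by ring
              _ ≤ M * τ ^ 10 := Nat.mul_le_mul_left _ hi
          · rw [if_neg h0]
            linarith
      obtain ⟨r1, r2⟩ := ratio_exp (hu₀.1 k) hb1 hb2
      have hexp := Real.exp_le_exp.2 hb3
      rw [Real.exp_add] at hexp
      have q1 := hc.1 k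
      have q2 := hu.1 k
      constructor
      · calc u k ≤ Real.exp (2 * b) * u₀ k := r1
          _ ≤ Real.exp (2 * b) * (_ * s k) := mul_le_mul_of_nonneg_left i1 (Real.exp_pos _).le
          _ ≤ _ := by rw [← mul_assoc]; gcongr
      · calc s k ≤ _ * u₀ k := i2
          _ ≤ _ * (Real.exp (2 * b) * u k) := by gcongr
          _ ≤ _ := by rw [← mul_assoc, mul_comm _ (Real.exp (2 * b))]; gcongr
  have e : M * i + M = M * (i + 1) := by ring
  obtain ⟨k1, k2⟩ := key M le_rfl s' (by rw [e, hf2]; exact hc')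
  have hx : Real.exp (2 * a * M + if M * i + M = 0 then 0 else 4 * η) ≤ 51 / 50 := by
    have b1 : (2 * a * M + if M * i + M = 0 then 0 else 4 * η) ≤ 1 / 100 := by
      split_ifs <;> linarith
    have b2 : Real.exp (1 / 100) ≤ 51 / 50 := by
      have := Real.exp_bound_div_one_sub_of_interval' (x := 1 / 100) (by norm_num) (by norm_num)
      linarith [show (1 : ℝ) / (1 - 1 / 100) ≤ 51 / 50 by norm_num]
    exact (Real.exp_le_exp.2 b1).trans b2
  have q1 := hc.1 k
  have q2 := hc'.1 k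
  exact ⟨k1.trans (by gcongr), k2.trans (by gcongr)⟩

end Pool.Agent.P.MP_ef347d_lc
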