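import Pool.Agent.P.MP_ef347d_lc.Good1b

/-! Leave-one-out bound and the primal bad set. -/

namespace Pool.Agent.P.MP_ef347d_lc

open Matrix MeasureTheory ProbabilityTheory

namespace Good1

theorem meas_proj {X Y : Type} [TopologicalSpace X] [TopologicalSpace Y]
    [SigmaCompactSpace (X × Y)] [T2Space X] [MeasurableSpace X] [OpensMeasurableSpace X]
    {Z : Set (X × Y)} (hZ : IsClosed Z) : MeasurableSet (Prod.fst '' Z) := by
  obtain ⟨K, hK, e⟩ := (isSigmaCompact_univ.of_isClosed_subset hZ (Set.subset_univ _)).image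
    continuous_fst
  rw [← e]
  exact MeasurableSet.iUnion fun n => (hK n).measurableSet

/-- the data without row `k` -/
def rk {M d : ℕ} (k : Fin M) (z : Fin M × Fin d → ℝ) : {j : Fin M // j ≠ k} × Fin d → ℝ :=
  fun p => z (p.1.1, p.2)

theorem rk_mulVec {M d : ℕ} (k : Fin M) (z : Fin M × Fin d → ℝ) (x : Fin d → ℝ)
    (j : {j : Fin M // j ≠ k}) : (mat (rk k z) *ᵥ x) j = (mat z *ᵥ x) j.1 := rfl

theorem card_ne {M : ℕ} (k : Fin M) : Fintype.card {j : Fin M // j ≠ k} = M - 1 := by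
  simp [Fintype.card_subtype_compl]

theorem rk_rank {M d : ℕ} (h : d + 1 ≤ M) (k : Fin M) :
    ∀ᵐ z ∂(gam (Fin M × Fin d)), IsUnit ((mat (rk k z))ᵀ * mat (rk k z)).det := by
  have h1 := gam_rank (ι := {j : Fin M // j ≠ k}) (κ := Fin d)
    (by rw [card_ne, Fintype.card_fin]; omega)
  have h2 := comp_mp (fun p : {j : Fin M // j ≠ k} × Fin d => (p.1.1, p.2)) (fun a b hab => by
    rw [Prod.ext_iff] at hab ⊢
    exact ⟨Subtype.ext hab.1, hab.2⟩)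
  exact h2.quasiMeasurePreserving.ae h1

/-- the leave-one-out point has a large inner product with row `k` -/
def LooBad {M d : ℕ} (k : Fin M) (μ c r t : ℝ) (z : Fin M × Fin d → ℝ) : Prop :=
  ∃ x : Fin d → ℝ, (∀ j, c ≤ 1 + (mat (rk k z) *ᵥ x) j) ∧
    (mat (rk k z))ᵀ *ᵥ (fun j => μ / max c (1 + (mat (rk k z) *ᵥ x) j) - 1) = 0 ∧
    x ⬝ᵥ x ≤ r ^ 2 ∧ t ≤ (mat z *ᵥ x) k

theorem meas_loo {M d : ℕ} (k : Fin M) (μ : ℝ) {c : ℝ} (hc : 0 < c) (r t : ℝ) :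
    MeasurableSet {z : Fin M × Fin d → ℝ | LooBad k μ c r t z} := by
  let Z : Set ((Fin M × Fin d → ℝ) × (Fin d → ℝ)) :=
    {q | (∀ j, c ≤ 1 + (mat (rk k q.1) *ᵥ q.2) j) ∧
      (mat (rk k q.1))ᵀ *ᵥ (fun j => μ / max c (1 + (mat (rk k q.1) *ᵥ q.2) j) - 1) = 0 ∧
      q.2 ⬝ᵥ q.2 ≤ r ^ 2 ∧ t ≤ (mat q.1 *ᵥ q.2) k}
  have h1 : ∀ j, Continuous fun q : (Fin M × Fin d → ℝ) × (Fin d → ℝ) => (mat q.1 *ᵥ q.2) j := by
    intro j
    simp only [dotProduct, mulVec, mat, Matrix.of_apply]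
    fun_prop
  have hZ : IsClosed Z := by
    refine IsClosed.inter ?_ (IsClosed.inter ?_ (IsClosed.inter ?_ ?_))
    · change IsClosed {q : (Fin M × Fin d → ℝ) × (Fin d → ℝ) |
        ∀ j, c ≤ 1 + (mat (rk k q.1) *ᵥ q.2) j}
      rw [Set.ofPred_forall]
      exact isClosed_iInter fun j => isClosed_le continuous_const (continuous_const.add (h1 j.1))
    · refine isClosed_eq (continuous_pi fun i => ?_) continuous_const
      simp only [mulVec, dotProduct, transpose_apply]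
      refine continuous_finsetSum _ fun j _ => Continuous.mul ?_ ?_
      · simp only [mat, rk, Matrix.of_apply]
        fun_prop
      · refine Continuous.sub (Continuous.div continuous_const
          (continuous_const.max (continuous_const.add (h1 j.1))) fun q => ?_) continuous_const
        exact (lt_of_lt_of_le hc (le_max_left _ _)).ne'
    · have h2 : Continuous fun q : (Fin M × Fin d → ℝ) × (Fin d → ℝ) => q.2 ⬝ᵥ q.2 := by
        simp only [dotProduct]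
        fun_prop
      exact isClosed_le h2 continuous_const
    · exact isClosed_le continuous_const (h1 k)
  have : {z : Fin M × Fin d → ℝ | LooBad k μ c r t z} = Prod.fst '' Z := by
    ext z
    constructor
    · rintro ⟨x, hx⟩
      exact ⟨(z, x), hx, rfl⟩
    · rintro ⟨⟨z', x⟩, hx, rfl⟩
      exact ⟨x, hx⟩
  rw [this]
  exact meas_proj hZ

theorem central_of {ι κ : Type} [Fintype ι] [Fintype κ] [DecidableEq κ] {A : Matrix ι κ ℝ}
    (h : IsUnit (Aᵀ * A).det) {μ c : ℝ} (hc : 0 < c) {x : κ → ℝ} (h1 : ∀ j, c ≤ 1 + (A *ᵥ x) j)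
    (h2 : Aᵀ *ᵥ (fun j => μ / max c (1 + (A *ᵥ x) j) - 1) = 0) :
    Central (Pr A) μ (fun j => 1 + (A *ᵥ x) j) := by
  refine ⟨fun j => hc.trans_le (h1 j), ?_, ?_⟩
  · rw [Pr_fix_iff h]
    exact ⟨x, by ext j; simp⟩
  · rw [Pr_zero_iff h]
    simpa only [max_eq_right (h1 _)] using h2

theorem inj_of {ι κ : Type} [Fintype ι] [Fintype κ] [DecidableEq κ] {A : Matrix ι κ ℝ}
    (h : IsUnit (Aᵀ * A).det) {x y : κ → ℝ} (hxy : A *ᵥ x = A *ᵥ y) : x = y := by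
  have h1 : ∀ v, ((Aᵀ * A)⁻¹ * Aᵀ) *ᵥ (A *ᵥ v) = v := by
    intro v
    rw [mulVec_mulVec, Matrix.mul_assoc, nonsing_inv_mul _ h, one_mulVec]
  rw [← h1 x, hxy, h1]

theorem good_loo {M d : ℕ} (h : d + 1 ≤ M) (k : Fin M) {μ c r l : ℝ} (hμ : 0 < μ) (hc : 0 < c)
    (hr : 0 < r) (hl : 0 ≤ l) :
    gam (Fin M × Fin d) {z | LooBad k μ c r (l * r) z} ≤ ENNReal.ofReal (Real.exp (-l ^ 2 / 2)) := by
  refine gam_le_of_block (fun p => p.1 = k) (meas_loo k μ hc r _) ?_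
  filter_upwards [rk_rank h k] with z hz
  have e1 : ∀ w : Fin M × Fin d → ℝ, rk k (fun p => if p.1 = k then w p else z p) = rk k z := by
    intro w
    ext p
    simp [rk, p.1.2]
  have e2 : ∀ (w : Fin M × Fin d → ℝ) (x : Fin d → ℝ),
      (mat (fun p => if p.1 = k then w p else z p) *ᵥ x) k = (mat w *ᵥ x) k := by
    intro w x
    simp [mat, mulVec, dotProduct]
  rcases Set.eq_empty_or_nonempty {w : Fin M × Fin d → ℝ |
    LooBad k μ c r (l * r) fun p => if p.1 = k then w p else z p} with h0 | ⟨w₀, hw₀⟩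
  · rw [h0]
    simp
  · obtain ⟨x₀, a1, a2, a3, -⟩ := hw₀
    rw [e1] at a1 a2
    have h1 := gam_tail (fun p : Fin M × Fin d => (Pi.single k 1 : Fin M → ℝ) p.1 * x₀ p.2) r l
      (by rw [bil_self]; simpa using a3) hr hl
    refine le_trans (measure_mono ?_) h1
    rintro w ⟨x, b1, b2, -, b4⟩
    rw [e1] at b1 b2
    rw [e2] at b4
    have h2 := central_unique (isProj_Pr hz) hμ (central_of hz hc a1 a2) (central_of hz hc b1 b2)
    have h3 : x₀ = x := inj_of hz (by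
      ext j
      have := congrFun h2 j
      simpa using this)
    simp only [Set.mem_ofPred_eq, bil_eq, single_one_dotProduct]
    rwa [h3]

theorem central_param {ι κ : Type} [Fintype ι] [Fintype κ] [DecidableEq κ] {A : Matrix ι κ ℝ}
    (h : IsUnit (Aᵀ * A).det) {μ : ℝ} {s : ι → ℝ} (hs : Central (Pr A) μ s) :
    ∃ x, (∀ j, s j = 1 + (A *ᵥ x) j) ∧ Aᵀ *ᵥ (fun j => μ / s j - 1) = 0 := by
  obtain ⟨x, hx⟩ := (Pr_fix_iff h _).1 hs.2.1
  refine ⟨x, fun j => ?_, (Pr_zero_iff h _).1 hs.2.2⟩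
  have := congrFun hx j
  linarith

theorem normalise {d : ℕ} {x : Fin d → ℝ} (hx : 0 < x ⬝ᵥ x) :
    ∃ (ρ : ℝ) (y : Fin d → ℝ), 0 < ρ ∧ ρ ^ 2 = x ⬝ᵥ x ∧ y ⬝ᵥ y = 1 ∧ x = ρ • y := by
  have h1 : 0 < √(x ⬝ᵥ x) := Real.sqrt_pos.2 hx
  have h2 : √(x ⬝ᵥ x) ^ 2 = x ⬝ᵥ x := Real.sq_sqrt hx.le
  refine ⟨√(x ⬝ᵥ x), (√(x ⬝ᵥ x))⁻¹ • x, h1, h2, ?_, ?_⟩
  · rw [smul_dotProduct, dotProduct_smul, smul_eq_mul, smul_eq_mul]
    generalize √(x ⬝ᵥ x) = ρ at *
    rw [← h2]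
    field_simp
  · rw [smul_smul, mul_inv_cancel₀ h1.ne', one_smul]

theorem det_lev {M d : ℕ} (hM : 1 ≤ M) (hd : M ≤ 4 * d) {z : Fin M × Fin d → ℝ}
    (hu : IsUnit ((mat z)ᵀ * mat z).det) (ho : OpGood z) (k : Fin M)
    (hrow : (d : ℝ) / 20000 ≤ (fun j => z (k, j)) ⬝ᵥ (fun j => z (k, j))) :
    1 / 10 ^ 7 < Pr (mat z) k k := by
  set a : Fin d → ℝ := fun j => z (k, j) with ha
  have hP := isProj_Pr hu
  have h1 : (mat z *ᵥ a) k = a ⬝ᵥ a := rfl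
  have h2 : (fun i => Pr (mat z) k i) ⬝ᵥ (mat z *ᵥ a) = a ⬝ᵥ a := by
    rw [← h1]
    conv_rhs => rw [← Pr_fix hu a]
    rfl
  have h3 : (fun i => Pr (mat z) k i) ⬝ᵥ (fun i => Pr (mat z) k i) = Pr (mat z) k k := by
    rw [← hP.diag_eq]
    simp [dotProduct, sq]
  have h4 := dot_sq_le (fun i => Pr (mat z) k i) (mat z *ᵥ a)
  rw [h2, h3] at h4
  have h5 := ho a
  have h6 := hP.diag_nonneg k
  have hM' : (1 : ℝ) ≤ M := by exact_mod_cast hM
  have hd' : (M : ℝ) ≤ 4 * d := by exact_mod_cast hd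
  have h7 : 0 < a ⬝ᵥ a := by linarith
  have h8 : (a ⬝ᵥ a) ^ 2 ≤ Pr (mat z) k k * (100 * M * (a ⬝ᵥ a)) :=
    h4.trans (mul_le_mul_of_nonneg_left h5 h6)
  have h9 : a ⬝ᵥ a ≤ Pr (mat z) k k * (100 * M) := by
    by_contra hn
    push Not at hn
    nlinarith
  by_contra hn
  push Not at hn
  nlinarith

theorem det_spread {M d : ℕ} (hM : 1 ≤ M) {z : Fin M × Fin d → ℝ} (ho : OpGood z)
    (hs : ¬ SpreadBad z) {δ : ℝ} (hδ : 0 < δ) (x : Fin d → ℝ) :
    16 * {k | |(mat z *ᵥ x) k - δ| ≤ eS / 30 * δ}.ncard < 15 * M := by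
  by_contra hn
  push Not at hn
  have e0 := eS_pos
  have e1 := eS_le
  have hM' : (1 : ℝ) ≤ M := by exact_mod_cast hM
  have hn' : (15 : ℝ) * M ≤ 16 * ({k | |(mat z *ᵥ x) k - δ| ≤ eS / 30 * δ}.ncard : ℝ) := by
    exact_mod_cast hn
  have h1 := ncard_mul_le (fun k => |(mat z *ᵥ x) k - δ| ≤ eS / 30 * δ)
    (fun k => (mat z *ᵥ x) k * (mat z *ᵥ x) k) (δ ^ 2 / 4) (fun k => mul_self_nonneg _)
    (fun k hk => by
      have h2 := (abs_le.1 hk).1
      have h3 : δ / 2 ≤ (mat z *ᵥ x) k := by nlinarith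
      nlinarith)
  have h2 := ho x
  have h3 : δ ^ 2 ≤ 900 * (x ⬝ᵥ x) := by
    have h4 : (15 : ℝ) * M * (δ ^ 2 / 4) ≤ 16 * (100 * M * (x ⬝ᵥ x)) := by
      calc (15 : ℝ) * M * (δ ^ 2 / 4)
          ≤ 16 * ({k | |(mat z *ᵥ x) k - δ| ≤ eS / 30 * δ}.ncard : ℝ) * (δ ^ 2 / 4) :=
            mul_le_mul_of_nonneg_right hn' (by positivity)
        _ ≤ 16 * ((mat z *ᵥ x) ⬝ᵥ (mat z *ᵥ x)) := by
            rw [mul_assoc]
            exact mul_le_mul_of_nonneg_left h1 (by norm_num)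
        _ ≤ _ := mul_le_mul_of_nonneg_left h2 (by norm_num)
    have h5 := dot_self_nonneg x
    by_contra h6
    push Not at h6
    nlinarith
  have hx : 0 < x ⬝ᵥ x := by nlinarith [sq_pos_of_pos hδ]
  obtain ⟨ρ, y, hρ, hρ2, hy, rfl⟩ := normalise hx
  have h4 : δ ≤ 30 * ρ := by
    by_contra h5
    push Not at h5
    nlinarith
  refine hs ⟨y, δ / ρ, hy, ?_, hn.trans (Nat.mul_le_mul_left _ ?_)⟩
  · rw [abs_of_pos (div_pos hδ hρ), div_le_iff₀ hρ]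
    exact h4
  · refine Set.ncard_le_ncard (fun k hk => ?_) (Set.toFinite _)
    simp only [Set.mem_ofPred_eq, mulVec_smul, Pi.smul_apply, smul_eq_mul] at hk ⊢
    have e : (mat z *ᵥ y) k - δ / ρ = (ρ * (mat z *ᵥ y) k - δ) / ρ := by field_simp
    rw [e, abs_div, abs_of_pos hρ, div_le_iff₀ hρ]
    nlinarith

theorem det_norm {M d : ℕ} (hM : 32 ≤ M) {z : Fin M × Fin d → ℝ} (hs : ¬ SpreadBad z) (k : Fin M)
    {δ : ℝ} (hδ : 0 < δ) (x : Fin d → ℝ) (h : ∑ j, |(mat (rk k z) *ᵥ x) j| ≤ 4 * δ * M) :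
    x ⬝ᵥ x ≤ (128 * δ / eS) ^ 2 := by
  have e0 := eS_pos
  rcases (dot_self_nonneg x).eq_or_lt with h0 | hx
  · rw [← h0]; positivity
  obtain ⟨ρ, y, hρ, hρ2, hy, rfl⟩ := normalise hx
  have h1 : 16 * {j | |(mat z *ᵥ y) j - 0| ≤ eS}.ncard < 15 * M := by
    by_contra hn
    exact hs ⟨y, 0, hy, by norm_num, not_lt.1 hn⟩
  have h2 := ncard_not fun j : {j : Fin M // j ≠ k} => |(mat z *ᵥ y) j.1 - 0| ≤ eS
  have h3 : {j : {j : Fin M // j ≠ k} | |(mat z *ᵥ y) j.1 - 0| ≤ eS}.ncard ≤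
      {j | |(mat z *ᵥ y) j - 0| ≤ eS}.ncard :=
    Set.ncard_le_ncard_of_injOn (fun j => j.1) (fun j hj => hj) Subtype.val_injective.injOn
  rw [card_ne] at h2
  have h4 := ncard_mul_le (fun j : {j : Fin M // j ≠ k} => ¬ |(mat z *ᵥ y) j.1 - 0| ≤ eS)
    (fun j => |(mat (rk k z) *ᵥ ρ • y) j|) (ρ * eS) (fun j => abs_nonneg _) (fun j hj => by
      push Not at hj
      rw [sub_zero] at hj
      rw [mulVec_smul, Pi.smul_apply, smul_eq_mul, abs_mul, abs_of_pos hρ, rk_mulVec]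
      exact mul_le_mul_of_nonneg_left hj.le hρ.le)
  have h5 : M ≤ 32 * {j : {j : Fin M // j ≠ k} | ¬ |(mat z *ᵥ y) j.1 - 0| ≤ eS}.ncard := by omega
  have h6 : (M : ℝ) ≤
      32 * ({j : {j : Fin M // j ≠ k} | ¬ |(mat z *ᵥ y) j.1 - 0| ≤ eS}.ncard : ℝ) := by
    exact_mod_cast h5
  have hM' : (32 : ℝ) ≤ M := by exact_mod_cast hM
  have h7 : (M : ℝ) * (ρ * eS) ≤ 32 * (4 * δ * M) := by
    calc (M : ℝ) * (ρ * eS) ≤ 32 * ({j : {j : Fin M // j ≠ k} |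
          ¬ |(mat z *ᵥ y) j.1 - 0| ≤ eS}.ncard : ℝ) * (ρ * eS) :=
          mul_le_mul_of_nonneg_right h6 (by positivity)
      _ ≤ _ := by
          rw [mul_assoc]
          exact mul_le_mul_of_nonneg_left (h4.trans h) (by norm_num)
  have h8 : ρ ≤ 128 * δ / eS := by
    rw [le_div_iff₀ e0]
    by_contra h9
    push Not at h9
    nlinarith
  rw [← hρ2]
  exact pow_le_pow_left₀ hρ.le h8 2

theorem det_loo {M d : ℕ} (hM : 32 ≤ M) {z : Fin M × Fin d → ℝ} (k : Fin M)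
    (hu' : IsUnit ((mat (rk k z))ᵀ * mat (rk k z)).det) (hs : ¬ SpreadBad z) {μ t : ℝ}
    (hμ : 1 < μ) {s : Fin M → ℝ} {x : Fin d → ℝ} (hs0 : ∀ j, 0 < s j)
    (hx : ∀ j, s j = 1 + (mat z *ᵥ x) j) (hβ : (mat z)ᵀ *ᵥ (fun j => μ / s j - 1) = 0)
    (hk : μ < s k) (ht : 1 + t ≤ s k) :
    LooBad k μ (μ / (M * (μ + 1))) (128 * (μ - 1) / eS) t z := by
  have hμ0 : 0 < μ := by linarith
  have hP := isProj_Pr hu'
  obtain ⟨s', hs'⟩ := exists_central hP hμ0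
  obtain ⟨x', hx', hβ'⟩ := central_param hu' hs'
  have hM' : (32 : ℝ) ≤ M := by exact_mod_cast hM
  have hcard : (Fintype.card {j : Fin M // j ≠ k} : ℝ) ≤ M := by
    rw [card_ne]
    exact_mod_cast Nat.sub_le _ _
  have hc : ∀ j, μ / (M * (μ + 1)) ≤ s' j := by
    intro j
    have h1 := (central_box hP hμ0 hs' j).2
    rw [div_le_iff₀ (hs'.1 j)] at h1
    rw [div_le_iff₀ (by positivity)]
    have h2 : (Fintype.card {j : Fin M // j ≠ k} : ℝ) * (μ + 1) * s' j ≤ M * (μ + 1) * s' j :=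
      mul_le_mul_of_nonneg_right (mul_le_mul_of_nonneg_right hcard (by linarith)) (hs'.1 j).le
    linarith
  refine ⟨x', fun j => by rw [← hx']; exact hc j, ?_, ?_, ?_⟩
  · simpa only [← hx', max_eq_right (hc _)] using hβ'
  · refine det_norm hM hs k (by linarith) x' ?_
    have h1 := central_l1 hP hμ.le hs'
    have h2 : ∀ j, (mat (rk k z) *ᵥ x') j = s' j - 1 := fun j => by rw [hx']; ring
    simp only [h2]
    refine h1.trans (mul_le_mul_of_nonneg_left hcard (by linarith))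
  · have h1 : (mat z *ᵥ (x - x')) ⬝ᵥ (fun j => μ / s j - 1) = 0 := by
      rw [mulVec_dot, hβ, dotProduct_zero]
    have h2 : (mat (rk k z) *ᵥ (x - x')) ⬝ᵥ (fun j => μ / s' j - 1) = 0 := by
      rw [mulVec_dot, hβ', dotProduct_zero]
    rw [dotProduct, Fintype.sum_eq_add_sum_subtype_ne _ k] at h1
    rw [dotProduct] at h2
    have h3 : ∑ j : {j : Fin M // j ≠ k}, (mat z *ᵥ (x - x')) j.1 * (μ / s j.1 - 1) ≤
        ∑ j : {j : Fin M // j ≠ k}, (mat (rk k z) *ᵥ (x - x')) j * (μ / s' j - 1) := by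
      refine Finset.sum_le_sum fun j _ => ?_
      have e : (mat z *ᵥ (x - x')) j.1 = s j.1 - s' j := by
        rw [mulVec_sub, Pi.sub_apply, hx, hx', rk_mulVec]
        ring
      rw [rk_mulVec, e]
      have p1 := hs0 j.1
      have p2 := hs'.1 j
      have e2 : (s j.1 - s' j) * (μ / s' j - 1) - (s j.1 - s' j) * (μ / s j.1 - 1) =
          μ * (s j.1 - s' j) ^ 2 / (s j.1 * s' j) := by
        field_simp
        ring
      have : 0 ≤ μ * (s j.1 - s' j) ^ 2 / (s j.1 * s' j) := by positivity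
      linarith
    have h4 : μ / s k - 1 < 0 := by
      rw [sub_neg, div_lt_one (hs0 k)]
      exact hk
    have h5 : 0 ≤ (mat z *ᵥ (x - x')) k * (μ / s k - 1) := by linarith
    have h6 : (mat z *ᵥ (x - x')) k ≤ 0 := by
      by_contra hn
      push Not at hn
      nlinarith
    rw [mulVec_sub, Pi.sub_apply] at h6
    have := hx k
    linarith

theorem union_fin {α : Type} [MeasurableSpace α] (ν : Measure α) {M : ℕ} (E : Fin M → Set α)
    {p : ℝ} (h : ∀ k, ν (E k) ≤ ENNReal.ofReal p) :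
    ν (⋃ k, E k) ≤ ENNReal.ofReal (M * p) := by
  refine (measure_iUnion_fintype_le ν E).trans ?_
  calc ∑ k, ν (E k) ≤ ∑ _k : Fin M, ENNReal.ofReal p := Finset.sum_le_sum fun k _ => h k
    _ = ENNReal.ofReal (M * p) := by
      rw [ENNReal.ofReal_mul (Nat.cast_nonneg _)]
      simp

end Good1

open Good1

/-- GOOD2: primal bad set (spread + leave-one-out + leverage) -/
theorem good_primal : ∃ ε : ℝ, 0 < ε ∧ ε ≤ 1 / 2 ∧ ∃ τ₀ : ℕ, ∀ τ M d : ℕ, τ₀ ≤ τ → τ ^ 2 ≤ M →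
    M ≤ 2 ^ τ → M ≤ 4 * d → 4 * d ≤ 3 * M → ∀ μ : ℝ, 1 < μ →
    gam (Fin M × Fin d) {z | IsUnit ((mat z)ᵀ * mat z).det ∧ PBad ε τ μ (Pr (mat z))} ≤
      ENNReal.ofReal (Real.exp (-20 * (τ : ℝ))) := by
  have e0 := eS_pos
  have e1 := eS_le
  set c₀ : ℝ := (eS / 128) ^ 2 / 2 with hc₀
  have hc0 : 0 < c₀ := by positivity
  have hc1 : c₀ ≤ 1 / 4 := by
    have : (eS / 128) ^ 2 ≤ (1 / 2) ^ 2 := pow_le_pow_left₀ (by positivity) (by linarith) 2
    linarith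
  obtain ⟨τ₁, hτ₁⟩ := exists_nat_ge (23 / c₀)
  refine ⟨eS / 30, by positivity, by linarith, τ₁ + 6, ?_⟩
  intro τ M d hτ hM1 hM2 hd1 hd2 μ hμ
  have hτ6 : 6 ≤ τ := by omega
  have hM : 32 ≤ M := by nlinarith
  have hδ : 0 < μ - 1 := by linarith
  have hτ' : (6 : ℝ) ≤ τ := by exact_mod_cast hτ6
  have hM' : (32 : ℝ) ≤ M := by exact_mod_cast hM
  have hr : 0 < 128 * (μ - 1) / eS := by positivity
  set l : ℝ := τ * (eS / 128) with hl
  have hlr : l * (128 * (μ - 1) / eS) = τ * (μ - 1) := by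
    rw [hl]; field_simp
  have hc : 0 < μ / (M * (μ + 1)) := by positivity
  let E1 : Set (Fin M × Fin d → ℝ) :=
    {z | ∃ x, 100 * (M : ℝ) * (x ⬝ᵥ x) < (mat z *ᵥ x) ⬝ᵥ (mat z *ᵥ x)}
  let E2 : Set (Fin M × Fin d → ℝ) := {z | OpGood z ∧ SpreadBad z}
  let E3 : Set (Fin M × Fin d → ℝ) :=
    ⋃ k, {z | (fun j => z (k, j)) ⬝ᵥ (fun j => z (k, j)) < d / 20000}
  let E4 : Set (Fin M × Fin d → ℝ) :=
    ⋃ k, {z | LooBad k μ (μ / (M * (μ + 1))) (128 * (μ - 1) / eS) (l * (128 * (μ - 1) / eS)) z}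
  have hae : ∀ᵐ z ∂(gam (Fin M × Fin d)), ∀ k, IsUnit ((mat (rk k z))ᵀ * mat (rk k z)).det :=
    ae_all_iff.2 fun k => rk_rank (by omega) k
  have hsub : {z | IsUnit ((mat z)ᵀ * mat z).det ∧ PBad (eS / 30) τ μ (Pr (mat z))} ≤ᵐ[
      gam (Fin M × Fin d)] (E1 ∪ E2 ∪ E3 ∪ E4 : Set _) := by
    filter_upwards [hae] with z hz
    rintro ⟨hu, s, hs, hbad⟩
    by_contra hn
    have n1 : z ∉ E1 := fun h => hn (Or.inl (Or.inl (Or.inl h)))
    have n2 : z ∉ E2 := fun h => hn (Or.inl (Or.inl (Or.inr h)))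
    have n3 : z ∉ E3 := fun h => hn (Or.inl (Or.inr h))
    have n4 : z ∉ E4 := fun h => hn (Or.inr h)
    have ho : OpGood z := fun x => not_lt.1 fun h => n1 ⟨x, h⟩
    have hsp : ¬ SpreadBad z := fun h => n2 ⟨ho, h⟩
    obtain ⟨x, hx, hβ⟩ := central_param hu hs
    rcases hbad with ⟨k, hk⟩ | hb | ⟨k, hk⟩
    · refine n4 (Set.mem_iUnion.2 ⟨k, ?_⟩)
      exact det_loo hM k (hz k) hsp hμ hs.1 hx hβ (by nlinarith) (by rw [hlr]; exact hk)
    · have h1 := det_spread (by omega) ho hsp hδ x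
      have h2 : {k | |s k - μ| ≤ eS / 30 * (μ - 1)} =
          {k | |(mat z *ᵥ x) k - (μ - 1)| ≤ eS / 30 * (μ - 1)} := by
        ext k
        simp only [Set.mem_ofPred_eq, hx k]
        rw [show 1 + (mat z *ᵥ x) k - μ = (mat z *ᵥ x) k - (μ - 1) by ring]
      rw [h2, Fintype.card_fin] at hb
      omega
    · have h1 := det_lev (by omega) hd1 hu ho k
        (not_lt.1 fun h => n3 (Set.mem_iUnion.2 ⟨k, h⟩))
      linarith
  have b1 : gam (Fin M × Fin d) E1 ≤ _ := good_opnorm (by omega)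
  have b2 : gam (Fin M × Fin d) E2 ≤ _ := good_spread (by omega) hd2
  have b3 : gam (Fin M × Fin d) E3 ≤ _ := union_fin _ _ fun k => good_row k
  have b4 : gam (Fin M × Fin d) E4 ≤ _ := union_fin _ _ fun k =>
    good_loo (by omega) k (by linarith) hc hr (by positivity)
  set q : ℝ := Real.exp (-(c₀ * τ ^ 2)) with hq
  have hq0 : 0 < q := Real.exp_pos _
  have hM1' : (τ : ℝ) ^ 2 ≤ M := by exact_mod_cast hM1
  have hd1' : (M : ℝ) ≤ 4 * d := by exact_mod_cast hd1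
  have hcτ : c₀ * τ ^ 2 ≤ τ ^ 2 / 4 := by nlinarith [sq_nonneg (τ : ℝ)]
  have q1 : Real.exp (-(M : ℝ)) ≤ q := Real.exp_le_exp.2 (by linarith)
  have q3 : Real.exp (-(d : ℝ)) ≤ q := Real.exp_le_exp.2 (by linarith)
  have q4 : Real.exp (-l ^ 2 / 2) = q := by
    rw [hq, hl, hc₀]; congr 1; ring
  have hMe : (M : ℝ) ≤ Real.exp τ := by
    have h1 : (M : ℝ) ≤ 2 ^ τ := by exact_mod_cast hM2
    have h2 : (2 : ℝ) ≤ Real.exp 1 := by linarith [Real.add_one_le_exp (1 : ℝ)]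
    calc (M : ℝ) ≤ 2 ^ τ := h1
      _ ≤ Real.exp 1 ^ τ := pow_le_pow_left₀ (by norm_num) h2 _
      _ = Real.exp τ := by rw [← Real.exp_nat_mul]; simp
  have hfin : 4 * (M * q) ≤ Real.exp (-20 * (τ : ℝ)) := by
    have h1 : 23 / c₀ ≤ τ := hτ₁.trans (by exact_mod_cast (by omega : τ₁ ≤ τ))
    rw [div_le_iff₀ hc0] at h1
    have h2 : (4 : ℝ) ≤ Real.exp (2 * τ) := by linarith [Real.add_one_le_exp (2 * (τ : ℝ))]
    calc 4 * (M * q) ≤ Real.exp (2 * τ) * (Real.exp τ * q) := by gcongr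
      _ = Real.exp (3 * τ - c₀ * τ ^ 2) := by
          rw [hq, ← Real.exp_add, ← Real.exp_add]; congr 1; ring
      _ ≤ _ := Real.exp_le_exp.2 (by nlinarith)
  have hqM : q ≤ M * q := by nlinarith
  have c1 : gam (Fin M × Fin d) E1 ≤ ENNReal.ofReal (M * q) :=
    b1.trans (ENNReal.ofReal_le_ofReal (by linarith))
  have c2 : gam (Fin M × Fin d) E2 ≤ ENNReal.ofReal (M * q) :=
    b2.trans (ENNReal.ofReal_le_ofReal (by linarith))
  have c3 : gam (Fin M × Fin d) E3 ≤ ENNReal.ofReal (M * q) :=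
    b3.trans (ENNReal.ofReal_le_ofReal (by gcongr))
  have c4 : gam (Fin M × Fin d) E4 ≤ ENNReal.ofReal (M * q) := by rwa [q4] at b4
  have hp : 0 ≤ (M : ℝ) * q := by positivity
  calc _ ≤ gam (Fin M × Fin d) (E1 ∪ E2 ∪ E3 ∪ E4) := measure_mono_ae hsub
    _ ≤ gam (Fin M × Fin d) E1 + gam (Fin M × Fin d) E2 + gam (Fin M × Fin d) E3 +
          gam (Fin M × Fin d) E4 := by
        refine (measure_union_le _ _).trans ?_
        gcongr
        refine (measure_union_le _ _).trans ?_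
        gcongr
        exact measure_union_le _ _
    _ ≤ ENNReal.ofReal (M * q) + ENNReal.ofReal (M * q) + ENNReal.ofReal (M * q) +
          ENNReal.ofReal (M * q) := by gcongr
    _ = ENNReal.ofReal (4 * (M * q)) := by
        rw [← ENNReal.ofReal_add hp hp, ← ENNReal.ofReal_add (by linarith) hp,
          ← ENNReal.ofReal_add (by linarith) hp]
        congr 1; ring
    _ ≤ _ := ENNReal.ofReal_le_ofReal hfin

end Pool.Agent.P.MP_ef347d_lc
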