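import Pool.Agent.P.MP_ef347d_lc.Gauss
import Pool.Agent.P.MP_ef347d_lc.Path

/-! Volume trick, counting bound, operator norm of a Gaussian matrix. -/

namespace Pool.Agent.P.MP_ef347d_lc

open Matrix MeasureTheory ProbabilityTheory

namespace Good1

theorem vol_trick {Ω E : Type} [MeasurableSpace Ω] (μ : Measure Ω) [SFinite μ]
    [NormedAddCommGroup E] [NormedSpace ℝ E] [FiniteDimensional ℝ E] [MeasurableSpace E]
    [BorelSpace E] (S : Set (Ω × E)) (hS : MeasurableSet S) (p : ENNReal) {R r : ℝ}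
    (hr : 0 < r) (hR : 0 ≤ R) (hp : ∀ z : E, ‖z‖ ≤ R → μ {w | (w, z) ∈ S} ≤ p) :
    μ {w | ∃ x : E, ‖x‖ + r ≤ R ∧ ∀ z : E, ‖z - x‖ < r → (w, z) ∈ S} ≤
      p * ENNReal.ofReal ((R / r) ^ Module.finrank ℝ E) := by
  classical
  let ν : Measure E := (Module.finBasis ℝ E).addHaar
  set S' : Set (Ω × E) := S ∩ (Set.univ ×ˢ Metric.closedBall (0 : E) R) with hS'
  have hS'm : MeasurableSet S' :=
    hS.inter (MeasurableSet.univ.prod Metric.isClosed_closedBall.measurableSet)
  let f : Ω → ENNReal := fun w => ν (Prod.mk w ⁻¹' S')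
  have hf : Measurable f := measurable_measure_prodMk_left hS'm
  have h1 : ∫⁻ w, f w ∂μ ≤ p * ν (Metric.closedBall (0 : E) R) := by
    have e1 : ∫⁻ w, f w ∂μ = (μ.prod ν) S' := (Measure.prod_apply hS'm).symm
    rw [e1, Measure.prod_apply_symm hS'm]
    calc ∫⁻ z, μ ((fun w => (w, z)) ⁻¹' S') ∂ν
        ≤ ∫⁻ z, (Metric.closedBall (0 : E) R).indicator (fun _ => p) z ∂ν := by
          refine lintegral_mono fun z => ?_
          by_cases hz : z ∈ Metric.closedBall (0 : E) R
          · rw [Set.indicator_of_mem hz]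
            refine le_trans (measure_mono ?_) (hp z (by simpa using hz))
            intro w hw
            exact hw.1
          · rw [Set.indicator_of_notMem hz]
            have : (fun w => (w, z)) ⁻¹' S' = ∅ := by
              ext w
              simp only [hS', Set.mem_preimage, Set.mem_inter_iff, Set.mem_prod, Set.mem_univ,
                true_and, Set.mem_empty_iff_false, iff_false, not_and]
              exact fun _ => hz
            rw [this]
            simp
      _ = p * ν (Metric.closedBall (0 : E) R) := by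
          rw [lintegral_indicator_const Metric.isClosed_closedBall.measurableSet]
  set b : ENNReal := ν (Metric.ball (0 : E) 1) with hb
  have hb0 : b ≠ 0 := (Metric.measure_ball_pos ν _ one_pos).ne'
  have hbt : b ≠ ⊤ := measure_ball_lt_top.ne
  set c : ENNReal := ENNReal.ofReal (r ^ Module.finrank ℝ E) * b with hc
  have hc0 : c ≠ 0 := mul_ne_zero (by simpa using pow_pos hr _) hb0
  have hct : c ≠ ⊤ := ENNReal.mul_ne_top ENNReal.ofReal_ne_top hbt
  have h2 : {w | ∃ x : E, ‖x‖ + r ≤ R ∧ ∀ z : E, ‖z - x‖ < r → (w, z) ∈ S} ⊆ {w | c ≤ f w} := by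
    rintro w ⟨x, hx, hw⟩
    have : Metric.ball x r ⊆ Prod.mk w ⁻¹' S' := by
      intro z hz
      have hz' : ‖z - x‖ < r := by simpa [dist_eq_norm] using hz
      refine ⟨hw z hz', Set.mem_univ _, ?_⟩
      have : ‖z‖ ≤ ‖x‖ + ‖z - x‖ := by
        calc ‖z‖ = ‖x + (z - x)‖ := by congr 1; abel
          _ ≤ _ := norm_add_le _ _
      simp only [Metric.mem_closedBall, dist_zero_right]
      linarith
    have h3 := measure_mono (μ := ν) this
    rw [Measure.addHaar_ball_of_pos ν x hr] at h3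
    exact h3
  have h4 := (mul_meas_ge_le_lintegral (μ := μ) hf c).trans h1
  rw [Measure.addHaar_closedBall ν _ hR] at h4
  refine (measure_mono h2).trans ?_
  have h5 : p * (ENNReal.ofReal (R ^ Module.finrank ℝ E) * b) =
      c * (p * ENNReal.ofReal ((R / r) ^ Module.finrank ℝ E)) := by
    have : R ^ Module.finrank ℝ E = r ^ Module.finrank ℝ E * (R / r) ^ Module.finrank ℝ E := by
      rw [← mul_pow]
      congr 1
      field_simp
    rw [this, ENNReal.ofReal_mul (pow_pos hr _).le, hc]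
    ring
  rw [← hb, h5] at h4
  exact (ENNReal.mul_le_mul_iff_right hc0 hct).1 h4

theorem gauss_Icc (a η : ℝ) : gaussianReal 0 1 (Set.Icc a (a + η)) ≤ ENNReal.ofReal η := by
  rw [gaussianReal_of_var_ne_zero _ one_ne_zero, withDensity_apply _ measurableSet_Icc]
  calc ∫⁻ x in Set.Icc a (a + η), gaussianPDF 0 1 x ≤ ∫⁻ _ in Set.Icc a (a + η), 1 := by
        refine lintegral_mono fun x => ?_
        rw [gaussianPDF, ENNReal.ofReal_le_one, gaussianPDFReal]
        have h1 : (√(2 * Real.pi * ((1 : NNReal) : ℝ)))⁻¹ ≤ 1 := by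
          apply inv_le_one_of_one_le₀
          rw [Real.one_le_sqrt]
          have := Real.pi_gt_three
          simp only [NNReal.coe_one]
          linarith
        have h2 : Real.exp (-(x - 0) ^ 2 / (2 * ((1 : NNReal) : ℝ))) ≤ 1 := by
          rw [Real.exp_le_one_iff]
          simp only [NNReal.coe_one]
          have := sq_nonneg (x - 0)
          linarith
        exact mul_le_one₀ h1 (Real.exp_pos _).le h2
    _ = ENNReal.ofReal η := by simp

theorem count_bound {ι : Type} [Fintype ι] (I : Set ℝ) (p : ENNReal)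
    (hp : gaussianReal 0 1 I ≤ p) (hp1 : p ≤ 1) (m : ℕ) :
    gam ι {g | m ≤ {k | g k ∈ I}.ncard} ≤ 2 ^ Fintype.card ι * p ^ m := by
  classical
  have h1 : {g : ι → ℝ | m ≤ {k | g k ∈ I}.ncard} ⊆
      ⋃ T ∈ (Finset.univ.filter fun T : Finset ι => m ≤ T.card),
        Set.univ.pi fun k => if k ∈ T then I else Set.univ := by
    intro g hg
    simp only [Set.mem_iUnion]
    refine ⟨Finset.univ.filter fun k => g k ∈ I, ?_, ?_⟩
    · simp only [Finset.mem_filter, Finset.mem_univ, true_and]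
      have : {k | g k ∈ I} = ((Finset.univ.filter fun k => g k ∈ I : Finset ι) : Set ι) := by
        ext k; simp
      simp only [Set.mem_ofPred_eq] at hg
      rwa [this, Set.ncard_coe_finset] at hg
    · intro k _
      by_cases hk : g k ∈ I <;> simp [hk]
  refine (measure_mono h1).trans ((measure_biUnion_finset_le _ _).trans ?_)
  calc ∑ T ∈ (Finset.univ.filter fun T : Finset ι => m ≤ T.card),
        gam ι (Set.univ.pi fun k => if k ∈ T then I else Set.univ)
      ≤ ∑ _T ∈ (Finset.univ.filter fun T : Finset ι => m ≤ T.card), p ^ m := by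
        refine Finset.sum_le_sum fun T hT => ?_
        rw [Measure.pi_pi]
        have hT' : m ≤ T.card := (Finset.mem_filter.1 hT).2
        calc ∏ k, gaussianReal 0 1 (if k ∈ T then I else Set.univ)
            ≤ ∏ k, (if k ∈ T then p else 1) := by
              refine Finset.prod_le_prod' fun k _ => ?_
              split_ifs
              · exact hp
              · simp
          _ = p ^ T.card := by
              rw [Finset.prod_ite_mem]
              simp
          _ ≤ p ^ m := pow_le_pow_right_of_le_one' hp1 hT'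
    _ ≤ 2 ^ Fintype.card ι * p ^ m := by
        rw [Finset.sum_const, nsmul_eq_mul]
        gcongr
        have : (Finset.univ.filter fun T : Finset ι => m ≤ T.card).card ≤ 2 ^ Fintype.card ι := by
          refine (Finset.card_filter_le _ _).trans ?_
          simp
        exact_mod_cast this

theorem dot_self_eq {ι : Type} [Fintype ι] (x : EuclideanSpace ℝ ι) :
    x.ofLp ⬝ᵥ x.ofLp = ‖x‖ ^ 2 := by
  rw [EuclideanSpace.real_norm_sq_eq]
  simp [dotProduct, sq]

theorem dot_eq_inner {ι : Type} [Fintype ι] (x y : EuclideanSpace ℝ ι) :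
    x.ofLp ⬝ᵥ y.ofLp = inner ℝ x y := by
  rw [EuclideanSpace.inner_eq_star_dotProduct, dotProduct_comm]
  simp

/-- a matrix as a continuous linear map of Euclidean spaces -/
noncomputable def clm {ι κ : Type} [Fintype ι] [Fintype κ] [DecidableEq κ] (A : Matrix ι κ ℝ) :
    EuclideanSpace ℝ κ →L[ℝ] EuclideanSpace ℝ ι :=
  LinearMap.toContinuousLinearMap (Matrix.toLpLin 2 2 A)

theorem clm_apply {ι κ : Type} [Fintype ι] [Fintype κ] [DecidableEq κ] (A : Matrix ι κ ℝ)
    (x : EuclideanSpace ℝ κ) : (clm A x).ofLp = A *ᵥ x.ofLp := rfl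

theorem bil_eq {ι κ : Type} [Fintype ι] [Fintype κ] (z : ι × κ → ℝ) (x : κ → ℝ) (y : ι → ℝ) :
    (fun p : ι × κ => y p.1 * x p.2) ⬝ᵥ z = y ⬝ᵥ (mat z *ᵥ x) := by
  simp only [dotProduct, mulVec, mat, Matrix.of_apply, Fintype.sum_prod_type, Finset.mul_sum]
  refine Finset.sum_congr rfl fun i _ => Finset.sum_congr rfl fun j _ => by ring

theorem bil_self {ι κ : Type} [Fintype ι] [Fintype κ] (x : κ → ℝ) (y : ι → ℝ) :
    (fun p : ι × κ => y p.1 * x p.2) ⬝ᵥ (fun p : ι × κ => y p.1 * x p.2) = (y ⬝ᵥ y) * (x ⬝ᵥ x) := by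
  simp only [dotProduct, Fintype.sum_prod_type, Finset.sum_mul_sum]
  refine Finset.sum_congr rfl fun i _ => Finset.sum_congr rfl fun j _ => by ring

theorem opnorm_ball {ι κ : Type} [Fintype ι] [Fintype κ] [DecidableEq κ] (A : Matrix ι κ ℝ)
    {c : ℝ} (hc : 0 ≤ c) (h : ∃ x, 100 * c ^ 2 * (x ⬝ᵥ x) < (A *ᵥ x) ⬝ᵥ (A *ᵥ x)) :
    ∃ q : EuclideanSpace ℝ κ × EuclideanSpace ℝ ι, ‖q‖ + 1 / 10 ≤ 11 / 10 ∧
      ∀ q' : EuclideanSpace ℝ κ × EuclideanSpace ℝ ι, ‖q' - q‖ < 1 / 10 →
        4 * c * (11 / 10) ^ 2 ≤ q'.2.ofLp ⬝ᵥ (A *ᵥ q'.1.ofLp) := by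
  obtain ⟨x₀, hx₀⟩ := h
  set T := clm A with hT
  have hL : 10 * c < ‖T‖ := by
    by_contra hn
    push Not at hn
    have h1 := T.le_opNorm (WithLp.toLp 2 x₀)
    have h2 := dot_self_eq (T (WithLp.toLp 2 x₀))
    have h3 := dot_self_eq (WithLp.toLp 2 x₀)
    rw [hT, clm_apply] at h2
    simp only at h2 h3
    rw [h2, h3] at hx₀
    have h4 : ‖T (WithLp.toLp 2 x₀)‖ ≤ 10 * c * ‖WithLp.toLp 2 x₀‖ :=
      h1.trans (mul_le_mul_of_nonneg_right hn (norm_nonneg _))
    have h5 := pow_le_pow_left₀ (norm_nonneg _) h4 2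
    rw [← hT] at hx₀
    nlinarith
  have hL0 : 0 < ‖T‖ := by linarith
  obtain ⟨x, hx1, hx⟩ := T.exists_lt_apply_of_lt_opNorm (r := 9 / 10 * ‖T‖) (by linarith)
  have hTx : 0 < ‖T x‖ := by linarith
  set y : EuclideanSpace ℝ ι := ‖T x‖⁻¹ • T x with hy
  have hy1 : ‖y‖ = 1 := by
    rw [hy, norm_smul, norm_inv, norm_norm, inv_mul_cancel₀ hTx.ne']
  have hyx : inner ℝ y (T x) = ‖T x‖ := by
    rw [hy, real_inner_smul_left, real_inner_self_eq_norm_sq]
    field_simp
  refine ⟨(x, y), ?_, ?_⟩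
  · have : ‖(x, y)‖ ≤ 1 := by
      rw [Prod.norm_def]
      exact max_le hx1.le hy1.le
    linarith
  · rintro ⟨x', y'⟩ hq
    rw [Prod.norm_def, max_lt_iff] at hq
    obtain ⟨hq1, hq2⟩ := hq
    simp only [Prod.fst_sub, Prod.snd_sub] at hq1 hq2
    simp only
    rw [← clm_apply, dot_eq_inner, ← hT]
    have e : inner ℝ y' (T x') = inner ℝ y (T x) + inner ℝ (y' - y) (T x) +
        inner ℝ y' (T (x' - x)) := by
      rw [map_sub, inner_sub_left, inner_sub_right]
      ring
    have hy' : ‖y'‖ ≤ 11 / 10 := by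
      calc ‖y'‖ = ‖y + (y' - y)‖ := by congr 1; abel
        _ ≤ ‖y‖ + ‖y' - y‖ := norm_add_le _ _
        _ ≤ 11 / 10 := by linarith
    have b1 : |inner ℝ (y' - y) (T x)| ≤ 1 / 10 * ‖T‖ := by
      refine (abs_real_inner_le_norm _ _).trans ?_
      have : ‖T x‖ ≤ ‖T‖ := by
        refine (T.le_opNorm x).trans ?_
        nlinarith
      exact mul_le_mul hq2.le this (norm_nonneg _) (by norm_num)
    have b2 : |inner ℝ y' (T (x' - x))| ≤ 11 / 10 * (‖T‖ * (1 / 10)) := by
      refine (abs_real_inner_le_norm _ _).trans ?_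
      have : ‖T (x' - x)‖ ≤ ‖T‖ * (1 / 10) :=
        (T.le_opNorm _).trans (mul_le_mul_of_nonneg_left hq1.le hL0.le)
      exact mul_le_mul hy' this (norm_nonneg _) (by norm_num)
    rw [e, hyx]
    have := abs_le.1 b1
    have := abs_le.1 b2
    nlinarith

theorem continuous_bil {ι κ : Type} [Fintype ι] [Fintype κ] :
    Continuous fun q : (ι × κ → ℝ) × (EuclideanSpace ℝ κ × EuclideanSpace ℝ ι) =>
      q.2.2.ofLp ⬝ᵥ (mat q.1 *ᵥ q.2.1.ofLp) := by
  simp only [dotProduct, mulVec, mat, Matrix.of_apply]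
  fun_prop

end Good1

open Good1

/-- GOOD1: operator norm (volume trick) -/
theorem good_opnorm {M d : ℕ} (h : d ≤ M) :
    gam (Fin M × Fin d) {z | ∃ x, 100 * (M : ℝ) * (x ⬝ᵥ x) < (mat z *ᵥ x) ⬝ᵥ (mat z *ᵥ x)} ≤
      ENNReal.ofReal (Real.exp (-(M : ℝ))) := by
  set c : ℝ := √(M : ℝ) with hc
  have hc0 : 0 ≤ c := Real.sqrt_nonneg _
  have hc2 : c ^ 2 = M := Real.sq_sqrt (Nat.cast_nonneg _)
  let S : Set ((Fin M × Fin d → ℝ) × (EuclideanSpace ℝ (Fin d) × EuclideanSpace ℝ (Fin M))) :=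
    {q | 4 * c * (11 / 10) ^ 2 ≤ q.2.2.ofLp ⬝ᵥ (mat q.1 *ᵥ q.2.1.ofLp)}
  have hS : MeasurableSet S := (isClosed_le continuous_const continuous_bil).measurableSet
  have key := vol_trick (gam (Fin M × Fin d)) S hS
    (ENNReal.ofReal (Real.exp (-(4 * c) ^ 2 / 2))) (R := 11 / 10) (r := 1 / 10) (by norm_num)
    (by norm_num) (by
      rintro ⟨x, y⟩ hq
      rw [Prod.norm_def, max_le_iff] at hq
      have := gam_tail (fun p : Fin M × Fin d => y.ofLp p.1 * x.ofLp p.2) ((11 / 10) ^ 2) (4 * c)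
        (by
          rw [bil_self, dot_self_eq, dot_self_eq]
          have h1 := pow_le_pow_left₀ (norm_nonneg _) hq.1 2
          have h2 := pow_le_pow_left₀ (norm_nonneg _) hq.2 2
          calc ‖y‖ ^ 2 * ‖x‖ ^ 2 ≤ (11 / 10) ^ 2 * (11 / 10) ^ 2 :=
                mul_le_mul h2 h1 (by positivity) (by positivity)
            _ = _ := by ring) (by norm_num) (by positivity)
      simp only [bil_eq] at this
      exact this)
  refine le_trans (measure_mono ?_) (key.trans ?_)
  · intro z hz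
    exact opnorm_ball (mat z) hc0 (by rwa [hc2])
  · rw [← ENNReal.ofReal_mul (Real.exp_pos _).le]
    apply ENNReal.ofReal_le_ofReal
    have e1 : Module.finrank ℝ (EuclideanSpace ℝ (Fin d) × EuclideanSpace ℝ (Fin M)) = d + M := by
      simp
    have e2 : ((11 / 10 : ℝ) / (1 / 10)) = 11 := by norm_num
    rw [e1, e2]
    have h1 : (11 : ℝ) ≤ Real.exp 3 := by
      have := Real.add_one_le_exp (3 / 4 : ℝ)
      have h4 : Real.exp 3 = Real.exp (3 / 4) ^ 4 := by
        rw [← Real.exp_nat_mul]; norm_num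
      have h5 : Real.exp (3 / 4 : ℝ) = Real.exp (3 / 8) ^ 2 := by
        rw [← Real.exp_nat_mul]; norm_num
      have := Real.add_one_le_exp (3 / 8 : ℝ)
      have h6 : (11 / 8 : ℝ) ^ 2 ≤ Real.exp (3 / 8) ^ 2 :=
        pow_le_pow_left₀ (by norm_num) (by linarith) 2
      have h7 : ((11 / 8 : ℝ) ^ 2) ^ 4 ≤ Real.exp (3 / 4) ^ 4 :=
        pow_le_pow_left₀ (by norm_num) (by rw [h5]; exact h6) 4
      rw [h4]
      refine le_trans (by norm_num) h7
    have h2 : (11 : ℝ) ^ (d + M) ≤ Real.exp (6 * M) := by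
      calc (11 : ℝ) ^ (d + M) ≤ 11 ^ (2 * M) := pow_le_pow_right₀ (by norm_num) (by omega)
        _ ≤ Real.exp 3 ^ (2 * M) := pow_le_pow_left₀ (by norm_num) h1 _
        _ = Real.exp (6 * M) := by
          rw [← Real.exp_nat_mul]; congr 1; push_cast; ring
    calc Real.exp (-(4 * c) ^ 2 / 2) * 11 ^ (d + M)
        ≤ Real.exp (-(4 * c) ^ 2 / 2) * Real.exp (6 * M) :=
          mul_le_mul_of_nonneg_left h2 (Real.exp_pos _).le
      _ ≤ Real.exp (-(M : ℝ)) := by
          rw [← Real.exp_add, Real.exp_le_exp]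
          have : (0 : ℝ) ≤ M := Nat.cast_nonneg _
          nlinarith

end Pool.Agent.P.MP_ef347d_lc
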