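import Pool.Agent.P.MP_ef347d_lc.Good1a

/-! Spread and leverage bounds for a Gaussian matrix. -/

namespace Pool.Agent.P.MP_ef347d_lc

open Matrix MeasureTheory ProbabilityTheory

namespace Good1

theorem ncard_eq_sum {ι : Type} [Fintype ι] (P : ι → Prop) [DecidablePred P] :
    {k | P k}.ncard = ∑ k, if P k then 1 else 0 := by
  have : {k | P k} = ((Finset.univ.filter P : Finset ι) : Set ι) := by
    ext k; simp
  rw [this, Set.ncard_coe_finset, Finset.card_filter]

theorem measurable_ncard {ι α : Type} [Fintype ι] [MeasurableSpace α] (P : ι → α → Prop)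
    (h : ∀ k, MeasurableSet {a | P k a}) : Measurable fun a => {k | P k a}.ncard := by
  classical
  simp only [ncard_eq_sum]
  exact Finset.measurable_sum _ fun k _ => Measurable.ite (h k) measurable_const measurable_const

theorem ncard_mul_le {ι : Type} [Fintype ι] (P : ι → Prop) (f : ι → ℝ) (c : ℝ)
    (hf : ∀ k, 0 ≤ f k) (h : ∀ k, P k → c ≤ f k) : ({k | P k}.ncard : ℝ) * c ≤ ∑ k, f k := by
  classical
  rw [ncard_eq_sum, Nat.cast_sum, Finset.sum_mul]
  refine Finset.sum_le_sum fun k _ => ?_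
  by_cases hk : P k
  · simpa [hk] using h k hk
  · simpa [hk] using hf k

theorem ncard_not {ι : Type} [Fintype ι] (P : ι → Prop) :
    {k | P k}.ncard + {k | ¬ P k}.ncard = Fintype.card ι := by
  have := Set.ncard_add_ncard_compl {k | P k}
  rw [Nat.card_eq_fintype_card] at this
  exact this

theorem mulVec_mp {ι κ : Type} [Fintype ι] [Fintype κ] (x : κ → ℝ) (hx : x ⬝ᵥ x = 1) :
    MeasurePreserving (fun z : ι × κ → ℝ => mat z *ᵥ x) (gam (ι × κ)) (gam ι) := by
  let f : (ι × κ → ℝ) →ₗ[ℝ] (ι → ℝ) :=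
    { toFun := fun z => mat z *ᵥ x
      map_add' := fun z w => by
        ext i; simp [mat, mulVec, dotProduct, add_mul, Finset.sum_add_distrib]
      map_smul' := fun c z => by
        ext i; simp [mat, mulVec, dotProduct, Finset.mul_sum, mul_assoc] }
  refine gam_map f (fun w p => w p.1 * x p.2) (fun z w => ?_) (fun w => ?_)
  · rw [dotProduct_comm z, bil_eq, dotProduct_comm]
    rfl
  · rw [bil_self, hx, mul_one]

theorem comp_mp {ι κ : Type} [Fintype ι] [Fintype κ] (e : κ → ι) (he : Function.Injective e) :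
    MeasurePreserving (fun z : ι → ℝ => fun j => z (e j)) (gam ι) (gam κ) := by
  have key : ∀ (z : ι → ℝ) (w : κ → ℝ),
      (fun j => z (e j)) ⬝ᵥ w = z ⬝ᵥ Function.extend e w 0 := by
    intro z w
    refine Fintype.sum_of_injective e he _ _ (fun i hi => ?_) (fun j => ?_)
    · rw [Function.extend_apply' _ _ _ hi]; simp
    · rw [he.extend_apply]
  refine gam_map (LinearMap.funLeft ℝ ℝ e) (fun w => Function.extend e w 0) (fun z w => key z w)
    (fun w => ?_)
  rw [← key]
  simp [he.extend_apply]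

/-- the operator norm bound -/
def OpGood {M d : ℕ} (z : Fin M × Fin d → ℝ) : Prop :=
  ∀ x, (mat z *ᵥ x) ⬝ᵥ (mat z *ᵥ x) ≤ 100 * (M : ℝ) * (x ⬝ᵥ x)

/-- the spread constant -/
noncomputable def eS : ℝ := (1 / 50) ^ 40

theorem eS_pos : 0 < eS := by unfold eS; positivity

theorem eS_le : eS ≤ 1 / 1000000 := by
  unfold eS
  calc ((1 : ℝ) / 50) ^ 40 ≤ (1 / 50) ^ 4 := pow_le_pow_of_le_one (by norm_num) (by norm_num) (by norm_num)
    _ ≤ _ := by norm_num

/-- failure of the spread property -/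
def SpreadBad {M d : ℕ} (z : Fin M × Fin d → ℝ) : Prop :=
  ∃ (x : Fin d → ℝ) (u : ℝ), x ⬝ᵥ x = 1 ∧ |u| ≤ 30 ∧
    15 * M ≤ 16 * {k | |(mat z *ᵥ x) k - u| ≤ eS}.ncard

theorem spread_ball {M d : ℕ} {z : Fin M × Fin d → ℝ} (h1 : OpGood z) (h2 : SpreadBad z) :
    ∃ q : EuclideanSpace ℝ (Fin d) × ℝ, ‖q‖ + eS / 40 ≤ 31 ∧
      ∀ q' : EuclideanSpace ℝ (Fin d) × ℝ, ‖q' - q‖ < eS / 40 → 1 / 2 ≤ ‖q'.1‖ ∧
        (7 * M + 7) / 8 ≤ {k | |(mat z *ᵥ q'.1.ofLp) k - q'.2| ≤ 3 * eS}.ncard := by
  obtain ⟨x, u, hx, hu, hc⟩ := h2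
  have e0 := eS_pos
  have e1 := eS_le
  set X : EuclideanSpace ℝ (Fin d) := WithLp.toLp 2 x with hX
  have hX1 : ‖X‖ = 1 := by
    have := dot_self_eq X
    simp only [hX] at this
    rw [hx] at this
    have h0 := norm_nonneg X
    nlinarith
  refine ⟨(X, u), ?_, ?_⟩
  · have : ‖(X, u)‖ ≤ 30 := by
      rw [Prod.norm_def]
      exact max_le (by simp only [hX1]; norm_num) (by simpa using hu)
    linarith
  · rintro ⟨x', u'⟩ hq
    rw [Prod.norm_def, max_lt_iff] at hq
    obtain ⟨hq1, hq2⟩ := hq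
    simp only [Prod.fst_sub, Prod.snd_sub, Real.norm_eq_abs] at hq1 hq2
    refine ⟨?_, ?_⟩
    · have : ‖X‖ ≤ ‖x'‖ + ‖x' - X‖ := by
        calc ‖X‖ = ‖x' - (x' - X)‖ := by congr 1; abel
          _ ≤ _ := norm_sub_le _ _
      simp only
      linarith
    · simp only
      set v := mat z *ᵥ (x' - X).ofLp with hv
      have hvv : v ⬝ᵥ v ≤ M * eS ^ 2 / 16 := by
        refine (h1 _).trans ?_
        rw [dot_self_eq]
        have h3 := pow_le_pow_left₀ (norm_nonneg _) hq1.le 2
        have h4 : (0 : ℝ) ≤ M := Nat.cast_nonneg _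
        nlinarith
      have hB := ncard_mul_le (fun k => eS < |v k|) (fun k => v k * v k) (eS ^ 2)
        (fun k => mul_self_nonneg _) (fun k hk => by
          have := pow_le_pow_left₀ e0.le hk.le 2
          rw [sq_abs] at this
          nlinarith)
      have hB' : 16 * {k | eS < |v k|}.ncard ≤ M := by
        have h5 : ({k | eS < |v k|}.ncard : ℝ) * eS ^ 2 ≤ M * eS ^ 2 / 16 := hB.trans hvv
        have h6 : 16 * ({k | eS < |v k|}.ncard : ℝ) ≤ M := by
          have : 0 < eS ^ 2 := by positivity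
          nlinarith
        exact_mod_cast h6
      have hsub : {k | |(mat z *ᵥ x) k - u| ≤ eS} ⊆
          {k | |(mat z *ᵥ x'.ofLp) k - u'| ≤ 3 * eS} ∪ {k | eS < |v k|} := by
        intro k hk
        by_cases hk' : eS < |v k|
        · exact Or.inr hk'
        · left
          push Not at hk'
          have hvk : v k = (mat z *ᵥ x'.ofLp) k - (mat z *ᵥ x) k := by
            rw [hv, WithLp.ofLp_sub, mulVec_sub]
            rfl
          simp only [Set.mem_ofPred_eq] at hk ⊢
          rw [hvk] at hk'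
          rw [abs_le] at hk hk' ⊢
          rw [abs_lt] at hq2
          constructor <;> linarith [hk.1, hk.2, hk'.1, hk'.2, hq2.1, hq2.2]
      have h7 := (Set.ncard_le_ncard hsub (Set.toFinite _)).trans (Set.ncard_union_le _ _)
      omega

theorem good_spread {M d : ℕ} (hM : 20 ≤ M) (hd : 4 * d ≤ 3 * M) :
    gam (Fin M × Fin d) {z | OpGood z ∧ SpreadBad z} ≤ ENNReal.ofReal (Real.exp (-(M : ℝ))) := by
  have e0 := eS_pos
  have e1 := eS_le
  set m : ℕ := (7 * M + 7) / 8 with hm
  let S : Set ((Fin M × Fin d → ℝ) × (EuclideanSpace ℝ (Fin d) × ℝ)) :=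
    {q | 1 / 2 ≤ ‖q.2.1‖ ∧ m ≤ {k | |(mat q.1 *ᵥ q.2.1.ofLp) k - q.2.2| ≤ 3 * eS}.ncard}
  have hS : MeasurableSet S := by
    have hc : Continuous fun q : (Fin M × Fin d → ℝ) × (EuclideanSpace ℝ (Fin d) × ℝ) =>
        ‖q.2.1‖ := by fun_prop
    refine MeasurableSet.inter (isClosed_le continuous_const hc).measurableSet ?_
    refine measurableSet_le measurable_const (measurable_ncard
      (fun k (q : (Fin M × Fin d → ℝ) × (EuclideanSpace ℝ (Fin d) × ℝ)) =>
        |(mat q.1 *ᵥ q.2.1.ofLp) k - q.2.2| ≤ 3 * eS) fun k => ?_)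
    refine (isClosed_le ?_ continuous_const).measurableSet
    simp only [dotProduct, mulVec, mat, Matrix.of_apply]
    fun_prop
  have key := vol_trick (gam (Fin M × Fin d)) S hS
    (2 ^ M * ENNReal.ofReal (12 * eS) ^ m) (R := 31) (r := eS / 40) (by positivity)
    (by norm_num) (by
      rintro ⟨x, u⟩ -
      by_cases hx : 1 / 2 ≤ ‖x‖
      · have hx0 : 0 < ‖x‖ := by linarith
        set x1 : Fin d → ℝ := ‖x‖⁻¹ • x.ofLp with hx1
        have hx2 : x1 ⬝ᵥ x1 = 1 := by
          rw [hx1, smul_dotProduct, dotProduct_smul, dot_self_eq]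
          simp only [smul_eq_mul]
          field_simp
        set a : ℝ := (u - 3 * eS) / ‖x‖ with ha
        have h1 := count_bound (ι := Fin M) (Set.Icc a (a + 12 * eS)) _ (gauss_Icc a (12 * eS))
          (by rw [ENNReal.ofReal_le_one]; linarith) m
        rw [Fintype.card_fin, ← (mulVec_mp x1 hx2).measure_preimage] at h1
        · refine le_trans (measure_mono ?_) h1
          intro w hw
          refine hw.2.trans (Set.ncard_le_ncard (fun k hk => ?_) (Set.toFinite _))
          simp only [Set.mem_ofPred_eq] at hk ⊢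
          rw [hx1, mulVec_smul, Pi.smul_apply, smul_eq_mul, abs_le] at *
          have h3 : 6 * eS / ‖x‖ ≤ 12 * eS := by
            rw [div_le_iff₀ hx0]; nlinarith
          constructor
          · rw [ha, inv_mul_eq_div]
            exact div_le_div_of_nonneg_right (by linarith [hk.1]) hx0.le
          · rw [ha, inv_mul_eq_div]
            calc _ ≤ (u + 3 * eS) / ‖x‖ := div_le_div_of_nonneg_right (by linarith [hk.2]) hx0.le
              _ = (u - 3 * eS) / ‖x‖ + 6 * eS / ‖x‖ := by ring
              _ ≤ _ := by linarith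
        · exact (measurableSet_le measurable_const (measurable_ncard
            (fun k (g : Fin M → ℝ) => g k ∈ Set.Icc a (a + 12 * eS)) fun k =>
              measurableSet_Icc.preimage (measurable_pi_apply k))).nullMeasurableSet
      · have : {w | (w, (x, u)) ∈ S} = ∅ := by
          ext w
          simp only [S, Set.mem_ofPred_eq, Set.mem_empty_iff_false, iff_false, not_and]
          exact fun h => absurd h hx
        rw [this]
        simp)
  refine le_trans (measure_mono ?_) (key.trans ?_)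
  · intro z hz
    exact spread_ball hz.1 hz.2
  · have e2 : (2 : ENNReal) ^ M = ENNReal.ofReal (2 ^ M) := by
      rw [ENNReal.ofReal_pow (by norm_num)]; simp
    rw [e2, ← ENNReal.ofReal_pow (by positivity), ← ENNReal.ofReal_mul (by positivity),
      ← ENNReal.ofReal_mul (by positivity)]
    apply ENNReal.ofReal_le_ofReal
    have e3 : Module.finrank ℝ (EuclideanSpace ℝ (Fin d) × ℝ) = d + 1 := by simp
    have e4 : (31 / (eS / 40) : ℝ) = 1240 * 50 ^ 40 := by
      unfold eS
      rw [one_div, inv_pow]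
      field_simp
      norm_num
    rw [e3, e4]
    have b1 : (12 * eS) ^ m ≤ 12 ^ M * ((1 / 50 : ℝ) ^ 35) ^ M := by
      rw [mul_pow, eS, ← pow_mul, ← pow_mul]
      exact mul_le_mul (pow_le_pow_right₀ (by norm_num) (by omega))
        (pow_le_pow_of_le_one (by norm_num) (by norm_num) (by omega)) (by positivity)
        (by positivity)
    have b2 : ((1240 : ℝ) * 50 ^ 40) ^ (d + 1) ≤ 1240 ^ M * (50 ^ 32) ^ M := by
      rw [mul_pow, ← pow_mul, ← pow_mul]
      exact mul_le_mul (pow_le_pow_right₀ (by norm_num) (by omega))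
        (pow_le_pow_right₀ (by norm_num) (by omega)) (by positivity) (by positivity)
    calc (2 : ℝ) ^ M * (12 * eS) ^ m * (1240 * 50 ^ 40) ^ (d + 1)
        ≤ 2 ^ M * (12 ^ M * ((1 / 50 : ℝ) ^ 35) ^ M) * (1240 ^ M * (50 ^ 32) ^ M) := by
          gcongr
      _ = (2 * 12 * (1 / 50 : ℝ) ^ 35 * 1240 * 50 ^ 32) ^ M := by
          simp only [mul_pow]; ring
      _ ≤ Real.exp (-1) ^ M := by
          refine pow_le_pow_left₀ (by positivity) ?_ _
          have := Real.exp_neg_one_gt_d9
          norm_num at this ⊢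
          linarith
      _ = Real.exp (-(M : ℝ)) := by
          rw [← Real.exp_nat_mul]; simp

theorem good_row {M d : ℕ} (k : Fin M) :
    gam (Fin M × Fin d) {z | (fun j => z (k, j)) ⬝ᵥ (fun j => z (k, j)) < d / 20000} ≤
      ENNReal.ofReal (Real.exp (-(d : ℝ))) := by
  set m : ℕ := (d + 1) / 2 with hm
  have h1 := count_bound (ι := Fin d) (Set.Icc (-1 / 72) (-1 / 72 + 1 / 36)) _
    (gauss_Icc (-1 / 72) (1 / 36)) (by rw [ENNReal.ofReal_le_one]; norm_num) m
  rw [Fintype.card_fin, ← (comp_mp (fun j : Fin d => (k, j))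
    (fun a b h => (Prod.ext_iff.1 h).2)).measure_preimage] at h1
  · refine le_trans (measure_mono ?_) (h1.trans ?_)
    · intro z hz
      simp only [Set.mem_ofPred_eq, Set.mem_preimage] at hz ⊢
      have h2 := ncard_not fun j => z (k, j) ∈ Set.Icc (-1 / 72 : ℝ) (-1 / 72 + 1 / 36)
      have h3 := ncard_mul_le (fun j => ¬ z (k, j) ∈ Set.Icc (-1 / 72 : ℝ) (-1 / 72 + 1 / 36))
        (fun j => z (k, j) * z (k, j)) (1 / 72 ^ 2) (fun j => mul_self_nonneg _) (fun j hj => by
          rw [Set.mem_Icc, not_and_or] at hj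
          rcases hj with hj | hj <;> push Not at hj <;> nlinarith)
      rw [Fintype.card_fin] at h2
      have h4 : (2 : ℝ) *
          {j | ¬ z (k, j) ∈ Set.Icc (-1 / 72 : ℝ) (-1 / 72 + 1 / 36)}.ncard < d := by
        unfold dotProduct at hz
        have : (0 : ℝ) ≤ d := Nat.cast_nonneg _
        nlinarith
      have h5 : 2 * {j | ¬ z (k, j) ∈ Set.Icc (-1 / 72 : ℝ) (-1 / 72 + 1 / 36)}.ncard < d := by
        exact_mod_cast h4
      omega
    · have e2 : (2 : ENNReal) ^ d = ENNReal.ofReal (2 ^ d) := by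
        rw [ENNReal.ofReal_pow (by norm_num)]; simp
      rw [e2, ← ENNReal.ofReal_pow (by positivity), ← ENNReal.ofReal_mul (by positivity)]
      apply ENNReal.ofReal_le_ofReal
      have b1 : ((1 : ℝ) / 36) ^ m ≤ (1 / 6) ^ d := by
        calc ((1 : ℝ) / 36) ^ m = (1 / 6) ^ (2 * m) := by rw [pow_mul]; norm_num
          _ ≤ _ := pow_le_pow_of_le_one (by norm_num) (by norm_num) (by omega)
      calc (2 : ℝ) ^ d * (1 / 36) ^ m ≤ 2 ^ d * (1 / 6) ^ d := by gcongr
        _ = (2 * (1 / 6)) ^ d := by rw [mul_pow]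
        _ ≤ Real.exp (-1) ^ d := by
            refine pow_le_pow_left₀ (by positivity) ?_ _
            have := Real.exp_neg_one_gt_d9
            norm_num at this ⊢
            linarith
        _ = Real.exp (-(d : ℝ)) := by
            rw [← Real.exp_nat_mul]; simp
  · exact (measurableSet_le measurable_const (measurable_ncard
      (fun j (g : Fin d → ℝ) => g j ∈ Set.Icc (-1 / 72 : ℝ) (-1 / 72 + 1 / 36)) fun j =>
        measurableSet_Icc.preimage (measurable_pi_apply j))).nullMeasurableSet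

end Good1

end Pool.Agent.P.MP_ef347d_lc
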