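import Pool.Agent.P.MP_ef347d_lc.Gauss

/-! Duality of the law of the projector, measurability of the bad set, Wendel type bounds. -/

namespace Pool.Agent.P.MP_ef347d_lc

open Matrix MeasureTheory ProbabilityTheory

namespace Good3

theorem measurableSet_of_closed {X Y : Type} [TopologicalSpace X] [TopologicalSpace Y]
    [SigmaCompactSpace (X × Y)] [T2Space X] [MeasurableSpace X] [OpensMeasurableSpace X]
    {Z : Set (X × Y)} (hZ : IsClosed Z) : MeasurableSet (Prod.fst '' Z) := by
  obtain ⟨K, hK, e⟩ := (isSigmaCompact_univ.of_isClosed_subset hZ (Set.subset_univ _)).image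
    continuous_fst
  rw [← e]
  exact MeasurableSet.iUnion fun n => (hK n).measurableSet

/-- left multiplication of the matrix by a fixed matrix -/
def lmul {M d : ℕ} (g : Matrix (Fin M) (Fin M) ℝ) :
    (Fin M × Fin d → ℝ) →ₗ[ℝ] (Fin M × Fin d → ℝ) where
  toFun z := fun p => (g * mat z) p.1 p.2
  map_add' z w := by
    funext p; simp [mat, Matrix.mul_apply, mul_add, Finset.sum_add_distrib]
  map_smul' c z := by
    funext p; simp [mat, Matrix.mul_apply, Finset.mul_sum, mul_left_comm]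

theorem mat_lmul {M d : ℕ} (g : Matrix (Fin M) (Fin M) ℝ) (z : Fin M × Fin d → ℝ) :
    mat (lmul g z) = g * mat z := rfl

theorem dot_eq_trace {M d : ℕ} (z w : Fin M × Fin d → ℝ) :
    z ⬝ᵥ w = ((mat z)ᵀ * mat w).trace := by
  simp only [dotProduct, Fintype.sum_prod_type, trace, diag, Matrix.mul_apply, transpose_apply,
    mat, of_apply]
  exact Finset.sum_comm

theorem lmul_preserving {M d : ℕ} (g : Matrix (Fin M) (Fin M) ℝ) (hg : g * gᵀ = 1) :
    MeasurePreserving (lmul (d := d) g) (gam (Fin M × Fin d)) (gam (Fin M × Fin d)) := by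
  refine gam_map _ (lmul gᵀ) (fun z w => ?_) (fun w => ?_)
  · rw [dot_eq_trace, dot_eq_trace, mat_lmul, mat_lmul, transpose_mul, Matrix.mul_assoc]
  · rw [dot_eq_trace, dot_eq_trace, mat_lmul, transpose_mul, transpose_transpose,
      Matrix.mul_assoc, ← Matrix.mul_assoc g, hg, Matrix.one_mul]

theorem Pr_lmul {M d : ℕ} (g : Matrix (Fin M) (Fin M) ℝ) (hg : gᵀ * g = 1)
    (A : Matrix (Fin M) (Fin d) ℝ) : Pr (g * A) = g * Pr A * gᵀ := by
  have : (g * A)ᵀ * (g * A) = Aᵀ * A := by
    rw [transpose_mul, Matrix.mul_assoc, ← Matrix.mul_assoc gᵀ, hg, Matrix.one_mul]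
  rw [Pr, Pr, this, transpose_mul]
  simp only [Matrix.mul_assoc]

theorem trace_Pr {M d : ℕ} {A : Matrix (Fin M) (Fin d) ℝ} (h : IsUnit (Aᵀ * A).det) :
    (Pr A).trace = d := by
  rw [Pr, Matrix.trace_mul_comm, ← Matrix.mul_assoc, Matrix.mul_nonsing_inv _ h]
  simp

theorem isProj_Pr' {ι κ : Type} [Fintype ι] [Fintype κ] [DecidableEq κ] {A : Matrix ι κ ℝ}
    (h : IsUnit (Aᵀ * A).det) : IsProj (Pr A) := by
  constructor
  · simp only [Pr, transpose_mul, transpose_transpose, transpose_nonsing_inv, Matrix.mul_assoc]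
  · have := Matrix.mul_nonsing_inv _ h
    calc Pr A * Pr A = A * (Aᵀ * A)⁻¹ * ((Aᵀ * A) * (Aᵀ * A)⁻¹) * Aᵀ := by
          simp only [Pr, Matrix.mul_assoc]
      _ = Pr A := by rw [this, Matrix.mul_one, Pr]

theorem measurable_Pr {M d : ℕ} (i j : Fin M) :
    Measurable fun z : Fin M × Fin d → ℝ => Pr (mat z) i j := by
  have hm : Continuous fun z : Fin M × Fin d → ℝ => mat z :=
    continuous_matrix fun i j => continuous_apply (i, j)
  have h1 : Continuous fun z : Fin M × Fin d → ℝ => (mat z)ᵀ * mat z :=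
    hm.matrix_transpose.matrix_mul hm
  have h2 : Continuous fun z : Fin M × Fin d → ℝ =>
      (mat z * ((mat z)ᵀ * mat z).adjugate * (mat z)ᵀ) i j :=
    ((hm.matrix_mul h1.matrix_adjugate).matrix_mul hm.matrix_transpose).matrix_elem i j
  have e : (fun z : Fin M × Fin d → ℝ => Pr (mat z) i j) = fun z =>
      (((mat z)ᵀ * mat z).det)⁻¹ * (mat z * ((mat z)ᵀ * mat z).adjugate * (mat z)ᵀ) i j := by
    funext z
    rw [Pr, Matrix.inv_def, Ring.inverse_eq_inv', Matrix.mul_smul, Matrix.smul_mul]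
    rfl
  rw [e]
  exact h1.matrix_det.measurable.inv.mul h2.measurable

theorem eig_proj {M : ℕ} {P : Matrix (Fin M) (Fin M) ℝ} (hP : IsProj P) (h : P.IsHermitian)
    (i : Fin M) : h.eigenvalues i = 0 ∨ h.eigenvalues i = 1 := by
  have h1 := h.mulVec_eigenvectorBasis i
  have h2 : P *ᵥ (P *ᵥ ⇑(h.eigenvectorBasis i)) = P *ᵥ ⇑(h.eigenvectorBasis i) := by
    rw [mulVec_mulVec, hP.2]
  rw [h1, mulVec_smul, h1, smul_smul] at h2
  have h3 : (⇑(h.eigenvectorBasis i) : Fin M → ℝ) ≠ 0 := by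
    intro h0
    exact h.eigenvectorBasis.orthonormal.ne_zero i (by ext k; exact congrFun h0 k)
  have h4 := smul_left_injective ℝ h3 h2
  have h5 : h.eigenvalues i * (h.eigenvalues i - 1) = 0 := by linarith
  rcases mul_eq_zero.1 h5 with h6 | h6
  · exact Or.inl h6
  · exact Or.inr (by linarith)

theorem charpoly_proj {M : ℕ} {P : Matrix (Fin M) (Fin M) ℝ} (hP : IsProj P) (h : P.IsHermitian) :
    ∃ r : ℕ, P.trace = r ∧ r ≤ M ∧
      P.charpoly = (Polynomial.X - 1) ^ r * Polynomial.X ^ (M - r) := by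
  classical
  have e : ∀ i, h.eigenvalues i = if h.eigenvalues i = 1 then 1 else 0 := fun i => by
    rcases eig_proj hP h i with h1 | h1 <;> simp [h1]
  have hc := Finset.card_filter_add_card_filter_not (s := Finset.univ)
    (fun i => h.eigenvalues i = 1)
  rw [Finset.card_univ, Fintype.card_fin] at hc
  refine ⟨(Finset.univ.filter (fun i => h.eigenvalues i = 1)).card, ?_, by omega, ?_⟩
  · rw [h.trace_eq_sum_eigenvalues, Finset.sum_congr rfl (fun i _ => by rw [e i])]
    simp [apply_ite]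
  · rw [h.charpoly_eq, Finset.prod_congr rfl (fun i _ => by rw [e i])]
    simp only [RCLike.ofReal_real_eq_id, id, apply_ite Polynomial.C,
      apply_ite (HSub.hSub (Polynomial.X : Polynomial ℝ)), map_one, map_zero, sub_zero]
    rw [Finset.prod_ite, Finset.prod_const, Finset.prod_const]
    congr 2
    omega

/-- the orthogonal group -/
abbrev OG (M : ℕ) : Type := unitary (Matrix (Fin M) (Fin M) ℝ)

theorem og_mul {M : ℕ} (g : OG M) : g.1 * g.1ᵀ = 1 := by
  have := g.2.2
  rwa [star_eq_conjTranspose, conjTranspose_eq_transpose_of_trivial] at this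

theorem og_mul' {M : ℕ} (g : OG M) : g.1ᵀ * g.1 = 1 := by
  have := g.2.1
  rwa [star_eq_conjTranspose, conjTranspose_eq_transpose_of_trivial] at this

theorem proj_conj {M : ℕ} {P Q : Matrix (Fin M) (Fin M) ℝ} (hP : IsProj P) (hQ : IsProj Q)
    (h : P.trace = Q.trace) : ∃ u : OG M, P = u.1ᵀ * Q * u.1 := by
  have h1 : P.IsHermitian := by
    rw [IsHermitian, conjTranspose_eq_transpose_of_trivial]; exact hP.1
  have h2 : Q.IsHermitian := by
    rw [IsHermitian, conjTranspose_eq_transpose_of_trivial]; exact hQ.1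
  obtain ⟨r, hr, -, e1⟩ := charpoly_proj hP h1
  obtain ⟨r', hr', -, e2⟩ := charpoly_proj hQ h2
  have : r = r' := by exact_mod_cast hr.symm.trans (h.trans hr')
  subst this
  have h3 := (h1.eigenvalues_eq_eigenvalues_iff h2).2 (e1.trans e2.symm)
  have s1 := h1.spectral_theorem
  have s2 := h2.conjStarAlgAut_star_eigenvectorUnitary
  rw [h3, ← s2] at s1
  refine ⟨h2.eigenvectorUnitary * star h1.eigenvectorUnitary, s1.trans ?_⟩
  simp [Unitary.conjStarAlgAut_apply, star_eq_conjTranspose, Matrix.mul_assoc]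

instance compactSpace_og {M : ℕ} : CompactSpace (OG M) := by
  refine isCompact_iff_compactSpace.1 ?_
  have hK : IsCompact (Set.univ.pi fun _ : Fin M => Set.univ.pi fun _ : Fin M =>
      Set.Icc (-1 : ℝ) 1) := isCompact_univ_pi fun _ => isCompact_univ_pi fun _ => isCompact_Icc
  refine IsCompact.of_isClosed_subset (X := Matrix (Fin M) (Fin M) ℝ) hK isClosed_unitary ?_
  intro U hU i _ j _
  have := entry_norm_bound_of_unitary (𝕜 := ℝ) hU i j
  exact abs_le.1 this

instance {M : ℕ} : SecondCountableTopology (OG M) :=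
  haveI : SecondCountableTopology (Matrix (Fin M) (Fin M) ℝ) :=
    inferInstanceAs (SecondCountableTopology (Fin M → Fin M → ℝ))
  TopologicalSpace.Subtype.secondCountableTopology _

instance {M : ℕ} : MeasurableSpace (OG M) := borel _
instance {M : ℕ} : BorelSpace (OG M) := ⟨rfl⟩

/-- Haar probability measure -/
noncomputable def haar (M : ℕ) : Measure (OG M) := Measure.haarMeasure ⊤

instance {M : ℕ} : IsProbabilityMeasure (haar M) :=
  ⟨by simpa [haar] using Measure.haarMeasure_self (K₀ := (⊤ : TopologicalSpace.PositiveCompacts (OG M)))⟩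

instance {M : ℕ} : (haar M).IsMulLeftInvariant := by unfold haar; infer_instance

/-- conjugation -/
def act {M : ℕ} (g : OG M) (X : Fin M → Fin M → ℝ) : Fin M → Fin M → ℝ :=
  fun i j => (g.1ᵀ * Matrix.of X * g.1) i j

theorem continuous_act {M : ℕ} : Continuous fun p : OG M × (Fin M → Fin M → ℝ) => act p.1 p.2 := by
  have h1 : Continuous fun p : OG M × (Fin M → Fin M → ℝ) => p.1.1 :=
    continuous_subtype_val.comp continuous_fst
  have h2 : Continuous fun p : OG M × (Fin M → Fin M → ℝ) => Matrix.of p.2 :=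
    continuous_matrix fun i j => by simp only [of_apply]; fun_prop
  exact continuous_pi fun i => continuous_pi fun j =>
    ((h1.matrix_transpose.matrix_mul h2).matrix_mul h1).matrix_elem i j

theorem inv_law {M : ℕ} {Ω : Type} [MeasurableSpace Ω] (μ : Measure Ω) [IsProbabilityMeasure μ]
    (F : Ω → Fin M → Fin M → ℝ) (hF : Measurable F) (E : Set (Fin M → Fin M → ℝ))
    (hE : MeasurableSet E) (hinv : ∀ g : OG M, μ {z | act g (F z) ∈ E} = μ {z | F z ∈ E})
    (Y : Fin M → Fin M → ℝ) (hY : ∀ᵐ z ∂μ, ∃ u : OG M, F z = act u Y) :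
    μ {z | F z ∈ E} = haar M {g | act g Y ∈ E} := by
  have hm0 : Measurable fun p : OG M × (Fin M → Fin M → ℝ) => act p.1 p.2 :=
    continuous_act.measurable
  have hm1 : Measurable fun p : OG M × Ω => (p.1, F p.2) :=
    measurable_fst.prodMk (hF.comp measurable_snd)
  have hm : Measurable fun p : OG M × Ω => act p.1 (F p.2) := by
    simpa only [Function.comp_def] using hm0.comp hm1
  have hZ : MeasurableSet {p : OG M × Ω | act p.1 (F p.2) ∈ E} := hm hE
  have hY' : MeasurableSet {g : OG M | act g Y ∈ E} :=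
    (continuous_act.comp (Continuous.prodMk_left Y)).measurable hE
  have h1 := Measure.prod_apply (μ := haar M) (ν := μ) hZ
  have h2 := Measure.prod_apply_symm (μ := haar M) (ν := μ) hZ
  have h3 : ∀ g : OG M, μ (Prod.mk g ⁻¹' {p : OG M × Ω | act p.1 (F p.2) ∈ E}) =
      μ {z | F z ∈ E} := hinv
  simp only [h3, lintegral_const, measure_univ, mul_one] at h1
  rw [← h1, h2]
  have h4 : ∀ᵐ z ∂μ, haar M ((fun g => (g, z)) ⁻¹' {p : OG M × Ω | act p.1 (F p.2) ∈ E}) =
      haar M {g | act g Y ∈ E} := by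
    filter_upwards [hY] with z ⟨u, hu⟩
    rw [← measure_preimage_mul (haar M) u {g | act g Y ∈ E}]
    congr 1
    ext g
    have : act g (act u Y) = act (u * g) Y := by
      funext i j
      have e : Matrix.of (act u Y) = u.1ᵀ * Matrix.of Y * u.1 := rfl
      simp only [act, e, Submonoid.coe_mul, transpose_mul, Matrix.mul_assoc]
    simp [hu, this]
  rw [lintegral_congr_ae h4]
  simp

end Good3

open Good3

/-- GOOD3: duality of the law of the projector (Haar measure on the orthogonal group) -/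
theorem law_dual {M d : ℕ} (h : d ≤ M) (E : Set (Fin M → Fin M → ℝ)) (hE : MeasurableSet E) :
    gam (Fin M × Fin d) {z | (fun i j => (1 - Pr (mat z)) i j) ∈ E} =
      gam (Fin M × Fin (M - d)) {z | (fun i j => Pr (mat z) i j) ∈ E} := by
  have r1 := gam_rank (ι := Fin M) (κ := Fin d) (by simpa using h)
  have r2 := gam_rank (ι := Fin M) (κ := Fin (M - d)) (by simp)
  obtain ⟨z₀, hz₀⟩ := r2.exists
  have m1 : Measurable fun (z : Fin M × Fin d → ℝ) i j => (1 - Pr (mat z)) i j :=
    measurable_pi_lambda _ fun i => measurable_pi_lambda _ fun j =>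
      measurable_const.sub (measurable_Pr i j)
  have m2 : Measurable fun (z : Fin M × Fin (M - d) → ℝ) i j => Pr (mat z) i j :=
    measurable_pi_lambda _ fun i => measurable_pi_lambda _ fun j => measurable_Pr i j
  refine ((inv_law _ _ m2 E hE (fun g => ?_) (fun i j => Pr (mat z₀) i j) ?_).trans
    (inv_law _ _ m1 E hE (fun g => ?_) (fun i j => Pr (mat z₀) i j) ?_).symm).symm
  · refine Eq.trans ?_ ((lmul_preserving (d := M - d) g.1ᵀ
      (by simpa using og_mul' g)).measure_preimage (m2 hE).nullMeasurableSet)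
    congr 1
    ext z
    have : act g (fun i j => Pr (mat z) i j) = fun i j => Pr (mat (lmul g.1ᵀ z)) i j := by
      rw [mat_lmul, Pr_lmul _ (by simpa using og_mul g)]; rfl
    simp [this]
  · filter_upwards [r2] with z hz
    obtain ⟨u, hu⟩ := proj_conj (isProj_Pr' hz) (isProj_Pr' hz₀) (by rw [trace_Pr hz, trace_Pr hz₀])
    exact ⟨u, by rw [hu]; rfl⟩
  · refine Eq.trans ?_ ((lmul_preserving (d := d) g.1ᵀ
      (by simpa using og_mul' g)).measure_preimage (m1 hE).nullMeasurableSet)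
    congr 1
    ext z
    have : act g (fun i j => (1 - Pr (mat z)) i j) =
        fun i j => (1 - Pr (mat (lmul g.1ᵀ z))) i j := by
      rw [mat_lmul, Pr_lmul _ (by simpa using og_mul g)]
      have e : g.1ᵀ * (1 - Pr (mat z)) * g.1 = 1 - g.1ᵀ * Pr (mat z) * g.1ᵀᵀ := by
        rw [Matrix.mul_sub, Matrix.sub_mul, Matrix.mul_one, og_mul', transpose_transpose]
      rw [← e]; rfl
    simp only [Set.mem_ofPred_eq, Set.mem_preimage, this]
  · filter_upwards [r1] with z hz
    have hp := isProj_Pr' hz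
    obtain ⟨u, hu⟩ := proj_conj (P := 1 - Pr (mat z)) ⟨by rw [transpose_sub, hp.1, transpose_one],
      by rw [Matrix.sub_mul, Matrix.mul_sub, Matrix.mul_sub, hp.2]; simp⟩ (isProj_Pr' hz₀)
      (by rw [trace_sub, trace_Pr hz, trace_Pr hz₀, Nat.cast_sub h]; simp)
    exact ⟨u, by rw [hu]; rfl⟩

/-- GOOD3': closedness, so that `law_dual` applies -/
theorem measurable_pbad {M : ℕ} (ε τ μ : ℝ) (hμ : 0 < μ) :
    MeasurableSet {P : Fin M → Fin M → ℝ | IsProj (Matrix.of P) ∧ PBad ε τ μ (Matrix.of P)} := by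
  classical
  have hP : Continuous fun p : (Fin M → Fin M → ℝ) × ((Fin M → ℝ) × (Fin M → ℝ)) =>
      Matrix.of p.1 :=
    continuous_matrix fun i j => by simp only [of_apply]; fun_prop
  let Z : Set ((Fin M → Fin M → ℝ) × ((Fin M → ℝ) × (Fin M → ℝ))) := {p | (Matrix.of p.1)ᵀ = Matrix.of p.1} ∩
    ({p | Matrix.of p.1 * Matrix.of p.1 = Matrix.of p.1} ∩ ((⋂ k, {p | 0 ≤ p.2.1 k}) ∩
    ((⋂ k, {p | p.2.1 k * p.2.2 k = μ}) ∩
    ({p | Matrix.of p.1 *ᵥ (fun k => p.2.1 k - 1) = fun k => p.2.1 k - 1} ∩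
    ({p | Matrix.of p.1 *ᵥ (fun k => p.2.2 k - 1) = 0} ∩
    ((⋃ k, {p | 1 + τ * (μ - 1) ≤ p.2.1 k}) ∪
    ((⋃ I : {I : Finset (Fin M) // 15 * M ≤ 16 * I.card},
      ⋂ k ∈ I.1, {p | |p.2.1 k - μ| ≤ ε * (μ - 1)}) ∪ ⋃ k, {p | p.1 k k ≤ ε})))))))
  have hZ : IsClosed Z := by
    refine (isClosed_eq hP.matrix_transpose hP).inter ((isClosed_eq (hP.matrix_mul hP) hP).inter
      ((isClosed_iInter fun k => isClosed_le continuous_const (by fun_prop)).inter
      ((isClosed_iInter fun k => isClosed_eq (by fun_prop) continuous_const).inter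
      ((isClosed_eq (hP.matrix_mulVec (by fun_prop)) (by fun_prop)).inter
      ((isClosed_eq (hP.matrix_mulVec (by fun_prop)) continuous_const).inter
      ((isClosed_iUnion_of_finite fun k => isClosed_le continuous_const (by fun_prop)).union
      ((isClosed_iUnion_of_finite fun I => isClosed_biInter fun k _ =>
        isClosed_le (by fun_prop) continuous_const).union
      (isClosed_iUnion_of_finite fun k => isClosed_le (by fun_prop) continuous_const))))))))
  have e : {P : Fin M → Fin M → ℝ | IsProj (Matrix.of P) ∧ PBad ε τ μ (Matrix.of P)} =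
      Prod.fst '' Z := by
    ext P
    simp only [Z, Set.mem_ofPred_eq, Set.mem_image, Set.mem_inter_iff, Set.mem_iInter,
      Set.mem_union, Set.mem_iUnion, IsProj, PBad, Central, Fintype.card_fin]
    constructor
    · rintro ⟨⟨h1, h2⟩, s, ⟨h3, h4, h5⟩, h6⟩
      refine ⟨(P, s, fun k => μ / s k), ⟨h1, h2, fun k => (h3 k).le,
        fun k => mul_div_cancel₀ _ (h3 k).ne', h4, h5, ?_⟩, rfl⟩
      rcases h6 with h6 | h6 | h6
      · exact Or.inl h6
      · refine Or.inr (Or.inl ⟨⟨Finset.univ.filter fun k => |s k - μ| ≤ ε * (μ - 1), ?_⟩,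
          fun k hk => (Finset.mem_filter.1 hk).2⟩)
        rw [← Set.ncard_coe_finset]
        simpa using h6
      · exact Or.inr (Or.inr h6)
    · rintro ⟨⟨P, s, y⟩, ⟨h1, h2, h3, h4, h5, h6, h7⟩, rfl⟩
      have hs : ∀ k, 0 < s k := fun k => lt_of_le_of_ne (h3 k) (fun h0 => by
        have h8 : s k * y k = μ := h4 k
        have h9 : 0 = s k := h0
        rw [← h9, zero_mul] at h8
        exact hμ.ne h8)
      have hy : y = fun k => μ / s k := funext fun k => by
        rw [← h4 k, mul_div_cancel_left₀ _ (hs k).ne']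
      subst hy
      refine ⟨⟨h1, h2⟩, s, ⟨hs, h5, h6⟩, ?_⟩
      rcases h7 with h7 | ⟨I, h7⟩ | h7
      · exact Or.inl h7
      · refine Or.inr (Or.inl (I.2.trans (Nat.mul_le_mul_left _ ?_)))
        rw [← Set.ncard_coe_finset]
        exact Set.ncard_le_ncard (fun k hk => h7 k hk) (Set.toFinite _)
      · exact Or.inr (Or.inr h7)
  rw [e]
  exact measurableSet_of_closed hZ

namespace Good3

open Classical in
theorem card_signs {M r : ℕ} (V : Submodule ℝ (Fin M → ℝ)) (hV : Module.finrank ℝ V ≤ r) :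
    ((Finset.univ.filter fun I : Finset (Fin M) =>
      ∃ v ∈ V, ∀ i, 0 < (if i ∈ I then 1 else -1) * v i).card : ℝ) ≤ 2 ^ r * (3 / 2) ^ M := by
  set 𝒜 := Finset.univ.filter fun I : Finset (Fin M) =>
      ∃ v ∈ V, ∀ i, 0 < (if i ∈ I then 1 else -1) * v i with h𝒜
  have h1 : ∀ J ∈ 𝒜.shatterer, J.card ≤ r := by
    intro J hJ
    rw [Finset.mem_shatterer] at hJ
    by_contra hc
    have hl : ¬ LinearIndependent ℝ fun i : J =>
        ((LinearMap.proj i.1).comp V.subtype : Module.Dual ℝ V) := by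
      intro hl
      have := hl.fintype_card_le_finrank
      rw [Subspace.dual_finrank_eq, Fintype.card_coe] at this
      omega
    obtain ⟨c, hc1, i₀, hc2⟩ := Fintype.not_linearIndependent_iff.1 hl
    obtain ⟨I, hI, hJI⟩ := hJ (t := (Finset.univ.filter fun i : J => 0 < c i).map
      (Function.Embedding.subtype _)) (fun i hi => by
        obtain ⟨j, -, rfl⟩ := Finset.mem_map.1 hi
        exact j.2)
    obtain ⟨v, hv, hpos⟩ := (Finset.mem_filter.1 hI).2
    have hmem : ∀ i : J, i.1 ∈ I ↔ 0 < c i := by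
      intro i
      have := Finset.ext_iff.1 hJI i.1
      simpa using this
    have h2 : ∑ i : J, c i * v i = 0 := by
      have := LinearMap.congr_fun hc1 ⟨v, hv⟩
      simpa [LinearMap.sum_apply] using this
    have h3 : ∀ i : J, c i ≠ 0 → 0 < c i * v i := by
      intro i hi
      have := hpos i
      by_cases hc : 0 < c i
      · rw [if_pos ((hmem i).2 hc), one_mul] at this
        exact mul_pos hc this
      · rw [if_neg (fun h => hc ((hmem i).1 h))] at this
        exact mul_pos_of_neg_of_neg (lt_of_le_of_ne (not_lt.1 hc) hi) (by linarith)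
    have h4 : 0 < ∑ i : J, c i * v i := Finset.sum_pos' (fun i _ => by
      by_cases hi : c i = 0
      · simp [hi]
      · exact (h3 i hi).le) ⟨i₀, Finset.mem_univ _, h3 i₀ hc2⟩
    linarith
  calc (𝒜.card : ℝ) ≤ 𝒜.shatterer.card := by exact_mod_cast Finset.card_le_card_shatterer 𝒜
    _ = ∑ J ∈ 𝒜.shatterer, (1 : ℝ) := by simp
    _ ≤ ∑ J ∈ 𝒜.shatterer, (2 : ℝ) ^ r * ∏ _i ∈ J, (1 / 2 : ℝ) := by
        refine Finset.sum_le_sum fun J hJ => ?_
        rw [Finset.prod_const, one_div, inv_pow, ← div_eq_mul_inv, one_le_div (by positivity)]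
        exact pow_le_pow_right₀ (by norm_num) (h1 J hJ)
    _ ≤ ∑ J ∈ (Finset.univ : Finset (Fin M)).powerset, (2 : ℝ) ^ r * ∏ _i ∈ J, (1 / 2 : ℝ) :=
        Finset.sum_le_sum_of_subset_of_nonneg (fun J _ => by simp) (fun _ _ _ => by positivity)
    _ = 2 ^ r * (3 / 2) ^ M := by
        rw [← Finset.mul_sum, ← Finset.prod_one_add, Finset.prod_const, Finset.card_univ,
          Fintype.card_fin]
        norm_num

/-- sign matrix -/
noncomputable def sg {M : ℕ} (I : Finset (Fin M)) : Matrix (Fin M) (Fin M) ℝ :=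
  diagonal fun i => if i ∈ I then 1 else -1

theorem sg_mul {M : ℕ} (I : Finset (Fin M)) : sg I * (sg I)ᵀ = 1 := by
  rw [sg, diagonal_transpose, diagonal_mul_diagonal, ← diagonal_one]
  congr 1
  funext i
  split_ifs <;> simp

open Classical in
theorem average {M d r k : ℕ} (h : 3 * r + k ≤ M) (E : Set (Fin M × Fin d → ℝ))
    (hE : MeasurableSet E) (hV : ∀ᵐ z ∂gam (Fin M × Fin d), ∃ V : Submodule ℝ (Fin M → ℝ),
      Module.finrank ℝ V ≤ r ∧ ∀ I, lmul (sg I) z ∈ E →
        ∃ v ∈ V, ∀ i, 0 < (if i ∈ I then 1 else -1) * v i) :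
    gam (Fin M × Fin d) E ≤ ENNReal.ofReal ((3 / 4) ^ k) := by
  have hm : ∀ I : Finset (Fin M), MeasurableSet (lmul (d := d) (sg I) ⁻¹' E) :=
    fun I => (lmul_preserving _ (sg_mul I)).measurable hE
  have h1 : ∑ I : Finset (Fin M), gam (Fin M × Fin d) (lmul (sg I) ⁻¹' E) =
      2 ^ M * gam (Fin M × Fin d) E := by
    rw [Finset.sum_congr rfl fun I _ =>
      (lmul_preserving _ (sg_mul I)).measure_preimage hE.nullMeasurableSet]
    simp
  have h2 : ∑ I : Finset (Fin M), gam (Fin M × Fin d) (lmul (sg I) ⁻¹' E) ≤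
      ENNReal.ofReal (2 ^ r * (3 / 2) ^ M) := by
    simp only [← lintegral_indicator_one (hm _)]
    rw [← lintegral_finsetSum _ fun I _ => measurable_one.indicator (hm I)]
    refine (lintegral_mono_ae (g := fun _ => ENNReal.ofReal (2 ^ r * (3 / 2) ^ M)) ?_).trans
      (by simp)
    filter_upwards [hV] with z ⟨V, hV1, hV2⟩
    refine le_trans ?_ (ENNReal.ofReal_le_ofReal (card_signs V hV1))
    rw [ENNReal.ofReal_natCast, Finset.card_filter, Nat.cast_sum]
    refine Finset.sum_le_sum fun I _ => ?_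
    by_cases hz : lmul (sg I) z ∈ E
    · rw [if_pos (hV2 I hz), Set.indicator_of_mem (by exact hz)]; simp
    · rw [Set.indicator_of_notMem (by exact hz)]; exact zero_le
  rw [h1] at h2
  have h3 : (2 : ℝ) ^ r * (3 / 2) ^ M ≤ 2 ^ M * (3 / 4) ^ k := by
    have e : (3 / 2 : ℝ) ^ M = 2 ^ M * (3 / 4) ^ M := by rw [← mul_pow]; norm_num
    have h4 : (3 / 4 : ℝ) ^ M ≤ (3 / 4) ^ (3 * r + k) :=
      pow_le_pow_of_le_one (by norm_num) (by norm_num) h
    have h5 : (2 : ℝ) ^ r * (3 / 4) ^ (3 * r) ≤ 1 := by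
      rw [pow_mul, ← mul_pow]; exact pow_le_one₀ (by norm_num) (by norm_num)
    rw [e, mul_left_comm]
    gcongr
    calc (2 : ℝ) ^ r * (3 / 4) ^ M ≤ 2 ^ r * (3 / 4) ^ (3 * r + k) := by gcongr
      _ = 2 ^ r * (3 / 4) ^ (3 * r) * (3 / 4) ^ k := by rw [pow_add, mul_assoc]
      _ ≤ 1 * (3 / 4) ^ k := by gcongr
      _ = _ := one_mul _
  have h4 := h2.trans (ENNReal.ofReal_le_ofReal h3)
  rw [ENNReal.ofReal_mul (by positivity), ENNReal.ofReal_pow (by norm_num),
    ENNReal.ofReal_ofNat] at h4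
  exact (ENNReal.mul_le_mul_iff_right (by positivity) (by simp)).1 h4

theorem continuous_mat {M d : ℕ} : Continuous fun z : Fin M × Fin d → ℝ => mat z :=
  continuous_matrix fun i j => continuous_apply (i, j)

end Good3

/-- GOOD5: Wendel type bounds (sign flips + Sauer-Shelah) -/
theorem good_wendel {M d k : ℕ} (h : 3 * d + k ≤ M) :
    gam (Fin M × Fin d) {z | ∃ x, ∀ i, 0 < (mat z *ᵥ x) i} ≤ ENNReal.ofReal ((3 / 4) ^ k) := by
  refine average h _ ?_ (Filter.Eventually.of_forall fun z =>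
    ⟨LinearMap.range (mat z).mulVecLin, ?_, ?_⟩)
  · refine IsOpen.measurableSet ?_
    rw [Set.ofPred_exists]
    refine isOpen_iUnion fun x => ?_
    rw [Set.ofPred_forall]
    exact isOpen_iInter_of_finite fun i => isOpen_lt continuous_const
      ((continuous_apply i).comp (continuous_mat.matrix_mulVec continuous_const))
  · exact (LinearMap.finrank_range_le _).trans (by simp)
  · rintro I ⟨x, hx⟩
    refine ⟨_, ⟨x, rfl⟩, fun i => ?_⟩
    have := hx i
    rwa [mat_lmul, ← mulVec_mulVec, sg, mulVec_diagonal] at this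

theorem good_wendel' {M d k : ℕ} (hM : 1 ≤ M) (hd : d ≤ M) (h : 3 * (M - d) + k ≤ M ∨ d = M) :
    gam (Fin M × Fin d) {z | ∃ y : Fin M → ℝ, (∀ i, 0 < y i) ∧ (mat z)ᵀ *ᵥ y = 0} ≤
      ENNReal.ofReal ((3 / 4) ^ k) := by
  have r1 := gam_rank (ι := Fin M) (κ := Fin d) (by simpa using hd)
  have hker : ∀ z : Fin M × Fin d → ℝ, IsUnit ((mat z)ᵀ * mat z).det →
      Module.finrank ℝ (LinearMap.ker ((mat z)ᵀ).mulVecLin) = M - d := by
    intro z hz
    have h1 := LinearMap.finrank_range_add_finrank_ker ((mat z)ᵀ).mulVecLin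
    have h2 : LinearMap.range ((mat z)ᵀ).mulVecLin = ⊤ := by
      rw [LinearMap.range_eq_top]
      intro w
      refine ⟨mat z *ᵥ (((mat z)ᵀ * mat z)⁻¹ *ᵥ w), ?_⟩
      rw [mulVecLin_apply, mulVec_mulVec, mulVec_mulVec, Matrix.mul_nonsing_inv _ hz, one_mulVec]
    rw [h2] at h1
    simp only [finrank_top, Module.finrank_fintype_fun_eq_card, Fintype.card_fin] at h1
    omega
  rcases h with h | h
  · refine average h _ ?_ ?_
    · let Z : Set ((Fin M × Fin d → ℝ) × ((Fin M → ℝ) × (Fin M → ℝ))) := (⋂ i, {p | 0 ≤ p.2.1 i}) ∩ ((⋂ i, {p | p.2.1 i * p.2.2 i = 1}) ∩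
        {p | (mat p.1)ᵀ *ᵥ p.2.1 = 0})
      have hZ : IsClosed Z :=
        (isClosed_iInter fun k => isClosed_le continuous_const (by fun_prop)).inter
          ((isClosed_iInter fun k => isClosed_eq (by fun_prop) continuous_const).inter
          (isClosed_eq ((continuous_mat.comp continuous_fst).matrix_transpose.matrix_mulVec
            (by fun_prop)) continuous_const))
      have e : {z : Fin M × Fin d → ℝ | ∃ y : Fin M → ℝ, (∀ i, 0 < y i) ∧ (mat z)ᵀ *ᵥ y = 0} =
          Prod.fst '' Z := by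
        ext z
        simp only [Z, Set.mem_ofPred_eq, Set.mem_image, Set.mem_inter_iff, Set.mem_iInter]
        constructor
        · rintro ⟨y, h1, h2⟩
          exact ⟨(z, y, fun i => (y i)⁻¹), ⟨fun i => (h1 i).le,
            fun i => mul_inv_cancel₀ (h1 i).ne', h2⟩, rfl⟩
        · rintro ⟨⟨z, y, w⟩, ⟨h1, h2, h3⟩, rfl⟩
          refine ⟨y, fun i => lt_of_le_of_ne (h1 i) (fun h0 => ?_), h3⟩
          have h8 : y i * w i = 1 := h2 i
          have h9 : 0 = y i := h0
          rw [← h9, zero_mul] at h8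
          exact zero_ne_one h8
      rw [e]
      exact measurableSet_of_closed hZ
    · filter_upwards [r1] with z hz
      refine ⟨LinearMap.ker ((mat z)ᵀ).mulVecLin, (hker z hz).le, ?_⟩
      rintro I ⟨y, h1, h2⟩
      rw [mat_lmul, transpose_mul, ← mulVec_mulVec] at h2
      refine ⟨_, h2, fun i => ?_⟩
      rw [sg, diagonal_transpose, mulVec_diagonal]
      have := h1 i
      split_ifs <;> simpa using this
  · refine le_trans (le_of_eq ?_) zero_le
    refine measure_mono_null ?_ (ae_iff.1 r1)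
    rintro z ⟨y, h1, h2⟩ hz
    have h3 := hker z hz
    rw [show M - d = 0 by omega, Submodule.finrank_eq_zero] at h3
    have h4 : y ∈ LinearMap.ker ((mat z)ᵀ).mulVecLin := h2
    rw [h3, Submodule.mem_bot] at h4
    have := h1 ⟨0, hM⟩
    simp [h4] at this

end Pool.Agent.P.MP_ef347d_lc
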