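import Pool.Agent.P.MP_ef347d_lc.Gauss

/-! GOOD4 (`good_final`) and GOOD7 (`good_Gu`). -/

namespace Pool.Agent.P.MP_ef347d_lc

open Matrix MeasureTheory ProbabilityTheory

/-! ### GOOD7 -/

namespace G47

variable {m n : ℕ}

/-- put the vector `c` into the objective slot -/
def putC (m n : ℕ) : (Fin n → ℝ) →ₗ[ℝ] (Idx m n → ℝ) where
  toFun c := Sum.elim (fun _ => 0) (Sum.elim (fun _ => 0) c)
  map_add' c c' := by funext p; rcases p with p | p | p <;> simp
  map_smul' r c := by funext p; rcases p with p | p | p <;> simp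

/-- erase the objective slot -/
def killC (m n : ℕ) : (Idx m n → ℝ) →ₗ[ℝ] (Idx m n → ℝ) where
  toFun D := Sum.elim (fun p => D (Sum.inl p))
    (Sum.elim (fun i => D (Sum.inr (Sum.inl i))) (fun _ => 0))
  map_add' c c' := by funext p; rcases p with p | p | p <;> simp
  map_smul' r c := by funext p; rcases p with p | p | p <;> simp

theorem phi_mp (m n : ℕ) : MeasurePreserving
    (fun p : (Fin n → ℝ) × (Idx m n → ℝ) => putC m n p.1 + killC m n p.2)
    ((gam (Fin n)).prod (gam (Idx m n))) (gam (Idx m n)) := by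
  refine gam_map₂ (putC m n) (killC m n) (fun w => dc w) (fun w => killC m n w) ?_ ?_ ?_
  · intro z w
    simp [putC, dotProduct, Fintype.sum_sum_type, dc]
  · intro z w
    simp [killC, dotProduct, Fintype.sum_sum_type]
  · intro w
    simp [killC, dotProduct, Fintype.sum_sum_type, dc]
    ring

/-- put the vector `c` into the last row -/
def putL (m n : ℕ) : (Fin n → ℝ) →ₗ[ℝ] (Fin (m + 1) × Fin n → ℝ) where
  toFun c := fun p => if p.1.val < m then 0 else c p.2
  map_add' c c' := by funext p; by_cases h : p.1.val < m <;> simp [h]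
  map_smul' r c := by funext p; by_cases h : p.1.val < m <;> simp [h]

/-- erase the last row -/
def killL (m n : ℕ) : (Fin (m + 1) × Fin n → ℝ) →ₗ[ℝ] (Fin (m + 1) × Fin n → ℝ) where
  toFun G := fun p => if p.1.val < m then G p else 0
  map_add' c c' := by funext p; by_cases h : p.1.val < m <;> simp [h]
  map_smul' r c := by funext p; by_cases h : p.1.val < m <;> simp [h]

theorem psi_mp (m n : ℕ) : MeasurePreserving
    (fun p : (Fin n → ℝ) × (Fin (m + 1) × Fin n → ℝ) => putL m n p.1 + killL m n p.2)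
    ((gam (Fin n)).prod (gam (Fin (m + 1) × Fin n))) (gam (Fin (m + 1) × Fin n)) := by
  refine gam_map₂ (putL m n) (killL m n) (fun w j => w (Fin.last m, j)) (fun w => killL m n w)
    ?_ ?_ ?_
  · intro z w
    simp [putL, dotProduct, Fintype.sum_prod_type, Fin.sum_univ_castSucc]
  · intro z w
    simp [killL, dotProduct, Fintype.sum_prod_type, Fin.sum_univ_castSucc]
  · intro w
    simp [killL, dotProduct, Fintype.sum_prod_type, Fin.sum_univ_castSucc, add_comm]

/-- the row map for a frozen objective `c` -/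
noncomputable def Tc (m n : ℕ) (κ ρ : ℝ) (c : Fin n → ℝ) :
    (Idx m n → ℝ) →ₗ[ℝ] (Fin (m + 1) × Fin n → ℝ) where
  toFun D := fun p => if h : p.1.val < m then
      -D (Sum.inl (⟨p.1.val, h⟩, p.2)) + κ * (∑ j, D (Sum.inl (⟨p.1.val, h⟩, j)) * c j) * c p.2 +
        ρ * D (Sum.inr (Sum.inl ⟨p.1.val, h⟩)) * c p.2
    else D (Sum.inr (Sum.inr p.2))
  map_add' D D' := by
    funext p
    by_cases h : p.1.val < m
    · simp only [h, dite_true, Pi.add_apply, add_mul, Finset.sum_add_distrib]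
      ring
    · simp [h]
  map_smul' r D := by
    funext p
    by_cases h : p.1.val < m
    · simp only [h, dite_true, Pi.smul_apply, smul_eq_mul, RingHom.id_apply, mul_assoc,
        ← Finset.mul_sum]
      ring
    · simp [h]

/-- its adjoint -/
noncomputable def Tc' (m n : ℕ) (κ ρ : ℝ) (c : Fin n → ℝ) (w : Fin (m + 1) × Fin n → ℝ) :
    Idx m n → ℝ :=
  Sum.elim (fun p => -w (p.1.castSucc, p.2) + κ * (∑ j, w (p.1.castSucc, j) * c j) * c p.2)
    (Sum.elim (fun i => ρ * ∑ j, w (i.castSucc, j) * c j) (fun j => w (Fin.last m, j)))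

theorem row_adj (κ ρ b : ℝ) (a c w : Fin n → ℝ) :
    ∑ j, (-a j + κ * (∑ l, a l * c l) * c j + ρ * b * c j) * w j =
      ∑ j, a j * (-w j + κ * (∑ l, w l * c l) * c j) + b * (ρ * ∑ l, w l * c l) := by
  have h1 : ∀ j, (-a j + κ * (∑ l, a l * c l) * c j + ρ * b * c j) * w j =
      -(a j * w j) + (κ * (∑ l, a l * c l) + ρ * b) * (w j * c j) := fun j => by ring
  have h2 : ∀ j, a j * (-w j + κ * (∑ l, w l * c l) * c j) =
      -(a j * w j) + (κ * (∑ l, w l * c l)) * (a j * c j) := fun j => by ring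
  simp only [h1, h2, Finset.sum_add_distrib, ← Finset.mul_sum]
  ring

theorem row_iso (κ ρ : ℝ) (c w : Fin n → ℝ) (h : κ ^ 2 * (c ⬝ᵥ c) - 2 * κ + ρ ^ 2 = 0) :
    ∑ j, (-w j + κ * (∑ l, w l * c l) * c j) * (-w j + κ * (∑ l, w l * c l) * c j) +
      (ρ * ∑ l, w l * c l) * (ρ * ∑ l, w l * c l) = ∑ j, w j * w j := by
  have h1 : ∀ j, (-w j + κ * (∑ l, w l * c l) * c j) * (-w j + κ * (∑ l, w l * c l) * c j) =
      w j * w j + (-2 * κ * (∑ l, w l * c l)) * (w j * c j) +
        (κ * (∑ l, w l * c l)) ^ 2 * (c j * c j) := fun j => by ring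
  simp only [h1, Finset.sum_add_distrib, ← Finset.mul_sum]
  unfold dotProduct at h
  linear_combination (∑ l, w l * c l) ^ 2 * h

theorem Tc_mp (κ ρ : ℝ) (c : Fin n → ℝ) (h : κ ^ 2 * (c ⬝ᵥ c) - 2 * κ + ρ ^ 2 = 0) :
    MeasurePreserving (Tc m n κ ρ c) (gam (Idx m n)) (gam (Fin (m + 1) × Fin n)) := by
  refine gam_map (Tc m n κ ρ c) (Tc' m n κ ρ c) ?_ ?_
  · intro D w
    simp only [Tc, Tc', dotProduct, Fintype.sum_sum_type, Fintype.sum_prod_type,
      Fin.sum_univ_castSucc, LinearMap.coe_mk, AddHom.coe_mk, Fin.val_castSucc, Fin.is_lt,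
      dite_true, Fin.eta, Fin.val_last, lt_self_iff_false, dite_false, Sum.elim_inl, Sum.elim_inr]
    rw [← add_assoc, ← Finset.sum_add_distrib]
    congr 1
    refine Finset.sum_congr rfl fun i _ => ?_
    exact row_adj κ ρ _ (fun j => D (Sum.inl (i, j))) c (fun j => w (i.castSucc, j))
  · intro w
    simp only [Tc', dotProduct, Fintype.sum_sum_type, Fintype.sum_prod_type,
      Fin.sum_univ_castSucc, Sum.elim_inl, Sum.elim_inr]
    rw [← add_assoc, ← Finset.sum_add_distrib]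
    congr 1
    refine Finset.sum_congr rfl fun i _ => ?_
    exact row_iso κ ρ c (fun j => w (i.castSucc, j)) h

/-- the coefficient of the rank one correction -/
noncomputable def kap (u cc : ℝ) : ℝ := (1 - zLev cc u / wLev cc u) / cc

theorem kap_rel {u cc : ℝ} (hu : 0 < u) (hc : 0 < cc) :
    kap u cc ^ 2 * cc - 2 * kap u cc + (1 / wLev cc u) ^ 2 = 0 := by
  have hw : 0 < wLev cc u := by unfold wLev; positivity
  have hrel : wLev cc u ^ 2 = cc + zLev cc u ^ 2 := by
    unfold wLev zLev; field_simp; ring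
  unfold kap
  field_simp
  linear_combination -hrel

theorem measurable_skew (u : ℝ) : Measurable (Function.uncurry
    (fun (c : Fin n → ℝ) (D : Idx m n → ℝ) => Tc m n (kap u (c ⬝ᵥ c)) (1 / wLev (c ⬝ᵥ c) u) c D)) := by
  refine measurable_pi_lambda _ fun p => ?_
  simp only [Function.uncurry, Tc, LinearMap.coe_mk, AddHom.coe_mk, kap, zLev, wLev, dotProduct]
  by_cases h : p.1.val < m
  · simp only [h, dite_true]
    fun_prop
  · simp only [h, dite_false]
    fun_prop

theorem measurable_Gu (u : ℝ) : Measurable (Gu (m := m) (n := n) u) := by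
  refine measurable_pi_lambda _ fun p => ?_
  simp only [Gu, dA, db, dc, zLev, wLev, dotProduct, mulVec, Matrix.of_apply]
  by_cases h : p.1.val < m
  · simp only [h, dite_true]
    fun_prop
  · simp only [h, dite_false]
    fun_prop

theorem Gu_comp (u : ℝ) (c : Fin n → ℝ) (D : Idx m n → ℝ) :
    Gu u (putC m n c + killC m n D) =
      putL m n c + killL m n (Tc m n (kap u (c ⬝ᵥ c)) (1 / wLev (c ⬝ᵥ c) u) c D) := by
  have hc : dc (putC m n c + killC m n D) = c := by
    funext j; simp [dc, putC, killC]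
  have hA : dA (putC m n c + killC m n D) = dA D := by
    ext i j; simp [dA, putC, killC]
  have hb : db (putC m n c + killC m n D) = db D := by
    funext j; simp [db, putC, killC]
  funext p
  unfold Gu
  rw [hc, hA, hb]
  by_cases h : p.1.val < m
  · simp only [h, dite_true, putL, killL, Tc, LinearMap.coe_mk, AddHom.coe_mk, Pi.add_apply,
      if_true, dA, db, mulVec, Matrix.of_apply, kap]
    have : (fun j => D (Sum.inl (⟨p.1.val, h⟩, j))) ⬝ᵥ c =
        ∑ j, D (Sum.inl (⟨p.1.val, h⟩, j)) * c j := rfl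
    rw [this]
    ring
  · simp [h, putL, killL]

end G47

/-- GOOD7: the binary search matrix is exactly Gaussian -/
theorem good_Gu {m n : ℕ} (hn : 1 ≤ n) (u : ℝ) (hu : 0 < u) :
    MeasurePreserving (Gu (m := m) (n := n) u) (gam (Idx m n)) (gam (Fin (m + 1) × Fin n)) := by
  have : Nonempty (Fin n) := ⟨⟨0, hn⟩⟩
  have : NullSingletonClass (gaussianReal 0 1) := nullSingletonClass_gaussianReal one_ne_zero
  have hne : ∀ᵐ c ∂(gam (Fin n)), c ≠ 0 := by
    rw [ae_iff]
    simp
  have hsk := (MeasurePreserving.id (gam (Fin n))).skew_product (μc := gam (Idx m n))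
    (μd := gam (Fin (m + 1) × Fin n)) (G47.measurable_skew (m := m) (n := n) u) (by
      filter_upwards [hne] with c hc
      have hcc : 0 < c ⬝ᵥ c :=
        lt_of_le_of_ne (Finset.sum_nonneg fun j _ => mul_self_nonneg (c j))
          (fun h => hc (dotProduct_self_eq_zero.1 h.symm))
      exact (G47.Tc_mp _ _ c (G47.kap_rel hu hcc)).map_eq)
  have h1 := (G47.psi_mp m n).comp hsk
  refine ⟨G47.measurable_Gu u, ?_⟩
  rw [← (G47.phi_mp m n).map_eq, Measure.map_map (G47.measurable_Gu u) (G47.phi_mp m n).measurable,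
    ← h1.map_eq]
  congr 1
  funext p
  exact G47.Gu_comp u p.1 p.2

/-! ### GOOD4 -/

namespace G47

theorem gam_line {ι : Type} [Fintype ι] (ν : ι → ℝ) (hν : ν ⬝ᵥ ν = 1) (E : Set (ι → ℝ))
    (hE : MeasurableSet E) (L : ℝ) (hL : ∀ z (t : ℝ), z ∈ E → z + t • ν ∈ E → |t| ≤ L) :
    gam ι E ≤ ENNReal.ofReal (2 * L) := by
  let f : (ι → ℝ) →ₗ[ℝ] (ι → ℝ) :=
    { toFun := fun z => z - (ν ⬝ᵥ z) • ν
      map_add' := fun z z' => by
        rw [dotProduct_add, add_smul]; abel
      map_smul' := fun r z => by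
        rw [dotProduct_smul, smul_sub, smul_eq_mul, mul_smul]; rfl }
  let f' : (Unit → ℝ) →ₗ[ℝ] (ι → ℝ) :=
    { toFun := fun t => t () • ν
      map_add' := fun t t' => by simp [add_smul]
      map_smul' := fun r t => by simp [mul_smul] }
  have hf : ∀ z, f z = z - (ν ⬝ᵥ z) • ν := fun _ => rfl
  have hf' : ∀ t, f' t = t () • ν := fun _ => rfl
  have hmp := gam_map₂ f f' (fun w => f w) (fun w _ => ν ⬝ᵥ w)
    (fun z w => by
      simp only [hf, sub_dotProduct, dotProduct_sub, smul_dotProduct, dotProduct_smul, smul_eq_mul,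
        dotProduct_comm z ν]
      ring)
    (fun t w => by simp [hf', dotProduct, Finset.mul_sum, mul_assoc])
    (fun w => by
      have h1 : (fun _ : Unit => ν ⬝ᵥ w) ⬝ᵥ (fun _ : Unit => ν ⬝ᵥ w) = (ν ⬝ᵥ w) * (ν ⬝ᵥ w) := by
        simp [dotProduct]
      rw [h1]
      simp only [hf, sub_dotProduct, dotProduct_sub, smul_dotProduct, dotProduct_smul, smul_eq_mul,
        dotProduct_comm w ν, hν]
      ring)
  rw [← hmp.measure_preimage hE.nullMeasurableSet, Measure.prod_apply (hmp.measurable hE)]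
  calc _ ≤ ∫⁻ _, ENNReal.ofReal (2 * L) ∂(gam ι) := by
        refine lintegral_mono fun z => ?_
        by_cases hne : ∃ t : Unit → ℝ, f z + f' t ∈ E
        · obtain ⟨t₀, ht₀⟩ := hne
          refine le_trans (measure_mono ?_) (gam_slab (fun _ : Unit => (1 : ℝ)) (by simp [dotProduct])
            (t₀ () - L) (2 * L))
          intro t ht
          have ht' : f z + f' t ∈ E := ht
          have h2 : f z + f' t = f z + f' t₀ + (t () - t₀ ()) • ν := by
            rw [hf', hf', sub_smul]; abel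
          rw [h2] at ht'
          have h3 := abs_le.1 (hL _ _ ht₀ ht')
          have h4 : (fun _ : Unit => (1 : ℝ)) ⬝ᵥ t = t () := by simp [dotProduct]
          simp only [Set.mem_ofPred_eq, h4]
          constructor <;> linarith [h3.1, h3.2]
        · have : (Prod.mk z ⁻¹' ((fun p : (ι → ℝ) × (Unit → ℝ) => f p.1 + f' p.2) ⁻¹' E)) = ∅ := by
            ext t
            simp only [Set.mem_preimage, Set.mem_empty_iff_false, iff_false]
            exact fun ht => hne ⟨t, ht⟩
          rw [this]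
          simp
    _ = ENNReal.ofReal (2 * L) := by simp

variable {M d : ℕ}

/-- matrices with a convex combination of the rows of sup norm at most `η` -/
def CC (M d : ℕ) (η : ℝ) : Set (Fin M × Fin d → ℝ) :=
  {z | ∃ lam ∈ stdSimplex ℝ (Fin M), ∀ j, |∑ i, lam i * z (i, j)| ≤ η}

theorem CC_closed (η : ℝ) : IsClosed (CC M d η) := by
  have h : IsClosed {p : stdSimplex ℝ (Fin M) × (Fin M × Fin d → ℝ) |
      ∀ j, |∑ i, p.1.1 i * p.2 (i, j)| ≤ η} := by
    rw [Set.ofPred_forall]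
    refine isClosed_iInter fun j => isClosed_le ?_ continuous_const
    refine Continuous.abs (continuous_finsetSum _ fun i _ => Continuous.mul ?_ ?_)
    · exact (continuous_apply i).comp (continuous_subtype_val.comp continuous_fst)
    · exact (continuous_apply (i, j)).comp continuous_snd
  have h2 := isClosedMap_snd_of_compactSpace _ h
  convert h2 using 1
  ext z
  constructor
  · rintro ⟨lam, hlam, hz⟩
    exact ⟨(⟨lam, hlam⟩, z), hz, rfl⟩
  · rintro ⟨⟨lam, z'⟩, hz, rfl⟩
    exact ⟨lam.1, lam.2, hz⟩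

/-- the direction `1 e_jᵀ` -/
def dirv (M : ℕ) (j : Fin d) : Fin M × Fin d → ℝ := fun p => if p.2 = j then 1 else 0

theorem sum_dir {lam : Fin M → ℝ} (hlam : lam ∈ stdSimplex ℝ (Fin M)) (z : Fin M × Fin d → ℝ)
    (t : ℝ) (j j' : Fin d) : ∑ i, lam i * (z + t • dirv M j) (i, j') =
      ∑ i, lam i * z (i, j') + t * (if j' = j then 1 else 0) := by
  have h : ∀ i, lam i * (z + t • dirv M j) (i, j') =
      lam i * z (i, j') + lam i * (t * (if j' = j then 1 else 0)) := fun i => by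
    simp only [Pi.add_apply, Pi.smul_apply, smul_eq_mul, dirv, mul_add]
  rw [Finset.sum_congr rfl fun i _ => h i, Finset.sum_add_distrib, ← Finset.sum_mul, hlam.2,
    one_mul]

theorem CC_conv {η : ℝ} {z : Fin M × Fin d → ℝ} {j : Fin d} {t θ : ℝ} (h0 : 0 ≤ θ) (h1 : θ ≤ 1)
    (hz : z ∈ CC M d η) (ht : z + t • dirv M j ∈ CC M d η) :
    z + (θ * t) • dirv M j ∈ CC M d η := by
  obtain ⟨l₀, hl₀, h₀⟩ := hz
  obtain ⟨l₁, hl₁, h₁⟩ := ht
  have hm : (1 - θ) • l₀ + θ • l₁ ∈ stdSimplex ℝ (Fin M) :=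
    convex_stdSimplex ℝ (Fin M) hl₀ hl₁ (by linarith) h0 (by ring)
  refine ⟨_, hm, fun j' => ?_⟩
  have e₁ := h₁ j'
  have e₀ := h₀ j'
  rw [sum_dir hl₁] at e₁
  rw [sum_dir hm]
  have : ∑ i, ((1 - θ) • l₀ + θ • l₁) i * z (i, j') + θ * t * (if j' = j then 1 else 0) =
      (1 - θ) * ∑ i, l₀ i * z (i, j') +
        θ * (∑ i, l₁ i * z (i, j') + t * (if j' = j then 1 else 0)) := by
    simp only [Pi.add_apply, Pi.smul_apply, smul_eq_mul, add_mul, Finset.sum_add_distrib, mul_assoc,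
      ← Finset.mul_sum]
    ring
  rw [this]
  rw [abs_le] at e₀ e₁ ⊢
  constructor <;> nlinarith [e₀.1, e₀.2, e₁.1, e₁.2]

/-- the boundary layer of `CC` in direction `dirv j` -/
def EE (M d : ℕ) (η Δ : ℝ) (j : Fin d) : Set (Fin M × Fin d → ℝ) :=
  {z | z ∈ CC M d η ∧ z + Δ • dirv M j ∉ CC M d η}

theorem EE_meas (η Δ : ℝ) (j : Fin d) : MeasurableSet (EE M d η Δ j) := by
  have h := (CC_closed (M := M) (d := d) η).measurableSet
  exact h.inter ((measurable_id.add_const (Δ • dirv M j)) h).compl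

theorem EE_line {η Δ : ℝ} {j : Fin d} {z : Fin M × Fin d → ℝ} {t : ℝ} (hz : z ∈ EE M d η Δ j)
    (ht : z + t • dirv M j ∈ EE M d η Δ j) : |t| ≤ |Δ| := by
  by_contra hlt
  push Not at hlt
  have ht0 : t ≠ 0 := by
    rintro rfl
    simp only [abs_zero] at hlt
    exact absurd hlt (not_lt.2 (abs_nonneg Δ))
  have habs : |Δ / t| < 1 := by
    rw [abs_div, div_lt_one (abs_pos.2 ht0)]; exact hlt
  rw [abs_lt] at habs
  rcases le_total 0 (Δ / t) with h | h
  · have := CC_conv h habs.2.le hz.1 ht.1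
    rw [div_mul_cancel₀ _ ht0] at this
    exact hz.2 this
  · have := CC_conv (θ := 1 + Δ / t) (by linarith [habs.1]) (by linarith) hz.1 ht.1
    rw [add_mul, one_mul, div_mul_cancel₀ _ ht0, add_smul, ← add_assoc] at this
    exact ht.2 this

theorem EE_le (hM : 1 ≤ M) (η Δ : ℝ) (j : Fin d) :
    gam (Fin M × Fin d) (EE M d η Δ j) ≤ ENNReal.ofReal (2 * (M * |Δ|)) := by
  have hM' : (1 : ℝ) ≤ M := by exact_mod_cast hM
  have hs : 0 < √(M : ℝ) := Real.sqrt_pos.2 (by linarith)
  have hsM : √(M : ℝ) ≤ M := by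
    rw [Real.sqrt_le_left (by linarith)]; nlinarith
  refine gam_line ((√(M : ℝ))⁻¹ • dirv M j) ?_ _ (EE_meas η Δ j) _ ?_
  · have : dirv M j ⬝ᵥ dirv M j = M := by
      simp [dirv, dotProduct, Fintype.sum_prod_type]
    rw [smul_dotProduct, dotProduct_smul, this, smul_eq_mul, smul_eq_mul]
    field_simp
    rw [Real.sq_sqrt (by linarith)]
  · intro z t hz ht
    rw [smul_smul] at ht
    have h := EE_line hz ht
    rw [abs_mul, abs_of_pos (inv_pos.2 hs), ← div_eq_mul_inv, div_le_iff₀ hs] at h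
    nlinarith [abs_nonneg Δ]

theorem det_part (hd : 1 ≤ d) {r : ℝ} (hr : 2 ≤ r) {z : Fin M × Fin d → ℝ} (hF : ∀ p, |z p| ≤ r)
    (hU : IsUnit ((mat z)ᵀ * mat z).det) {s : Fin M → ℝ} (hs : Central (Pr (mat z)) (r ^ 2) s)
    {k₁ k₂ : Fin M} (h₁ : s k₁ ≤ 2) (h₂ : r ^ 2 / s k₂ ≤ 2) :
    ∃ j, z ∈ EE M d (2 * M / r) (2 * d * (2 * M + 4) / r) j ∨
      z ∈ EE M d (2 * M / r) (-(2 * d * (2 * M + 4) / r)) j := by
  obtain ⟨hpos, hp, hdual⟩ := hs
  have hr0 : 0 < r := by linarith
  have hd' : (1 : ℝ) ≤ d := by exact_mod_cast hd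
  -- membership in `CC`
  have hC : z ∈ CC M d (2 * M / r) := by
    have hAP : (mat z)ᵀ * Pr (mat z) = (mat z)ᵀ := by
      unfold Pr
      rw [← Matrix.mul_assoc, ← Matrix.mul_assoc, Matrix.mul_nonsing_inv _ hU, Matrix.one_mul]
    have h0 : (mat z)ᵀ *ᵥ (fun k => r ^ 2 / s k - 1) = 0 := by
      rw [← hAP, ← Matrix.mulVec_mulVec, hdual, Matrix.mulVec_zero]
    have hy : ∀ k, 0 < r ^ 2 / s k := fun k => div_pos (by positivity) (hpos k)
    set S := ∑ k, r ^ 2 / s k with hS
    have hS1 : r ^ 2 / 2 ≤ S := by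
      refine le_trans ?_ (Finset.single_le_sum (f := fun k => r ^ 2 / s k)
        (fun k _ => (hy k).le) (Finset.mem_univ k₁))
      exact div_le_div_of_nonneg_left (by positivity) (hpos k₁) h₁
    have hS0 : 0 < S := lt_of_lt_of_le (by positivity) hS1
    refine ⟨fun k => r ^ 2 / s k / S, ⟨fun k => (div_pos (hy k) hS0).le, ?_⟩, fun j => ?_⟩
    · rw [← Finset.sum_div, ← hS, div_self hS0.ne']
    · have h1 := congrFun h0 j
      simp only [mulVec, dotProduct, Matrix.transpose_apply, mat, Matrix.of_apply, Pi.zero_apply,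
        mul_sub, mul_one, Finset.sum_sub_distrib] at h1
      have h2 : ∑ i, r ^ 2 / s i / S * z (i, j) = (∑ i, z (i, j)) / S := by
        rw [← sub_eq_zero.1 h1, Finset.sum_div]
        refine Finset.sum_congr rfl fun i _ => by ring
      have h3 : |∑ i, z (i, j)| ≤ M * r := by
        refine (Finset.abs_sum_le_sum_abs _ _).trans ?_
        refine (Finset.sum_le_sum fun i _ => hF (i, j)).trans ?_
        simp
      rw [h2, abs_div, abs_of_pos hS0, div_le_div_iff₀ hS0 hr0]
      have hM0 : (0 : ℝ) ≤ M := Nat.cast_nonneg M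
      nlinarith [mul_le_mul_of_nonneg_right h3 hr0.le, mul_le_mul_of_nonneg_left hS1 hM0]
  -- the primal vector
  set x : Fin d → ℝ := ((mat z)ᵀ * mat z)⁻¹ *ᵥ ((mat z)ᵀ *ᵥ fun k => s k - 1) with hx
  have hAx : ∀ i, ∑ j, z (i, j) * x j = s i - 1 := by
    intro i
    have h1 : mat z *ᵥ x = fun k => s k - 1 := by
      rw [hx, Matrix.mulVec_mulVec, Matrix.mulVec_mulVec]
      exact hp
    exact congrFun h1 i
  set N := ∑ j, |x j| with hN
  have hN1 : r ≤ 4 * N := by
    have h1 : s k₂ - 1 ≤ r * N := by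
      rw [← hAx, hN, Finset.mul_sum]
      refine Finset.sum_le_sum fun j _ => (le_abs_self _).trans ?_
      rw [abs_mul]
      exact mul_le_mul_of_nonneg_right (hF _) (abs_nonneg _)
    rw [div_le_iff₀ (hpos k₂)] at h₂
    have h2 : r * r ≤ r * (4 * N) := by nlinarith
    exact le_of_mul_le_mul_left h2 hr0
  have hN0 : 0 < N := by linarith
  obtain ⟨j, -, hj⟩ : ∃ j ∈ (Finset.univ : Finset (Fin d)), N / d ≤ |x j| := by
    refine Finset.exists_le_of_sum_le ⟨⟨0, hd⟩, Finset.mem_univ _⟩ ?_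
    rw [← hN, Finset.sum_const, Finset.card_univ, Fintype.card_fin, nsmul_eq_mul]
    rw [mul_div_cancel₀ _ (by linarith)]
  rw [div_le_iff₀ (by linarith)] at hj
  have key : ∀ σ : ℝ, σ * x j = 2 * d * (2 * M + 4) / r * |x j| →
      z + σ • dirv M j ∉ CC M d (2 * M / r) := by
    rintro σ hσ ⟨lam, hlam, hl⟩
    have h1 : ∑ j', (∑ i, lam i * (z + σ • dirv M j) (i, j')) * x j' ≤ 2 * M / r * N := by
      rw [hN, Finset.mul_sum]
      refine Finset.sum_le_sum fun j' _ => (le_abs_self _).trans ?_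
      rw [abs_mul]
      exact mul_le_mul_of_nonneg_right (hl j') (abs_nonneg _)
    have h2 : ∑ j', (∑ i, lam i * (z + σ • dirv M j) (i, j')) * x j' =
        ∑ i, lam i * (s i - 1) + σ * x j := by
      simp only [sum_dir hlam, add_mul, Finset.sum_add_distrib]
      congr 1
      · simp only [← hAx, Finset.sum_mul, Finset.mul_sum, mul_assoc]
        exact Finset.sum_comm
      · simp
    have h3 : -1 ≤ ∑ i, lam i * (s i - 1) := by
      have : ∑ i, lam i * (-1) ≤ ∑ i, lam i * (s i - 1) :=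
        Finset.sum_le_sum fun i _ => mul_le_mul_of_nonneg_left (by linarith [hpos i]) (hlam.1 i)
      rwa [← Finset.sum_mul, hlam.2, one_mul] at this
    rw [h2, hσ] at h1
    have hM0 : (0 : ℝ) ≤ M := Nat.cast_nonneg M
    have h4 : -1 + 2 * d * (2 * M + 4) / r * |x j| ≤ 2 * M / r * N := by linarith
    have h5 : -r + 2 * (2 * M + 4) * (|x j| * d) ≤ 2 * M * N := by
      have := mul_le_mul_of_nonneg_right h4 hr0.le
      field_simp at this
      linarith
    nlinarith [mul_le_mul_of_nonneg_left hj (by positivity : (0 : ℝ) ≤ 2 * (2 * M + 4))]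
  refine ⟨j, ?_⟩
  rcases le_total 0 (x j) with h | h
  · exact Or.inl ⟨hC, key _ (by rw [abs_of_nonneg h])⟩
  · exact Or.inr ⟨hC, key _ (by rw [abs_of_nonpos h]; ring)⟩

theorem entry_tail {ι : Type} [Fintype ι] [DecidableEq ι] {r : ℝ} (hr : 0 < r) (p : ι) :
    gam ι {z | r < |z p|} ≤ ENNReal.ofReal (2 / r) := by
  have he : Real.exp (-r ^ 2 / 2) ≤ 1 / r := by
    rw [neg_div, Real.exp_neg, ← one_div]
    refine one_div_le_one_div_of_le hr ?_
    nlinarith [Real.add_one_le_exp (r ^ 2 / 2), sq_nonneg (r - 1)]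
  have h1 := gam_tail (Pi.single p (1 : ℝ)) 1 r (by simp) one_pos hr.le
  have h2 := gam_tail (Pi.single p (-1 : ℝ)) 1 r (by simp) one_pos hr.le
  calc _ ≤ gam ι ({z | r * 1 ≤ Pi.single p (1 : ℝ) ⬝ᵥ z} ∪ {z | r * 1 ≤ Pi.single p (-1 : ℝ) ⬝ᵥ z}) := by
        refine measure_mono fun z hz => ?_
        simp only [Set.mem_ofPred_eq, Set.mem_union, single_dotProduct] at hz ⊢
        rcases lt_abs.1 hz with h | h
        · left; linarith
        · right; linarith
    _ ≤ ENNReal.ofReal (1 / r) + ENNReal.ofReal (1 / r) :=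
        (measure_union_le _ _).trans (add_le_add (h1.trans (ENNReal.ofReal_le_ofReal he))
          (h2.trans (ENNReal.ofReal_le_ofReal he)))
    _ = ENNReal.ofReal (2 / r) := by
        rw [← ENNReal.ofReal_add (by positivity) (by positivity)]
        congr 1; ring

theorem union_le {α ι : Type} [MeasurableSpace α] [Fintype ι] (μ : Measure α) (E : ι → Set α)
    {a : ℝ} (h : ∀ i, μ (E i) ≤ ENNReal.ofReal a) :
    μ (⋃ i, E i) ≤ ENNReal.ofReal (Fintype.card ι * a) := by
  refine (measure_iUnion_fintype_le μ E).trans ((Finset.sum_le_sum fun i _ => h i).trans ?_)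
  rw [Finset.sum_const, Finset.card_univ, nsmul_eq_mul, ENNReal.ofReal_mul (Nat.cast_nonneg _),
    ENNReal.ofReal_natCast]

end G47

/-- GOOD4: both searches fail at a large parameter -/
theorem good_final {M d : ℕ} (hd : 1 ≤ d) (h : d ≤ M) (μ : ℝ) (hμ : 4 ≤ μ) :
    gam (Fin M × Fin d) {z | IsUnit ((mat z)ᵀ * mat z).det ∧ ∃ s, Central (Pr (mat z)) μ s ∧
      (∃ k, s k ≤ 2) ∧ ∃ k, μ / s k ≤ 2} ≤ ENNReal.ofReal (100 * (M : ℝ) ^ 4 / √μ) := by
  obtain ⟨r, hr, rfl⟩ : ∃ r : ℝ, 2 ≤ r ∧ μ = r ^ 2 :=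
    ⟨√μ, Real.le_sqrt_of_sq_le (by linarith), (Real.sq_sqrt (by linarith)).symm⟩
  have hr0 : 0 < r := by linarith
  rw [Real.sqrt_sq hr0.le]
  have hM : 1 ≤ M := hd.trans h
  have hd' : (1 : ℝ) ≤ d := by exact_mod_cast hd
  have hdM : (d : ℝ) ≤ M := by exact_mod_cast h
  set Δ : ℝ := 2 * d * (2 * M + 4) / r with hΔ
  have hΔ0 : 0 ≤ Δ := by positivity
  have b1 := G47.union_le (gam (Fin M × Fin d)) (fun p : Fin M × Fin d => {z | r < |z p|})
    (fun p => G47.entry_tail hr0 p)
  have b2 := G47.union_le (gam (Fin M × Fin d)) (fun j => G47.EE M d (2 * M / r) Δ j)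
    (fun j => G47.EE_le hM _ _ j)
  have b3 := G47.union_le (gam (Fin M × Fin d)) (fun j => G47.EE M d (2 * M / r) (-Δ) j)
    (fun j => G47.EE_le hM _ _ j)
  rw [abs_neg] at b3
  rw [abs_of_nonneg hΔ0] at b2 b3
  calc _ ≤ gam (Fin M × Fin d) ((⋃ p : Fin M × Fin d, {z | r < |z p|}) ∪
        ((⋃ j, G47.EE M d (2 * M / r) Δ j) ∪ ⋃ j, G47.EE M d (2 * M / r) (-Δ) j)) := by
        refine measure_mono ?_
        rintro z ⟨hU, s, hs, ⟨k₁, h₁⟩, k₂, h₂⟩
        by_cases hF : ∀ p, |z p| ≤ r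
        · obtain ⟨j, hj | hj⟩ := G47.det_part hd hr hF hU hs h₁ h₂
          · exact Or.inr (Or.inl (Set.mem_iUnion.2 ⟨j, hj⟩))
          · exact Or.inr (Or.inr (Set.mem_iUnion.2 ⟨j, hj⟩))
        · push Not at hF
          exact Or.inl (Set.mem_iUnion.2 hF)
    _ ≤ _ := (measure_union_le _ _).trans
        (add_le_add b1 ((measure_union_le _ _).trans (add_le_add b2 b3)))
    _ ≤ _ := by
        rw [← ENNReal.ofReal_add (by positivity) (by positivity),
          ← ENNReal.ofReal_add (by positivity) (by positivity)]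
        refine ENNReal.ofReal_le_ofReal ?_
        simp only [Fintype.card_prod, Fintype.card_fin, Nat.cast_mul, hΔ]
        rw [le_div_iff₀ hr0]
        field_simp
        have hM' : (1 : ℝ) ≤ M := hd'.trans hdM
        have e1 : (M : ℝ) * d ≤ M ^ 4 := by
          calc (M : ℝ) * d ≤ M * M := by gcongr
            _ ≤ M * M * (M * M) := le_mul_of_one_le_right (by positivity) (by nlinarith)
            _ = M ^ 4 := by ring
        have e2 : (M : ℝ) * d ^ 2 * (2 * M + 4) ≤ 6 * M ^ 4 := by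
          calc (M : ℝ) * d ^ 2 * (2 * M + 4) ≤ (M : ℝ) * M ^ 2 * (6 * M) := by gcongr; linarith
            _ = 6 * (M : ℝ) ^ 4 := by ring
        nlinarith [pow_pos (by linarith : (0 : ℝ) < M) 4]

end Pool.Agent.P.MP_ef347d_lc
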