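import Pool.Agent.P.MP_ef347d_lc.Gauss

/-! GOOD6: the condition tail of a Gaussian linear program. -/

namespace Pool.Agent.P.MP_ef347d_lc

open Matrix MeasureTheory ProbabilityTheory

namespace G6

theorem measurable_extend {ι κ : Type} (f : κ → ι) (hf : Function.Injective f) :
    Measurable (fun p : (ι → ℝ) × (κ → ℝ) => Function.extend f p.2 p.1) := by
  refine measurable_pi_lambda _ fun i => ?_
  by_cases h : ∃ k, f k = i
  · obtain ⟨k, rfl⟩ := h
    simp only [hf.extend_apply]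
    exact (measurable_pi_apply k).comp measurable_snd
  · simp only [Function.extend_apply' _ _ _ h]
    exact (measurable_pi_apply i).comp measurable_fst

/-- resampling a block of coordinates preserves the Gaussian measure -/
theorem mp_extend {ι κ : Type} [Fintype ι] [Fintype κ] (f : κ → ι)
    (hf : Function.Injective f) :
    MeasurePreserving (fun p : (ι → ℝ) × (κ → ℝ) => Function.extend f p.2 p.1)
      ((gam ι).prod (gam κ)) (gam ι) := by
  classical
  refine ⟨measurable_extend f hf, ?_⟩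
  symm
  refine Measure.pi_eq fun s hs => ?_
  rw [Measure.map_apply (measurable_extend f hf) (MeasurableSet.univ_pi hs)]
  have hset : (fun p : (ι → ℝ) × (κ → ℝ) => Function.extend f p.2 p.1) ⁻¹' Set.univ.pi s =
      (Set.univ.pi fun i => if ∃ k, f k = i then Set.univ else s i) ×ˢ
        (Set.univ.pi fun k => s (f k)) := by
    ext p
    simp only [Set.mem_preimage, Set.mem_pi, Set.mem_univ, forall_true_left, Set.mem_prod]
    constructor
    · intro h
      refine ⟨fun i => ?_, fun k => ?_⟩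
      · by_cases hi : ∃ k, f k = i
        · simp [hi]
        · have := h i
          rw [Function.extend_apply' _ _ _ hi] at this
          simpa [hi] using this
      · have := h (f k)
        rwa [hf.extend_apply] at this
    · rintro ⟨h1, h2⟩ i
      by_cases hi : ∃ k, f k = i
      · obtain ⟨k, rfl⟩ := hi
        rw [hf.extend_apply]
        exact h2 k
      · rw [Function.extend_apply' _ _ _ hi]
        simpa [hi] using h1 i
  rw [hset, Measure.prod_prod, Measure.pi_pi, Measure.pi_pi]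
  have h2 : ∏ k, gaussianReal 0 1 (s (f k)) =
      ∏ i, if ∃ k, f k = i then gaussianReal 0 1 (s i) else 1 := by
    rw [← Finset.prod_filter]
    have : (Finset.univ.filter fun i => ∃ k, f k = i) = Finset.univ.image f := by
      ext i; simp
    rw [this, Finset.prod_image (fun a _ b _ hab => hf hab)]
  rw [h2, ← Finset.prod_mul_distrib]
  refine Finset.prod_congr rfl fun i _ => ?_
  by_cases hi : ∃ k, f k = i
  · simp [hi]
  · simp [hi]

theorem fiber_le {ι κ : Type} [Fintype ι] [Fintype κ] (f : κ → ι) (hf : Function.Injective f)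
    {E : Set (ι → ℝ)} (hE : MeasurableSet E) {B : ENNReal}
    (h : ∀ D, gam κ {w | Function.extend f w D ∈ E} ≤ B) : gam ι E ≤ B := by
  rw [← (mp_extend f hf).measure_preimage hE.nullMeasurableSet,
    Measure.prod_apply (measurable_extend f hf hE)]
  calc ∫⁻ D, gam κ (Prod.mk D ⁻¹'
        ((fun p : (ι → ℝ) × (κ → ℝ) => Function.extend f p.2 p.1) ⁻¹' E)) ∂(gam ι)
      ≤ ∫⁻ _, B ∂(gam ι) := lintegral_mono fun D => h D
    _ = B := by simp

/-- two sided slab bound for an arbitrary direction -/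
theorem slab_le {κ : Type} [Fintype κ] (v : κ → ℝ) (hv : 0 < v ⬝ᵥ v) (a δ : ℝ) :
    gam κ {w | |v ⬝ᵥ w - a| ≤ δ * √(v ⬝ᵥ v)} ≤ ENNReal.ofReal (2 * δ) := by
  set r := √(v ⬝ᵥ v) with hr
  have hr0 : 0 < r := Real.sqrt_pos.2 hv
  have hrr : r * r = v ⬝ᵥ v := Real.mul_self_sqrt hv.le
  have h1 : (r⁻¹ • v) ⬝ᵥ (r⁻¹ • v) = 1 := by
    rw [smul_dotProduct, dotProduct_smul, ← hrr, smul_eq_mul, smul_eq_mul]
    field_simp
  refine le_trans (measure_mono ?_) (gam_slab (r⁻¹ • v) h1 (a / r - δ) (2 * δ))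
  intro w hw
  simp only [Set.mem_ofPred_eq, smul_dotProduct, smul_eq_mul] at hw ⊢
  rw [abs_le] at hw
  have e1 : r⁻¹ * (v ⬝ᵥ w) = (v ⬝ᵥ w - a) / r + a / r := by field_simp; ring
  have e2 : -δ ≤ (v ⬝ᵥ w - a) / r := by rw [le_div_iff₀ hr0]; linarith [hw.1]
  have e3 : (v ⬝ᵥ w - a) / r ≤ δ := by rw [div_le_iff₀ hr0]; linarith [hw.2]
  constructor <;> linarith

theorem lintegral_sq_gauss : ∫⁻ x, ENNReal.ofReal (x * x) ∂(gaussianReal 0 1) = 1 := by
  have hm : MemLp id 2 (gaussianReal 0 1) := memLp_id_gaussianReal' 2 (by simp)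
  have hi : Integrable (fun x : ℝ => x * x) (gaussianReal 0 1) := by
    have := hm.integrable_sq
    simpa [sq] using this
  rw [← ofReal_integral_eq_lintegral_ofReal hi (ae_of_all _ fun x => mul_self_nonneg x)]
  have hv := variance_eq_sub hm
  rw [variance_id_gaussianReal] at hv
  have h0 : ∫ x, id x ∂(gaussianReal 0 1) = 0 := by simp
  rw [h0] at hv
  have : ∫ x : ℝ, x * x ∂(gaussianReal 0 1) = 1 := by
    simpa [sq] using hv.symm
  rw [this]; simp

theorem markov_sq {ι : Type} [Fintype ι] (η : ℝ) (hη : 0 < η) :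
    gam ι {D | 1 / η < D ⬝ᵥ D} ≤ ENNReal.ofReal (Fintype.card ι * η) := by
  have hmeas : Measurable fun D : ι → ℝ => ENNReal.ofReal (D ⬝ᵥ D) := by
    unfold dotProduct
    fun_prop
  have hint : ∫⁻ D, ENNReal.ofReal (D ⬝ᵥ D) ∂(gam ι) = Fintype.card ι := by
    have e : ∀ D : ι → ℝ, ENNReal.ofReal (D ⬝ᵥ D) = ∑ i, ENNReal.ofReal (D i * D i) := fun D => by
      unfold dotProduct
      exact ENNReal.ofReal_sum_of_nonneg fun i _ => mul_self_nonneg _
    simp_rw [e]
    rw [lintegral_finsetSum _ fun i _ => by fun_prop]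
    have : ∀ i : ι, ∫⁻ D, ENNReal.ofReal (D i * D i) ∂(gam ι) = 1 := fun i => by
      have hp := measurePreserving_eval (fun _ : ι => gaussianReal 0 1) i
      rw [← lintegral_sq_gauss, ← hp.lintegral_comp (by fun_prop)]
    simp [this]
  have h1 := mul_meas_ge_le_lintegral (μ := gam ι) hmeas (ENNReal.ofReal (1 / η))
  rw [hint] at h1
  have hsub : {D : ι → ℝ | 1 / η < D ⬝ᵥ D} ⊆
      {D | ENNReal.ofReal (1 / η) ≤ ENNReal.ofReal (D ⬝ᵥ D)} := fun D hD =>
    ENNReal.ofReal_le_ofReal (le_of_lt hD)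
  refine le_trans (measure_mono hsub) ?_
  have h2 : ENNReal.ofReal η * ENNReal.ofReal (1 / η) = 1 := by
    rw [← ENNReal.ofReal_mul hη.le]; simp [hη.ne']
  calc gam ι {D | ENNReal.ofReal (1 / η) ≤ ENNReal.ofReal (D ⬝ᵥ D)}
      = ENNReal.ofReal η * (ENNReal.ofReal (1 / η) *
          gam ι {D | ENNReal.ofReal (1 / η) ≤ ENNReal.ofReal (D ⬝ᵥ D)}) := by
        rw [← mul_assoc, h2, one_mul]
    _ ≤ ENNReal.ofReal η * Fintype.card ι := by gcongr
    _ = ENNReal.ofReal (Fintype.card ι * η) := by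
        rw [ENNReal.ofReal_mul (by positivity), ENNReal.ofReal_natCast, mul_comm]


variable {m n : ℕ}

/-- basis matrix -/
def BB (e : Fin n ↪o Fin m) (D : Idx m n → ℝ) : Matrix (Fin n) (Fin n) ℝ :=
  (dA D).submatrix e id

/-- inverse of the basis matrix -/
noncomputable def HH (e : Fin n ↪o Fin m) (D : Idx m n → ℝ) : Matrix (Fin n) (Fin n) ℝ :=
  (BB e D)⁻¹

/-- basic point -/
noncomputable def xx (e : Fin n ↪o Fin m) (D : Idx m n → ℝ) : Fin n → ℝ :=
  HH e D *ᵥ fun i => db D (e i)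

/-- dual multipliers -/
noncomputable def yy (e : Fin n ↪o Fin m) (D : Idx m n → ℝ) : Fin n → ℝ :=
  (HH e D)ᵀ *ᵥ dc D

/-- slacks -/
noncomputable def sl (e : Fin n ↪o Fin m) (D : Idx m n → ℝ) (k : Fin m) : ℝ :=
  db D k - (dA D *ᵥ xx e D) k

theorem cont_BB (e : Fin n ↪o Fin m) : Continuous (BB e) := by
  refine continuous_matrix fun i j => ?_
  exact continuous_apply (Sum.inl (e i, j) : Idx m n)

theorem meas_det (e : Fin n ↪o Fin m) : Measurable fun D => (BB e D).det :=
  (cont_BB e).matrix_det.measurable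

theorem meas_HH (e : Fin n ↪o Fin m) (i j : Fin n) : Measurable fun D => HH e D i j := by
  have : (fun D => HH e D i j) = fun D => ((BB e D).det)⁻¹ * (BB e D).adjugate i j := by
    funext D
    rw [HH, Matrix.inv_def, Ring.inverse_eq_inv']
    rfl
  rw [this]
  exact (meas_det e).inv.mul ((cont_BB e).matrix_adjugate.matrix_elem i j).measurable

theorem meas_xx (e : Fin n ↪o Fin m) (i : Fin n) : Measurable fun D => xx e D i := by
  unfold xx Matrix.mulVec dotProduct
  exact Finset.measurable_sum _ fun j _ => (meas_HH e i j).mul (measurable_pi_apply _)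

theorem meas_yy (e : Fin n ↪o Fin m) (i : Fin n) : Measurable fun D => yy e D i := by
  unfold yy Matrix.mulVec dotProduct
  exact Finset.measurable_sum _ fun j _ => (meas_HH e j i).mul (measurable_pi_apply _)

theorem meas_sl (e : Fin n ↪o Fin m) (k : Fin m) : Measurable fun D => sl e D k := by
  unfold sl Matrix.mulVec dotProduct
  exact (measurable_pi_apply _).sub
    (Finset.measurable_sum _ fun j _ => (measurable_pi_apply _).mul (meas_xx e j))

theorem meas_dot {ι : Type} [Fintype ι] : Measurable fun D : ι → ℝ => D ⬝ᵥ D := by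
  unfold dotProduct
  fun_prop

/-! ### single estimates -/

theorem det_null (e : Fin n ↪o Fin m) : gam (Idx m n) {D | (BB e D).det = 0} = 0 := by
  refine le_antisymm ?_ zero_le
  have hf : Function.Injective
      (fun p : Fin n × Fin n => (Sum.inl (e p.1, p.2) : Idx m n)) := by
    rintro ⟨a, b⟩ ⟨c, d⟩ h
    simp only [Sum.inl.injEq, Prod.mk.injEq, EmbeddingLike.apply_eq_iff_eq] at h
    exact Prod.ext h.1 h.2
  refine fiber_le _ hf (measurableSet_eq_fun (meas_det e) measurable_const) fun D => ?_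
  have h := gam_rank (ι := Fin n) (κ := Fin n) le_rfl
  rw [ae_iff] at h
  refine le_trans (measure_mono ?_) h.le
  intro w hw
  simp only [Set.mem_ofPred_eq] at hw ⊢
  have : BB e (Function.extend (fun p : Fin n × Fin n => (Sum.inl (e p.1, p.2) : Idx m n)) w D) =
      mat w := by
    ext i j
    exact hf.extend_apply w D (i, j)
  rw [this] at hw
  rw [Matrix.det_mul, hw, mul_zero]
  exact not_isUnit_zero

theorem slack_le (e : Fin n ↪o Fin m) (k : Fin m) (hk : k ∉ Set.range e) (δ : ℝ) :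
    gam (Idx m n) {D | |sl e D k| ≤ δ} ≤ ENNReal.ofReal (2 * δ) := by
  have hf : Function.Injective (fun _ : Unit => (Sum.inr (Sum.inl k) : Idx m n)) :=
    fun _ _ _ => rfl
  refine fiber_le _ hf (measurableSet_le (meas_sl e k).abs measurable_const) fun D => ?_
  have h1 : (fun _ : Unit => (1 : ℝ)) ⬝ᵥ (fun _ => 1) = 1 := by simp [dotProduct]
  have h := slab_le (fun _ : Unit => (1 : ℝ)) (by rw [h1]; exact one_pos) ((dA D *ᵥ xx e D) k) δ
  refine le_trans (measure_mono ?_) h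
  intro w hw
  simp only [Set.mem_ofPred_eq] at hw ⊢
  set D' := Function.extend (fun _ : Unit => (Sum.inr (Sum.inl k) : Idx m n)) w D with hD'
  have hA : dA D' = dA D := by
    ext i j
    exact Function.extend_apply' _ _ _ (by simp)
  have hb : ∀ i, db D' (e i) = db D (e i) := fun i =>
    Function.extend_apply' _ _ _ (by
      rintro ⟨_, h⟩
      simp only [Sum.inr.injEq, Sum.inl.injEq] at h
      exact hk ⟨i, h.symm⟩)
  have hx : xx e D' = xx e D := by
    simp only [xx, HH, BB, hA, hb]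
  have hk' : db D' k = w () := hf.extend_apply w D ()
  rw [sl, hA, hx, hk'] at hw
  rw [h1]
  simpa [dotProduct] using hw

theorem row_col (e : Fin n ↪o Fin m) (D : Idx m n → ℝ) (hD : (BB e D).det ≠ 0) (i : Fin n) :
    BB e D *ᵥ (fun j => HH e D j i) = Pi.single i 1 := by
  have h := Matrix.mul_nonsing_inv (BB e D) (isUnit_iff_ne_zero.2 hD)
  funext k
  have := congrFun (congrFun h k) i
  rw [Matrix.mul_apply] at this
  simp only [Matrix.mulVec, dotProduct, HH]
  rw [this, Matrix.one_apply, Pi.single_apply]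

theorem dual_le (e : Fin n ↪o Fin m) (i : Fin n) (R δ : ℝ) (hR : 0 ≤ R) (hδ : 0 ≤ δ) :
    gam (Idx m n) {D | (BB e D).det ≠ 0 ∧ BB e D i ⬝ᵥ BB e D i ≤ R ^ 2 ∧ |yy e D i| ≤ δ} ≤
      ENNReal.ofReal (2 * (δ * R)) := by
  have hf : Function.Injective (fun j : Fin n => (Sum.inr (Sum.inr j) : Idx m n)) :=
    fun a b h => by simpa using h
  have hmeas : MeasurableSet
      {D | (BB e D).det ≠ 0 ∧ BB e D i ⬝ᵥ BB e D i ≤ R ^ 2 ∧ |yy e D i| ≤ δ} := by
    have h0 : Measurable fun D => BB e D i ⬝ᵥ BB e D i := by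
      unfold dotProduct
      exact Finset.measurable_sum _ fun j _ =>
        ((cont_BB e).matrix_elem i j).measurable.mul ((cont_BB e).matrix_elem i j).measurable
    have h1 : MeasurableSet {D | BB e D i ⬝ᵥ BB e D i ≤ R ^ 2} :=
      measurableSet_le h0 measurable_const
    have h2 : MeasurableSet {D | |yy e D i| ≤ δ} :=
      measurableSet_le (meas_yy e i).abs measurable_const
    have h3 : MeasurableSet {D | (BB e D).det = 0} :=
      measurableSet_eq_fun (meas_det e) measurable_const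
    exact h3.compl.inter (h1.inter h2)
  refine fiber_le _ hf hmeas fun D => ?_
  have hA : ∀ w, BB e (Function.extend (fun j : Fin n => (Sum.inr (Sum.inr j) : Idx m n)) w D) =
      BB e D := fun w => by
    ext a b
    exact Function.extend_apply' _ _ _ (by simp)
  have hy : ∀ w, yy e (Function.extend (fun j : Fin n => (Sum.inr (Sum.inr j) : Idx m n)) w D) i =
      (fun j => HH e D j i) ⬝ᵥ w := fun w => by
    have hc : dc (Function.extend (fun j : Fin n => (Sum.inr (Sum.inr j) : Idx m n)) w D) = w := by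
      funext j
      exact hf.extend_apply w D j
    simp only [yy, HH, hA, hc]
    rfl
  by_cases hD : (BB e D).det ≠ 0 ∧ BB e D i ⬝ᵥ BB e D i ≤ R ^ 2
  · set v : Fin n → ℝ := fun j => HH e D j i with hv
    have h1 : BB e D i ⬝ᵥ v = 1 := by
      have := congrFun (row_col e D hD.1 i) i
      rw [Pi.single_eq_same] at this
      exact this
    have hcs : (BB e D i ⬝ᵥ v) ^ 2 ≤ (BB e D i ⬝ᵥ BB e D i) * (v ⬝ᵥ v) := by
      have := Finset.sum_mul_sq_le_sq_mul_sq Finset.univ (BB e D i) v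
      simpa [dotProduct, sq] using this
    have hvv : 0 ≤ v ⬝ᵥ v := Finset.sum_nonneg fun j _ => mul_self_nonneg _
    have h2 : 1 ≤ R ^ 2 * (v ⬝ᵥ v) := by
      rw [h1] at hcs
      nlinarith [mul_le_mul_of_nonneg_right hD.2 hvv]
    have hpos : 0 < v ⬝ᵥ v := by
      rcases hvv.lt_or_eq with h | h
      · exact h
      · rw [← h] at h2; norm_num at h2
    have h3 : 1 ≤ R * √(v ⬝ᵥ v) := by
      have : R * √(v ⬝ᵥ v) = √(R ^ 2 * (v ⬝ᵥ v)) := by
        rw [Real.sqrt_mul (sq_nonneg R), Real.sqrt_sq hR]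
      rw [this]
      exact Real.one_le_sqrt.2 h2
    refine le_trans (measure_mono ?_) (slab_le v hpos 0 (δ * R))
    intro w hw
    simp only [Set.mem_ofPred_eq, hy] at hw ⊢
    rw [sub_zero]
    calc |v ⬝ᵥ w| ≤ δ := hw.2.2
      _ ≤ δ * (R * √(v ⬝ᵥ v)) := le_mul_of_one_le_right hδ h3
      _ = δ * R * √(v ⬝ᵥ v) := by ring
  · refine le_trans (le_of_eq ?_) zero_le
    refine measure_mono_null ?_ measure_empty
    intro w hw
    simp only [Set.mem_ofPred_eq, hA] at hw
    exact hD ⟨hw.1, hw.2.1⟩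

theorem col_le (e : Fin n ↪o Fin m) (i : Fin n) (δ : ℝ) (hδ : 0 < δ) :
    gam (Idx m n) {D | 1 ≤ δ ^ 2 * ∑ j, HH e D j i ^ 2} ≤ ENNReal.ofReal (2 * δ) := by
  have hf : Function.Injective (fun j : Fin n => (Sum.inl (e i, j) : Idx m n)) :=
    fun a b h => by simpa using h
  have hmeas : MeasurableSet {D | 1 ≤ δ ^ 2 * ∑ j, HH e D j i ^ 2} :=
    measurableSet_le measurable_const
      (measurable_const.mul (Finset.measurable_sum _ fun j _ => (meas_HH e j i).pow_const 2))
  refine fiber_le _ hf hmeas fun D => ?_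
  set X : (Fin n → ℝ) → Idx m n → ℝ :=
    fun w => Function.extend (fun j : Fin n => (Sum.inl (e i, j) : Idx m n)) w D with hX
  have hrow : ∀ w, BB e (X w) i = w := fun w => by
    funext j
    exact hf.extend_apply w D j
  have hoth : ∀ w k, k ≠ i → BB e (X w) k = BB e D k := fun w k hk => by
    funext j
    exact Function.extend_apply' _ _ _ (by
      rintro ⟨_, h⟩
      simp only [Sum.inl.injEq, Prod.mk.injEq, EmbeddingLike.apply_eq_iff_eq] at h
      exact hk h.1.symm)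
  have hdet : ∀ D' : Idx m n → ℝ, 1 ≤ δ ^ 2 * ∑ j, HH e D' j i ^ 2 → (BB e D').det ≠ 0 := by
    intro D' h h0
    have : HH e D' = 0 := Matrix.nonsing_inv_apply_not_isUnit _ (by rw [h0]; exact not_isUnit_zero)
    rw [this] at h
    norm_num at h
  by_cases hex : ∃ w₀, (BB e (X w₀)).det ≠ 0
  · obtain ⟨w₀, hw₀⟩ := hex
    set v : Fin n → ℝ := fun j => HH e (X w₀) j i with hv
    have hv0 := row_col e (X w₀) hw₀ i
    have hvv : 0 ≤ v ⬝ᵥ v := Finset.sum_nonneg fun j _ => mul_self_nonneg _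
    have hpos : 0 < v ⬝ᵥ v := by
      rcases hvv.lt_or_eq with h | h
      · exact h
      · have : v = 0 := dotProduct_self_eq_zero.1 h.symm
        have h1 := congrFun hv0 i
        rw [← hv, this] at h1
        simp at h1
    refine le_trans (measure_mono ?_) (slab_le v hpos 0 δ)
    intro w hw
    simp only [Set.mem_ofPred_eq] at hw ⊢
    have hd : (BB e (X w)).det ≠ 0 := hdet _ hw
    have h1 : BB e (X w) *ᵥ v = (v ⬝ᵥ w) • Pi.single i 1 := by
      funext k
      by_cases hk : k = i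
      · subst hk
        simp [Matrix.mulVec, hrow, dotProduct_comm]
      · have := congrFun hv0 k
        rw [← hv] at this
        simp only [Matrix.mulVec, hoth _ k hk] at this ⊢
        rw [this]
        simp [hk]
    have h2 : v = (v ⬝ᵥ w) • fun j => HH e (X w) j i := by
      have h3 := congrArg (fun u => HH e (X w) *ᵥ u) h1
      simp only [HH, Matrix.mulVec_mulVec, Matrix.mulVec_smul,
        Matrix.nonsing_inv_mul _ (isUnit_iff_ne_zero.2 hd), Matrix.one_mulVec] at h3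
      refine h3.trans ?_
      congr 1
      funext j
      simp [HH]
    have h4 : v ⬝ᵥ v = (v ⬝ᵥ w) ^ 2 * ∑ j, HH e (X w) j i ^ 2 := by
      conv_lhs => rw [h2]
      rw [smul_dotProduct, dotProduct_smul, smul_eq_mul, smul_eq_mul, ← mul_assoc, ← sq]
      simp [dotProduct, sq]
    have h5 : (v ⬝ᵥ w) ^ 2 ≤ (δ * √(v ⬝ᵥ v)) ^ 2 := by
      rw [mul_pow, Real.sq_sqrt hvv]
      have := mul_le_mul_of_nonneg_left hw (sq_nonneg (v ⬝ᵥ w))
      calc (v ⬝ᵥ w) ^ 2 = (v ⬝ᵥ w) ^ 2 * 1 := (mul_one _).symm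
        _ ≤ (v ⬝ᵥ w) ^ 2 * (δ ^ 2 * ∑ j, HH e (X w) j i ^ 2) := this
        _ = δ ^ 2 * (v ⬝ᵥ v) := by rw [h4]; ring
    rw [sub_zero]
    exact abs_le_of_sq_le_sq' h5 (by positivity) |> abs_le.2
  · refine le_trans (le_of_eq ?_) zero_le
    refine measure_mono_null ?_ measure_empty
    intro w hw
    exact hex ⟨w, hdet _ hw⟩

/-! ### sign flips of the rows -/

/-- sign of a Boolean -/
def sg (b : Bool) : ℝ := if b then 1 else -1

theorem sg_sq (b : Bool) : sg b * sg b = 1 := by cases b <;> simp [sg]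

theorem abs_sg (b : Bool) : |sg b| = 1 := by cases b <;> simp [sg]

theorem sg_disj {a b : Bool} (h : a ≠ b) {t : ℝ} (h1 : 0 < sg a * t) (h2 : 0 < sg b * t) :
    False := by
  cases a <;> cases b <;> simp [sg] at h h1 h2 <;> linarith

/-- sign attached to a coordinate by a choice of row signs -/
def sgn (ε : Fin m → Bool) : Idx m n → ℝ
  | Sum.inl p => sg (ε p.1)
  | Sum.inr (Sum.inl i) => sg (ε i)
  | Sum.inr (Sum.inr _) => 1

/-- flip the rows of `(A, b)` -/
def fl (ε : Fin m → Bool) (D : Idx m n → ℝ) : Idx m n → ℝ := fun p => sgn ε p * D p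

theorem mp_sg (b : Bool) :
    MeasurePreserving (fun x : ℝ => sg b * x) (gaussianReal 0 1) (gaussianReal 0 1) := by
  refine ⟨by fun_prop, ?_⟩
  cases b
  · have := gaussianReal_map_neg (μ := 0) (v := 1)
    simpa [sg] using this
  · simp [sg]

theorem mp_fl (ε : Fin m → Bool) :
    MeasurePreserving (fl (n := n) ε) (gam (Idx m n)) (gam (Idx m n)) := by
  refine measurePreserving_pi (fun _ : Idx m n => gaussianReal 0 1)
    (fun _ : Idx m n => gaussianReal 0 1) (f := fun p x => sgn ε p * x) fun p => ?_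
  rcases p with p | i | j
  · exact mp_sg _
  · exact mp_sg _
  · simpa [sgn, sg] using mp_sg true

theorem BB_fl (e : Fin n ↪o Fin m) (ε : Fin m → Bool) (D : Idx m n → ℝ) :
    BB e (fl ε D) = Matrix.diagonal (fun i => sg (ε (e i))) * BB e D := by
  ext i j
  rw [Matrix.diagonal_mul]
  rfl

theorem HH_fl (e : Fin n ↪o Fin m) (ε : Fin m → Bool) (D : Idx m n → ℝ) :
    HH e (fl ε D) = HH e D * Matrix.diagonal (fun i => sg (ε (e i))) := by
  rw [HH, BB_fl, Matrix.mul_inv_rev]
  congr 1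
  refine Matrix.inv_eq_left_inv ?_
  rw [Matrix.diagonal_mul_diagonal]
  simp [sg_sq]

theorem xx_fl (e : Fin n ↪o Fin m) (ε : Fin m → Bool) (D : Idx m n → ℝ) :
    xx e (fl ε D) = xx e D := by
  rw [xx, xx, HH_fl, ← Matrix.mulVec_mulVec]
  congr 1
  funext i
  rw [Matrix.mulVec_diagonal]
  change sg (ε (e i)) * (sg (ε (e i)) * db D (e i)) = _
  rw [← mul_assoc, sg_sq, one_mul]

theorem yy_fl (e : Fin n ↪o Fin m) (ε : Fin m → Bool) (D : Idx m n → ℝ) (i : Fin n) :
    yy e (fl ε D) i = sg (ε (e i)) * yy e D i := by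
  have hc : dc (fl ε D) = dc D := by
    funext j
    exact one_mul _
  rw [yy, yy, HH_fl, hc, Matrix.transpose_mul, Matrix.diagonal_transpose, ← Matrix.mulVec_mulVec,
    Matrix.mulVec_diagonal]

theorem sl_fl (e : Fin n ↪o Fin m) (ε : Fin m → Bool) (D : Idx m n → ℝ) (k : Fin m) :
    sl e (fl ε D) k = sg (ε k) * sl e D k := by
  rw [sl, sl, xx_fl, mul_sub]
  congr 1
  simp only [Matrix.mulVec, dotProduct, Finset.mul_sum]
  refine Finset.sum_congr rfl fun j _ => ?_
  change sg (ε k) * dA D k j * _ = _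
  ring

/-- strictly primal and dual feasible basis -/
def OO (e : Fin n ↪o Fin m) : Set (Idx m n → ℝ) :=
  {D | (∀ i, 0 < yy e D i) ∧ ∀ k, k ∉ Set.range e → 0 < sl e D k}

theorem meas_OO (e : Fin n ↪o Fin m) : MeasurableSet (OO e) := by
  have h1 : MeasurableSet {D | ∀ i, 0 < yy e D i} := by
    rw [Set.ofPred_forall]
    exact MeasurableSet.iInter fun i => measurableSet_lt measurable_const (meas_yy e i)
  have h2 : MeasurableSet {D | ∀ k, k ∉ Set.range e → 0 < sl e D k} := by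
    rw [Set.ofPred_forall]
    refine MeasurableSet.iInter fun k => ?_
    rw [Set.ofPred_forall]
    exact MeasurableSet.iInter fun _ => measurableSet_lt measurable_const (meas_sl e k)
  exact h1.inter h2

theorem flip_bound (e : Fin n ↪o Fin m) {U : Set (Idx m n → ℝ)} (hU : MeasurableSet U)
    (hinv : ∀ ε D, fl ε D ∈ U → D ∈ U) :
    2 ^ m * gam (Idx m n) (OO e ∩ U) ≤ gam (Idx m n) U := by
  have hm : MeasurableSet (OO e ∩ U) := (meas_OO e).inter hU
  have hdis : Pairwise (Function.onFun Disjoint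
      fun ε : Fin m → Bool => fl (n := n) ε ⁻¹' (OO e ∩ U)) := by
    intro ε ε' hne
    rw [Function.onFun, Set.disjoint_left]
    rintro D ⟨⟨h1, h2⟩, -⟩ ⟨⟨h1', h2'⟩, -⟩
    obtain ⟨k, hk⟩ := Function.ne_iff.1 hne
    by_cases hr : k ∈ Set.range e
    · obtain ⟨i, rfl⟩ := hr
      have a := h1 i
      have b := h1' i
      rw [yy_fl] at a b
      exact sg_disj hk a b
    · have a := h2 k hr
      have b := h2' k hr
      rw [sl_fl] at a b
      exact sg_disj hk a b
  have h := measure_iUnion (μ := gam (Idx m n)) hdis fun ε => (mp_fl ε).measurable hm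
  simp only [(mp_fl _).measure_preimage hm.nullMeasurableSet, tsum_fintype, Finset.sum_const,
    Finset.card_univ, Fintype.card_pi, Fintype.card_bool, Finset.prod_const, Fintype.card_fin,
    nsmul_eq_mul, Nat.cast_pow, Nat.cast_ofNat] at h
  rw [← h]
  refine measure_mono (Set.iUnion_subset fun ε D hD => hinv ε D hD.2)

/-- small dual multiplier -/
def U1 (e : Fin n ↪o Fin m) (R δ : ℝ) : Set (Idx m n → ℝ) :=
  ⋃ i, {D | (BB e D).det ≠ 0 ∧ BB e D i ⬝ᵥ BB e D i ≤ R ^ 2 ∧ |yy e D i| ≤ δ}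

/-- small slack -/
def U2 (e : Fin n ↪o Fin m) (δ : ℝ) : Set (Idx m n → ℝ) :=
  ⋃ k, {D | k ∉ Set.range e ∧ |sl e D k| ≤ δ}

/-- large column of the inverse -/
def U3 (e : Fin n ↪o Fin m) (δ : ℝ) : Set (Idx m n → ℝ) :=
  ⋃ i, {D | 1 ≤ δ ^ 2 * ∑ j, HH e D j i ^ 2}

theorem meas_U1 (e : Fin n ↪o Fin m) (R δ : ℝ) : MeasurableSet (U1 e R δ) := by
  refine MeasurableSet.iUnion fun i => ?_
  have h0 : Measurable fun D => BB e D i ⬝ᵥ BB e D i := by
    unfold dotProduct
    exact Finset.measurable_sum _ fun j _ =>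
      ((cont_BB e).matrix_elem i j).measurable.mul ((cont_BB e).matrix_elem i j).measurable
  have h1 : MeasurableSet {D | BB e D i ⬝ᵥ BB e D i ≤ R ^ 2} :=
    measurableSet_le h0 measurable_const
  have h2 : MeasurableSet {D | |yy e D i| ≤ δ} :=
    measurableSet_le (meas_yy e i).abs measurable_const
  have h3 : MeasurableSet {D | (BB e D).det = 0} :=
    measurableSet_eq_fun (meas_det e) measurable_const
  exact h3.compl.inter (h1.inter h2)

theorem meas_U2 (e : Fin n ↪o Fin m) (δ : ℝ) : MeasurableSet (U2 e δ) := by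
  refine MeasurableSet.iUnion fun k => ?_
  have h2 : MeasurableSet {D | |sl e D k| ≤ δ} :=
    measurableSet_le (meas_sl e k).abs measurable_const
  exact (MeasurableSet.const (k ∉ Set.range e)).inter h2

theorem meas_U3 (e : Fin n ↪o Fin m) (δ : ℝ) : MeasurableSet (U3 e δ) :=
  MeasurableSet.iUnion fun i => measurableSet_le measurable_const
    (measurable_const.mul (Finset.measurable_sum _ fun j _ => (meas_HH e j i).pow_const 2))

theorem U1_le (e : Fin n ↪o Fin m) (R δ : ℝ) (hR : 0 ≤ R) (hδ : 0 ≤ δ) :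
    gam (Idx m n) (U1 e R δ) ≤ ENNReal.ofReal (n * (2 * (δ * R))) := by
  refine le_trans (measure_iUnion_fintype_le _ _) ?_
  refine le_trans (Finset.sum_le_sum fun i _ => dual_le e i R δ hR hδ) ?_
  rw [Finset.sum_const, Finset.card_univ, Fintype.card_fin, nsmul_eq_mul,
    ENNReal.ofReal_mul (Nat.cast_nonneg n), ENNReal.ofReal_natCast]

theorem U2_le (e : Fin n ↪o Fin m) (δ : ℝ) :
    gam (Idx m n) (U2 e δ) ≤ ENNReal.ofReal (m * (2 * δ)) := by
  refine le_trans (measure_iUnion_fintype_le _ _) ?_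
  have : ∀ k, gam (Idx m n) {D | k ∉ Set.range e ∧ |sl e D k| ≤ δ} ≤ ENNReal.ofReal (2 * δ) := by
    intro k
    by_cases hk : k ∈ Set.range e
    · simp [hk]
    · exact le_trans (measure_mono fun D hD => hD.2) (slack_le e k hk δ)
  refine le_trans (Finset.sum_le_sum fun k _ => this k) ?_
  rw [Finset.sum_const, Finset.card_univ, Fintype.card_fin, nsmul_eq_mul,
    ENNReal.ofReal_mul (Nat.cast_nonneg m), ENNReal.ofReal_natCast]

theorem U3_le (e : Fin n ↪o Fin m) (δ : ℝ) (hδ : 0 < δ) :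
    gam (Idx m n) (U3 e δ) ≤ ENNReal.ofReal (n * (2 * δ)) := by
  refine le_trans (measure_iUnion_fintype_le _ _) ?_
  refine le_trans (Finset.sum_le_sum fun i _ => col_le e i δ hδ) ?_
  rw [Finset.sum_const, Finset.card_univ, Fintype.card_fin, nsmul_eq_mul,
    ENNReal.ofReal_mul (Nat.cast_nonneg n), ENNReal.ofReal_natCast]

theorem U1_inv (e : Fin n ↪o Fin m) (R δ : ℝ) (ε : Fin m → Bool) (D : Idx m n → ℝ)
    (h : fl ε D ∈ U1 e R δ) : D ∈ U1 e R δ := by
  obtain ⟨i, h1, h2, h3⟩ := Set.mem_iUnion.1 h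
  refine Set.mem_iUnion.2 ⟨i, ?_, ?_, ?_⟩
  · intro h0
    rw [BB_fl, Matrix.det_mul, h0, mul_zero] at h1
    exact h1 rfl
  · refine le_trans (le_of_eq ?_) h2
    refine Finset.sum_congr rfl fun j _ => ?_
    rw [BB_fl, Matrix.diagonal_mul]
    linear_combination (-(BB e D i j * BB e D i j)) * sg_sq (ε (e i))
  · rwa [yy_fl, abs_mul, abs_sg, one_mul] at h3

theorem U2_inv (e : Fin n ↪o Fin m) (δ : ℝ) (ε : Fin m → Bool) (D : Idx m n → ℝ)
    (h : fl ε D ∈ U2 e δ) : D ∈ U2 e δ := by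
  obtain ⟨k, h1, h2⟩ := Set.mem_iUnion.1 h
  refine Set.mem_iUnion.2 ⟨k, h1, ?_⟩
  rwa [sl_fl, abs_mul, abs_sg, one_mul] at h2

theorem U3_inv (e : Fin n ↪o Fin m) (δ : ℝ) (ε : Fin m → Bool) (D : Idx m n → ℝ)
    (h : fl ε D ∈ U3 e δ) : D ∈ U3 e δ := by
  obtain ⟨i, h1⟩ := Set.mem_iUnion.1 h
  refine Set.mem_iUnion.2 ⟨i, ?_⟩
  simp only [Set.mem_ofPred_eq] at h1 ⊢
  refine le_trans h1 (le_of_eq ?_)
  congr 1
  refine Finset.sum_congr rfl fun j _ => ?_
  rw [HH_fl, Matrix.mul_diagonal]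
  linear_combination (HH e D j i ^ 2) * sg_sq (ε (e i))

theorem card_emb [Fintype (Fin n ↪o Fin m)] : Fintype.card (Fin n ↪o Fin m) ≤ 2 ^ m := by
  have := Fintype.card_le_of_injective (fun e : Fin n ↪o Fin m => Set.range e)
    fun a b h => OrderEmbedding.range_inj.1 h
  simpa using this

theorem sum_bases {U : (Fin n ↪o Fin m) → Set (Idx m n → ℝ)} (hU : ∀ e, MeasurableSet (U e))
    (hinv : ∀ e ε D, fl ε D ∈ U e → D ∈ U e) {B : ENNReal} (hB : ∀ e, gam (Idx m n) (U e) ≤ B) :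
    gam (Idx m n) (⋃ e, OO e ∩ U e) ≤ B := by
  let : Fintype (Fin n ↪o Fin m) := Fintype.ofFinite _
  refine le_trans (measure_iUnion_fintype_le _ _) ?_
  have h1 : (2 : ENNReal) ^ m * ∑ e, gam (Idx m n) (OO e ∩ U e) ≤ 2 ^ m * B := by
    rw [Finset.mul_sum]
    refine le_trans (Finset.sum_le_sum fun e _ => (flip_bound e (hU e) (hinv e)).trans (hB e)) ?_
    rw [Finset.sum_const, Finset.card_univ, nsmul_eq_mul]
    gcongr
    exact_mod_cast card_emb
  exact (ENNReal.mul_le_mul_iff_right (by positivity) (by simp)).1 h1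

theorem row_le (e : Fin n ↪o Fin m) (D : Idx m n → ℝ) (i : Fin n) :
    BB e D i ⬝ᵥ BB e D i ≤ D ⬝ᵥ D := by
  unfold dotProduct
  rw [Fintype.sum_sum_type, Fintype.sum_prod_type]
  have h1 : 0 ≤ ∑ a : Fin m ⊕ Fin n, D (Sum.inr a) * D (Sum.inr a) :=
    Finset.sum_nonneg fun _ _ => mul_self_nonneg _
  have h2 := Finset.single_le_sum
    (f := fun a : Fin m => ∑ b : Fin n, D (Sum.inl (a, b)) * D (Sum.inl (a, b)))
    (fun a _ => Finset.sum_nonneg fun _ _ => mul_self_nonneg _) (Finset.mem_univ (e i))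
  have h3 : ∑ j, BB e D i j * BB e D i j =
      ∑ b : Fin n, D (Sum.inl (e i, b)) * D (Sum.inl (e i, b)) := rfl
  linarith

theorem obj_le (hn : 1 ≤ n) (η : ℝ) :
    gam (Idx m n) {D | dc D ⬝ᵥ dc D < η} ≤ ENNReal.ofReal (2 * √η) := by
  classical
  set p : Idx m n := Sum.inr (Sum.inr ⟨0, hn⟩) with hp
  have h1 : (Pi.single p (1 : ℝ) : Idx m n → ℝ) ⬝ᵥ Pi.single p 1 = 1 := by simp
  refine le_trans (measure_mono ?_) (slab_le (Pi.single p (1 : ℝ)) (by rw [h1]; exact one_pos) 0 √η)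
  intro D hD
  simp only [Set.mem_ofPred_eq] at hD ⊢
  rw [h1, Real.sqrt_one, mul_one, sub_zero, single_dotProduct, one_mul]
  refine Real.abs_le_sqrt ?_
  have h2 := Finset.single_le_sum (f := fun j : Fin n => dc D j * dc D j)
    (fun a _ => mul_self_nonneg _) (Finset.mem_univ ⟨0, hn⟩)
  have h3 : dc D ⟨0, hn⟩ = D p := rfl
  rw [h3] at h2
  unfold dotProduct at hD
  nlinarith

theorem cover (hn : 1 ≤ n) (η : ℝ) (hη : 0 < η) :
    {D : Idx m n → ℝ | ¬ NonDeg η D} ⊆
      ({D | 1 / η < D ⬝ᵥ D} ∪ {D | dc D ⬝ᵥ dc D < η}) ∪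
        ((⋃ e : Fin n ↪o Fin m, {D | (BB e D).det = 0} ∪ (U1 e (1 / √η) 0 ∪ U2 e 0)) ∪
          ⋃ e : Fin n ↪o Fin m, OO e ∩ (U1 e (1 / √η) η ∪ (U2 e η ∪ U3 e √(n * η)))) := by
  intro D hD
  by_contra hcon
  simp only [Set.mem_union, Set.mem_iUnion, Set.mem_ofPred_eq, not_or, not_exists, not_lt,
    Set.mem_inter_iff, not_and] at hcon
  obtain ⟨⟨h1, h2⟩, h3, h4⟩ := hcon
  refine hD ⟨h1, h2, fun e => ⟨isUnit_iff_ne_zero.2 (h3 e).1, ?_⟩⟩
  rintro H x y rfl rfl rfl
  have hrow : ∀ i, BB e D i ⬝ᵥ BB e D i ≤ (1 / √η) ^ 2 := fun i => by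
    rw [div_pow, Real.sq_sqrt hη.le, one_pow]
    exact (row_le e D i).trans h1
  have hs0 : ∀ k, k ∉ Set.range e → sl e D k ≠ 0 := fun k hk h0 =>
    (h3 e).2.2 (Set.mem_iUnion.2 ⟨k, hk, by simp [h0]⟩)
  have hy0 : ∀ i, yy e D i ≠ 0 := fun i h0 =>
    (h3 e).2.1 (Set.mem_iUnion.2 ⟨i, (h3 e).1, hrow i, by simp [h0]⟩)
  refine ⟨fun k hk h0 => hs0 k hk (sub_eq_zero.2 h0.symm), fun hy hx => ?_⟩
  have hO : D ∈ OO e := ⟨fun i => lt_of_le_of_ne (hy i) (hy0 i).symm,
    fun k hk => lt_of_le_of_ne (sub_nonneg.2 (hx k)) (hs0 k hk).symm⟩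
  obtain ⟨h5, h6, h7⟩ := h4 e hO
  refine ⟨fun i => ?_, fun k hk => ?_, ?_⟩
  · by_contra hlt
    refine h5 (Set.mem_iUnion.2 ⟨i, (h3 e).1, hrow i, ?_⟩)
    rw [abs_of_pos (hO.1 i)]
    exact (not_le.1 hlt).le
  · by_contra hlt
    refine h6 (Set.mem_iUnion.2 ⟨k, hk, ?_⟩)
    rw [abs_of_pos (hO.2 k hk)]
    exact (not_le.1 hlt).le
  · have hn0 : (0 : ℝ) < n := by exact_mod_cast hn
    have h8 : ∀ i, ∑ j, HH e D j i ^ 2 ≤ 1 / (n * η) := fun i => by
      by_contra hlt
      refine h7 (Set.mem_iUnion.2 ⟨i, ?_⟩)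
      have := not_le.1 hlt
      rw [div_lt_iff₀ (by positivity)] at this
      change 1 ≤ √(n * η) ^ 2 * ∑ j, HH e D j i ^ 2
      rw [Real.sq_sqrt (by positivity)]
      linarith
    rw [Finset.sum_comm]
    refine le_trans (Finset.sum_le_sum fun i _ => h8 i) (le_of_eq ?_)
    rw [Finset.sum_const, Finset.card_univ, Fintype.card_fin, nsmul_eq_mul]
    field_simp

end G6

open G6 in
/-- GOOD6: condition tail of the linear program (sign flips of the rows of `(A, b)`) -/
theorem good_nondeg {m n : ℕ} (hn : 1 ≤ n) (η : ℝ) (hη : 0 < η) (hη1 : η ≤ 1) :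
    gam (Idx m n) {D | ¬ NonDeg η D} ≤ ENNReal.ofReal (100 * (NN m n : ℝ) ^ 3 * √η) := by
  have hs : 0 < √η := Real.sqrt_pos.2 hη
  have hn1 : (1 : ℝ) ≤ n := by exact_mod_cast hn
  have hm0 : (0 : ℝ) ≤ m := Nat.cast_nonneg m
  have hnull : gam (Idx m n)
      (⋃ e : Fin n ↪o Fin m, {D | (BB e D).det = 0} ∪ (U1 e (1 / √η) 0 ∪ U2 e 0)) = 0 := by
    refine measure_iUnion_null fun e => measure_union_null (det_null e) (measure_union_null ?_ ?_)
    · simpa using U1_le e (1 / √η) 0 (by positivity) le_rfl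
    · simpa using U2_le e 0
  have hmain : gam (Idx m n)
      (⋃ e : Fin n ↪o Fin m, OO e ∩ (U1 e (1 / √η) η ∪ (U2 e η ∪ U3 e √(n * η)))) ≤
      ENNReal.ofReal (n * (2 * (η * (1 / √η)))) +
        (ENNReal.ofReal (m * (2 * η)) + ENNReal.ofReal (n * (2 * √(n * η)))) := by
    refine sum_bases (fun e => (meas_U1 e _ _).union ((meas_U2 e _).union (meas_U3 e _))) ?_ ?_
    · rintro e ε D (h | h | h)
      · exact Or.inl (U1_inv e _ _ ε D h)
      · exact Or.inr (Or.inl (U2_inv e _ ε D h))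
      · exact Or.inr (Or.inr (U3_inv e _ ε D h))
    · intro e
      refine (measure_union_le _ _).trans (add_le_add (U1_le e _ _ (by positivity) hη.le) ?_)
      exact (measure_union_le _ _).trans (add_le_add (U2_le e _) (U3_le e _ (by positivity)))
  refine (measure_mono (cover hn η hη)).trans ?_
  refine (measure_union_le _ _).trans ?_
  refine (add_le_add ((measure_union_le _ _).trans (add_le_add (markov_sq η hη) (obj_le hn η)))
    ((measure_union_le _ _).trans (add_le_add hnull.le hmain))).trans ?_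
  rw [zero_add, ← ENNReal.ofReal_add (by positivity) (by positivity),
    ← ENNReal.ofReal_add (by positivity) (by positivity),
    ← ENNReal.ofReal_add (by positivity) (by positivity),
    ← ENNReal.ofReal_add (by positivity) (by positivity)]
  refine ENNReal.ofReal_le_ofReal ?_
  have hss : √η * √η = η := Real.mul_self_sqrt hη.le
  have hs1 : √η ≤ 1 := Real.sqrt_le_one.2 hη1
  have e1 : η ≤ √η := by nlinarith
  have e2 : η * (1 / √η) = √η := by
    field_simp
    nlinarith
  have e3 : √(n * η) ≤ n * √η := by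
    rw [Real.sqrt_mul (by positivity)]
    gcongr
    rw [Real.sqrt_le_left (by positivity)]
    nlinarith
  have hcard : (Fintype.card (Idx m n) : ℝ) = m * n + (m + n) := by simp
  have hN : ((NN m n : ℕ) : ℝ) = m + n + 3 := by simp [NN]
  rw [hcard, e2, hN]
  set N : ℝ := m + n + 3 with hNdef
  have hN1 : 1 ≤ N := by linarith
  have hmN : (m : ℝ) ≤ N := by linarith
  have hnN : (n : ℝ) ≤ N := by linarith
  have hN2 : N ≤ N ^ 3 := by nlinarith [sq_nonneg N, sq_nonneg (N - 1)]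
  have hN3 : N ^ 2 ≤ N ^ 3 := by nlinarith [sq_nonneg N]
  have f1 : (m * n + (m + n) : ℝ) ≤ N ^ 3 := by
    refine le_trans ?_ hN3
    rw [hNdef]; nlinarith
  have f2 : (n : ℝ) * n ≤ N ^ 3 := le_trans (by nlinarith) hN3
  have g1 : (m * n + (m + n) : ℝ) * η ≤ N ^ 3 * √η := by gcongr
  have g2 : √η ≤ N ^ 3 * √η := le_mul_of_one_le_left hs.le (hN1.trans hN2)
  have g3 : n * √η ≤ N ^ 3 * √η := by gcongr; exact hnN.trans hN2
  have g4 : m * η ≤ N ^ 3 * √η := by gcongr; exact hmN.trans hN2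
  have g5 : n * √(n * η) ≤ N ^ 3 * √η := by
    calc n * √(n * η) ≤ n * (n * √η) := by gcongr
      _ = n * n * √η := by ring
      _ ≤ N ^ 3 * √η := by gcongr
  have g6 : 0 ≤ N ^ 3 * √η := by positivity
  linarith

end Pool.Agent.P.MP_ef347d_lc
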