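import Pool.Agent.P.MP_ef347d_lc.Basic2
import Pool.Agent.P.MP_ef347d_lc.Good3
import Pool.Agent.P.MP_ef347d_lc.Good4
import Pool.Agent.P.MP_ef347d_lc.Good6

/-! GOODT: the union bound for the event on which round `t` succeeds. -/

namespace Pool.Agent.P.MP_ef347d_lc

open Matrix MeasureTheory ProbabilityTheory

namespace GoodT

theorem and_le {α : Type} [MeasurableSpace α] {μ : Measure α} {p q : α → Prop} {a b : ENNReal}
    (hp : μ {x | ¬ p x} ≤ a) (hq : μ {x | ¬ q x} ≤ b) : μ {x | ¬ (p x ∧ q x)} ≤ a + b := by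
  have : {x | ¬ (p x ∧ q x)} = {x | ¬ p x} ∪ {x | ¬ q x} := by
    ext x
    simp only [Set.mem_ofPred_eq, Set.mem_union, not_and_or]
  rw [this]
  exact (measure_union_le _ _).trans (add_le_add hp hq)

theorem imp_le {α : Type} [MeasurableSpace α] {μ : Measure α} {c : Prop} {p : α → Prop}
    {a : ENNReal} (h : c → μ {x | ¬ p x} ≤ a) : μ {x | ¬ (c → p x)} ≤ a := by
  by_cases hc : c
  · simpa [hc] using h hc
  · simp [hc]

/-- signed selection of coordinates -/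
def sel {ι κ : Type} (φ : κ → ι) (ε : κ → ℝ) : (ι → ℝ) →ₗ[ℝ] (κ → ℝ) where
  toFun z := fun k => ε k * z (φ k)
  map_add' x y := by
    funext k
    simp [mul_add]
  map_smul' c x := by
    funext k
    simp only [Pi.smul_apply, smul_eq_mul, RingHom.id_apply]
    ring

theorem sel_mp {ι κ : Type} [Fintype ι] [Fintype κ] (φ : κ → ι) (hφ : Function.Injective φ)
    (ε : κ → ℝ) (hε : ∀ k, ε k * ε k = 1) : MeasurePreserving (sel φ ε) (gam ι) (gam κ) := by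
  classical
  have hadj : ∀ (z : ι → ℝ) (w : κ → ℝ), sel φ ε z ⬝ᵥ w =
      z ⬝ᵥ (fun i => ∑ k, if φ k = i then ε k * w k else 0) := by
    intro z w
    simp only [dotProduct, Finset.mul_sum]
    rw [Finset.sum_comm]
    refine Finset.sum_congr rfl fun k _ => ?_
    simp only [mul_ite, mul_zero, Finset.sum_ite_eq, Finset.mem_univ, if_true]
    change ε k * z (φ k) * w k = _
    ring
  refine gam_map _ (fun w i => ∑ k, if φ k = i then ε k * w k else 0) hadj fun w => ?_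
  rw [← hadj]
  congr 1
  funext k
  change ε k * (∑ k', if φ k' = φ k then ε k' * w k' else 0) = w k
  simp only [hφ.eq_iff, Finset.sum_ite_eq', Finset.mem_univ, if_true]
  rw [← mul_assoc, hε, one_mul]

theorem pull {ι κ : Type} [Fintype ι] [Fintype κ] {g : (ι → ℝ) → (κ → ℝ)}
    (hg : MeasurePreserving g (gam ι) (gam κ)) (P : (κ → ℝ) → Prop) :
    gam ι {Z | P (g Z)} ≤ gam κ {z | P z} :=
  hg.measure_preimage_le {z | P z}

/-- `G (σ • Z) = σ • mat (g Z)` with `g` measure preserving -/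
def Rep {m n M d : ℕ} (σ : ℝ) (G : (Idx m n → ℝ) → Matrix (Fin M) (Fin d) ℝ) : Prop :=
  ∃ g : (Idx m n → ℝ) → (Fin M × Fin d → ℝ),
    MeasurePreserving g (gam (Idx m n)) (gam (Fin M × Fin d)) ∧ ∀ Z, G (σ • Z) = σ • mat (g Z)

theorem rep_G1 (m n t : ℕ) (σ : ℝ) : Rep σ (G1 (m := m) (n := n) t) := by
  let φ : Fin (m + 1) × Fin (nS m n t) → Idx m n := fun p =>
    if h : p.1.val < m then Sum.inl (⟨p.1.val, h⟩, Fin.castLE (Nat.min_le_left _ _) p.2)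
    else Sum.inr (Sum.inr (Fin.castLE (Nat.min_le_left _ _) p.2))
  refine ⟨sel φ (fun p => if p.1.val < m then -1 else 1), sel_mp φ ?_ _ ?_, fun Z => ?_⟩
  · rintro ⟨a, b⟩ ⟨c, e⟩ h
    simp only [φ] at h
    have ha := a.2
    have hc := c.2
    split_ifs at h with h1 h2 h2
    · simp only [Sum.inl.injEq, Prod.mk.injEq, Fin.mk.injEq] at h
      exact Prod.ext (Fin.ext h.1) (Fin.castLE_injective _ h.2)
    · simp only [Sum.inr.injEq] at h
      exact Prod.ext (Fin.ext (by simp only; omega)) (Fin.castLE_injective _ h)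
  · intro p
    split_ifs <;> norm_num
  · ext i j
    simp only [G1, of_apply, Matrix.smul_apply, mat, smul_eq_mul, sel, LinearMap.coe_mk, AddHom.coe_mk, φ]
    split_ifs with h
    · simp [dA]
    · simp [dc]

theorem rep_G2 (m n t : ℕ) (σ : ℝ) : Rep σ (G2 (m := m) (n := n) t) := by
  let φ : Fin (mS m n t) × Fin n → Idx m n := fun p =>
    Sum.inl (Fin.castLE (Nat.min_le_left _ _) p.1, p.2)
  refine ⟨sel φ (fun _ => 1), sel_mp φ ?_ _ ?_, fun Z => ?_⟩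
  · rintro ⟨a, b⟩ ⟨c, e⟩ h
    simp only [φ, Sum.inl.injEq, Prod.mk.injEq] at h
    exact Prod.ext (Fin.castLE_injective _ h.1) h.2
  · intro p
    norm_num
  · ext i j
    simp [G2, mat, sel, φ, dA]

theorem rep_G3 (m n t : ℕ) (σ : ℝ) : Rep σ (G3 (m := m) (n := n) t) := by
  let φ : Fin (mS m n t) × Fin (n + 1) → Idx m n := fun p =>
    if h : p.2.val < n then Sum.inl (Fin.castLE (Nat.min_le_left _ _) p.1, ⟨p.2.val, h⟩)
    else Sum.inr (Sum.inl (Fin.castLE (Nat.min_le_left _ _) p.1))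
  refine ⟨sel φ (fun _ => 1), sel_mp φ ?_ _ ?_, fun Z => ?_⟩
  · rintro ⟨a, b⟩ ⟨c, e⟩ h
    simp only [φ] at h
    have hb := b.2
    have he := e.2
    split_ifs at h with h1 h2 h2
    · simp only [Sum.inl.injEq, Prod.mk.injEq, Fin.mk.injEq] at h
      exact Prod.ext (Fin.castLE_injective _ h.1) (Fin.ext h.2)
    · simp only [Sum.inr.injEq, Sum.inl.injEq] at h
      exact Prod.ext (Fin.castLE_injective _ h) (Fin.ext (by simp only; omega))
  · intro p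
    norm_num
  · ext i j
    simp only [G3, of_apply, Matrix.smul_apply, mat, smul_eq_mul, sel, LinearMap.coe_mk, AddHom.coe_mk, φ]
    split_ifs with h
    · simp [G2, dA]
    · simp [bS, db]

theorem dA_smul {m n : ℕ} (σ : ℝ) (Z : Idx m n → ℝ) : dA (σ • Z) = σ • dA Z := rfl

theorem db_smul {m n : ℕ} (σ : ℝ) (Z : Idx m n → ℝ) : db (σ • Z) = σ • db Z := rfl

theorem dc_smul {m n : ℕ} (σ : ℝ) (Z : Idx m n → ℝ) : dc (σ • Z) = σ • dc Z := rfl

theorem zLev_smul {σ : ℝ} (hσ : σ ≠ 0) (cc u : ℝ) :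
    zLev (σ * (σ * cc)) u = σ * zLev cc (u / σ) := by
  unfold zLev
  rw [div_div_eq_mul_div]
  field_simp

theorem wLev_smul {σ : ℝ} (hσ : σ ≠ 0) (cc u : ℝ) :
    wLev (σ * (σ * cc)) u = σ * wLev cc (u / σ) := by
  unfold wLev
  rw [div_div_eq_mul_div]
  field_simp

theorem rep_Gu {m n : ℕ} (hn : 1 ≤ n) {σ : ℝ} (hσ : 0 < σ) {u : ℝ} (hu : 0 < u) :
    Rep σ (fun D : Idx m n → ℝ => mat (Gu u D)) := by
  refine ⟨Gu (u / σ), good_Gu hn _ (div_pos hu hσ), fun Z => ?_⟩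
  ext i j
  simp only [mat, of_apply, Matrix.smul_apply, smul_eq_mul, Gu]
  split_ifs with h
  · rw [dA_smul, db_smul, dc_smul, smul_dotProduct, dotProduct_smul, smul_eq_mul, smul_eq_mul,
      zLev_smul hσ.ne', wLev_smul hσ.ne', smul_mulVec, mulVec_smul]
    simp only [Matrix.smul_apply, Pi.smul_apply, smul_eq_mul]
    have := hσ.ne'
    simp only [div_eq_mul_inv, mul_inv]
    field_simp
  · rfl

theorem ok_le {m n M d : ℕ} {σ : ℝ} {G : (Idx m n → ℝ) → Matrix (Fin M) (Fin d) ℝ} (hG : Rep σ G)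
    (O : Orc) (N t : ℕ) {a : ENNReal}
    (h : gam (Fin M × Fin d) {z | ¬ O.OK N t (σ • mat z)} ≤ a) :
    gam (Idx m n) {Z | ¬ O.OK N t (G (σ • Z))} ≤ a := by
  obtain ⟨g, hg, e⟩ := hG
  simp only [e]
  exact (pull hg fun z => ¬ O.OK N t (σ • mat z)).trans h

theorem unit_le {m n M d : ℕ} {σ : ℝ} (hσ : σ ≠ 0) {G : (Idx m n → ℝ) → Matrix (Fin M) (Fin d) ℝ}
    (hG : Rep σ G) (hd : d ≤ M) :
    gam (Idx m n) {Z | ¬ IsUnit ((G (σ • Z))ᵀ * G (σ • Z)).det} ≤ 0 := by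
  obtain ⟨g, hg, e⟩ := hG
  have h := gam_rank (ι := Fin M) (κ := Fin d) (by simpa using hd)
  rw [ae_iff] at h
  refine le_trans (measure_mono ?_) ((pull hg fun z => ¬ IsUnit ((mat z)ᵀ * mat z).det).trans h.le)
  intro Z hZ hU
  refine hZ ?_
  rw [e, transpose_smul, Matrix.smul_mul, Matrix.mul_smul, det_smul, det_smul, isUnit_iff_ne_zero]
  exact mul_ne_zero (pow_ne_zero _ hσ) (mul_ne_zero (pow_ne_zero _ hσ) hU.ne_zero)

theorem pri_le {m n M d k : ℕ} {σ : ℝ} {G : (Idx m n → ℝ) → Matrix (Fin M) (Fin d) ℝ}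
    (hG : Rep σ G) (h : 3 * d + k ≤ M) :
    gam (Idx m n) {Z | ¬ ¬ ∃ x, ∀ i, 0 < (G (σ • Z) *ᵥ x) i} ≤ ENNReal.ofReal ((3 / 4) ^ k) := by
  obtain ⟨g, hg, e⟩ := hG
  refine le_trans (measure_mono ?_)
    ((pull hg fun z => ∃ x, ∀ i, 0 < (mat z *ᵥ x) i).trans (good_wendel h))
  intro Z hZ
  obtain ⟨x, hx⟩ := not_not.1 hZ
  refine ⟨σ • x, fun i => ?_⟩
  have := hx i
  rwa [e, smul_mulVec, ← mulVec_smul] at this

theorem dua_le {m n M d k : ℕ} {σ : ℝ} (hσ : σ ≠ 0) {G : (Idx m n → ℝ) → Matrix (Fin M) (Fin d) ℝ}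
    (hG : Rep σ G) (hM : 1 ≤ M) (hd : d ≤ M) (h : 3 * (M - d) + k ≤ M ∨ d = M) :
    gam (Idx m n) {Z | ¬ NoDual (G (σ • Z))} ≤ ENNReal.ofReal ((3 / 4) ^ k) := by
  obtain ⟨g, hg, e⟩ := hG
  refine le_trans (measure_mono ?_)
    ((pull hg fun z => ∃ y : Fin M → ℝ, (∀ i, 0 < y i) ∧ (mat z)ᵀ *ᵥ y = 0).trans
      (good_wendel' hM hd h))
  intro Z hZ
  obtain ⟨y, hy, h0⟩ := not_not.1 hZ
  refine ⟨y, hy, ?_⟩
  rw [e, transpose_smul, smul_mulVec] at h0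
  exact (smul_eq_zero.1 h0).resolve_left hσ

theorem nondeg_smul {m n : ℕ} {σ η η' : ℝ} (hσ : 0 < σ) (hσ1 : σ ≤ 1) (hη : 0 < η)
    (h : η ≤ σ ^ 2 * η') {Z : Idx m n → ℝ} (hZ : NonDeg η' Z) : NonDeg η (σ • Z) := by
  obtain ⟨h1, h2, h3⟩ := hZ
  have hσ2 : 0 < σ ^ 2 := by positivity
  have hη' : 0 < η' := by
    by_contra hn
    push Not at hn
    nlinarith
  have hs1 : σ ^ 2 ≤ σ := by nlinarith
  have hle : η ≤ σ * η' := h.trans (mul_le_mul_of_nonneg_right hs1 hη'.le)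
  have hle' : η ≤ η' := hle.trans (by nlinarith)
  refine ⟨?_, ?_, fun e => ?_⟩
  · rw [smul_dotProduct, dotProduct_smul, smul_eq_mul, smul_eq_mul]
    have h0 : 0 ≤ Z ⬝ᵥ Z := Finset.sum_nonneg fun i _ => mul_self_nonneg _
    have h4 : 1 / η' ≤ 1 / η := one_div_le_one_div_of_le hη hle'
    have : σ * (σ * Z ⬝ᵥ Z) ≤ Z ⬝ᵥ Z := by nlinarith [mul_nonneg hσ.le h0]
    linarith
  · rw [dc_smul, smul_dotProduct, dotProduct_smul, smul_eq_mul, smul_eq_mul]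
    nlinarith
  · obtain ⟨hU, h4⟩ := h3 e
    have eB : (dA (σ • Z)).submatrix e id = σ • (dA Z).submatrix e id := rfl
    have eH : ((dA (σ • Z)).submatrix e id)⁻¹ = σ⁻¹ • ((dA Z).submatrix e id)⁻¹ := by
      rw [eB]
      refine Matrix.inv_eq_left_inv ?_
      rw [Matrix.smul_mul, Matrix.mul_smul, smul_smul, inv_mul_cancel₀ hσ.ne', one_smul,
        Matrix.nonsing_inv_mul _ hU]
    refine ⟨?_, ?_⟩
    · rw [eB, det_smul, isUnit_iff_ne_zero]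
      exact mul_ne_zero (pow_ne_zero _ hσ.ne') hU.ne_zero
    · rintro H x y rfl hx hy
      have eb : (fun i => db (σ • Z) (e i)) = σ • fun i => db Z (e i) := rfl
      rw [eH, eb, smul_mulVec, mulVec_smul, smul_smul, inv_mul_cancel₀ hσ.ne', one_smul] at hx
      rw [eH, dc_smul, transpose_smul, smul_mulVec, mulVec_smul, smul_smul,
        inv_mul_cancel₀ hσ.ne', one_smul] at hy
      obtain ⟨h5, h6⟩ := h4 _ x y rfl hx hy
      have eA : ∀ k, (dA (σ • Z) *ᵥ x) k = σ * (dA Z *ᵥ x) k := fun k => by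
        rw [dA_smul, smul_mulVec]
        rfl
      have ed : ∀ k, db (σ • Z) k = σ * db Z k := fun k => rfl
      refine ⟨fun k hk => ?_, fun hy0 hf => ?_⟩
      · rw [eA, ed]
        exact fun h0 => h5 k hk (mul_left_cancel₀ hσ.ne' h0)
      · have hf' : Feasible Z x := fun i => by
          have := hf i
          rw [eA, ed] at this
          exact le_of_mul_le_mul_left this hσ
        obtain ⟨h7, h8, h9⟩ := h6 hy0 hf'
        refine ⟨fun i => hle'.trans (h7 i), fun k hk => ?_, ?_⟩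
        · rw [eA, ed, ← mul_sub]
          exact hle.trans (mul_le_mul_of_nonneg_left (h8 k hk) hσ.le)
        · rw [eH]
          simp only [Matrix.smul_apply, smul_eq_mul, mul_pow, ← Finset.mul_sum]
          calc _ ≤ σ⁻¹ ^ 2 * (1 / η') := mul_le_mul_of_nonneg_left h9 (by positivity)
            _ = 1 / (σ ^ 2 * η') := by field_simp
            _ ≤ 1 / η := one_div_le_one_div_of_le hη h

theorem exp_one_le : Real.exp 1 ≤ 3 := Real.exp_one_lt_d9.le.trans (by norm_num)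

theorem third_le (t : ℕ) : ((1 : ℝ) / 3) ^ t ≤ Real.exp (-(t : ℝ)) := by
  have : Real.exp (-(t : ℝ)) = (Real.exp 1)⁻¹ ^ t := by
    rw [← Real.exp_neg, ← Real.exp_nat_mul]
    congr 1
    ring
  rw [this]
  refine pow_le_pow_left₀ (by norm_num) ?_ t
  rw [← one_div]
  exact one_div_le_one_div_of_le (Real.exp_pos 1) exp_one_le

theorem wend_le (t : ℕ) : ((3 : ℝ) / 4) ^ (4 * t) ≤ Real.exp (-(t : ℝ)) := by
  refine le_trans ?_ (third_le t)
  rw [pow_mul]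
  exact pow_le_pow_left₀ (by norm_num) (by norm_num) t

theorem grid_le {t : ℕ} (ht : 1 ≤ t) :
    ((2 ^ (t ^ 3) + 1 : ℕ) : ℝ) * Real.exp (-10 * (t : ℝ) ^ 3) ≤ Real.exp (-(t : ℝ)) := by
  have h1 : ((2 ^ (t ^ 3) + 1 : ℕ) : ℝ) ≤ Real.exp (2 * (t : ℝ) ^ 3) := by
    have h2 : (2 : ℝ) ≤ Real.exp 1 := by linarith [Real.add_one_le_exp (1 : ℝ)]
    have h3 : 1 ≤ t ^ 3 := Nat.one_le_pow _ _ ht
    have h4 : 2 ^ (t ^ 3) + 1 ≤ 2 ^ (2 * t ^ 3) := by
      have h5 : 2 ≤ 2 ^ (t ^ 3) := by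
        calc 2 = 2 ^ 1 := rfl
          _ ≤ 2 ^ (t ^ 3) := Nat.pow_le_pow_right (by norm_num) h3
      rw [two_mul, pow_add]
      nlinarith
    calc ((2 ^ (t ^ 3) + 1 : ℕ) : ℝ) ≤ ((2 ^ (2 * t ^ 3) : ℕ) : ℝ) := by exact_mod_cast h4
      _ = (2 : ℝ) ^ (2 * t ^ 3) := by push_cast; rfl
      _ ≤ Real.exp 1 ^ (2 * t ^ 3) := pow_le_pow_left₀ (by norm_num) h2 _
      _ = _ := by
        rw [← Real.exp_nat_mul]
        congr 1
        push_cast
        ring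
  refine (mul_le_mul_of_nonneg_right h1 (Real.exp_pos _).le).trans ?_
  rw [← Real.exp_add, Real.exp_le_exp]
  have h6 : (1 : ℝ) ≤ t := by exact_mod_cast ht
  have : (t : ℝ) ≤ (t : ℝ) ^ 3 := le_self_pow₀ h6 (by norm_num)
  linarith

theorem nd_le {N t : ℕ} (ht : 5 ≤ t) (hN : N ≤ 2 ^ t) :
    100 * (N : ℝ) ^ 3 * √(((1 : ℝ) / 2) ^ (12 * t)) ≤ Real.exp (-(t : ℝ)) := by
  have e1 : √(((1 : ℝ) / 2) ^ (12 * t)) = (1 / 2) ^ (6 * t) := by
    rw [show 12 * t = 6 * t * 2 by ring, pow_mul, Real.sqrt_sq (by positivity)]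
  have h1 : (N : ℝ) ≤ 2 ^ t := by exact_mod_cast hN
  have h2 : (N : ℝ) ^ 3 ≤ (2 ^ t) ^ 3 := pow_le_pow_left₀ (Nat.cast_nonneg _) h1 3
  refine le_trans ?_ (third_le t)
  rw [e1]
  have e2 : ((2 : ℝ) ^ t) ^ 3 * (1 / 2) ^ (6 * t) = (3 / 8) ^ t * (1 / 3) ^ t := by
    rw [← pow_mul, mul_comm t 3, pow_mul, pow_mul, ← mul_pow, ← mul_pow]
    norm_num
  have h3 : ((3 : ℝ) / 8) ^ t ≤ (3 / 8) ^ 5 :=
    pow_le_pow_of_le_one (by norm_num) (by norm_num) ht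
  have h4 : (0 : ℝ) < (1 / 3) ^ t := by positivity
  calc 100 * (N : ℝ) ^ 3 * (1 / 2) ^ (6 * t) ≤ 100 * (2 ^ t) ^ 3 * (1 / 2) ^ (6 * t) := by gcongr
    _ = 100 * (3 / 8) ^ t * (1 / 3) ^ t := by rw [mul_assoc, e2, mul_assoc]
    _ ≤ 1 * (1 / 3) ^ t := by
      refine mul_le_mul_of_nonneg_right ?_ h4.le
      norm_num at h3 ⊢
      linarith
    _ = _ := one_mul _

theorem thr_le {t : ℕ} (ht : 15 ≤ t) {σ : ℝ} (hσ : 1 / 2 ^ t ≤ σ) :
    2 * thr t ≤ σ ^ 2 * ((1 : ℝ) / 2) ^ (12 * t) := by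
  have h1 : ((1 : ℝ) / 2 ^ t) ^ 2 ≤ σ ^ 2 := pow_le_pow_left₀ (by positivity) hσ 2
  refine le_trans ?_ (mul_le_mul_of_nonneg_right h1 (by positivity))
  have h2 : 14 * t + 1 ≤ t ^ 2 := by nlinarith
  have h3 : thr t ≤ (1 / 2) ^ (14 * t + 1) :=
    pow_le_pow_of_le_one (by norm_num) (by norm_num) h2
  have e : ((1 : ℝ) / 2 ^ t) ^ 2 * (1 / 2) ^ (12 * t) = 2 * (1 / 2) ^ (14 * t + 1) := by
    rw [← _root_.one_div_pow, ← pow_mul, ← pow_add, pow_succ, show t * 2 + 12 * t = 14 * t by ring]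
    ring
  rw [e]
  linarith

theorem uGrid_pos (t k : ℕ) : 0 < uGrid t k := by
  unfold uGrid thr
  positivity

end GoodT

open GoodT in
theorem good_tail (O : Orc) (hO : O.Tail) : ∃ t₀ : ℕ, ∀ m n t : ℕ, 1 ≤ m → 1 ≤ n → t₀ ≤ t →
    NN m n ≤ 2 ^ t → ∀ σ : ℝ, 1 / 2 ^ t ≤ σ → σ ≤ 1 →
      gam (Idx m n) {Z | ¬ Good O t (σ • Z)} ≤ ENNReal.ofReal (10 * Real.exp (-(t : ℝ))) := by
  obtain ⟨t₀, hT⟩ := hO
  refine ⟨max t₀ 20, fun m n t hm hn ht hN σ hσ hσ1 => ?_⟩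
  have ht0 : t₀ ≤ t := (le_max_left _ _).trans ht
  have ht20 : 20 ≤ t := (le_max_right _ _).trans ht
  have hσ0 : 0 < σ := lt_of_lt_of_le (by positivity) hσ
  have hsq : 16 * t + 40 ≤ t ^ 2 := by nlinarith
  set e : ENNReal := ENNReal.ofReal (Real.exp (-(t : ℝ))) with he
  have h10 : Real.exp (-10 * (t : ℝ) ^ 3) ≤ Real.exp (-(t : ℝ)) := by
    have h6 : (1 : ℝ) ≤ t := by exact_mod_cast (by omega : 1 ≤ t)
    have : (t : ℝ) ≤ (t : ℝ) ^ 3 := le_self_pow₀ h6 (by norm_num)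
    rw [Real.exp_le_exp]
    linarith
  have hok0 : ∀ {M d : ℕ} {G : (Idx m n → ℝ) → Matrix (Fin M) (Fin d) ℝ}, Rep σ G → 1 ≤ d →
      d ≤ M → M ≤ m + 1 → (M ≤ 16 * t + 40 ∨ (M ≤ 4 * d ∧ 4 * d ≤ 3 * M)) →
      gam (Idx m n) {Z | ¬ O.OK (NN m n) t (G (σ • Z))} ≤
        ENNReal.ofReal (Real.exp (-10 * (t : ℝ) ^ 3)) := by
    intro M d G hG h1 h2 h3 h4
    refine ok_le hG O _ t (hT _ t M d ht0 h1 h2 (by unfold NN; omega) hN ?_ σ hσ0.ne')
    exact h4.imp (fun h => h.trans hsq) id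
  have hok : ∀ {M d : ℕ} {G : (Idx m n → ℝ) → Matrix (Fin M) (Fin d) ℝ}, Rep σ G → 1 ≤ d →
      d ≤ M → M ≤ m + 1 → (M ≤ 16 * t + 40 ∨ (M ≤ 4 * d ∧ 4 * d ≤ 3 * M)) →
      gam (Idx m n) {Z | ¬ O.OK (NN m n) t (G (σ • Z))} ≤ e := fun hG h1 h2 h3 h4 =>
    (hok0 hG h1 h2 h3 h4).trans (ENNReal.ofReal_le_ofReal h10)
  have hw : ENNReal.ofReal ((3 / 4) ^ (4 * t)) ≤ e := ENNReal.ofReal_le_ofReal (wend_le t)
  have hnd : gam (Idx m n) {Z | ¬ NonDeg (2 * thr t) (σ • Z)} ≤ e := by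
    refine le_trans (measure_mono ?_) ((good_nondeg (m := m) hn ((1 / 2) ^ (12 * t))
      (by positivity) (pow_le_one₀ (by norm_num) (by norm_num))).trans
        (ENNReal.ofReal_le_ofReal (nd_le (by omega) hN)))
    intro Z hZ h
    refine hZ (nondeg_smul hσ0 hσ1 ?_ (thr_le (by omega) hσ) h)
    unfold thr
    positivity
  have hgrid : n ≤ m + 1 → (m + 1 ≤ 16 * t + 40 ∨ (m + 1 ≤ 4 * n ∧ 4 * n ≤ 3 * (m + 1))) →
      gam (Idx m n) {Z | ¬ ∀ k, k ≤ 2 ^ (t ^ 3) →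
        O.OK (NN m n) t (mat (Gu (uGrid t k) (σ • Z)))} ≤ e := by
    intro h1 h2
    have hu := G47.union_le (gam (Idx m n))
      (fun k : Fin (2 ^ (t ^ 3) + 1) =>
        {Z | ¬ O.OK (NN m n) t (mat (Gu (uGrid t k.val) (σ • Z)))})
      (fun k => hok0 (rep_Gu hn hσ0 (uGrid_pos t k.val)) hn h1 le_rfl h2)
    rw [Fintype.card_fin] at hu
    refine le_trans (measure_mono ?_) (hu.trans (ENNReal.ofReal_le_ofReal (grid_le (by omega))))
    intro Z hZ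
    simp only [Set.mem_ofPred_eq, not_forall] at hZ
    obtain ⟨k, hk, h⟩ := hZ
    exact Set.mem_iUnion.2 ⟨⟨k, by omega⟩, h⟩
  have emS : mS m n t = min m (3 * n + 3 + 4 * t) := rfl
  have enS : nS m n t = min n (min (m + 1) ((2 * (m + 1) + 4 * t) / 3 + 1)) := rfl
  have main : gam (Idx m n) {Z | ¬ Good O t (σ • Z)} ≤
      (e + (0 + e)) + (e + (e + (e + (e + ((e + 0) + (e + e)))))) := by
    refine and_le (imp_le fun hA => ?_) (imp_le fun hB => ?_)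
    · refine and_le (hok (rep_G3 m n t σ) ?_ ?_ ?_ ?_) (and_le (unit_le hσ0.ne' (rep_G3 m n t σ) ?_)
        ((pri_le (rep_G3 m n t σ) ?_).trans hw)) <;> omega
    · refine and_le (hok (rep_G1 m n t σ) ?_ ?_ ?_ ?_) (and_le (imp_le fun h1 =>
        (dua_le hσ0.ne' (rep_G1 m n t σ) ?_ ?_ ?_).trans hw) (imp_le fun h1 => imp_le fun h2 =>
          and_le (hok (rep_G2 m n t σ) ?_ ?_ ?_ ?_) (and_le (imp_le fun h3 =>
            (dua_le hσ0.ne' (rep_G2 m n t σ) ?_ ?_ ?_).trans hw) (and_le (imp_le fun h3 =>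
              and_le (hok (rep_G3 m n t σ) ?_ ?_ ?_ ?_) (unit_le hσ0.ne' (rep_G3 m n t σ) ?_))
                (and_le hnd (hgrid ?_ ?_)))))) <;> omega
  refine main.trans ?_
  rw [ENNReal.ofReal_mul (by norm_num), ← he]
  calc _ = 9 * e := by ring
    _ ≤ _ := by
      gcongr
      norm_num

end Pool.Agent.P.MP_ef347d_lc
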