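import Pool.Agent.P.MP_ef347d_lc.Basic3
import Pool.Agent.P.MP_ef347d_lc.Path
import Pool.Agent.P.MP_ef347d_lc.Good3

/-! A Kac-Rice bound by the change of variables formula. -/

namespace Pool.Agent.P.MP_ef347d_lc

open Matrix MeasureTheory ProbabilityTheory Filter Topology

variable {M d : ℕ}

lemma kr_gram_zero (B : Matrix (Fin M) (Fin d) ℝ) :
    (Bᵀ * B).det = 0 ↔ ∃ v, v ≠ 0 ∧ B *ᵥ v = 0 := by
  rw [← Matrix.exists_mulVec_eq_zero_iff]
  refine exists_congr fun v => and_congr_right fun _ => ⟨fun h => ?_, fun h => ?_⟩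
  · rw [← mulVec_mulVec] at h
    have := congrArg (fun w => v ⬝ᵥ w) h
    simp only [dotProduct_zero] at this
    rw [dotProduct_mulVec, vecMul_transpose] at this
    exact dotProduct_self_eq_zero.mp this
  · rw [← mulVec_mulVec, h, mulVec_zero]

lemma kr_sc_mulVec (s : Fin M → ℝ) (A : Matrix (Fin M) (Fin d) ℝ) (v : Fin d → ℝ) (k : Fin M) :
    (sc s A *ᵥ v) k = 1 / s k * (A *ᵥ v) k := by
  rw [sc, ← mulVec_mulVec, mulVec_diagonal]

lemma kr_sc_det {A : Matrix (Fin M) (Fin d) ℝ} (hA : IsUnit (Aᵀ * A).det) {s : Fin M → ℝ}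
    (hs : ∀ k, 0 < s k) : ((sc s A)ᵀ * sc s A).det ≠ 0 := by
  intro h
  obtain ⟨v, hv, h0⟩ := (kr_gram_zero _).mp h
  refine hA.ne_zero ((kr_gram_zero _).mpr ⟨v, hv, ?_⟩)
  funext k
  have := congrFun h0 k
  rw [kr_sc_mulVec] at this
  exact (mul_eq_zero.mp this).resolve_left (one_div_pos.mpr (hs k)).ne'

lemma kr_Gall_zero {A : Matrix (Fin M) (Fin d) ℝ} (hA : ¬ IsUnit (Aᵀ * A).det) (s : Fin M → ℝ) :
    Gall s A = 0 := by
  rw [isUnit_iff_ne_zero, not_not] at hA
  obtain ⟨v, hv, h0⟩ := (kr_gram_zero _).mp hA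
  have : ((sc s A)ᵀ * sc s A).det = 0 := by
    refine (kr_gram_zero _).mpr ⟨v, hv, ?_⟩
    funext k
    rw [kr_sc_mulVec, h0]
    simp
  rw [Gall, this, ENNReal.ofReal_zero]

/-- the derivative of `r • nv` -/
noncomputable def krD (r : ℝ) (s : Fin M → ℝ) (A : Matrix (Fin M) (Fin d) ℝ) :
    (Fin d → ℝ) →L[ℝ] (Fin d → ℝ) :=
  LinearMap.toContinuousLinearMap (Matrix.toLin' (r • ((sc s A)ᵀ * sc s A)))

lemma krD_apply (r : ℝ) (s : Fin M → ℝ) (A : Matrix (Fin M) (Fin d) ℝ) (v : Fin d → ℝ) :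
    krD r s A v = r • (Aᵀ *ᵥ fun k => (s k ^ 2)⁻¹ * (A *ᵥ v) k) := by
  have h : (sc s A)ᵀ *ᵥ (sc s A *ᵥ v) = Aᵀ *ᵥ fun k => (s k ^ 2)⁻¹ * (A *ᵥ v) k := by
    conv_lhs => rw [sc, transpose_mul, diagonal_transpose, ← mulVec_mulVec]
    congr 1
    funext k
    rw [mulVec_diagonal, ← mulVec_mulVec, mulVec_diagonal]
    ring
  simp only [krD, LinearMap.coe_toContinuousLinearMap', toLin'_apply, smul_mulVec,
    ← mulVec_mulVec, h]

lemma kr_strict (μ : ℝ) (A : Matrix (Fin M) (Fin d) ℝ) {x : Fin d → ℝ}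
    (hx : ∀ k, 0 < sl A x k) : HasStrictFDerivAt (nv μ A) (krD (-μ) (sl A x) A) x := by
  let L : (Fin d → ℝ) →L[ℝ] (Fin M → ℝ) := LinearMap.toContinuousLinearMap (Matrix.toLin' A)
  let L' : (Fin M → ℝ) →L[ℝ] (Fin d → ℝ) := LinearMap.toContinuousLinearMap (Matrix.toLin' Aᵀ)
  have h1 : ∀ k, HasStrictFDerivAt (fun y : Fin d → ℝ => μ / sl A y k - 1)
      ((-μ * (sl A x k ^ 2)⁻¹) • ((ContinuousLinearMap.proj k).comp L)) x := by
    intro k
    have h2 : HasStrictFDerivAt (fun y : Fin d → ℝ => sl A y k)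
        ((ContinuousLinearMap.proj (R := ℝ) (φ := fun _ : Fin M => ℝ) k).comp L) x :=
      (((ContinuousLinearMap.proj (R := ℝ) (φ := fun _ : Fin M => ℝ) k).comp
        L).hasStrictFDerivAt).const_add 1
    have h3 : HasStrictDerivAt (fun t : ℝ => μ / t - 1) (-μ * (sl A x k ^ 2)⁻¹) (sl A x k) := by
      have : HasStrictDerivAt (fun t : ℝ => μ * t⁻¹ - 1) (μ * -(sl A x k ^ 2)⁻¹) (sl A x k) :=
        ((hasStrictDerivAt_inv (hx k).ne').const_mul μ).sub_const 1
      rw [mul_neg, ← neg_mul] at this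
      exact this
    exact h3.comp_hasStrictFDerivAt x h2
  have h4 := L'.hasStrictFDerivAt.comp x (hasStrictFDerivAt_pi.mpr h1)
  refine HasStrictFDerivAt.congr_fderiv h4 (Eq.symm ?_)
  ext1 v
  rw [krD_apply, ← mulVec_smul]
  change _ = Aᵀ *ᵥ _
  congr 1
  funext k
  change -μ * ((sl A x k ^ 2)⁻¹ * (A *ᵥ v) k) = -μ * (sl A x k ^ 2)⁻¹ * (A *ᵥ v) k
  ring

lemma kr_inj {μ : ℝ} (hμ : 0 < μ) {A : Matrix (Fin M) (Fin d) ℝ} (hA : IsUnit (Aᵀ * A).det)
    {x y : Fin d → ℝ} (hx : ∀ k, 0 < sl A x k) (hy : ∀ k, 0 < sl A y k)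
    (h : nv μ A x = nv μ A y) : x = y := by
  have h1 : Aᵀ *ᵥ (fun k => μ / sl A x k - μ / sl A y k) = 0 := by
    have : (fun k => μ / sl A x k - μ / sl A y k) =
        (fun k => μ / sl A x k - 1) - fun k => μ / sl A y k - 1 := by
      funext k; simp
    rw [this, mulVec_sub]
    exact sub_eq_zero.mpr h
  have h2 : (A *ᵥ (x - y)) = fun k => sl A x k - sl A y k := by
    funext k; simp [sl, mulVec_sub]
  have h3 : ∑ k, μ * (sl A x k - sl A y k) ^ 2 / (sl A x k * sl A y k) = 0 := by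
    have := congrArg (fun w => (x - y) ⬝ᵥ w) h1
    simp only [dotProduct_zero] at this
    rw [dotProduct_mulVec, vecMul_transpose, h2, dotProduct] at this
    rw [← neg_eq_zero, ← Finset.sum_neg_distrib, ← this]
    refine Finset.sum_congr rfl fun k _ => ?_
    have := (hx k).ne'
    have := (hy k).ne'
    field_simp
    ring
  rw [Finset.sum_eq_zero_iff_of_nonneg fun k _ => by have := hx k; have := hy k; positivity] at h3
  by_contra hne
  refine hA.ne_zero ((kr_gram_zero _).mpr ⟨x - y, sub_ne_zero.mpr hne, ?_⟩)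
  rw [h2]
  funext k
  have h4 := h3 k (Finset.mem_univ k)
  have := hx k
  have := hy k
  rw [div_eq_zero_iff, mul_eq_zero] at h4
  rcases h4 with (h4 | h4) | h4
  · exact absurd h4 hμ.ne'
  · exact pow_eq_zero_iff (two_ne_zero) |>.mp h4
  · exact absurd h4 (by positivity)

lemma kr_det (r : ℝ) (s : Fin M → ℝ) (A : Matrix (Fin M) (Fin d) ℝ) :
    ENNReal.ofReal |(krD r s A).det| = ENNReal.ofReal (|r| ^ d) * Gall s A := by
  have h0 : 0 ≤ ((sc s A)ᵀ * sc s A).det := by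
    have := (Matrix.posSemidef_conjTranspose_mul_self (sc s A)).det_nonneg
    rwa [conjTranspose_eq_transpose_of_trivial] at this
  have h : (krD r s A).det = r ^ d * ((sc s A)ᵀ * sc s A).det := by
    rw [krD, ContinuousLinearMap.det, LinearMap.coe_toContinuousLinearMap, LinearMap.det_toLin',
      det_smul, Fintype.card_fin]
  rw [h, abs_mul, abs_pow, abs_of_nonneg h0, Gall, ENNReal.ofReal_mul (by positivity)]

/-- change of variables -/
lemma kr_change {μ η : ℝ} (hμ : 0 < μ) (hη : 0 < η) {A : Matrix (Fin M) (Fin d) ℝ}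
    (hA : IsUnit (Aᵀ * A).det) {W : Set (Fin d → ℝ)} (hW : MeasurableSet W)
    (hU : ∀ x ∈ W, ∀ k, 0 < sl A x k) :
    ∫⁻ y in (fun x => η⁻¹ • nv μ A x) '' W, ENNReal.ofReal (gd y) =
      ENNReal.ofReal ((μ / η) ^ d) * ∫⁻ x in W, krw μ η A x * Gall (sl A x) A := by
  rw [lintegral_image_eq_lintegral_abs_det_fderiv_mul volume hW
    (f' := fun x => krD (-(μ / η)) (sl A x) A), ← lintegral_const_mul' _ _ ENNReal.ofReal_ne_top]
  · refine setLIntegral_congr_fun hW fun x hx => ?_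
    simp only [krw, if_pos (hU x hx), kr_det, abs_neg, abs_of_pos (div_pos hμ hη)]
    ring
  · intro x hx
    have := ((kr_strict μ A (hU x hx)).hasFDerivAt.const_smul η⁻¹).hasFDerivWithinAt (s := W)
    refine HasFDerivWithinAt.congr_fderiv this (Eq.symm ?_)
    ext1 v
    rw [_root_.smul_apply, krD_apply, krD_apply, smul_smul]
    congr 1
    ring
  · intro x hx y hy hxy
    exact kr_inj hμ hA (hU x hx) (hU y hy) (smul_right_injective _ (inv_ne_zero hη.ne') hxy)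

lemma kr_cont_sl (A : Matrix (Fin M) (Fin d) ℝ) : Continuous (sl A) := by
  unfold sl
  exact continuous_pi fun k => continuous_const.add
    ((continuous_apply k).comp (continuous_const.matrix_mulVec continuous_id))

lemma kr_open_U (A : Matrix (Fin M) (Fin d) ℝ) : IsOpen {x | ∀ k, 0 < sl A x k} := by
  rw [Set.ofPred_forall]
  exact isOpen_iInter_of_finite fun k =>
    isOpen_lt continuous_const ((continuous_apply k).comp (kr_cont_sl A))

lemma kr_upper {μ η : ℝ} (hμ : 0 < μ) (hη : 0 < η) (A : Matrix (Fin M) (Fin d) ℝ) :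
    ENNReal.ofReal ((μ / η) ^ d) * ∫⁻ x, krw μ η A x * Gall (sl A x) A ≤ 1 := by
  by_cases hA : IsUnit (Aᵀ * A).det
  · have h := kr_change hμ hη hA (kr_open_U A).measurableSet fun x hx => hx
    have h2 : ∫⁻ x, krw μ η A x * Gall (sl A x) A =
        ∫⁻ x in {x | ∀ k, 0 < sl A x k}, krw μ η A x * Gall (sl A x) A := by
      rw [← lintegral_indicator (kr_open_U A).measurableSet]
      refine lintegral_congr fun x => ?_
      by_cases hx : ∀ k, 0 < sl A x k
      · rw [Set.indicator_of_mem (show x ∈ {x | ∀ k, 0 < sl A x k} from hx)]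
      · rw [Set.indicator_of_notMem (show x ∉ {x | ∀ k, 0 < sl A x k} from hx), krw, if_neg hx,
          zero_mul]
    rw [h2, ← h, ← lintegral_gd (ι := Fin d)]
    exact setLIntegral_le_lintegral _ _
  · simp [kr_Gall_zero hA]

lemma kr_open_Phi {X : Type} [TopologicalSpace X] (τ μ : ℝ) {s : X → Fin M → ℝ}
    {Q : X → Matrix (Fin M) (Fin M) ℝ} (hs : Continuous s) (h0 : ∀ x k, s x k ≠ 0)
    (hQ : Continuous Q) : IsOpen {x | Phi τ μ (s x) (Q x)} := by
  have h1 : ∀ k, Continuous fun x => s x k := fun k => (continuous_apply k).comp hs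
  have h2 : ∀ k, Continuous fun x => μ / s x k := fun k =>
    continuous_const.div (h1 k) fun x => h0 x k
  have h3 : ∀ k, Continuous fun x => Q x k k := fun k => hQ.matrix_elem k k
  have h4 : Continuous fun x => Q x *ᵥ fun k => μ - s x k :=
    hQ.matrix_mulVec (continuous_pi fun k => continuous_const.sub (h1 k))
  have h5 : Continuous fun x => Q x *ᵥ fun _ => (1 : ℝ) := hQ.matrix_mulVec continuous_const
  simp only [Phi, Set.ofPred_and, Set.ofPred_forall, Set.ofPred_exists]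
  refine (isOpen_iInter_of_finite fun k => isOpen_lt ?_ continuous_const).inter
    ((isOpen_iInter_of_finite fun k => isOpen_lt ?_ continuous_const).inter
    ((isOpen_lt continuous_const ?_).inter ((isOpen_lt continuous_const ?_).inter
    ((isOpen_lt ?_ continuous_const).inter
    (isOpen_iUnion fun k => isOpen_lt continuous_const ?_)))))
  · exact (continuous_const.sub (h1 k)).abs
  · exact (continuous_const.sub (h2 k)).abs
  · exact continuous_finsetSum _ fun k _ => (h3 k).mul ((continuous_const.sub (h1 k)).pow 2)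
  · exact continuous_finsetSum _ fun k _ =>
      (continuous_const.sub (h3 k)).mul ((continuous_const.sub (h2 k)).pow 2)
  · exact h4.dotProduct h4
  · exact ((continuous_apply k).comp h5).abs

/-- the bad region in the space of points -/
def krW (τ μ : ℝ) (A : Matrix (Fin M) (Fin d) ℝ) : Set (Fin d → ℝ) :=
  {x | (∀ k, 0 < sl A x k) ∧ Phi τ μ (sl A x) (Pr (sc (sl A x) A))}

lemma kr_open_W (τ μ : ℝ) {A : Matrix (Fin M) (Fin d) ℝ} (hA : IsUnit (Aᵀ * A).det) :
    IsOpen (krW τ μ A) := by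
  let U : Set (Fin d → ℝ) := {x | ∀ k, 0 < sl A x k}
  have hs : Continuous fun x : U => sl A x := (kr_cont_sl A).comp continuous_subtype_val
  have h0 : ∀ (x : U) k, sl A x k ≠ 0 := fun x k => (x.2 k).ne'
  have hB : Continuous fun x : U => sc (sl A x) A := by
    unfold sc
    refine Continuous.matrix_mul (Continuous.matrix_diagonal ?_) continuous_const
    exact continuous_pi fun k =>
      continuous_const.div ((continuous_apply k).comp hs) fun x => h0 x k
  have h1 : Continuous fun x : U => (sc (sl A x) A)ᵀ * sc (sl A x) A :=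
    hB.matrix_transpose.matrix_mul hB
  have hQ : Continuous fun x : U => Pr (sc (sl A x) A) := by
    simp only [Pr, Matrix.inv_def, Ring.inverse_eq_inv']
    refine (hB.matrix_mul ?_).matrix_mul hB.matrix_transpose
    exact (h1.matrix_det.inv₀ fun x => kr_sc_det hA x.2).smul h1.matrix_adjugate
  have h2 := (kr_open_U A).isOpenMap_subtype_val _ (kr_open_Phi τ μ hs h0 hQ)
  convert h2 using 1
  ext x
  constructor
  · rintro ⟨hx, hp⟩
    exact ⟨⟨x, hx⟩, hp, rfl⟩
  · rintro ⟨y, hy, rfl⟩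
    exact ⟨y.2, hy⟩

lemma kr_ball {τ μ : ℝ} (hμ : 0 < μ) {A : Matrix (Fin M) (Fin d) ℝ} (hA : IsUnit (Aᵀ * A).det)
    {x : Fin d → ℝ} (hx : x ∈ krW τ μ A) (h0 : nv μ A x = 0) :
    ∃ r > 0, Metric.ball 0 r ⊆ nv μ A '' krW τ μ A := by
  have hsurj : (krD (-μ) (sl A x) A : (Fin d → ℝ) →ₗ[ℝ] (Fin d → ℝ)).range = ⊤ := by
    rw [LinearMap.range_eq_top]
    have : IsUnit ((-μ) • ((sc (sl A x) A)ᵀ * sc (sl A x) A)) := by
      rw [isUnit_iff_isUnit_det, isUnit_iff_ne_zero, det_smul]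
      exact mul_ne_zero (pow_ne_zero _ (neg_ne_zero.mpr hμ.ne')) (kr_sc_det hA hx.1)
    exact mulVec_surjective_iff_isUnit.mpr this
  have h1 := (kr_strict μ A hx.1).map_nhds_eq_of_surj hsurj
  have h2 := image_mem_map (m := nv μ A) ((kr_open_W τ μ hA).mem_nhds hx)
  rw [h1, h0] at h2
  exact Metric.mem_nhds_iff.mp h2

lemma kr_lower {τ μ η R : ℝ} (hμ : 0 < μ) (hη : 0 < η) {A : Matrix (Fin M) (Fin d) ℝ}
    (hA : IsUnit (Aᵀ * A).det) (h : Metric.ball 0 (η * R) ⊆ nv μ A '' krW τ μ A) :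
    gam (Fin d) (Metric.ball 0 R) ≤
      ENNReal.ofReal ((μ / η) ^ d) * ∫⁻ x, krw μ η A x * Gbad τ μ (sl A x) A := by
  have hW := (kr_open_W τ μ hA).measurableSet
  have h1 := kr_change hμ hη hA hW fun x hx => hx.1
  have h2 : ∫⁻ x in krW τ μ A, krw μ η A x * Gall (sl A x) A ≤
      ∫⁻ x, krw μ η A x * Gbad τ μ (sl A x) A := by
    refine le_trans (le_of_eq ?_) (setLIntegral_le_lintegral (krW τ μ A) _)
    refine setLIntegral_congr_fun hW fun x hx => ?_
    simp only [Gbad, if_pos hx.2]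
  refine le_trans ?_ (mul_le_mul_right h2 _)
  rw [← h1, gam_eq, withDensity_apply _ Metric.isOpen_ball.measurableSet]
  refine lintegral_mono_set fun y hy => ?_
  have h3 : η • y ∈ Metric.ball (0 : Fin d → ℝ) (η * R) := by
    rw [mem_ball_zero_iff] at hy ⊢
    rw [norm_smul, Real.norm_eq_abs, abs_of_pos hη]
    exact mul_lt_mul_of_pos_left hy hη
  obtain ⟨x, hx, hxy⟩ := h h3
  exact ⟨x, hx, by simp only [hxy, smul_smul, inv_mul_cancel₀ hη.ne', one_smul]⟩

lemma kr_radius (d : ℕ) : ∃ R : ℝ, 0 < R ∧ 1 / 2 ≤ gam (Fin d) (Metric.ball 0 R) := by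
  have hm : Monotone fun n : ℕ => Metric.ball (0 : Fin d → ℝ) (n + 1) := fun a b hab =>
    Metric.ball_subset_ball (by have : (a : ℝ) ≤ b := by exact_mod_cast hab
                                linarith)
  have h1 := hm.measure_iUnion (μ := gam (Fin d))
  rw [Metric.iUnion_ball_nat_succ, measure_univ] at h1
  have h2 : (1 / 2 : ENNReal) < ⨆ n : ℕ, gam (Fin d) (Metric.ball 0 (n + 1)) := by
    rw [← h1]; simp
  obtain ⟨n, hn⟩ := lt_iSup_iff.mp h2
  exact ⟨n + 1, by positivity, hn.le⟩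

lemma kr_meas_sl : Measurable fun p : (Fin M × Fin d → ℝ) × (Fin d → ℝ) => sl (mat p.1) p.2 := by
  refine Continuous.measurable ?_
  unfold sl
  exact continuous_pi fun k => continuous_const.add ((continuous_apply k).comp
    ((cont_mat.comp continuous_fst).matrix_mulVec continuous_snd))

lemma kr_meas_krw (μ η : ℝ) :
    Measurable fun p : (Fin M × Fin d → ℝ) × (Fin d → ℝ) => krw μ η (mat p.1) p.2 := by
  have h1 : ∀ k, Measurable fun p : (Fin M × Fin d → ℝ) × (Fin d → ℝ) => sl (mat p.1) p.2 k :=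
    fun k => (measurable_pi_apply k).comp kr_meas_sl
  unfold krw
  refine Measurable.ite ?_ (meas_gd.comp ?_) measurable_const
  · rw [Set.ofPred_forall]
    exact MeasurableSet.iInter fun k => measurableSet_lt measurable_const (h1 k)
  · refine measurable_pi_lambda _ fun j => ?_
    change Measurable fun p : (Fin M × Fin d → ℝ) × (Fin d → ℝ) =>
      η⁻¹ * ∑ k, p.1 (k, j) * (μ / sl (mat p.1) p.2 k - 1)
    refine (Finset.measurable_sum _ fun k _ => Measurable.mul ?_ ?_).const_mul _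
    · exact (measurable_pi_apply (k, j)).comp measurable_fst
    · exact (measurable_const.div (h1 k)).sub measurable_const

lemma kr_level (hd : 1 ≤ d) {τ μ η R : ℝ} (hμ : 0 < μ) (hη : 0 < η) (c : ENNReal)
    (hG : Measurable fun p : (Fin M → ℝ) × (Fin M × Fin d → ℝ) => Gall p.1 (mat p.2))
    (hB : Measurable fun p : (Fin M → ℝ) × (Fin M × Fin d → ℝ) => Gbad τ μ p.1 (mat p.2))
    (h : ∀ x : Fin d → ℝ, x ≠ 0 →
      ∫⁻ z, krw μ η (mat z) x * Gbad τ μ (sl (mat z) x) (mat z) ∂gam (Fin M × Fin d) ≤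
        c * ∫⁻ z, krw μ η (mat z) x * Gall (sl (mat z) x) (mat z) ∂gam (Fin M × Fin d))
    (hR : 1 / 2 ≤ gam (Fin d) (Metric.ball 0 R)) :
    gam (Fin M × Fin d) {z | IsUnit ((mat z)ᵀ * mat z).det ∧
      Metric.ball 0 (η * R) ⊆ nv μ (mat z) '' krW τ μ (mat z)} ≤ 2 * c := by
  obtain ⟨J, hJ⟩ : ∃ J, J = ENNReal.ofReal ((μ / η) ^ d) := ⟨_, rfl⟩
  have hJt : J ≠ ⊤ := hJ ▸ ENNReal.ofReal_ne_top
  have hp : Measurable fun p : (Fin M × Fin d → ℝ) × (Fin d → ℝ) => (sl (mat p.1) p.2, p.1) :=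
    kr_meas_sl.prodMk measurable_fst
  obtain ⟨FB, hFB⟩ : ∃ F : (Fin M × Fin d → ℝ) → (Fin d → ℝ) → ENNReal, F = fun z x =>
      krw μ η (mat z) x * Gbad τ μ (sl (mat z) x) (mat z) := ⟨_, rfl⟩
  obtain ⟨FG, hFG⟩ : ∃ F : (Fin M × Fin d → ℝ) → (Fin d → ℝ) → ENNReal, F = fun z x =>
      krw μ η (mat z) x * Gall (sl (mat z) x) (mat z) := ⟨_, rfl⟩
  have mB : Measurable (Function.uncurry FB) := by
    have h1 := hB.comp hp
    have h2 := (kr_meas_krw μ η).mul h1
    rw [hFB, Function.uncurry_def]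
    simpa only [Function.comp_def, Pi.mul_def] using h2
  have mG : Measurable (Function.uncurry FG) := by
    have h1 := hG.comp hp
    have h2 := (kr_meas_krw μ η).mul h1
    rw [hFG, Function.uncurry_def]
    simpa only [Function.comp_def, Pi.mul_def] using h2
  have h' : ∀ x, x ≠ 0 → ∫⁻ z, FB z x ∂gam (Fin M × Fin d) ≤
      c * ∫⁻ z, FG z x ∂gam (Fin M × Fin d) := by
    rw [hFB, hFG]; exact h
  have hup : ∀ z, J * ∫⁻ x, FG z x ≤ 1 := by
    rw [hFG, hJ]; exact fun z => kr_upper hμ hη _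
  have h2 : {z | IsUnit ((mat z)ᵀ * mat z).det ∧
      Metric.ball 0 (η * R) ⊆ nv μ (mat z) '' krW τ μ (mat z)} ⊆ {z | 1 / 2 ≤ J * ∫⁻ x, FB z x} := by
    rw [hFB, hJ]
    exact fun z hz => hR.trans (kr_lower hμ hη hz.1 hz.2)
  have hK : Measurable fun z => J * ∫⁻ x, FB z x := mB.lintegral_prod_right.const_mul J
  have h1 := mul_meas_ge_le_lintegral (μ := gam (Fin M × Fin d)) hK (1 / 2)
  have hae : ∀ᵐ x : Fin d → ℝ, x ≠ 0 := by
    have : Nonempty (Fin d) := ⟨⟨0, hd⟩⟩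
    exact compl_mem_ae_iff.mpr (measure_singleton 0)
  have h3 : ∫⁻ z, J * ∫⁻ x, FB z x ∂volume ∂gam (Fin M × Fin d) ≤ c := by
    rw [lintegral_const_mul' _ _ hJt, lintegral_lintegral_swap mB.aemeasurable]
    calc _ ≤ J * ∫⁻ x, c * ∫⁻ z, FG z x ∂gam (Fin M × Fin d) :=
          mul_le_mul_right (lintegral_mono_ae (hae.mono fun x hx => h' x hx)) _
      _ = c * ∫⁻ z, J * ∫⁻ x, FG z x ∂volume ∂gam (Fin M × Fin d) := by
          rw [lintegral_const_mul _ mG.lintegral_prod_left, lintegral_const_mul' _ _ hJt,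
            lintegral_lintegral_swap mG.aemeasurable, mul_left_comm]
      _ ≤ c * ∫⁻ _, 1 ∂gam (Fin M × Fin d) := mul_le_mul_right (lintegral_mono hup) _
      _ = c := by simp
  have h4 := le_trans (mul_le_mul_right (measure_mono h2) _) (h1.trans h3)
  refine le_trans (le_of_eq ?_) (mul_le_mul_right h4 2)
  rw [← mul_assoc, one_div, ENNReal.mul_inv_cancel two_ne_zero ENNReal.ofNat_ne_top, one_mul]

theorem kr_main {M d : ℕ} (hd : 1 ≤ d) {τ μ : ℝ} (hμ : 0 < μ) (c : ENNReal)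
    (hG : Measurable fun p : (Fin M → ℝ) × (Fin M × Fin d → ℝ) => Gall p.1 (mat p.2))
    (hB : Measurable fun p : (Fin M → ℝ) × (Fin M × Fin d → ℝ) => Gbad τ μ p.1 (mat p.2))
    (h : ∀ η : ℝ, 0 < η → ∀ x : Fin d → ℝ, x ≠ 0 →
      ∫⁻ z, krw μ η (mat z) x * Gbad τ μ (sl (mat z) x) (mat z) ∂gam (Fin M × Fin d) ≤
        c * ∫⁻ z, krw μ η (mat z) x * Gall (sl (mat z) x) (mat z) ∂gam (Fin M × Fin d)) :
    gam (Fin M × Fin d) {z | IsUnit ((mat z)ᵀ * mat z).det ∧ ∃ x, (∀ k, 0 < sl (mat z) x k) ∧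
      nv μ (mat z) x = 0 ∧ Phi τ μ (sl (mat z) x) (Pr (sc (sl (mat z) x) (mat z)))} ≤ 2 * c := by
  obtain ⟨R, hR, hR2⟩ := kr_radius d
  let E : ℕ → Set (Fin M × Fin d → ℝ) := fun j => {z | IsUnit ((mat z)ᵀ * mat z).det ∧
    Metric.ball 0 (1 / ((j : ℝ) + 1) * R) ⊆ nv μ (mat z) '' krW τ μ (mat z)}
  have hm : Monotone E := by
    intro a b hab z hz
    refine ⟨hz.1, (Metric.ball_subset_ball ?_).trans hz.2⟩
    exact mul_le_mul_of_nonneg_right (Nat.one_div_le_one_div hab) hR.le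
  refine le_trans (measure_mono (t := ⋃ j, E j) ?_) ?_
  · rintro z ⟨hA, x, hx, h0, hp⟩
    obtain ⟨r, hr, hb⟩ := kr_ball (τ := τ) hμ hA ⟨hx, hp⟩ h0
    obtain ⟨j, hj⟩ := exists_nat_one_div_lt (div_pos hr hR)
    refine Set.mem_iUnion.mpr ⟨j, hA, (Metric.ball_subset_ball ?_).trans hb⟩
    exact ((lt_div_iff₀ hR).mp hj).le
  rw [hm.measure_iUnion]
  refine iSup_le fun j => ?_
  have hη : (0 : ℝ) < 1 / ((j : ℝ) + 1) := by positivity
  exact kr_level hd hμ hη c hG hB (h _ hη) hR2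

end Pool.Agent.P.MP_ef347d_lc
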