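import Pool.Agent.P.MP_ef347d_lc.Mach2

/-! Machine layer, part 3: closure properties of `PM` and the driver. -/

namespace Pool.Agent.P.MP_ef347d_lc

open Matrix Finset Mach

namespace Mach

/-- inputs of a matrix program -/
structure PIn : Type where
  m : ℕ
  n : ℕ
  t : ℕ
  Y : ℕ → Mt m n
  hN : NN m n ≤ 2 ^ t
  hY : Y 0 = cst t

/-- the context of matrix programs with `k` inputs -/
abbrev pm (k : ℕ) : Ctx :=
  ⟨PIn, PIn.m, PIn.n, PIn.t, k, fun x i _ b c _ => lift (x.Y i) b c, PIn.hN⟩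

theorem holdsM_iff {m n : ℕ} (σ : ℕ → ℝ) (r : ℕ) (X : Mt m n) :
    HoldsM σ r X ↔ Holds (NN m n) σ r (fun _ b c _ => lift X b c) := by
  constructor
  · intro h a b c d ha hb hc hd
    dsimp only
    rw [lift_of_lt _ hb hc]
    exact h ⟨a, ha⟩ ⟨b, hb⟩ ⟨c, hc⟩ ⟨d, hd⟩
  · intro h k i j l
    rw [h k i j l k.2 i.2 j.2 l.2]
    exact lift_fin _ _ _

theorem pm_iff {k : ℕ} {F : MF} : PM k F ↔ CompB (pm k) (fun x _ => F x.m x.n x.Y) := by
  unfold PM
  simp only [holdsM_iff]
  constructor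
  · rintro ⟨C, e, h⟩
    refine ⟨C, e, fun loc s hl => ?_⟩
    obtain ⟨c, h⟩ := h loc s hl
    exact ⟨c, fun x σ hσ => h x.m x.n x.t x.Y σ x.hN x.hY hσ⟩
  · rintro ⟨C, e, h⟩
    refine ⟨C, e, fun loc s hl => ?_⟩
    obtain ⟨c, h⟩ := h loc s hl
    exact ⟨c, fun m n t Y σ hN hY hσ => h ⟨m, n, t, Y, hN, hY⟩ σ hσ⟩

theorem lift_cst {N : ℕ} (r : ℝ) {b c : ℕ} (hb : b < N) (hc : c < N) :
    lift (cst (N := N) r) b c = r := lift_of_lt _ hb hc

theorem pm_ok {k : ℕ} (hk : 0 < k) : (pm k).Ok := by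
  refine (Comp.var (Γ := pm k) hk).congr ?_
  intro x a b c d _ hb hc _
  dsimp only
  rw [x.hY, lift_cst _ hb hc]

end Mach

theorem PM.var {k i : ℕ} (hi : i < k) : PM k (fun _ _ Y => Y i) :=
  pm_iff.2 (Comp.var (Γ := pm k) hi)

theorem PM.num {k : ℕ} (c : ℕ) : PM k (fun _ _ _ => cst c) :=
  pm_iff.2 ((Comp.num c).congr fun _ _ _ _ _ _ h₂ h₃ _ => (lift_cst _ h₂ h₃).symm)

theorem PM.rows {k : ℕ} : PM k (fun m _ _ => cst m) :=
  pm_iff.2 ((Comp.cast .m).congr fun _ _ _ _ _ _ h₂ h₃ _ => (lift_cst _ h₂ h₃).symm)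

theorem PM.cols {k : ℕ} : PM k (fun _ n _ => cst n) :=
  pm_iff.2 ((Comp.cast .n).congr fun _ _ _ _ _ _ h₂ h₃ _ => (lift_cst _ h₂ h₃).symm)

theorem PM.rowIdx {k : ℕ} : PM k (fun _ _ _ => Matrix.of fun i _ => (i.val : ℝ)) :=
  pm_iff.2 ((Comp.cast .b).congr fun _ _ _ _ _ _ h₂ h₃ _ => by
    rw [lift_of_lt _ h₂ h₃]
    rfl)

theorem PM.op {k : ℕ} (o : Op) {F G : MF} (hF : PM k F) (hG : PM k G) :
    PM k (fun m n Y => Matrix.of fun i j => o.eval (F m n Y i j) (G m n Y i j)) :=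
  pm_iff.2 ((Comp.op o (pm_iff.1 hF) (pm_iff.1 hG)).congr fun _ _ _ _ _ _ h₂ h₃ _ => by
    simp only [lift_of_lt _ h₂ h₃, Matrix.of_apply])

theorem PM.transpose {k : ℕ} {F : MF} (hF : PM k F) : PM k (fun m n Y => (F m n Y)ᵀ) :=
  pm_iff.2 ((Comp.gather (pm_iff.1 hF) .a .c .b .d).congr fun _ _ _ _ _ _ h₂ h₃ _ => by
    simp only [Nat.mod_eq_of_lt h₂, Nat.mod_eq_of_lt h₃, lift_of_lt _ h₂ h₃, lift_of_lt _ h₃ h₂,
      Matrix.transpose_apply])

theorem PM.mul {k : ℕ} (hk : 0 < k) {F G : MF} (hF : PM k F) (hG : PM k G) :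
    PM k (fun m n Y => F m n Y * G m n Y) :=
  pm_iff.2 ((pm_iff.1 hF).mul (pm_ok hk) (pm_iff.1 hG))

/-- exact inverse of a symmetric matrix (Csanky; for singular input both sides are `0`) -/
theorem PM.inv {k : ℕ} (hk : 0 < k) {F : MF} (hF : PM k F)
    (hs : ∀ m n Y, (F m n Y)ᵀ = F m n Y) : PM k (fun m n Y => (F m n Y)⁻¹) :=
  pm_iff.2 ((pm_iff.1 hF).inv (pm_ok hk) fun x => hs x.m x.n x.Y)

theorem PM.call {k k₀ : ℕ} (hk : 0 < k) {F : MF} (hF : PM k₀ F) (g : ℕ → MF)
    (hg : ∀ i, 0 < i → i < k₀ → PM k (g i)) :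
    PM k (fun m n Y => F m n (fun i => if i = 0 then Y 0 else g i m n Y)) := by
  refine pm_iff.2 (Comp.call (Γ := pm k) (pm_iff.1 hF)
    (fun x => ⟨x.m, x.n, x.t, fun i => if i = 0 then x.Y 0 else g i x.m x.n x.Y, x.hN, x.hY⟩)
    (fun _ => rfl) (fun _ => rfl) (fun _ => le_rfl) fun i hi => ?_)
  by_cases h : i = 0
  · simp only [h, if_true]
    exact Comp.var (Γ := pm k) hk
  · simp only [h, if_false]
    exact pm_iff.1 (hg i (by omega) hi)

theorem PM.iter {k l : ℕ} (hk : 0 < k) (a : ℕ) (init body : Fin l → MF)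
    (hi : ∀ j, PM k (init j)) (hb : ∀ j, PM (k + l) (body j)) (j : Fin l) :
    PM k (fun m n Y => ((fun (st : Fin l → Mt m n) (j' : Fin l) =>
      body j' m n (ext k Y st))^[tOf (Y 0) ^ a] (fun j' => init j' m n Y)) j) := by
  let st : (x : PIn) → ℕ → Fin l → Mt x.m x.n := fun x i =>
    (fun (st : Fin l → Mt x.m x.n) (j' : Fin l) => body j' x.m x.n (ext k x.Y st))^[i]
      (fun j' => init j' x.m x.n x.Y)
  have h := Comp.iter (pm_ok hk) l a
    (fun x i j => if h : j < l then fun _ b c _ => lift (st x i ⟨j, h⟩) b c else 0)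
    (fun j hj => by
      simp only [hj, dif_pos]
      exact pm_iff.1 (hi ⟨j, hj⟩))
    (fun j hj => by
      simp only [hj, dif_pos]
      refine (Comp.call (Γ := (pm k).loop l _ fun x => x.t ^ a) (pm_iff.1 (hb ⟨j, hj⟩))
        (fun p => ⟨p.1.1.m, p.1.1.n, p.1.1.t, ext k p.1.1.Y (st p.1.1 p.1.2), p.1.1.hN, by
          rw [ext, dif_neg (by omega)]
          exact p.1.1.hY⟩)
        (fun _ => rfl) (fun _ => rfl) (fun _ => le_rfl) fun i hi => ?_).congr ?_
      · have hi' : i < k + l := hi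
        refine (Comp.var (i := i) hi').congr ?_
        intro x a b c d _ _ _ _
        dsimp only [ext]
        by_cases h1 : i < k
        · rw [if_pos h1, dif_neg (by omega)]
        · rw [if_neg h1, dif_pos (show i - k < l by omega), dif_pos ⟨by omega, hi'⟩]
      · intro x a b c d _ _ _ _
        simp only [st, Function.iterate_succ_apply'])
    j.2
  simp only [j.2, dif_pos] at h
  refine pm_iff.2 (h.congr ?_)
  intro x a b c d _ _ _ _
  have : tOf (x.Y 0) = x.t := by
    rw [x.hY]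
    exact Nat.floor_natCast _
  simp only [this, st]

namespace Mach

/-- inputs of the driver -/
structure MIn (F : MF) : Type where
  m : ℕ
  n : ℕ
  D : Idx m n → ℝ
  T : ℕ
  hT : Nat.clog 2 (NN m n) ≤ T
  hF : 0 < F m n (env D T) 0 0

theorem le_pow_of_clog {N t : ℕ} (h : Nat.clog 2 N ≤ t) : N ≤ 2 ^ t :=
  (Nat.le_pow_clog (by omega) N).trans (Nat.pow_le_pow_right (by omega) h)

/-- the context of the driver: the only input is the raw data -/
abbrev top (F : MF) : Ctx :=
  ⟨MIn F, MIn.m, MIn.n, MIn.T, 1, fun x _ a b c d => input x.D (enc (NN x.m x.n) a b c d),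
    fun x => le_pow_of_clog x.hT⟩

variable {F : MF}

theorem top_read {u : Pt → ℕ} (hu : Def u) : Comp (top F) (fun x a b c d =>
    input x.D (u ⟨x.m, x.n, a, b, c, d⟩ % (NN x.m x.n * NN x.m x.n))) := by
  refine ((Comp.var (Γ := top F) (i := 0) (by dsimp only; omega)).gather (.num 0) (.num 0)
    (hu.div .N) hu).congr ?_
  intro x a b c d _ _ _ _
  dsimp only
  congr 1
  rw [Nat.mod_mul, enc, Nat.zero_mod]
  ring

theorem flat_lt (m n : ℕ) : m * n + m + n < NN m n * NN m n := by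
  unfold NN
  nlinarith [Nat.zero_le (m * n), Nat.zero_le (m * m), Nat.zero_le (n * n)]

theorem top_env (t : MIn F → ℕ) (i : ℕ) (h0 : 0 < i) (hi : i < 4) :
    Comp (top F) (fun x _ b c _ => lift (env x.D (t x) i) b c) := by
  obtain rfl | rfl | rfl : i = 1 ∨ i = 2 ∨ i = 3 := by omega
  · refine (Comp.ite .b .m (Comp.ite .c .n (top_read ((Def.b.mul .n).add .c)) .zero) .zero).congr ?_
    intro x a b c d _ hb hc _
    dsimp only
    rw [lift_of_lt _ hb hc]
    simp only [env, Matrix.of_apply]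
    by_cases h1 : b < x.m
    · by_cases h2 : c < x.n
      · have h3 : b * x.n + c < x.m * x.n := by
          have : (b + 1) * x.n ≤ x.m * x.n := Nat.mul_le_mul_right _ h1
          have e : (b + 1) * x.n = b * x.n + x.n := by ring
          omega
        have h4 := flat_lt x.m x.n
        rw [if_pos h1, if_pos h2, dif_pos ⟨h1, h2⟩, Nat.mod_eq_of_lt (by omega), input, dif_pos h3]
        have : finProdFinEquiv.symm (⟨b * x.n + c, h3⟩ : Fin (x.m * x.n)) = (⟨b, h1⟩, ⟨c, h2⟩) := by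
          rw [Equiv.symm_apply_eq]
          ext
          simp only [finProdFinEquiv_apply_val]
          ring
        rw [this]
        rfl
      · rw [if_pos h1, if_neg h2, dif_neg fun h => h2 h.2]
    · rw [if_neg h1, dif_neg fun h => h1 h.1]
  · refine (Comp.ite .b .m (top_read ((Def.m.mul .n).add .b)) .zero).congr ?_
    intro x a b c d _ hb hc _
    dsimp only
    rw [lift_of_lt _ hb hc]
    simp only [env, Matrix.of_apply]
    by_cases h1 : b < x.m
    · have h4 := flat_lt x.m x.n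
      rw [if_pos h1, dif_pos h1, Nat.mod_eq_of_lt (by omega), input, dif_neg (by omega),
        dif_pos (by omega)]
      congr 2
      omega
    · rw [if_neg h1, dif_neg h1]
  · refine (Comp.ite .b .n (top_read (((Def.m.mul .n).add .m).add .b)) .zero).congr ?_
    intro x a b c d _ hb hc _
    dsimp only
    rw [lift_of_lt _ hb hc]
    simp only [env, Matrix.of_apply]
    by_cases h1 : b < x.n
    · have h4 := flat_lt x.m x.n
      rw [if_pos h1, dif_pos h1, Nat.mod_eq_of_lt (by omega), input, dif_neg (by omega),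
        dif_neg (by omega), dif_pos (by omega)]
      congr 2
      omega
    · rw [if_neg h1, dif_neg h1]

theorem top_clog : Comp (top F) (fun x _ _ _ _ => (Nat.clog 2 (NN x.m x.n) : ℝ)) := by
  have h := Comp.while (Γ := top F) 3
    (fun x i j _ _ _ _ => if j = 0 then (NN x.m x.n : ℝ) - 2 ^ i else if j = 1 then 2 ^ i else i)
    (fun x => Nat.clog 2 (NN x.m x.n)) (C₀ := 1) (e₀ := 1) (fun x => by simpa using x.hT)
    (j₀ := 0) (by omega)
    (fun x i hi => by
      simp only [if_true, sub_pos]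
      exact_mod_cast Nat.pow_lt_of_lt_clog hi)
    (fun x => by
      simp only [if_true, sub_nonpos]
      exact_mod_cast Nat.le_pow_clog (by omega) _)
    (fun j hj => by
      obtain rfl | rfl | rfl : j = 0 ∨ j = 1 ∨ j = 2 := by omega
      · exact ((Comp.cast .N).sub .one).congr fun _ _ _ _ _ _ _ _ _ => by simp
      · exact Comp.one.congr fun _ _ _ _ _ _ _ _ _ => by simp
      · exact Comp.zero.congr fun _ _ _ _ _ _ _ _ _ => by simp)
    (fun j hj => by
      obtain rfl | rfl | rfl : j = 0 ∨ j = 1 ∨ j = 2 := by omega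
      · refine ((Comp.st (j := 0) (by omega)).sub (Comp.st (j := 1) (by omega))).congr ?_
        intro _ _ _ _ _ _ _ _ _
        simp only [if_true, one_ne_zero, if_false]
        ring
      · refine ((Comp.st (j := 1) (by omega)).add (Comp.st (j := 1) (by omega))).congr ?_
        intro _ _ _ _ _ _ _ _ _
        simp only [if_true, one_ne_zero, if_false]
        ring
      · refine ((Comp.st (j := 2) (by omega)).add .one).congr ?_
        intro _ _ _ _ _ _ _ _ _
        simp)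
    (j := 2) (by omega)
  exact h.congr fun _ _ _ _ _ _ _ _ _ => by simp

theorem MIn.ex (x : MIn F) :
    ∃ i, 0 < F x.m x.n (env x.D (Nat.clog 2 (NN x.m x.n) + i)) 0 0 :=
  ⟨x.T - Nat.clog 2 (NN x.m x.n), by
    rw [Nat.add_sub_cancel' x.hT]
    exact x.hF⟩

/-- number of unsuccessful rounds -/
noncomputable def MIn.r (x : MIn F) : ℕ := Nat.find x.ex

theorem MIn.r_le (x : MIn F) : Nat.clog 2 (NN x.m x.n) + x.r ≤ x.T := by
  have h : x.r ≤ x.T - Nat.clog 2 (NN x.m x.n) := Nat.find_min' x.ex (by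
    rw [Nat.add_sub_cancel' x.hT]
    exact x.hF)
  have := x.hT
  omega

/-- state of the driver after `i` rounds -/
noncomputable def drv (x : MIn F) (i j : ℕ) : Tn := fun _ b c _ =>
  if j = 0 then
    (if i = 0 then 1 else
      if F x.m x.n (env x.D (Nat.clog 2 (NN x.m x.n) + (i - 1))) 0 0 ≤ 0 then 1 else 0)
  else if j = 1 then ((Nat.clog 2 (NN x.m x.n) + i : ℕ) : ℝ)
  else if i = 0 then 0 else lift (F x.m x.n (env x.D (Nat.clog 2 (NN x.m x.n) + (i - 1)))) b c

theorem top_main (hF : PM 4 F) : Comp (top F) (fun x _ b c _ =>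
    lift (F x.m x.n (env x.D (Nat.clog 2 (NN x.m x.n) + x.r))) b c) := by
  have hR : Comp ((top F).loop 3 drv fun x => x.r + 1) (fun p _ b c _ =>
      lift (F p.1.1.m p.1.1.n (env p.1.1.D (Nat.clog 2 (NN p.1.1.m p.1.1.n) + p.1.2))) b c) := by
    refine Comp.call (Γ := (top F).loop 3 drv fun x => x.r + 1) (pm_iff.1 hF)
      (fun p => ⟨p.1.1.m, p.1.1.n, Nat.clog 2 (NN p.1.1.m p.1.1.n) + p.1.2,
        env p.1.1.D (Nat.clog 2 (NN p.1.1.m p.1.1.n) + p.1.2), le_pow_of_clog (by omega), rfl⟩)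
      (fun _ => rfl) (fun _ => rfl) (fun p => ?_) fun i hi => ?_
    · have h1 := p.1.1.r_le
      have h2 := p.2
      dsimp only at h2 ⊢
      omega
    · rcases Nat.eq_zero_or_pos i with rfl | h0
      · refine (Comp.st (j := 1) (by omega)).congr ?_
        intro x a b c d _ hb hc _
        refine Eq.trans ?_ (lift_cst _ hb hc).symm
        simp [drv]
      · refine (Comp.up (top_env (fun _ => 0) i h0 hi)).congr ?_
        intro x a b c d _ _ _ _
        have hi' : i < 4 := hi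
        obtain rfl | rfl | rfl : i = 1 ∨ i = 2 ∨ i = 3 := by omega
        all_goals rfl
  have h := Comp.while (Γ := top F) 3 drv (fun x => x.r + 1) (C₀ := 2) (e₀ := 1)
    (fun x => by
      have h1 := x.r_le
      have h2 := (top F).one_le x
      dsimp only at h2 ⊢
      rw [pow_one]
      omega)
    (j₀ := 0) (by omega)
    (fun x i hi => by
      simp only [drv, if_true]
      by_cases h0 : i = 0
      · simp [h0]
      · rw [if_neg h0, if_pos (not_lt.1 (Nat.find_min x.ex (show i - 1 < x.r by omega)))]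
        exact one_pos)
    (fun x => by
      simp only [drv, if_true]
      rw [if_neg (by omega)]
      exact (if_neg (not_le.2 (Nat.find_spec x.ex))).le)
    (fun j hj => by
      obtain rfl | rfl | rfl : j = 0 ∨ j = 1 ∨ j = 2 := by omega
      · exact Comp.one.congr fun _ _ _ _ _ _ _ _ _ => by simp [drv]
      · exact top_clog.congr fun _ _ _ _ _ _ _ _ _ => by simp [drv]
      · exact Comp.zero.congr fun _ _ _ _ _ _ _ _ _ => by simp [drv])
    (fun j hj => by
      obtain rfl | rfl | rfl : j = 0 ∨ j = 1 ∨ j = 2 := by omega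
      · refine ((hR.gather .a (.num 0) (.num 0) .d).le .zero).congr ?_
        intro x _ _ _ _ _ _ _ _
        have hN := NN_pos x.1.1.m x.1.1.n
        simp only [drv, Nat.zero_mod, lift_of_lt _ hN hN, if_true, Nat.add_one_ne_zero, if_false,
          Nat.add_sub_cancel]
        rfl
      · refine ((Comp.st (j := 1) (by omega)).add .one).congr ?_
        intro _ _ _ _ _ _ _ _ _
        simp [drv, add_assoc]
      · exact hR.congr fun _ _ _ _ _ _ _ _ _ => by simp [drv])
    (j := 2) (by omega)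
  exact h.congr fun _ _ _ _ _ _ _ _ _ => by simp [drv]

end Mach

/-- rounds `t = clog 2 N, clog 2 N + 1, …` until entry `(0,0)` of the result is positive; the
status is entry `(1,0)`, the point is in entries `(j+2,0)` -/
theorem machine_main {F : MF} (hF : PM 4 F) : ∃ (c : Cmd) (C e : ℕ), ∀ (m n : ℕ)
    (D : Idx m n → ℝ) (T : ℕ), Nat.clog 2 (NN m n) ≤ T → 0 < F m n (env D T) 0 0 →
    ∃ t, t ≤ T ∧ Nat.clog 2 (NN m n) ≤ t ∧ 0 < F m n (env D t) 0 0 ∧ ∃ σ steps,
      Exec m n (NN m n ^ 4) c (input D) σ steps ∧ steps ≤ C * T ^ e ∧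
      σ 0 = F m n (env D t) 1 0 ∧
      ∀ j : Fin n, σ (j.val + 1) = F m n (env D t) ⟨j.val + 2, by have := j.2; unfold NN; omega⟩ 0 := by
  obtain ⟨C, e, h⟩ := top_main hF
  obtain ⟨c, h⟩ := h (fun _ => 0) 1 fun _ _ => one_pos
  let τ : Tm := reg 1 (.mul (.mul (.mod (.add .pid (.num 1)) tN) tN) tN)
  refine ⟨.seq (.seq (.arith .fst (reg 0 .pid) .pid .pid) c) (.arith .fst .pid τ τ),
    1 + C + 1, 0 + e + 0, fun m n D T hT hpos => ?_⟩
  let x : MIn F := ⟨m, n, D, T, hT, hpos⟩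
  obtain ⟨σ₁, x₁, o₁, -⟩ := step_arith m n .fst 0 .pid .pid (input D)
  obtain ⟨σ₂, T₂, x₂, t₂, o₂, -⟩ := h x σ₁ fun _ _ a b c d ha hb hc hd =>
    o₁ _ (enc_lt ha hb hc hd)
  have hN := NN_pos m n
  have out : ∀ q, (hq : q + 1 < NN m n) → write (NN m n ^ 4) (fun q => Tm.pid.eval m n q)
      (fun q => Op.fst.eval (σ₂ (τ.eval m n q)) (σ₂ (τ.eval m n q))) σ₂ q =
      F m n (env D (Nat.clog 2 (NN m n) + x.r)) ⟨q + 1, hq⟩ 0 := by
    intro q hq
    have h4 : NN m n ≤ NN m n ^ 4 := Nat.le_self_pow (by omega) _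
    have h1 := write_hit (p := NN m n ^ 4) (base := 0) (d := fun q => Tm.pid.eval m n q)
      (fun q => Op.fst.eval (σ₂ (τ.eval m n q)) (σ₂ (τ.eval m n q))) σ₂
      (fun q => (zero_add q).symm) (q := q) (by omega)
    rw [zero_add] at h1
    have h2 := o₂ 0 (q + 1) 0 0 hN hq hN hN
    have h3 : τ.eval m n q = (1 + 1) * NN m n ^ 4 + enc (NN m n) 0 (q + 1) 0 0 := by
      simp only [τ, reg_eval, Tm.eval, tN_eval, Nat.mod_eq_of_lt hq, enc]
      ring
    rw [h1, h3]
    exact h2.trans (lift_of_lt _ hq hN)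
  refine ⟨_, x.r_le, Nat.le_add_right _ _, Nat.find_spec x.ex, _, _,
    .seq (.seq x₁ x₂) (.arith _ _ _ _ _), time_add ((top F).one_le x)
      (time_add ((top F).one_le x) (time_const _ _) t₂) (time_const _ _), ?_, fun j => ?_⟩
  · exact out 0 (by unfold NN; omega)
  · exact out (j.val + 1) (by have := j.2; unfold NN; omega)

end Pool.Agent.P.MP_ef347d_lc
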