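import Pool.Agent.P.MP_ef347d_lc.Basic

/-! Machine layer, part 1: determinism, registers holding tensors, and the primitive closure
properties of the class of tensors computed in polynomial time. -/

namespace Pool.Agent.P.MP_ef347d_lc

open Matrix

theorem exec_det {m n p : ℕ} {c : Cmd} {σ σ₁ σ₂ : ℕ → ℝ} {T₁ T₂ : ℕ}
    (h₁ : Exec m n p c σ σ₁ T₁) (h₂ : Exec m n p c σ σ₂ T₂) : σ₁ = σ₂ ∧ T₁ = T₂ := by
  induction h₁ generalizing σ₂ T₂ with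
  | arith o d a b σ => cases h₂; exact ⟨rfl, rfl⟩
  | cast d e σ => cases h₂; exact ⟨rfl, rfl⟩
  | seq _ _ ih₁ ih₂ =>
    cases h₂ with
    | seq k₁ k₂ =>
      obtain ⟨rfl, rfl⟩ := ih₁ k₁
      obtain ⟨rfl, rfl⟩ := ih₂ k₂
      exact ⟨rfl, rfl⟩
  | stop h =>
    cases h₂ with
    | stop _ => exact ⟨rfl, rfl⟩
    | again h' _ _ => exact absurd h (not_le.2 h')
  | again h _ _ ih₁ ih₂ =>
    cases h₂ with
    | stop h' => exact absurd h' (not_le.2 h)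
    | again _ k₁ k₂ =>
      obtain ⟨rfl, rfl⟩ := ih₁ k₁
      obtain ⟨rfl, rfl⟩ := ih₂ k₂
      exact ⟨rfl, rfl⟩

namespace Mach

theorem write_hit {p base : ℕ} {d : ℕ → ℕ} (v σ : ℕ → ℝ) (hd : ∀ q, d q = base + q) {q : ℕ}
    (hq : q < p) : write p d v σ (base + q) = v q := by
  have h : ∃ q', q' < p ∧ d q' = base + q := ⟨q, hq, hd q⟩
  unfold write
  rw [dif_pos h]
  have h2 := (Nat.find_spec h).2
  rw [hd] at h2
  congr 1
  omega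

theorem write_miss {p : ℕ} {d : ℕ → ℕ} (v σ : ℕ → ℝ) {a : ℕ} (h : ∀ q, q < p → d q ≠ a) :
    write p d v σ a = σ a := by
  unfold write
  rw [dif_neg]
  rintro ⟨q, hq, e⟩
  exact h q hq e

theorem write_zero {p : ℕ} (hp : 0 < p) {d : ℕ → ℕ} (v σ : ℕ → ℝ) (hd : ∀ q, d q = 0) :
    write p d v σ 0 = v 0 := by
  have h : ∃ q', q' < p ∧ d q' = 0 := ⟨0, hp, hd 0⟩
  unfold write
  rw [dif_pos h]
  congr 1
  exact (Nat.find_eq_zero h).2 ⟨hp, hd 0⟩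

/-- the loop rule -/
theorem loop_inv {m n p : ℕ} {c : Cmd} (I : ℕ → (ℕ → ℝ) → Prop) (K B : ℕ)
    (hb : ∀ i, i < K → ∀ σ, I i σ → 0 < σ 0 ∧ ∃ σ' T, Exec m n p c σ σ' T ∧ T ≤ B ∧ I (i + 1) σ')
    (he : ∀ σ, I K σ → σ 0 ≤ 0) :
    ∀ r i, i + r = K → ∀ σ, I i σ →
      ∃ σ' T, Exec m n p (.loop c) σ σ' T ∧ T ≤ r * (B + 1) + 1 ∧ I K σ' := by
  intro r
  induction r with
  | zero =>
    intro i hi σ hσ
    obtain rfl : i = K := by omega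
    exact ⟨σ, 1, .stop (he σ hσ), by omega, hσ⟩
  | succ r ih =>
    intro i hi σ hσ
    obtain ⟨h0, σ₁, T₁, e₁, hT₁, h₁⟩ := hb i (by omega) σ hσ
    obtain ⟨σ₂, T₂, e₂, hT₂, h₂⟩ := ih (i + 1) (by omega) σ₁ h₁
    refine ⟨σ₂, _, .again h0 e₁ e₂, ?_, h₂⟩
    have : (r + 1) * (B + 1) = r * (B + 1) + B + 1 := by ring
    omega

/-- the side length as a term -/
def tN : Tm := .add (.add .rows .cols) (.num 3)

/-- cell `u` of register `r` -/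
def reg (r : ℕ) (u : Tm) : Tm := .add (.mul (.num (r + 1)) (.mul (.mul tN tN) (.mul tN tN))) u

theorem tN_eval (m n q : ℕ) : tN.eval m n q = NN m n := rfl

theorem reg_eval (m n q r : ℕ) (u : Tm) :
    (reg r u).eval m n q = (r + 1) * NN m n ^ 4 + u.eval m n q := by
  simp only [reg, Tm.eval, tN_eval]
  ring

theorem NN_pos (m n : ℕ) : 0 < NN m n := by unfold NN; omega

theorem enc_lt {N a b c d : ℕ} (ha : a < N) (hb : b < N) (hc : c < N) (hd : d < N) :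
    enc N a b c d < N ^ 4 := by
  have key : ∀ x M y : ℕ, x < M → y < N → x * N + y < M * N := by
    intro x M y hx hy
    have : (x + 1) * N ≤ M * N := Nat.mul_le_mul_right _ hx
    have e : (x + 1) * N = x * N + N := by ring
    omega
  have h := key _ _ _ (key _ _ _ (key _ _ _ ha hb) hc) hd
  have e : N * N * N * N = N ^ 4 := by ring
  unfold enc
  omega

/-- tensors with four axes -/
abbrev Tn : Type := ℕ → ℕ → ℕ → ℕ → ℝ

/-- register `r` holds the tensor `X` -/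
def Holds (N : ℕ) (σ : ℕ → ℝ) (r : ℕ) (X : Tn) : Prop :=
  ∀ a b c d, a < N → b < N → c < N → d < N → σ ((r + 1) * N ^ 4 + enc N a b c d) = X a b c d

/-- the registers below `s` are unchanged -/
def Frame (N s : ℕ) (σ σ' : ℕ → ℝ) : Prop :=
  ∀ a, N ^ 4 ≤ a → a < (s + 1) * N ^ 4 → σ' a = σ a

theorem Holds.same {N : ℕ} {σ σ' : ℕ → ℝ} {r : ℕ} {X : Tn} (h : Holds N σ r X)
    (hf : ∀ a, (r + 1) * N ^ 4 ≤ a → a < (r + 2) * N ^ 4 → σ' a = σ a) : Holds N σ' r X := by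
  intro a b c d ha hb hc hd
  have h1 := enc_lt ha hb hc hd
  have e : (r + 2) * N ^ 4 = (r + 1) * N ^ 4 + N ^ 4 := by ring
  rw [hf _ (by omega) (by omega)]
  exact h a b c d ha hb hc hd

theorem Holds.frame {N : ℕ} {σ σ' : ℕ → ℝ} {r s : ℕ} {X : Tn} (h : Holds N σ r X) (hr : r < s)
    (hf : Frame N s σ σ') : Holds N σ' r X := by
  refine h.same fun a h1 h2 => hf a ?_ ?_
  · have e : (r + 1) * N ^ 4 = r * N ^ 4 + N ^ 4 := by ring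
    omega
  · have : (r + 2) * N ^ 4 ≤ (s + 1) * N ^ 4 := Nat.mul_le_mul_right _ (by omega)
    omega

theorem Frame.trans {N s s' : ℕ} {σ σ₁ σ₂ : ℕ → ℝ} (h₁ : Frame N s σ σ₁) (h₂ : Frame N s' σ₁ σ₂)
    (hs : s ≤ s') : Frame N s σ σ₂ := by
  intro a h1 h2
  have : (s + 1) * N ^ 4 ≤ (s' + 1) * N ^ 4 := Nat.mul_le_mul_right _ (by omega)
  rw [h₂ a h1 (by omega), h₁ a h1 h2]

/-- one arithmetic step into register `s` -/
theorem step_arith (m n : ℕ) (o : Op) (s : ℕ) (ta tb : Tm) (σ : ℕ → ℝ) :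
    ∃ σ', Exec m n (NN m n ^ 4) (.arith o (reg s .pid) ta tb) σ σ' 1 ∧
      (∀ q, q < NN m n ^ 4 → σ' ((s + 1) * NN m n ^ 4 + q) =
        o.eval (σ (ta.eval m n q)) (σ (tb.eval m n q))) ∧
      ∀ a, a < (s + 1) * NN m n ^ 4 ∨ (s + 2) * NN m n ^ 4 ≤ a → σ' a = σ a := by
  refine ⟨_, .arith _ _ _ _ _, fun q hq => write_hit _ _ (fun q => reg_eval _ _ _ _ _) hq,
    fun a ha => write_miss _ _ fun q hq => ?_⟩
  rw [reg_eval]
  have e : (s + 2) * NN m n ^ 4 = (s + 1) * NN m n ^ 4 + NN m n ^ 4 := by ring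
  simp only [Tm.eval]
  omega

/-- copying register `r` to register `s` -/
theorem step_copy (m n r s : ℕ) (σ : ℕ → ℝ) {X : Tn} (h : Holds (NN m n) σ r X) :
    ∃ σ', Exec m n (NN m n ^ 4) (.arith .fst (reg s .pid) (reg r .pid) (reg r .pid)) σ σ' 1 ∧
      Holds (NN m n) σ' s X ∧
      ∀ a, a < (s + 1) * NN m n ^ 4 ∨ (s + 2) * NN m n ^ 4 ≤ a → σ' a = σ a := by
  obtain ⟨σ', e, h1, h2⟩ := step_arith m n .fst s (reg r .pid) (reg r .pid) σ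
  refine ⟨σ', e, fun a b c d ha hb hc hd => ?_, h2⟩
  rw [h1 _ (enc_lt ha hb hc hd), reg_eval]
  exact h a b c d ha hb hc hd

/-- writing the first cell of register `r` to the test cell -/
theorem step_test (m n r : ℕ) (σ : ℕ → ℝ) {X : Tn} (h : Holds (NN m n) σ r X) :
    ∃ σ', Exec m n (NN m n ^ 4) (.arith .fst (.num 0) (reg r (.num 0)) (reg r (.num 0))) σ σ' 1 ∧
      σ' 0 = X 0 0 0 0 ∧ ∀ a, NN m n ^ 4 ≤ a → σ' a = σ a := by
  have hN := NN_pos m n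
  have hp : 0 < NN m n ^ 4 := by positivity
  refine ⟨_, .arith _ _ _ _ _, ?_, fun a ha => write_miss _ _ fun q _ => ?_⟩
  · rw [write_zero (d := fun q => Tm.eval m n q (.num 0)) hp _ _ (fun _ => rfl), reg_eval]
    have := h 0 0 0 0 hN hN hN hN
    simpa [enc, Op.eval, Tm.eval] using this
  · simp only [Tm.eval]
    omega

theorem step_skip (m n : ℕ) (σ : ℕ → ℝ) :
    ∃ σ', Exec m n (NN m n ^ 4) (.cast (.num 0) (.num 0)) σ σ' 1 ∧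
      ∀ a, NN m n ^ 4 ≤ a → σ' a = σ a := by
  have hN := NN_pos m n
  have hp : 0 < NN m n ^ 4 := by positivity
  refine ⟨_, .cast _ _ _, fun a ha => write_miss _ _ fun q _ => ?_⟩
  simp only [Tm.eval]
  omega

/-- copying a block of `l` registers downwards -/
theorem copy_block (dst src : ℕ) (l : ℕ) (hl : dst + l ≤ src) : ∃ c : Cmd, ∀ (m n : ℕ) (σ : ℕ → ℝ)
    (X : ℕ → Tn), (∀ j, j < l → Holds (NN m n) σ (src + j) (X j)) →
    ∃ σ', Exec m n (NN m n ^ 4) c σ σ' (l + 1) ∧ (∀ j, j < l → Holds (NN m n) σ' (dst + j) (X j)) ∧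
      ∀ a, NN m n ^ 4 ≤ a → a < (dst + 1) * NN m n ^ 4 ∨ (dst + l + 1) * NN m n ^ 4 ≤ a →
        σ' a = σ a := by
  induction l with
  | zero =>
    refine ⟨.cast (.num 0) (.num 0), fun m n σ X _ => ?_⟩
    obtain ⟨σ', e, h⟩ := step_skip m n σ
    exact ⟨σ', e, fun j hj => absurd hj (by omega), fun a ha _ => h a ha⟩
  | succ l ih =>
    obtain ⟨c, hc⟩ := ih (by omega)
    refine ⟨.seq c (.arith .fst (reg (dst + l) .pid) (reg (src + l) .pid) (reg (src + l) .pid)),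
      fun m n σ X hX => ?_⟩
    obtain ⟨σ₁, e₁, h₁, f₁⟩ := hc m n σ X fun j hj => hX j (by omega)
    have hs : Holds (NN m n) σ₁ (src + l) (X l) := by
      refine (hX l (by omega)).same fun a h1 _ => ?_
      have h3 : (dst + l + 1) * NN m n ^ 4 ≤ (src + l + 1) * NN m n ^ 4 :=
        Nat.mul_le_mul_right _ (by omega)
      have h4 : 1 * NN m n ^ 4 ≤ (src + l + 1) * NN m n ^ 4 := Nat.mul_le_mul_right _ (by omega)
      exact f₁ a (by omega) (Or.inr (by omega))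
    obtain ⟨σ₂, e₂, h₂, f₂⟩ := step_copy m n (src + l) (dst + l) σ₁ hs
    refine ⟨σ₂, .seq e₁ e₂, fun j hj => ?_, fun a h1 h2 => ?_⟩
    · rcases Nat.lt_succ_iff_lt_or_eq.1 hj with hj | rfl
      · exact (h₁ j hj).frame (s := dst + l) (by omega) fun a _ h2 => f₂ a (Or.inl h2)
      · exact h₂
    · have h3 : (dst + 1) * NN m n ^ 4 ≤ (dst + l + 1) * NN m n ^ 4 :=
        Nat.mul_le_mul_right _ (by omega)
      have h4 : (dst + l + 1) * NN m n ^ 4 ≤ (dst + l + 2) * NN m n ^ 4 :=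
        Nat.mul_le_mul_right _ (by omega)
      have h5 : (dst + (l + 1) + 1) * NN m n ^ 4 = (dst + l + 2) * NN m n ^ 4 := by ring
      rw [f₂ a (by omega), f₁ a h1 (by omega)]

/-- a family of inputs: sizes, time parameter, and the tensors held by the `k` input registers -/
structure Ctx : Type 1 where
  α : Type
  m : α → ℕ
  n : α → ℕ
  t : α → ℕ
  k : ℕ
  inp : α → ℕ → Tn
  hN : ∀ x, NN (m x) (n x) ≤ 2 ^ t x

/-- side length -/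
abbrev Ctx.N (Γ : Ctx) (x : Γ.α) : ℕ := NN (Γ.m x) (Γ.n x)

theorem Ctx.one_le (Γ : Ctx) (x : Γ.α) : 1 ≤ Γ.t x := by
  have h := Γ.hN x
  rcases Nat.eq_zero_or_pos (Γ.t x) with h0 | h0
  · rw [h0] at h
    unfold NN at h
    omega
  · exact h0

/-- the tensors `out x 0, …, out x (l - 1)` are computed in time polynomial in `t` -/
def CompL (Γ : Ctx) (l : ℕ) (out : Γ.α → ℕ → Tn) : Prop :=
  ∃ C e : ℕ, ∀ (loc : ℕ → ℕ) (s : ℕ), (∀ i, i < Γ.k → loc i < s) → ∃ c : Cmd,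
    ∀ (x : Γ.α) (σ : ℕ → ℝ), (∀ i, i < Γ.k → Holds (Γ.N x) σ (loc i) (Γ.inp x i)) →
      ∃ σ' T, Exec (Γ.m x) (Γ.n x) (Γ.N x ^ 4) c σ σ' T ∧ T ≤ C * Γ.t x ^ e ∧
        (∀ j, j < l → Holds (Γ.N x) σ' (s + j) (out x j)) ∧ Frame (Γ.N x) s σ σ'

/-- the tensor `out x` is computed in time polynomial in `t` -/
def Comp (Γ : Ctx) (out : Γ.α → Tn) : Prop :=
  ∃ C e : ℕ, ∀ (loc : ℕ → ℕ) (s : ℕ), (∀ i, i < Γ.k → loc i < s) → ∃ c : Cmd,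
    ∀ (x : Γ.α) (σ : ℕ → ℝ), (∀ i, i < Γ.k → Holds (Γ.N x) σ (loc i) (Γ.inp x i)) →
      ∃ σ' T, Exec (Γ.m x) (Γ.n x) (Γ.N x ^ 4) c σ σ' T ∧ T ≤ C * Γ.t x ^ e ∧
        Holds (Γ.N x) σ' s (out x) ∧ Frame (Γ.N x) s σ σ'

theorem time_add {t T₁ T₂ C₁ C₂ e₁ e₂ : ℕ} (ht : 1 ≤ t) (h₁ : T₁ ≤ C₁ * t ^ e₁)
    (h₂ : T₂ ≤ C₂ * t ^ e₂) : T₁ + T₂ ≤ (C₁ + C₂) * t ^ (e₁ + e₂) := by
  have a₁ : C₁ * t ^ e₁ ≤ C₁ * t ^ (e₁ + e₂) :=
    Nat.mul_le_mul_left _ (Nat.pow_le_pow_right ht (by omega))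
  have a₂ : C₂ * t ^ e₂ ≤ C₂ * t ^ (e₁ + e₂) :=
    Nat.mul_le_mul_left _ (Nat.pow_le_pow_right ht (by omega))
  rw [add_mul]
  omega

theorem time_mul {t T₁ T₂ C₁ C₂ e₁ e₂ : ℕ} (h₁ : T₁ ≤ C₁ * t ^ e₁)
    (h₂ : T₂ ≤ C₂ * t ^ e₂) : T₁ * T₂ ≤ (C₁ * C₂) * t ^ (e₁ + e₂) := by
  calc T₁ * T₂ ≤ (C₁ * t ^ e₁) * (C₂ * t ^ e₂) := Nat.mul_le_mul h₁ h₂
    _ = _ := by ring

theorem time_const (t C : ℕ) : C ≤ C * t ^ 0 := by simp

variable {Γ : Ctx}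

theorem Comp.congr {F G : Γ.α → Tn} (hF : Comp Γ F)
    (h : ∀ x a b c d, a < Γ.N x → b < Γ.N x → c < Γ.N x → d < Γ.N x → F x a b c d = G x a b c d) :
    Comp Γ G := by
  obtain ⟨C, e, hF⟩ := hF
  refine ⟨C, e, fun loc s hl => ?_⟩
  obtain ⟨c, hc⟩ := hF loc s hl
  refine ⟨c, fun x σ hσ => ?_⟩
  obtain ⟨σ', T, h1, h2, h3, h4⟩ := hc x σ hσ
  exact ⟨σ', T, h1, h2, fun a b c d ha hb hc hd =>
    (h3 a b c d ha hb hc hd).trans (h x a b c d ha hb hc hd), h4⟩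

theorem Comp.multi (l : ℕ) {out : Γ.α → ℕ → Tn} (h : ∀ j, j < l → Comp Γ (fun x => out x j)) :
    CompL Γ l out := by
  induction l with
  | zero =>
    refine ⟨1, 0, fun loc s _ => ⟨.cast (.num 0) (.num 0), fun x σ _ => ?_⟩⟩
    obtain ⟨σ', e, h⟩ := step_skip (Γ.m x) (Γ.n x) σ
    exact ⟨σ', 1, e, time_const _ _, fun j hj => absurd hj (by omega), fun a ha _ => h a ha⟩
  | succ l ih =>
    obtain ⟨C₁, e₁, h₁⟩ := ih fun j hj => h j (by omega)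
    obtain ⟨C₂, e₂, h₂⟩ := h l (by omega)
    refine ⟨C₁ + C₂, e₁ + e₂, fun loc s hl => ?_⟩
    obtain ⟨c₁, h₁⟩ := h₁ loc s hl
    obtain ⟨c₂, h₂⟩ := h₂ loc (s + l) fun i hi => by have := hl i hi; omega
    refine ⟨.seq c₁ c₂, fun x σ hσ => ?_⟩
    obtain ⟨σ₁, T₁, x₁, t₁, o₁, f₁⟩ := h₁ x σ hσ
    obtain ⟨σ₂, T₂, x₂, t₂, o₂, f₂⟩ := h₂ x σ₁ fun i hi => (hσ i hi).frame (hl i hi) f₁
    refine ⟨σ₂, _, .seq x₁ x₂, time_add (Γ.one_le x) t₁ t₂, fun j hj => ?_,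
      f₁.trans f₂ (by omega)⟩
    rcases Nat.lt_succ_iff_lt_or_eq.1 hj with hj | rfl
    · exact (o₁ j hj).frame (by omega) f₂
    · exact o₂

theorem Comp.var {i : ℕ} (hi : i < Γ.k) : Comp Γ (fun x => Γ.inp x i) := by
  refine ⟨1, 0, fun loc s _ => ⟨.arith .fst (reg s .pid) (reg (loc i) .pid) (reg (loc i) .pid),
    fun x σ hσ => ?_⟩⟩
  obtain ⟨σ', e, h1, h2⟩ := step_copy (Γ.m x) (Γ.n x) (loc i) s σ (hσ i hi)
  exact ⟨σ', 1, e, time_const _ _, h1, fun a _ ha => h2 a (Or.inl ha)⟩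

theorem Comp.op (o : Op) {F G : Γ.α → Tn} (hF : Comp Γ F) (hG : Comp Γ G) :
    Comp Γ (fun x a b c d => o.eval (F x a b c d) (G x a b c d)) := by
  obtain ⟨C, e, h⟩ := Comp.multi (Γ := Γ) 2 (out := fun x j => if j = 0 then F x else G x)
    fun j _ => by
      by_cases h : j = 0
      · simpa [h] using hF
      · simpa [h] using hG
  refine ⟨C + 1, e + 0, fun loc s hl => ?_⟩
  obtain ⟨c, h⟩ := h loc s hl
  refine ⟨.seq c (.arith o (reg s .pid) (reg s .pid) (reg (s + 1) .pid)), fun x σ hσ => ?_⟩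
  obtain ⟨σ₁, T₁, x₁, t₁, o₁, f₁⟩ := h x σ hσ
  obtain ⟨σ₂, x₂, o₂, f₂⟩ := step_arith (Γ.m x) (Γ.n x) o s (reg s .pid) (reg (s + 1) .pid) σ₁
  refine ⟨σ₂, _, .seq x₁ x₂, time_add (Γ.one_le x) t₁ (time_const _ _),
    fun a b c d ha hb hc hd => ?_, f₁.trans (fun a _ ha => f₂ a (Or.inl ha)) le_rfl⟩
  rw [o₂ _ (enc_lt ha hb hc hd), reg_eval, reg_eval]
  have p₀ := o₁ 0 (by omega) a b c d ha hb hc hd
  have p₁ := o₁ 1 (by omega) a b c d ha hb hc hd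
  simp only [if_true, add_zero, one_ne_zero, if_false] at p₀ p₁
  simp only [Tm.eval]
  rw [p₀, p₁]

/-- substitution of computed tensors for the inputs -/
theorem Comp.call {Δ : Ctx} {F : Δ.α → Tn} (hF : Comp Δ F) (φ : Γ.α → Δ.α)
    (hm : ∀ x, Δ.m (φ x) = Γ.m x) (hn : ∀ x, Δ.n (φ x) = Γ.n x) (ht : ∀ x, Δ.t (φ x) ≤ Γ.t x)
    (hg : ∀ i, i < Δ.k → Comp Γ (fun x => Δ.inp (φ x) i)) : Comp Γ (fun x => F (φ x)) := by
  obtain ⟨C₁, e₁, h₁⟩ := Comp.multi Δ.k hg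
  obtain ⟨C₂, e₂, h₂⟩ := hF
  refine ⟨C₁ + C₂ + 1, e₁ + e₂ + 0, fun loc s hl => ?_⟩
  obtain ⟨c₁, h₁⟩ := h₁ loc s hl
  obtain ⟨c₂, h₂⟩ := h₂ (fun i => s + i) (s + Δ.k) fun i hi => by omega
  refine ⟨.seq (.seq c₁ c₂) (.arith .fst (reg s .pid) (reg (s + Δ.k) .pid) (reg (s + Δ.k) .pid)),
    fun x σ hσ => ?_⟩
  obtain ⟨σ₁, T₁, x₁, t₁, o₁, f₁⟩ := h₁ x σ hσ
  have h₃ := h₂ (φ x) σ₁
  simp only [Ctx.N, hm, hn] at h₃
  obtain ⟨σ₂, T₂, x₂, t₂, o₂, f₂⟩ := h₃ o₁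
  obtain ⟨σ₃, x₃, o₃, f₃⟩ := step_copy (Γ.m x) (Γ.n x) (s + Δ.k) s σ₂ o₂
  have t₂' : T₂ ≤ C₂ * Γ.t x ^ e₂ :=
    t₂.trans (Nat.mul_le_mul_left _ (Nat.pow_le_pow_left (ht x) _))
  exact ⟨σ₃, _, .seq (.seq x₁ x₂) x₃,
    time_add (Γ.one_le x) (time_add (Γ.one_le x) t₁ t₂') (time_const _ _), o₃,
    (f₁.trans f₂ (by omega)).trans (fun a _ ha => f₃ a (Or.inl ha)) le_rfl⟩

/-- the context inside a loop with `l` state registers following the trajectory `traj` -/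
abbrev Ctx.loop (Γ : Ctx) (l : ℕ) (traj : Γ.α → ℕ → ℕ → Tn) (K : Γ.α → ℕ) : Ctx where
  α := {p : Γ.α × ℕ // p.2 < K p.1}
  m p := Γ.m p.1.1
  n p := Γ.n p.1.1
  t p := Γ.t p.1.1
  k := Γ.k + l
  inp p i := if i < Γ.k then Γ.inp p.1.1 i else traj p.1.1 p.1.2 (i - Γ.k)
  hN p := Γ.hN p.1.1

theorem Comp.up {l : ℕ} {traj : Γ.α → ℕ → ℕ → Tn} {K : Γ.α → ℕ} {F : Γ.α → Tn} (hF : Comp Γ F) :
    Comp (Γ.loop l traj K) (fun p => F p.1.1) := by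
  refine Comp.call (Γ := Γ.loop l traj K) hF (fun p => p.1.1) (fun _ => rfl) (fun _ => rfl)
    (fun _ => le_rfl) fun i hi => ?_
  refine (Comp.var (Γ := Γ.loop l traj K) (i := i) (by dsimp only; omega)).congr ?_
  intro x a b c d _ _ _ _
  simp only [hi, if_true]

theorem Comp.st {l : ℕ} {traj : Γ.α → ℕ → ℕ → Tn} {K : Γ.α → ℕ} {j : ℕ} (hj : j < l) :
    Comp (Γ.loop l traj K) (fun p => traj p.1.1 p.1.2 j) := by
  refine (Comp.var (Γ := Γ.loop l traj K) (i := Γ.k + j) (by dsimp only; omega)).congr ?_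
  intro x a b c d _ _ _ _
  simp

/-- the loop `while state j₀ > 0` -/
theorem Comp.while (l : ℕ) (traj : Γ.α → ℕ → ℕ → Tn) (K : Γ.α → ℕ) {C₀ e₀ : ℕ}
    (hK : ∀ x, K x ≤ C₀ * Γ.t x ^ e₀) {j₀ : ℕ} (hj₀ : j₀ < l)
    (hpos : ∀ x i, i < K x → 0 < traj x i j₀ 0 0 0 0) (hneg : ∀ x, traj x (K x) j₀ 0 0 0 0 ≤ 0)
    (hi : ∀ j, j < l → Comp Γ (fun x => traj x 0 j))
    (hb : ∀ j, j < l → Comp (Γ.loop l traj K) (fun p => traj p.1.1 (p.1.2 + 1) j))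
    {j : ℕ} (hj : j < l) : Comp Γ (fun x => traj x (K x) j) := by
  obtain ⟨C₁, e₁, h₁⟩ := Comp.multi l hi
  obtain ⟨C₂, e₂, h₂⟩ := Comp.multi (Γ := Γ.loop l traj K) l hb
  refine ⟨C₁ + 1 + (C₀ * (C₂ + (l + 3)) + 1) + 1, e₁ + 0 + (e₀ + (e₂ + 0) + 0) + 0,
    fun loc s hl => ?_⟩
  obtain ⟨c₁, h₁⟩ := h₁ loc s hl
  obtain ⟨c₂, h₂⟩ := h₂ (fun i => if i < Γ.k then loc i else s + (i - Γ.k)) (s + l) fun i hi => by
    dsimp only at hi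
    by_cases h : i < Γ.k
    · have := hl i h
      simp only [h, if_true]
      omega
    · simp only [h, if_false]
      omega
  obtain ⟨c₃, h₃⟩ := copy_block s (s + l) l le_rfl
  refine ⟨.seq (.seq (.seq c₁ (.arith .fst (.num 0) (reg (s + j₀) (.num 0)) (reg (s + j₀) (.num 0))))
    (.loop (.seq (.seq c₂ c₃)
      (.arith .fst (.num 0) (reg (s + j₀) (.num 0)) (reg (s + j₀) (.num 0))))))
    (.arith .fst (reg s .pid) (reg (s + j) .pid) (reg (s + j) .pid)), fun x σ hσ => ?_⟩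
  have ht := Γ.one_le x
  have low : ∀ r : ℕ, Γ.N x ^ 4 ≤ (r + 1) * Γ.N x ^ 4 := fun r =>
    Nat.le_mul_of_pos_left _ (by omega)
  obtain ⟨σ₁, T₁, x₁, t₁, o₁, f₁⟩ := h₁ x σ hσ
  obtain ⟨σ₂, x₂, o₂, f₂⟩ := step_test (Γ.m x) (Γ.n x) (s + j₀) σ₁ (o₁ j₀ hj₀)
  obtain ⟨σ₃, T₃, x₃, t₃, o₃, f₃, -⟩ := loop_inv (m := Γ.m x) (n := Γ.n x) (p := Γ.N x ^ 4)
    (c := .seq (.seq c₂ c₃)
      (.arith .fst (.num 0) (reg (s + j₀) (.num 0)) (reg (s + j₀) (.num 0))))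
    (fun i τ => (∀ j, j < l → Holds (Γ.N x) τ (s + j) (traj x i j)) ∧ Frame (Γ.N x) s σ τ ∧
      τ 0 = traj x i j₀ 0 0 0 0) (K x) (C₂ * Γ.t x ^ e₂ + (l + 2))
    (by
      rintro i hi τ ⟨a₁, a₂, a₃⟩
      refine ⟨a₃ ▸ hpos x i hi, ?_⟩
      obtain ⟨τ₁, S₁, y₁, s₁, p₁, g₁⟩ := h₂ ⟨(x, i), hi⟩ τ fun r hr => by
        dsimp only at hr ⊢
        by_cases h : r < Γ.k
        · simp only [h, if_true]
          exact (hσ r h).frame (hl r h) a₂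
        · simp only [h, if_false]
          exact a₁ _ (by omega)
      obtain ⟨τ₂, y₂, p₂, g₂⟩ := h₃ (Γ.m x) (Γ.n x) τ₁ (traj x (i + 1)) p₁
      obtain ⟨τ₃, y₃, p₃, g₃⟩ := step_test (Γ.m x) (Γ.n x) (s + j₀) τ₂ (p₂ j₀ hj₀)
      refine ⟨τ₃, _, .seq (.seq y₁ y₂) y₃, ?_, fun j hj => ?_, ?_, p₃⟩
      · have : S₁ ≤ C₂ * Γ.t x ^ e₂ := s₁
        omega
      · exact (p₂ j hj).same fun a ha _ => g₃ a ((low _).trans ha)
      · exact ((a₂.trans g₁ (by omega)).trans (fun a h1 h2 => g₂ a h1 (Or.inl h2)) le_rfl).trans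
          (fun a h1 _ => g₃ a h1) le_rfl)
    (by
      rintro τ ⟨-, -, a₃⟩
      exact a₃ ▸ hneg x)
    (K x) 0 (by omega) σ₂
    ⟨fun j hj => (o₁ j hj).same fun a ha _ => f₂ a ((low _).trans ha),
      f₁.trans (fun a h1 _ => f₂ a h1) le_rfl, o₂⟩
  obtain ⟨σ₄, x₄, o₄, f₄⟩ := step_copy (Γ.m x) (Γ.n x) (s + j) s σ₃ (o₃ j hj)
  refine ⟨σ₄, _, .seq (.seq (.seq x₁ x₂) x₃) x₄, ?_, o₄,
    f₃.trans (fun a _ ha => f₄ a (Or.inl ha)) le_rfl⟩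
  refine time_add ht (time_add ht (time_add ht t₁ (time_const _ _)) (t₃.trans ?_)) (time_const _ _)
  exact time_add ht (time_mul (hK x) (time_add (T₂ := l + 3) ht le_rfl (time_const _ _)))
    (time_const _ _)

/-- sizes and tensor position -/
structure Pt : Type where
  m : ℕ
  n : ℕ
  a : ℕ
  b : ℕ
  c : ℕ
  d : ℕ

/-- integer functions of the position given by an address term -/
def Def (f : Pt → ℕ) : Prop := ∃ τ : Tm, ∀ m n a b c d, a < NN m n → b < NN m n → c < NN m n →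
  d < NN m n → τ.eval m n (enc (NN m n) a b c d) = f ⟨m, n, a, b, c, d⟩

theorem Def.num (k : ℕ) : Def (fun _ => k) := ⟨.num k, fun _ _ _ _ _ _ _ _ _ _ => rfl⟩
theorem Def.m : Def (fun p => p.m) := ⟨.rows, fun _ _ _ _ _ _ _ _ _ _ => rfl⟩
theorem Def.n : Def (fun p => p.n) := ⟨.cols, fun _ _ _ _ _ _ _ _ _ _ => rfl⟩
theorem Def.N : Def (fun p => NN p.m p.n) := ⟨tN, fun _ _ _ _ _ _ _ _ _ _ => rfl⟩

theorem div_step {N : ℕ} (x : ℕ) {y : ℕ} (hy : y < N) : (x * N + y) / N = x := by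
  rw [mul_comm, Nat.mul_add_div (by omega), Nat.div_eq_of_lt hy, add_zero]

theorem mod_step {N : ℕ} (x : ℕ) {y : ℕ} (hy : y < N) : (x * N + y) % N = y := by
  rw [mul_comm, Nat.mul_add_mod, Nat.mod_eq_of_lt hy]

theorem Def.a : Def (fun p => p.a) :=
  ⟨.div (.div (.div .pid tN) tN) tN, fun m n a b c d _ hb hc hd => by
    simp only [Tm.eval, tN_eval, enc, div_step _ hb, div_step _ hc, div_step _ hd]⟩
theorem Def.b : Def (fun p => p.b) :=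
  ⟨.mod (.div (.div .pid tN) tN) tN, fun m n a b c d _ hb hc hd => by
    simp only [Tm.eval, tN_eval, enc, mod_step _ hb, div_step _ hc, div_step _ hd]⟩
theorem Def.c : Def (fun p => p.c) :=
  ⟨.mod (.div .pid tN) tN, fun m n a b c d _ _ hc hd => by
    simp only [Tm.eval, tN_eval, enc, mod_step _ hc, div_step _ hd]⟩
theorem Def.d : Def (fun p => p.d) :=
  ⟨.mod .pid tN, fun m n a b c d _ _ _ hd => by
    simp only [Tm.eval, tN_eval, enc, mod_step _ hd]⟩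

theorem Def.add {f g : Pt → ℕ} (hf : Def f) (hg : Def g) : Def (fun p => f p + g p) := by
  obtain ⟨u, hu⟩ := hf
  obtain ⟨v, hv⟩ := hg
  exact ⟨.add u v, fun m n a b c d ha hb hc hd => by
    simp only [Tm.eval, hu m n a b c d ha hb hc hd, hv m n a b c d ha hb hc hd]⟩
theorem Def.sub {f g : Pt → ℕ} (hf : Def f) (hg : Def g) : Def (fun p => f p - g p) := by
  obtain ⟨u, hu⟩ := hf
  obtain ⟨v, hv⟩ := hg
  exact ⟨.sub u v, fun m n a b c d ha hb hc hd => by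
    simp only [Tm.eval, hu m n a b c d ha hb hc hd, hv m n a b c d ha hb hc hd]⟩
theorem Def.mul {f g : Pt → ℕ} (hf : Def f) (hg : Def g) : Def (fun p => f p * g p) := by
  obtain ⟨u, hu⟩ := hf
  obtain ⟨v, hv⟩ := hg
  exact ⟨.mul u v, fun m n a b c d ha hb hc hd => by
    simp only [Tm.eval, hu m n a b c d ha hb hc hd, hv m n a b c d ha hb hc hd]⟩
theorem Def.div {f g : Pt → ℕ} (hf : Def f) (hg : Def g) : Def (fun p => f p / g p) := by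
  obtain ⟨u, hu⟩ := hf
  obtain ⟨v, hv⟩ := hg
  exact ⟨.div u v, fun m n a b c d ha hb hc hd => by
    simp only [Tm.eval, hu m n a b c d ha hb hc hd, hv m n a b c d ha hb hc hd]⟩
theorem Def.mod {f g : Pt → ℕ} (hf : Def f) (hg : Def g) : Def (fun p => f p % g p) := by
  obtain ⟨u, hu⟩ := hf
  obtain ⟨v, hv⟩ := hg
  exact ⟨.mod u v, fun m n a b c d ha hb hc hd => by
    simp only [Tm.eval, hu m n a b c d ha hb hc hd, hv m n a b c d ha hb hc hd]⟩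
theorem Def.ifLt {f g u v : Pt → ℕ} (hf : Def f) (hg : Def g) (hu : Def u) (hv : Def v) :
    Def (fun p => if f p < g p then u p else v p) := by
  obtain ⟨f', hf⟩ := hf
  obtain ⟨g', hg⟩ := hg
  obtain ⟨u', hu⟩ := hu
  obtain ⟨v', hv⟩ := hv
  exact ⟨.ifLt f' g' u' v', fun m n a b c d ha hb hc hd => by
    simp only [Tm.eval, hu m n a b c d ha hb hc hd, hv m n a b c d ha hb hc hd,
      hf m n a b c d ha hb hc hd, hg m n a b c d ha hb hc hd]⟩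

theorem Comp.cast {u : Pt → ℕ} (hu : Def u) :
    Comp Γ (fun x a b c d => (u ⟨Γ.m x, Γ.n x, a, b, c, d⟩ : ℝ)) := by
  obtain ⟨τ, hτ⟩ := hu
  refine ⟨1, 0, fun loc s _ => ⟨.cast (reg s .pid) τ, fun x σ _ =>
    ⟨_, 1, .cast _ _ _, time_const _ _, fun a b c d ha hb hc hd => ?_, fun a _ ha => ?_⟩⟩⟩
  · rw [write_hit _ _ (fun q => reg_eval _ _ _ _ _) (enc_lt ha hb hc hd), hτ _ _ a b c d ha hb hc hd]
  · refine write_miss _ _ fun q _ => ?_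
    rw [reg_eval]
    have : a < (s + 1) * NN (Γ.m x) (Γ.n x) ^ 4 := ha
    omega

/-- reading a computed tensor at definable positions -/
theorem Comp.gather {F : Γ.α → Tn} (hF : Comp Γ F) {u₁ u₂ u₃ u₄ : Pt → ℕ} (h₁ : Def u₁)
    (h₂ : Def u₂) (h₃ : Def u₃) (h₄ : Def u₄) :
    Comp Γ (fun x a b c d => F x (u₁ ⟨Γ.m x, Γ.n x, a, b, c, d⟩ % Γ.N x)
      (u₂ ⟨Γ.m x, Γ.n x, a, b, c, d⟩ % Γ.N x) (u₃ ⟨Γ.m x, Γ.n x, a, b, c, d⟩ % Γ.N x)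
      (u₄ ⟨Γ.m x, Γ.n x, a, b, c, d⟩ % Γ.N x)) := by
  obtain ⟨τ, hτ⟩ := ((((((h₁.mod .N).mul .N).add (h₂.mod .N)).mul .N).add (h₃.mod .N)).mul .N).add
    (h₄.mod .N)
  obtain ⟨C, e, h⟩ := hF
  refine ⟨C + 1, e + 0, fun loc s hl => ?_⟩
  obtain ⟨c, h⟩ := h loc s hl
  refine ⟨.seq c (.arith .fst (reg s .pid) (reg s τ) (reg s τ)), fun x σ hσ => ?_⟩
  obtain ⟨σ₁, T₁, x₁, t₁, o₁, f₁⟩ := h x σ hσ
  obtain ⟨σ₂, x₂, o₂, f₂⟩ := step_arith (Γ.m x) (Γ.n x) .fst s (reg s τ) (reg s τ) σ₁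
  refine ⟨σ₂, _, .seq x₁ x₂, time_add (Γ.one_le x) t₁ (time_const _ _),
    fun a b c d ha hb hc hd => ?_, f₁.trans (fun a _ ha => f₂ a (Or.inl ha)) le_rfl⟩
  rw [o₂ _ (enc_lt ha hb hc hd), reg_eval, hτ _ _ a b c d ha hb hc hd]
  have hN := NN_pos (Γ.m x) (Γ.n x)
  exact o₁ _ _ _ _ (Nat.mod_lt _ hN) (Nat.mod_lt _ hN) (Nat.mod_lt _ hN) (Nat.mod_lt _ hN)

end Mach

end Pool.Agent.P.MP_ef347d_lc
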