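import Pool.Agent.P.MP_ef347d_lc.Mach1
import Pool.Agent.P.MP_ef347d_lc.Csanky

/-! Machine layer, part 2: bounded iteration, sums, batched matrix products and the inverse. -/

namespace Pool.Agent.P.MP_ef347d_lc.Mach

open Matrix Finset

variable {Γ : Ctx}

theorem Comp.add {F G : Γ.α → Tn} (hF : Comp Γ F) (hG : Comp Γ G) :
    Comp Γ (fun x a b c d => F x a b c d + G x a b c d) := Comp.op .add hF hG
theorem Comp.sub {F G : Γ.α → Tn} (hF : Comp Γ F) (hG : Comp Γ G) :
    Comp Γ (fun x a b c d => F x a b c d - G x a b c d) := Comp.op .sub hF hG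
theorem Comp.mul {F G : Γ.α → Tn} (hF : Comp Γ F) (hG : Comp Γ G) :
    Comp Γ (fun x a b c d => F x a b c d * G x a b c d) := Comp.op .mul hF hG
theorem Comp.div {F G : Γ.α → Tn} (hF : Comp Γ F) (hG : Comp Γ G) :
    Comp Γ (fun x a b c d => F x a b c d / G x a b c d) := Comp.op .div hF hG
theorem Comp.le {F G : Γ.α → Tn} (hF : Comp Γ F) (hG : Comp Γ G) :
    Comp Γ (fun x a b c d => if F x a b c d ≤ G x a b c d then 1 else 0) := Comp.op .le hF hG
theorem Comp.num (k : ℕ) : Comp Γ (fun _ _ _ _ _ => (k : ℝ)) := Comp.cast (Def.num k)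
theorem Comp.zero : Comp Γ (fun _ _ _ _ _ => (0 : ℝ)) :=
  (Comp.num 0).congr fun _ _ _ _ _ _ _ _ _ => Nat.cast_zero
theorem Comp.one : Comp Γ (fun _ _ _ _ _ => (1 : ℝ)) :=
  (Comp.num 1).congr fun _ _ _ _ _ _ _ _ _ => Nat.cast_one

theorem Comp.ite {u v : Pt → ℕ} (hu : Def u) (hv : Def v) {F G : Γ.α → Tn} (hF : Comp Γ F)
    (hG : Comp Γ G) : Comp Γ (fun x a b c d =>
      if u ⟨Γ.m x, Γ.n x, a, b, c, d⟩ < v ⟨Γ.m x, Γ.n x, a, b, c, d⟩ then F x a b c d
      else G x a b c d) := by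
  refine (((Comp.cast (Def.ifLt hu hv (.num 1) (.num 0))).mul hF).add
    ((Comp.cast (Def.ifLt hu hv (.num 0) (.num 1))).mul hG)).congr ?_
  intro x a b c d _ _ _ _
  split_ifs <;> simp

/-- the time parameter is available -/
def Ctx.Ok (Γ : Ctx) : Prop := Comp Γ (fun x _ _ _ _ => (Γ.t x : ℝ))

theorem Ctx.Ok.loop (ok : Γ.Ok) {l : ℕ} {traj : Γ.α → ℕ → ℕ → Tn} {K : Γ.α → ℕ} :
    (Γ.loop l traj K).Ok := Comp.up ok

theorem Comp.tpow (ok : Γ.Ok) (e : ℕ) : Comp Γ (fun x _ _ _ _ => ((Γ.t x ^ e : ℕ) : ℝ)) := by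
  induction e with
  | zero => exact Comp.num 1
  | succ e ih =>
    refine (ih.mul ok).congr ?_
    intro x a b c d _ _ _ _
    push_cast
    ring

/-- iteration `t ^ e` times -/
theorem Comp.iter (ok : Γ.Ok) (l e : ℕ) (traj : Γ.α → ℕ → ℕ → Tn)
    (hi : ∀ j, j < l → Comp Γ (fun x => traj x 0 j))
    (hb : ∀ j, j < l → Comp (Γ.loop l traj fun x => Γ.t x ^ e) (fun p => traj p.1.1 (p.1.2 + 1) j))
    {j : ℕ} (hj : j < l) : Comp Γ (fun x => traj x (Γ.t x ^ e) j) := by
  have h := Comp.while (Γ := Γ) (l + 1)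
    (fun x i j => if j < l then traj x i j else fun _ _ _ _ => ((Γ.t x ^ e : ℕ) : ℝ) - i)
    (fun x => Γ.t x ^ e) (C₀ := 1) (e₀ := e) (fun x => by simp) (j₀ := l) (by omega)
    (fun x i hi => by
      simp only [lt_irrefl, if_false, sub_pos]
      exact_mod_cast hi)
    (fun x => by simp)
    (fun j _ => by
      by_cases h : j < l
      · simpa only [h, if_true] using hi j h
      · simpa only [h, if_false, Nat.cast_zero, sub_zero] using Comp.tpow ok e)
    (fun j _ => by
      by_cases h : j < l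
      · simp only [h, if_true]
        refine Comp.call (Γ := Γ.loop (l + 1) _ fun x => Γ.t x ^ e) (hb j h) (fun p => p)
          (fun _ => rfl) (fun _ => rfl)
          (fun _ => le_rfl) fun i hi => ?_
        have hi' : i < Γ.k + l := hi
        refine (Comp.var (i := i) (show i < Γ.k + (l + 1) by omega)).congr ?_
        intro x a b c d _ _ _ _
        dsimp only
        by_cases h1 : i < Γ.k
        · simp only [h1, if_true]
        · have h2 : i - Γ.k < l := by omega
          simp only [h1, h2, if_true, if_false]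
      · simp only [h, if_false]
        refine ((Comp.st (j := l) (by omega)).sub Comp.one).congr ?_
        intro x a b c d _ _ _ _
        simp only [lt_irrefl, if_false]
        push_cast
        ring)
    (j := j) (by omega)
  simpa only [hj, if_true] using h

/-- sum over the last axis -/
theorem Comp.sum (ok : Γ.Ok) {F : Γ.α → Tn} (hF : Comp Γ F) :
    Comp Γ (fun x a b c _ => ∑ y ∈ range (Γ.N x), F x a b c y) := by
  have h := Comp.iter ok 1 1
    (fun x i _ a b c d => ∑ y ∈ range (Γ.N x), if y / 2 ^ i = d then F x a b c y else 0)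
    (fun _ _ => hF.congr fun x a b c d _ _ _ hd => by simp [hd])
    (fun _ _ => by
      have s := Comp.st (Γ := Γ) (l := 1) (K := fun x => Γ.t x ^ 1) (j := 0)
        (traj := fun x i _ a b c d =>
          ∑ y ∈ range (Γ.N x), if y / 2 ^ i = d then F x a b c y else 0) (by omega)
      refine ((Comp.ite ((Def.num 2).mul .d) .N (s.gather .a .b .c ((Def.num 2).mul .d)) .zero).add
        (Comp.ite (((Def.num 2).mul .d).add (.num 1)) .N
          (s.gather .a .b .c (((Def.num 2).mul .d).add (.num 1))) .zero)).congr ?_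
      rintro ⟨⟨x, i⟩, hi⟩ a b c d ha hb hc hd
      change a < Γ.N x at ha
      change b < Γ.N x at hb
      change c < Γ.N x at hc
      dsimp only
      have key : ∀ r, (if r < Γ.N x then ∑ y ∈ range (Γ.N x),
          (if y / 2 ^ i = r % Γ.N x then F x a b c y else 0) else 0) =
          ∑ y ∈ range (Γ.N x), if y / 2 ^ i = r then F x a b c y else 0 := by
        intro r
        split_ifs with hr
        · rw [Nat.mod_eq_of_lt hr]
        · refine (Finset.sum_eq_zero fun y hy => if_neg fun e => hr ?_).symm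
          have := Finset.mem_range.1 hy
          have := Nat.div_le_self y (2 ^ i)
          omega
      rw [Nat.mod_eq_of_lt ha, Nat.mod_eq_of_lt hb, Nat.mod_eq_of_lt hc, key, key,
        ← Finset.sum_add_distrib]
      refine Finset.sum_congr rfl fun y _ => ?_
      rw [pow_succ, ← Nat.div_div_eq_div_mul]
      generalize y / 2 ^ i = z
      by_cases h1 : z = 2 * d
      · rw [if_pos h1, if_neg (by omega), if_pos (by omega), add_zero]
      · by_cases h2 : z = 2 * d + 1
        · rw [if_neg h1, if_pos h2, if_pos (by omega), zero_add]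
        · rw [if_neg h1, if_neg h2, if_neg (by omega), zero_add])
    (j := 0) (by omega)
  refine (h.gather .a .b .c (.num 0)).congr ?_
  intro x a b c d ha hb hc _
  simp only [Nat.mod_eq_of_lt ha, Nat.mod_eq_of_lt hb, Nat.mod_eq_of_lt hc, Nat.zero_mod, pow_one]
  refine Finset.sum_congr rfl fun y hy => if_pos (Nat.div_eq_of_lt ?_)
  exact (Finset.mem_range.1 hy).trans_le (Γ.hN x)

/-- batches of matrices -/
def CompB (Γ : Ctx) (W : (x : Γ.α) → ℕ → Mt (Γ.m x) (Γ.n x)) : Prop :=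
  Comp Γ (fun x a b c _ => lift (W x a) b c)

theorem lift_mul {N : ℕ} (X Y : Matrix (Fin N) (Fin N) ℝ) {b c : ℕ} (hb : b < N) (hc : c < N) :
    lift (X * Y) b c = ∑ y ∈ range N, lift X b y * lift Y y c := by
  rw [lift_of_lt _ hb hc, Matrix.mul_apply,
    ← Fin.sum_univ_eq_sum_range (fun y => lift X b y * lift Y y c)]
  refine Finset.sum_congr rfl fun y _ => ?_
  rw [lift_of_lt _ hb y.2, lift_of_lt _ y.2 hc]

theorem CompB.congr {W W' : (x : Γ.α) → ℕ → Mt (Γ.m x) (Γ.n x)} (hW : CompB Γ W)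
    (h : ∀ x a, a < Γ.N x → W x a = W' x a) : CompB Γ W' :=
  Comp.congr hW fun x a _ _ _ ha _ _ _ => by rw [h x a ha]

theorem CompB.mul (ok : Γ.Ok) {W W' : (x : Γ.α) → ℕ → Mt (Γ.m x) (Γ.n x)} (hW : CompB Γ W)
    (hW' : CompB Γ W') : CompB Γ (fun x a => W x a * W' x a) := by
  refine (Comp.sum ok ((Comp.gather hW .a .b .d (.num 0)).mul
    (Comp.gather hW' .a .d .c (.num 0)))).congr ?_
  intro x a b c d ha hb hc _
  simp only [Nat.mod_eq_of_lt ha, Nat.mod_eq_of_lt hb, Nat.mod_eq_of_lt hc]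
  rw [lift_mul _ _ hb hc]
  refine Finset.sum_congr rfl fun y hy => ?_
  rw [Nat.mod_eq_of_lt (Finset.mem_range.1 hy)]

theorem CompB.one : CompB Γ (fun _ _ => 1) := by
  refine (Comp.ite .b .c .zero (Comp.ite .c .b .zero .one)).congr ?_
  intro x a b c d _ hb hc _
  dsimp only
  rw [lift_of_lt _ hb hc, Matrix.one_apply]
  simp only [Fin.mk.injEq]
  by_cases h1 : b < c
  · rw [if_pos h1, if_neg (by omega)]
  · by_cases h2 : c < b
    · rw [if_neg h1, if_pos h2, if_neg (by omega)]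
    · rw [if_neg h1, if_neg h2, if_pos (by omega)]

/-- the batch of powers -/
theorem CompB.pow (ok : Γ.Ok) {H : (x : Γ.α) → Mt (Γ.m x) (Γ.n x)} (hH : CompB Γ (fun x _ => H x)) :
    CompB Γ (fun x a => H x ^ a) := by
  have h := Comp.iter ok 1 1 (fun x i _ a b c _ => lift (H x ^ (a % 2 ^ i)) b c)
    (fun _ _ => Comp.congr CompB.one fun x a b c d _ _ _ _ => by simp [Nat.mod_one])
    (fun _ _ => by
      have s := Comp.st (Γ := Γ) (l := 1) (K := fun x => Γ.t x ^ 1) (j := 0)
        (traj := fun x i _ a b c _ => lift (H x ^ (a % 2 ^ i)) b c) (by omega)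
      have s₁ : CompB (Γ.loop 1 (fun x i _ a b c _ => lift (H x ^ (a % 2 ^ i)) b c)
          fun x => Γ.t x ^ 1) (fun p a => H p.1.1 ^ (a / 2 % 2 ^ p.1.2)) := by
        refine (s.gather (Def.a.div (.num 2)) .b .c .d).congr ?_
        intro x a b c d ha hb hc _
        have ha' : a / 2 < _ := (Nat.div_le_self a 2).trans_lt ha
        simp only [Nat.mod_eq_of_lt ha', Nat.mod_eq_of_lt hb, Nat.mod_eq_of_lt hc]
      have s₂ : CompB (Γ.loop 1 (fun x i _ a b c _ => lift (H x ^ (a % 2 ^ i)) b c)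
          fun x => Γ.t x ^ 1) (fun p a => H p.1.1 ^ (a % 2)) := by
        refine (Comp.ite (Def.a.mod (.num 2)) (.num 1) CompB.one (Comp.up hH)).congr ?_
        intro x a b c d _ _ _ _
        rcases Nat.mod_two_eq_zero_or_one a with h | h
        · simp only [h, zero_lt_one, if_true, pow_zero]
        · simp only [h, lt_irrefl, if_false, pow_one]
      refine Comp.congr ((s₁.mul ok.loop s₁).mul ok.loop s₂) ?_
      rintro ⟨⟨x, i⟩, hi⟩ a b c d _ _ _ _
      have e : a % 2 ^ (i + 1) = a / 2 % 2 ^ i + a / 2 % 2 ^ i + a % 2 := by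
        rw [pow_succ', Nat.mod_mul]
        ring
      show lift (H x ^ (a / 2 % 2 ^ i) * H x ^ (a / 2 % 2 ^ i) * H x ^ (a % 2)) b c =
        lift (H x ^ (a % 2 ^ (i + 1))) b c
      rw [e, pow_add, pow_add])
    (j := 0) (by omega)
  refine h.congr ?_
  intro x a b c d ha _ _ _
  rw [pow_one, Nat.mod_eq_of_lt (ha.trans_le (Γ.hN x))]

/-- sum over the batch axis -/
theorem CompB.sum (ok : Γ.Ok) {W : (x : Γ.α) → ℕ → Mt (Γ.m x) (Γ.n x)} (hW : CompB Γ W) :
    CompB Γ (fun x _ => ∑ k ∈ range (Γ.N x), W x k) := by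
  refine (Comp.sum ok (Comp.gather hW .d .b .c .d)).congr ?_
  intro x a b c d _ hb hc _
  simp only [Nat.mod_eq_of_lt hb, Nat.mod_eq_of_lt hc]
  rw [lift_of_lt _ hb hc, Matrix.sum_apply]
  refine Finset.sum_congr rfl fun y hy => ?_
  rw [Nat.mod_eq_of_lt (Finset.mem_range.1 hy), lift_of_lt _ hb hc]

theorem CompB.inv (ok : Γ.Ok) {H : (x : Γ.α) → Mt (Γ.m x) (Γ.n x)} (hH : CompB Γ (fun x _ => H x))
    (hs : ∀ x, (H x)ᵀ = H x) : CompB Γ (fun x _ => (H x)⁻¹) := by
  have hP := hH.pow ok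
  have hT : CompB Γ (fun x _ => cT (H x)) := by
    refine (Comp.ite .c .b ((Comp.zero.sub (Comp.sum ok
      (Comp.gather hP (Def.b.sub .c) .d .d .d))).div (Comp.cast .b)) .zero).congr ?_
    intro x a b c d _ hb hc _
    have h1 : b - c < Γ.N x := (Nat.sub_le b c).trans_lt hb
    rw [lift_of_lt _ hb hc]
    simp only [Nat.mod_eq_of_lt h1, cT, Matrix.of_apply, zero_sub]
    congr 3
    rw [Matrix.trace, ← Fin.sum_univ_eq_sum_range
      (fun y => lift (H x ^ (b - c)) (y % Γ.N x) (y % Γ.N x))]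
    refine Finset.sum_congr rfl fun y _ => ?_
    rw [Nat.mod_eq_of_lt y.2, lift_fin, Matrix.diag_apply]
  have hS : CompB Γ (fun x _ => cS (H x)) := (hT.pow ok).sum ok
  have hB : CompB Γ (fun x _ => cB (H x)) := by
    refine CompB.sum ok (W := fun x k => lift (cS (H x)) k 0 • H x ^ (Γ.N x - 1 - k)) ?_
    refine ((Comp.gather hS .a .a (.num 0) .d).mul
      (Comp.gather hP ((Def.N.sub (.num 1)).sub .a) .b .c .d)).congr ?_
    intro x a b c d ha hb hc _
    have h1 : NN (Γ.m x) (Γ.n x) - 1 - a < Γ.N x := by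
      have : a < NN (Γ.m x) (Γ.n x) := ha
      show _ < NN (Γ.m x) (Γ.n x)
      omega
    simp only [Nat.mod_eq_of_lt h1, Nat.mod_eq_of_lt ha, Nat.mod_eq_of_lt hb, Nat.mod_eq_of_lt hc,
      Nat.zero_mod, lift_of_lt _ hb hc, Matrix.smul_apply, smul_eq_mul]
  refine (Comp.div hB (Comp.gather (hH.mul ok hB) .a (.num 0) (.num 0) .d)).congr ?_
  intro x a b c d _ hb hc _
  dsimp only
  rw [csanky (NN_pos _ _) (H x) (hs x)]
  simp only [Nat.zero_mod, lift_of_lt _ hb hc, Matrix.of_apply]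

end Pool.Agent.P.MP_ef347d_lc.Mach
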