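import Pool.Agent.P.MP_ef347d_lc.Opt2

/-! Padding, the exact solve on a basis and the optimality check. -/

namespace Pool.Agent.P.MP_ef347d_lc
namespace Opt

open Matrix

variable {m n N M d : ℕ}

/-- restriction to the first coordinates -/
def rs (h : M ≤ N) (v : Fin N → ℝ) : Fin M → ℝ := fun i => v (Fin.castLE h i)

lemma padv_cast (h : M ≤ N) (x : Fin M → ℝ) (i : Fin M) : padv x (Fin.castLE h i) = x i := by
  simp [padv]

lemma padv_ge (x : Fin M → ℝ) {i : Fin N} (hi : ¬i.val < M) : padv x i = 0 := dif_neg hi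

lemma rs_padv (h : M ≤ N) (x : Fin M → ℝ) : rs h (padv x) = x := funext (padv_cast h x)

lemma fin_cases' (h : M ≤ N) (i : Fin N) : (∃ j, i = Fin.castLE h j) ∨ ¬i.val < M := by
  by_cases hi : i.val < M
  · exact Or.inl ⟨⟨i.val, hi⟩, rfl⟩
  · exact Or.inr hi

lemma sum_supp (e : Fin n ↪o Fin m) (f : Fin m → ℝ) (h : ∀ k, k ∉ Set.range e → f k = 0) :
    ∑ k, f k = ∑ i, f (e i) := by
  rw [sum_split e, add_eq_left]
  refine Finset.sum_eq_zero fun k _ => ?_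
  split_ifs with hk
  · rfl
  · exact h k hk

lemma padv_dot (h : M ≤ N) (x : Fin M → ℝ) (v : Fin N → ℝ) : padv x ⬝ᵥ v = x ⬝ᵥ rs h v := by
  rw [dotProduct, sum_supp (Fin.castLEOrderEmb h)]
  · exact Finset.sum_congr rfl fun i _ => congrArg (· * v (Fin.castLE h i)) (padv_cast h x i)
  · intro k hk
    rcases fin_cases' h k with ⟨j, rfl⟩ | hk'
    · exact absurd ⟨j, rfl⟩ hk
    · rw [padv_ge x hk', zero_mul]

lemma pad_mulVec (hd : d ≤ N) (A : Matrix (Fin M) (Fin d) ℝ) (v : Fin N → ℝ) :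
    pad A *ᵥ v = padv (A *ᵥ rs hd v) := by
  funext i
  by_cases hi : i.val < M
  · have e1 : (pad A : Matrix (Fin N) (Fin N) ℝ) i = padv (A ⟨i.val, hi⟩) := by
      funext j
      simp [pad, padv, hi]
    have e2 : (pad A *ᵥ v) i = (pad A : Matrix (Fin N) (Fin N) ℝ) i ⬝ᵥ v := rfl
    rw [e2, e1, padv_dot hd, padv, dif_pos hi]
    rfl
  · rw [padv_ge _ hi]
    simp [mulVec, dotProduct, pad, hi]

lemma pad_transpose (A : Matrix (Fin M) (Fin d) ℝ) :
    (pad A : Matrix (Fin N) (Fin N) ℝ)ᵀ = pad Aᵀ := by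
  ext i j
  by_cases hi : i.val < d <;> by_cases hj : j.val < M <;> simp [pad, hi, hj]

lemma padT_mulVec (hM : M ≤ N) (A : Matrix (Fin M) (Fin d) ℝ) (v : Fin N → ℝ) :
    (pad A)ᵀ *ᵥ v = padv (Aᵀ *ᵥ rs hM v) := by
  rw [pad_transpose, pad_mulVec hM]

lemma padv_inj (h : M ≤ N) {x y : Fin M → ℝ} (e : (padv x : Fin N → ℝ) = padv y) : x = y := by
  rw [← rs_padv h x, e, rs_padv]

/-- the normal matrix of the rows selected by `s` -/
noncomputable def Km (n : ℕ) (A : Matrix (Fin N) (Fin N) ℝ) (s : Fin N → ℝ) :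
    Matrix (Fin N) (Fin N) ℝ := Aᵀ * diagonal s * A + (1 - rmask N n)

/-- primal point of the selected rows -/
noncomputable def xs (n : ℕ) (A : Matrix (Fin N) (Fin N) ℝ) (b s : Fin N → ℝ) : Fin N → ℝ :=
  (Km n A s)⁻¹ *ᵥ (Aᵀ *ᵥ fun k => s k * b k)

/-- dual point of the selected rows -/
noncomputable def ys (n : ℕ) (A : Matrix (Fin N) (Fin N) ℝ) (c s : Fin N → ℝ) : Fin N → ℝ :=
  fun k => s k * (A *ᵥ ((Km n A s)⁻¹ *ᵥ c)) k

/-- the optimality check -/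
def Chk (A : Matrix (Fin N) (Fin N) ℝ) (b c x y : Fin N → ℝ) : Prop :=
  (∀ i, (A *ᵥ x) i ≤ b i) ∧ (∀ i, 0 ≤ y i) ∧ (∀ j, (Aᵀ *ᵥ y) j = c j) ∧ b ⬝ᵥ y ≤ c ⬝ᵥ x

lemma Km_symm (n : ℕ) (A : Matrix (Fin N) (Fin N) ℝ) (s : Fin N → ℝ) :
    (Km n A s)ᵀ = Km n A s := by
  simp [Km, rmask, transpose_mul, transpose_add, transpose_sub, Matrix.mul_assoc]

lemma Km_mulVec (n : ℕ) (A : Matrix (Fin N) (Fin N) ℝ) (s v : Fin N → ℝ) (j : Fin N) :
    (Km n A s *ᵥ v) j =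
      (Aᵀ *ᵥ fun k => s k * (A *ᵥ v) k) j + if j.val < n then 0 else v j := by
  have e1 : (fun k => s k * (A *ᵥ v) k) = diagonal s *ᵥ (A *ᵥ v) :=
    funext fun k => (mulVec_diagonal _ _ _).symm
  rw [Km, add_mulVec, e1, mulVec_mulVec, mulVec_mulVec, Matrix.sub_mulVec, Pi.add_apply,
    one_mulVec, Pi.sub_apply, rmask, mulVec_diagonal]
  split_ifs <;> simp

lemma chk_sound (hm : m ≤ N) (hn : n ≤ N) {D : Idx m n → ℝ} {x y : Fin N → ℝ}
    (h : Chk (pad (dA D)) (padv (db D)) (padv (dc D)) x y) :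
    Feasible D (rs hn x) ∧ ∀ x', Feasible D x' → dc D ⬝ᵥ x' ≤ dc D ⬝ᵥ rs hn x := by
  obtain ⟨h1, h2, h3, h4⟩ := h
  refine ⟨fun i => ?_, fun x' hx' => ?_⟩
  · have := h1 (Fin.castLE hm i)
    rwa [pad_mulVec hn, padv_cast, padv_cast] at this
  · rw [padv_dot hm, padv_dot hn] at h4
    refine (weak hx' ⟨fun i => h2 _, ?_⟩).trans h4
    have := funext h3
    rw [padT_mulVec hm] at this
    exact padv_inj hn this

section basis

variable (hm : m ≤ N) (hn : n ≤ N) {D : Idx m n → ℝ} (hI : Inv D) {e : Fin n ↪o Fin m}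
  {s : Fin N → ℝ} (hs1 : ∀ i, s (Fin.castLE hm (e i)) = 1)
  (hs0 : ∀ k, k ∉ Set.range e → s (Fin.castLE hm k) = 0)

include hs1 hs0 in
lemma dot_sel (f g : Fin m → ℝ) :
    f ⬝ᵥ rs hm (fun k => s k * padv g k) = (fun i => f (e i)) ⬝ᵥ fun i => g (e i) := by
  rw [dotProduct, sum_supp e]
  · exact Finset.sum_congr rfl fun i _ => by simp only [rs, hs1, padv_cast, one_mul]
  · intro k hk
    simp only [rs, hs0 k hk, zero_mul, mul_zero]

include hs1 hs0 in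
lemma AT_sel (g : Fin m → ℝ) : ((pad (dA D))ᵀ *ᵥ fun k => s k * padv g k) =
    padv (((dA D).submatrix e id)ᵀ *ᵥ fun i => g (e i)) := by
  rw [padT_mulVec hm]
  congr 1
  funext j
  exact dot_sel hm hs1 hs0 (fun k => dA D k j) g

include hs1 hs0 in
lemma Km_sel (v : Fin N → ℝ) (j : Fin N) : (Km n (pad (dA D)) s *ᵥ v) j =
    padv (((dA D).submatrix e id)ᵀ *ᵥ ((dA D).submatrix e id *ᵥ rs hn v)) j +
      if j.val < n then 0 else v j := by
  rw [Km_mulVec, pad_mulVec hn, AT_sel hm hs1 hs0]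
  rfl

include hI in
lemma HT_AT (v : Fin n → ℝ) : (Hm D e)ᵀ *ᵥ (((dA D).submatrix e id)ᵀ *ᵥ v) = v := by
  rw [mulVec_mulVec, ← transpose_mul, Hm, mul_nonsing_inv _ (hI e), transpose_one, one_mulVec]

include hI in
lemma AT_HT (v : Fin n → ℝ) : ((dA D).submatrix e id)ᵀ *ᵥ ((Hm D e)ᵀ *ᵥ v) = v := by
  rw [mulVec_mulVec, ← transpose_mul, Hm, nonsing_inv_mul _ (hI e), transpose_one, one_mulVec]

include hn hI hs1 hs0 in
lemma Km_unit : IsUnit (Km n (pad (dA D)) s).det := by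
  rw [← isUnit_iff_isUnit_det, ← mulVec_injective_iff_isUnit]
  have key : ∀ v, Km n (pad (dA D)) s *ᵥ v = 0 → v = 0 := fun v hv => by
    have h1 : ((dA D).submatrix e id)ᵀ *ᵥ ((dA D).submatrix e id *ᵥ rs hn v) = 0 := by
      funext j
      have := congrFun hv (Fin.castLE hn j)
      rw [Km_sel hm hn hs1 hs0, padv_cast, if_pos (by simp), add_zero] at this
      exact this
    have h2 : (dA D).submatrix e id *ᵥ rs hn v = 0 := by
      rw [← HT_AT hI (e := e) ((dA D).submatrix e id *ᵥ rs hn v), h1, mulVec_zero]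
    have h3 : rs hn v = 0 := by
      rw [HA hI e (x := rs hn v) (v := 0) fun i => congrFun h2 i, mulVec_zero]
    funext j
    rcases fin_cases' hn j with ⟨i, rfl⟩ | hj
    · exact congrFun h3 i
    · have := congrFun hv j
      rw [Km_sel hm hn hs1 hs0, padv_ge _ hj, if_neg hj, zero_add] at this
      exact this
  intro v v' hv
  rw [← sub_eq_zero]
  exact key _ (by rw [mulVec_sub, hv, sub_self])

include hn hI hs1 hs0 in
lemma Km_solve (g : Fin n → ℝ) :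
    (Km n (pad (dA D)) s)⁻¹ *ᵥ padv g = padv (Hm D e *ᵥ ((Hm D e)ᵀ *ᵥ g)) := by
  have h1 : Km n (pad (dA D)) s *ᵥ padv (Hm D e *ᵥ ((Hm D e)ᵀ *ᵥ g)) = padv g := by
    funext j
    have e1 : (dA D).submatrix e id *ᵥ (Hm D e *ᵥ ((Hm D e)ᵀ *ᵥ g)) = (Hm D e)ᵀ *ᵥ g :=
      funext fun i => AH hI e _ i
    rw [Km_sel hm hn hs1 hs0, rs_padv, e1, AT_HT hI]
    split_ifs with hj
    · exact add_zero _
    · rw [padv_ge _ hj, padv_ge _ hj, add_zero]
  rw [← h1, mulVec_mulVec, nonsing_inv_mul _ (Km_unit hm hn hI hs1 hs0), one_mulVec]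

include hn hI hs1 hs0 in
lemma chk_ok (hs : ∀ k, 0 ≤ s k) (hx : Feasible D (xv D e)) (hy : ∀ i, 0 ≤ yv D e i) :
    Chk (pad (dA D)) (padv (db D)) (padv (dc D)) (xs n (pad (dA D)) (padv (db D)) s)
      (ys n (pad (dA D)) (padv (dc D)) s) := by
  have e1 : xs n (pad (dA D)) (padv (db D)) s = padv (xv D e) := by
    rw [xs, AT_sel hm hs1 hs0, Km_solve hm hn hI hs1 hs0, HT_AT hI]
    rfl
  have e2 : ys n (pad (dA D)) (padv (dc D)) s =
      fun k => s k * padv (dA D *ᵥ (Hm D e *ᵥ yv D e)) k := by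
    funext k
    rw [ys, Km_solve hm hn hI hs1 hs0, pad_mulVec hn, rs_padv]
    rfl
  have e3 : (fun i => (dA D *ᵥ (Hm D e *ᵥ yv D e)) (e i)) = yv D e := funext (AH hI e _)
  rw [e1, e2]
  refine ⟨fun i => ?_, fun i => ?_, fun j => ?_, ?_⟩
  · rw [pad_mulVec hn, rs_padv]
    rcases fin_cases' hm i with ⟨k, rfl⟩ | hi
    · rw [padv_cast, padv_cast]; exact hx k
    · rw [padv_ge _ hi, padv_ge _ hi]
  · rcases fin_cases' hm i with ⟨k, rfl⟩ | hi
    · by_cases hk : k ∈ Set.range e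
      · obtain ⟨j, rfl⟩ := hk
        simp only [padv_cast, AH hI]
        exact mul_nonneg (hs _) (hy j)
      · simp only [hs0 k hk, zero_mul, le_refl]
    · simp only [padv_ge _ hi, mul_zero, le_refl]
  · rw [AT_sel hm hs1 hs0, e3, AT_yv hI]
  · rw [padv_dot hm, padv_dot hn, dot_sel hm hs1 hs0, e3, rs_padv, xv, c_H, dotProduct_comm]

end basis

end Opt
end Pool.Agent.P.MP_ef347d_lc
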