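import Pool.Agent.P.MP_ef347d_lc.Calc
import Pool.Agent.P.MP_ef347d_lc.Opt3

/-! The solver for the optimal case in the matrix language. -/

namespace Pool.Agent.P.MP_ef347d_lc
namespace Opt

open Matrix

section defs

variable {N : ℕ}

/-- the padded matrix `G_u` -/
noncomputable def Gp (m : ℕ) (A : Matrix (Fin N) (Fin N) ℝ) (b c : Fin N → ℝ) (u : ℝ) :
    Matrix (Fin N) (Fin N) ℝ :=
  Matrix.of fun i j => if i.val < m then -A i j + (A *ᵥ c) i * c j / (c ⬝ᵥ c) +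
      (b i - zLev (c ⬝ᵥ c) u * (A *ᵥ c) i / (c ⬝ᵥ c)) * c j / wLev (c ⬝ᵥ c) u
    else if i.val = m then c j else 0

/-- the dual candidate of the solver `Fy` on the matrix `G` -/
noncomputable def lamP (Fy : MF) (m n : ℕ) (T G : Mt m n) : Fin (NN m n) → ℝ := fun i =>
  Fy m n (fun k => if k = 0 then T else if k = 1 then G else
    if k = 2 then cst ((m + 1 : ℕ) : ℝ) else cst (n : ℝ)) i 0

/-- the normalised dual candidate -/
noncomputable def cdP (A : Matrix (Fin N) (Fin N) ℝ) (c lam : Fin N → ℝ) : Fin N → ℝ :=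
  fun i => lam i / (lam ⬝ᵥ (A *ᵥ c) / (c ⬝ᵥ c))

/-- the test of the binary search -/
def abP (m : ℕ) (A : Matrix (Fin N) (Fin N) ℝ) (b c : Fin N → ℝ) (u : ℝ) (y : Fin N → ℝ) : Prop :=
  (∀ i : Fin N, i.val < m → 0 ≤ y i) ∧ (∀ j, (Aᵀ *ᵥ y) j = c j) ∧ b ⬝ᵥ y < zLev (c ⬝ᵥ c) u

/-- one step of the binary search -/
noncomputable def stepP (Fy : MF) (m n : ℕ) (T A B C : Mt m n) :
    ℝ × ℝ × (Fin (NN m n) → ℝ) → ℝ × ℝ × (Fin (NN m n) → ℝ) :=
  bstep (abP m A (fun i => B i 0) (fun i => C i 0)) fun u =>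
    cdP A (fun i => C i 0) (lamP Fy m n T (Gp m A (fun i => B i 0) (fun i => C i 0) u))

/-- the selected rows -/
noncomputable def selP (Fy : MF) (m n : ℕ) (Y : ℕ → Mt m n) : Fin (NN m n) → ℝ := fun i =>
  if thr (tOf (Y 0)) < ((stepP Fy m n (Y 0) (Y 1) (Y 2) (Y 3))^[tOf (Y 0) ^ 3]
    (thr (tOf (Y 0)) ^ 3, 1 / thr (tOf (Y 0)) ^ 3, 0)).2.2 i then 1 else 0

open Classical in
/-- the result matrix -/
noncomputable def outM (p : Prop) (x : Fin N → ℝ) : Matrix (Fin N) (Fin N) ℝ :=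
  col fun i => if i.val = 0 then (if p then 1 else 0) else
    ∑ l : Fin N, if i.val = l.val + 2 then x l else 0

/-- the solver, given the selected rows -/
noncomputable def finP (s : ∀ m n, (ℕ → Mt m n) → Fin (NN m n) → ℝ) : MF := fun m n Y =>
  outM (Chk (Y 1) (fun i => Y 2 i 0) (fun i => Y 3 i 0) (xs n (Y 1) (fun i => Y 2 i 0) (s m n Y))
    (ys n (Y 1) (fun i => Y 3 i 0) (s m n Y))) (xs n (Y 1) (fun i => Y 2 i 0) (s m n Y))

end defs

section comp

variable {k : ℕ} (hk : 0 < k) {A G Fy : MF} {b c x y s : ∀ m n, (ℕ → Mt m n) → Fin (NN m n) → ℝ}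
  {u v : ∀ m n, (ℕ → Mt m n) → ℝ}

lemma pe_z (hv : PE k fun m n Y _ _ => v m n Y) (hu : PE k fun m n Y _ _ => u m n Y) :
    PE k fun m n Y _ _ => zLev (v m n Y) (u m n Y) :=
  PE.div (PE.sub hu (PE.div hv hu)) (PE.ofNat 2)

lemma pe_w (hv : PE k fun m n Y _ _ => v m n Y) (hu : PE k fun m n Y _ _ => u m n Y) :
    PE k fun m n Y _ _ => wLev (v m n Y) (u m n Y) :=
  PE.div (PE.add hu (PE.div hv hu)) (PE.ofNat 2)

include hk

lemma pi_Gp (hA : PI k A) (hb : PE k fun m n Y i _ => b m n Y i)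
    (hc : PE k fun m n Y i _ => c m n Y i) (hu : PE k fun m n Y _ _ => u m n Y) :
    PI k fun m n Y => Gp m (A m n Y) (b m n Y) (c m n Y) (u m n Y) := by
  have hcc := PE.dot hk hc hc
  have hAc := PE.mulVec hk hA hc
  have hc' := PE.toCol hc
  exact PE.ite (PP.natLt PE.rowIdx PE.rows)
    (PE.add (PE.add (PE.neg hA.pe) (PE.div (PE.mul hAc hc') hcc))
      (PE.div (PE.mul (PE.sub hb (PE.div (PE.mul (pe_z hcc hu) hAc) hcc)) hc') (pe_w hcc hu)))
    (PE.ite (PP.natEq PE.rowIdx PE.rows) hc' PE.zero)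

lemma pe_lam (hF : PI 4 Fy) (hG : PI k G) :
    PE k fun m n Y i _ => lamP Fy m n (Y 0) (G m n Y) i := by
  have h := PI.call hk hF (fun i m n Y => if i = 1 then G m n Y else
      if i = 2 then cst ((m + 1 : ℕ) : ℝ) else cst (n : ℝ)) fun i _ _ => by
    by_cases h1 : i = 1
    · simpa only [if_pos h1] using hG
    by_cases h2 : i = 2
    · simp only [if_neg h1, if_pos h2]
      exact PE.toCst (PE.natAdd (a := fun m _ _ _ _ => m) (b := fun _ _ _ _ _ => 1) PE.rows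
        (PE.nat 1))
    · simp only [if_neg h1, if_neg h2]
      exact PI.cols
  exact PE.col0 hk h.pe

lemma pe_cd (hA : PI k A) (hc : PE k fun m n Y i _ => c m n Y i)
    (hy : PE k fun m n Y i _ => y m n Y i) :
    PE k fun m n Y i _ => cdP (A m n Y) (c m n Y) (y m n Y) i :=
  PE.div hy (PE.div (PE.dot hk hy (PE.mulVec hk hA hc)) (PE.dot hk hc hc))

lemma pp_ab (hA : PI k A) (hb : PE k fun m n Y i _ => b m n Y i)
    (hc : PE k fun m n Y i _ => c m n Y i) (hu : PE k fun m n Y _ _ => u m n Y)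
    (hy : PE k fun m n Y i _ => y m n Y i) :
    PP k fun m n Y _ _ => abP m (A m n Y) (b m n Y) (c m n Y) (u m n Y) (y m n Y) :=
  PP.and (PP.allV hk (PP.imp (PP.natLt PE.rowIdx PE.rows) (PP.le PE.zero hy)))
    (PP.and (PP.allV hk (PP.eq (PE.mulVec hk hA.transpose hy) hc))
      (PP.lt (PE.dot hk hb hy) (pe_z (PE.dot hk hc hc) hu)))

lemma pi_Kinv (hA : PI k A) (hs : PE k fun m n Y i _ => s m n Y i) :
    PI k fun m n Y => (Km n (A m n Y) (s m n Y))⁻¹ :=
  PI.inv hk (PI.add (PI.mul hk (PI.mul hk hA.transpose (PI.diagonal hs)) hA)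
    (PI.sub PI.one (PI.rmask PE.cols))) fun _ _ _ => Km_symm _ _ _

lemma pe_xs (hA : PI k A) (hb : PE k fun m n Y i _ => b m n Y i)
    (hs : PE k fun m n Y i _ => s m n Y i) :
    PE k fun m n Y i _ => xs n (A m n Y) (b m n Y) (s m n Y) i :=
  PE.mulVec hk (pi_Kinv hk hA hs) (PE.mulVec hk hA.transpose (PE.mul hs hb))

lemma pe_ys (hA : PI k A) (hc : PE k fun m n Y i _ => c m n Y i)
    (hs : PE k fun m n Y i _ => s m n Y i) :
    PE k fun m n Y i _ => ys n (A m n Y) (c m n Y) (s m n Y) i :=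
  PE.mul hs (PE.mulVec hk hA (PE.mulVec hk (pi_Kinv hk hA hs) hc))

lemma pp_chk (hA : PI k A) (hb : PE k fun m n Y i _ => b m n Y i)
    (hc : PE k fun m n Y i _ => c m n Y i) (hx : PE k fun m n Y i _ => x m n Y i)
    (hy : PE k fun m n Y i _ => y m n Y i) :
    PP k fun m n Y _ _ => Chk (A m n Y) (b m n Y) (c m n Y) (x m n Y) (y m n Y) :=
  PP.and (PP.allV hk (PP.le (PE.mulVec hk hA hx) hb))
    (PP.and (PP.allV hk (PP.le PE.zero hy))
      (PP.and (PP.allV hk (PP.eq (PE.mulVec hk hA.transpose hy) hc))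
        (PP.le (PE.dot hk hb hy) (PE.dot hk hc hx))))

open Classical in
lemma pi_out {p : ∀ m n, (ℕ → Mt m n) → Prop} (hp : PP k fun m n Y _ _ => p m n Y)
    (hx : PE k fun m n Y i _ => x m n Y i) : PI k fun m n Y => outM (p m n Y) (x m n Y) :=
  PE.toColM (PE.ite (PP.natEq PE.rowIdx (PE.nat 0)) hp
    (PE.sumR hk (PE.ite (PP.natEq PE.rowIdx (PE.natAdd PE.colIdx (PE.nat 2))) (PE.toCol hx)
      PE.zero)))

lemma pe_thr : PE k fun _ _ Y _ _ => thr (tOf (Y 0)) :=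
  PE.powT hk 2 (PE.div PE.one (PE.ofNat 2))

end comp

lemma pi_fin {s : ∀ m n, (ℕ → Mt m n) → Fin (NN m n) → ℝ}
    (hs : PE 4 fun m n Y i _ => s m n Y i) : PI 4 (finP s) := by
  have hk : 0 < 4 := by norm_num
  have hA : PI 4 fun _ _ Y => Y 1 := PI.var (by norm_num)
  have hb : PE 4 fun _ _ Y i _ => Y 2 i 0 := PE.vcol hk (by norm_num)
  have hc : PE 4 fun _ _ Y i _ => Y 3 i 0 := PE.vcol hk (by norm_num)
  exact pi_out hk (pp_chk hk hA hb hc (pe_xs hk hA hb hs) (pe_ys hk hA hc hs)) (pe_xs hk hA hb hs)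

/-- the state of the search as matrices -/
def code (m n : ℕ) (st : ℝ × ℝ × (Fin (NN m n) → ℝ)) : Fin 3 → Mt m n :=
  ![cst st.1, cst st.2.1, col st.2.2]

open Classical in
lemma pe_sel {Fy : MF} (hF : PI 4 Fy) : PE 4 fun m n Y i _ => selP Fy m n Y i := by
  have hk : 0 < 4 := by norm_num
  have hk' : 0 < 7 := by norm_num
  have hA : PI 7 fun _ _ Y => Y 1 := PI.var (by norm_num)
  have hb : PE 7 fun _ _ Y i _ => Y 2 i 0 := PE.vcol hk' (by norm_num)
  have hc : PE 7 fun _ _ Y i _ => Y 3 i 0 := PE.vcol hk' (by norm_num)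
  have hlo : PE 7 fun _ _ Y _ _ => Y 4 0 0 := PE.vent hk' (by norm_num)
  have hw : PE 7 fun _ _ Y _ _ => Y 5 0 0 / 2 := PE.div (PE.vent hk' (by norm_num)) (PE.ofNat 2)
  have hy : PE 7 fun _ _ Y i _ => Y 6 i 0 := PE.vcol hk' (by norm_num)
  have hu : PE 7 fun _ _ Y _ _ => Y 4 0 0 + Y 5 0 0 / 2 := PE.add hlo hw
  have hcd := pe_cd hk' hA hc (pe_lam hk' hF (pi_Gp hk' hA hb hc hu))
  have hab := pp_ab hk' hA hb hc hu hcd
  have h := PI.iter' (l := 3) hk 3 (St := fun m n => ℝ × ℝ × (Fin (NN m n) → ℝ)) code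
    (fun _ _ Y => (thr (tOf (Y 0)) ^ 3, 1 / thr (tOf (Y 0)) ^ 3, 0))
    (fun m n Y => stepP Fy m n (Y 0) (Y 1) (Y 2) (Y 3))
    (by
      intro j
      fin_cases j
      · exact PE.toCst (PE.pow (pe_thr hk) 3)
      · exact PE.toCst (PE.div PE.one (PE.pow (pe_thr hk) 3))
      · exact PE.toColM PE.zero)
    (fun j m n Y => code m n (stepP Fy m n (Y 0) (Y 1) (Y 2) (Y 3)
      (Y 4 0 0, Y 5 0 0, fun i => Y 6 i 0)) j)
    (by
      intro j
      fin_cases j
      · refine PI.congr (PE.toCst (PE.ite hab hlo hu)) fun m n Y => ?_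
        simp only [code, stepP, bstep]
        split_ifs <;> rfl
      · refine PI.congr (PE.toCst hw) fun m n Y => ?_
        simp only [code, stepP, bstep]
        split_ifs <;> rfl
      · refine PI.congr (PE.toColM (PE.ite hab hcd hy)) fun m n Y => ?_
        simp only [code, stepP, bstep]
        split_ifs <;> rfl)
    (by
      intro m n Y st j
      have h4 : ext 4 Y (code m n st) 4 = cst st.1 := ext_add Y (code m n st) 0
      have h5 : ext 4 Y (code m n st) 5 = cst st.2.1 := ext_add Y (code m n st) 1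
      have h6 : ext 4 Y (code m n st) 6 = col st.2.2 := ext_add Y (code m n st) 2
      simp only [h4, h5, h6, ext_lt Y (code m n st) (show 0 < 4 by norm_num),
        ext_lt Y (code m n st) (show 1 < 4 by norm_num),
        ext_lt Y (code m n st) (show 2 < 4 by norm_num),
        ext_lt Y (code m n st) (show 3 < 4 by norm_num)]
      rfl) 2
  exact PE.ite (PP.lt (pe_thr hk) (PE.col0 hk h.pe)) PE.one PE.zero

variable {m n : ℕ}

lemma m_le : m ≤ NN m n := by unfold NN; omega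
lemma m1_le : m + 1 ≤ NN m n := by unfold NN; omega
lemma n_le : n ≤ NN m n := by unfold NN; omega

lemma finP_env (s : ∀ m n, (ℕ → Mt m n) → Fin (NN m n) → ℝ) (D : Idx m n → ℝ) (t : ℕ) :
    finP s m n (env D t) = outM (Chk (pad (dA D)) (padv (db D)) (padv (dc D))
      (xs n (pad (dA D)) (padv (db D)) (s m n (env D t)))
      (ys n (pad (dA D)) (padv (dc D)) (s m n (env D t))))
      (xs n (pad (dA D)) (padv (db D)) (s m n (env D t))) := rfl

lemma outM_pos {p : Prop} {x : Fin (NN m n) → ℝ} : 0 < (outM p x : Mt m n) 0 0 ↔ p := by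
  by_cases h : p <;> simp [outM, h]

lemma outOf_zero (p : Prop) (x : Fin (NN m n) → ℝ) : outOf (outM p x : Mt m n) 0 = 0 := by
  simp [outOf, outM]

lemma outOf_succ (p : Prop) (x : Fin (NN m n) → ℝ) (j : Fin n) :
    outOf (outM p x : Mt m n) (j.val + 1) = rs n_le x j := by
  have hj : j.val + 1 + 1 < NN m n := by have := j.2; unfold NN; omega
  rw [outOf, dif_pos hj, outM, col_apply, if_neg (by simp),
    Finset.sum_eq_single (Fin.castLE n_le j)]
  · exact if_pos rfl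
  · intro l _ hl
    refine if_neg fun h => hl (Fin.ext ?_)
    simp only [Fin.val_castLE] at h ⊢
    omega
  · simp

lemma sound_fin (s : ∀ m n, (ℕ → Mt m n) → Fin (NN m n) → ℝ) : Sound (finP s) := by
  intro m n D t h
  rw [finP_env] at h ⊢
  have h1 := chk_sound m_le n_le (outM_pos.1 h)
  refine Or.inl ⟨outOf_zero _ _, ?_⟩
  simp only [outOf_succ]
  exact h1

lemma Gp_pad (D : Idx m n → ℝ) (u : ℝ) :
    (Gp m (pad (dA D)) (padv (db D)) (padv (dc D)) u : Mt m n) = pad (mat (Gu u D)) := by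
  have e1 : (padv (dc D) : Fin (NN m n) → ℝ) ⬝ᵥ padv (dc D) = dc D ⬝ᵥ dc D := by
    rw [padv_dot n_le, rs_padv]
  have e2 : (pad (dA D) : Mt m n) *ᵥ padv (dc D) = padv (dA D *ᵥ dc D) := by
    rw [pad_mulVec n_le, rs_padv]
  ext i j
  rw [Gp, e1, e2]
  by_cases hj : j.val < n
  · by_cases hi : i.val < m
    · simp [pad, padv, mat, Gu, hi, hj, hi.le]
    · by_cases hi' : i.val = m
      · simp [pad, padv, mat, Gu, hi', hj]
      · have : ¬i.val ≤ m := by omega
        simp [pad, hi, hi', this]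
  · simp [pad, padv, hj]

lemma abP_pad (D : Idx m n → ℝ) (u : ℝ) (y : Fin (NN m n) → ℝ) :
    abP m (pad (dA D)) (padv (db D)) (padv (dc D)) u y ↔ Abv D u (rs m_le y) := by
  rw [abP, Abv, DF, padv_dot m_le, padv_dot n_le, rs_padv, padT_mulVec m_le, and_assoc]
  refine and_congr ⟨fun h i => h _ (by simp), fun h i hi => h ⟨i.val, hi⟩⟩ (and_congr ?_ Iff.rfl)
  exact ⟨fun h => padv_inj n_le (funext h), fun h j => by rw [h]⟩

lemma cdP_pad (D : Idx m n → ℝ) (lam : Fin (m + 1) → ℝ) :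
    rs m_le (cdP (pad (dA D) : Mt m n) (padv (dc D)) (padv lam)) = cnd D lam := by
  have e0 : rs (m_le (m := m) (n := n)) (padv lam) = fun i => lam i.castSucc :=
    funext fun i => padv_cast m1_le lam i.castSucc
  funext i
  have e1 : (padv lam : Fin (NN m n) → ℝ) (Fin.castLE m_le i) = lam i.castSucc := congrFun e0 i
  rw [rs, cdP, cnd, e1, pad_mulVec n_le, rs_padv, dotProduct_comm (padv lam), padv_dot m_le,
    padv_dot n_le, rs_padv, e0, dotProduct_comm (dA D *ᵥ dc D)]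

end Opt

open Opt Matrix in
theorem solver_opt (O : Orc) (hO : O.Comp) : ∃ F, PI 4 F ∧ Sound F ∧
    ∀ (m n t : ℕ) (D : Idx m n → ℝ), 13 ≤ t → 1 ≤ n → n ≤ m → NonDeg (2 * thr t) D →
      (∃ x, Feasible D x) → (∃ y : Fin m → ℝ, (∀ i, 0 ≤ y i) ∧ (dA D)ᵀ *ᵥ y = dc D) →
      (∀ k, k ≤ 2 ^ (t ^ 3) → O.OK (NN m n) t (mat (Gu (uGrid t k) D))) →
      0 < F m n (env D t) 0 0 := by
  obtain ⟨Fx, Fy, -, hFy, hF⟩ := hO
  refine ⟨finP (selP Fy), pi_fin (pe_sel hFy), sound_fin _, ?_⟩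
  intro m n t D ht _ hnm hN hx hy hk
  obtain ⟨e, he, hye⟩ := exists_opt hnm hN hx hy
  have hI := inv_of hN
  have hlam : ∀ u, lamP Fy m n (cst t) (pad (mat (Gu u D))) =
      padv (O (NN m n) t _ _ (mat (Gu u D))).2 := fun u => by
    funext i
    rw [lamP, (hF m n t (m + 1) n (mat (Gu u D)) _ m1_le n_le rfl rfl rfl rfl).2, col_apply]
  have hmax : ∀ x', Feasible D x' → dc D ⬝ᵥ x' ≤ dc D ⬝ᵥ xv D e := fun x' hx' => by
    rw [xv, c_H, ← AT_yv hI e, dot_tr]
    exact Finset.sum_le_sum fun i _ => mul_le_mul_of_nonneg_left (hx' (e i)) (hye i)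
  have key := search_ok ht hN he hye hmax hk
    (abP m (pad (dA D) : Mt m n) (padv (db D)) (padv (dc D)))
    (fun u => cdP (pad (dA D)) (padv (dc D))
      (lamP Fy m n (cst t) (Gp m (pad (dA D)) (padv (db D)) (padv (dc D)) u)))
    (rs m_le) 0 (abP_pad D) (fun u => by rw [Gp_pad, hlam, cdP_pad])
  have hsel : ∀ k : Fin m, selP Fy m n (env D t) (Fin.castLE m_le k) =
      if k ∈ Set.range e then 1 else 0 := fun k => by
    have e0 : tOf (env D t 0) = t := tOf_cst t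
    rw [selP, e0]
    exact if_congr (key k) rfl rfl
  rw [finP_env, outM_pos]
  refine chk_ok m_le n_le hI (fun i => ?_) (fun k hk' => ?_) (fun k => ?_) he hye
  · rw [hsel, if_pos ⟨i, rfl⟩]
  · rw [hsel, if_neg hk']
  · rw [selP]
    split_ifs <;> norm_num

end Pool.Agent.P.MP_ef347d_lc
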