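import Pool.Agent.P.MP_ef347d_lc.Find
import Pool.Agent.P.MP_ef347d_lc.Good4

/-! Correctness of the padded Gordan solver and its failure probability. -/

namespace Pool.Agent.P.MP_ef347d_lc

open Matrix MeasureTheory ProbabilityTheory

namespace OrcOK

/-- inclusion of the first coordinates -/
def inc (N M : ℕ) : Matrix (Fin N) (Fin M) ℝ := Matrix.of fun i j => if i.val = j.val then 1 else 0

variable {N M d : ℕ}

lemma inc_T : (inc N M)ᵀ = inc M N := by
  ext i j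
  simp only [inc, transpose_apply, of_apply, eq_comm]

lemma inc_mulVec (x : Fin M → ℝ) : inc N M *ᵥ x = padv x := by
  funext i
  simp only [mulVec, dotProduct, inc, of_apply, padv, ite_mul, one_mul, zero_mul]
  split_ifs with h
  · rw [Finset.sum_eq_single ⟨i.val, h⟩]
    · simp
    · intro j _ hj
      rw [if_neg fun e => hj (Fin.ext e.symm)]
    · simp
  · refine Finset.sum_eq_zero fun j _ => if_neg fun e => h ?_
    rw [e]
    exact j.2

lemma incT_mulVec (h : M ≤ N) (y : Fin N → ℝ) (j : Fin M) :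
    ((inc N M)ᵀ *ᵥ y) j = y (Fin.castLE h j) := by
  rw [inc_T, inc_mulVec, padv, dif_pos (lt_of_lt_of_le j.2 h)]
  rfl

lemma incT_inc (h : M ≤ N) : (inc N M)ᵀ * inc N M = 1 := by
  ext i j
  have := incT_mulVec h (fun k => inc N M k j) i
  rw [mul_apply]
  refine this.trans ?_
  simp [inc, one_apply, Fin.ext_iff]

lemma inc_incT : inc N M * (inc N M)ᵀ = rmask N M := by
  ext i j
  have := congrFun (inc_mulVec (N := N) (fun k : Fin M => inc N M j k)) i
  rw [mul_apply]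
  refine this.trans ?_
  simp only [padv, inc, of_apply, rmask, diagonal_apply, Fin.ext_iff]
  split_ifs <;> first | rfl | omega

lemma pad_eq (A : Matrix (Fin M) (Fin d) ℝ) : pad (N := N) A = inc N M * A * (inc N d)ᵀ := by
  ext i j
  have h1 := congrFun (inc_mulVec (N := N) (fun k : Fin d => (inc N M * A) i k)) j
  have h2 : ∀ k : Fin d, (inc N M * A) i k = padv (fun l => A l k) i := fun k =>
    congrFun (inc_mulVec (N := N) (fun l => A l k)) i
  have h3 : (inc N M * A * (inc N d)ᵀ) i j = (inc N d *ᵥ fun k => (inc N M * A) i k) j := by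
    simp only [mul_apply, mulVec, dotProduct, transpose_apply]
    exact Finset.sum_congr rfl fun k _ => mul_comm _ _
  rw [h3, h1]
  simp only [pad, of_apply, padv, h2]
  by_cases a : i.val < M <;> by_cases b : j.val < d <;> simp [a, b]

lemma gramInv_eq (A : Matrix (Fin M) (Fin d) ℝ) (hM : M ≤ N) (hd : d ≤ N)
    (hA : IsUnit (Aᵀ * A).det) : gramInv (pad (N := N) A) d * (pad (N := N) A)ᵀ =
      inc N d * ((Aᵀ * A)⁻¹ * Aᵀ * (inc N M)ᵀ) := by
  have e1 : ∀ {k : ℕ} (X : Matrix (Fin d) (Fin k) ℝ), (inc N d)ᵀ * (inc N d * X) = X := by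
    intro k X
    rw [← Matrix.mul_assoc, incT_inc hd, Matrix.one_mul]
  have e2 : ∀ {k : ℕ} (X : Matrix (Fin M) (Fin k) ℝ), (inc N M)ᵀ * (inc N M * X) = X := by
    intro k X
    rw [← Matrix.mul_assoc, incT_inc hM, Matrix.one_mul]
  have e3 : ∀ {k : ℕ} (X : Matrix (Fin d) (Fin k) ℝ), Aᵀ * (A * ((Aᵀ * A)⁻¹ * X)) = X := by
    intro k X
    rw [← Matrix.mul_assoc, ← Matrix.mul_assoc, mul_nonsing_inv _ hA, Matrix.one_mul]
  have h : gramInv (pad (N := N) A) d =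
      inc N d * ((Aᵀ * A)⁻¹ * (inc N d)ᵀ) + (1 - inc N d * (inc N d)ᵀ) := by
    unfold gramInv
    apply inv_eq_right_inv
    rw [pad_eq, ← inc_incT]
    simp only [transpose_mul, transpose_transpose, Matrix.mul_assoc, Matrix.add_mul,
      Matrix.mul_add, Matrix.sub_mul, Matrix.mul_sub, Matrix.one_mul, Matrix.mul_one, e1, e2, e3]
    abel
  rw [h, pad_eq]
  simp only [transpose_mul, transpose_transpose, Matrix.mul_assoc, Matrix.add_mul,
    Matrix.sub_mul, Matrix.one_mul, e1]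
  abel

/-- a projector extended by the identity on the padding -/
def lift (N : ℕ) (R : Matrix (Fin M) (Fin M) ℝ) : Matrix (Fin N) (Fin N) ℝ :=
  inc N M * R * (inc N M)ᵀ + (1 - inc N M * (inc N M)ᵀ)

lemma pad_proj (A : Matrix (Fin M) (Fin d) ℝ) (hM : M ≤ N) (hd : d ≤ N)
    (hA : IsUnit (Aᵀ * A).det) : pad (N := N) A * gramInv (pad A) d * (pad A)ᵀ =
      inc N M * Pr A * (inc N M)ᵀ := by
  rw [Matrix.mul_assoc, gramInv_eq A hM hd hA, pad_eq, Matrix.mul_assoc,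
    ← Matrix.mul_assoc (inc N d)ᵀ, incT_inc hd, Matrix.one_mul]
  simp only [Pr, Matrix.mul_assoc]

variable {R : Matrix (Fin M) (Fin M) ℝ}

lemma isProj_lift (hM : M ≤ N) (hR : IsProj R) : IsProj (lift N R) := by
  have e2 : ∀ {k : ℕ} (X : Matrix (Fin M) (Fin k) ℝ), (inc N M)ᵀ * (inc N M * X) = X := by
    intro k X
    rw [← Matrix.mul_assoc, incT_inc hM, Matrix.one_mul]
  have e3 : ∀ {k : ℕ} (X : Matrix (Fin M) (Fin k) ℝ), R * (R * X) = R * X := by
    intro k X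
    rw [← Matrix.mul_assoc, hR.2]
  constructor
  · simp only [lift, transpose_add, transpose_sub, transpose_mul, transpose_transpose,
      transpose_one, hR.1, Matrix.mul_assoc]
  · simp only [lift, Matrix.mul_assoc, Matrix.add_mul,
      Matrix.mul_add, Matrix.sub_mul, Matrix.mul_sub, Matrix.one_mul, Matrix.mul_one, e2, e3]
    abel

lemma incT_lift (hM : M ≤ N) (w : Fin N → ℝ) :
    (inc N M)ᵀ *ᵥ (lift N R *ᵥ w) = R *ᵥ ((inc N M)ᵀ *ᵥ w) := by
  rw [mulVec_mulVec, mulVec_mulVec]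
  congr 1
  simp only [lift, Matrix.mul_add, Matrix.mul_sub, Matrix.mul_one, ← Matrix.mul_assoc,
    incT_inc hM, Matrix.one_mul]
  abel

lemma lift_out (w : Fin N → ℝ) {k : Fin N} (hk : ¬ k.val < M) : (lift N R *ᵥ w) k = w k := by
  rw [lift, add_mulVec, sub_mulVec, one_mulVec, Matrix.mul_assoc, ← mulVec_mulVec,
    ← mulVec_mulVec w (inc N M), inc_mulVec, inc_mulVec (N := N)]
  simp [padv, hk]

lemma central_lift (hM : M ≤ N) {μ : ℝ} {s : Fin N → ℝ} (h : Central (lift N R) μ s) :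
    Central R μ (fun j => s (Fin.castLE hM j)) ∧ ∀ k : Fin N, ¬ k.val < M → s k = μ := by
  refine ⟨⟨fun j => h.1 _, ?_, ?_⟩, fun k hk => ?_⟩
  · have := incT_lift (R := R) hM (fun k => s k - 1)
    rw [h.2.1, funext (incT_mulVec hM _)] at this
    exact this.symm
  · have := incT_lift (R := R) hM (fun k => μ / s k - 1)
    rw [h.2.2, funext (incT_mulVec hM fun k => μ / s k - 1), mulVec_zero] at this
    exact this.symm
  · have := lift_out (R := R) (fun k => μ / s k - 1) hk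
    rw [h.2.2] at this
    have h0 := (h.1 k).ne'
    have h1 : μ / s k = 1 := by
      simp only [Pi.zero_apply] at this
      linarith
    field_simp at h1
    exact h1.symm

lemma cgrid_pos (τ i : ℕ) : 0 < cgrid τ i := by unfold cgrid; positivity

lemma cgrid_succ {τ : ℕ} (hτ : 20 ≤ τ) (i : ℕ) :
    cgrid τ i ≤ cgrid τ (i + 1) ∧ cgrid τ (i + 1) ≤ 51 / 50 * cgrid τ i := by
  have h0 := cgrid_pos τ i
  have h1 : (20 : ℝ) ≤ τ := by exact_mod_cast hτ
  have h2 : (20 : ℝ) ^ 8 ≤ (τ : ℝ) ^ 8 := pow_le_pow_left₀ (by norm_num) h1 8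
  have h3 : 1 / (τ : ℝ) ^ 8 ≤ 1 / 50 := one_div_le_one_div_of_le (by norm_num) (by linarith)
  have h4 : 0 ≤ 1 / (τ : ℝ) ^ 8 := by positivity
  have e : cgrid τ (i + 1) = cgrid τ i * (1 + 1 / (τ : ℝ) ^ 8) := pow_succ _ _
  rw [e]
  constructor <;> nlinarith

lemma slow_lift (hM : M ≤ N) {τ : ℕ} (hτ : 20 ≤ τ) (h : Slow (21 / 20) R τ) :
    Slow (21 / 20) (lift N R) τ := by
  intro i hi s s' hs hs' k
  obtain ⟨a, b⟩ := central_lift hM hs
  obtain ⟨a', b'⟩ := central_lift hM hs'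
  by_cases hk : k.val < M
  · exact h i hi _ _ a a' ⟨k.val, hk⟩
  · rw [b k hk, b' k hk]
    have := cgrid_succ hτ i
    have := cgrid_pos τ i
    constructor <;> linarith

lemma slow_weak {τ : ℕ} (h : Slow (51 / 50) R τ) : Slow (21 / 20) R τ := by
  intro i hi s s' hs hs' k
  have := h i hi s s' hs hs' k
  have := hs.1 k
  have := hs'.1 k
  constructor <;> linarith

lemma slow_dual {τ : ℕ} (hτ : 20 ≤ τ) (h : Slow (51 / 50) R τ) : Slow (21 / 20) (1 - R) τ := by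
  intro i hi s s' hs hs' k
  have a := hs.dual (cgrid_pos _ _)
  have a' := hs'.dual (cgrid_pos _ _)
  rw [sub_sub_cancel] at a a'
  obtain ⟨h1, h2⟩ := h i hi _ _ a a' k
  have p := hs.1 k
  have p' := hs'.1 k
  obtain ⟨c1, c2⟩ := cgrid_succ hτ i
  have c0 := cgrid_pos τ i
  rw [← mul_div_assoc, div_le_div_iff₀ p' p] at h1
  rw [← mul_div_assoc, div_le_div_iff₀ p p'] at h2
  constructor
  · refine le_of_mul_le_mul_left ?_ c0
    nlinarith [mul_le_mul_of_nonneg_right c2 p.le, mul_pos c0 p]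
  · refine le_of_mul_le_mul_left ?_ c0
    nlinarith [mul_le_mul_of_nonneg_right c1 p.le, mul_pos c0 p']

lemma find_lift (hM : M ≤ N) (hR : IsProj R) {τ : ℕ} (hτ : 20 ≤ τ) (hN : N ≤ 2 ^ τ)
    (h : Slow (21 / 20) R τ) {s : Fin M → ℝ} (hs : Central R (cgrid τ (τ ^ 10)) s)
    (h2 : ∀ k, 2 < s k) :
    R *ᵥ ((inc N M)ᵀ *ᵥ find (lift N R) τ) = (inc N M)ᵀ *ᵥ find (lift N R) τ ∧
      ∀ k, 0 < ((inc N M)ᵀ *ᵥ find (lift N R) τ) k := by
  obtain ⟨f1, f2⟩ := find_ok (isProj_lift hM hR) hτ (by simpa using hN) (slow_lift hM hτ h)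
  refine ⟨by rw [← incT_lift hM, f1], fun k => ?_⟩
  obtain ⟨u, hu⟩ := exists_central (isProj_lift hM hR) (cgrid_pos τ (τ ^ 10))
  have e := congrFun (central_unique hR (cgrid_pos _ _) (central_lift hM hu).1 hs) k
  have := f2 u hu (Fin.castLE hM k)
  have := h2 k
  rw [incT_mulVec hM]
  linarith

lemma smul_unit {A : Matrix (Fin M) (Fin d) ℝ} (hA : IsUnit (Aᵀ * A).det) {σ : ℝ} (hσ : σ ≠ 0) :
    IsUnit ((σ • A)ᵀ * (σ • A)).det ∧ Pr (σ • A) = Pr A := by
  have e : (σ • A)ᵀ * (σ • A) = (σ * σ) • (Aᵀ * A) := by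
    rw [transpose_smul, Matrix.smul_mul, Matrix.mul_smul, smul_smul]
  constructor
  · rw [e, det_smul]
    exact (IsUnit.mk0 _ (pow_ne_zero _ (mul_ne_zero hσ hσ))).mul hA
  · have e2 : ((σ * σ) • (Aᵀ * A))⁻¹ = (σ * σ)⁻¹ • (Aᵀ * A)⁻¹ := by
      apply inv_eq_right_inv
      rw [Matrix.smul_mul, Matrix.mul_smul, smul_smul, mul_nonsing_inv _ hA,
        mul_inv_cancel₀ (mul_ne_zero hσ hσ), one_smul]
    unfold Pr
    rw [e, e2, transpose_smul]
    simp only [Matrix.smul_mul, Matrix.mul_smul, smul_smul]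
    rw [show σ * ((σ * σ)⁻¹ * σ) = 1 by field_simp, one_smul]

lemma not_fast (hR : IsProj R) {L μ : ℝ} (hL : 0 ≤ L) (hM : (M : ℝ) ≤ L ^ 2) : ¬ Fast L μ R := by
  rintro ⟨s, v, hs, hv, k, hk⟩
  have h1 := hR.orth hv.1 hv.2
  have h2 : ∑ j, v j * (1 - v j) = 0 := by
    rw [← h1]
    refine Finset.sum_congr rfl fun j _ => ?_
    have := (hs.1 j).ne'
    field_simp
  have h3 : v ⬝ᵥ v ≤ M := by
    have : ∑ j, v j * v j ≤ ∑ j : Fin M, (1 - 2 * (v j * (1 - v j))) :=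
      Finset.sum_le_sum fun j _ => by nlinarith [sq_nonneg (v j - 1)]
    rw [Finset.sum_sub_distrib, ← Finset.mul_sum, h2] at this
    simpa [dotProduct] using this
  have h4 := sq_le_dot v k
  have h5 : L ^ 2 < |v k| ^ 2 := pow_lt_pow_left₀ hk hL two_ne_zero
  rw [sq_abs] at h5
  linarith

lemma cgrid_big {τ : ℕ} (hτ : 60 ≤ τ) : Real.exp (15 * τ) ^ 2 ≤ cgrid τ (τ ^ 10) := by
  have h0 : (0 : ℝ) < (τ : ℝ) ^ 8 := by
    have : (0 : ℝ) < τ := by exact_mod_cast (by omega : 0 < τ)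
    positivity
  have h1 : (2 : ℝ) ≤ (1 + 1 / (τ : ℝ) ^ 8) ^ (τ ^ 8) := by
    have := one_add_mul_le_pow (a := 1 / (τ : ℝ) ^ 8)
      (le_trans (by norm_num) (one_div_pos.2 h0).le) (τ ^ 8)
    rw [Nat.cast_pow, mul_one_div_cancel h0.ne'] at this
    linarith
  have h2 : cgrid τ (τ ^ 10) = ((1 + 1 / (τ : ℝ) ^ 8) ^ (τ ^ 8)) ^ (τ ^ 2) := by
    rw [cgrid, ← pow_mul, ← pow_add]
  have h3 : Real.exp (15 * τ) ^ 2 = Real.exp 1 ^ (30 * τ) := by
    rw [← Real.exp_nat_mul, ← Real.exp_nat_mul]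
    congr 1
    push_cast
    ring
  rw [h2, h3]
  calc Real.exp 1 ^ (30 * τ) ≤ ((2 : ℝ) ^ 2) ^ (30 * τ) :=
        pow_le_pow_left₀ (Real.exp_pos _).le (by linarith [Real.exp_one_lt_three]) _
    _ ≤ 2 ^ (τ ^ 2) := by
        rw [← pow_mul]
        exact pow_le_pow_right₀ one_le_two (by nlinarith)
    _ ≤ _ := pow_le_pow_left₀ zero_le_two h1 _

lemma numer {τ M : ℕ} (hτ : 1000 ≤ τ) (hM : M ≤ 2 ^ τ) :
    ((M * τ ^ 10 : ℕ) : ℝ) * Real.exp (-15 * (τ : ℝ)) + 100 * (M : ℝ) ^ 4 / √(cgrid τ (τ ^ 10)) ≤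
      Real.exp (-10 * (τ : ℝ)) := by
  set x := Real.exp (τ : ℝ) with hx
  have hτ' : (1000 : ℝ) ≤ τ := by exact_mod_cast hτ
  have h1 : (M : ℝ) ≤ x := by
    have : (M : ℝ) ≤ 2 ^ τ := by exact_mod_cast hM
    refine this.trans ?_
    rw [hx, ← mul_one (τ : ℝ), Real.exp_nat_mul]
    exact pow_le_pow_left₀ zero_le_two (by linarith [Real.add_one_le_exp 1]) _
  have h2 : (τ : ℝ) ^ 10 ≤ 3628800 * x := by
    have := Real.pow_div_factorial_le_exp (τ : ℝ) (by linarith) 10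
    rw [div_le_iff₀ (by positivity)] at this
    norm_num [Nat.factorial] at this
    linarith
  have h3 : 7257600 ≤ x := by
    have := Real.pow_div_factorial_le_exp (τ : ℝ) (by linarith) 3
    norm_num [Nat.factorial] at this
    have := pow_le_pow_left₀ (by norm_num) hτ' 3
    linarith
  have hx0 : 0 < x := by linarith
  have e : ∀ k : ℕ, Real.exp (k * (τ : ℝ)) = x ^ k := fun k => Real.exp_nat_mul _ k
  have e15 : Real.exp (-15 * (τ : ℝ)) = 1 / x ^ 15 := by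
    rw [← e, one_div, ← Real.exp_neg]
    norm_num
  have e10 : Real.exp (-10 * (τ : ℝ)) = 1 / x ^ 10 := by
    rw [← e, one_div, ← Real.exp_neg]
    norm_num
  have h4 : x ^ 15 ≤ √(cgrid τ (τ ^ 10)) := by
    apply Real.le_sqrt_of_sq_le
    have := cgrid_big (τ := τ) (by omega)
    rwa [show (15 : ℝ) = (15 : ℕ) by norm_num, e] at this
  have h5 : 100 * (M : ℝ) ^ 4 / √(cgrid τ (τ ^ 10)) ≤ 100 * x ^ 4 / x ^ 15 := by gcongr
  have h6 : ((M * τ ^ 10 : ℕ) : ℝ) ≤ x * (3628800 * x) := by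
    push_cast
    gcongr
  have h7 : x * (3628800 * x) ≤ x ^ 5 / 2 := by
    have : 1 * x ≤ x ^ 2 * x := mul_le_mul_of_nonneg_right (by nlinarith) hx0.le
    nlinarith [sq_nonneg x]
  have h8 : 100 * x ^ 4 ≤ x ^ 5 / 2 := by nlinarith [pow_pos hx0 4]
  rw [e15, e10]
  calc _ ≤ x ^ 5 / 2 * (1 / x ^ 15) + x ^ 5 / 2 / x ^ 15 := by
        refine add_le_add (mul_le_mul_of_nonneg_right (h6.trans h7) (by positivity)) (h5.trans ?_)
        gcongr
    _ = _ := by field_simp; norm_num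

end OrcOK

open OrcOK

theorem orc_ok {N M d t : ℕ} (A : Matrix (Fin M) (Fin d) ℝ) (hM : M ≤ N) (hd : d ≤ N)
    (ht : 20 ≤ t ^ 3) (hN : N ≤ 2 ^ (t ^ 3)) (hA : IsUnit (Aᵀ * A).det)
    (hs : Slow (51 / 50) (Pr A) (t ^ 3))
    (hf : ¬ ∃ s, Central (Pr A) (cgrid (t ^ 3) ((t ^ 3) ^ 10)) s ∧ (∃ k, s k ≤ 2) ∧
      ∃ k, cgrid (t ^ 3) ((t ^ 3) ^ 10) / s k ≤ 2) : orc.OK N t A := by
  have hP := isProj_Pr hA
  obtain ⟨s, hc⟩ := exists_central hP (cgrid_pos (t ^ 3) ((t ^ 3) ^ 10))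
  by_cases h1 : ∃ k, s k ≤ 2
  · right
    have h2 : ∀ k, 2 < cgrid (t ^ 3) ((t ^ 3) ^ 10) / s k := fun k =>
      not_le.1 fun h => hf ⟨s, hc, h1, k, h⟩
    obtain ⟨a, b⟩ := find_lift hM hP.compl ht hN (slow_dual ht hs) (hc.dual (cgrid_pos _ _)) h2
    have e : (orc N t M d A).2 = (inc N M)ᵀ *ᵥ find (lift N (1 - Pr A)) (t ^ 3) := by
      simp only [orc]
      rw [pad_proj A hM hd hA, ← inc_mulVec, inc_T]
      congr 2
      rw [lift, inc_T, Matrix.mul_sub, Matrix.sub_mul, Matrix.mul_one]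
      abel
    unfold Orc.Dua
    rw [e]
    refine ⟨b, (Pr_zero_iff hA _).1 ?_⟩
    rw [sub_mulVec, one_mulVec] at a
    exact sub_eq_self.1 a
  · left
    have h2 : ∀ k, 2 < s k := fun k => not_le.1 fun h => h1 ⟨k, h⟩
    obtain ⟨a, b⟩ := find_lift hM hP ht hN (slow_weak hs) hc h2
    have e : A *ᵥ (orc N t M d A).1 = Pr A *ᵥ ((inc N M)ᵀ *ᵥ find (lift N (Pr A)) (t ^ 3)) := by
      simp only [orc]
      rw [pad_proj A hM hd hA, gramInv_eq A hM hd hA, ← inc_mulVec, ← inc_T, ← inc_incT,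
        mulVec_mulVec, mulVec_mulVec, mulVec_mulVec, Matrix.mul_assoc,
        ← Matrix.mul_assoc (inc N d)ᵀ, incT_inc hd, Matrix.one_mul]
      simp only [lift, Pr, Matrix.mul_assoc]
    intro i
    rw [e, a]
    exact b i

theorem orc_tail (h : SpeedTail) : orc.Tail := by
  obtain ⟨τ₀, h⟩ := h
  refine ⟨max τ₀ 1000, fun N t M d ht hd hdM hMN hN hb σ hσ => ?_⟩
  have ht1 : 1000 ≤ t := (le_max_right _ _).trans ht
  have ht3 : t ≤ t ^ 3 := Nat.le_self_pow (by norm_num) t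
  set τ := t ^ 3 with hτ
  have hN' : N ≤ 2 ^ τ := hN.trans (Nat.pow_le_pow_right two_pos ht3)
  have hτ1 : 1000 ≤ τ := ht1.trans ht3
  have hfast : ∀ j ∈ Finset.Ico 1 (M * τ ^ 10), gam (Fin M × Fin d)
      {z | IsUnit ((mat z)ᵀ * mat z).det ∧ Fast ((τ : ℝ) ^ 7) (fgrid τ M j) (Pr (mat z))} ≤
        ENNReal.ofReal (Real.exp (-15 * (τ : ℝ))) := by
    intro j hj
    rcases le_or_gt M (τ ^ 13) with h1 | h1
    · refine le_trans (le_of_eq (measure_mono_null (t := ∅) ?_ measure_empty)) zero_le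
      rintro z ⟨hz, hz'⟩
      refine not_fast (isProj_Pr hz) (by positivity) ?_ hz'
      have : M ≤ (τ ^ 7) ^ 2 := by
        rw [← pow_mul]
        exact h1.trans (Nat.pow_le_pow_right (by omega) (by norm_num))
      exact_mod_cast this
    · have h2 : t ^ 2 ≤ τ ^ 13 := by
        rw [hτ, ← pow_mul]
        exact Nat.pow_le_pow_right (by omega) (by norm_num)
      have h3 : M ≤ 4 * d ∧ 4 * d ≤ 3 * M := hb.resolve_left (by omega)
      refine h τ M d (((le_max_left _ _).trans ht).trans ht3) h1 (hMN.trans hN') h3.1 h3.2 _ ?_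
      have hj1 : (0 : ℝ) < j := by exact_mod_cast (Finset.mem_Ico.1 hj).1
      have hM1 : (0 : ℝ) < M := by exact_mod_cast (by omega : 0 < M)
      have hτ0 : (0 : ℝ) < τ := by exact_mod_cast (by omega : 0 < τ)
      refine Real.one_lt_rpow ?_ (div_pos hj1 hM1)
      have : 0 < 1 / (τ : ℝ) ^ 8 := by positivity
      linarith
  have hμ : 4 ≤ cgrid τ (τ ^ 10) := by
    refine le_trans ?_ (cgrid_big (by omega))
    have : (1000 : ℝ) ≤ τ := by exact_mod_cast hτ1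
    nlinarith [Real.add_one_le_exp (15 * (τ : ℝ))]
  have hfin := good_final hd hdM _ hμ
  have hrank := gam_rank (ι := Fin M) (κ := Fin d) (by simpa using hdM)
  rw [ae_iff] at hrank
  have hsub : {z : Fin M × Fin d → ℝ | ¬ orc.OK N t (σ • mat z)} ⊆
      {z | ¬ IsUnit ((mat z)ᵀ * mat z).det} ∪ ((⋃ j ∈ Finset.Ico 1 (M * τ ^ 10),
        {z | IsUnit ((mat z)ᵀ * mat z).det ∧ Fast ((τ : ℝ) ^ 7) (fgrid τ M j) (Pr (mat z))}) ∪
        {z | IsUnit ((mat z)ᵀ * mat z).det ∧ ∃ s, Central (Pr (mat z)) (cgrid τ (τ ^ 10)) s ∧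
          (∃ k, s k ≤ 2) ∧ ∃ k, cgrid τ (τ ^ 10) / s k ≤ 2}) := by
    intro z hz
    by_contra hc
    simp only [Set.mem_union, Set.mem_iUnion, Set.mem_ofPred_eq, not_or, not_not] at hc
    obtain ⟨c1, c2, c3⟩ := hc
    obtain ⟨u1, u2⟩ := smul_unit c1 hσ
    refine hz (orc_ok _ hMN (hdM.trans hMN) (by omega) hN' u1 ?_ ?_)
    · rw [u2]
      exact slow_of_speed (isProj_Pr c1) hτ1 fun j a b c =>
        c2 ⟨j, Finset.mem_Ico.2 ⟨a, b⟩, c1, c⟩
    · rw [u2]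
      exact fun hh => c3 ⟨c1, hh⟩
  refine (measure_mono hsub).trans ((measure_union_le _ _).trans ?_)
  rw [hrank, zero_add]
  refine (measure_union_le _ _).trans ((add_le_add ((measure_biUnion_finset_le _ _).trans
    (Finset.sum_le_card_nsmul _ _ _ hfast)) hfin).trans ?_)
  have e : ((t : ℝ)) ^ 3 = (τ : ℝ) := by rw [hτ, Nat.cast_pow]
  rw [e]
  refine le_trans ?_ (ENNReal.ofReal_le_ofReal (numer hτ1 (hMN.trans hN')))
  rw [ENNReal.ofReal_add (by positivity) (by positivity), ENNReal.ofReal_mul (by positivity),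
    ENNReal.ofReal_natCast, nsmul_eq_mul, Nat.card_Ico]
  gcongr
  omega

end Pool.Agent.P.MP_ef347d_lc
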