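import Pool.Agent.P.MP_ef347d_lc.Calc

/-! The path following solver is in the matrix language. -/

namespace Pool.Agent.P.MP_ef347d_lc

open Matrix

variable {k : ℕ}

lemma PI.sproj (hk : 0 < k) {F : MF} (hF : PI k F) {s : ∀ m n, (ℕ → Mt m n) → Fin (NN m n) → ℝ}
    (hs : PE k (fun m n Y i _ => s m n Y i)) : PI k (fun m n Y => sproj (F m n Y) (s m n Y)) := by
  have h1 := PI.diagonal (x := fun m n Y i => 1 / s m n Y i) (PE.div PE.one hs)
  have h2 := PI.diagonal (x := fun m n Y i => 1 / s m n Y i ^ 2) (PE.div PE.one (PE.pow hs 2))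
  have h3 := PI.sub PI.one hF
  refine PI.mul hk (PI.mul hk (PI.mul hk h1 (PI.inv hk (PI.add (PI.mul hk (PI.mul hk
    (PI.transpose hF) h2) hF) (PI.mul hk (PI.transpose h3) h3)) fun m n Y => ?_)) hF) h1
  simp only [transpose_add, transpose_mul, transpose_transpose, diagonal_transpose, Matrix.mul_assoc]

lemma PE.clip {f : EF ℝ} (hf : PE k f) : PE k (fun m n Y i j => clip (f m n Y i j)) :=
  PE.max (PE.div (PE.ofNat 5) (PE.ofNat 6)) (PE.min hf (PE.div (PE.ofNat 6) (PE.ofNat 5)))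

lemma orcpm_corr : PI 3 (fun _ _ Y =>
    col ((corr (Y 1) fun j => Y 2 j 0)^[tOf (Y 0) ^ 3] fun _ => 1)) := by
  refine PI.iter' (l := 1) (by norm_num) 3 (St := fun m n => Fin (NN m n) → ℝ)
    (fun _ _ x _ => col x) (fun _ _ _ _ => 1) (fun _ _ Y => corr (Y 1) fun j => Y 2 j 0)
    (fun _ => PE.one) (fun _ _ _ Y => col (corr (Y 1) (fun j => Y 2 j 0) fun j => Y 3 j 0))
    (fun _ => ?_) (fun m n Y x _ => ?_) 0
  · have h := PE.clip (PE.vcol (k := 3 + 1) (i := 3) (by norm_num) (by norm_num))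
    exact PE.add PE.one (PE.mulVec (by norm_num) (PI.var (by norm_num)) (PE.sub (PE.sub
      (PE.add h (PE.div PE.one h)) PE.one) (PE.vcol (by norm_num) (by norm_num))))
  · rw [ext_lt _ _ (by norm_num : 1 < 3), ext_lt _ _ (by norm_num : 2 < 3), ext_self]
    rfl

lemma PE.corrT (hk : 0 < k) {Q : MF} (hQ : PI k Q) {g : ∀ m n, (ℕ → Mt m n) → Fin (NN m n) → ℝ}
    (hg : PE k (fun m n Y i _ => g m n Y i)) : PE k (fun m n Y i _ =>
      (corr (Q m n Y) (g m n Y))^[tOf (Y 0) ^ 3] (fun _ => 1) i) :=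
  PI.call hk orcpm_corr (fun i => if i = 1 then Q else fun m n Y => col (g m n Y))
    fun i _ _ => by
      split_ifs
      exacts [hQ, hg]

lemma orcpm_find : PI 2 (fun _ _ Y => col (find (Y 1) (tOf (Y 0) ^ 3))) := by
  have h := PI.iter' (k := 2) (l := 2) (by norm_num) 30
    (St := fun m n => (Fin (NN m n) → ℝ) × ℝ) (fun _ _ x => ![col x.1, cst x.2])
    (fun _ _ _ => (fun _ => 1, 1)) (fun _ _ Y => cstep (Y 1) (tOf (Y 0) ^ 3))
    (by intro j; fin_cases j <;> exact PE.one)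
    (fun j _ _ Y => ![col (cstep (Y 1) (tOf (Y 0) ^ 3) (fun i => Y 2 i 0, Y 3 0 0)).1,
      cst (cstep (Y 1) (tOf (Y 0) ^ 3) (fun i => Y 2 i 0, Y 3 0 0)).2] j) ?_ ?_ 0
  · refine PE.congr (PE.sub h.pe PE.one) fun m n Y i j => ?_
    rw [find, ← pow_mul]
    rfl
  · have h1 := PE.vcol (k := 2 + 2) (i := 2) (by norm_num) (by norm_num)
    have h2 : PE (2 + 2) fun _ _ Y _ _ => Y 3 0 0 * (1 + 1 / ((tOf (Y 0) ^ 3 : ℕ) : ℝ) ^ 8) :=
      PE.mul (PE.vent (by norm_num) (by norm_num)) (PE.add PE.one (PE.div PE.one (PE.pow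
        ((PE.pow (PE.tnat (by norm_num)) 3).congr fun _ _ _ _ _ => (Nat.cast_pow _ _).symm) 8)))
    intro j
    fin_cases j
    · exact PE.mul h1 (PE.corrT (by norm_num) (PI.sproj (by norm_num) (PI.var (by norm_num)) h1)
        (PE.div h1 h2))
    · exact h2
  · intro m n Y x j
    have h0 := ext_add (k := 2) Y ![col x.1, cst x.2] 0
    have h1 := ext_add (k := 2) Y ![col x.1, cst x.2] 1
    rw [ext_lt _ _ (by norm_num : 0 < 2), ext_lt _ _ (by norm_num : 1 < 2),
      show ext 2 Y ![col x.1, cst x.2] 2 = col x.1 from h0,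
      show ext 2 Y ![col x.1, cst x.2] 3 = cst x.2 from h1]
    rfl

lemma PE.find (hk : 0 < k) {P : MF} (hP : PI k P) :
    PE k (fun m n Y i _ => find (P m n Y) (tOf (Y 0) ^ 3) i) :=
  PI.call hk orcpm_find (fun _ => P) fun _ _ _ => hP

lemma orcpm_padv {N M : ℕ} (x : Fin N → ℝ) (i : Fin N) :
    padv (N := N) (padv (N := M) x) i = if (i.val : ℝ) < M then x i else 0 := by
  simp only [padv, Nat.cast_lt, i.2, dif_pos]
  split_ifs <;> rfl

theorem orc_comp : orc.Comp := by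
  have hm : ∀ i < 4, PP 4 fun _ _ Y a _ => (a.val : ℝ) < Y i 0 0 :=
    fun i hi => PP.lt PE.rowIdx (PE.vent (by norm_num) hi)
  have hr : ∀ i < 4, PI 4 fun _ _ Y => 1 - diagonal fun a => if (a.val : ℝ) < Y i 0 0 then 1 else 0 :=
    fun i hi => PI.sub PI.one (PI.diagonal (PE.ite (hm i hi) PE.one PE.zero))
  have hA : PI 4 fun _ _ Y => Y 1 := PI.var (by norm_num)
  have hG := PI.inv (by norm_num) (PI.add (PI.mul (by norm_num) hA.transpose hA)
    (hr 3 (by norm_num))) fun m n Y => by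
      simp only [transpose_add, transpose_mul, transpose_transpose, transpose_sub, transpose_one,
        diagonal_transpose]
  have hP := PI.mul (by norm_num) (PI.mul (by norm_num) hA hG) hA.transpose
  refine ⟨_, _, PE.ite (hm 3 (by norm_num)) (PE.mulVec (by norm_num)
    (PI.mul (by norm_num) hG hA.transpose) (PE.find (by norm_num) (hP.add (hr 2 (by norm_num)))))
    PE.zero, PE.ite (hm 2 (by norm_num)) (PE.find (by norm_num) (PI.one.sub hP)) PE.zero, ?_⟩
  intro m n t M d A Y _ _ h0 h1 h2 h3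
  constructor <;> ext i j <;>
    simp only [h0, h1, h2, h3, orc, col_apply, orcpm_padv, of_apply, cst_apply,
      tOf_cst, gramInv, rmask, Nat.cast_lt]

end Pool.Agent.P.MP_ef347d_lc
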