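import Pool.Agent.P.MP_ef347d_lc.Mach
import Pool.Agent.P.MP_ef347d_lc.All
import Pool.Agent.P.MP_ef347d_lc.Opt
import Pool.Agent.P.MP_ef347d_lc.Brute
import Pool.Agent.P.MP_ef347d_lc.OrcPM
import Pool.Agent.P.MP_ef347d_lc.OrcOK
import Pool.Agent.P.MP_ef347d_lc.GoodT
import Pool.Agent.P.MP_ef347d_lc.Final

/-! Assembly of the algorithm and of its analysis, given the tail bound for the speed. -/

namespace Pool.Agent.P.MP_ef347d_lc

open Matrix MeasureTheory ProbabilityTheory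

theorem PI.toPM {k : ℕ} {F : MF} (h : PI k F) : PM k F := by
  induction h with
  | var hi => exact PM.var hi
  | num c => exact PM.num c
  | rows => exact PM.rows
  | cols => exact PM.cols
  | rowIdx => exact PM.rowIdx
  | op o _ _ h1 h2 => exact PM.op o h1 h2
  | transpose _ h1 => exact PM.transpose h1
  | mul hk _ _ h1 h2 => exact PM.mul hk h1 h2
  | inv hk _ hs h1 => exact PM.inv hk h1 hs
  | call hk _ g _ h1 h2 => exact PM.call hk h1 g h2
  | iter hk a init body _ _ j h1 h2 => exact PM.iter hk a init body h1 h2 j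

theorem main_of (hS : SpeedTail) :
    ∃ (prog : Cmd) (C : ℝ) (k₁ k₂ : ℕ),
      (∀ (m n : ℕ) (D : Idx m n → ℝ), ∃ σ T, Exec m n ((m + n + 3) ^ 4) prog (input D) σ T ∧
        Solves D σ) ∧
      ∀ m n : ℕ, 1 ≤ m → 1 ≤ n → ∀ s : ℝ, 0 < s → s ≤ 1 → ∀ D₀ : Idx m n → ℝ, D₀ ⬝ᵥ D₀ ≤ 1 →
        ∃ time : (Idx m n → ℝ) → ENNReal, Measurable time ∧
          (∀ D σ T, Exec m n ((m + n + 3) ^ 4) prog (input D) σ T → (T : ENNReal) ≤ time D) ∧
          ∫⁻ Z, time (D₀ + s • Z) ∂(Measure.pi fun _ : Idx m n => gaussianReal 0 1) ≤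
            ENNReal.ofReal (C * s⁻¹ ^ k₁ * (1 + Real.log (m * n)) ^ k₂) := by
  obtain ⟨F, hF, hs, hg, hb⟩ := solver_all_of orc orc_comp (solver_opt orc orc_comp) solver_brute
  obtain ⟨t₀, ht⟩ := good_tail orc (orc_tail hS)
  refine final_of (machine_main hF.toPM) hs hb (t₀ + 13) fun m n t hm hn h1 h2 σ h3 h4 => ?_
  refine le_trans (measure_mono ?_) (ht m n t hm hn (by omega) h2 σ h3 h4)
  exact fun Z hZ hG => hZ (hg m n t _ (by omega) hn hG)

end Pool.Agent.P.MP_ef347d_lc
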