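import Pool.Agent.P.MP_ef347d_lc.Basic2

/-! Linear programming theory for the optimal case: vertices, the matrix `G_u`, the basis. -/

namespace Pool.Agent.P.MP_ef347d_lc
namespace Opt

open Matrix

variable {m n : ℕ}

/-- dual feasibility -/
def DF (D : Idx m n → ℝ) (y : Fin m → ℝ) : Prop := (∀ i, 0 ≤ y i) ∧ (dA D)ᵀ *ᵥ y = dc D

lemma dot_tr (A : Matrix (Fin m) (Fin n) ℝ) (y : Fin m → ℝ) (x : Fin n → ℝ) :
    (Aᵀ *ᵥ y) ⬝ᵥ x = y ⬝ᵥ (A *ᵥ x) := by
  rw [dotProduct_mulVec, mulVec_transpose]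

lemma le_of_feas {D : Idx m n → ℝ} {x : Fin n → ℝ} {y : Fin m → ℝ} (hx : Feasible D x)
    (hy : ∀ i, 0 ≤ y i) : y ⬝ᵥ (dA D *ᵥ x) ≤ db D ⬝ᵥ y := by
  rw [dotProduct_comm (db D)]
  exact Finset.sum_le_sum fun i _ => mul_le_mul_of_nonneg_left (hx i) (hy i)

lemma weak {D : Idx m n → ℝ} {x : Fin n → ℝ} {y : Fin m → ℝ} (hx : Feasible D x)
    (hy : DF D y) : dc D ⬝ᵥ x ≤ db D ⬝ᵥ y := by
  rw [← hy.2, dot_tr]
  exact le_of_feas hx hy.1

/-- inverse basis matrix -/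
noncomputable def Hm (D : Idx m n → ℝ) (e : Fin n ↪o Fin m) : Matrix (Fin n) (Fin n) ℝ :=
  ((dA D).submatrix e id)⁻¹

/-- basic primal point -/
noncomputable def xv (D : Idx m n → ℝ) (e : Fin n ↪o Fin m) : Fin n → ℝ :=
  Hm D e *ᵥ fun i => db D (e i)

/-- basic dual point -/
noncomputable def yv (D : Idx m n → ℝ) (e : Fin n ↪o Fin m) : Fin n → ℝ := (Hm D e)ᵀ *ᵥ dc D

/-- all bases are invertible -/
def Inv (D : Idx m n → ℝ) : Prop :=
  ∀ e : Fin n ↪o Fin m, IsUnit ((dA D).submatrix e id).det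

lemma sub_mulVec (D : Idx m n → ℝ) (e : Fin n ↪o Fin m) (x : Fin n → ℝ) (i : Fin n) :
    (dA D *ᵥ x) (e i) = ((dA D).submatrix e id *ᵥ x) i := rfl

lemma AH {D : Idx m n → ℝ} (h : Inv D) (e : Fin n ↪o Fin m) (v : Fin n → ℝ) (i : Fin n) :
    (dA D *ᵥ (Hm D e *ᵥ v)) (e i) = v i := by
  rw [sub_mulVec, mulVec_mulVec, Hm, mul_nonsing_inv _ (h e), one_mulVec]

lemma HA {D : Idx m n → ℝ} (h : Inv D) (e : Fin n ↪o Fin m) {x v : Fin n → ℝ}
    (hx : ∀ i, (dA D *ᵥ x) (e i) = v i) : x = Hm D e *ᵥ v := by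
  have : v = (dA D).submatrix e id *ᵥ x := funext fun i => (hx i).symm
  rw [this, mulVec_mulVec, Hm, nonsing_inv_mul _ (h e), one_mulVec]

lemma c_H (D : Idx m n → ℝ) (e : Fin n ↪o Fin m) (v : Fin n → ℝ) :
    dc D ⬝ᵥ (Hm D e *ᵥ v) = yv D e ⬝ᵥ v := by
  rw [yv, dot_tr]

lemma AT_yv {D : Idx m n → ℝ} (h : Inv D) (e : Fin n ↪o Fin m) :
    ((dA D).submatrix e id)ᵀ *ᵥ yv D e = dc D := by
  rw [yv, mulVec_mulVec, ← transpose_mul, Hm, nonsing_inv_mul _ (h e), transpose_one, one_mulVec]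

open Classical in
lemma dom_step (hnm : n ≤ m) {D : Idx m n → ℝ} (h : Inv D) {y : Fin m → ℝ} (hy : DF D y)
    {x : Fin n → ℝ} (hx : Feasible D x) :
    (∃ e, x = xv D e) ∨ ∃ x', Feasible D x' ∧ dc D ⬝ᵥ x ≤ dc D ⬝ᵥ x' ∧
      (Finset.univ.filter fun k => (dA D *ᵥ x') k ≠ db D k).card <
        (Finset.univ.filter fun k => (dA D *ᵥ x) k ≠ db D k).card := by
  set T : Finset (Fin m) := Finset.univ.filter fun k => (dA D *ᵥ x) k = db D k with hT
  have hTm : ∀ k, k ∈ T ↔ (dA D *ᵥ x) k = db D k := fun k => by simp [hT]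
  by_cases hc : n ≤ T.card
  · obtain ⟨u, hu, hun⟩ := Finset.exists_subset_card_eq hc
    refine Or.inl ⟨u.orderEmbOfFin hun, HA h _ fun i => ?_⟩
    exact (hTm _).1 (hu (Finset.orderEmbOfFin_mem u hun i))
  right
  obtain ⟨u, hTu, -, hun⟩ := Finset.exists_subsuperset_card_eq (Finset.subset_univ T)
    (n := n) (by omega) (by simpa using hnm)
  obtain ⟨k₁, hk₁u, hk₁T⟩ : ∃ k ∈ u, k ∉ T := by
    by_contra hne
    push Not at hne
    have := Finset.card_le_card (show u ⊆ T from hne)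
    omega
  set e := u.orderEmbOfFin hun with he
  have hr : ∀ k ∈ u, ∃ i, e i = k := fun k hk => by
    have : k ∈ Set.range e := by rw [he, Finset.range_orderEmbOfFin]; exact hk
    exact this
  obtain ⟨i₀, hi₀⟩ := hr k₁ hk₁u
  have hd : ∃ d : Fin n → ℝ, (∀ k ∈ T, (dA D *ᵥ d) k = 0) ∧ 0 ≤ dc D ⬝ᵥ d ∧
      ∃ k, 0 < (dA D *ᵥ d) k := by
    have h0 : ∀ k ∈ T, (dA D *ᵥ (Hm D e *ᵥ Pi.single i₀ 1)) k = 0 := fun k hk => by
      obtain ⟨j, rfl⟩ := hr k (hTu hk)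
      rw [AH h]
      exact Pi.single_eq_of_ne (fun hj => hk₁T (by rw [← hi₀, ← hj]; exact hk)) _
    rcases le_or_gt 0 (dc D ⬝ᵥ (Hm D e *ᵥ Pi.single i₀ 1)) with h1 | h1
    · exact ⟨_, h0, h1, e i₀, by rw [AH h]; simp⟩
    · refine ⟨-(Hm D e *ᵥ Pi.single i₀ 1), fun k hk => by rw [mulVec_neg, Pi.neg_apply, h0 k hk, neg_zero],
        by rw [dotProduct_neg]; linarith, ?_⟩
      by_contra hne
      push Not at hne
      have h2 : dc D ⬝ᵥ (-(Hm D e *ᵥ Pi.single i₀ 1)) ≤ 0 := by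
        rw [← hy.2, dot_tr]
        exact Finset.sum_nonpos fun i _ => mul_nonpos_of_nonneg_of_nonpos (hy.1 i) (hne i)
      rw [dotProduct_neg] at h2
      linarith
  obtain ⟨d, hd0, hdc, hdk⟩ := hd
  obtain ⟨k₀, hk₀, hmin⟩ := Finset.exists_min_image
    (Finset.univ.filter fun k => 0 < (dA D *ᵥ d) k)
    (fun k => (db D k - (dA D *ᵥ x) k) / (dA D *ᵥ d) k) (by
      obtain ⟨k, hk⟩ := hdk
      exact ⟨k, by simpa using hk⟩)
  have hk₀' : 0 < (dA D *ᵥ d) k₀ := by simpa using hk₀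
  set s := (db D k₀ - (dA D *ᵥ x) k₀) / (dA D *ᵥ d) k₀ with hs
  have hs0 : 0 ≤ s := div_nonneg (sub_nonneg.2 (hx k₀)) hk₀'.le
  have hA : ∀ k, (dA D *ᵥ (x + s • d)) k = (dA D *ᵥ x) k + s * (dA D *ᵥ d) k := fun k => by
    rw [mulVec_add, mulVec_smul]; rfl
  refine ⟨x + s • d, fun k => ?_, ?_, ?_⟩
  · rw [hA]
    rcases le_or_gt ((dA D *ᵥ d) k) 0 with h1 | h1
    · have := mul_nonpos_of_nonneg_of_nonpos hs0 h1
      linarith [hx k]
    · have := hmin k (by simpa using h1)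
      rw [le_div_iff₀ h1] at this
      linarith
  · rw [dotProduct_add, dotProduct_smul, smul_eq_mul]
    linarith [mul_nonneg hs0 hdc]
  · refine Finset.card_lt_card ⟨fun k hk => ?_, fun hsub => ?_⟩
    · simp only [Finset.mem_filter, Finset.mem_univ, true_and] at hk ⊢
      intro h1
      exact hk (by rw [hA, hd0 k ((hTm k).2 h1), h1]; simp)
    · have h1 : (dA D *ᵥ x) k₀ ≠ db D k₀ := fun h2 => by
        have := hd0 k₀ ((hTm _).2 h2)
        linarith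
      have h2 := hsub (show k₀ ∈ Finset.univ.filter fun k => (dA D *ᵥ x) k ≠ db D k by
        simpa using h1)
      simp only [Finset.mem_filter, Finset.mem_univ, true_and] at h2
      refine h2 ?_
      rw [hA, hs, div_mul_cancel₀ _ hk₀'.ne']
      ring

open Classical in
lemma dom (hnm : n ≤ m) {D : Idx m n → ℝ} (h : Inv D) {y : Fin m → ℝ} (hy : DF D y)
    {x : Fin n → ℝ} (hx : Feasible D x) :
    ∃ e, Feasible D (xv D e) ∧ dc D ⬝ᵥ x ≤ dc D ⬝ᵥ xv D e := by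
  generalize hr : (Finset.univ.filter fun k => (dA D *ᵥ x) k ≠ db D k).card = r
  induction r using Nat.strong_induction_on generalizing x with
  | _ r ih =>
    rcases dom_step hnm h hy hx with ⟨e, rfl⟩ | ⟨x', hx', hle, hlt⟩
    · exact ⟨e, hx, le_rfl⟩
    · obtain ⟨e, he, he'⟩ := ih _ (hr ▸ hlt) hx' rfl
      exact ⟨e, he, hle.trans he'⟩

lemma inv_of {η : ℝ} {D : Idx m n → ℝ} (h : NonDeg η D) : Inv D := fun e => (h.2.2 e).1

lemma exists_opt (hnm : n ≤ m) {η : ℝ} {D : Idx m n → ℝ} (hN : NonDeg η D)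
    (hx : ∃ x, Feasible D x) (hy : ∃ y, DF D y) :
    ∃ e, Feasible D (xv D e) ∧ ∀ i, 0 ≤ yv D e i := by
  obtain ⟨x, hx⟩ := hx
  obtain ⟨y, hy⟩ := hy
  have h := inv_of hN
  have : Finite (Fin n ↪o Fin m) :=
    Finite.of_injective (fun e : Fin n ↪o Fin m => (e : Fin n → Fin m)) DFunLike.coe_injective
  have : Nonempty {e // Feasible D (xv D e)} := by
    obtain ⟨e, he, -⟩ := dom hnm h hy hx
    exact ⟨⟨e, he⟩⟩
  obtain ⟨⟨e, he⟩, hmax⟩ :=
    Finite.exists_max fun e : {e // Feasible D (xv D e)} => dc D ⬝ᵥ xv D e.1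
  refine ⟨e, he, fun i => ?_⟩
  by_contra hneg
  push Not at hneg
  set d := Hm D e *ᵥ Pi.single i 1 with hd
  have hne := (((hN.2.2 e).2 _ _ _ rfl rfl rfl).1)
  have hev : ∀ k, ∀ᶠ ε in nhdsWithin (0 : ℝ) (Set.Ioi 0),
      (dA D *ᵥ xv D e) k - ε * (dA D *ᵥ d) k ≤ db D k := fun k => by
    by_cases hk : k ∈ Set.range e
    · obtain ⟨j, rfl⟩ := hk
      filter_upwards [self_mem_nhdsWithin] with ε hε
      rw [xv, hd, AH h, AH h]
      have : (0 : ℝ) ≤ (Pi.single i (1 : ℝ) : Fin n → ℝ) j := by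
        by_cases hj : j = i
        · simp [hj]
        · simp [hj]
      have := mul_nonneg (le_of_lt hε) this
      linarith
    · have h1 : (dA D *ᵥ xv D e) k < db D k := lt_of_le_of_ne (he k) (hne k hk)
      have h2 : ContinuousAt (fun ε : ℝ => (dA D *ᵥ xv D e) k - ε * (dA D *ᵥ d) k) 0 := by
        fun_prop
      have h3 := Filter.Tendsto.eventually_lt_const (u := db D k) (by simpa using h1) h2
      exact (h3.filter_mono nhdsWithin_le_nhds).mono fun ε hε => hε.le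
  obtain ⟨ε, hε, hε0⟩ := ((Filter.eventually_all.2 hev).and self_mem_nhdsWithin).exists
  have hf : Feasible D (xv D e - ε • d) := fun k => by
    rw [mulVec_sub, mulVec_smul]
    exact hε k
  obtain ⟨e', he', hle⟩ := dom hnm h hy hf
  have h1 := hmax ⟨e', he'⟩
  rw [dotProduct_sub, dotProduct_smul, hd, c_H D e (Pi.single i 1), dotProduct_single,
    smul_eq_mul, mul_one] at hle
  have := mul_neg_of_pos_of_neg hε0 hneg
  simp only at h1
  linarith

lemma DD_eq (D : Idx m n → ℝ) :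
    D ⬝ᵥ D = ∑ i, ∑ j, dA D i j ^ 2 + (∑ i, db D i ^ 2 + ∑ j, dc D j ^ 2) := by
  simp only [dotProduct, Fintype.sum_sum_type, Fintype.sum_prod_type, dA, db, dc, of_apply, sq]

lemma cc_le (D : Idx m n → ℝ) : dc D ⬝ᵥ dc D ≤ D ⬝ᵥ D := by
  have h1 : dc D ⬝ᵥ dc D = ∑ j, dc D j ^ 2 := by simp only [dotProduct, sq]
  have h2 : 0 ≤ ∑ i, ∑ j, dA D i j ^ 2 := by positivity
  have h3 : 0 ≤ ∑ i, db D i ^ 2 := by positivity
  rw [DD_eq, h1]
  linarith

lemma bb_le (D : Idx m n → ℝ) (e : Fin n ↪o Fin m) : ∑ i, db D (e i) ^ 2 ≤ D ⬝ᵥ D := by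
  have h1 : ∑ i, db D (e i) ^ 2 ≤ ∑ i, db D i ^ 2 := by
    refine (Finset.sum_map Finset.univ e.toEmbedding fun k => db D k ^ 2).symm.trans_le ?_
    exact Finset.sum_le_univ_sum_of_nonneg fun k => sq_nonneg _
  have h2 : 0 ≤ ∑ i, ∑ j, dA D i j ^ 2 := by positivity
  have h3 : 0 ≤ ∑ i, dc D i ^ 2 := by positivity
  rw [DD_eq]
  linarith

lemma row_le (D : Idx m n → ℝ) (k : Fin m) : ∑ j, dA D k j ^ 2 ≤ D ⬝ᵥ D := by
  have h1 : ∑ j, dA D k j ^ 2 ≤ ∑ i, ∑ j, dA D i j ^ 2 :=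
    Finset.single_le_sum (f := fun i => ∑ j, dA D i j ^ 2) (fun i _ => by positivity)
      (Finset.mem_univ k)
  have h2 : 0 ≤ ∑ i, db D i ^ 2 := by positivity
  have h3 : 0 ≤ ∑ i, dc D i ^ 2 := by positivity
  rw [DD_eq]
  linarith

lemma val_abs_le (D : Idx m n → ℝ) (e : Fin n ↪o Fin m) :
    |dc D ⬝ᵥ xv D e| ≤
      (∑ i, ∑ j, Hm D e i j ^ 2 + (dc D ⬝ᵥ dc D) * ∑ i, db D (e i) ^ 2) / 2 := by
  have h1 : dc D ⬝ᵥ xv D e = ∑ i, ∑ j, Hm D e i j * (dc D i * db D (e j)) := by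
    simp only [xv, dotProduct, mulVec, Finset.mul_sum]
    exact Finset.sum_congr rfl fun i _ => Finset.sum_congr rfl fun j _ => by ring
  have h2 : (∑ i, ∑ j, Hm D e i j ^ 2 + (dc D ⬝ᵥ dc D) * ∑ i, db D (e i) ^ 2) / 2 =
      ∑ i, ∑ j, (Hm D e i j ^ 2 + (dc D i * db D (e j)) ^ 2) / 2 := by
    rw [dotProduct, Finset.sum_mul_sum, ← Finset.sum_add_distrib, Finset.sum_div]
    refine Finset.sum_congr rfl fun i _ => ?_
    rw [← Finset.sum_add_distrib, Finset.sum_div]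
    exact Finset.sum_congr rfl fun j _ => by ring
  rw [h1, h2]
  refine (Finset.abs_sum_le_sum_abs _ _).trans (Finset.sum_le_sum fun i _ => ?_)
  refine (Finset.abs_sum_le_sum_abs _ _).trans (Finset.sum_le_sum fun j _ => ?_)
  rw [abs_le]
  constructor <;> nlinarith [sq_nonneg (Hm D e i j + dc D i * db D (e j)),
    sq_nonneg (Hm D e i j - dc D i * db D (e j))]

lemma val_bound {θ : ℝ} (h0 : 0 < θ) (h1 : θ ≤ 1) {D : Idx m n → ℝ} (hN : NonDeg (2 * θ) D)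
    {e : Fin n ↪o Fin m} (hx : Feasible D (xv D e)) (hy : ∀ i, 0 ≤ yv D e i) :
    |dc D ⬝ᵥ xv D e| ≤ 1 / (2 * θ ^ 2) := by
  have hH : ∑ i, ∑ j, Hm D e i j ^ 2 ≤ 1 / (2 * θ) :=
    (((hN.2.2 e).2 _ _ _ rfl rfl rfl).2 hy hx).2.2
  have a1 := (cc_le D).trans hN.1
  have a2 := (bb_le D e).trans hN.1
  have a3 : (dc D ⬝ᵥ dc D) * ∑ i, db D (e i) ^ 2 ≤ 1 / (2 * θ) * (1 / (2 * θ)) :=
    mul_le_mul a1 a2 (by positivity) (by positivity)
  have a4 : 1 / (2 * θ) ≤ 1 / (2 * θ ^ 2) :=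
    one_div_le_one_div_of_le (by positivity) (by nlinarith)
  have a5 : 1 / (2 * θ) * (1 / (2 * θ)) = 1 / (2 * θ ^ 2) / 2 := by field_simp
  have a6 : 0 < 1 / (2 * θ ^ 2) := by positivity
  have := val_abs_le D e
  linarith

open Classical in
lemma sum_split (e : Fin n ↪o Fin m) (f : Fin m → ℝ) :
    ∑ k, f k = ∑ i, f (e i) + ∑ k, if k ∈ Set.range e then 0 else f k := by
  have h1 : ∑ i, f (e i) = ∑ k, if k ∈ Set.range e then f k else 0 := by
    rw [← Finset.sum_filter]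
    refine (Finset.sum_map Finset.univ e.toEmbedding f).symm.trans ?_
    refine Finset.sum_congr ?_ fun _ _ => rfl
    ext k
    simp
  rw [h1, ← Finset.sum_add_distrib]
  exact Finset.sum_congr rfl fun k _ => by split_ifs <;> simp

/-- an almost optimal dual point reveals the optimal basis -/
lemma ident {θ : ℝ} (h0 : 0 < θ) (h1 : θ ≤ 1) {D : Idx m n → ℝ} (hN : NonDeg (2 * θ) D)
    {e : Fin n ↪o Fin m} (hx : Feasible D (xv D e)) (hy : ∀ i, 0 ≤ yv D e i)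
    {y : Fin m → ℝ} (hD : DF D y) (hgap : db D ⬝ᵥ y ≤ dc D ⬝ᵥ xv D e + θ ^ 3) (k : Fin m) :
    θ < y k ↔ k ∈ Set.range e := by
  classical
  have h := inv_of hN
  obtain ⟨b1, b2, b3⟩ := ((hN.2.2 e).2 _ _ _ rfl rfl rfl).2 hy hx
  change ∀ i, 2 * θ ≤ yv D e i at b1
  change ∀ k, k ∉ Set.range e → 2 * θ ≤ db D k - (dA D *ᵥ xv D e) k at b2
  change ∑ i, ∑ j, Hm D e i j ^ 2 ≤ 1 / (2 * θ) at b3
  set r : Fin m → ℝ := fun k => if k ∈ Set.range e then 0 else y k with hr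
  have hr0 : ∀ k, 0 ≤ r k := fun k => by
    simp only [hr]; split_ifs
    · exact le_rfl
    · exact hD.1 k
  have hS : ∑ k, r k ≤ θ ^ 2 / 2 := by
    have c1 : db D ⬝ᵥ y - dc D ⬝ᵥ xv D e = ∑ k, y k * (db D k - (dA D *ᵥ xv D e) k) := by
      rw [← hD.2, dot_tr, dotProduct_comm (db D), ← dotProduct_sub]
      rfl
    have c2 : ∑ k, 2 * θ * r k ≤ ∑ k, y k * (db D k - (dA D *ᵥ xv D e) k) :=
      Finset.sum_le_sum fun k _ => by
        simp only [hr]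
        split_ifs with hk
        · rw [mul_zero]; exact mul_nonneg (hD.1 k) (sub_nonneg.2 (hx k))
        · rw [mul_comm]; exact mul_le_mul_of_nonneg_left (b2 k hk) (hD.1 k)
    rw [← Finset.mul_sum] at c2
    have c3 : 2 * θ * ∑ k, r k ≤ 2 * θ * (θ ^ 2 / 2) := by nlinarith
    exact le_of_mul_le_mul_left c3 (by positivity)
  constructor
  · intro hk
    by_contra hk'
    have c1 : r k ≤ ∑ k, r k := Finset.single_le_sum (fun k _ => hr0 k) (Finset.mem_univ k)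
    have c2 : r k = y k := if_neg hk'
    nlinarith
  · rintro ⟨i, rfl⟩
    have c1 : yv D e i = y (e i) + ∑ k, r k * (dA D *ᵥ (Hm D e *ᵥ Pi.single i 1)) k := by
      have := c_H D e (Pi.single i 1)
      rw [dotProduct_single, mul_one, ← hD.2, dot_tr, dotProduct, sum_split e] at this
      rw [← this]
      congr 1
      · simp only [AH h]
        rw [Finset.sum_eq_single i (fun j _ hj => by simp [hj]) (by simp)]
        simp
      · refine Finset.sum_congr rfl fun k _ => ?_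
        simp only [hr]
        split_ifs <;> simp
    have c2 : ∀ k, (dA D *ᵥ (Hm D e *ᵥ Pi.single i 1)) k ≤ 1 / (2 * θ) := fun k => by
      have d1 : (dA D *ᵥ (Hm D e *ᵥ Pi.single i 1)) k = ∑ j, dA D k j * Hm D e j i := by
        simp [mulVec, dotProduct, Pi.single_apply]
      have d2 : ∑ j, dA D k j * Hm D e j i ≤ ∑ j, (dA D k j ^ 2 + Hm D e j i ^ 2) / 2 :=
        Finset.sum_le_sum fun j _ => by nlinarith [sq_nonneg (dA D k j - Hm D e j i)]
      have d3 : ∑ j, Hm D e j i ^ 2 ≤ ∑ j, ∑ l, Hm D e j l ^ 2 :=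
        Finset.sum_le_sum fun j _ => Finset.single_le_sum (f := fun l => Hm D e j l ^ 2)
          (fun _ _ => sq_nonneg _) (Finset.mem_univ i)
      rw [← Finset.sum_div, Finset.sum_add_distrib] at d2
      have d4 := (row_le D k).trans hN.1
      linarith
    have c3 : ∑ k, r k * (dA D *ᵥ (Hm D e *ᵥ Pi.single i 1)) k ≤ (∑ k, r k) * (1 / (2 * θ)) := by
      rw [Finset.sum_mul]
      exact Finset.sum_le_sum fun k _ => mul_le_mul_of_nonneg_left (c2 k) (hr0 k)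
    have c4 : (∑ k, r k) * (1 / (2 * θ)) ≤ θ ^ 2 / 2 * (1 / (2 * θ)) :=
      mul_le_mul_of_nonneg_right hS (by positivity)
    have c5 : θ ^ 2 / 2 * (1 / (2 * θ)) = θ / 4 := by field_simp; ring
    have := b1 i
    linarith

end Opt
end Pool.Agent.P.MP_ef347d_lc
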