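import Pool.Agent.P.MP_ef347d_lc.Opt1

/-! The matrix `G_u`, the levels `z(u)`, and the binary search. -/

namespace Pool.Agent.P.MP_ef347d_lc
namespace Opt

open Matrix

variable {m n : ℕ}

lemma Gu_cast (u : ℝ) (D : Idx m n → ℝ) (i : Fin m) (j : Fin n) :
    mat (Gu u D) i.castSucc j = -dA D i j + (dA D *ᵥ dc D) i * dc D j / (dc D ⬝ᵥ dc D) +
      (db D i - zLev (dc D ⬝ᵥ dc D) u * (dA D *ᵥ dc D) i / (dc D ⬝ᵥ dc D)) *
        dc D j / wLev (dc D ⬝ᵥ dc D) u := by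
  simp [mat, Gu]

lemma Gu_last (u : ℝ) (D : Idx m n → ℝ) (j : Fin n) :
    mat (Gu u D) (Fin.last m) j = dc D j := by
  simp [mat, Gu]

lemma wLev_pos {cc u : ℝ} (hc : 0 < cc) (hu : 0 < u) : 0 < wLev cc u := by
  unfold wLev; positivity

lemma pri_feas {u : ℝ} (hu : 0 < u) {D : Idx m n → ℝ} (hc : 0 < dc D ⬝ᵥ dc D) {ξ : Fin n → ℝ}
    (h : ∀ i, 0 < (mat (Gu u D) *ᵥ ξ) i) :
    ∃ x, Feasible D x ∧ dc D ⬝ᵥ x = zLev (dc D ⬝ᵥ dc D) u := by
  have hw := wLev_pos hc hu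
  set cc := dc D ⬝ᵥ dc D with hcc
  set w := wLev cc u
  set z := zLev cc u
  have hτ : 0 < dc D ⬝ᵥ ξ := by
    have := h (Fin.last m)
    simpa only [mulVec, dotProduct, Gu_last] using this
  set τ := dc D ⬝ᵥ ξ with hτ'
  have hrow : ∀ i : Fin m, (mat (Gu u D) *ᵥ ξ) i.castSucc = -(dA D *ᵥ ξ) i +
      (dA D *ᵥ dc D) i * τ / cc + (db D i - z * (dA D *ᵥ dc D) i / cc) * τ / w := fun i => by
    have e1 : (mat (Gu u D) *ᵥ ξ) i.castSucc = ∑ j, mat (Gu u D) i.castSucc j * ξ j := rfl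
    have e2 : (dA D *ᵥ ξ) i = ∑ j, dA D i j * ξ j := rfl
    have e3 : τ = ∑ j, dc D j * ξ j := rfl
    rw [e1, e2, e3, Finset.mul_sum, Finset.mul_sum, Finset.sum_div, Finset.sum_div,
      ← Finset.sum_neg_distrib, ← Finset.sum_add_distrib, ← Finset.sum_add_distrib]
    refine Finset.sum_congr rfl fun j _ => ?_
    rw [Gu_cast]
    ring
  refine ⟨(w / τ) • (ξ - (τ / cc) • dc D) + (z / cc) • dc D, fun i => ?_, ?_⟩
  · have h1 := h i.castSucc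
    rw [hrow] at h1
    have h2 := mul_pos (div_pos hw hτ) h1
    rw [mulVec_add, mulVec_smul, mulVec_sub, mulVec_smul, mulVec_smul]
    simp only [Pi.add_apply, Pi.smul_apply, Pi.sub_apply, smul_eq_mul]
    have h3 : w / τ * (-(dA D *ᵥ ξ) i + (dA D *ᵥ dc D) i * τ / cc +
        (db D i - z * (dA D *ᵥ dc D) i / cc) * τ / w) = db D i -
        (w / τ * ((dA D *ᵥ ξ) i - τ / cc * (dA D *ᵥ dc D) i) + z / cc * (dA D *ᵥ dc D) i) := by
      field_simp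
      ring
    linarith
  · rw [dotProduct_add, dotProduct_smul, dotProduct_sub, dotProduct_smul, dotProduct_smul]
    simp only [smul_eq_mul, ← hcc, ← hτ']
    field_simp
    ring

lemma dua_eq {u : ℝ} (hu : 0 < u) {D : Idx m n → ℝ} (hc : 0 < dc D ⬝ᵥ dc D)
    {lam : Fin (m + 1) → ℝ} (hpos : ∀ i, 0 < lam i) (h : (mat (Gu u D))ᵀ *ᵥ lam = 0)
    {l : Fin m → ℝ} (hl : l = fun i => lam i.castSucc) {om : ℝ}
    (hom : om = l ⬝ᵥ (dA D *ᵥ dc D) / (dc D ⬝ᵥ dc D)) :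
    (dA D)ᵀ *ᵥ l = om • dc D ∧ db D ⬝ᵥ l < zLev (dc D ⬝ᵥ dc D) u * om := by
  have hw := wLev_pos hc hu
  set cc := dc D ⬝ᵥ dc D with hcc
  set w := wLev cc u
  set z := zLev cc u
  set β := (db D ⬝ᵥ l - z * om) / w + lam (Fin.last m) with hβ
  have hcol : ∀ j, ((dA D)ᵀ *ᵥ l) j = (om + β) * dc D j := fun j => by
    have e0 := congrFun h j
    have e1 : ((mat (Gu u D))ᵀ *ᵥ lam) j = ∑ i, mat (Gu u D) i j * lam i := rfl
    rw [e1, Fin.sum_univ_castSucc, Gu_last] at e0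
    have e2 : ∑ i : Fin m, mat (Gu u D) i.castSucc j * lam i.castSucc =
        -((dA D)ᵀ *ᵥ l) j + om * dc D j + (db D ⬝ᵥ l - z * om) / w * dc D j := by
      have f1 : ((dA D)ᵀ *ᵥ l) j = ∑ i, dA D i j * l i := rfl
      rw [f1, hom, dotProduct, dotProduct]
      simp only [Finset.mul_sum, Finset.sum_div, ← Finset.sum_sub_distrib, Finset.sum_mul,
        ← Finset.sum_neg_distrib, ← Finset.sum_add_distrib]
      refine Finset.sum_congr rfl fun i _ => ?_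
      rw [Gu_cast, hl]
      ring
    rw [e2] at e0
    simp only [Pi.zero_apply] at e0
    rw [hβ]
    linarith
  have hv : (dA D)ᵀ *ᵥ l = (om + β) • dc D := funext hcol
  have hβ0 : β = 0 := by
    have e1 : ((dA D)ᵀ *ᵥ l) ⬝ᵥ dc D = om * cc := by
      rw [dot_tr, hom]; field_simp
    rw [hv, smul_dotProduct, smul_eq_mul, ← hcc] at e1
    have : β * cc = 0 := by linarith
    exact (mul_eq_zero.1 this).resolve_right hc.ne'
  refine ⟨by rw [hv, hβ0, add_zero], ?_⟩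
  have h1 : (db D ⬝ᵥ l - z * om) / w < 0 := by linarith [hpos (Fin.last m)]
  rw [div_neg_iff] at h1
  rcases h1 with h1 | h1
  · linarith [h1.2]
  · linarith [h1.1]

/-- the dual point `y` certifies that the optimal value is below the level `z(u)` -/
def Abv (D : Idx m n → ℝ) (u : ℝ) (y : Fin m → ℝ) : Prop :=
  DF D y ∧ db D ⬝ᵥ y < zLev (dc D ⬝ᵥ dc D) u

/-- the dual candidate obtained from a left kernel vector of `G_u` -/
noncomputable def cnd (D : Idx m n → ℝ) (lam : Fin (m + 1) → ℝ) : Fin m → ℝ := fun i =>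
  lam i.castSucc / ((fun i : Fin m => lam i.castSucc) ⬝ᵥ (dA D *ᵥ dc D) / (dc D ⬝ᵥ dc D))

lemma low_of_not_abv {u : ℝ} (hu : 0 < u) {D : Idx m n → ℝ} (hc : 0 < dc D ⬝ᵥ dc D)
    {x : Fin n → ℝ} (hx : Feasible D x) (hmax : ∀ x', Feasible D x' → dc D ⬝ᵥ x' ≤ dc D ⬝ᵥ x)
    {O : Orc} {N t : ℕ} (hO : O.OK N t (mat (Gu u D)))
    (hn : ¬Abv D u (cnd D (O N t _ _ (mat (Gu u D))).2)) :
    zLev (dc D ⬝ᵥ dc D) u ≤ dc D ⬝ᵥ x := by
  rcases hO with hO | hO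
  · obtain ⟨x', hx', he⟩ := pri_feas hu hc hO
    rw [← he]
    exact hmax x' hx'
  set lam := (O N t _ _ (mat (Gu u D))).2 with hlam
  obtain ⟨h1, h2⟩ := dua_eq hu hc hO.1 hO.2 rfl rfl
  rw [← hlam] at h1 h2
  set l : Fin m → ℝ := fun i => lam i.castSucc with hl
  set om := l ⬝ᵥ (dA D *ᵥ dc D) / (dc D ⬝ᵥ dc D) with hom
  have hl0 : ∀ i, 0 < l i := fun i => hO.1 _
  rcases lt_or_ge 0 om with h0 | h0
  · exfalso
    have e1 : cnd D lam = om⁻¹ • l := by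
      funext i
      simp only [cnd, Pi.smul_apply, smul_eq_mul]
      rw [div_eq_inv_mul]
    refine hn ?_
    rw [e1]
    refine ⟨⟨fun i => mul_nonneg (inv_nonneg.2 h0.le) (hl0 i).le, ?_⟩, ?_⟩
    · rw [mulVec_smul, h1, smul_smul, inv_mul_cancel₀ h0.ne', one_smul]
    · rw [dotProduct_smul, smul_eq_mul, inv_mul_lt_iff₀ h0]
      linarith
  · have e1 : om * (dc D ⬝ᵥ x) ≤ db D ⬝ᵥ l := by
      have := le_of_feas hx fun i => (hl0 i).le
      rwa [← dot_tr, h1, smul_dotProduct, smul_eq_mul] at this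
    by_contra hlt
    push Not at hlt
    nlinarith

lemma z_low {θ cc : ℝ} (h0 : 0 < θ) (h1 : θ ≤ 1) (hc : 2 * θ ≤ cc) :
    zLev cc (θ ^ 3) ≤ -(1 / (2 * θ ^ 2)) := by
  have a1 : 2 / θ ^ 2 ≤ cc / θ ^ 3 := by
    rw [div_le_div_iff₀ (by positivity) (by positivity)]
    nlinarith [pow_pos h0 2]
  have a2 : θ ^ 3 ≤ 1 := pow_le_one₀ h0.le h1
  have a3 : 1 ≤ 1 / θ ^ 2 := one_le_one_div (by positivity) (pow_le_one₀ h0.le h1)
  have a4 : 2 / θ ^ 2 = 2 * (1 / θ ^ 2) := by ring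
  have a5 : 1 / (2 * θ ^ 2) = 1 / θ ^ 2 / 2 := by field_simp
  unfold zLev
  linarith

lemma z_high {θ cc u : ℝ} (h0 : 0 < θ) (h1 : θ ≤ 1 / 4) (hc : cc ≤ 1 / (2 * θ))
    (hu : 1 / (2 * θ ^ 3) ≤ u) : 1 / (2 * θ ^ 2) < zLev cc u := by
  have hu0 : 0 < u := lt_of_lt_of_le (by positivity) hu
  have a1 : cc / u ≤ θ ^ 2 := by
    rw [div_le_iff₀ hu0]
    calc cc ≤ 1 / (2 * θ) := hc
      _ = θ ^ 2 * (1 / (2 * θ ^ 3)) := by field_simp
      _ ≤ θ ^ 2 * u := by gcongr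
  have a2 : 2 * (1 / θ ^ 2) ≤ 1 / (2 * θ ^ 3) := by
    rw [mul_one_div, div_le_div_iff₀ (by positivity) (by positivity)]
    nlinarith [pow_pos h0 2]
  have a3 : θ ^ 2 < 1 := by nlinarith
  have a4 : 1 < 1 / θ ^ 2 := one_lt_one_div (by positivity) a3
  have a5 : 1 / (2 * θ ^ 2) = 1 / θ ^ 2 / 2 := by field_simp
  unfold zLev
  linarith

lemma z_gap {θ cc lo w : ℝ} (h0 : 0 < θ) (h1 : θ ≤ 1 / 4) (hc : cc ≤ 1 / (2 * θ))
    (hlo : θ ^ 3 ≤ lo) (hw0 : 0 ≤ w) (hw : w ≤ θ ^ 10) :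
    zLev cc (lo + w) ≤ zLev cc lo + θ ^ 3 := by
  have hl : 0 < lo := lt_of_lt_of_le (by positivity) hlo
  have a1 : cc / lo - cc / (lo + w) = cc * w / (lo * (lo + w)) := by
    field_simp
    ring
  have a2 : cc * w / (lo * (lo + w)) ≤ 1 / (2 * θ) * θ ^ 10 / (θ ^ 3 * θ ^ 3) := by
    gcongr
    linarith
  have a3 : 1 / (2 * θ) * θ ^ 10 / (θ ^ 3 * θ ^ 3) = θ ^ 3 / 2 := by field_simp
  have a4 : θ ^ 10 ≤ θ ^ 3 := pow_le_pow_of_le_one h0.le (by linarith) (by norm_num)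
  have a5 : 0 < θ ^ 3 := by positivity
  unfold zLev
  linarith

open Classical in
/-- one step of the binary search -/
noncomputable def bstep {β : Type} (ab : ℝ → β → Prop) (cd : ℝ → β) (st : ℝ × ℝ × β) :
    ℝ × ℝ × β :=
  if ab (st.1 + st.2.1 / 2) (cd (st.1 + st.2.1 / 2)) then
    (st.1, st.2.1 / 2, cd (st.1 + st.2.1 / 2))
  else (st.1 + st.2.1 / 2, st.2.1 / 2, st.2.2)

lemma bsearch {β : Type} (ab : ℝ → β → Prop) (cd : ℝ → β) (low : ℝ → Prop) (L W : ℝ) (y₀ : β)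
    (T : ℕ) (hL : low L)
    (h : ∀ k : ℕ, k ≤ 2 ^ T → ¬ab (L + k * (W / 2 ^ T)) (cd (L + k * (W / 2 ^ T))) →
      low (L + k * (W / 2 ^ T))) {r : ℕ} (hr : r ≤ T) {st : ℝ × ℝ × β}
    (hst : st = (bstep ab cd)^[r] (L, W, y₀)) :
    st.2.1 = W / 2 ^ r ∧ (∃ k : ℕ, k + 1 ≤ 2 ^ r ∧ st.1 = L + k * (W / 2 ^ r)) ∧ low st.1 ∧
      (st.1 + st.2.1 = L + W ∨ ab (st.1 + st.2.1) st.2.2) := by
  induction r generalizing st with
  | zero => subst hst; exact ⟨by simp, ⟨0, by simp, by simp⟩, hL, Or.inl rfl⟩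
  | succ r ih =>
    obtain ⟨h1, ⟨k, hk, h2⟩, h3, h4⟩ := ih (by omega) rfl
    rw [Function.iterate_succ_apply'] at hst
    generalize (bstep ab cd)^[r] (L, W, y₀) = s at *
    have hw : s.2.1 / 2 = W / 2 ^ (r + 1) := by rw [h1, pow_succ, div_div]
    have hw2 : W / 2 ^ r = 2 * (W / 2 ^ (r + 1)) := by rw [pow_succ]; field_simp
    unfold bstep at hst
    split_ifs at hst with hab
    · subst hst
      refine ⟨hw, ⟨2 * k, by rw [pow_succ]; omega, ?_⟩, h3, Or.inr hab⟩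
      simp only
      rw [h2, hw2]; push_cast; ring
    · subst hst
      have e1 : s.1 + s.2.1 / 2 = L + ((2 * k + 1 : ℕ) : ℝ) * (W / 2 ^ (r + 1)) := by
        rw [hw, h2, hw2]; push_cast; ring
      have e2 : s.1 + s.2.1 / 2 =
          L + (((2 * k + 1) * 2 ^ (T - (r + 1)) : ℕ) : ℝ) * (W / 2 ^ T) := by
        obtain ⟨q, rfl⟩ := Nat.exists_eq_add_of_le hr
        rw [e1, Nat.add_sub_cancel_left, pow_add _ (r + 1) q]
        push_cast
        field_simp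
      refine ⟨hw, ⟨2 * k + 1, by rw [pow_succ]; omega, e1⟩, ?_, ?_⟩
      · simp only
        rw [e2] at hab ⊢
        refine h _ ?_ hab
        calc (2 * k + 1) * 2 ^ (T - (r + 1)) ≤ 2 ^ (r + 1) * 2 ^ (T - (r + 1)) :=
              Nat.mul_le_mul_right _ (by rw [pow_succ]; omega)
          _ = 2 ^ T := by rw [← pow_add]; congr 1; omega
      · have e3 : s.1 + s.2.1 / 2 + s.2.1 / 2 = s.1 + s.2.1 := by ring
        simp only
        rw [e3]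
        exact h4

lemma thr_pos (t : ℕ) : 0 < thr t := by unfold thr; positivity

lemma thr_le {t : ℕ} (ht : 13 ≤ t) : thr t ≤ 1 / 4 := by
  have : thr t ≤ (1 / 2) ^ 2 :=
    pow_le_pow_of_le_one (by norm_num) (by norm_num) (by nlinarith)
  linarith

lemma width_le {t : ℕ} (ht : 13 ≤ t) : 1 / thr t ^ 3 / 2 ^ (t ^ 3) ≤ thr t ^ 10 := by
  have h0 := thr_pos t
  have h1 : (1 : ℝ) / 2 ^ (t ^ 3) = thr t ^ t := by
    rw [thr, ← pow_mul, _root_.one_div_pow]; rfl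
  have h2 : thr t ^ t ≤ thr t ^ 13 :=
    pow_le_pow_of_le_one h0.le (by linarith [thr_le ht]) ht
  calc 1 / thr t ^ 3 / 2 ^ (t ^ 3) = 1 / 2 ^ (t ^ 3) / thr t ^ 3 := by ring
    _ ≤ thr t ^ 13 / thr t ^ 3 := by rw [h1]; gcongr
    _ = thr t ^ 10 := by field_simp

/-- the result of the binary search identifies the optimal basis -/
lemma search_ok {β : Type} {t : ℕ} (ht : 13 ≤ t) {D : Idx m n → ℝ} (hN : NonDeg (2 * thr t) D)
    {e : Fin n ↪o Fin m} (hx : Feasible D (xv D e)) (hy : ∀ i, 0 ≤ yv D e i)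
    (hmax : ∀ x', Feasible D x' → dc D ⬝ᵥ x' ≤ dc D ⬝ᵥ xv D e)
    {O : Orc} {N : ℕ} (hO : ∀ k, k ≤ 2 ^ (t ^ 3) → O.OK N t (mat (Gu (uGrid t k) D)))
    (ab : ℝ → β → Prop) (cd : ℝ → β) (res : β → Fin m → ℝ) (y₀ : β)
    (hab : ∀ u y, ab u y ↔ Abv D u (res y))
    (hcd : ∀ u, res (cd u) = cnd D (O N t _ _ (mat (Gu u D))).2) (k : Fin m) :
    thr t < res ((bstep ab cd)^[t ^ 3] (thr t ^ 3, 1 / thr t ^ 3, y₀)).2.2 k ↔
      k ∈ Set.range e := by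
  have h0 := thr_pos t
  have h1 := thr_le ht
  have hc0 : 0 < dc D ⬝ᵥ dc D := lt_of_lt_of_le (by positivity) hN.2.1
  have hc1 : dc D ⬝ᵥ dc D ≤ 1 / (2 * thr t) := (cc_le D).trans hN.1
  have hv := abs_le.1 (val_bound h0 (by linarith) hN hx hy)
  obtain ⟨a1, ⟨j, hj, a2⟩, a3, a4⟩ := bsearch ab cd
    (fun u => zLev (dc D ⬝ᵥ dc D) u ≤ dc D ⬝ᵥ xv D e) (thr t ^ 3) (1 / thr t ^ 3) y₀ (t ^ 3)
    ((z_low h0 (by linarith) hN.2.1).trans hv.1)
    (fun k hk hn => by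
      have e1 : thr t ^ 3 + k * (1 / thr t ^ 3 / 2 ^ (t ^ 3)) = uGrid t k := by
        unfold uGrid; field_simp
      rw [e1] at hn ⊢
      rw [hab, hcd] at hn
      refine low_of_not_abv ?_ hc0 hx hmax (hO k hk) hn
      unfold uGrid; positivity) le_rfl rfl
  generalize (bstep ab cd)^[t ^ 3] (thr t ^ 3, 1 / thr t ^ 3, y₀) = s at *
  have hw0 : 0 ≤ 1 / thr t ^ 3 / 2 ^ (t ^ 3) := by positivity
  rcases a4 with a4 | a4
  · exfalso
    have b1 : 1 / thr t ^ 3 / 2 ^ (t ^ 3) ≤ 1 / thr t ^ 3 / 2 ^ 1 := by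
      gcongr
      · norm_num
      · exact Nat.one_le_pow _ _ (by omega)
    have b2 : 1 / (2 * thr t ^ 3) = 1 / thr t ^ 3 / 2 := by field_simp
    have b3 : 0 < thr t ^ 3 := by positivity
    have := z_high h0 h1 hc1 (u := s.1) (by rw [b2]; rw [pow_one] at b1; linarith)
    linarith [hv.2]
  · rw [hab] at a4
    refine ident h0 (by linarith) hN hx hy a4.1 ?_ k
    have := z_gap h0 h1 hc1 (lo := s.1) (w := s.2.1)
      (by rw [a2]; have : (0 : ℝ) ≤ j * (1 / thr t ^ 3 / 2 ^ (t ^ 3)) := by positivity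
          linarith) (by rw [a1]; exact hw0) (by rw [a1]; exact width_le ht)
    linarith [a4.2]

end Opt
end Pool.Agent.P.MP_ef347d_lc
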