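import Pool.Agent.P.MP_ef347d_lc.Basic3
import Pool.Agent.P.MP_ef347d_lc.Good3

/-! Comparison of the tilted model with the sign symmetric model. -/

namespace Pool.Agent.P.MP_ef347d_lc

open Matrix MeasureTheory ProbabilityTheory

namespace Rot

variable {M d : ℕ}

/-- entries of a matrix -/
def unm (A : Matrix (Fin M) (Fin d) ℝ) : Fin M × Fin d → ℝ := fun p => A p.1 p.2

theorem mat_unm (A : Matrix (Fin M) (Fin d) ℝ) : mat (unm A) = A := rfl

/-- Frobenius inner product -/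
def fr (A B : Matrix (Fin M) (Fin d) ℝ) : ℝ := (Aᵀ * B).trace

theorem dot_fr (z w : Fin M × Fin d → ℝ) : z ⬝ᵥ w = fr (mat z) (mat w) := Good3.dot_eq_trace z w

theorem fr_comm (A B : Matrix (Fin M) (Fin d) ℝ) : fr A B = fr B A := by
  rw [fr, fr, ← trace_transpose, transpose_mul, transpose_transpose]

theorem fr_add (A B C : Matrix (Fin M) (Fin d) ℝ) : fr A (B + C) = fr A B + fr A C := by
  simp [fr, Matrix.mul_add]

theorem add_fr (A B C : Matrix (Fin M) (Fin d) ℝ) : fr (A + B) C = fr A C + fr B C := by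
  simp [fr, Matrix.add_mul]

theorem fr_sub (A B C : Matrix (Fin M) (Fin d) ℝ) : fr A (B - C) = fr A B - fr A C := by
  simp [fr, Matrix.mul_sub]

theorem sub_fr (A B C : Matrix (Fin M) (Fin d) ℝ) : fr (A - B) C = fr A C - fr B C := by
  simp [fr, Matrix.sub_mul]

theorem fr_smul (c : ℝ) (A B : Matrix (Fin M) (Fin d) ℝ) : fr A (c • B) = c * fr A B := by
  simp [fr]

theorem smul_fr (c : ℝ) (A B : Matrix (Fin M) (Fin d) ℝ) : fr (c • A) B = c * fr A B := by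
  simp [fr]

theorem fr_left (g : Matrix (Fin M) (Fin M) ℝ) (A B : Matrix (Fin M) (Fin d) ℝ) :
    fr (g * A) B = fr A (gᵀ * B) := by
  rw [fr, fr, transpose_mul, Matrix.mul_assoc]

theorem fr_right (h : Matrix (Fin d) (Fin d) ℝ) (A B : Matrix (Fin M) (Fin d) ℝ) :
    fr (A * h) B = fr A (B * hᵀ) := by
  rw [fr, fr, transpose_mul, Matrix.mul_assoc, trace_mul_comm, Matrix.mul_assoc]

theorem fr_vec (A : Matrix (Fin M) (Fin d) ℝ) (x : Fin M → ℝ) (y : Fin d → ℝ) :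
    fr A (vecMulVec x y) = (Aᵀ *ᵥ x) ⬝ᵥ y := by
  rw [fr, mul_vecMulVec, trace_vecMulVec]

theorem vec_fr (A : Matrix (Fin M) (Fin d) ℝ) (x : Fin M → ℝ) (y : Fin d → ℝ) :
    fr (vecMulVec x y) A = (Aᵀ *ᵥ x) ⬝ᵥ y := by
  rw [fr_comm, fr_vec]

theorem vec_mulVec {m n : ℕ} (x : Fin m → ℝ) (y z : Fin n → ℝ) :
    vecMulVec x y *ᵥ z = (y ⬝ᵥ z) • x := by
  rw [vecMulVec_mulVec, op_smul_eq_smul]

/-- two sided multiplication -/
def lr (g : Matrix (Fin M) (Fin M) ℝ) (h : Matrix (Fin d) (Fin d) ℝ) :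
    (Fin M × Fin d → ℝ) →ₗ[ℝ] (Fin M × Fin d → ℝ) where
  toFun z := unm (g * mat z * h)
  map_add' z w := by
    have : mat (z + w) = mat z + mat w := rfl
    rw [this, Matrix.mul_add, Matrix.add_mul]
    rfl
  map_smul' c z := by
    have : mat (c • z) = c • mat z := rfl
    rw [this, Matrix.mul_smul, Matrix.smul_mul]
    rfl

theorem mat_lr (g : Matrix (Fin M) (Fin M) ℝ) (h : Matrix (Fin d) (Fin d) ℝ)
    (z : Fin M × Fin d → ℝ) : mat (lr g h z) = g * mat z * h := rfl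

theorem exists_T (β : Fin M → ℝ) {η : ℝ} (hη : 0 < η) :
    ∃ (ρ : ℝ) (T : Matrix (Fin M) (Fin M) ℝ), 0 < ρ ∧ ρ ^ 2 = β ⬝ᵥ β + η ^ 2 ∧ Tᵀ = T ∧
      T *ᵥ β = (η / ρ) • β ∧ T * T = 1 - (ρ ^ 2)⁻¹ • vecMulVec β β := by
  have h0 : 0 ≤ β ⬝ᵥ β := Finset.sum_nonneg fun i _ => mul_self_nonneg _
  have h1 : 0 < β ⬝ᵥ β + η ^ 2 := by positivity
  set ρ := √(β ⬝ᵥ β + η ^ 2) with hρ
  have hρ0 : 0 < ρ := Real.sqrt_pos.2 h1
  have hρ2 : ρ ^ 2 = β ⬝ᵥ β + η ^ 2 := Real.sq_sqrt h1.le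
  have hb : β ⬝ᵥ β = (ρ - η) * (ρ + η) := by linarith
  have hs : 0 < ρ + η := by positivity
  refine ⟨ρ, 1 - (ρ * (ρ + η))⁻¹ • vecMulVec β β, hρ0, hρ2, by simp, ?_, ?_⟩
  · rw [sub_mulVec, one_mulVec, smul_mulVec, vec_mulVec, smul_smul, hb]
    nth_rewrite 1 [← one_smul ℝ β]
    rw [← sub_smul]
    congr 1
    field_simp
    ring
  · simp only [Matrix.mul_sub, Matrix.sub_mul, Matrix.one_mul, Matrix.mul_one, Matrix.mul_smul,
      Matrix.smul_mul, vecMulVec_mul_vecMulVec, vecMulVec_smul, smul_smul, smul_sub, hb]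
    rw [sub_sub, ← sub_smul, ← add_smul]
    congr 2
    field_simp
    ring

theorem exists_O {u v : Fin d → ℝ} (hu : u ⬝ᵥ u = 1) (hv : v ⬝ᵥ v = 1) :
    ∃ O : Matrix (Fin d) (Fin d) ℝ, Oᵀ = O ∧ O * O = 1 ∧ O *ᵥ u = v := by
  by_cases h : u = v
  · exact ⟨1, by simp, by simp, by simp [h]⟩
  have hw : (u - v) ⬝ᵥ (u - v) ≠ 0 := fun h0 => h (sub_eq_zero.1 (dotProduct_self_eq_zero.1 h0))
  have h2 : (u - v) ⬝ᵥ (u - v) = 2 * ((u - v) ⬝ᵥ u) := by
    simp only [sub_dotProduct, dotProduct_sub, hu, hv, dotProduct_comm v u]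
    ring
  refine ⟨1 - (2 / ((u - v) ⬝ᵥ (u - v))) • vecMulVec (u - v) (u - v), by simp, ?_, ?_⟩
  · generalize u - v = w at hw
    simp only [Matrix.mul_sub, Matrix.sub_mul, Matrix.one_mul, Matrix.mul_one, Matrix.mul_smul,
      Matrix.smul_mul, vecMulVec_mul_vecMulVec, vecMulVec_smul, smul_smul, smul_sub]
    rw [sub_sub, ← sub_smul, ← add_smul]
    convert sub_zero _
    convert zero_smul ℝ _
    field_simp
    ring
  · rw [sub_mulVec, one_mulVec, smul_mulVec, vec_mulVec, smul_smul]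
    have : 2 / ((u - v) ⬝ᵥ (u - v)) * ((u - v) ⬝ᵥ u) = 1 := by
      rw [div_mul_eq_mul_div, ← h2, div_self hw]
    rw [this, one_smul, sub_sub_cancel]

theorem fr_T {β : Fin M → ℝ} {ρ : ℝ} {T : Matrix (Fin M) (Fin M) ℝ} (hT : Tᵀ = T)
    (hTT : T * T = 1 - (ρ ^ 2)⁻¹ • vecMulVec β β) (W : Matrix (Fin M) (Fin d) ℝ) :
    fr (T * W) (T * W) = fr W W - (ρ ^ 2)⁻¹ * ((Wᵀ *ᵥ β) ⬝ᵥ (Wᵀ *ᵥ β)) := by
  rw [fr_left, hT, ← Matrix.mul_assoc, hTT, Matrix.sub_mul, Matrix.one_mul, Matrix.smul_mul,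
    vecMulVec_mul, fr_sub, fr_smul, fr_vec, ← mulVec_transpose]

theorem cont_plant (a : Fin M → ℝ) : Continuous
    fun p : (Fin d → ℝ) × (Fin M × Fin d → ℝ) => unm (plant a p.1 (mat p.2)) := by
  refine continuous_pi fun q => ?_
  simp only [unm, plant, Matrix.add_apply, Matrix.mul_apply, Matrix.sub_apply, vecMulVec_apply,
    mat, of_apply]
  fun_prop

theorem meas_unitv : Measurable (unitv : (Fin d → ℝ) → Fin d → ℝ) := by
  unfold unitv dotProduct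
  fun_prop

theorem unitv_unit {n : Fin d → ℝ} (hn : n ≠ 0) : unitv n ⬝ᵥ unitv n = 1 := by
  have h0 : 0 ≤ n ⬝ᵥ n := Finset.sum_nonneg fun i _ => mul_self_nonneg _
  have h1 : n ⬝ᵥ n ≠ 0 := fun h => hn (dotProduct_self_eq_zero.1 h)
  rw [unitv, smul_dotProduct, dotProduct_smul, smul_eq_mul, smul_eq_mul, ← mul_assoc, ← mul_inv,
    Real.mul_self_sqrt h0, inv_mul_cancel₀ h1]

theorem unitv_smul {ρ : ℝ} (hρ : 0 < ρ) (n : Fin d → ℝ) : unitv (ρ • n) = unitv n := by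
  rw [unitv, unitv, smul_dotProduct, dotProduct_smul, smul_eq_mul, smul_eq_mul, ← mul_assoc,
    Real.sqrt_mul (mul_self_nonneg ρ), Real.sqrt_mul_self hρ.le, smul_smul, mul_inv,
    mul_comm ρ⁻¹, mul_assoc, inv_mul_cancel₀ hρ.ne', mul_one]

theorem vecMul_unitv (n : Fin d → ℝ) : n ᵥ* (1 - vecMulVec (unitv n) (unitv n)) = 0 := by
  have h0 : 0 ≤ n ⬝ᵥ n := Finset.sum_nonneg fun i _ => mul_self_nonneg _
  rcases eq_or_ne n 0 with rfl | hn
  · simp
  have h1 : n ⬝ᵥ n ≠ 0 := fun h => hn (dotProduct_self_eq_zero.1 h)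
  rw [vecMul_sub, vecMul_one, vecMul_vecMulVec, unitv, dotProduct_smul, smul_smul, smul_eq_mul,
    mul_right_comm, ← mul_inv, Real.mul_self_sqrt h0, inv_mul_cancel₀ h1, one_smul, sub_self]

/-- the common average -/
noncomputable def Psi (G : Matrix (Fin M) (Fin d) ℝ → ENNReal) (a : Fin M → ℝ)
    (T : Matrix (Fin M) (Fin M) ℝ) (u : Fin d → ℝ) : ENNReal :=
  ∫⁻ z, G (plant a u (T * mat z)) ∂gam (Fin M × Fin d)

theorem meas_G {G : Matrix (Fin M) (Fin d) ℝ → ENNReal} (hG : Measurable fun z => G (mat z))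
    (a : Fin M → ℝ) :
    Measurable fun p : (Fin d → ℝ) × (Fin M × Fin d → ℝ) => G (plant a p.1 (mat p.2)) :=
  hG.comp (cont_plant a).measurable

theorem Psi_eq {G : Matrix (Fin M) (Fin d) ℝ → ENNReal} (hG : Measurable fun z => G (mat z))
    (hO : ∀ A (O : Matrix (Fin d) (Fin d) ℝ), O * Oᵀ = 1 → G (A * O) = G A) (a : Fin M → ℝ)
    (T : Matrix (Fin M) (Fin M) ℝ) {u v : Fin d → ℝ} (hu : u ⬝ᵥ u = 1) (hv : v ⬝ᵥ v = 1) :
    Psi G a T u = Psi G a T v := by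
  obtain ⟨O, h1, h2, h3⟩ := exists_O hu hv
  have hp : MeasurePreserving (lr (M := M) 1 O) (gam _) (gam _) := by
    refine gam_map _ (lr 1 O) (fun z w => ?_) fun w => ?_
    · simp only [dot_fr, mat_lr, Matrix.one_mul, fr_right, h1]
    · simp only [dot_fr, mat_lr, Matrix.one_mul, fr_right, h1, Matrix.mul_assoc, h2,
        Matrix.mul_one]
  have hm : Measurable fun z : Fin M × Fin d → ℝ => G (plant a v (T * mat z)) :=
    (meas_G hG a).comp (measurable_const.prodMk (meas_lin (Good3.lmul T)))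
  rw [Psi, Psi, ← hp.lintegral_comp hm]
  refine lintegral_congr fun z => ?_
  rw [← hO _ O (by rw [h1, h2]), mat_lr, Matrix.one_mul]
  congr 1
  have h4 : u ᵥ* O = v := by rw [← h1, vecMul_transpose, h3]
  have h5 : O *ᵥ v = u := by rw [← h3, mulVec_mulVec, h2, one_mulVec]
  simp only [plant, Matrix.add_mul, Matrix.mul_assoc, Matrix.sub_mul, Matrix.mul_sub,
    Matrix.one_mul, Matrix.mul_one, vecMulVec_mul, mul_vecMulVec, h4, h5, ← mulVec_mulVec]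

theorem tilt_eq (a β : Fin M → ℝ) {η ρ : ℝ} (hη : 0 < η) (hρ : 0 < ρ)
    {T : Matrix (Fin M) (Fin M) ℝ} (hT : Tᵀ = T) (hTβ : T *ᵥ β = (η / ρ) • β)
    (hTT : T * T = 1 - (ρ ^ 2)⁻¹ • vecMulVec β β) {u : Fin d → ℝ} (hu : u ⬝ᵥ u = 1) :
    ∃ κ : ENNReal, κ ≠ 0 ∧ κ ≠ ⊤ ∧ ∀ G : Matrix (Fin M) (Fin d) ℝ → ENNReal,
      Measurable (fun z => G (mat z)) → tiltI G a β η u = κ * Psi G a T u := by
  set Q : Matrix (Fin d) (Fin d) ℝ := vecMulVec u u with hQ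
  have hQt : Qᵀ = Q := by simp [hQ]
  have hQQ : Q * Q = Q := by rw [hQ, vecMulVec_mul_vecMulVec, hu, one_smul]
  have hPt : (1 - Q)ᵀ = 1 - Q := by simp [hQt]
  have hQP : Q * (1 - Q) = 0 := by rw [Matrix.mul_sub, hQQ, Matrix.mul_one, sub_self]
  have hPQ : (1 - Q) * Q = 0 := by rw [Matrix.sub_mul, hQQ, Matrix.one_mul, sub_self]
  have hPP : (1 - Q) * (1 - Q) = 1 - Q := by rw [Matrix.mul_sub, hPQ, Matrix.mul_one, sub_zero]
  set L := lr T (1 - Q) + lr 1 Q with hL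
  have hLm : ∀ z, mat (L z) = T * (mat z * (1 - Q)) + mat z * Q := fun z => by
    rw [← Matrix.mul_assoc, ← Matrix.one_mul (mat z * Q), ← Matrix.mul_assoc]
    rfl
  set q : (Fin M × Fin d → ℝ) → ℝ := fun z => (((1 - Q) *ᵥ ((mat z)ᵀ *ᵥ β)) ⬝ᵥ
    ((1 - Q) *ᵥ ((mat z)ᵀ *ᵥ β))) / η ^ 2 with hq
  have key : ∀ z, L z ⬝ᵥ L z + q (L z) = z ⬝ᵥ z := by
    intro z
    have e1 : (1 - Q) *ᵥ ((mat (L z))ᵀ *ᵥ β) = (η / ρ) • ((mat z * (1 - Q))ᵀ *ᵥ β) := by
      rw [hLm, transpose_add, transpose_mul T, transpose_mul _ Q, hT, hQt, add_mulVec,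
        ← mulVec_mulVec, hTβ, mulVec_smul, mulVec_add, mulVec_smul, mulVec_mulVec, mulVec_mulVec,
        ← Matrix.mul_assoc, hPQ, transpose_mul, hPt, ← Matrix.mul_assoc, hPP]
      simp
    have e2 : fr (T * (mat z * (1 - Q))) (mat z * Q) = 0 := by
      rw [← Matrix.mul_assoc, fr_right, hPt, Matrix.mul_assoc, hQP]
      simp [fr]
    have e3 : fr (mat z * (1 - Q)) (mat z * (1 - Q)) + fr (mat z * Q) (mat z * Q) =
        fr (mat z) (mat z) := by
      rw [fr_right, fr_right, hPt, hQt, Matrix.mul_assoc, Matrix.mul_assoc, hPP, hQQ, ← fr_add,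
        ← Matrix.mul_add, sub_add_cancel, Matrix.mul_one]
    simp only [hq]
    rw [e1, dot_fr, dot_fr, hLm, add_fr, fr_add, fr_add, fr_comm (mat z * Q) (T * _), e2,
      fr_T hT hTT, ← e3, smul_dotProduct, dotProduct_smul, smul_eq_mul, smul_eq_mul]
    field_simp
    ring
  have hdet : LinearMap.det L ≠ 0 := by
    rw [Ne, LinearMap.det_eq_zero_iff_ker_ne_bot, not_not, LinearMap.ker_eq_bot']
    intro z hz
    have := key z
    rw [hz] at this
    have h0 : q 0 = 0 := by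
      have : mat (0 : Fin M × Fin d → ℝ) = 0 := rfl
      simp [hq, this]
    rw [h0] at this
    exact dotProduct_self_eq_zero.1 (by simpa using this.symm)
  refine ⟨ENNReal.ofReal |LinearMap.det L|, by simpa using hdet, ENNReal.ofReal_ne_top,
    fun G hG => ?_⟩
  have hqm : Measurable q := by
    refine Continuous.measurable ?_
    have h1 : Continuous fun z : Fin M × Fin d → ℝ => (1 - Q) *ᵥ ((mat z)ᵀ *ᵥ β) :=
      continuous_const.matrix_mulVec (cont_mat.matrix_transpose.matrix_mulVec continuous_const)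
    exact (h1.dotProduct h1).div_const _
  have := gam_tilt L hdet q hqm (F := fun z => G (plant a u (mat z))) key
    ((meas_G hG a).comp (measurable_const.prodMk measurable_id))
  refine this.trans ?_
  congr 1
  refine lintegral_congr fun z => ?_
  rw [hLm, plant, plant, ← hQ, Matrix.add_mul, Matrix.mul_assoc, Matrix.mul_assoc,
    Matrix.mul_assoc, Matrix.mul_assoc, hPP, hQP, Matrix.mul_zero, add_zero]

theorem rot_preserving (β : Fin M → ℝ) {η ρ : ℝ} (hρ : 0 < ρ) (hρ2 : ρ ^ 2 = β ⬝ᵥ β + η ^ 2)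
    {T : Matrix (Fin M) (Fin M) ℝ} (hT : Tᵀ = T) (hTβ : T *ᵥ β = (η / ρ) • β)
    (hTT : T * T = 1 - (ρ ^ 2)⁻¹ • vecMulVec β β) :
    MeasurePreserving (fun p : (Fin M × Fin d → ℝ) × (Fin d → ℝ) =>
      (unm (T * mat p.1 + ρ⁻¹ • vecMulVec β p.2), (η / ρ) • p.2 - ρ⁻¹ • ((mat p.1)ᵀ *ᵥ β)))
      ((gam _).prod (gam _)) ((gam _).prod (gam _)) := by
  let f : (Fin M × Fin d → ℝ) →ₗ[ℝ] ((Fin M × Fin d) ⊕ Fin d → ℝ) :=
    { toFun := fun z => Sum.elim (unm (T * mat z)) (-(ρ⁻¹ • ((mat z)ᵀ *ᵥ β)))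
      map_add' := fun z w => by
        have : mat (z + w) = mat z + mat w := rfl
        rw [this, Matrix.mul_add, transpose_add, add_mulVec]
        ext (i | i) <;> simp [unm]
        ring
      map_smul' := fun c z => by
        have : mat (c • z) = c • mat z := rfl
        rw [this, Matrix.mul_smul, transpose_smul, smul_mulVec]
        ext (i | i) <;> simp [unm]
        ring }
  let f' : (Fin d → ℝ) →ₗ[ℝ] ((Fin M × Fin d) ⊕ Fin d → ℝ) :=
    { toFun := fun z => Sum.elim (unm (ρ⁻¹ • vecMulVec β z)) ((η / ρ) • z)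
      map_add' := fun z w => by
        ext (i | i) <;> simp [unm, vecMulVec_apply] <;> ring
      map_smul' := fun c z => by
        ext (i | i) <;> simp [unm, vecMulVec_apply] <;> ring }
  have hd : ∀ (x : Fin M × Fin d → ℝ) (y : Fin d → ℝ) (w : (Fin M × Fin d) ⊕ Fin d → ℝ),
      Sum.elim x y ⬝ᵥ w = fr (mat x) (mat (w ∘ Sum.inl)) + y ⬝ᵥ (w ∘ Sum.inr) := by
    intro x y w
    rw [← dot_fr]
    simp [dotProduct]
  have h1 := gam_map₂ f f'
    (fun w => unm (T * mat (w ∘ Sum.inl) - ρ⁻¹ • vecMulVec β (w ∘ Sum.inr)))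
    (fun w => ρ⁻¹ • ((mat (w ∘ Sum.inl))ᵀ *ᵥ β) + (η / ρ) • (w ∘ Sum.inr)) ?_ ?_ ?_
  · convert (measurePreserving_sumPiEquivProdPi
      (fun _ : (Fin M × Fin d) ⊕ Fin d => gaussianReal 0 1)).comp h1 using 1
    funext p
    refine Prod.ext (funext fun i => ?_) (funext fun i => ?_)
    · rfl
    · simp [f, f', MeasurableEquiv.coe_sumPiEquivProdPi, sub_eq_add_neg, add_comm]
  · intro z w
    simp only [f, LinearMap.coe_mk, AddHom.coe_mk, hd, dot_fr, mat_unm, fr_left, hT, fr_sub,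
      fr_smul, fr_vec, neg_dotProduct, smul_dotProduct, smul_eq_mul]
    ring
  · intro z w
    simp only [f', LinearMap.coe_mk, AddHom.coe_mk, hd, mat_unm, smul_fr, vec_fr, dotProduct_add,
      smul_dotProduct, dotProduct_smul, smul_eq_mul, dotProduct_comm z, add_dotProduct]
  · intro w
    have e : w = Sum.elim (w ∘ Sum.inl) (w ∘ Sum.inr) := (Sum.elim_comp_inl_inr w).symm
    have e1 : w ⬝ᵥ w = fr (mat (w ∘ Sum.inl)) (mat (w ∘ Sum.inl)) +
        (w ∘ Sum.inr) ⬝ᵥ (w ∘ Sum.inr) := by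
      rw [← hd, ← e]
    rw [e1]
    generalize mat (w ∘ Sum.inl) = W
    generalize w ∘ Sum.inr = y
    have e2 : (T * W)ᵀ *ᵥ β = (η / ρ) • (Wᵀ *ᵥ β) := by
      rw [transpose_mul, hT, ← mulVec_mulVec, hTβ, mulVec_smul]
    have e3 : (vecMulVec β y)ᵀ *ᵥ β = (β ⬝ᵥ β) • y := by rw [transpose_vecMulVec, vec_mulVec]
    have e4 : β ⬝ᵥ β = ρ ^ 2 - η ^ 2 := by linarith
    rw [dot_fr, mat_unm, sub_fr, fr_sub, fr_sub]
    simp only [fr_smul, smul_fr, fr_T hT hTT, fr_vec, transpose_smul, smul_mulVec,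
      fr_comm (vecMulVec β y) (T * W), e2, e3, e4, add_dotProduct, dotProduct_add, smul_dotProduct,
      dotProduct_smul, smul_eq_mul, dotProduct_comm y (Wᵀ *ᵥ β)]
    field_simp
    ring

theorem kappa {ρ : ℝ} (hρ : 0 < ρ) {u : Fin d → ℝ} (hu : u ⬝ᵥ u = 1) :
    ∫⁻ y, ENNReal.ofReal ((ρ • y) ⬝ᵥ (ρ • y)) ∂gam (Fin d) ≠ 0 ∧
      ∫⁻ y, ENNReal.ofReal ((ρ • y) ⬝ᵥ (ρ • y)) ∂gam (Fin d) ≠ ⊤ := by
  have hm : Measurable fun y : Fin d → ℝ => ENNReal.ofReal ((ρ • y) ⬝ᵥ (ρ • y)) := by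
    unfold dotProduct
    fun_prop
  constructor
  · rw [Ne, lintegral_eq_zero_iff hm]
    intro h
    have := nullSingletonClass_gaussianReal (μ := 0) (v := 1) one_ne_zero
    have h0 : ∀ᵐ y ∂gam (Fin d), u ⬝ᵥ y ≠ 0 :=
      (gam_dot u hu).quasiMeasurePreserving.ae (Measure.ae_ne (gaussianReal 0 1) 0)
    obtain ⟨y, h1, h2⟩ := (h0.and h).exists
    have h3 : 0 ≤ (ρ • y) ⬝ᵥ (ρ • y) := Finset.sum_nonneg fun i _ => mul_self_nonneg _
    have h4 := dotProduct_self_eq_zero.1 (le_antisymm (ENNReal.ofReal_eq_zero.1 h2) h3)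
    rw [(smul_eq_zero.1 h4).resolve_left hρ.ne'] at h1
    simp at h1
  · refine (Integrable.lintegral_lt_top ?_).ne
    refine integrable_finsetSum _ fun i _ => ?_
    have h1 : MemLp (fun y : Fin d → ℝ => (ρ • y) i) 2 (gam (Fin d)) :=
      ((memLp_id_gaussianReal 2).comp_measurePreserving
        (measurePreserving_eval (μ := fun _ : Fin d => gaussianReal 0 1) i)).const_mul ρ
    exact h1.integrable_mul h1

end Rot

open Rot in
theorem rot_step {M d : ℕ} (a β : Fin M → ℝ) {η : ℝ} (hη : 0 < η) {u : Fin d → ℝ}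
    (hu : u ⬝ᵥ u = 1) : ∃ κ₁ κ₂ : ENNReal, κ₁ ≠ 0 ∧ κ₁ ≠ ⊤ ∧ κ₂ ≠ 0 ∧ κ₂ ≠ ⊤ ∧
      ∀ G : Matrix (Fin M) (Fin d) ℝ → ENNReal, Measurable (fun z => G (mat z)) →
        (∀ A (O : Matrix (Fin d) (Fin d) ℝ), O * Oᵀ = 1 → G (A * O) = G A) →
        κ₁ * tiltI G a β η u = κ₂ * symI G a β η := by
  obtain ⟨ρ, T, hρ, hρ2, hT, hTβ, hTT⟩ := exists_T β hη
  obtain ⟨κ, hκ0, hκ1, hκ⟩ := tilt_eq a β hη hρ hT hTβ hTT hu
  refine ⟨_, κ, (kappa hρ hu).1, (kappa hρ hu).2, hκ0, hκ1, fun G hG hO => ?_⟩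
  rw [hκ G hG, mul_left_comm]
  congr 1
  have hn : Continuous fun p : (Fin M × Fin d → ℝ) × (Fin d → ℝ) => (mat p.1)ᵀ *ᵥ β + η • p.2 :=
    ((cont_mat.comp continuous_fst).matrix_transpose.matrix_mulVec continuous_const).add
      (continuous_snd.const_smul η)
  have hm : Measurable fun p : (Fin M × Fin d → ℝ) × (Fin d → ℝ) =>
      ENNReal.ofReal (((mat p.1)ᵀ *ᵥ β + η • p.2) ⬝ᵥ ((mat p.1)ᵀ *ᵥ β + η • p.2)) *
        G (plant a (unitv ((mat p.1)ᵀ *ᵥ β + η • p.2)) (mat p.1)) :=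
    (hn.dotProduct hn).measurable.ennreal_ofReal.mul
      ((meas_G hG a).comp ((meas_unitv.comp hn.measurable).prodMk measurable_fst))
  have hp := rot_preserving (d := d) β hρ hρ2 hT hTβ hTT
  rw [symI, ← hp.lintegral_comp hm, ← lintegral_mul_const _ (by unfold dotProduct; fun_prop)]
  refine Eq.trans ?_ (lintegral_prod_symm' _ (hm.comp hp.measurable)).symm
  refine lintegral_congr fun y => ?_
  have e1 : ∀ z : Fin M × Fin d → ℝ, (T * mat z + ρ⁻¹ • vecMulVec β y)ᵀ *ᵥ β +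
      η • ((η / ρ) • y - ρ⁻¹ • ((mat z)ᵀ *ᵥ β)) = ρ • y := by
    intro z
    have e4 : β ⬝ᵥ β = ρ ^ 2 - η ^ 2 := by linarith
    rw [transpose_add, transpose_mul, hT, add_mulVec, ← mulVec_mulVec, hTβ, mulVec_smul,
      transpose_smul, smul_mulVec, transpose_vecMulVec, vec_mulVec, e4]
    ext i
    simp only [Pi.add_apply, Pi.sub_apply, Pi.smul_apply, smul_eq_mul]
    field_simp
    ring
  have e2 : ∀ z : Fin M × Fin d → ℝ, plant a (unitv y) (T * mat z + ρ⁻¹ • vecMulVec β y) =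
      plant a (unitv y) (T * mat z) := by
    intro z
    rw [plant, plant, Matrix.add_mul, Matrix.smul_mul, vecMulVec_mul, vecMul_unitv]
    have : vecMulVec β (0 : Fin d → ℝ) = 0 := by
      ext i j
      simp [vecMulVec_apply]
    rw [this, smul_zero, add_zero]
  simp only [Function.comp, mat_unm, e1, unitv_smul hρ, e2]
  rcases eq_or_ne y 0 with rfl | hy
  · simp
  rw [lintegral_const_mul' _ _ ENNReal.ofReal_ne_top, Psi_eq hG hO a T hu (unitv_unit hy), Psi]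

end Pool.Agent.P.MP_ef347d_lc
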