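import Pool.Agent.P.MP_ef347d_lc.Basic3
import Pool.Agent.P.MP_ef347d_lc.Path
import Pool.Agent.P.MP_ef347d_lc.Good3

/-! The rank two update and the reduction to the discrete cube by sign flips. -/

namespace Pool.Agent.P.MP_ef347d_lc

open Matrix MeasureTheory ProbabilityTheory

namespace Sign

variable {M d : ℕ}

theorem vmv {m n : ℕ} (x : Fin m → ℝ) (y z : Fin n → ℝ) : vecMulVec x y *ᵥ z = (y ⬝ᵥ z) • x := by
  ext i
  simp [vecMulVec, mulVec, dotProduct, Finset.mul_sum, mul_comm, mul_left_comm]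

theorem det2 (H : Matrix (Fin d) (Fin d) ℝ) (hH : IsUnit H.det) (p u v w : Fin d → ℝ) :
    (H + (vecMulVec p v + vecMulVec u w)).det =
      H.det * ((1 + v ⬝ᵥ (H⁻¹ *ᵥ p)) * (1 + w ⬝ᵥ (H⁻¹ *ᵥ u)) -
        (v ⬝ᵥ (H⁻¹ *ᵥ u)) * (w ⬝ᵥ (H⁻¹ *ᵥ p))) := by
  have h := Matrix.det_add_mul (A := H) (Matrix.of fun i (j : Fin 2) => ![p, u] j i)
    (Matrix.of fun (j : Fin 2) i => ![v, w] j i) hH
  have e : (Matrix.of fun i (j : Fin 2) => ![p, u] j i) *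
      (Matrix.of fun (j : Fin 2) i => ![v, w] j i) = vecMulVec p v + vecMulVec u w := by
    ext i j
    simp [Matrix.mul_apply, vecMulVec]
  have e2 : ∀ j k : Fin 2, ((Matrix.of fun (j : Fin 2) i => ![v, w] j i) * H⁻¹ *
      (Matrix.of fun i (j : Fin 2) => ![p, u] j i)) j k = ![v, w] j ⬝ᵥ (H⁻¹ *ᵥ ![p, u] k) := by
    intro j k
    rw [Matrix.mul_assoc]
    rfl
  rw [e] at h
  rw [h, det_fin_two]
  simp only [Matrix.add_apply, e2]
  simp

theorem plant_mulVec (a : Fin M → ℝ) (u : Fin d → ℝ) (B : Matrix (Fin M) (Fin d) ℝ)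
    (x : Fin d → ℝ) : plant a u B *ᵥ x = (u ⬝ᵥ x) • a + B *ᵥ (x - (u ⬝ᵥ x) • u) := by
  rw [plant, add_mulVec, vmv, ← mulVec_mulVec, sub_mulVec, one_mulVec, vmv]

theorem plant_eq (a : Fin M → ℝ) (u : Fin d → ℝ) (B : Matrix (Fin M) (Fin d) ℝ) :
    plant a u B = B + vecMulVec (a - B *ᵥ u) u := by
  rw [ext_iff_mulVec]
  intro x
  rw [plant_mulVec, add_mulVec, vmv, mulVec_sub, mulVec_smul, smul_sub]
  abel

theorem gram_update (B : Matrix (Fin M) (Fin d) ℝ) (q : Fin M → ℝ) (u : Fin d → ℝ) :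
    (B + vecMulVec q u)ᵀ * (B + vecMulVec q u) =
      Bᵀ * B + (vecMulVec (Bᵀ *ᵥ q) u + vecMulVec u (Bᵀ *ᵥ q + (q ⬝ᵥ q) • u)) := by
  rw [ext_iff_mulVec]
  intro x
  rw [← mulVec_mulVec, transpose_add, transpose_vecMulVec]
  simp only [add_mulVec, mulVec_add, vmv, mulVec_smul, ← mulVec_mulVec, dotProduct_add,
    dotProduct_smul, add_dotProduct, smul_dotProduct, smul_eq_mul, add_smul, smul_add, smul_smul]
  rw [mulVec_dot Bᵀ, transpose_transpose, mul_comm (q ⬝ᵥ q)]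
  abel

theorem full_rank {B : Matrix (Fin M) (Fin d) ℝ} (hB : IsUnit (Bᵀ * B).det) {s : Fin M → ℝ}
    (hs : ∀ k, 0 < s k) : IsUnit ((sc s B)ᵀ * sc s B).det := by
  rw [isUnit_iff_ne_zero] at hB ⊢
  intro h
  obtain ⟨v, hv, h1⟩ := Matrix.exists_mulVec_eq_zero_iff.2 h
  refine hB (Matrix.exists_mulVec_eq_zero_iff.1 ⟨v, hv, ?_⟩)
  have h2 : (sc s B *ᵥ v) ⬝ᵥ (sc s B *ᵥ v) = 0 := by
    rw [mulVec_dot, mulVec_mulVec, h1, dotProduct_zero]
  have h3 := dotProduct_self_eq_zero.1 h2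
  have h4 : B *ᵥ v = 0 := by
    ext k
    have := congrFun h3 k
    rw [sc, ← mulVec_mulVec, mulVec_diagonal] at this
    simpa [(hs k).ne'] using this
  rw [← mulVec_mulVec, h4, mulVec_zero]

theorem meas_sc : Measurable fun p : (Fin M → ℝ) × (Fin M × Fin d → ℝ) =>
    fun q : Fin M × Fin d => 1 / p.1 q.1 * p.2 q := by
  refine measurable_pi_lambda _ fun q => ?_
  fun_prop

theorem sc_mat (s : Fin M → ℝ) (z : Fin M × Fin d → ℝ) :
    sc s (mat z) = mat fun q : Fin M × Fin d => 1 / s q.1 * z q := by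
  ext i j
  simp [sc, mat]

theorem sgn_mul (ε : Fin M → Bool) : diagonal (sgn ε) * diagonal (sgn ε) = 1 := by
  rw [diagonal_mul_diagonal, ← diagonal_one]
  congr 1
  funext i
  simp only [sgn]
  split_ifs <;> simp

end Sign

open Sign

theorem alg_det {M d : ℕ} (B : Matrix (Fin M) (Fin d) ℝ) (hB : IsUnit (Bᵀ * B).det)
    (n : Fin d → ℝ) (a : Fin M → ℝ) :
    (n ⬝ᵥ n) * ((plant a (unitv n) B)ᵀ * plant a (unitv n) B).det =
        (Bᵀ * B).det * wgt (Pr B) (B *ᵥ ((Bᵀ * B)⁻¹ *ᵥ n)) a ∧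
      (wgt (Pr B) (B *ᵥ ((Bᵀ * B)⁻¹ *ᵥ n)) a ≠ 0 →
        Pr (plant a (unitv n) B) = Qup (Pr B) (B *ᵥ ((Bᵀ * B)⁻¹ *ᵥ n)) a) := by
  by_cases hn : n = 0
  · subst hn
    simp [wgt]
  have hnn : 0 < n ⬝ᵥ n :=
    lt_of_le_of_ne (dot_self_nonneg n) fun h => hn (dotProduct_self_eq_zero.1 h.symm)
  obtain ⟨ρ, hρ, hρ2, hu⟩ : ∃ ρ : ℝ, 0 < ρ ∧ ρ * ρ = n ⬝ᵥ n ∧ n = ρ • unitv n :=
    ⟨√(n ⬝ᵥ n), Real.sqrt_pos.2 hnn, Real.mul_self_sqrt hnn.le, by
      rw [unitv, smul_smul, mul_inv_cancel₀ (Real.sqrt_pos.2 hnn).ne', one_smul]⟩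
  generalize unitv n = u at hu
  have huu : u ⬝ᵥ u = 1 := by
    have h1 := hρ2
    rw [hu, smul_dotProduct, dotProduct_smul, smul_eq_mul, smul_eq_mul, ← mul_assoc] at h1
    have : ρ * ρ ≠ 0 := by positivity
    exact (mul_eq_left₀ this).1 h1.symm
  set K := (Bᵀ * B)⁻¹ with hK
  have hKt : Kᵀ = K := by rw [hK, transpose_nonsing_inv, transpose_mul, transpose_transpose]
  have hKs : ∀ x y, x ⬝ᵥ (K *ᵥ y) = y ⬝ᵥ (K *ᵥ x) := fun x y => by
    rw [dotProduct_comm, mulVec_dot, hKt]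
  have hHK : ∀ x, Bᵀ *ᵥ (B *ᵥ (K *ᵥ x)) = x := fun x => by
    rw [mulVec_mulVec, mulVec_mulVec, hK, mul_nonsing_inv _ hB, one_mulVec]
  have hKH : ∀ x, K *ᵥ (Bᵀ *ᵥ (B *ᵥ x)) = x := fun x => by
    rw [mulVec_mulVec (M := Bᵀ), mulVec_mulVec, hK, nonsing_inv_mul _ hB, one_mulVec]
  have hPr : ∀ y, Pr B *ᵥ y = B *ᵥ (K *ᵥ (Bᵀ *ᵥ y)) := fun y => by
    rw [Pr, mulVec_mulVec, mulVec_mulVec]
  have hP := isProj_Pr hB
  set b := B *ᵥ (K *ᵥ n) with hb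
  have hby : ∀ y, b ⬝ᵥ y = n ⬝ᵥ (K *ᵥ (Bᵀ *ᵥ y)) := fun y => by
    rw [hb, mulVec_dot, dotProduct_comm, hKs]
  have hbb : b ⬝ᵥ b = n ⬝ᵥ (K *ᵥ n) := by rw [hby, hb, hHK]
  have hb0 : b ⬝ᵥ b ≠ 0 := fun h => hn (by
    rw [← hHK n, ← hb, dotProduct_self_eq_zero.1 h, mulVec_zero])
  have hPb : Pr B *ᵥ b = b := Pr_fix hB _
  have hrb : (a - Pr B *ᵥ a) ⬝ᵥ b = 0 := by rw [sub_dotProduct, hP.adj, hPb, sub_self]
  have hee : aperp (Pr B) b a ⬝ᵥ aperp (Pr B) b a =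
      (a - Pr B *ᵥ a) ⬝ᵥ (a - Pr B *ᵥ a) + (b ⬝ᵥ a) ^ 2 / (b ⬝ᵥ b) := by
    rw [aperp, add_dotProduct, dotProduct_add, dotProduct_add, dotProduct_smul, smul_dotProduct,
      smul_dotProduct, dotProduct_smul, hrb, dotProduct_comm b (a - _), hrb]
    simp only [smul_eq_mul]
    field_simp
    ring
  have hdet : (n ⬝ᵥ n) * ((plant a u B)ᵀ * plant a u B).det =
      (Bᵀ * B).det * wgt (Pr B) b a := by
    obtain ⟨q, hq⟩ : ∃ q, q = a - B *ᵥ u := ⟨_, rfl⟩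
    rw [plant_eq, ← hq, gram_update, det2 _ hB, ← hK, wgt, hee]
    have h1 : K *ᵥ (Bᵀ *ᵥ q) = K *ᵥ (Bᵀ *ᵥ a) - u := by
      rw [hq, mulVec_sub, mulVec_sub, hKH]
    have h2 : (a - Pr B *ᵥ a) ⬝ᵥ (a - Pr B *ᵥ a) = q ⬝ᵥ q - (Bᵀ *ᵥ q) ⬝ᵥ (K *ᵥ (Bᵀ *ᵥ q)) := by
      have h3 : a - Pr B *ᵥ a = q - Pr B *ᵥ q := by
        rw [hq, mulVec_sub, Pr_fix hB]; abel
      rw [h3, sub_dotProduct, dotProduct_sub, dotProduct_sub, hP.dot_proj,
        dotProduct_comm (Pr B *ᵥ q) q, mulVec_dot Bᵀ, transpose_transpose, ← hPr]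
      ring
    have h4 : b ⬝ᵥ a = ρ * (1 + u ⬝ᵥ (K *ᵥ (Bᵀ *ᵥ q))) := by
      rw [hby, h1, dotProduct_sub, huu, hu, smul_dotProduct, smul_eq_mul]; ring
    have h5 : b ⬝ᵥ b = ρ * ρ * (u ⬝ᵥ (K *ᵥ u)) := by
      rw [hbb, hu, mulVec_smul, smul_dotProduct, dotProduct_smul, smul_eq_mul, smul_eq_mul]; ring
    rw [mul_add (b ⬝ᵥ b), mul_div_cancel₀ _ hb0, h2, h4, h5, ← hρ2, add_dotProduct,
      add_dotProduct, smul_dotProduct, smul_dotProduct, hKs (Bᵀ *ᵥ q) u]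
    simp only [smul_eq_mul]
    ring
  refine ⟨hdet, fun hw => ?_⟩
  have hA : IsUnit ((plant a u B)ᵀ * plant a u B).det := by
    rw [isUnit_iff_ne_zero] at hB ⊢
    intro h
    rw [h, mul_zero] at hdet
    exact mul_ne_zero hB hw hdet.symm
  set e := aperp (Pr B) b a with he
  have he0 : e ⬝ᵥ e ≠ 0 := right_ne_zero_of_mul hw
  have hR : ∀ y, Qup (Pr B) b a *ᵥ y =
      Pr B *ᵥ y - ((b ⬝ᵥ y) / (b ⬝ᵥ b)) • b + ((e ⬝ᵥ y) / (e ⬝ᵥ e)) • e := fun y => by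
    rw [Qup, ← he, add_mulVec, sub_mulVec, smul_mulVec, smul_mulVec, vmv, vmv, smul_smul, smul_smul,
      div_eq_inv_mul, div_eq_inv_mul]
  have heB : ∀ w, n ⬝ᵥ w = 0 → b ⬝ᵥ (B *ᵥ w) = 0 ∧ e ⬝ᵥ (B *ᵥ w) = 0 := fun w hw => by
    have h1 : b ⬝ᵥ (B *ᵥ w) = 0 := by rw [hby, hKH, hw]
    refine ⟨h1, ?_⟩
    rw [he, aperp, add_dotProduct, smul_dotProduct, h1, sub_dotProduct, hP.adj, Pr_fix hB]
    simp
  have hP' : ∀ y, ∃ w, n ⬝ᵥ w = 0 ∧ Pr B *ᵥ y - ((b ⬝ᵥ y) / (b ⬝ᵥ b)) • b = B *ᵥ w := fun y => by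
    refine ⟨K *ᵥ (Bᵀ *ᵥ y) - ((b ⬝ᵥ y) / (b ⬝ᵥ b)) • (K *ᵥ n), ?_, ?_⟩
    · rw [dotProduct_sub, dotProduct_smul, ← hby, ← hbb, smul_eq_mul, div_mul_cancel₀ _ hb0,
        sub_self]
    · rw [mulVec_sub, mulVec_smul, hPr]
  have hun : ∀ w, n ⬝ᵥ w = 0 ↔ u ⬝ᵥ w = 0 := fun w => by
    rw [hu, smul_dotProduct, smul_eq_mul, mul_eq_zero, or_iff_right hρ.ne']
  obtain ⟨wa, hwa, hwa'⟩ := hP' a
  have hae : a = e + B *ᵥ wa := by rw [← hwa', he, aperp]; abel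
  have hRa : Qup (Pr B) b a *ᵥ a = a := by
    have : e ⬝ᵥ a = e ⬝ᵥ e := by
      conv_lhs => rw [hae]
      rw [dotProduct_add, (heB wa hwa).2, add_zero]
    rw [hR, this, div_self he0, one_smul, hwa', add_comm, ← hae]
  have hRA : Qup (Pr B) b a * plant a u B = plant a u B := by
    rw [ext_iff_mulVec]
    intro x
    have h1 : n ⬝ᵥ (x - (u ⬝ᵥ x) • u) = 0 := by
      rw [hun, dotProduct_sub, dotProduct_smul, huu]; simp
    rw [← mulVec_mulVec, plant_mulVec, mulVec_add, mulVec_smul, hRa, hR, (heB _ h1).1,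
      (heB _ h1).2, Pr_fix hB]
    simp
  have hAw : ∀ w, n ⬝ᵥ w = 0 → B *ᵥ w = plant a u B *ᵥ w := fun w hw => by
    rw [plant_mulVec, (hun w).1 hw]; simp
  have hAR : Pr (plant a u B) * Qup (Pr B) b a = Qup (Pr B) b a := by
    rw [ext_iff_mulVec]
    intro y
    obtain ⟨w, hw, hw'⟩ := hP' y
    have h1 : e = plant a u B *ᵥ (u - wa) := by
      rw [mulVec_sub, ← hAw wa hwa, plant_mulVec, huu, eq_sub_iff_add_eq, ← hae]; simp
    have h2 : Pr (plant a u B) *ᵥ e = e := by rw [h1, Pr_fix hA]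
    rw [← mulVec_mulVec, hR, hw', hAw w hw, mulVec_add, mulVec_smul, h2, Pr_fix hA]
  have hRt : (Qup (Pr B) b a)ᵀ = Qup (Pr B) b a := by
    simp only [Qup, transpose_add, transpose_sub, transpose_smul, transpose_vecMulVec, hP.1]
  have h1 := congrArg transpose hAR
  rw [transpose_mul, hRt, (isProj_Pr hA).1] at h1
  rw [← h1]
  generalize Qup (Pr B) b a = R at hRA
  rw [Pr, ← Matrix.mul_assoc, ← Matrix.mul_assoc, hRA]

theorem measurable_Gall {M d : ℕ} :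
    Measurable fun p : (Fin M → ℝ) × (Fin M × Fin d → ℝ) => Gall p.1 (mat p.2) := by
  have h1 : Continuous fun z : Fin M × Fin d → ℝ => ((mat z)ᵀ * mat z).det :=
    (Good3.continuous_mat.matrix_transpose.matrix_mul Good3.continuous_mat).matrix_det
  simp only [Gall, sc_mat]
  exact ENNReal.measurable_ofReal.comp (h1.measurable.comp meas_sc)

theorem measurable_Gbad {M d : ℕ} (τ μ : ℝ) :
    Measurable fun p : (Fin M → ℝ) × (Fin M × Fin d → ℝ) => Gbad τ μ p.1 (mat p.2) := by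
  classical
  have hQ : ∀ i j, Measurable fun p : (Fin M → ℝ) × (Fin M × Fin d → ℝ) =>
      Pr (sc p.1 (mat p.2)) i j := fun i j => by
    simp only [sc_mat]
    exact (Good3.measurable_Pr i j).comp meas_sc
  refine Measurable.ite ?_ measurable_Gall measurable_const
  rw [measurableSet_setOfPred]
  simp only [Phi, mulVec, dotProduct]
  refine Measurable.and (Measurable.forall fun k => Measurable.lt (by fun_prop) (by fun_prop))
    (Measurable.and (Measurable.forall fun k => Measurable.lt (by fun_prop) (by fun_prop))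
    (Measurable.and (Measurable.lt (by fun_prop) (by fun_prop))
    (Measurable.and (Measurable.lt (by fun_prop) (by fun_prop))
    (Measurable.and (Measurable.lt (by fun_prop) (by fun_prop))
    (Measurable.exists fun k => Measurable.lt (by fun_prop) (by fun_prop))))))

namespace Sign

variable {M d : ℕ}

/-- the integrand of `symI` -/
noncomputable def intg (G : Matrix (Fin M) (Fin d) ℝ → ENNReal) (a β : Fin M → ℝ) (η : ℝ)
    (p : (Fin M × Fin d → ℝ) × (Fin d → ℝ)) : ENNReal :=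
  ENNReal.ofReal (((mat p.1)ᵀ *ᵥ β + η • p.2) ⬝ᵥ ((mat p.1)ᵀ *ᵥ β + η • p.2)) *
    G (plant a (unitv ((mat p.1)ᵀ *ᵥ β + η • p.2)) (mat p.1))

theorem meas_intg {G : Matrix (Fin M) (Fin d) ℝ → ENNReal} (hG : Measurable fun z => G (mat z))
    (a β : Fin M → ℝ) (η : ℝ) : Measurable (intg G a β η) := by
  have hn : ∀ j, Measurable fun p : (Fin M × Fin d → ℝ) × (Fin d → ℝ) =>
      ((mat p.1)ᵀ *ᵥ β + η • p.2) j := fun j => by
    simp only [Pi.add_apply, mulVec, dotProduct, transpose_apply, mat, of_apply, Pi.smul_apply,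
      smul_eq_mul]
    fun_prop
  have hnn : Measurable fun p : (Fin M × Fin d → ℝ) × (Fin d → ℝ) =>
      ((mat p.1)ᵀ *ᵥ β + η • p.2) ⬝ᵥ ((mat p.1)ᵀ *ᵥ β + η • p.2) :=
    Finset.measurable_sum _ fun j _ => (hn j).mul (hn j)
  have hu : ∀ j, Measurable fun p : (Fin M × Fin d → ℝ) × (Fin d → ℝ) =>
      unitv ((mat p.1)ᵀ *ᵥ β + η • p.2) j := fun j => hnn.sqrt.inv.mul (hn j)
  have hψ : Measurable fun p : (Fin M × Fin d → ℝ) × (Fin d → ℝ) => fun q : Fin M × Fin d =>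
      plant a (unitv ((mat p.1)ᵀ *ᵥ β + η • p.2)) (mat p.1) q.1 q.2 := by
    refine measurable_pi_lambda _ fun q => ?_
    simp only [plant_eq, Matrix.add_apply, vecMulVec_apply, Pi.sub_apply]
    refine Measurable.add ?_ ((measurable_const.sub ?_).mul (hu _))
    · simp only [mat, of_apply]; fun_prop
    · change Measurable fun c : (Fin M × Fin d → ℝ) × (Fin d → ℝ) =>
        ∑ j, mat c.1 q.1 j * unitv ((mat c.1)ᵀ *ᵥ β + η • c.2) j
      refine Finset.measurable_sum _ fun j _ => Measurable.mul ?_ (hu j)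
      simp only [mat, of_apply]; fun_prop
  exact (ENNReal.measurable_ofReal.comp hnn).mul (hG.comp hψ)

/-- the sign flip of the rows -/
def flipT (ε : Fin M → Bool) (p : (Fin M × Fin d → ℝ) × (Fin d → ℝ)) :
    (Fin M × Fin d → ℝ) × (Fin d → ℝ) := (Good3.lmul (diagonal (sgn ε)) p.1, p.2)

theorem flipT_mp (ε : Fin M → Bool) : MeasurePreserving (flipT (d := d) ε)
    ((gam (Fin M × Fin d)).prod (gam (Fin d))) ((gam (Fin M × Fin d)).prod (gam (Fin d))) :=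
  (Good3.lmul_preserving _ (by rw [diagonal_transpose, sgn_mul])).prod (MeasurePreserving.id _)

theorem symI_avg {G : Matrix (Fin M) (Fin d) ℝ → ENNReal} (hG : Measurable fun z => G (mat z))
    (a β : Fin M → ℝ) (η : ℝ) :
    (Fintype.card (Fin M → Bool) : ENNReal) * symI G a β η =
      ∫⁻ p, ∑ ε : Fin M → Bool, intg G a β η (flipT ε p)
        ∂(gam (Fin M × Fin d)).prod (gam (Fin d)) := by
  rw [lintegral_finsetSum (f := fun ε p => intg G a β η (flipT ε p)) _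
    fun ε _ => (meas_intg hG a β η).comp (flipT_mp ε).measurable]
  simp only [(flipT_mp _).lintegral_comp (meas_intg hG a β η)]
  rw [Finset.sum_const, Finset.card_univ, nsmul_eq_mul]
  rfl

theorem sc_plant (s a : Fin M → ℝ) (u : Fin d → ℝ) (B : Matrix (Fin M) (Fin d) ℝ) :
    sc s (plant a u B) = plant (fun k => 1 / s k * a k) u (sc s B) := by
  rw [sc, plant, plant, Matrix.mul_add, sc, Matrix.mul_assoc]
  congr 1
  ext i j
  simp [vecMulVec_apply, mul_assoc]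

theorem wgt_nonneg (P : Matrix (Fin M) (Fin M) ℝ) (b a : Fin M → ℝ) : 0 ≤ wgt P b a :=
  mul_nonneg (dot_self_nonneg _) (dot_self_nonneg _)

open Classical in
theorem intg_flip {μ R η : ℝ} (τ : ℝ) (hμ : 1 < μ) (hR : R ≠ 0) {s : Fin M → ℝ} (hs : ∀ k, 0 < s k)
    (p : (Fin M × Fin d → ℝ) × (Fin d → ℝ)) {Bt : Matrix (Fin M) (Fin d) ℝ}
    (hBt : Bt = sc s (mat p.1)) (hB : IsUnit (Btᵀ * Bt).det) (ε : Fin M → Bool)
    {b a' : Fin M → ℝ}
    (hb : b = bflip ε (Pr Bt) (fun k => μ - s k) (η • (Bt *ᵥ ((Btᵀ * Bt)⁻¹ *ᵥ p.2))))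
    (ha : a' = fun k => 1 / (μ * R) * (μ - μ / s k)) :
    intg (Gall s) (fun k => (s k - 1) / R) (fun k => μ / s k - 1) η (flipT ε p) =
        ENNReal.ofReal ((Btᵀ * Bt).det * wgt (flipP ε (Pr Bt)) b a') ∧
      intg (Gbad τ μ s) (fun k => (s k - 1) / R) (fun k => μ / s k - 1) η (flipT ε p) =
        ENNReal.ofReal ((Btᵀ * Bt).det *
          if Phi τ μ s (Qup (flipP ε (Pr Bt)) b a') then wgt (flipP ε (Pr Bt)) b a' else 0) := by
  obtain ⟨S, hS⟩ : ∃ S, S = diagonal (sgn ε) := ⟨_, rfl⟩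
  have hSS : Sᵀ * S = 1 := by rw [hS, diagonal_transpose, sgn_mul]
  have h1 : sc s (S * mat p.1) = S * Bt := by
    rw [hBt, sc, sc, ← Matrix.mul_assoc, ← Matrix.mul_assoc, hS, diagonal_mul_diagonal,
      diagonal_mul_diagonal]
    simp only [mul_comm]
  have h2 : (S * Bt)ᵀ * (S * Bt) = Btᵀ * Bt := by
    rw [transpose_mul, Matrix.mul_assoc, ← Matrix.mul_assoc Sᵀ, hSS, Matrix.one_mul]
  have h3 : Pr (S * Bt) = flipP ε (Pr Bt) := by
    rw [Good3.Pr_lmul S hSS, flipP, hS, diagonal_transpose]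
  have h4 : (fun k => 1 / s k * ((s k - 1) / R)) = a' := by
    rw [ha]
    funext k
    have := (hs k).ne'
    have : μ ≠ 0 := by linarith
    field_simp
  have h5 : (S * mat p.1)ᵀ *ᵥ (fun k => μ / s k - 1) = (S * Bt)ᵀ *ᵥ fun k => μ - s k := by
    rw [← h1, sc, transpose_mul (diagonal _), ← mulVec_mulVec, diagonal_transpose]
    congr 1
    funext k
    have := (hs k).ne'
    rw [mulVec_diagonal]
    field_simp
  obtain ⟨n, hn⟩ : ∃ n, n = (S * Bt)ᵀ *ᵥ (fun k => μ - s k) + η • p.2 := ⟨_, rfl⟩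
  have h6 : (S * Bt) *ᵥ (((S * Bt)ᵀ * (S * Bt))⁻¹ *ᵥ n) = b := by
    have e1 : ∀ y, Pr (S * Bt) *ᵥ y =
        (S * Bt) *ᵥ (((S * Bt)ᵀ * (S * Bt))⁻¹ *ᵥ ((S * Bt)ᵀ *ᵥ y)) := fun y => by
      rw [Pr, mulVec_mulVec, mulVec_mulVec]
    rw [hb, bflip, ← h3, hn, mulVec_add, mulVec_add, e1]
    congr 1
    rw [h2, ← mulVec_mulVec _ S Bt]
    funext k
    rw [hS, mulVec_diagonal, mulVec_smul, mulVec_smul]
  obtain ⟨e1, e2⟩ := alg_det (S * Bt) (h2.symm ▸ hB) n a'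
  rw [h6, h3] at e1 e2
  rw [h2] at e1
  have e3 : ENNReal.ofReal (n ⬝ᵥ n) * Gall s (plant (fun k => (s k - 1) / R) (unitv n)
      (S * mat p.1)) = ENNReal.ofReal ((Btᵀ * Bt).det * wgt (flipP ε (Pr Bt)) b a') := by
    rw [Gall, sc_plant, h1, h4, ← ENNReal.ofReal_mul (dot_self_nonneg n), e1]
  simp only [intg, flipT, Good3.mat_lmul, ← hS, h5, ← hn]
  refine ⟨e3, ?_⟩
  rw [Gbad, sc_plant, h1, h4]
  by_cases hw : wgt (flipP ε (Pr Bt)) b a' = 0
  · rw [hw] at e3 ⊢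
    split_ifs
    all_goals first | exact e3 | simp
  · rw [e2 hw]
    split_ifs
    · exact e3
    · simp

end Sign

theorem sign_step {τ₀ τ M d : ℕ} (hc : Cube τ₀) (hτ : τ₀ ≤ τ) (h1 : τ ^ 13 < M) (h2 : M ≤ 2 ^ τ)
    (hd : d ≤ M) {μ R η : ℝ} (hμ : 1 < μ) (hR : R ≠ 0) {s : Fin M → ℝ} (hs : ∀ k, 0 < s k) :
    symI (d := d) (Gbad τ μ s) (fun k => (s k - 1) / R) (fun k => μ / s k - 1) η ≤
      ENNReal.ofReal (Real.exp (-17 * (τ : ℝ))) *
        symI (d := d) (Gall s) (fun k => (s k - 1) / R) (fun k => μ / s k - 1) η := by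
  classical
  have m1 : Measurable fun z : Fin M × Fin d → ℝ => Gbad τ μ s (mat z) := by
    have := (measurable_Gbad (d := d) τ μ).comp (measurable_prodMk_left (x := s))
    exact this
  have m2 : Measurable fun z : Fin M × Fin d → ℝ => Gall s (mat z) := by
    have := (measurable_Gall (d := d)).comp (measurable_prodMk_left (x := s))
    exact this
  rw [← ENNReal.mul_le_mul_iff_right (a := (Fintype.card (Fin M → Bool) : ENNReal)) (by simp)
    (by simp), mul_left_comm, symI_avg m1, symI_avg m2,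
    ← lintegral_const_mul' _ _ ENNReal.ofReal_ne_top]
  refine lintegral_mono_ae ?_
  have hr := (Measure.quasiMeasurePreserving_fst (μ := gam (Fin M × Fin d))
    (ν := gam (Fin d))).ae (gam_rank (ι := Fin M) (κ := Fin d) (by simpa using hd))
  filter_upwards [hr] with p hp
  have hB := full_rank hp hs
  have hdet : 0 ≤ ((sc s (mat p.1))ᵀ * sc s (mat p.1)).det := by
    have := (Matrix.posSemidef_conjTranspose_mul_self (sc s (mat p.1))).det_nonneg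
    rwa [conjTranspose_eq_transpose_of_trivial] at this
  have key := fun ε => intg_flip (η := η) τ hμ hR hs p rfl hB ε rfl rfl
  simp only [(key _).1, (key _).2]
  have hcube := hc τ M hτ h1 h2 _ (isProj_Pr hB)
    (η • (sc s (mat p.1) *ᵥ (((sc s (mat p.1))ᵀ * sc s (mat p.1))⁻¹ *ᵥ p.2)))
    (by rw [mulVec_smul, Pr_fix hB]) μ (1 / (μ * R)) hμ
    (one_div_ne_zero (mul_ne_zero (by linarith) hR)) s
  rw [← ENNReal.ofReal_sum_of_nonneg, ← ENNReal.ofReal_sum_of_nonneg,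
    ← ENNReal.ofReal_mul (Real.exp_pos _).le, ← Finset.mul_sum, ← Finset.mul_sum, mul_left_comm]
  · exact ENNReal.ofReal_le_ofReal (mul_le_mul_of_nonneg_left hcube hdet)
  · exact fun ε _ => mul_nonneg hdet (wgt_nonneg _ _ _)
  · refine fun ε _ => mul_nonneg hdet ?_
    split_ifs
    · exact wgt_nonneg _ _ _
    · exact le_rfl

end Pool.Agent.P.MP_ef347d_lc
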