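import Pool.Agent.P.MP_ef347d_lc.Basic3
import Pool.Agent.P.MP_ef347d_lc.Path
import Pool.Agent.P.MP_ef347d_lc.Find

/-! The trace trick: a fast central point outside the bad sets gives a delocalised configuration. -/

namespace Pool.Agent.P.MP_ef347d_lc

open Matrix

namespace Trace

variable {ι : Type} [Fintype ι] [DecidableEq ι] {P Q Q' : Matrix ι ι ℝ} {s : ι → ℝ}

omit [DecidableEq ι] in
lemma col_fix (hQ : IsProj Q) (k : ι) : Q *ᵥ (fun j => Q j k) = fun j => Q j k := by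
  funext i
  have := congrFun (congrFun hQ.2 i) k
  rw [Matrix.mul_apply] at this
  exact this

omit [DecidableEq ι] in
lemma symm_apply (hQ : IsProj Q) (i j : ι) : Q i j = Q j i := by
  have := congrFun (congrFun hQ.1 j) i
  rwa [transpose_apply] at this

omit [DecidableEq ι] in
lemma proj_ext (hQ : IsProj Q) (hQ' : IsProj Q') (h : ∀ w, Q *ᵥ w = w ↔ Q' *ᵥ w = w) :
    Q = Q' := by
  have h1 : Q * Q' = Q' := by
    ext i k
    exact congrFun ((h _).2 (col_fix hQ' k)) i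
  have h2 : Q' * Q = Q := by
    ext i k
    exact congrFun ((h _).1 (col_fix hQ k)) i
  have h3 := congrArg transpose h1
  rw [transpose_mul, hQ.1, hQ'.1] at h3
  exact h2.symm.trans h3

lemma trace_sproj (hP : IsProj P) (hs : ∀ k, 0 < s k) : (sproj P s).trace = P.trace := by
  have hu := fW_unit hP hs
  have hc := fW_comm hP hs
  have e : sproj P s = diagonal (fun k => 1 / s k) * ((fW P s)⁻¹ * P *
      diagonal (fun k => 1 / s k)) := by
    simp only [← Matrix.mul_assoc]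
    rfl
  have hd : diagonal (fun k => 1 / s k) * diagonal (fun k => 1 / s k) =
      (diagonal (fun k => 1 / s k ^ 2) : Matrix ι ι ℝ) := by
    rw [diagonal_mul_diagonal]
    congr 1
    funext k
    ring
  have h1 : (fW P s)⁻¹ * P = P * ((fW P s)⁻¹ * P) := by
    rw [hc, ← Matrix.mul_assoc, hP.2]
  rw [e, trace_mul_comm, Matrix.mul_assoc _ _ (diagonal _), hd, h1, Matrix.mul_assoc P,
    trace_mul_comm, Matrix.mul_assoc _ P, Matrix.mul_assoc _ _ P, ← fW_mul hP, ← Matrix.mul_assoc,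
    nonsing_inv_mul _ hu, Matrix.one_mul]

omit [DecidableEq ι] in
lemma sq_le_diag (hQ : IsProj Q) {z : ι → ℝ} (hz : Q *ᵥ z = z) (k : ι) :
    z k ^ 2 ≤ Q k k * ∑ j, z j ^ 2 := by
  have h1 : z k = ∑ j, Q k j * z j := (congrFun hz k).symm
  rw [h1, ← hQ.diag_eq k]
  exact Finset.sum_mul_sq_le_sq_mul_sq _ _ _

omit [DecidableEq ι] in
lemma cmp (hQ : IsProj Q) (hQ' : IsProj Q') {t : ι → ℝ} {a b : ℝ} {k : ι}
    (h : ∀ w, Q *ᵥ w = w → Q' *ᵥ (fun j => t j * w j) = fun j => t j * w j)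
    (hb : ∀ j, t j ^ 2 ≤ b) (ha : a ≤ t k ^ 2) : a * Q k k ≤ b * Q' k k := by
  have h1 := sq_le_diag hQ' (h _ (col_fix hQ k)) k
  have h2 : ∑ j, (t j * Q j k) ^ 2 ≤ b * Q k k := by
    rw [← hQ.diag_eq k, Finset.mul_sum]
    refine Finset.sum_le_sum fun j _ => ?_
    rw [mul_pow, symm_apply hQ j k]
    exact mul_le_mul_of_nonneg_right (hb j) (sq_nonneg _)
  have h3 := hQ'.diag_nonneg k
  have hb0 : 0 ≤ b := (sq_nonneg _).trans (hb k)
  rcases (hQ.diag_nonneg k).eq_or_lt with h0 | h0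
  · rw [← h0, mul_zero]
    positivity
  · have h4 : a * Q k k * Q k k ≤ b * Q' k k * Q k k := by
      have h5 : a * Q k k ^ 2 ≤ t k ^ 2 * Q k k ^ 2 :=
        mul_le_mul_of_nonneg_right ha (sq_nonneg _)
      have h6 : Q' k k * ∑ j, (t j * Q j k) ^ 2 ≤ Q' k k * (b * Q k k) :=
        mul_le_mul_of_nonneg_left h2 h3
      rw [mul_pow] at h1
      nlinarith
    exact le_of_mul_le_mul_right h4 h0

lemma key (hP : IsProj P) (hQ : IsProj Q)
    (h : ∀ w, Q *ᵥ w = w ↔ P *ᵥ (fun k => s k * w k) = fun k => s k * w k)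
    {ε τ μ : ℝ} (hε : 0 < ε) (hε' : ε ≤ 1 / 2) (hτ : 128 ≤ ε ^ 3 * τ) (hμ : 1 < μ)
    (hc : Central P μ s) (hb : ¬ PBad ε τ μ P) :
    (∀ k, s k < 1 + τ * (μ - 1)) ∧
      Fintype.card ι * (μ - 1) ^ 2 / τ ^ 3 < ∑ k, Q k k * (μ - s k) ^ 2 := by
  classical
  have hs := hc.1
  have b1 : ∀ k, s k < 1 + τ * (μ - 1) := fun k =>
    not_le.1 fun h0 => hb ⟨s, hc, Or.inl ⟨k, h0⟩⟩
  have b2 : 16 * {k | |s k - μ| ≤ ε * (μ - 1)}.ncard < 15 * Fintype.card ι :=
    not_le.1 fun h0 => hb ⟨s, hc, Or.inr (Or.inl h0)⟩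
  have b3 : ∀ k, ε < P k k := fun k => not_le.1 fun h0 => hb ⟨s, hc, Or.inr (Or.inr ⟨k, h0⟩)⟩
  refine ⟨b1, ?_⟩
  have hε3 : ε ^ 3 ≤ 1 / 8 := by
    calc ε ^ 3 ≤ (1 / 2) ^ 3 := by gcongr
      _ = 1 / 8 := by norm_num
  have hε0 : 0 < ε ^ 3 := by positivity
  have hτ0 : 0 < τ := by
    by_contra h0
    nlinarith
  have hτ1 : 1 ≤ τ := by nlinarith
  have hδ : 0 < μ - 1 := by linarith
  set N := Finset.univ.filter fun k => ¬ |s k - μ| ≤ ε * (μ - 1) with hN
  have hcard : (Fintype.card ι : ℝ) < 16 * N.card := by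
    have e : {k | |s k - μ| ≤ ε * (μ - 1)} =
        ↑(Finset.univ.filter fun k => |s k - μ| ≤ ε * (μ - 1)) := by
      ext k
      simp
    rw [e, Set.ncard_coe_finset] at b2
    have := Finset.card_filter_add_card_filter_not (s := Finset.univ)
      (fun k => |s k - μ| ≤ ε * (μ - 1))
    rw [Finset.card_univ, ← hN] at this
    have h5 : Fintype.card ι < 16 * N.card := by omega
    exact_mod_cast h5
  set s' : ι → ℝ := fun k => if k ∈ N then τ * μ else s k with hs'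
  have c1 : ∀ k, s k ≤ s' k := by
    intro k
    simp only [hs']
    split_ifs
    · have := b1 k
      nlinarith
    · exact le_rfl
  have c2 : ∀ k, s' k ≤ τ * μ := by
    intro k
    simp only [hs']
    split_ifs
    · exact le_rfl
    · have := b1 k
      nlinarith
  have c3 : ∀ k, μ / 2 ≤ s' k := by
    intro k
    simp only [hs']
    split_ifs with hk
    · nlinarith
    · simp only [hN, Finset.mem_filter, Finset.mem_univ, true_and, not_not] at hk
      have := (abs_le.1 hk).1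
      nlinarith
  have c0 : ∀ k, 0 < s' k := fun k => (hs k).trans_le (c1 k)
  have hQ' := isProj_sproj hP c0
  have d1 : ∀ k, k ∉ N → Q k k ≤ sproj P s' k k := by
    intro k hk
    have := cmp hQ hQ' (t := fun j => s j / s' j) (a := 1) (b := 1) (k := k) (by
      intro w hw
      rw [sproj_fix_iff hP c0]
      have e : (fun j => s' j * (s j / s' j * w j)) = fun j => s j * w j := by
        funext j
        have := (c0 j).ne'
        field_simp
      rw [e]
      exact (h w).1 hw) (by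
      intro j
      have h1 : s j / s' j ≤ 1 := (div_le_one (c0 j)).2 (c1 j)
      have h2 : 0 ≤ s j / s' j := div_nonneg (hs j).le (c0 j).le
      nlinarith) (by
      have : s' k = s k := if_neg hk
      rw [this, div_self (hs k).ne', one_pow])
    linarith
  have d2 : ∀ k, ε / (4 * τ ^ 2) ≤ sproj P s' k k := by
    intro k
    have := cmp hP hQ' (t := fun j => μ / s' j) (a := 1 / τ ^ 2) (b := 4) (k := k) (by
      intro w hw
      rw [sproj_fix_iff hP c0]
      have e : (fun j => s' j * (μ / s' j * w j)) = μ • w := by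
        funext j
        have := (c0 j).ne'
        simp only [Pi.smul_apply, smul_eq_mul]
        field_simp
      rw [e, mulVec_smul, hw]) (by
      intro j
      have h1 : μ / s' j ≤ 2 := by
        rw [div_le_iff₀ (c0 j)]
        linarith [c3 j]
      have h2 : 0 ≤ μ / s' j := div_nonneg (by linarith) (c0 j).le
      nlinarith) (by
      have h1 : 1 / τ ≤ μ / s' k := by
        rw [div_le_div_iff₀ hτ0 (c0 k)]
        linarith [c2 k]
      calc 1 / τ ^ 2 = (1 / τ) ^ 2 := by ring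
        _ ≤ _ := by gcongr)
    have h2 : 1 / τ ^ 2 * ε ≤ 1 / τ ^ 2 * P k k :=
      mul_le_mul_of_nonneg_left (b3 k).le (by positivity)
    have h3 : ε / (4 * τ ^ 2) = 1 / τ ^ 2 * ε / 4 := by ring
    linarith
  have d3 : ∑ k, Q k k = ∑ k, sproj P s' k k := by
    have e : Q = sproj P s :=
      proj_ext hQ (isProj_sproj hP hs) fun w => (h w).trans (sproj_fix_iff hP hs w).symm
    have := (trace_sproj hP hs).trans (trace_sproj hP c0).symm
    rw [← e] at this
    exact this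
  have d4 : N.card * (ε / (4 * τ ^ 2)) ≤ ∑ k ∈ N, Q k k := by
    have e1 := Finset.sum_add_sum_compl N fun k => Q k k
    have e2 := Finset.sum_add_sum_compl N fun k => sproj P s' k k
    have e3 : ∑ k ∈ Nᶜ, Q k k ≤ ∑ k ∈ Nᶜ, sproj P s' k k :=
      Finset.sum_le_sum fun k hk => d1 k (Finset.mem_compl.1 hk)
    have e4 := Finset.card_nsmul_le_sum N (fun k => sproj P s' k k) _ fun k _ => d2 k
    rw [nsmul_eq_mul] at e4
    linarith
  have d5 : (∑ k ∈ N, Q k k) * (ε * (μ - 1)) ^ 2 ≤ ∑ k, Q k k * (μ - s k) ^ 2 := by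
    rw [Finset.sum_mul]
    refine le_trans (Finset.sum_le_sum fun k hk => ?_)
      (Finset.sum_le_sum_of_subset_of_nonneg (Finset.subset_univ N) fun k _ _ =>
        mul_nonneg (hQ.diag_nonneg k) (sq_nonneg _))
    refine mul_le_mul_of_nonneg_left ?_ (hQ.diag_nonneg k)
    simp only [hN, Finset.mem_filter, Finset.mem_univ, true_and, not_le] at hk
    rw [← sq_abs (μ - s k), abs_sub_comm]
    gcongr
  have d6 : N.card * (ε / (4 * τ ^ 2)) * (ε * (μ - 1)) ^ 2 ≤
      (∑ k ∈ N, Q k k) * (ε * (μ - 1)) ^ 2 := mul_le_mul_of_nonneg_right d4 (sq_nonneg _)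
  refine lt_of_lt_of_le ?_ (d6.trans d5)
  have e : N.card * (ε / (4 * τ ^ 2)) * (ε * (μ - 1)) ^ 2 =
      N.card * (ε ^ 3 * τ) / 4 * (μ - 1) ^ 2 / τ ^ 3 := by
    field_simp
  rw [e]
  have h7 : (N.card : ℝ) * 128 ≤ N.card * (ε ^ 3 * τ) :=
    mul_le_mul_of_nonneg_left hτ (by positivity)
  have h8 : (0 : ℝ) ≤ N.card := by positivity
  gcongr
  linarith

lemma close {s y μ τ : ℝ} (hs : 0 < s) (hμ : 1 < μ) (hτ : 1 < τ) (e : s * y = μ)
    (h1 : s < 1 + τ * (μ - 1)) (h2 : y < 1 + τ * (μ - 1)) : |μ - s| < τ * (μ - 1) := by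
  have h3 : μ - 1 < τ * (μ - 1) := by nlinarith
  rw [abs_lt]
  refine ⟨by linarith, ?_⟩
  rcases le_or_gt 1 s with h | h
  · linarith
  · rcases le_or_gt y 1 with h' | h'
    · nlinarith
    · nlinarith

variable {M d : ℕ} {A : Matrix (Fin M) (Fin d) ℝ} {s : Fin M → ℝ}

lemma sc_mulVec (x : Fin d → ℝ) : sc s A *ᵥ x = fun k => (A *ᵥ x) k / s k := by
  funext k
  rw [sc, ← mulVec_mulVec, mulVec_diagonal]
  ring

lemma sc_tr_mulVec (w : Fin M → ℝ) : (sc s A)ᵀ *ᵥ w = Aᵀ *ᵥ fun k => w k / s k := by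
  rw [sc, transpose_mul, diagonal_transpose, ← mulVec_mulVec]
  congr 1
  funext k
  rw [mulVec_diagonal]
  ring

lemma sc_unit (hA : IsUnit (Aᵀ * A).det) (hs : ∀ k, 0 < s k) :
    IsUnit ((sc s A)ᵀ * sc s A).det := by
  rw [isUnit_iff_ne_zero] at hA ⊢
  intro h
  obtain ⟨x, hx, h0⟩ := exists_mulVec_eq_zero_iff.2 h
  refine hA (exists_mulVec_eq_zero_iff.1 ⟨x, hx, ?_⟩)
  have h1 : (sc s A *ᵥ x) ⬝ᵥ (sc s A *ᵥ x) = 0 := by
    rw [mulVec_dot, mulVec_mulVec, h0, dotProduct_zero]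
  have h2 := dotProduct_self_eq_zero.1 h1
  have h3 : A *ᵥ x = 0 := by
    funext k
    have := congrFun h2 k
    rw [sc_mulVec] at this
    exact (div_eq_zero_iff.1 this).resolve_right (hs k).ne'
  rw [← mulVec_mulVec, h3, mulVec_zero]

lemma sc_fix (hA : IsUnit (Aᵀ * A).det) (hs : ∀ k, 0 < s k) (w : Fin M → ℝ) :
    Pr (sc s A) *ᵥ w = w ↔ Pr A *ᵥ (fun k => s k * w k) = fun k => s k * w k := by
  rw [Pr_fix_iff (sc_unit hA hs), Pr_fix_iff hA]
  refine exists_congr fun x => ?_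
  rw [sc_mulVec, funext_iff, funext_iff]
  refine forall_congr' fun k => ?_
  rw [eq_div_iff (hs k).ne', mul_comm]

lemma sc_zero (hA : IsUnit (Aᵀ * A).det) (hs : ∀ k, 0 < s k) (w : Fin M → ℝ) :
    Pr (sc s A) *ᵥ w = 0 ↔ Pr A *ᵥ (fun k => w k / s k) = 0 := by
  rw [Pr_zero_iff (sc_unit hA hs), Pr_zero_iff hA, sc_tr_mulVec]

end Trace

open Trace in
theorem phi_of_fast {M d : ℕ} {A : Matrix (Fin M) (Fin d) ℝ} (hA : IsUnit (Aᵀ * A).det)
    {ε τ μ : ℝ} (hε : 0 < ε) (hε' : ε ≤ 1 / 2) (hτ : 128 ≤ ε ^ 3 * τ) (hμ : 1 < μ)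
    (h1 : ¬ PBad ε τ μ (Pr A)) (h2 : ¬ PBad ε τ μ (1 - Pr A)) (hf : Fast (τ ^ 7) μ (Pr A)) :
    ∃ x, (∀ k, 0 < sl A x k) ∧ nv μ A x = 0 ∧ Phi τ μ (sl A x) (Pr (sc (sl A x) A)) := by
  obtain ⟨s, v, hc, hv, k, hk⟩ := hf
  have hs := hc.1
  have hμ0 : 0 < μ := by linarith
  obtain ⟨x, hx⟩ := (Pr_fix_iff hA _).1 hc.2.1
  have e : sl A x = s := by
    funext j
    have := congrFun hx j
    simp only [sl]
    linarith
  have hP := isProj_Pr hA
  have hQ := isProj_Pr (sc_unit hA hs)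
  refine ⟨x, by rw [e]; exact hs, ?_, ?_⟩
  · rw [nv, e]
    exact (Pr_zero_iff hA _).1 hc.2.2
  rw [e]
  obtain ⟨a1, a2⟩ := key hP hQ (sc_fix hA hs) hε hε' hτ hμ hc h1
  obtain ⟨b1, b2⟩ := key hP.compl hQ.compl (s := fun k => μ / s k) (by
    intro w
    have e1 : (fun k => μ / s k * w k) = μ • fun k => w k / s k := by
      funext j
      simp only [Pi.smul_apply, smul_eq_mul]
      ring
    rw [sub_mulVec, sub_mulVec, one_mulVec, one_mulVec, sub_eq_self, sub_eq_self, sc_zero hA hs,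
      e1, mulVec_smul, smul_eq_zero]
    simp [hμ0.ne']) hε hε' hτ hμ (hc.dual hμ0) h2
  have hε3 : ε ^ 3 ≤ 1 / 8 := by
    calc ε ^ 3 ≤ (1 / 2) ^ 3 := by gcongr
      _ = 1 / 8 := by norm_num
  have hε0 : 0 < ε ^ 3 := by positivity
  have hτ0 : 0 < τ := by
    by_contra h0
    nlinarith
  have hτ1 : 1 < τ := by nlinarith
  have hm : ∀ j, s j * (μ / s j) = μ := fun j => by
    have := (hs j).ne'
    field_simp
  rw [Fintype.card_fin] at a2 b2
  refine ⟨fun j => close (hs j) hμ hτ1 (hm j) (a1 j) (b1 j),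
    fun j => close (div_pos hμ0 (hs j)) hμ hτ1 (by rw [mul_comm]; exact hm j) (b1 j) (a1 j),
    a2, ?_, ?_, k, ?_⟩
  · simpa only [Matrix.sub_apply, one_apply_eq] using b2
  · have : Pr (sc s A) *ᵥ (fun j => μ - s j) = 0 := by
      rw [sc_zero hA hs, ← hc.2.2]
      congr 1
      funext j
      have := (hs j).ne'
      field_simp
    rw [this, dotProduct_zero]
    have : 0 < μ - 1 := by linarith
    positivity
  · have e1 : (fun _ => 1 : Fin M → ℝ) = v + fun j => 1 - v j := by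
      funext j
      simp
    rw [e1, mulVec_add, (sc_fix hA hs v).2 hv.1, (sc_zero hA hs _).2 hv.2, add_zero]
    exact hk

end Pool.Agent.P.MP_ef347d_lc
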