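import Pool.Agent.P.MP_ef347d_lc.Basic3
import Pool.Agent.P.MP_ef347d_lc.Path
import Pool.Agent.P.MP_ef347d_lc.Good3
import Pool.Agent.P.MP_ef347d_lc.Trace

/-! The rank two update identities and the sign symmetrisation. -/

namespace Pool.Agent.P.MP_ef347d_lc

open Matrix MeasureTheory ProbabilityTheory

namespace SignB

variable {M d : ℕ}

lemma unit_dot {n : Fin d → ℝ} (hn : n ≠ 0) : unitv n ⬝ᵥ unitv n = 1 ∧ n = √(n ⬝ᵥ n) • unitv n ∧ 0 < n ⬝ᵥ n := by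
  have hxx : 0 < n ⬝ᵥ n :=
    lt_of_le_of_ne (dot_self_nonneg n) fun h => hn (dotProduct_self_eq_zero.mp h.symm)
  have hR : 0 < √(n ⬝ᵥ n) := Real.sqrt_pos.mpr hxx
  refine ⟨?_, by rw [unitv, smul_smul, mul_inv_cancel₀ hR.ne', one_smul], hxx⟩
  rw [unitv, smul_dotProduct, dotProduct_smul, smul_eq_mul, smul_eq_mul]
  have := Real.mul_self_sqrt hxx.le
  field_simp
  linarith

lemma det_rank2 (H : Matrix (Fin d) (Fin d) ℝ) (hH : IsUnit H.det) (p u : Fin d → ℝ) (r : ℝ) :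
    (H + vecMulVec p u + vecMulVec u (p + r • u)).det =
      H.det * ((1 + u ⬝ᵥ (H⁻¹ *ᵥ p)) * (1 + (p + r • u) ⬝ᵥ (H⁻¹ *ᵥ u)) -
        (u ⬝ᵥ (H⁻¹ *ᵥ u)) * ((p + r • u) ⬝ᵥ (H⁻¹ *ᵥ p))) := by
  let U : Matrix (Fin d) (Fin 2) ℝ := Matrix.of fun i k => ![p i, u i] k
  let V : Matrix (Fin 2) (Fin d) ℝ := Matrix.of ![u, p + r • u]
  have h1 : H + vecMulVec p u + vecMulVec u (p + r • u) = H + U * V := by
    ext i j
    simp [U, V, Matrix.mul_apply, Fin.sum_univ_two, vecMulVec_apply, add_assoc]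
  have h2 : ∀ a b, (V * H⁻¹ * U) a b = V a ⬝ᵥ (H⁻¹ *ᵥ fun i => U i b) := by
    intro a b
    rw [Matrix.mul_assoc, Matrix.mul_apply]
    rfl
  rw [h1, det_add_mul _ _ hH, det_fin_two]
  simp only [Matrix.add_apply, h2]
  have e0 : V 0 = u := rfl
  have e1 : V 1 = p + r • u := rfl
  have e2 : (fun i => U i 0) = p := rfl
  have e3 : (fun i => U i 1) = u := rfl
  rw [e0, e1, e2, e3]
  simp

end SignB

open SignB

theorem alg_det {M d : ℕ} (B : Matrix (Fin M) (Fin d) ℝ) (hB : IsUnit (Bᵀ * B).det)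
    (n : Fin d → ℝ) (a : Fin M → ℝ) :
    (n ⬝ᵥ n) * ((plant a (unitv n) B)ᵀ * plant a (unitv n) B).det =
        (Bᵀ * B).det * wgt (Pr B) (B *ᵥ ((Bᵀ * B)⁻¹ *ᵥ n)) a ∧
      (wgt (Pr B) (B *ᵥ ((Bᵀ * B)⁻¹ *ᵥ n)) a ≠ 0 →
        Pr (plant a (unitv n) B) = Qup (Pr B) (B *ᵥ ((Bᵀ * B)⁻¹ *ᵥ n)) a) := by
  by_cases hn : n = 0
  · simp [hn, wgt]
  obtain ⟨hu, hnu, hnn⟩ := unit_dot hn
  set u := unitv n with hudef
  set H := Bᵀ * B with hH
  set b := B *ᵥ (H⁻¹ *ᵥ n) with hb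
  set ρ := √(n ⬝ᵥ n) with hρ
  have hρ2 : ρ * ρ = n ⬝ᵥ n := Real.mul_self_sqrt hnn.le
  have hP := isProj_Pr hB
  have hHs : H⁻¹ᵀ = H⁻¹ := by rw [transpose_nonsing_inv, hH, transpose_mul, transpose_transpose]
  have hadj : ∀ x y, (H⁻¹ *ᵥ x) ⬝ᵥ y = x ⬝ᵥ (H⁻¹ *ᵥ y) := fun x y => by rw [mulVec_dot, hHs]
  have hBb : Bᵀ *ᵥ b = n := by
    rw [hb, mulVec_mulVec, mulVec_mulVec, ← hH, mul_nonsing_inv _ hB, one_mulVec]
  have hPb : Pr B *ᵥ b = b := Pr_fix hB _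
  have hPr : ∀ x, Pr B *ᵥ x = B *ᵥ (H⁻¹ *ᵥ (Bᵀ *ᵥ x)) := fun x => by
    rw [mulVec_mulVec, mulVec_mulVec]; rfl
  have hbb : b ⬝ᵥ b = n ⬝ᵥ (H⁻¹ *ᵥ n) := by
    conv_lhs => rw [hb, mulVec_dot, ← hb, hBb, dotProduct_comm]
  have hb0 : b ⬝ᵥ b ≠ 0 := fun h => hn (by rw [← hBb, dotProduct_self_eq_zero.mp h, mulVec_zero])
  set r := a - Pr B *ᵥ a with hr
  have hPr0 : Pr B *ᵥ r = 0 := by rw [hr, mulVec_sub, hP.idem, sub_self]
  have hbr : b ⬝ᵥ r = 0 := hP.orth hPb hPr0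
  have hap : aperp (Pr B) b a ⬝ᵥ aperp (Pr B) b a = r ⬝ᵥ r + (b ⬝ᵥ a) ^ 2 / (b ⬝ᵥ b) := by
    rw [aperp, ← hr, add_dotProduct, dotProduct_add, dotProduct_add, smul_dotProduct,
      smul_dotProduct, dotProduct_smul, dotProduct_smul, hbr, dotProduct_comm r b, hbr]
    simp only [smul_eq_mul]
    field_simp
    ring
  set q := a - B *ᵥ u with hq
  set p := Bᵀ *ᵥ q with hp
  have hA : plant a u B = B + vecMulVec q u := by
    rw [plant, Matrix.mul_sub, Matrix.mul_one, mul_vecMulVec, hq, sub_vecMulVec]; abel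
  have hAA : (plant a u B)ᵀ * plant a u B = H + vecMulVec p u + vecMulVec u (p + (q ⬝ᵥ q) • u) := by
    rw [hA, transpose_add, transpose_vecMulVec, Matrix.add_mul, Matrix.mul_add, Matrix.mul_add,
      mul_vecMulVec, vecMulVec_mul, vecMulVec_mul_vecMulVec, vecMulVec_add, ← mulVec_transpose]
  have hHp : H⁻¹ *ᵥ p = H⁻¹ *ᵥ (Bᵀ *ᵥ a) - u := by
    rw [hp, hq, mulVec_sub, mulVec_sub, mulVec_mulVec u, ← hH, mulVec_mulVec u,
      nonsing_inv_mul _ hB, one_mulVec]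
  have hba : b ⬝ᵥ a = ρ * (1 + u ⬝ᵥ (H⁻¹ *ᵥ p)) := by
    rw [hHp, dotProduct_sub, hu, hb, mulVec_dot, hadj]
    conv_lhs => rw [hnu]
    simp
  have hqr : q ⬝ᵥ q - p ⬝ᵥ (H⁻¹ *ᵥ p) = r ⬝ᵥ r := by
    have e1 : r = q - Pr B *ᵥ q := by
      rw [hq, mulVec_sub, Pr_fix hB, hr]; abel
    have e2 : p ⬝ᵥ (H⁻¹ *ᵥ p) = q ⬝ᵥ (Pr B *ᵥ q) := by
      rw [hPr, ← hp, dotProduct_comm q, mulVec_dot B, ← hp, dotProduct_comm]
    rw [e1, e2, sub_dotProduct q, dotProduct_sub q q, dotProduct_sub _ q, hP.dot_proj,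
      dotProduct_comm (Pr B *ᵥ q) q]
    ring
  have hbb' : b ⬝ᵥ b = ρ * ρ * (u ⬝ᵥ (H⁻¹ *ᵥ u)) := by
    rw [hbb]
    conv_lhs => rw [hnu]
    simp [mulVec_smul, mul_assoc]
  have hdet : (n ⬝ᵥ n) * ((plant a u B)ᵀ * plant a u B).det = H.det * wgt (Pr B) b a := by
    rw [hAA, det_rank2 _ hB, wgt, hap, mul_add (b ⬝ᵥ b), mul_div_cancel₀ _ hb0, hba, hbb', ← hqr,
      ← hρ2, add_dotProduct, add_dotProduct, smul_dotProduct, smul_dotProduct, ← hadj p u,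
      dotProduct_comm (H⁻¹ *ᵥ p) u]
    simp only [smul_eq_mul]
    ring
  refine ⟨hdet, fun hw => ?_⟩
  have hAu : IsUnit ((plant a u B)ᵀ * plant a u B).det := by
    rw [isUnit_iff_ne_zero]
    intro h
    rw [h, mul_zero] at hdet
    exact mul_ne_zero hB.ne_zero hw hdet.symm
  set ap := aperp (Pr B) b a with hapd
  have hap0 : ap ⬝ᵥ ap ≠ 0 := fun h => hw (by rw [wgt, ← hapd, h, mul_zero])
  set A := plant a u B with hAdef
  have hQ : ∀ x, Qup (Pr B) b a *ᵥ x =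
      Pr B *ᵥ x - ((b ⬝ᵥ x) / (b ⬝ᵥ b)) • b + ((ap ⬝ᵥ x) / (ap ⬝ᵥ ap)) • ap := by
    intro x
    rw [Qup, add_mulVec, sub_mulVec, smul_mulVec, smul_mulVec, vecMulVec_mulVec, vecMulVec_mulVec,
      ← hapd]
    ext i; simp; ring
  have hAw : ∀ w, A *ᵥ w = (u ⬝ᵥ w) • a + B *ᵥ (w - (u ⬝ᵥ w) • u) := by
    intro w
    rw [hA, add_mulVec, vecMulVec_mulVec, hq, mulVec_sub, mulVec_smul]
    ext i; simp; ring
  have hape : ap = r + ((b ⬝ᵥ a) / (b ⬝ᵥ b)) • b := rfl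
  have hBw : ∀ w, u ⬝ᵥ w = 0 → b ⬝ᵥ (B *ᵥ w) = 0 ∧ ap ⬝ᵥ (B *ᵥ w) = 0 := by
    intro w hw
    have h1 : b ⬝ᵥ (B *ᵥ w) = 0 := by
      rw [dotProduct_comm, mulVec_dot, hBb, hnu, dotProduct_smul, dotProduct_comm, hw]; simp
    refine ⟨h1, ?_⟩
    rw [hape, add_dotProduct, smul_dotProduct, h1, dotProduct_comm,
      hP.orth (Pr_fix hB w) hPr0]; simp
  have hw0 : ∀ x, ∃ w, u ⬝ᵥ w = 0 ∧ Pr B *ᵥ x - ((b ⬝ᵥ x) / (b ⬝ᵥ b)) • b = B *ᵥ w := by
    intro x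
    refine ⟨H⁻¹ *ᵥ (Bᵀ *ᵥ x) - ((b ⬝ᵥ x) / (b ⬝ᵥ b)) • (H⁻¹ *ᵥ n), ?_, ?_⟩
    · have h1 : n ⬝ᵥ (H⁻¹ *ᵥ (Bᵀ *ᵥ x) - ((b ⬝ᵥ x) / (b ⬝ᵥ b)) • (H⁻¹ *ᵥ n)) = 0 := by
        rw [dotProduct_sub, dotProduct_smul, ← hbb, ← hadj, ← mulVec_dot, ← hb]
        simp only [smul_eq_mul]
        field_simp
        ring
      rw [hnu, smul_dotProduct, smul_eq_mul, mul_eq_zero] at h1
      rcases h1 with h1 | h1
      · rw [h1, mul_zero] at hρ2; linarith
      · rwa [← hnu] at h1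
    · rw [mulVec_sub, mulVec_smul, ← hb, hPr]
  have haa : ap ⬝ᵥ a = ap ⬝ᵥ ap := by
    obtain ⟨w, h1, h2⟩ := hw0 a
    have : a = ap + B *ᵥ w := by rw [← h2, hape, hr]; abel
    conv_lhs => rw [this, dotProduct_add, (hBw w h1).2, add_zero]
  have h1 : Qup (Pr B) b a * A = A := by
    refine Matrix.ext_iff_mulVec.mpr fun w => ?_
    have hw : u ⬝ᵥ (w - (u ⬝ᵥ w) • u) = 0 := by rw [dotProduct_sub, dotProduct_smul, hu]; simp
    rw [← mulVec_mulVec, hAw, mulVec_add, mulVec_smul, hQ, hQ, (hBw _ hw).1, (hBw _ hw).2,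
      Pr_fix hB, haa, div_self hap0, hape, hr]
    ext i; simp
  have h2 : Pr A * Qup (Pr B) b a = Qup (Pr B) b a := by
    refine Matrix.ext_iff_mulVec.mpr fun x => ?_
    rw [← mulVec_mulVec, (Pr_fix_iff hAu _).mpr]
    obtain ⟨w, k1, k2⟩ := hw0 x
    obtain ⟨w', k3, k4⟩ := hw0 a
    refine ⟨w + ((ap ⬝ᵥ x) / (ap ⬝ᵥ ap)) • (u - w'), ?_⟩
    have e : ap = a - B *ᵥ w' := by rw [← k4, hape, hr]; abel
    have e' : A *ᵥ (u - w') = ap := by
      rw [mulVec_sub, hAw, hAw, k3, hu, e]; simp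
    rw [hQ, k2, mulVec_add, mulVec_smul, e', hAw, k1]
    simp
  have hQs : (Qup (Pr B) b a)ᵀ = Qup (Pr B) b a := by
    rw [Qup, transpose_add, transpose_sub, transpose_smul, transpose_smul, transpose_vecMulVec,
      transpose_vecMulVec, hP.1]
  have h3 : Qup (Pr B) b a * Pr A = Pr A := by
    show Qup (Pr B) b a * (A * (Aᵀ * A)⁻¹ * Aᵀ) = _
    rw [← Matrix.mul_assoc, ← Matrix.mul_assoc, h1]; rfl
  rw [← h3, ← hQs, ← (isProj_Pr hAu).1, ← transpose_mul, h2]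

theorem measurable_sc {M d : ℕ} :
    Measurable fun p : (Fin M → ℝ) × (Fin M × Fin d → ℝ) =>
      fun q : Fin M × Fin d => sc p.1 (mat p.2) q.1 q.2 := by
  refine measurable_pi_lambda _ fun q => ?_
  simp only [sc, diagonal_mul, mat, of_apply]
  fun_prop

theorem measurable_Gall {M d : ℕ} :
    Measurable fun p : (Fin M → ℝ) × (Fin M × Fin d → ℝ) => Gall p.1 (mat p.2) := by
  have h : Continuous fun z : Fin M × Fin d → ℝ => ((mat z)ᵀ * mat z).det :=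
    (cont_mat.matrix_transpose.matrix_mul cont_mat).matrix_det
  exact (h.measurable.comp measurable_sc).ennreal_ofReal

theorem measurable_Gbad {M d : ℕ} (τ μ : ℝ) :
    Measurable fun p : (Fin M → ℝ) × (Fin M × Fin d → ℝ) => Gbad τ μ p.1 (mat p.2) := by
  have hQ : ∀ i j, Measurable fun p : (Fin M → ℝ) × (Fin M × Fin d → ℝ) =>
      Pr (sc p.1 (mat p.2)) i j := fun i j => by
    have := (Good3.measurable_Pr (M := M) (d := d) i j).comp (measurable_sc (M := M) (d := d))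
    exact this
  unfold Gbad
  refine Measurable.ite ?_ measurable_Gall measurable_const
  simp only [Phi, Set.ofPred_and, Set.ofPred_forall, Set.ofPred_exists, mulVec, dotProduct]
  refine MeasurableSet.inter (MeasurableSet.iInter fun k => ?_) (MeasurableSet.inter
    (MeasurableSet.iInter fun k => ?_) (MeasurableSet.inter ?_ (MeasurableSet.inter ?_
    (MeasurableSet.inter ?_ (MeasurableSet.iUnion fun k => ?_))))) <;>
  exact measurableSet_lt (by fun_prop) (by fun_prop)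

lemma sc_plant {M d : ℕ} (s a : Fin M → ℝ) (u : Fin d → ℝ) (B : Matrix (Fin M) (Fin d) ℝ) :
    sc s (plant a u B) = plant (fun k => a k / s k) u (sc s B) := by
  rw [sc, plant, plant, Matrix.mul_add, mul_vecMulVec, sc, Matrix.mul_assoc]
  congr 2
  ext k; simp [mulVec_diagonal]; ring

lemma meas_sym {M d : ℕ} {G : Matrix (Fin M) (Fin d) ℝ → ENNReal}
    (hG : Measurable fun z => G (mat z)) (a β : Fin M → ℝ) (η : ℝ) :
    Measurable fun p : (Fin M × Fin d → ℝ) × (Fin d → ℝ) =>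
    ENNReal.ofReal (((mat p.1)ᵀ *ᵥ β + η • p.2) ⬝ᵥ ((mat p.1)ᵀ *ᵥ β + η • p.2)) *
      G (plant a (unitv ((mat p.1)ᵀ *ᵥ β + η • p.2)) (mat p.1)) := by
  have h1 : Measurable fun p : (Fin M × Fin d → ℝ) × (Fin d → ℝ) => (mat p.1)ᵀ *ᵥ β + η • p.2 := by
    refine measurable_pi_lambda _ fun j => ?_
    simp only [mulVec, dotProduct, mat, of_apply, transpose_apply, Pi.add_apply, Pi.smul_apply,
      smul_eq_mul]
    fun_prop
  have h2 : Measurable fun n : Fin d → ℝ => n ⬝ᵥ n := by unfold dotProduct; fun_prop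
  have h3 : Measurable fun n : Fin d → ℝ => unitv n := by
    unfold unitv
    exact (h2.sqrt.inv).smul measurable_id
  have h4 : Measurable fun p : (Fin d → ℝ) × (Fin M × Fin d → ℝ) =>
      fun q : Fin M × Fin d => plant a p.1 (mat p.2) q.1 q.2 := by
    refine measurable_pi_lambda _ fun q => ?_
    simp only [plant, Matrix.add_apply, Matrix.mul_apply, Matrix.sub_apply, vecMulVec_apply, mat,
      of_apply]
    fun_prop
  exact (h2.comp h1).ennreal_ofReal.mul (hG.comp (h4.comp ((h3.comp h1).prodMk measurable_fst)))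

lemma sgn_mul {M : ℕ} (ε : Fin M → Bool) : diagonal (sgn ε) * (diagonal (sgn ε))ᵀ = 1 := by
  rw [diagonal_transpose, diagonal_mul_diagonal, ← diagonal_one]
  congr 1; ext k; unfold sgn; split_ifs <;> simp

lemma sym_avg {M d : ℕ} {F : (Fin M × Fin d → ℝ) × (Fin d → ℝ) → ENNReal} (hF : Measurable F) :
    ∫⁻ p, ∑ ε : Fin M → Bool, F (Good3.lmul (diagonal (sgn ε)) p.1, p.2)
      ∂(gam (Fin M × Fin d)).prod (gam (Fin d)) =
      2 ^ M * ∫⁻ p, F p ∂(gam (Fin M × Fin d)).prod (gam (Fin d)) := by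
  have h : ∀ ε : Fin M → Bool, MeasurePreserving
      (Prod.map (Good3.lmul (d := d) (diagonal (sgn ε))) (id : (Fin d → ℝ) → _))
      ((gam (Fin M × Fin d)).prod (gam (Fin d))) ((gam (Fin M × Fin d)).prod (gam (Fin d))) :=
    fun ε => (Good3.lmul_preserving _ (sgn_mul ε)).prod (MeasurePreserving.id _)
  refine (lintegral_finsetSum _ fun ε _ => hF.comp (h ε).measurable).trans ?_
  simp only [Function.comp_apply, Prod.map, id]
  have : ∀ ε : Fin M → Bool, ∫⁻ p, F (Good3.lmul (diagonal (sgn ε)) p.1, p.2)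
      ∂(gam (Fin M × Fin d)).prod (gam (Fin d)) = _ := fun ε => (h ε).lintegral_comp hF
  simp [this]

theorem sign_step {τ₀ τ M d : ℕ} (hc : Cube τ₀) (hτ : τ₀ ≤ τ) (h1 : τ ^ 13 < M) (h2 : M ≤ 2 ^ τ)
    (hd : d ≤ M) {μ R η : ℝ} (hμ : 1 < μ) (hR : R ≠ 0) {s : Fin M → ℝ} (hs : ∀ k, 0 < s k) :
    symI (d := d) (Gbad τ μ s) (fun k => (s k - 1) / R) (fun k => μ / s k - 1) η ≤
      ENNReal.ofReal (Real.exp (-17 * (τ : ℝ))) *
        symI (d := d) (Gall s) (fun k => (s k - 1) / R) (fun k => μ / s k - 1) η := by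
  classical
  have mb := meas_sym (G := Gbad τ μ s) ((measurable_Gbad (M := M) (d := d) τ μ).of_uncurry_left
    (x := s) (f := fun s z => Gbad τ μ s (mat z))) (fun k => (s k - 1) / R) (fun k => μ / s k - 1) η
  have ma := meas_sym (G := Gall s) ((measurable_Gall (M := M) (d := d)).of_uncurry_left
    (x := s) (f := fun s z => Gall s (mat z))) (fun k => (s k - 1) / R) (fun k => μ / s k - 1) η
  rw [← ENNReal.mul_le_mul_iff_right (a := 2 ^ M) (by simp) (by simp), mul_left_comm, symI, symI,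
    ← sym_avg mb, ← sym_avg ma, ← lintegral_const_mul' _ _ ENNReal.ofReal_ne_top]
  refine lintegral_mono_ae ?_
  have hr := gam_rank (ι := Fin M) (κ := Fin d) (by simpa using hd)
  filter_upwards [(measurePreserving_fst (μ := gam (Fin M × Fin d))
    (ν := gam (Fin d))).quasiMeasurePreserving.ae hr] with p hp
  have hB := Trace.sc_unit hp hs
  set B := sc s (mat p.1) with hBd
  set e := η • (B *ᵥ ((Bᵀ * B)⁻¹ *ᵥ p.2)) with he
  have hμ0 : 0 < μ := by linarith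
  have key := hc τ M hτ h1 h2 (Pr B) (isProj_Pr hB) e (by rw [he, mulVec_smul, Pr_fix hB]) μ
    (1 / (μ * R)) hμ (by positivity) s
  have ea : (fun k => (s k - 1) / R / s k) = fun k => 1 / (μ * R) * (μ - μ / s k) := by
    ext k; have := (hs k).ne'; field_simp
  have hdet : 0 ≤ (Bᵀ * B).det := (posSemidef_conjTranspose_mul_self B).det_nonneg
  have main : ∀ ε : Fin M → Bool, ∀ n, n = (diagonal (sgn ε) * mat p.1)ᵀ *ᵥ (fun k => μ / s k - 1) + η • p.2 →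
      (n ⬝ᵥ n) * ((sc s (plant (fun k => (s k - 1) / R) (unitv n) (diagonal (sgn ε) * mat p.1)))ᵀ *
        sc s (plant (fun k => (s k - 1) / R) (unitv n) (diagonal (sgn ε) * mat p.1))).det =
        (Bᵀ * B).det * wgt (flipP ε (Pr B)) (bflip ε (Pr B) (fun k => μ - s k) e)
          (fun k => 1 / (μ * R) * (μ - μ / s k)) ∧
      (wgt (flipP ε (Pr B)) (bflip ε (Pr B) (fun k => μ - s k) e)
          (fun k => 1 / (μ * R) * (μ - μ / s k)) ≠ 0 →
        Pr (sc s (plant (fun k => (s k - 1) / R) (unitv n) (diagonal (sgn ε) * mat p.1))) =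
          Qup (flipP ε (Pr B)) (bflip ε (Pr B) (fun k => μ - s k) e)
          (fun k => 1 / (μ * R) * (μ - μ / s k))) := by
    intro ε n hn
    have g1 := sgn_mul ε
    have g2 : (diagonal (sgn ε))ᵀ * diagonal (sgn ε) = 1 := mul_eq_one_comm.mp g1
    have e1 : sc s (diagonal (sgn ε) * mat p.1) = diagonal (sgn ε) * B := by
      rw [hBd, sc, sc, ← Matrix.mul_assoc, ← Matrix.mul_assoc, diagonal_mul_diagonal,
        diagonal_mul_diagonal]
      simp [mul_comm]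
    have e2 : (diagonal (sgn ε) * B)ᵀ * (diagonal (sgn ε) * B) = Bᵀ * B := by
      rw [transpose_mul, Matrix.mul_assoc, ← Matrix.mul_assoc _ (diagonal _) B, g2, Matrix.one_mul]
    have e3 : Pr (diagonal (sgn ε) * B) = flipP ε (Pr B) := by
      rw [Good3.Pr_lmul _ g2, flipP, diagonal_transpose]
    have e4 : (diagonal (sgn ε) * mat p.1)ᵀ *ᵥ (fun k => μ / s k - 1) =
        (diagonal (sgn ε) * B)ᵀ *ᵥ fun k => μ - s k := by
      rw [← e1, sc, transpose_mul _ (_ * _), ← mulVec_mulVec, diagonal_transpose]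
      congr 1; ext k; have := (hs k).ne'; simp [mulVec_diagonal]; field_simp
    have e5 : (diagonal (sgn ε) * B) *ᵥ ((Bᵀ * B)⁻¹ *ᵥ n) = bflip ε (Pr B) (fun k => μ - s k) e := by
      rw [hn, e4, mulVec_add, mulVec_add, bflip, ← e3, Pr, e2, mulVec_mulVec, mulVec_mulVec,
        mulVec_smul, mulVec_smul, ← mulVec_mulVec _ (diagonal _) B]
      congr 1; ext k
      rw [he, Pi.smul_apply, Pi.smul_apply, mulVec_diagonal]; simp only [smul_eq_mul]; ring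
    have := alg_det (diagonal (sgn ε) * B) (by rwa [e2]) n (fun k => (s k - 1) / R / s k)
    rwa [e2, e5, e3, ← e1, ← sc_plant, ea] at this
  have wn : ∀ (P : Matrix (Fin M) (Fin M) ℝ) b a, 0 ≤ wgt P b a := fun P b a =>
    mul_nonneg (dot_self_nonneg _) (dot_self_nonneg _)
  simp only [Good3.mat_lmul, Gbad, Gall, mul_ite, mul_zero,
    ← ENNReal.ofReal_mul (dot_self_nonneg _), (main _ _ rfl).1]
  rw [← ENNReal.ofReal_sum_of_nonneg fun ε _ => mul_nonneg hdet (wn _ _ _),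
    ← ENNReal.ofReal_mul (Real.exp_pos _).le, ← Finset.mul_sum, mul_left_comm]
  refine le_trans ?_ (ENNReal.ofReal_le_ofReal (mul_le_mul_of_nonneg_left key hdet))
  rw [Finset.mul_sum, ENNReal.ofReal_sum_of_nonneg fun ε _ => mul_nonneg hdet (by
    split_ifs; exacts [wn _ _ _, le_rfl])]
  refine Finset.sum_le_sum fun ε _ => ?_
  by_cases hw : wgt (flipP ε (Pr B)) (bflip ε (Pr B) (fun k => μ - s k) e)
          (fun k => 1 / (μ * R) * (μ - μ / s k)) = 0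
  · simp only [hw]; simp
  · rw [(main ε _ rfl).2 hw]
    split_ifs <;> simp

end Pool.Agent.P.MP_ef347d_lc
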