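import Pool.Agent.P.MP_ef347d_lc.Good1
import Pool.Agent.P.MP_ef347d_lc.Good3
import Pool.Agent.P.MP_ef347d_lc.Cube
import Pool.Agent.P.MP_ef347d_lc.SignB
import Pool.Agent.P.MP_ef347d_lc.Rot
import Pool.Agent.P.MP_ef347d_lc.KacRice
import Pool.Agent.P.MP_ef347d_lc.Trace

/-! The tail bound for the speed of the central path of a Gaussian matrix. -/

namespace Pool.Agent.P.MP_ef347d_lc

open Matrix MeasureTheory ProbabilityTheory

section speed

variable {M d : ℕ}

lemma sc_mul (s : Fin M → ℝ) (A : Matrix (Fin M) (Fin d) ℝ) (O : Matrix (Fin d) (Fin d) ℝ) :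
    sc s (A * O) = sc s A * O := by rw [sc, sc, Matrix.mul_assoc]

lemma Pr_mul_orth (A : Matrix (Fin M) (Fin d) ℝ) {O : Matrix (Fin d) (Fin d) ℝ}
    (hO : O * Oᵀ = 1) : Pr (A * O) = Pr A := by
  have hO' : Oᵀ * O = 1 := mul_eq_one_comm.mp hO
  have h1 : O⁻¹ = Oᵀ := inv_eq_right_inv hO
  have h2 : (Oᵀ)⁻¹ = O := inv_eq_right_inv hO'
  have : (A * O)ᵀ * (A * O) = Oᵀ * (Aᵀ * A) * O := by
    simp only [transpose_mul, Matrix.mul_assoc]
  rw [Pr, this, Matrix.mul_inv_rev, Matrix.mul_inv_rev, h1, h2, Pr, transpose_mul]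
  simp only [Matrix.mul_assoc]
  rw [← Matrix.mul_assoc O Oᵀ, hO, Matrix.one_mul, ← Matrix.mul_assoc O Oᵀ, hO, Matrix.one_mul]

lemma Gall_orth (s : Fin M → ℝ) (A : Matrix (Fin M) (Fin d) ℝ) (O : Matrix (Fin d) (Fin d) ℝ)
    (hO : O * Oᵀ = 1) : Gall s (A * O) = Gall s A := by
  have : (sc s A * O)ᵀ * (sc s A * O) = Oᵀ * ((sc s A)ᵀ * sc s A) * O := by
    simp only [transpose_mul, Matrix.mul_assoc]
  have h1 : O.det * Oᵀ.det = 1 := by rw [← det_mul, hO, det_one]
  rw [Gall, Gall, sc_mul, this, det_mul, det_mul]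
  congr 1
  linear_combination ((sc s A)ᵀ * sc s A).det * h1

lemma Gbad_orth (τ μ : ℝ) (s : Fin M → ℝ) (A : Matrix (Fin M) (Fin d) ℝ)
    (O : Matrix (Fin d) (Fin d) ℝ) (hO : O * Oᵀ = 1) : Gbad τ μ s (A * O) = Gbad τ μ s A := by
  rw [Gbad, Gbad, Gall_orth _ _ _ hO, sc_mul, Pr_mul_orth _ hO]

lemma proj_u {u : Fin d → ℝ} (hu : u ⬝ᵥ u = 1) : IsProj (1 - vecMulVec u u) := by
  refine IsProj.compl ⟨by rw [transpose_vecMulVec], ?_⟩
  rw [vecMulVec_mul_vecMulVec, hu]; simp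

lemma compl_u {u : Fin d → ℝ} (hu : u ⬝ᵥ u = 1) : (1 - vecMulVec u u) *ᵥ u = 0 := by
  rw [sub_mulVec, one_mulVec, vecMulVec_mulVec, hu]; simp

/-- splitting a Gaussian matrix along a unit vector -/
lemma plant_preserving {u : Fin d → ℝ} (hu : u ⬝ᵥ u = 1) :
    MeasurePreserving (fun p : (Fin M → ℝ) × (Fin M × Fin d → ℝ) =>
      fun q : Fin M × Fin d => plant p.1 u (mat p.2) q.1 q.2)
      ((gam (Fin M)).prod (gam (Fin M × Fin d))) (gam (Fin M × Fin d)) := by
  let f : (Fin M → ℝ) →ₗ[ℝ] (Fin M × Fin d → ℝ) :=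
    { toFun := fun a q => a q.1 * u q.2
      map_add' := fun x y => by ext; simp [add_mul]
      map_smul' := fun c x => by ext; simp [mul_assoc] }
  let f' : (Fin M × Fin d → ℝ) →ₗ[ℝ] (Fin M × Fin d → ℝ) :=
    { toFun := fun z q => (mat z * (1 - vecMulVec u u) : Matrix (Fin M) (Fin d) ℝ) q.1 q.2
      map_add' := fun x y => by
        ext; simp [Matrix.mul_apply, mat, add_mul, Finset.sum_add_distrib]
      map_smul' := fun c x => by ext; simp [Matrix.mul_apply, mat, Finset.mul_sum, mul_assoc] }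
  have hP := proj_u hu
  have hf' : ∀ z, mat (f' z) = mat z * (1 - vecMulVec u u) := fun z => rfl
  have h := gam_map₂ f f' (fun w => mat w *ᵥ u) f' (fun a w => ?_) (fun z w => ?_) (fun w => ?_)
  · exact h
  · simp only [f, LinearMap.coe_mk, AddHom.coe_mk, dotProduct, Fintype.sum_prod_type, mulVec, mat,
      of_apply, Finset.mul_sum]
    exact Finset.sum_congr rfl fun i _ => Finset.sum_congr rfl fun j _ => by ring
  · rw [Good3.dot_eq_trace, Good3.dot_eq_trace, hf', hf', transpose_mul, hP.1, Matrix.mul_assoc,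
      Matrix.trace_mul_comm, Matrix.mul_assoc]
  · rw [Good3.dot_eq_trace (f' w), Good3.dot_eq_trace w, hf', transpose_mul, hP.1,
      Matrix.mul_assoc, Matrix.trace_mul_comm, Matrix.mul_assoc, Matrix.mul_assoc, hP.2,
      ← Matrix.mul_assoc, Matrix.mul_sub, Matrix.mul_one, trace_sub, mul_vecMulVec,
      trace_vecMulVec, ← mulVec_mulVec, mulVec_dot, dotProduct_comm u]
    ring

lemma plant_mulVec {u : Fin d → ℝ} (hu : u ⬝ᵥ u = 1) (a : Fin M → ℝ)
    (B : Matrix (Fin M) (Fin d) ℝ) (R : ℝ) : plant a u B *ᵥ (R • u) = R • a := by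
  rw [mulVec_smul, plant, add_mulVec, vecMulVec_mulVec, hu, ← mulVec_mulVec, compl_u hu]; simp

lemma plant_norm {u : Fin d → ℝ} (hu : u ⬝ᵥ u = 1) (a β : Fin M → ℝ)
    (B : Matrix (Fin M) (Fin d) ℝ) :
    ((plant a u B)ᵀ *ᵥ β) ⬝ᵥ ((plant a u B)ᵀ *ᵥ β) = (a ⬝ᵥ β) ^ 2 +
      ((1 - vecMulVec u u) *ᵥ (Bᵀ *ᵥ β)) ⬝ᵥ ((1 - vecMulVec u u) *ᵥ (Bᵀ *ᵥ β)) := by
  have hP := proj_u hu
  have h1 : (plant a u B)ᵀ *ᵥ β = (a ⬝ᵥ β) • u + (1 - vecMulVec u u) *ᵥ (Bᵀ *ᵥ β) := by
    rw [plant, transpose_add, add_mulVec, transpose_vecMulVec, vecMulVec_mulVec, transpose_mul,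
      hP.1, mulVec_mulVec]
    simp
  have h2 : u ⬝ᵥ ((1 - vecMulVec u u) *ᵥ (Bᵀ *ᵥ β)) = 0 := by
    rw [← hP.adj, compl_u hu, zero_dotProduct]
  rw [h1, add_dotProduct, dotProduct_add, dotProduct_add, smul_dotProduct, smul_dotProduct,
    dotProduct_smul, dotProduct_smul, hu, h2, dotProduct_comm _ u, h2]
  simp [sq]

lemma meas_krw (μ η : ℝ) (x : Fin d → ℝ) :
    Measurable fun z : Fin M × Fin d → ℝ => krw μ η (mat z) x := by
  have hs : ∀ k, Measurable fun z : Fin M × Fin d → ℝ => sl (mat z) x k := by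
    intro k
    simp only [sl, mulVec, dotProduct, mat, of_apply]
    fun_prop
  unfold krw
  refine Measurable.ite ?_ ?_ measurable_const
  · rw [Set.ofPred_forall]
    exact MeasurableSet.iInter fun k => measurableSet_lt measurable_const (hs k)
  · refine meas_gd.comp (measurable_pi_lambda _ fun j => ?_)
    simp only [nv, mulVec, dotProduct, mat, of_apply, transpose_apply, Pi.smul_apply, smul_eq_mul]
    have := hs
    simp only [mat] at this
    fun_prop

open Classical in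
lemma split_step {μ η R : ℝ} {u : Fin d → ℝ} (hu : u ⬝ᵥ u = 1)
    (G : (Fin M → ℝ) → Matrix (Fin M) (Fin d) ℝ → ENNReal)
    (hG : Measurable fun p : (Fin M → ℝ) × (Fin M × Fin d → ℝ) => G p.1 (mat p.2)) :
    ∫⁻ z, krw μ η (mat z) (R • u) * G (sl (mat z) (R • u)) (mat z) ∂gam (Fin M × Fin d) =
      ∫⁻ a : Fin M → ℝ, (if ∀ k, 0 < 1 + R * a k then ENNReal.ofReal ((√(2 * Real.pi))⁻¹ ^ d *
        Real.exp (-((a ⬝ᵥ fun k => μ / (1 + R * a k) - 1) ^ 2 / η ^ 2) / 2)) else 0) *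
        tiltI (G fun k => 1 + R * a k) a (fun k => μ / (1 + R * a k) - 1) η u ∂gam (Fin M) := by
  have hs : Measurable fun z : Fin M × Fin d → ℝ => sl (mat z) (R • u) := by
    refine measurable_pi_lambda _ fun k => ?_
    simp only [sl, mulVec, dotProduct, mat, of_apply]
    fun_prop
  have hm : Measurable fun z : Fin M × Fin d → ℝ =>
      krw μ η (mat z) (R • u) * G (sl (mat z) (R • u)) (mat z) :=
    (meas_krw μ η _).mul (hG.comp (hs.prodMk measurable_id))
  have hp := plant_preserving (M := M) hu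
  rw [← hp.lintegral_comp hm]
  refine (lintegral_prod _ (hm.comp hp.measurable).aemeasurable).trans ?_
  refine lintegral_congr fun a => ?_
  simp only [Function.comp_apply]
  have e1 : ∀ z : Fin M × Fin d → ℝ,
      mat (fun q : Fin M × Fin d => plant a u (mat z) q.1 q.2) = plant a u (mat z) := fun z => rfl
  have e2 : ∀ B : Matrix (Fin M) (Fin d) ℝ, sl (plant a u B) (R • u) = fun k => 1 + R * a k := by
    intro B; ext k; rw [sl, plant_mulVec hu]; simp
  simp only [e1, e2, krw]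
  split_ifs with h
  · rw [tiltI, ← lintegral_const_mul' _ _ ENNReal.ofReal_ne_top]
    refine lintegral_congr fun z => ?_
    rw [← mul_assoc, ← ENNReal.ofReal_mul (by positivity)]
    congr 2
    rw [gd, smul_dotProduct, dotProduct_smul, nv, e2, plant_norm hu, Fintype.card_fin, mul_assoc,
      ← Real.exp_add]
    congr 2
    simp only [smul_eq_mul]
    ring
  · simp

lemma tilt_step {τ₀ τ : ℕ} (hc : Cube τ₀) (hτ : τ₀ ≤ τ) (h1 : τ ^ 13 < M) (h2 : M ≤ 2 ^ τ)
    (hd : d ≤ M) {μ R η : ℝ} (hμ : 1 < μ) (hR : R ≠ 0) (hη : 0 < η) {u : Fin d → ℝ}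
    (hu : u ⬝ᵥ u = 1) {a : Fin M → ℝ} (hs : ∀ k, 0 < 1 + R * a k) :
    tiltI (Gbad τ μ fun k => 1 + R * a k) a (fun k => μ / (1 + R * a k) - 1) η u ≤
      ENNReal.ofReal (Real.exp (-17 * (τ : ℝ))) *
        tiltI (Gall fun k => 1 + R * a k) a (fun k => μ / (1 + R * a k) - 1) η u := by
  obtain ⟨κ₁, κ₂, h10, h1t, -, -, hk⟩ := rot_step a (fun k => μ / (1 + R * a k) - 1) hη hu
  have hb := hk (Gbad τ μ fun k => 1 + R * a k)
    ((measurable_Gbad (M := M) (d := d) τ μ).of_uncurry_left (x := fun k => 1 + R * a k)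
      (f := fun s z => Gbad τ μ s (mat z))) (Gbad_orth _ _ _)
  have ha := hk (Gall fun k => 1 + R * a k)
    ((measurable_Gall (M := M) (d := d)).of_uncurry_left (x := fun k => 1 + R * a k)
      (f := fun s z => Gall s (mat z))) (Gall_orth _)
  have hsym := sign_step (d := d) (η := η) hc hτ h1 h2 hd hμ hR hs
  have e : (fun k => (1 + R * a k - 1) / R) = a := by ext k; field_simp; ring
  simp only [e] at hsym
  rw [← ENNReal.mul_le_mul_iff_right h10 h1t, hb, mul_left_comm, ha, mul_left_comm]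
  exact mul_le_mul_right hsym _

theorem speed_tail : SpeedTail := by
  obtain ⟨τ₁, hc⟩ := cube
  obtain ⟨ε, hε, hε', τ₂, hp⟩ := good_primal
  obtain ⟨τ₃, h3⟩ := exists_nat_ge (128 / ε ^ 3)
  refine ⟨τ₁ + τ₂ + τ₃ + 2, fun τ M d hτ h1 h2 h4 h5 μ hμ => ?_⟩
  have hτ2 : τ ^ 2 ≤ M := le_trans (Nat.pow_le_pow_right (by omega) (by norm_num)) h1.le
  have hM : 1 ≤ M := by omega
  have hd : d ≤ M := by omega
  have hετ : 128 ≤ ε ^ 3 * (τ : ℝ) := by
    have : (τ₃ : ℝ) ≤ τ := by exact_mod_cast (by omega : τ₃ ≤ τ)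
    rw [div_le_iff₀ (by positivity)] at h3
    nlinarith [pow_pos hε 3]
  have k1 := hp τ M d (by omega) hτ2 h2 h4 h5 μ hμ
  have k2 : gam (Fin M × Fin d) {z | IsUnit ((mat z)ᵀ * mat z).det ∧ PBad ε τ μ (1 - Pr (mat z))} ≤
      ENNReal.ofReal (Real.exp (-20 * (τ : ℝ))) := by
    have l1 := law_dual hd _ (measurable_pbad (M := M) ε τ μ (by linarith))
    have l2 := hp τ M (M - d) (by omega) hτ2 h2 (by omega) (by omega) μ hμ
    have l3 := gam_rank (ι := Fin M) (κ := Fin (M - d)) (by simp)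
    refine le_trans (measure_mono fun z hz => ?_) (l1.le.trans (le_trans ?_ l2))
    · exact ⟨(isProj_Pr hz.1).compl, hz.2⟩
    · refine measure_mono_ae ?_
      filter_upwards [l3] with z hz h
      exact ⟨hz, h.2⟩
  have k3 := kr_main (M := M) (d := d) (τ := τ) (μ := μ) (by omega) (by linarith)
    (ENNReal.ofReal (Real.exp (-17 * (τ : ℝ)))) measurable_Gall (measurable_Gbad _ _) (by
      intro η hη x hx
      have hxx : 0 < x ⬝ᵥ x :=
        lt_of_le_of_ne (dot_self_nonneg x) fun h => hx (dotProduct_self_eq_zero.mp h.symm)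
      have hR : 0 < √(x ⬝ᵥ x) := Real.sqrt_pos.mpr hxx
      have hu : unitv x ⬝ᵥ unitv x = 1 := by
        rw [unitv, smul_dotProduct, dotProduct_smul, smul_eq_mul, smul_eq_mul]
        have := Real.mul_self_sqrt hxx.le
        field_simp
        linarith
      have hxe : x = √(x ⬝ᵥ x) • unitv x := by rw [unitv, smul_smul, mul_inv_cancel₀ hR.ne', one_smul]
      rw [hxe, split_step hu (Gbad τ μ) (measurable_Gbad _ _), split_step hu Gall measurable_Gall,
        ← lintegral_const_mul' _ _ ENNReal.ofReal_ne_top]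
      refine lintegral_mono fun a => ?_
      split_ifs with h
      · rw [mul_left_comm]
        exact mul_le_mul_right (tilt_step hc (by omega) h1 h2 hd hμ hR.ne' hη hu h) _
      · simp)
  refine le_trans (measure_mono (t := (_ ∪ _) ∪ _) fun z hz => ?_)
    (le_trans (measure_union_le _ _) (le_trans (add_le_add (le_trans (measure_union_le _ _)
      (add_le_add k1 k2)) k3) ?_))
  · by_cases c1 : PBad ε τ μ (Pr (mat z))
    · exact Or.inl (Or.inl ⟨hz.1, c1⟩)
    by_cases c2 : PBad ε τ μ (1 - Pr (mat z))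
    · exact Or.inl (Or.inr ⟨hz.1, c2⟩)
    exact Or.inr ⟨hz.1, phi_of_fast hz.1 hε hε' hετ hμ c1 c2 hz.2⟩
  · rw [← ENNReal.ofReal_ofNat 2, ← ENNReal.ofReal_mul (by norm_num),
      ← ENNReal.ofReal_add (by positivity) (by positivity),
      ← ENNReal.ofReal_add (by positivity) (by positivity)]
    apply ENNReal.ofReal_le_ofReal
    have ht : (2 : ℝ) ≤ τ := by exact_mod_cast (by omega : 2 ≤ τ)
    have e1 : Real.exp (-20 * (τ : ℝ)) ≤ Real.exp (-17 * (τ : ℝ)) :=
      Real.exp_le_exp.mpr (by linarith)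
    have e2 : Real.exp (-15 * (τ : ℝ)) = Real.exp (-17 * (τ : ℝ)) * Real.exp (2 * τ) := by
      rw [← Real.exp_add]; congr 1; ring
    have e3 := Real.add_one_le_exp (2 * (τ : ℝ))
    have e4 := Real.exp_pos (-17 * (τ : ℝ))
    rw [e2]
    nlinarith

end speed

end Pool.Agent.P.MP_ef347d_lc
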