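import Pool.Agent.P.MP_ef347d_lc.Calc

/-! Certificates of unboundedness and infeasibility. -/

namespace Pool.Agent.P.MP_ef347d_lc

open Matrix

namespace UI

/-! ### padding -/

/-- the first `M` coordinates -/
def res {N M : ℕ} (h : M ≤ N) (v : Fin N → ℝ) : Fin M → ℝ := fun i => v (Fin.castLE h i)

lemma padv_castLE {N M : ℕ} (h : M ≤ N) (x : Fin M → ℝ) (i : Fin M) :
    padv (N := N) x (Fin.castLE h i) = x i := by simp [padv]

lemma res_padv {N M : ℕ} (h : M ≤ N) (x : Fin M → ℝ) : res h (padv x) = x :=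
  funext (padv_castLE h x)

lemma padv_of_ge {N M : ℕ} (x : Fin M → ℝ) {i : Fin N} (h : ¬i.val < M) : padv x i = 0 := by
  simp [padv, h]

lemma sum_res {N M : ℕ} (h : M ≤ N) (f : Fin N → ℝ) (hf : ∀ i : Fin N, ¬i.val < M → f i = 0) :
    ∑ i, f i = ∑ i : Fin M, f (Fin.castLE h i) := by
  symm
  refine Finset.sum_of_injOn (Fin.castLE h) (Fin.castLE_injective h).injOn (by simp) ?_ (by simp)
  intro i _ hi
  refine hf i fun hlt => hi ?_
  exact ⟨⟨i.val, hlt⟩, by simp, rfl⟩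

lemma padv_dot {N M : ℕ} (h : M ≤ N) (x : Fin M → ℝ) (v : Fin N → ℝ) :
    padv x ⬝ᵥ v = x ⬝ᵥ res h v := by
  unfold dotProduct
  rw [sum_res h _ fun i hi => by rw [padv_of_ge x hi, zero_mul]]
  simp only [padv_castLE, res]

lemma pad_mulVec {N M d : ℕ} (hd : d ≤ N) (A : Matrix (Fin M) (Fin d) ℝ) (v : Fin N → ℝ) :
    pad A *ᵥ v = padv (A *ᵥ res hd v) := by
  funext i
  by_cases hi : i.val < M
  · have : pad (N := N) A i = padv (A ⟨i.val, hi⟩) := by
      funext j; simp [pad, padv, hi]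
    simp only [padv, hi, dif_pos]
    rw [Matrix.mulVec, this, padv_dot hd]; rfl
  · rw [padv_of_ge _ hi]
    simp [Matrix.mulVec, dotProduct, pad, hi]

lemma pad_transpose {N M d : ℕ} (A : Matrix (Fin M) (Fin d) ℝ) :
    (pad (N := N) A)ᵀ = pad Aᵀ := by
  ext i j
  simp only [pad, transpose_apply, of_apply]
  by_cases h1 : j.val < M <;> by_cases h2 : i.val < d <;> simp [h1, h2]

lemma gram_mulVec {N M d : ℕ} (hM : M ≤ N) (hd : d ≤ N) (G : Matrix (Fin M) (Fin d) ℝ)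
    (v : Fin N → ℝ) (i : Fin N) :
    (((pad (N := N) G)ᵀ * pad G + (1 - rmask N d)) *ᵥ v) i =
      padv ((Gᵀ * G) *ᵥ res hd v) i + if i.val < d then 0 else v i := by
  rw [add_mulVec, ← mulVec_mulVec, pad_mulVec hd, pad_transpose, pad_mulVec hM, res_padv,
    mulVec_mulVec, sub_mulVec, one_mulVec]
  simp only [Pi.add_apply, Pi.sub_apply, rmask, mulVec_diagonal]
  split_ifs <;> simp

lemma gram_unit {N M d : ℕ} (hM : M ≤ N) (hd : d ≤ N) {G : Matrix (Fin M) (Fin d) ℝ}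
    (hG : IsUnit (Gᵀ * G).det) :
    IsUnit ((pad (N := N) G)ᵀ * pad G + (1 - rmask N d)).det := by
  rw [isUnit_iff_ne_zero] at hG ⊢
  intro h0
  obtain ⟨v, hv, hv0⟩ := Matrix.exists_mulVec_eq_zero_iff.2 h0
  have h1 : ∀ i : Fin N, padv ((Gᵀ * G) *ᵥ res hd v) i + (if i.val < d then 0 else v i) = 0 :=
    fun i => by rw [← gram_mulVec hM hd, hv0]; rfl
  have h2 : res hd v = 0 := by
    by_contra hne
    refine hG (Matrix.exists_mulVec_eq_zero_iff.1 ⟨_, hne, funext fun i => ?_⟩)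
    have := h1 (Fin.castLE hd i)
    rw [padv_castLE] at this
    simpa using this
  refine hv (funext fun i => ?_)
  by_cases hi : i.val < d
  · exact congrFun h2 ⟨i.val, hi⟩
  · have := h1 i
    rwa [padv_of_ge _ hi, zero_add, if_neg hi] at this

lemma gram_solve {N M d : ℕ} (hM : M ≤ N) (hd : d ≤ N) {G : Matrix (Fin M) (Fin d) ℝ}
    (hG : IsUnit (Gᵀ * G).det) (e : Fin d → ℝ) :
    ∃ r : Fin M → ℝ, Gᵀ *ᵥ r = e ∧
      pad (N := N) G *ᵥ (gramInv (pad G) d *ᵥ padv e) = padv r := by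
  refine ⟨_, ?_, pad_mulVec hd G _⟩
  funext i
  have := gram_mulVec hM hd G (gramInv (pad G) d *ᵥ padv e) (Fin.castLE hd i)
  rw [mulVec_mulVec, gramInv, mul_nonsing_inv _ (gram_unit hM hd hG), one_mulVec, padv_castLE,
    padv_castLE] at this
  rw [mulVec_mulVec, this, gramInv]
  simp

/-! ### the environment -/

variable {m n : ℕ}

lemma m_le : m ≤ NN m n := by unfold NN; omega
lemma n_le : n ≤ NN m n := by unfold NN; omega

lemma env0 (D : Idx m n → ℝ) (t : ℕ) : env D t 0 = cst t := rfl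
lemma env1 (D : Idx m n → ℝ) (t : ℕ) : env D t 1 = pad (dA D) := rfl
lemma env2 (D : Idx m n → ℝ) (t : ℕ) : (fun i => env D t 2 i 0) = padv (db D) := rfl
lemma env3 (D : Idx m n → ℝ) (t : ℕ) : (fun i => env D t 3 i 0) = padv (dc D) := rfl

open Classical in
/-- the result matrix of a checked certificate -/
noncomputable def outM (p : Prop) (s : ℕ) : Mt m n :=
  Matrix.of fun i _ => if i.val = 0 then (if p then 1 else 0) else s

lemma outM_pi {p : ∀ m n, (ℕ → Mt m n) → Prop} (hp : PP 4 fun m n Y _ _ => p m n Y) (s : ℕ) :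
    PI 4 fun m n Y => outM (p m n Y) s :=
  PE.ite (PP.natEq PE.rowIdx (PE.nat 0)) hp (PE.nat s)

lemma outM_pos {p : Prop} {s : ℕ} : 0 < (outM p s : Mt m n) 0 0 ↔ p := by
  by_cases h : p <;> simp [outM, h]

lemma outM_out (p : Prop) (s : ℕ) : outOf (outM p s : Mt m n) 0 = s := by
  have : 0 + 1 < NN m n := by unfold NN; omega
  simp [outOf, outM, this]

/-- a ray along which all constraints strictly improve gives feasible points -/
lemma ev_feasible (D : Idx m n → ℝ) {x : Fin n → ℝ} (hx : ∀ i, (dA D *ᵥ x) i < 0) :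
    ∀ᶠ r : ℝ in Filter.atTop, Feasible D (r • x) := by
  unfold Feasible
  rw [Filter.eventually_all]
  intro i
  have := (Filter.tendsto_id.atTop_mul_const_of_neg (hx i)).eventually_le_atBot (db D i)
  refine this.mono fun r hr => ?_
  rw [mulVec_smul]
  exact hr

lemma chk_unb {x : ∀ m n, (ℕ → Mt m n) → Fin (NN m n) → ℝ}
    (hx : PE 4 fun m n Y i _ => x m n Y i) : ∃ F, PI 4 F ∧ Sound F ∧
      ∀ (m n t : ℕ) (D : Idx m n → ℝ), (∀ i, (dA D *ᵥ res n_le (x m n (env D t))) i < 0) →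
        0 < dc D ⬝ᵥ res n_le (x m n (env D t)) → 0 < F m n (env D t) 0 0 := by
  let p : ∀ m n, (ℕ → Mt m n) → Prop := fun m n Y =>
    (∀ i : Fin (NN m n), i.val < m → (Y 1 *ᵥ x m n Y) i < 0) ∧
      0 < (fun i => Y 3 i 0) ⬝ᵥ x m n Y
  have hp : PP 4 fun m n Y _ _ => p m n Y :=
    PP.and (PP.allV (by norm_num) (PP.imp (PP.natLt PE.rowIdx PE.rows)
      (PP.lt (PE.mulVec (by norm_num) (PI.var (by norm_num)) hx) PE.zero)))
      (PP.lt PE.zero (PE.dot (by norm_num) (PE.vcol (by norm_num) (by norm_num)) hx))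
  have key : ∀ (m n t : ℕ) (D : Idx m n → ℝ), p m n (env D t) ↔
      (∀ i, (dA D *ᵥ res n_le (x m n (env D t))) i < 0) ∧
        0 < dc D ⬝ᵥ res n_le (x m n (env D t)) := by
    intro m n t D
    simp only [p]
    rw [env1, env3, pad_mulVec n_le, padv_dot n_le]
    refine and_congr_left fun _ => ⟨fun h i => ?_, fun h i hi => ?_⟩
    · have := h (Fin.castLE m_le i) i.2
      rwa [padv_castLE] at this
    · simp only [padv, hi, dif_pos]
      exact h _
  refine ⟨_, outM_pi hp 2, fun m n D t h => ?_,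
    fun m n t D h1 h2 => outM_pos.2 ((key m n t D).2 ⟨h1, h2⟩)⟩
  obtain ⟨h1, h2⟩ := (key m n t D).1 (outM_pos.1 h)
  refine Or.inr (Or.inr ⟨by rw [outM_out]; norm_num, fun R => ?_⟩)
  have h3 := (Filter.tendsto_id.atTop_mul_const h2).eventually_gt_atTop R
  obtain ⟨r, hr1, hr2⟩ := ((ev_feasible D h1).and h3).exists
  exact ⟨_, hr1, by rw [dotProduct_smul]; exact hr2⟩

lemma chk_inf {y : ∀ m n, (ℕ → Mt m n) → Fin (NN m n) → ℝ}
    (hy : PE 4 fun m n Y i _ => y m n Y i) : ∃ F, PI 4 F ∧ Sound F ∧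
      ∀ (m n t : ℕ) (D : Idx m n → ℝ), (∀ i, 0 ≤ y m n (env D t) i) →
        (dA D)ᵀ *ᵥ res m_le (y m n (env D t)) = 0 →
        db D ⬝ᵥ res m_le (y m n (env D t)) < 0 → 0 < F m n (env D t) 0 0 := by
  let p : ∀ m n, (ℕ → Mt m n) → Prop := fun m n Y =>
    (∀ i, 0 ≤ y m n Y i) ∧ (∀ i, ((Y 1)ᵀ *ᵥ y m n Y) i = 0) ∧ (fun i => Y 2 i 0) ⬝ᵥ y m n Y < 0
  have hp : PP 4 fun m n Y _ _ => p m n Y :=
    PP.and (PP.allV (by norm_num) (PP.le PE.zero hy)) (PP.and (PP.allV (by norm_num)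
      (PP.eq (PE.mulVec (by norm_num) (PI.transpose (PI.var (by norm_num))) hy) PE.zero))
      (PP.lt (PE.dot (by norm_num) (PE.vcol (by norm_num) (by norm_num)) hy) PE.zero))
  have key : ∀ (m n t : ℕ) (D : Idx m n → ℝ), p m n (env D t) ↔
      (∀ i, 0 ≤ y m n (env D t) i) ∧ (dA D)ᵀ *ᵥ res m_le (y m n (env D t)) = 0 ∧
        db D ⬝ᵥ res m_le (y m n (env D t)) < 0 := by
    intro m n t D
    simp only [p]
    rw [env1, env2, pad_transpose, pad_mulVec m_le, padv_dot m_le]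
    refine and_congr_right fun _ => and_congr_left fun _ => ⟨fun h => funext fun i => ?_,
      fun h i => ?_⟩
    · have := h (Fin.castLE n_le i)
      rwa [padv_castLE] at this
    · rw [h]; simp [padv]
  refine ⟨_, outM_pi hp 1, fun m n D t h => ?_,
    fun m n t D h1 h2 h3 => outM_pos.2 ((key m n t D).2 ⟨h1, h2, h3⟩)⟩
  obtain ⟨h1, h2, h3⟩ := (key m n t D).1 (outM_pos.1 h)
  refine Or.inr (Or.inl ⟨by rw [outM_out]; norm_num, fun x hx => ?_⟩)
  have h4 : (dA D *ᵥ x) ⬝ᵥ res m_le (y m n (env D t)) ≤ db D ⬝ᵥ res m_le (y m n (env D t)) :=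
    dotProduct_le_dotProduct_of_nonneg_right hx fun i => h1 _
  rw [dotProduct_comm, dotProduct_mulVec, ← mulVec_transpose, h2, zero_dotProduct] at h4
  linarith

/-! ### the three auxiliary matrices -/

lemma nS_le (t : ℕ) : nS m n t ≤ n := Nat.min_le_left _ _
lemma mS_le (t : ℕ) : mS m n t ≤ m := Nat.min_le_left _ _

lemma pp_nS : PP 4 fun m n Y i _ => i.val < nS m n (tOf (Y 0)) :=
  (PP.and (PP.natLt PE.rowIdx PE.cols) (PP.and
    (PP.natLt PE.rowIdx (PE.natAdd PE.rows (PE.nat 1)))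
    (PP.natLe (PE.natMul (PE.nat 3) PE.rowIdx)
      (PE.natAdd (PE.natMul (PE.nat 2) (PE.natAdd PE.rows (PE.nat 1)))
        (PE.natMul (PE.nat 4) (PE.tnat (by norm_num))))))).congr fun m n Y i _ => by
    unfold nS; omega

lemma pe_nS : PE 4 fun m n Y _ _ => (nS m n (tOf (Y 0)) : ℝ) := by
  refine (PE.sumV (by norm_num) (PE.ite pp_nS PE.one PE.zero)).congr fun m n Y _ _ => ?_
  rw [sum_res ((nS_le (tOf (Y 0))).trans n_le) _ fun i hi => if_neg hi]
  simp

lemma pe_mS : PE 4 fun m n Y _ _ => (mS m n (tOf (Y 0)) : ℝ) :=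
  PE.natMin PE.rows (PE.natAdd (PE.natAdd (PE.natMul (PE.nat 3) PE.cols) (PE.nat 3))
    (PE.natMul (PE.nat 4) (PE.tnat (by norm_num))))

/-- `pad G1` from the environment -/
noncomputable def P1 : MF := fun m n Y => Matrix.of fun i j =>
  if j.val < nS m n (tOf (Y 0)) then
    (if i.val < m then -Y 1 i j else if i.val = m then Y 3 j 0 else 0) else 0

/-- `pad G2` from the environment -/
noncomputable def P2 : MF := fun m n Y => Matrix.of fun i j =>
  if i.val < mS m n (tOf (Y 0)) then Y 1 i j else 0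

/-- `pad G3` from the environment -/
noncomputable def P3 : MF := fun m n Y => Matrix.of fun i j =>
  if i.val < mS m n (tOf (Y 0)) then (if j.val = n then Y 2 i 0 else Y 1 i j) else 0

lemma P1_pi : PI 4 P1 :=
  PE.ite (PP.swap pp_nS) (PE.ite (PP.natLt PE.rowIdx PE.rows) (PE.neg (PE.var (by norm_num)))
    (PE.ite (PP.natEq PE.rowIdx PE.rows) (PE.swap (PE.vcol (by norm_num) (by norm_num))) PE.zero))
    PE.zero

lemma P2_pi : PI 4 P2 := PE.ite (PP.natLt PE.rowIdx pe_mS) (PE.var (by norm_num)) PE.zero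

lemma P3_pi : PI 4 P3 :=
  PE.ite (PP.natLt PE.rowIdx pe_mS) (PE.ite (PP.natEq PE.colIdx PE.cols)
    (PE.vcol (by norm_num) (by norm_num)) (PE.var (by norm_num))) PE.zero

lemma P1_env (D : Idx m n → ℝ) (t : ℕ) : P1 m n (env D t) = pad (G1 t D) := by
  ext i j
  simp only [P1, env0, tOf_cst, pad, of_apply, G1]
  by_cases hj : j.val < nS m n t
  · have hj' : j.val < n := hj.trans_le (nS_le t)
    by_cases hi : i.val < m
    · simp [env, hj, hj', hi, Nat.lt_succ_of_lt hi, Fin.castLE]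
    · by_cases hi' : i.val = m
      · simp [env, hj, hj', hi', Fin.castLE]
      · have : ¬i.val < m + 1 := by omega
        simp [hj, hi, hi', this]
  · simp [hj]

lemma P2_env (D : Idx m n → ℝ) (t : ℕ) : P2 m n (env D t) = pad (G2 t D) := by
  ext i j
  simp only [P2, env0, tOf_cst, pad, of_apply, G2]
  by_cases hi : i.val < mS m n t
  · have hi' : i.val < m := hi.trans_le (mS_le t)
    simp [env, hi, hi', Fin.castLE]
  · simp [hi]

lemma P3_env (D : Idx m n → ℝ) (t : ℕ) : P3 m n (env D t) = pad (G3 t D) := by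
  ext i j
  simp only [P3, env0, tOf_cst, pad, of_apply, G3, G2, bS]
  by_cases hi : i.val < mS m n t
  · have hi' : i.val < m := hi.trans_le (mS_le t)
    by_cases hj : j.val < n
    · simp [env, hi, hi', hj, hj.ne, Nat.lt_succ_of_lt hj, Fin.castLE]
    · by_cases hj' : j.val = n
      · simp [env, hi, hi', hj', Fin.castLE]
      · have : ¬j.val < n + 1 := by omega
        simp [env, hi, hj, hj', this]
  · simp [hi]

/-- calling the solver on a computable matrix -/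
lemma call (O : Orc) (hO : O.Comp) {P : MF} (hP : PI 4 P) {a b : ∀ m n, (ℕ → Mt m n) → ℕ}
    (ha : PE 4 fun m n Y _ _ => (a m n Y : ℝ)) (hb : PE 4 fun m n Y _ _ => (b m n Y : ℝ)) :
    ∃ x y : ∀ m n, (ℕ → Mt m n) → Fin (NN m n) → ℝ,
      (PE 4 fun m n Y i _ => x m n Y i) ∧ (PE 4 fun m n Y i _ => y m n Y i) ∧
      ∀ (m n t M d : ℕ) (A : Matrix (Fin M) (Fin d) ℝ) (Y : ℕ → Mt m n), M ≤ NN m n →
        d ≤ NN m n → Y 0 = cst t → P m n Y = pad A → a m n Y = M → b m n Y = d →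
        x m n Y = padv (O (NN m n) t M d A).1 ∧ y m n Y = padv (O (NN m n) t M d A).2 := by
  obtain ⟨Fx, Fy, hx, hy, h⟩ := hO
  let g : ℕ → MF := fun i =>
    if i = 1 then P else if i = 2 then fun m n Y => cst (a m n Y) else fun m n Y => cst (b m n Y)
  have hg : ∀ i, 0 < i → i < 4 → PI 4 (g i) := by
    intro i _ _
    simp only [g]
    split_ifs
    exacts [hP, PE.toCst ha, PE.toCst hb]
  refine ⟨_, _, PE.col0 (by norm_num) (PI.call (by norm_num) hx g hg).pe,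
    PE.col0 (by norm_num) (PI.call (by norm_num) hy g hg).pe, ?_⟩
  intro m n t M d A Y hM hd h0 h1 h2 h3
  obtain ⟨e1, e2⟩ := h m n t M d A (fun i => if i = 0 then Y 0 else g i m n Y) hM hd
    (by simpa using h0) (by simpa [g] using h1) (by simp [g, h2]) (by simp [g, h3])
  exact ⟨funext fun i => by rw [e1]; rfl, funext fun i => by rw [e2]; rfl⟩

lemma res_padv2 {N M K : ℕ} (h : M ≤ N) (h' : K ≤ M) (y : Fin K → ℝ) (i : Fin K) :
    res h (padv y) (Fin.castLE h' i) = y i := by simp [res, padv]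

lemma G2_mulVec (D : Idx m n → ℝ) (t : ℕ) (y : Fin (mS m n t) → ℝ) :
    (dA D)ᵀ *ᵥ res m_le (padv (N := NN m n) y) = (G2 t D)ᵀ *ᵥ y := by
  funext j
  simp only [mulVec, dotProduct, transpose_apply]
  rw [sum_res (mS_le t) _ fun i hi => by
    rw [res, padv_of_ge _ (by simpa using hi), mul_zero]]
  refine Finset.sum_congr rfl fun i _ => ?_
  rw [res_padv2]; rfl

lemma bS_dot (D : Idx m n → ℝ) (t : ℕ) (y : Fin (mS m n t) → ℝ) :
    db D ⬝ᵥ res m_le (padv (N := NN m n) y) = bS t D ⬝ᵥ y := by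
  simp only [dotProduct]
  rw [sum_res (mS_le t) _ fun i hi => by
    rw [res, padv_of_ge _ (by simpa using hi), mul_zero]]
  refine Finset.sum_congr rfl fun i _ => ?_
  rw [res_padv2]; rfl

lemma G3T_cast (D : Idx m n → ℝ) (t : ℕ) (y : Fin (mS m n t) → ℝ) (j : Fin n) :
    ((G3 t D)ᵀ *ᵥ y) j.castSucc = ((G2 t D)ᵀ *ᵥ y) j := by
  simp [mulVec, dotProduct, G3]

lemma G3T_last (D : Idx m n → ℝ) (t : ℕ) (y : Fin (mS m n t) → ℝ) :
    ((G3 t D)ᵀ *ᵥ y) (Fin.last n) = bS t D ⬝ᵥ y := by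
  simp [mulVec, dotProduct, G3]

lemma G1_cast_apply (D : Idx m n → ℝ) (t : ℕ) (i : Fin m) (j : Fin (nS m n t)) :
    G1 t D i.castSucc j = -dA D i (Fin.castLE (nS_le t) j) := by
  simp only [G1, of_apply, Fin.val_castSucc, i.2, dif_pos]
  rfl

lemma G1_last_apply (D : Idx m n → ℝ) (t : ℕ) (j : Fin (nS m n t)) :
    G1 t D (Fin.last m) j = dc D (Fin.castLE (nS_le t) j) := by
  simp only [G1, of_apply, Fin.val_last, lt_irrefl, dif_neg, not_false_eq_true]
  rfl

lemma G1_row (D : Idx m n → ℝ) (t : ℕ) (x : Fin (nS m n t) → ℝ) (i : Fin m) :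
    (G1 t D *ᵥ x) i.castSucc = -(dA D *ᵥ res n_le (padv (N := NN m n) x)) i := by
  simp only [mulVec, dotProduct]
  rw [sum_res (nS_le t) (fun j => dA D i j * res n_le (padv (N := NN m n) x) j) fun j hj => by
    rw [res, padv_of_ge _ (by simpa using hj), mul_zero], ← Finset.sum_neg_distrib]
  refine Finset.sum_congr rfl fun j _ => ?_
  rw [res_padv2, G1_cast_apply, neg_mul]

lemma G1_last (D : Idx m n → ℝ) (t : ℕ) (x : Fin (nS m n t) → ℝ) :
    (G1 t D *ᵥ x) (Fin.last m) = dc D ⬝ᵥ res n_le (padv (N := NN m n) x) := by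
  simp only [mulVec, dotProduct]
  rw [sum_res (nS_le t) (fun j => dc D j * res n_le (padv (N := NN m n) x) j) fun j hj => by
    rw [res, padv_of_ge _ (by simpa using hj), mul_zero]]
  refine Finset.sum_congr rfl fun j _ => ?_
  rw [res_padv2, G1_last_apply]

lemma padv_nonneg {N M : ℕ} {y : Fin M → ℝ} (hy : ∀ i, 0 ≤ y i) (i : Fin N) : 0 ≤ padv y i := by
  unfold padv; split_ifs
  exacts [hy _, le_rfl]

end UI

open UI

theorem solver_unb (O : Orc) (hO : O.Comp) : ∃ F, PI 4 F ∧ Sound F ∧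
    ∀ (m n t : ℕ) (D : Idx m n → ℝ), O.Pri (NN m n) t (G1 t D) → 0 < F m n (env D t) 0 0 := by
  obtain ⟨x, y, hx, -, h⟩ := call O hO P1_pi (a := fun m _ _ => m + 1)
    (PE.natAdd PE.rows (PE.nat 1)) pe_nS
  obtain ⟨F, hF, hS, hc⟩ := chk_unb hx
  refine ⟨F, hF, hS, fun m n t D hp => ?_⟩
  have e := (h m n t _ _ (G1 t D) (env D t) (by unfold NN; omega) ((nS_le t).trans n_le) rfl
    (P1_env D t) rfl (by rw [env0, tOf_cst])).1
  refine hc m n t D (fun i => ?_) ?_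
  · have := hp i.castSucc
    rw [G1_row] at this
    rw [e]; linarith
  · have := hp (Fin.last m)
    rwa [G1_last, ← e] at this

theorem solver_or {F G : MF} (hF : PI 4 F) (hG : PI 4 G) (sF : Sound F) (sG : Sound G) :
    ∃ H, PI 4 H ∧ Sound H ∧
      ∀ m n Y, (0 < F m n Y 0 0 ∨ 0 < G m n Y 0 0) → 0 < H m n Y 0 0 := by
  refine ⟨fun m n Y => if 0 < F m n Y 0 0 then F m n Y else G m n Y,
    PI.ite (PP.lt PE.zero (PE.ent0 (by norm_num) hF.pe)) hF hG, fun m n D t h => ?_,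
    fun m n Y h => ?_⟩
  · by_cases h1 : 0 < F m n (env D t) 0 0
    · simp only [if_pos h1]; exact sF m n D t h1
    · simp only [if_neg h1] at h ⊢; exact sG m n D t h
  · by_cases h1 : 0 < F m n Y 0 0
    · simp only [if_pos h1]; exact h1
    · simp only [if_neg h1]; exact h.resolve_left h1

theorem solver_inf2 (O : Orc) (hO : O.Comp) : ∃ F, PI 4 F ∧ Sound F ∧
    ∀ (m n t : ℕ) (D : Idx m n → ℝ), O.Dua (NN m n) t (G2 t D) →
      bS t D ⬝ᵥ (O (NN m n) t _ _ (G2 t D)).2 < 0 → 0 < F m n (env D t) 0 0 := by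
  obtain ⟨x, y, -, hy, h⟩ := call O hO P2_pi (b := fun _ n _ => n) pe_mS PE.cols
  obtain ⟨F, hF, hS, hc⟩ := chk_inf hy
  refine ⟨F, hF, hS, fun m n t D hp hb => ?_⟩
  have e := (h m n t _ _ (G2 t D) (env D t) ((mS_le t).trans m_le) n_le rfl
    (P2_env D t) (by rw [env0, tOf_cst]) rfl).2
  refine hc m n t D (fun i => ?_) ?_ ?_
  · rw [e]; exact padv_nonneg (fun i => (hp.1 i).le) i
  · rw [e, G2_mulVec, hp.2]
  · rw [e, bS_dot]; exact hb

theorem solver_inf3 (O : Orc) (hO : O.Comp) : ∃ F, PI 4 F ∧ Sound F ∧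
    ∀ (m n t : ℕ) (D : Idx m n → ℝ), O.Dua (NN m n) t (G3 t D) →
      IsUnit ((G3 t D)ᵀ * G3 t D).det → 0 < F m n (env D t) 0 0 := by
  have hn : PE 4 fun _ n _ _ _ => ((n + 1 : ℕ) : ℝ) := PE.natAdd PE.cols (PE.nat 1)
  obtain ⟨x, y, -, hy, h⟩ := call O hO P3_pi (b := fun _ n _ => n + 1) pe_mS hn
  have hG : PI 4 fun m n Y => gramInv (P3 m n Y) (n + 1) :=
    PI.inv (by norm_num) (PI.add (PI.mul (by norm_num) (PI.transpose P3_pi) P3_pi)
      (PI.sub PI.one (PI.rmask hn))) fun m n Y => by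
        simp [rmask, transpose_add, transpose_sub, transpose_mul]
  let r : ∀ m n, (ℕ → Mt m n) → Fin (NN m n) → ℝ := fun m n Y =>
    P3 m n Y *ᵥ (gramInv (P3 m n Y) (n + 1) *ᵥ fun i => if i.val = n then 1 else 0)
  have hr : PE 4 fun m n Y i _ => r m n Y i :=
    PE.mulVec (by norm_num) P3_pi (PE.mulVec (by norm_num) hG
      (PE.ite (PP.natEq PE.rowIdx PE.cols) PE.one PE.zero))
  obtain ⟨F, hF, hS, hc⟩ := chk_inf
    (y := fun m n Y i => y m n Y i - r m n Y i / (1 + ∑ l, (r m n Y l / y m n Y l) ^ 2))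
    (PE.sub hy (PE.div hr (PE.add PE.one (PE.sumV (by norm_num) (PE.pow (PE.div hr hy) 2)))))
  refine ⟨F, hF, hS, fun m n t D hp hu => ?_⟩
  have hM : mS m n t ≤ NN m n := (mS_le t).trans m_le
  have hd : n + 1 ≤ NN m n := by unfold NN; omega
  have e := (h m n t _ _ (G3 t D) (env D t) hM hd rfl (P3_env D t) (by rw [env0, tOf_cst]) rfl).2
  obtain ⟨ρ, hρ, e'⟩ := gram_solve hM hd hu (Pi.single (Fin.last n) 1)
  have er : r m n (env D t) = padv ρ := by
    rw [← e']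
    simp only [r, P3_env]
    congr 2
    funext i
    by_cases hi : i.val < n + 1
    · simp [padv, hi, Pi.single_apply, Fin.ext_iff]
    · rw [padv_of_ge _ hi, if_neg (by omega)]
  obtain ⟨hl, hl0⟩ := hp
  generalize (O (NN m n) t _ _ (G3 t D)).2 = lam at e hl hl0
  set c : ℝ := 1 + ∑ l, (r m n (env D t) l / y m n (env D t) l) ^ 2 with hc'
  have hsum : ∀ l, (r m n (env D t) l / y m n (env D t) l) ^ 2 ≤
      ∑ l, (r m n (env D t) l / y m n (env D t) l) ^ 2 := fun l =>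
    Finset.single_le_sum (f := fun l => (r m n (env D t) l / y m n (env D t) l) ^ 2)
      (fun _ _ => sq_nonneg _) (Finset.mem_univ l)
  have hc0 : 0 < c := by
    have := (sq_nonneg _).trans (hsum 0)
    linarith
  have ey : (fun i => y m n (env D t) i - r m n (env D t) i / c) = padv (lam - c⁻¹ • ρ) := by
    funext i
    rw [e, er]
    by_cases hi : i.val < mS m n t
    · simp [padv, hi, div_eq_inv_mul]
    · simp [padv, hi]
  have hT : (G3 t D)ᵀ *ᵥ (lam - c⁻¹ • ρ) = -(c⁻¹ • Pi.single (Fin.last n) 1) := by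
    rw [mulVec_sub, mulVec_smul, hl0, hρ, zero_sub]
  refine hc m n t D (fun i => ?_) ?_ ?_
  · show 0 ≤ (fun i => y m n (env D t) i - r m n (env D t) i / c) i
    rw [ey]
    refine padv_nonneg (fun i => ?_) i
    have h1 := hsum (Fin.castLE hM i)
    have h2 : ρ i / lam i ≤ c := by
      conv_lhs at h1 => rw [e, er, padv_castLE, padv_castLE]
      nlinarith [sq_nonneg (ρ i / lam i - 1)]
    rw [div_le_iff₀ (hl i)] at h2
    simp only [Pi.sub_apply, Pi.smul_apply, smul_eq_mul]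
    rw [sub_nonneg, inv_mul_le_iff₀ hc0]
    exact h2
  · show (dA D)ᵀ *ᵥ res m_le (fun i => y m n (env D t) i - r m n (env D t) i / c) = 0
    rw [ey, G2_mulVec]
    funext j
    rw [← G3T_cast, hT]
    simp [Fin.castSucc_ne_last]
  · show db D ⬝ᵥ res m_le (fun i => y m n (env D t) i - r m n (env D t) i / c) < 0
    rw [ey, bS_dot, ← G3T_last, hT]
    simpa using hc0

theorem solver_inf (O : Orc) (hO : O.Comp) : ∃ F, PI 4 F ∧ Sound F ∧
    ∀ (m n t : ℕ) (D : Idx m n → ℝ),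
      ((O.Dua (NN m n) t (G2 t D) ∧ bS t D ⬝ᵥ (O (NN m n) t _ _ (G2 t D)).2 < 0) ∨
        (O.Dua (NN m n) t (G3 t D) ∧ IsUnit ((G3 t D)ᵀ * G3 t D).det)) →
      0 < F m n (env D t) 0 0 := by
  obtain ⟨F, hF, sF, cF⟩ := solver_inf2 O hO
  obtain ⟨G, hG, sG, cG⟩ := solver_inf3 O hO
  obtain ⟨H, hH, sH, cH⟩ := solver_or hF hG sF sG
  exact ⟨H, hH, sH, fun m n t D h => cH m n _
    (h.imp (fun h => cF m n t D h.1 h.2) fun h => cG m n t D h.1 h.2)⟩

end Pool.Agent.P.MP_ef347d_lc
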